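import Mathlib

/-! The Hilbert-Schmidt product on `Hom ((ℂ^n, h₁), (ℂ^m, h₂))`. -/

set_option autoImplicit false

namespace Pool.Agent.Lib.MP_5c318e_ag.V

open Complex Matrix
open scoped ComplexConjugate ComplexOrder MatrixOrder

noncomputable section

variable {m n k : Type*} [Fintype m] [Fintype n] [Fintype k] [DecidableEq m] [DecidableEq n]
  [DecidableEq k]

/-- `tr (Z^† X)`, the adjoint being taken for `h₁` (source) and `h₂` (target); linear in `X` -/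
def ip (h₁ : Matrix n n ℂ) (h₂ : Matrix m m ℂ) (X Z : Matrix m n ℂ) : ℂ :=
  (h₁⁻¹ * Zᴴ * h₂ * X).trace

/-- the squared Hilbert-Schmidt norm -/
def nsq (h₁ : Matrix n n ℂ) (h₂ : Matrix m m ℂ) (X : Matrix m n ℂ) : ℝ := (ip h₁ h₂ X X).re

/-- the squared Frobenius norm -/
def fro (X : Matrix m n ℂ) : ℝ := ∑ i, ∑ j, ‖X i j‖ ^ 2

variable {h₁ : Matrix n n ℂ} {h₂ : Matrix m m ℂ} {h₃ : Matrix k k ℂ}

omit [DecidableEq m] in
theorem ip_add_left (X X' Z : Matrix m n ℂ) :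
    ip h₁ h₂ (X + X') Z = ip h₁ h₂ X Z + ip h₁ h₂ X' Z := by
  simp only [ip, Matrix.mul_add, trace_add]

omit [DecidableEq m] in
theorem ip_sub_left (X X' Z : Matrix m n ℂ) :
    ip h₁ h₂ (X - X') Z = ip h₁ h₂ X Z - ip h₁ h₂ X' Z := by
  simp only [ip, Matrix.mul_sub, trace_sub]

omit [DecidableEq m] in
theorem ip_smul_left (a : ℂ) (X Z : Matrix m n ℂ) : ip h₁ h₂ (a • X) Z = a * ip h₁ h₂ X Z := by
  simp only [ip, Matrix.mul_smul, trace_smul, smul_eq_mul]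

omit [DecidableEq m] in
theorem ip_add_right (X Z Z' : Matrix m n ℂ) :
    ip h₁ h₂ X (Z + Z') = ip h₁ h₂ X Z + ip h₁ h₂ X Z' := by
  simp only [ip, conjTranspose_add, Matrix.mul_add, Matrix.add_mul, trace_add]

omit [DecidableEq m] in
theorem ip_sub_right (X Z Z' : Matrix m n ℂ) :
    ip h₁ h₂ X (Z - Z') = ip h₁ h₂ X Z - ip h₁ h₂ X Z' := by
  simp only [ip, conjTranspose_sub, Matrix.mul_sub, Matrix.sub_mul, trace_sub]

omit [DecidableEq m] in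
theorem ip_smul_right (a : ℂ) (X Z : Matrix m n ℂ) :
    ip h₁ h₂ X (a • Z) = conj a * ip h₁ h₂ X Z := by
  simp only [ip, conjTranspose_smul, Matrix.mul_smul, Matrix.smul_mul, trace_smul, smul_eq_mul]
  rfl

omit [DecidableEq m] in
theorem ip_zero_left (Z : Matrix m n ℂ) : ip h₁ h₂ 0 Z = 0 := by simp [ip]

omit [DecidableEq m] in
theorem ip_zero_right (X : Matrix m n ℂ) : ip h₁ h₂ X 0 = 0 := by simp [ip]

omit [DecidableEq m] in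
theorem ip_neg_left (X Z : Matrix m n ℂ) : ip h₁ h₂ (-X) Z = -ip h₁ h₂ X Z := by simp [ip]

omit [DecidableEq m] in
theorem ip_neg_right (X Z : Matrix m n ℂ) : ip h₁ h₂ X (-Z) = -ip h₁ h₂ X Z := by simp [ip]

omit [DecidableEq m] in
theorem ip_sum_left {α : Type*} (s : Finset α) (X : α → Matrix m n ℂ) (Z : Matrix m n ℂ) :
    ip h₁ h₂ (∑ a ∈ s, X a) Z = ∑ a ∈ s, ip h₁ h₂ (X a) Z := by
  simp only [ip, Matrix.mul_sum, trace_sum]

omit [DecidableEq m] in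
theorem ip_sum_right {α : Type*} (s : Finset α) (X : Matrix m n ℂ) (Z : α → Matrix m n ℂ) :
    ip h₁ h₂ X (∑ a ∈ s, Z a) = ∑ a ∈ s, ip h₁ h₂ X (Z a) := by
  simp only [ip, conjTranspose_sum, Matrix.mul_sum, Matrix.sum_mul, trace_sum]

omit [DecidableEq m] in
theorem ip_conj (H₁ : h₁.IsHermitian) (H₂ : h₂.IsHermitian) (X Z : Matrix m n ℂ) :
    conj (ip h₁ h₂ X Z) = ip h₁ h₂ Z X := by
  have : conj (ip h₁ h₂ X Z) = (h₁⁻¹ * Zᴴ * h₂ * X)ᴴ.trace := (trace_conjTranspose _).symm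
  rw [this]
  simp only [conjTranspose_mul, conjTranspose_conjTranspose, H₁.inv.eq, H₂.eq, ip,
    ← Matrix.mul_assoc]
  rw [trace_mul_comm]
  simp only [Matrix.mul_assoc]

theorem exists_sqrt {h : Matrix n n ℂ} (H : h.PosDef) :
    ∃ B : Matrix n n ℂ, IsUnit B.det ∧ h = Bᴴ * B := by
  obtain ⟨B, rfl⟩ := CStarAlgebra.nonneg_iff_eq_star_mul_self.mp H.posSemidef.nonneg
  refine ⟨B, ?_, rfl⟩
  have := H.det_pos.ne'
  rw [det_mul] at this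
  exact Ne.isUnit (right_ne_zero_of_mul this)

omit [DecidableEq m] in
theorem ip_sqrt {B₁ : Matrix n n ℂ} (B₂ : Matrix m m ℂ) (X Z : Matrix m n ℂ) :
    ip (B₁ᴴ * B₁) (B₂ᴴ * B₂) X Z = ((B₂ * Z * B₁⁻¹)ᴴ * (B₂ * X * B₁⁻¹)).trace := by
  rw [ip, Matrix.mul_inv_rev]
  simp only [conjTranspose_mul, conjTranspose_nonsing_inv, Matrix.mul_assoc]
  rw [trace_mul_comm]
  simp only [Matrix.mul_assoc]

omit [DecidableEq m] [DecidableEq n] in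
theorem trace_ct_mul (X Z : Matrix m n ℂ) :
    (Zᴴ * X).trace = ∑ p : m × n, conj (Z p.1 p.2) * X p.1 p.2 := by
  rw [Fintype.sum_prod_type, Finset.sum_comm]
  rfl

omit [DecidableEq m] [DecidableEq n] in
theorem trace_ct_self (X : Matrix m n ℂ) : (Xᴴ * X).trace = (fro X : ℝ) := by
  rw [trace_ct_mul, Fintype.sum_prod_type, fro]
  push_cast
  simp only [conj_mul']

omit [DecidableEq m] [DecidableEq n] in
theorem fro_nonneg (X : Matrix m n ℂ) : 0 ≤ fro X :=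
  Finset.sum_nonneg fun _ _ => Finset.sum_nonneg fun _ _ => sq_nonneg _

omit [DecidableEq m] [DecidableEq n] in
theorem fro_eq_zero {X : Matrix m n ℂ} (h : fro X = 0) : X = 0 := by
  have := trace_ct_self X
  rw [h] at this
  exact trace_conjTranspose_mul_self_eq_zero_iff.1 (by simpa using this)

theorem cs_sum {α : Type*} (s : Finset α) (a b : α → ℂ) :
    ‖∑ i ∈ s, a i * b i‖ ^ 2 ≤ (∑ i ∈ s, ‖a i‖ ^ 2) * ∑ i ∈ s, ‖b i‖ ^ 2 := by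
  refine le_trans ?_ (Finset.sum_mul_sq_le_sq_mul_sq s (fun i => ‖a i‖) fun i => ‖b i‖)
  refine pow_le_pow_left₀ (norm_nonneg _) ((norm_sum_le _ _).trans ?_) 2
  simp only [norm_mul, le_refl]

omit [DecidableEq m] [DecidableEq n] in
theorem fro_cs (X Z : Matrix m n ℂ) : ‖(Zᴴ * X).trace‖ ^ 2 ≤ fro X * fro Z := by
  rw [trace_ct_mul, mul_comm]
  refine (cs_sum _ _ _).trans (le_of_eq ?_)
  simp only [fro, Fintype.sum_prod_type, RCLike.norm_conj]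

omit [DecidableEq m] [DecidableEq n] [DecidableEq k] in
theorem fro_mul (X : Matrix k m ℂ) (Z : Matrix m n ℂ) : fro (X * Z) ≤ fro X * fro Z := by
  have e : fro Z = ∑ j, ∑ l, ‖Z l j‖ ^ 2 := Finset.sum_comm
  rw [e, fro, fro, Finset.sum_mul_sum]
  exact Finset.sum_le_sum fun i _ => Finset.sum_le_sum fun j _ => cs_sum _ _ _

theorem ip_self (H₁ : h₁.PosDef) (H₂ : h₂.PosDef) (X : Matrix m n ℂ) :
    ip h₁ h₂ X X = (nsq h₁ h₂ X : ℝ) := by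
  obtain ⟨B₁, -, rfl⟩ := exists_sqrt H₁
  obtain ⟨B₂, -, rfl⟩ := exists_sqrt H₂
  rw [nsq, ip_sqrt, trace_ct_self, ofReal_re]

omit [DecidableEq m] in
theorem nsq_sqrt (B₁ : Matrix n n ℂ) (B₂ : Matrix m m ℂ) (X : Matrix m n ℂ) :
    nsq (B₁ᴴ * B₁) (B₂ᴴ * B₂) X = fro (B₂ * X * B₁⁻¹) := by
  rw [nsq, ip_sqrt, trace_ct_self, ofReal_re]

theorem nsq_nonneg (H₁ : h₁.PosDef) (H₂ : h₂.PosDef) (X : Matrix m n ℂ) : 0 ≤ nsq h₁ h₂ X := by
  obtain ⟨B₁, -, rfl⟩ := exists_sqrt H₁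
  obtain ⟨B₂, -, rfl⟩ := exists_sqrt H₂
  rw [nsq_sqrt]
  exact fro_nonneg _

theorem nsq_eq_zero (H₁ : h₁.PosDef) (H₂ : h₂.PosDef) {X : Matrix m n ℂ} (h : nsq h₁ h₂ X = 0) :
    X = 0 := by
  obtain ⟨B₁, u₁, rfl⟩ := exists_sqrt H₁
  obtain ⟨B₂, u₂, rfl⟩ := exists_sqrt H₂
  rw [nsq_sqrt] at h
  have := congrArg (fun M => B₂⁻¹ * M * B₁) (fro_eq_zero h)
  simpa [Matrix.mul_assoc, Matrix.nonsing_inv_mul _ u₁, ← Matrix.mul_assoc B₂⁻¹ B₂,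
    Matrix.nonsing_inv_mul _ u₂] using this

theorem nsq_pos (H₁ : h₁.PosDef) (H₂ : h₂.PosDef) {X : Matrix m n ℂ} (h : X ≠ 0) :
    0 < nsq h₁ h₂ X :=
  (nsq_nonneg H₁ H₂ X).lt_of_ne fun e => h (nsq_eq_zero H₁ H₂ e.symm)

theorem ip_cs (H₁ : h₁.PosDef) (H₂ : h₂.PosDef) (X Z : Matrix m n ℂ) :
    ‖ip h₁ h₂ X Z‖ ^ 2 ≤ nsq h₁ h₂ X * nsq h₁ h₂ Z := by
  obtain ⟨B₁, -, rfl⟩ := exists_sqrt H₁
  obtain ⟨B₂, -, rfl⟩ := exists_sqrt H₂
  rw [nsq_sqrt, nsq_sqrt, ip_sqrt]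
  exact fro_cs _ _

theorem nsq_mul (H₁ : h₁.PosDef) (H₂ : h₂.PosDef) (H₃ : h₃.PosDef) (X : Matrix k m ℂ)
    (Z : Matrix m n ℂ) : nsq h₁ h₃ (X * Z) ≤ nsq h₂ h₃ X * nsq h₁ h₂ Z := by
  obtain ⟨B₁, -, rfl⟩ := exists_sqrt H₁
  obtain ⟨B₂, u₂, rfl⟩ := exists_sqrt H₂
  obtain ⟨B₃, -, rfl⟩ := exists_sqrt H₃
  rw [nsq_sqrt, nsq_sqrt, nsq_sqrt]
  refine le_trans (le_of_eq ?_) (fro_mul _ _)
  congr 1
  simp only [Matrix.mul_assoc]
  rw [← Matrix.mul_assoc B₂⁻¹ B₂, Matrix.nonsing_inv_mul _ u₂, Matrix.one_mul]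

omit [DecidableEq m] in
theorem nsq_smul (a : ℂ) (X : Matrix m n ℂ) : nsq h₁ h₂ (a • X) = ‖a‖ ^ 2 * nsq h₁ h₂ X := by
  rw [nsq, ip_smul_left, ip_smul_right, ← mul_assoc, mul_conj', ← ofReal_pow, re_ofReal_mul, nsq]

theorem nsq_sub_le (H₁ : h₁.PosDef) (H₂ : h₂.PosDef) (X Z : Matrix m n ℂ) :
    nsq h₁ h₂ (X - Z) ≤ 2 * nsq h₁ h₂ X + 2 * nsq h₁ h₂ Z := by
  have h := nsq_nonneg H₁ H₂ (X + Z)
  simp only [nsq, ip_add_left, ip_add_right, ip_sub_left, ip_sub_right, add_re, sub_re] at h ⊢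
  linarith

theorem nsq_add_le (H₁ : h₁.PosDef) (H₂ : h₂.PosDef) (X Z : Matrix m n ℂ) :
    nsq h₁ h₂ (X + Z) ≤ 2 * nsq h₁ h₂ X + 2 * nsq h₁ h₂ Z := by
  have h := nsq_nonneg H₁ H₂ (X - Z)
  simp only [nsq, ip_add_left, ip_add_right, ip_sub_left, ip_sub_right, add_re, sub_re] at h ⊢
  linarith

omit [DecidableEq m] in
/-- `T'` is the `h₂`-adjoint of `T` -/
theorem ip_mul_left {T T' : Matrix m m ℂ} (a : T'ᴴ * h₂ = h₂ * T) (X Z : Matrix m n ℂ) :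
    ip h₁ h₂ (T * X) Z = ip h₁ h₂ X (T' * Z) := by
  simp only [ip, conjTranspose_mul, Matrix.mul_assoc]
  rw [← Matrix.mul_assoc h₂ T, ← a, Matrix.mul_assoc]

omit [DecidableEq m] in
theorem ip_mul_right (u : IsUnit h₁.det) {T T' : Matrix n n ℂ} (a : T'ᴴ * h₁ = h₁ * T)
    (X Z : Matrix m n ℂ) : ip h₁ h₂ (X * T) Z = ip h₁ h₂ X (Z * T') := by
  have e : T * h₁⁻¹ = h₁⁻¹ * T'ᴴ := by
    have := congrArg (fun M => h₁⁻¹ * M * h₁⁻¹) a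
    simp only [Matrix.mul_assoc, Matrix.mul_nonsing_inv _ u, Matrix.mul_one] at this
    rw [this, ← Matrix.mul_assoc, Matrix.nonsing_inv_mul _ u, Matrix.one_mul]
  simp only [ip, conjTranspose_mul, ← Matrix.mul_assoc]
  rw [trace_mul_comm, ← e]
  simp only [Matrix.mul_assoc]

/-- on `End`, the product with an adjoint pair is a plain trace -/
theorem ip_adj (u : IsUnit h₁.det) {T T' : Matrix n n ℂ} (a : T'ᴴ * h₁ = h₁ * T)
    (X : Matrix n n ℂ) : ip h₁ h₁ X T' = (T * X).trace := by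
  rw [ip, Matrix.mul_assoc h₁⁻¹, a, ← Matrix.mul_assoc, Matrix.nonsing_inv_mul _ u, Matrix.one_mul]

omit [DecidableEq m] in
/-- vectors as columns -/
theorem ip_col (h : Matrix m m ℂ) (u v : m → ℂ) :
    ip (1 : Matrix Unit Unit ℂ) h (replicateCol Unit u) (replicateCol Unit v) =
      star v ⬝ᵥ h *ᵥ u := by
  simp [ip, trace, Matrix.mul_apply, dotProduct, mulVec, Finset.mul_sum, Finset.sum_mul,
    mul_assoc]
  exact Finset.sum_comm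

end

end Pool.Agent.Lib.MP_5c318e_ag.V
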