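import Pool.Agent.Lib.MP_5c318e_ag.V.Der
import Pool.Agent.Lib.MP_5c318e_ag.V.Ip

/-! Pluriharmonic metrics in a flat frame. Norms of flat sections. -/

set_option autoImplicit false
set_option linter.unusedSectionVars false

namespace Pool.Agent.Lib.MP_5c318e_ag.V

open Complex Filter Topology Matrix
open scoped ContDiff ComplexConjugate ComplexOrder

noncomputable section

variable {E : Type*} [NormedAddCommGroup E] [NormedSpace ℂ E]
variable {m n k : Type*} [Fintype m] [Fintype n] [Fintype k] [DecidableEq m] [DecidableEq n]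
  [DecidableEq k]

section log

variable {φ : E → ℝ} {x ξ : E} {c : ℂ}

theorem dbar_ofReal_eq (hφ : DifferentiableAt ℝ φ x) :
    der I ξ (fun y => (φ y : ℂ)) x = conj (der (-I) ξ (fun y => (φ y : ℂ)) x) := by
  have h : DifferentiableAt ℝ (fun y => (φ y : ℂ)) x := ofRealCLM.differentiableAt.comp x hφ
  have := der_conj (c := I) (ξ := ξ) h
  simpa using this

theorem der_log (hφ : DifferentiableAt ℝ φ x) (h0 : φ x ≠ 0) :
    der c ξ (fun y => (Real.log (φ y) : ℂ)) x = der c ξ (fun y => (φ y : ℂ)) x / φ x := by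
  simp only [der, pd_ofReal (hφ.log h0), pd_ofReal hφ, fderiv.log hφ h0, _root_.smul_apply,
    smul_eq_mul]
  push_cast
  ring

theorem der_inv {f : E → ℂ} (hf : DifferentiableAt ℝ f x) (h0 : f x ≠ 0) :
    der c ξ (fun y => (f y)⁻¹) x = -(der c ξ f x / f x ^ 2) := by
  rw [der_holo_comp (χ := fun z => z⁻¹) (differentiableAt_inv h0) hf, deriv_inv]
  ring

theorem lev_log (hφ : ContDiffAt ℝ ∞ φ x) (h0 : φ x ≠ 0) :
    lev (fun y => Real.log (φ y)) x ξ =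
      lev φ x ξ / φ x - ‖der (-I) ξ (fun y => (φ y : ℂ)) x‖ ^ 2 / φ x ^ 2 := by
  have hs := sm_ofReal hφ
  have h2 : ContDiffAt ℝ 2 φ x := hφ.of_le (by norm_cast)
  have ev : ∀ᶠ y in 𝓝 x, DifferentiableAt ℝ φ y :=
    (h2.eventually (by simp)).mono fun _ h => h.differentiableAt (by simp)
  have e : der (-I) ξ (fun y => (Real.log (φ y) : ℂ)) =ᶠ[𝓝 x]
      fun y => der (-I) ξ (fun y => (φ y : ℂ)) y * ((φ y : ℂ))⁻¹ := by
    filter_upwards [ev, hφ.continuousAt.eventually_ne h0] with y hy hy0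
    rw [der_log hy hy0, div_eq_mul_inv]
  have h0' : (φ x : ℂ) ≠ 0 := ofReal_ne_zero.2 h0
  apply ofReal_injective
  rw [lev_eq (hφ.log h0), der_congr e, der_mul (hs.der _ _).diff (hs.diff.fun_inv h0'),
    der_inv hs.diff h0', ← lev_eq hφ, dbar_ofReal_eq ev.self_of_nhds]
  push_cast
  rw [← mul_conj']
  ring

theorem lev_congr {φ ψ : E → ℝ} (h : φ =ᶠ[𝓝 x] ψ) : lev φ x ξ = lev ψ x ξ := by
  rw [lev, lev, h.fderiv.fderiv_eq]

end log

/-- the Higgs field `θ_ξ = -(1/2) h⁻¹ ∂_ξ h` -/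
def th (h : E → Matrix n n ℂ) (ξ x : E) : Matrix n n ℂ :=
  (-1 / 2 : ℂ) • ((h x)⁻¹ * derM (-I) ξ h x)

/-- its adjoint `θ*_ξ = -(1/2) h⁻¹ ∂̄_ξ h` -/
def ths (h : E → Matrix n n ℂ) (ξ x : E) : Matrix n n ℂ :=
  (-1 / 2 : ℂ) • ((h x)⁻¹ * derM I ξ h x)

/-- a smooth hermitian metric `h(u, v) = vᴴ h u` on the open set `U` -/
structure Met (U : Set E) (h : E → Matrix n n ℂ) : Prop where
  op : IsOpen U
  sm : ∀ x ∈ U, SmM h x
  pos : ∀ x ∈ U, (h x).PosDef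

/-- a pluriharmonic metric on the trivial flat bundle -/
structure HM (U : Set E) (h : E → Matrix n n ℂ) : Prop extends Met U h where
  harm : ∀ x ∈ U, ∀ ξ η, derM I η (th h ξ) x = ths h η x * th h ξ x - th h ξ x * ths h η x
  comm : ∀ x ∈ U, ∀ ξ η, th h ξ x * th h η x = th h η x * th h ξ x

namespace Met

variable {U : Set E} {h : E → Matrix n n ℂ} {x ξ η : E}

theorem det_ne (M : Met U h) (hx : x ∈ U) : (h x).det ≠ 0 := (M.pos x hx).det_pos.ne'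

theorem unit (M : Met U h) (hx : x ∈ U) : IsUnit (h x).det := Ne.isUnit (M.det_ne hx)

theorem sm_inv (M : Met U h) (hx : x ∈ U) : SmM (fun y => (h y)⁻¹) x :=
  (M.sm x hx).inv (M.det_ne hx)

theorem sm_th (M : Met U h) (hx : x ∈ U) (ξ : E) : SmM (th h ξ) x :=
  ((M.sm_inv hx).mul ((M.sm x hx).der _ _)).csmul _

theorem sm_ths (M : Met U h) (hx : x ∈ U) (ξ : E) : SmM (ths h ξ) x :=
  ((M.sm_inv hx).mul ((M.sm x hx).der _ _)).csmul _

theorem d_h (M : Met U h) (hx : x ∈ U) : derM (-I) ξ h x = (-2 : ℂ) • (h x * th h ξ x) := by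
  rw [th, Matrix.mul_smul, ← Matrix.mul_assoc, Matrix.mul_nonsing_inv _ (M.unit hx),
    Matrix.one_mul, smul_smul]
  norm_num

theorem dbar_h (M : Met U h) (hx : x ∈ U) : derM I ξ h x = (-2 : ℂ) • (h x * ths h ξ x) := by
  rw [ths, Matrix.mul_smul, ← Matrix.mul_assoc, Matrix.mul_nonsing_inv _ (M.unit hx),
    Matrix.one_mul, smul_smul]
  norm_num

theorem d_inv (M : Met U h) (hx : x ∈ U) :
    derM (-I) ξ (fun y => (h y)⁻¹) x = (2 : ℂ) • (th h ξ x * (h x)⁻¹) := by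
  rw [derM_inv (M.sm x hx) (M.det_ne hx), th, Matrix.smul_mul, smul_smul]
  norm_num

theorem dbar_inv (M : Met U h) (hx : x ∈ U) :
    derM I ξ (fun y => (h y)⁻¹) x = (2 : ℂ) • (ths h ξ x * (h x)⁻¹) := by
  rw [derM_inv (M.sm x hx) (M.det_ne hx), ths, Matrix.smul_mul, smul_smul]
  norm_num

theorem ct_d (M : Met U h) (hx : x ∈ U) : (derM (-I) ξ h x)ᴴ = derM I ξ h x := by
  rw [← dbar_ct (M.sm x hx)]
  exact derM_congr_on M.op hx fun y hy => (M.pos y hy).1.eq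

/-- `θ*` is the adjoint of `θ` -/
theorem adj_ths (M : Met U h) (hx : x ∈ U) : (ths h ξ x)ᴴ * h x = h x * th h ξ x := by
  have e := M.ct_d (ξ := ξ) hx
  rw [M.d_h hx, M.dbar_h hx] at e
  have e2 := congrArg conjTranspose e
  simp only [conjTranspose_conjTranspose, conjTranspose_smul, conjTranspose_mul,
    (M.pos x hx).1.eq] at e2
  have e3 : star (-2 : ℂ) = -2 := by simp
  simp only [e3] at e2
  exact (smul_right_injective _ (by norm_num : (-2 : ℂ) ≠ 0) e2).symm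

theorem adj_th (M : Met U h) (hx : x ∈ U) : (th h ξ x)ᴴ * h x = h x * ths h ξ x := by
  have e := congrArg conjTranspose (M.adj_ths (ξ := ξ) hx)
  simpa only [conjTranspose_conjTranspose, conjTranspose_mul, (M.pos x hx).1.eq] using e.symm

theorem mono (M : Met U h) {V : Set E} (hV : IsOpen V) (hVU : V ⊆ U) : Met V h :=
  ⟨hV, fun x hx => M.sm x (hVU hx), fun x hx => M.pos x (hVU hx)⟩

end Met

theorem th_smul (h : E → Matrix n n ℂ) (a : ℂ) (ξ x : E) : th h (a • ξ) x = a • th h ξ x := by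
  rw [th, th, dM_vec_smul, Matrix.mul_smul, smul_comm]

theorem ths_smul (h : E → Matrix n n ℂ) (a : ℂ) (ξ x : E) :
    ths h (a • ξ) x = conj a • ths h ξ x := by
  rw [ths, ths, dbarM_vec_smul, Matrix.mul_smul, smul_comm]

theorem th_add (h : E → Matrix n n ℂ) (ξ η x : E) : th h (ξ + η) x = th h ξ x + th h η x := by
  rw [th, th, th, derM_vec_add, Matrix.mul_add, smul_add]

theorem ths_add (h : E → Matrix n n ℂ) (ξ η x : E) : ths h (ξ + η) x = ths h ξ x + ths h η x := by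
  rw [ths, ths, ths, derM_vec_add, Matrix.mul_add, smul_add]

theorem met_const {U : Set E} (hU : IsOpen U) {h : Matrix n n ℂ} (H : h.PosDef) :
    Met U fun _ : E => h := ⟨hU, fun _ _ => smM_const h, fun _ _ => H⟩

theorem th_const (h : Matrix n n ℂ) (ξ x : E) : th (fun _ : E => h) ξ x = 0 := by
  simp [th, derM_const]

theorem ths_const (h : Matrix n n ℂ) (ξ x : E) : ths (fun _ : E => h) ξ x = 0 := by
  simp [ths, derM_const]

theorem hm_const {U : Set E} (hU : IsOpen U) {h : Matrix n n ℂ} (H : h.PosDef) :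
    HM U fun _ : E => h where
  toMet := met_const hU H
  harm := fun x _ ξ η => by
    have : th (fun _ : E => h) ξ = fun _ => 0 := funext (th_const h ξ)
    rw [this, derM_const]
    simp
  comm := fun x _ ξ η => by simp [th_const]

theorem HM.mono {U V : Set E} {h : E → Matrix n n ℂ} (M : HM U h) (hV : IsOpen V) (hVU : V ⊆ U) :
    HM V h :=
  ⟨M.toMet.mono hV hVU, fun x hx => M.harm x (hVU hx), fun x hx => M.comm x (hVU hx)⟩

/-- `∂_ξ θ*_η = [θ_ξ, θ*_η]` -/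
theorem HM.harm' {U : Set E} {h : E → Matrix n n ℂ} (M : HM U h) {x : E} (hx : x ∈ U) (ξ η : E) :
    derM (-I) ξ (ths h η) x = th h ξ x * ths h η x - ths h η x * th h ξ x := by
  have e1 : derM (-I) ξ (derM I η h) x = derM I η (derM (-I) ξ h) x := derM_comm (M.sm x hx)
  rw [derM_congr_on M.op hx fun y hy => M.dbar_h (ξ := η) hy,
    derM_congr_on M.op hx fun y hy => M.d_h (ξ := ξ) hy,
    derM_csmul _ ((M.sm x hx).mul (M.sm_ths hx η)), derM_csmul _ ((M.sm x hx).mul (M.sm_th hx ξ)),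
    derM_mul (M.sm x hx) (M.sm_ths hx η), derM_mul (M.sm x hx) (M.sm_th hx ξ), M.d_h hx,
    M.dbar_h hx, M.harm x hx] at e1
  have e2 := smul_right_injective _ (by norm_num : (-2 : ℂ) ≠ 0) e1
  have e3 := congrArg (fun A => (h x)⁻¹ * A) e2
  simp only [Matrix.mul_add, Matrix.smul_mul, Matrix.mul_smul, ← Matrix.mul_assoc,
    Matrix.nonsing_inv_mul _ (M.unit hx), Matrix.one_mul] at e3
  rw [eq_sub_of_add_eq' e3]
  module

theorem HM.comm' {U : Set E} {h : E → Matrix n n ℂ} (M : HM U h) {x : E} (hx : x ∈ U) (ξ η : E) :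
    ths h ξ x * ths h η x = ths h η x * ths h ξ x := by
  have e := congrArg (fun A => (h x)⁻¹ * (Aᴴ * h x)) (M.comm x hx η ξ)
  simp only [conjTranspose_mul, Matrix.mul_assoc, M.adj_th hx] at e
  rw [← Matrix.mul_assoc _ (h x), ← Matrix.mul_assoc _ (h x), M.adj_th hx, M.adj_th hx] at e
  simpa only [← Matrix.mul_assoc, Matrix.nonsing_inv_mul _ (M.unit hx), Matrix.one_mul] using e

section hom

variable {U : Set E} {h₁ : E → Matrix n n ℂ} {h₂ : E → Matrix m m ℂ} {x ξ η : E}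

/-- the Higgs field of `Hom` -/
def Th (h₁ : E → Matrix n n ℂ) (h₂ : E → Matrix m m ℂ) (ξ x : E) (X : Matrix m n ℂ) :
    Matrix m n ℂ := th h₂ ξ x * X - X * th h₁ ξ x

def Ths (h₁ : E → Matrix n n ℂ) (h₂ : E → Matrix m m ℂ) (ξ x : E) (X : Matrix m n ℂ) :
    Matrix m n ℂ := ths h₂ ξ x * X - X * ths h₁ ξ x

theorem ip_Th (M₁ : Met U h₁) (M₂ : Met U h₂) (hx : x ∈ U) (X Z : Matrix m n ℂ) :
    ip (h₁ x) (h₂ x) (Th h₁ h₂ ξ x X) Z = ip (h₁ x) (h₂ x) X (Ths h₁ h₂ ξ x Z) := by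
  rw [Th, Ths, ip_sub_left, ip_sub_right, ip_mul_left (M₂.adj_ths hx),
    ip_mul_right (M₁.unit hx) (M₁.adj_ths hx)]

theorem ip_Ths (M₁ : Met U h₁) (M₂ : Met U h₂) (hx : x ∈ U) (X Z : Matrix m n ℂ) :
    ip (h₁ x) (h₂ x) (Ths h₁ h₂ ξ x X) Z = ip (h₁ x) (h₂ x) X (Th h₁ h₂ ξ x Z) := by
  rw [Th, Ths, ip_sub_left, ip_sub_right, ip_mul_left (M₂.adj_th hx),
    ip_mul_right (M₁.unit hx) (M₁.adj_th hx)]

theorem sm_ip (M₁ : Met U h₁) (M₂ : Met U h₂) (hx : x ∈ U) {X Z : E → Matrix m n ℂ}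
    (hX : SmM X x) (hZ : SmM Z x) : Sm (fun y => ip (h₁ y) (h₂ y) (X y) (Z y)) x :=
  ((((M₁.sm_inv hx).mul hZ.ct).mul (M₂.sm x hx)).mul hX).trace

theorem sm_nsq (M₁ : Met U h₁) (M₂ : Met U h₂) (hx : x ∈ U) {X : E → Matrix m n ℂ}
    (hX : SmM X x) : ContDiffAt ℝ ∞ (fun y => nsq (h₁ y) (h₂ y) (X y)) x :=
  (sm_ip M₁ M₂ hx hX hX).re

theorem d_ip (M₁ : Met U h₁) (M₂ : Met U h₂) (hx : x ∈ U) {X Z : E → Matrix m n ℂ}
    (hX : SmM X x) (hZ : SmM Z x) :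
    der (-I) ξ (fun y => ip (h₁ y) (h₂ y) (X y) (Z y)) x =
      ip (h₁ x) (h₂ x) (derM (-I) ξ X x - Th h₁ h₂ ξ x (X x)) (Z x) +
        ip (h₁ x) (h₂ x) (X x) (derM I ξ Z x - Ths h₁ h₂ ξ x (Z x)) := by
  rw [ip_sub_left, ip_sub_right, ← ip_Th M₁ M₂ hx]
  simp only [ip]
  rw [der_trace ((((M₁.sm_inv hx).mul hZ.ct).mul (M₂.sm x hx)).mul hX),
    derM_mul (((M₁.sm_inv hx).mul hZ.ct).mul (M₂.sm x hx)) hX,
    derM_mul ((M₁.sm_inv hx).mul hZ.ct) (M₂.sm x hx), derM_mul (M₁.sm_inv hx) hZ.ct, d_ct hZ,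
    M₁.d_inv hx, M₂.d_h hx]
  simp only [Th, Matrix.mul_sub, Matrix.add_mul, Matrix.smul_mul, Matrix.mul_smul, trace_add,
    trace_sub, trace_smul, smul_eq_mul, Matrix.mul_assoc]
  rw [trace_mul_comm (th h₁ ξ x)]
  simp only [Matrix.mul_assoc]
  ring

theorem dbar_ip (M₁ : Met U h₁) (M₂ : Met U h₂) (hx : x ∈ U) {X Z : E → Matrix m n ℂ}
    (hX : SmM X x) (hZ : SmM Z x) :
    der I ξ (fun y => ip (h₁ y) (h₂ y) (X y) (Z y)) x =
      ip (h₁ x) (h₂ x) (derM I ξ X x - Ths h₁ h₂ ξ x (X x)) (Z x) +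
        ip (h₁ x) (h₂ x) (X x) (derM (-I) ξ Z x - Th h₁ h₂ ξ x (Z x)) := by
  rw [ip_sub_left, ip_sub_right, ← ip_Ths M₁ M₂ hx]
  simp only [ip]
  rw [der_trace ((((M₁.sm_inv hx).mul hZ.ct).mul (M₂.sm x hx)).mul hX),
    derM_mul (((M₁.sm_inv hx).mul hZ.ct).mul (M₂.sm x hx)) hX,
    derM_mul ((M₁.sm_inv hx).mul hZ.ct) (M₂.sm x hx), derM_mul (M₁.sm_inv hx) hZ.ct, dbar_ct hZ,
    M₁.dbar_inv hx, M₂.dbar_h hx]
  simp only [Ths, Matrix.mul_sub, Matrix.add_mul, Matrix.smul_mul, Matrix.mul_smul, trace_add,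
    trace_sub, trace_smul, smul_eq_mul, Matrix.mul_assoc]
  rw [trace_mul_comm (ths h₁ ξ x)]
  simp only [Matrix.mul_assoc]
  ring

theorem ofReal_nsq (M₁ : Met U h₁) (M₂ : Met U h₂) (X : E → Matrix m n ℂ) :
    ∀ y ∈ U, ((nsq (h₁ y) (h₂ y) (X y) : ℝ) : ℂ) = ip (h₁ y) (h₂ y) (X y) (X y) :=
  fun y hy => (ip_self (M₁.pos y hy) (M₂.pos y hy) _).symm

/-- first derivative of the norm of a flat section -/
theorem d_nsq_flat (M₁ : Met U h₁) (M₂ : Met U h₂) (hx : x ∈ U) (A : Matrix m n ℂ) :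
    der (-I) ξ (fun y => ((nsq (h₁ y) (h₂ y) A : ℝ) : ℂ)) x =
      -2 * ip (h₁ x) (h₂ x) (Th h₁ h₂ ξ x A) A := by
  rw [der_congr_on M₁.op hx (ofReal_nsq M₁ M₂ fun _ => A),
    d_ip M₁ M₂ hx (smM_const A) (smM_const A), derM_const, derM_const, zero_sub, zero_sub,
    ip_neg_left, ip_neg_right, ← ip_Th M₁ M₂ hx]
  ring

theorem sm_Th (M₁ : Met U h₁) (M₂ : Met U h₂) (hx : x ∈ U) {X : E → Matrix m n ℂ} (hX : SmM X x) :
    SmM (fun y => Th h₁ h₂ ξ y (X y)) x :=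
  ((M₂.sm_th hx ξ).mul hX).sub (hX.mul (M₁.sm_th hx ξ))

theorem sm_Ths (M₁ : Met U h₁) (M₂ : Met U h₂) (hx : x ∈ U) {X : E → Matrix m n ℂ}
    (hX : SmM X x) : SmM (fun y => Ths h₁ h₂ ξ y (X y)) x :=
  ((M₂.sm_ths hx ξ).mul hX).sub (hX.mul (M₁.sm_ths hx ξ))

/-- `∂̄_η (Θ_ξ X) = Θ_ξ ∂̄_η X + [Θ*_η, Θ_ξ] X` -/
theorem dbar_Th (M₁ : HM U h₁) (M₂ : HM U h₂) (hx : x ∈ U) {X : E → Matrix m n ℂ} (hX : SmM X x) :
    derM I η (fun y => Th h₁ h₂ ξ y (X y)) x = Th h₁ h₂ ξ x (derM I η X x) +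
      (Ths h₁ h₂ η x (Th h₁ h₂ ξ x (X x)) - Th h₁ h₂ ξ x (Ths h₁ h₂ η x (X x))) := by
  simp only [Th, Ths]
  rw [derM_sub ((M₂.sm_th hx ξ).mul hX) (hX.mul (M₁.sm_th hx ξ)), derM_mul (M₂.sm_th hx ξ) hX,
    derM_mul hX (M₁.sm_th hx ξ), M₁.harm x hx, M₂.harm x hx]
  simp only [Matrix.mul_sub, Matrix.sub_mul, Matrix.mul_assoc]
  abel

/-- Levi form of the norm of a flat section -/
theorem lev_nsq_flat (M₁ : HM U h₁) (M₂ : HM U h₂) (hx : x ∈ U) (A : Matrix m n ℂ) :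
    lev (fun y => nsq (h₁ y) (h₂ y) A) x ξ =
      2 * nsq (h₁ x) (h₂ x) (Th h₁ h₂ ξ x A) + 2 * nsq (h₁ x) (h₂ x) (Ths h₁ h₂ ξ x A) := by
  have m₁ := M₁.toMet
  have m₂ := M₂.toMet
  have sT := sm_Th (ξ := ξ) m₁ m₂ hx (smM_const A)
  apply ofReal_injective
  rw [lev_eq (sm_nsq m₁ m₂ hx (smM_const A)),
    der_congr_on M₁.op hx fun y hy => d_nsq_flat (ξ := ξ) m₁ m₂ hy A,
    der_const_mul _ (sm_ip m₁ m₂ hx sT (smM_const A)).diff, dbar_ip m₁ m₂ hx sT (smM_const A),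
    dbar_Th M₁ M₂ hx (smM_const A), derM_const, derM_const]
  push_cast
  rw [← ip_self (m₁.pos x hx) (m₂.pos x hx), ← ip_self (m₁.pos x hx) (m₂.pos x hx)]
  have z : Th h₁ h₂ ξ x (0 : Matrix m n ℂ) = 0 := by simp [Th]
  rw [z, zero_add, zero_sub, sub_sub_cancel_left, ip_neg_left, ip_neg_right, ip_Th m₁ m₂ hx]
  ring

theorem norm_d_nsq_flat (M₁ : Met U h₁) (M₂ : Met U h₂) (hx : x ∈ U) (A : Matrix m n ℂ) :
    ‖der (-I) ξ (fun y => ((nsq (h₁ y) (h₂ y) A : ℝ) : ℂ)) x‖ ^ 2 ≤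
      (2 * nsq (h₁ x) (h₂ x) (Th h₁ h₂ ξ x A) + 2 * nsq (h₁ x) (h₂ x) (Ths h₁ h₂ ξ x A)) *
        nsq (h₁ x) (h₂ x) A := by
  have p₁ := M₁.pos x hx
  have p₂ := M₂.pos x hx
  have a := ip_cs p₁ p₂ (Th h₁ h₂ ξ x A) A
  have b := ip_cs p₁ p₂ A (Ths h₁ h₂ ξ x A)
  rw [← ip_Th M₁ M₂ hx] at b
  rw [d_nsq_flat M₁ M₂ hx, norm_mul, mul_pow]
  norm_num
  nlinarith

/-- the logarithm of the norm of a flat section is plurisubharmonic -/
theorem lev_log_nsq_flat (M₁ : HM U h₁) (M₂ : HM U h₂) (hx : x ∈ U) {A : Matrix m n ℂ}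
    (hA : A ≠ 0) : 0 ≤ lev (fun y => Real.log (nsq (h₁ y) (h₂ y) A)) x ξ := by
  have p := nsq_pos (M₁.pos x hx) (M₂.pos x hx) hA
  rw [lev_log (sm_nsq M₁.toMet M₂.toMet hx (smM_const A)) p.ne', lev_nsq_flat M₁ M₂ hx, sub_nonneg,
    div_le_div_iff₀ (by positivity) p]
  have := mul_le_mul_of_nonneg_right (norm_d_nsq_flat (ξ := ξ) M₁.toMet M₂.toMet hx A) p.le
  nlinarith

/-- `λ_ξ = tr (θ_ξ θ*_ξ)` -/
def lam (h : E → Matrix n n ℂ) (ξ x : E) : ℝ := nsq (h x) (h x) (th h ξ x)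

theorem Met.lam_nonneg {h : E → Matrix n n ℂ} (M : Met U h) (hx : x ∈ U) : 0 ≤ lam h ξ x :=
  nsq_nonneg (M.pos x hx) (M.pos x hx) _

theorem Met.nsq_ths {h : E → Matrix n n ℂ} (M : Met U h) (hx : x ∈ U) :
    nsq (h x) (h x) (ths h ξ x) = lam h ξ x := by
  rw [lam, nsq, nsq, ip_adj (M.unit hx) (M.adj_ths hx), ip_adj (M.unit hx) (M.adj_th hx),
    trace_mul_comm]

theorem lam_smul (h : E → Matrix n n ℂ) (a : ℂ) (ξ x : E) :
    lam h (a • ξ) x = ‖a‖ ^ 2 * lam h ξ x := by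
  rw [lam, th_smul, nsq_smul, lam]

theorem nsq_Th_le (M₁ : Met U h₁) (M₂ : Met U h₂) (hx : x ∈ U) (A : Matrix m n ℂ) :
    nsq (h₁ x) (h₂ x) (Th h₁ h₂ ξ x A) ≤
      2 * (lam h₁ ξ x + lam h₂ ξ x) * nsq (h₁ x) (h₂ x) A := by
  have p₁ := M₁.pos x hx
  have p₂ := M₂.pos x hx
  have a := nsq_mul p₁ p₂ p₂ (th h₂ ξ x) A
  have b := nsq_mul p₁ p₁ p₂ A (th h₁ ξ x)
  have c := nsq_sub_le p₁ p₂ (th h₂ ξ x * A) (A * th h₁ ξ x)
  simp only [Th, lam]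
  nlinarith

/-- gradient bound for the logarithm of the norm of a flat section -/
theorem abs_pd_log_nsq (M₁ : Met U h₁) (M₂ : Met U h₂) (hx : x ∈ U) {A : Matrix m n ℂ}
    (hA : A ≠ 0) (w : E) :
    |fderiv ℝ (fun y => Real.log (nsq (h₁ y) (h₂ y) A)) x w| ≤
      6 * √(lam h₁ w x + lam h₂ w x) := by
  have p₁ := M₁.pos x hx
  have p₂ := M₂.pos x hx
  have p := nsq_pos p₁ p₂ hA
  have d := (sm_nsq M₁ M₂ hx (smM_const A)).differentiableAt (by simp)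
  have l := add_nonneg (M₁.lam_nonneg (ξ := w) hx) (M₂.lam_nonneg (ξ := w) hx)
  rw [pd_real_eq (d.log p.ne'), der_log d p.ne', d_nsq_flat M₁ M₂ hx]
  have a := (ip_cs p₁ p₂ (Th h₁ h₂ w x A) A).trans
    (mul_le_mul_of_nonneg_right (nsq_Th_le (ξ := w) M₁ M₂ hx A) p.le)
  have b : ‖ip (h₁ x) (h₂ x) (Th h₁ h₂ w x A) A‖ ≤
      3 / 2 * √(lam h₁ w x + lam h₂ w x) * nsq (h₁ x) (h₂ x) A := by
    refine abs_le_of_sq_le_sq' ?_ (by positivity) |>.2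
    rw [mul_pow, mul_pow, Real.sq_sqrt l]
    nlinarith [mul_nonneg l (sq_nonneg (nsq (h₁ x) (h₂ x) A))]
  rw [abs_mul, abs_two]
  have c := (abs_re_le_norm (-2 * ip (h₁ x) (h₂ x) (Th h₁ h₂ w x A) A / nsq (h₁ x) (h₂ x) A))
  rw [norm_div, norm_mul, norm_real, Real.norm_of_nonneg p.le, norm_neg, norm_ofNat] at c
  have e : 2 * ‖ip (h₁ x) (h₂ x) (Th h₁ h₂ w x A) A‖ / nsq (h₁ x) (h₂ x) A ≤
      3 * √(lam h₁ w x + lam h₂ w x) := by
    rw [div_le_iff₀ p]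
    linarith
  linarith

end hom

end

end Pool.Agent.Lib.MP_5c318e_ag.V
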