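import Pool.Agent.Lib.MP_5c318e_ag.V.Gap

/-! Holomorphic sections of the Higgs bundle: sections of top type, the Schwarz inequality. -/

set_option autoImplicit false
set_option linter.unusedSectionVars false

namespace Pool.Agent.Lib.MP_5c318e_ag.V

open Complex Filter Topology Matrix
open scoped ContDiff ComplexConjugate ComplexOrder

noncomputable section

variable {E : Type*} [NormedAddCommGroup E] [NormedSpace ℂ E]
variable {m n k : Type*} [Fintype m] [Fintype n] [Fintype k] [DecidableEq m] [DecidableEq n]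
  [DecidableEq k]
variable {U : Set E} {h₁ Y₁ : E → Matrix n n ℂ} {h₂ Y₂ : E → Matrix m m ℂ} {K₁ K₂ : ℝ}
  {x ξ η : E} {X : E → Matrix m n ℂ}

theorem nsq_zero (H₁ : Matrix n n ℂ) (H₂ : Matrix m m ℂ) : nsq H₁ H₂ 0 = 0 := by
  rw [nsq, ip_zero_left, zero_re]

theorem Th_sub (A B : Matrix m n ℂ) : Th h₁ h₂ ξ x (A - B) = Th h₁ h₂ ξ x A - Th h₁ h₂ ξ x B := by
  simp only [Th, Matrix.mul_sub, Matrix.sub_mul]
  abel

theorem Ths_sub (A B : Matrix m n ℂ) :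
    Ths h₁ h₂ ξ x (A - B) = Ths h₁ h₂ ξ x A - Ths h₁ h₂ ξ x B := by
  simp only [Ths, Matrix.mul_sub, Matrix.sub_mul]
  abel

theorem Yh_sub (A B : Matrix m n ℂ) : Yh Y₁ Y₂ x (A - B) = Yh Y₁ Y₂ x A - Yh Y₁ Y₂ x B := by
  simp only [Yh, Matrix.mul_sub, Matrix.sub_mul]
  abel

theorem Th_smul (c : ℂ) (A : Matrix m n ℂ) : Th h₁ h₂ ξ x (c • A) = c • Th h₁ h₂ ξ x A := by
  simp only [Th, Matrix.mul_smul, Matrix.smul_mul, smul_sub]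

theorem Ths_smul (c : ℂ) (A : Matrix m n ℂ) : Ths h₁ h₂ ξ x (c • A) = c • Ths h₁ h₂ ξ x A := by
  simp only [Ths, Matrix.mul_smul, Matrix.smul_mul, smul_sub]

theorem Yh_smul (c : ℂ) (A : Matrix m n ℂ) : Yh Y₁ Y₂ x (c • A) = c • Yh Y₁ Y₂ x A := by
  simp only [Yh, Matrix.mul_smul, Matrix.smul_mul, smul_sub]

/-- `∂_ξ (Θ*_η X) = Θ*_η ∂_ξ X + [Θ_ξ, Θ*_η] X` -/
theorem d_Ths (M₁ : HM U h₁) (M₂ : HM U h₂) (hx : x ∈ U) (hX : SmM X x) :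
    derM (-I) ξ (fun y => Ths h₁ h₂ η y (X y)) x = Ths h₁ h₂ η x (derM (-I) ξ X x) +
      (Th h₁ h₂ ξ x (Ths h₁ h₂ η x (X x)) - Ths h₁ h₂ η x (Th h₁ h₂ ξ x (X x))) := by
  simp only [Th, Ths]
  rw [derM_sub ((M₂.sm_ths hx η).mul hX) (hX.mul (M₁.sm_ths hx η)), derM_mul (M₂.sm_ths hx η) hX,
    derM_mul hX (M₁.sm_ths hx η), M₁.harm' hx, M₂.harm' hx]
  simp only [Matrix.mul_sub, Matrix.sub_mul, Matrix.mul_assoc]
  abel

theorem d_nsq_hol (M₁ : Met U h₁) (M₂ : Met U h₂) (hx : x ∈ U) (hX : SmM X x)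
    (hol : derM I ξ X x = Ths h₁ h₂ ξ x (X x)) :
    der (-I) ξ (fun y => ((nsq (h₁ y) (h₂ y) (X y) : ℝ) : ℂ)) x =
      ip (h₁ x) (h₂ x) (derM (-I) ξ X x - Th h₁ h₂ ξ x (X x)) (X x) := by
  rw [der_congr_on M₁.op hx (ofReal_nsq M₁ M₂ X), d_ip M₁ M₂ hx hX hX, hol, sub_self,
    ip_zero_right, add_zero]

/-- curvature of the Higgs bundle -/
theorem dbar_dh (M₁ : HM U h₁) (M₂ : HM U h₂) (hx : x ∈ U) (hX : ∀ y ∈ U, SmM X y)
    (hol : ∀ y ∈ U, derM I ξ X y = Ths h₁ h₂ ξ y (X y)) :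
    derM I ξ (fun y => derM (-I) ξ X y - Th h₁ h₂ ξ y (X y)) x -
        Ths h₁ h₂ ξ x (derM (-I) ξ X x - Th h₁ h₂ ξ x (X x)) =
      Th h₁ h₂ ξ x (Ths h₁ h₂ ξ x (X x)) - Ths h₁ h₂ ξ x (Th h₁ h₂ ξ x (X x)) := by
  have sx := hX x hx
  rw [derM_sub (sx.der _ _) (sm_Th M₁.toMet M₂.toMet hx sx), derM_comm sx,
    derM_congr_on M₁.op hx hol, d_Ths M₁ M₂ hx sx, dbar_Th M₁ M₂ hx sx, hol x hx, Ths_sub]
  abel

/-- Levi form of the norm of a holomorphic section of the Higgs bundle -/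
theorem lev_nsq_hol (M₁ : HM U h₁) (M₂ : HM U h₂) (hx : x ∈ U) (hX : ∀ y ∈ U, SmM X y)
    (hol : ∀ y ∈ U, derM I ξ X y = Ths h₁ h₂ ξ y (X y)) :
    lev (fun y => nsq (h₁ y) (h₂ y) (X y)) x ξ =
      nsq (h₁ x) (h₂ x) (derM (-I) ξ X x - Th h₁ h₂ ξ x (X x)) +
        nsq (h₁ x) (h₂ x) (Ths h₁ h₂ ξ x (X x)) - nsq (h₁ x) (h₂ x) (Th h₁ h₂ ξ x (X x)) := by
  have m₁ := M₁.toMet
  have m₂ := M₂.toMet
  have sx := hX x hx
  have sB : SmM (fun y => derM (-I) ξ X y - Th h₁ h₂ ξ y (X y)) x :=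
    (sx.der _ _).sub (sm_Th m₁ m₂ hx sx)
  apply ofReal_injective
  rw [lev_eq (sm_nsq m₁ m₂ hx sx),
    der_congr_on M₁.op hx fun y hy => d_nsq_hol (ξ := ξ) m₁ m₂ hy (hX y hy) (hol y hy),
    dbar_ip m₁ m₂ hx sB sx, dbar_dh M₁ M₂ hx hX hol, ip_sub_left, ip_Th m₁ m₂ hx,
    ip_Ths m₁ m₂ hx (Th h₁ h₂ ξ x (X x))]
  push_cast
  simp only [← ip_self (m₁.pos x hx) (m₂.pos x hx)]
  ring

theorem lev_log_nsq_hol (M₁ : HM U h₁) (M₂ : HM U h₂) (hx : x ∈ U) (hX : ∀ y ∈ U, SmM X y)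
    (hol : ∀ y ∈ U, derM I ξ X y = Ths h₁ h₂ ξ y (X y)) (h0 : X x ≠ 0) :
    lev (fun y => Real.log (nsq (h₁ y) (h₂ y) (X y))) x ξ =
      (nsq (h₁ x) (h₂ x) (derM (-I) ξ X x - Th h₁ h₂ ξ x (X x) -
          (ip (h₁ x) (h₂ x) (derM (-I) ξ X x - Th h₁ h₂ ξ x (X x)) (X x) /
            nsq (h₁ x) (h₂ x) (X x)) • X x) +
        nsq (h₁ x) (h₂ x) (Ths h₁ h₂ ξ x (X x)) - nsq (h₁ x) (h₂ x) (Th h₁ h₂ ξ x (X x))) /
        nsq (h₁ x) (h₂ x) (X x) := by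
  have p := nsq_pos (M₁.pos x hx) (M₂.pos x hx) h0
  rw [lev_log (sm_nsq M₁.toMet M₂.toMet hx (hX x hx)) p.ne', lev_nsq_hol M₁ M₂ hx hX hol,
    d_nsq_hol M₁.toMet M₂.toMet hx (hX x hx) (hol x hx),
    nsq_proj (M₁.pos x hx) (M₂.pos x hx) _ h0]
  field_simp
  ring

theorem lev_log_nsq_hol_ge (M₁ : HM U h₁) (M₂ : HM U h₂) (hx : x ∈ U) (hX : ∀ y ∈ U, SmM X y)
    (hol : ∀ y ∈ U, derM I ξ X y = Ths h₁ h₂ ξ y (X y)) (h0 : X x ≠ 0) :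
    (nsq (h₁ x) (h₂ x) (Ths h₁ h₂ ξ x (X x)) - nsq (h₁ x) (h₂ x) (Th h₁ h₂ ξ x (X x))) /
        nsq (h₁ x) (h₂ x) (X x) ≤ lev (fun y => Real.log (nsq (h₁ y) (h₂ y) (X y))) x ξ := by
  rw [lev_log_nsq_hol M₁ M₂ hx hX hol h0]
  refine div_le_div_of_nonneg_right ?_ (nsq_nonneg (M₁.pos x hx) (M₂.pos x hx) _)
  rw [add_sub_assoc]
  exact le_add_of_nonneg_left (nsq_nonneg (M₁.pos x hx) (M₂.pos x hx) _)

/-! ### holomorphic sections of pure degree -/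

section top

variable {p : ℂ}

theorem top_ths (G₁ : GM U h₁ Y₁ K₁) (G₂ : GM U h₂ Y₂ K₂) (hx : x ∈ U) (hX : SmM X x)
    (hol : derM I ξ X x = 0) (deg : ∀ y ∈ U, Yh Y₁ Y₂ y (X y) = p • X y) :
    Ths h₁ h₂ ξ x (X x) = 0 := by
  have e := dbar_Yh (ξ := ξ) G₁ G₂ hx hX
  rw [derM_congr_on G₁.op hx deg, derM_csmul _ hX, hol] at e
  simpa [Yh] using e

theorem top_d (G₁ : GM U h₁ Y₁ K₁) (G₂ : GM U h₂ Y₂ K₂) (hx : x ∈ U) (hX : SmM X x)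
    (deg : ∀ y ∈ U, Yh Y₁ Y₂ y (X y) = p • X y) :
    Yh Y₁ Y₂ x (derM (-I) ξ X x - Th h₁ h₂ ξ x (X x)) =
      p • (derM (-I) ξ X x - Th h₁ h₂ ξ x (X x)) := by
  have e := d_Yh (ξ := ξ) G₁ G₂ hx hX
  have f := Th_Yh (ξ := ξ) G₁ G₂ hx (X x)
  rw [derM_congr_on G₁.op hx deg, derM_csmul _ hX] at e
  rw [deg x hx, Th_smul] at f
  rw [Yh_sub, smul_sub, e]
  linear_combination (norm := abel1) f

theorem top_Th (G₁ : GM U h₁ Y₁ K₁) (G₂ : GM U h₂ Y₂ K₂) (hx : x ∈ U) {A : Matrix m n ℂ}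
    (deg : Yh Y₁ Y₂ x A = p • A) :
    Yh Y₁ Y₂ x (Th h₁ h₂ ξ x A) = (p - 1) • Th h₁ h₂ ξ x A := by
  have f := Th_Yh (ξ := ξ) G₁ G₂ hx A
  rw [deg, Th_smul] at f
  linear_combination (norm := module) -f

/-- curvature of the line spanned by a holomorphic section of top type: upper bound -/
theorem lev_top_le (G₁ : GM U h₁ Y₁ K₁) (G₂ : GM U h₂ Y₂ K₂) (hx : x ∈ U) (hX : ∀ y ∈ U, SmM X y)
    (hol : ∀ y ∈ U, derM I ξ X y = 0) (deg : ∀ y ∈ U, Yh Y₁ Y₂ y (X y) = p • X y) (h0 : X x ≠ 0) :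
    lev (fun y => -Real.log (nsq (h₁ y) (h₂ y) (X y))) x ξ ≤
      nsq (h₁ x) (h₂ x) (Th h₁ h₂ ξ x (X x)) / nsq (h₁ x) (h₂ x) (X x) := by
  have t : ∀ y ∈ U, Ths h₁ h₂ ξ y (X y) = 0 := fun y hy =>
    top_ths G₁ G₂ hy (hX y hy) (hol y hy) deg
  have := lev_log_nsq_hol_ge G₁.hm G₂.hm hx hX (fun y hy => by rw [hol y hy, t y hy]) h0
  have q := nsq_pos (G₁.pos x hx) (G₂.pos x hx) h0
  rw [lev_neg (cd2 ((sm_nsq G₁.toMet G₂.toMet hx (hX x hx)).log q.ne'))]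
  rw [t x hx, nsq, ip_zero_left, zero_re, zero_sub, neg_div] at this
  linarith

/-- curvature of the line spanned by a holomorphic section of top type, the piece of that degree
having rank one -/
theorem lev_top_eq (G₁ : GM U h₁ Y₁ K₁) (G₂ : GM U h₂ Y₂ K₂) (hx : x ∈ U) (hX : ∀ y ∈ U, SmM X y)
    (hol : ∀ y ∈ U, derM I ξ X y = 0) (deg : ∀ y ∈ U, Yh Y₁ Y₂ y (X y) = p • X y) (h0 : X x ≠ 0)
    (one : ∃ c : ℂ, derM (-I) ξ X x - Th h₁ h₂ ξ x (X x) = c • X x) :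
    lev (fun y => -Real.log (nsq (h₁ y) (h₂ y) (X y))) x ξ =
      nsq (h₁ x) (h₂ x) (Th h₁ h₂ ξ x (X x)) / nsq (h₁ x) (h₂ x) (X x) := by
  have t : ∀ y ∈ U, Ths h₁ h₂ ξ y (X y) = 0 := fun y hy =>
    top_ths G₁ G₂ hy (hX y hy) (hol y hy) deg
  have q := nsq_pos (G₁.pos x hx) (G₂.pos x hx) h0
  obtain ⟨c, hc⟩ := one
  rw [lev_neg (cd2 ((sm_nsq G₁.toMet G₂.toMet hx (hX x hx)).log q.ne')),
    lev_log_nsq_hol G₁.hm G₂.hm hx hX (fun y hy => by rw [hol y hy, t y hy]) h0, t x hx, hc,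
    ip_smul_left, ip_self (G₁.pos x hx) (G₂.pos x hx), mul_div_assoc,
    div_self (ofReal_ne_zero.2 q.ne'), mul_one, sub_self]
  simp [nsq, ip_zero_left, neg_div]

end top

/-! ### the Schwarz inequality -/

section schwarz

variable {h Y : E → Matrix n n ℂ} {K : ℝ}

theorem HM.hol_th (M : HM U h) (hx : x ∈ U) : derM I η (th h ξ) x = Ths h h η x (th h ξ x) :=
  M.harm x hx ξ η

theorem HM.Th_th (M : HM U h) (hx : x ∈ U) : Th h h η x (th h ξ x) = 0 := by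
  rw [Th, M.comm x hx, sub_self]

theorem Met.sm_lam (M : Met U h) (hx : x ∈ U) : ContDiffAt ℝ ∞ (lam h ξ) x :=
  sm_nsq M M hx (M.sm_th hx ξ)

theorem HM.lev_lam (M : HM U h) (hx : x ∈ U) : lev (lam h ξ) x η =
    nsq (h x) (h x) (derM (-I) η (th h ξ) x) + nsq (h x) (h x) (Ths h h η x (th h ξ x)) := by
  have := lev_nsq_hol (ξ := η) M M hx (fun y hy => M.sm_th hy ξ) fun y hy => M.hol_th hy
  rw [M.Th_th hx, sub_zero, nsq_zero, sub_zero] at this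
  exact this

theorem HM.lev_log_lam (M : HM U h) (hx : x ∈ U) (h0 : 0 < lam h ξ x) :
    nsq (h x) (h x) (Ths h h η x (th h ξ x)) / lam h ξ x ≤
      lev (fun y => Real.log (lam h ξ y)) x η := by
  have h1 : th h ξ x ≠ 0 := fun e => by simp [lam, e, nsq, ip_zero_left] at h0
  have := lev_log_nsq_hol_ge (ξ := η) M M hx (fun y hy => M.sm_th hy ξ) (fun y hy => M.hol_th hy) h1
  rw [M.Th_th hx, nsq_zero, sub_zero] at this
  exact this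

theorem GM.ip_th (G : GM U h Y K) (hx : x ∈ U) :
    ip (h x) (h x) (th h η x) (th h ξ x) = ip (h x) (h x) (Y x) (Ths h h η x (th h ξ x)) := by
  rw [← ip_Th G.toMet G.toMet hx, Th, G.deg x hx]

theorem GM.lam_sq_le (G : GM U h Y K) (hx : x ∈ U) :
    lam h ξ x ^ 2 ≤ K * nsq (h x) (h x) (Ths h h ξ x (th h ξ x)) := by
  have p := G.pos x hx
  have a := ip_cs p p (Y x) (Ths h h ξ x (th h ξ x))
  rw [← G.ip_th hx, ip_self p p, norm_real, Real.norm_eq_abs, sq_abs] at a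
  exact a.trans (mul_le_mul_of_nonneg_right (G.bd x hx) (nsq_nonneg p p _))

/-- negative holomorphic sectional curvature -/
theorem GM.schwarz (G : GM U h Y K) (hx : x ∈ U) (h0 : 0 < lam h ξ x) :
    lam h ξ x ≤ K * lev (fun y => Real.log (lam h ξ y)) x ξ := by
  refine le_trans ?_ (mul_le_mul_of_nonneg_left (G.hm.lev_log_lam hx h0) (G.K_nonneg hx))
  rw [← mul_div_assoc, le_div_iff₀ h0, ← sq]
  exact G.lam_sq_le hx

end schwarz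

end

end Pool.Agent.Lib.MP_5c318e_ag.V
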