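import Pool.Agent.Lib.MP_5c318e_ag.V.Defs

/-! Pointwise algebra of polarised gradings. -/

set_option autoImplicit false

namespace Pool.Agent.Lib.MP_5c318e_ag.V

open Matrix Filter Topology MeasureTheory Complex Metric
open scoped ComplexOrder ContDiff ComplexConjugate

noncomputable section

variable {ι : Type} [Fintype ι] [DecidableEq ι] {w : ℕ}

theorem cx_one : cx (1 : GL ι ℤ) = 1 := by
  simp [cx, Matrix.map_one]

theorem cx_mul (g h : GL ι ℤ) : cx (g * h) = cx g * cx h := by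
  simp only [cx, Units.val_mul]
  exact Matrix.map_mul (f := Int.castRingHom ℂ)

theorem cx_inv_mul (g : GL ι ℤ) : cx g⁻¹ * cx g = 1 := by
  rw [← cx_mul, inv_mul_cancel, cx_one]

theorem cx_mul_inv (g : GL ι ℤ) : cx g * cx g⁻¹ = 1 := by
  rw [← cx_mul, mul_inv_cancel, cx_one]

theorem cx_inj {g h : GL ι ℤ} (e : cx g = cx h) : g = h :=
  Units.ext (Matrix.map_injective Int.cast_injective e)

theorem cx_mem (Λ : AddSubgroup ℂ) (g : GL ι ℤ) {v : ι → ℂ} (hv : ∀ i, v i ∈ Λ) (i : ι) :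
    (cx g *ᵥ v) i ∈ Λ := by
  simp only [mulVec, dotProduct, cx, map_apply, ← zsmul_eq_mul]
  exact Λ.sum_mem fun j _ => Λ.zsmul_mem (hv j) _

theorem cx_map (φ : ℂ →+ ℂ) (g : GL ι ℤ) (v : ι → ℂ) :
    (fun i => φ ((cx g *ᵥ v) i)) = cx g *ᵥ fun i => φ (v i) := by
  funext i
  simp only [mulVec, dotProduct, cx, map_apply, ← zsmul_eq_mul, map_sum, map_zsmul]

theorem exists_cx {M N : Matrix ι ι ℤ}
    (h : M.map (Int.cast : ℤ → ℂ) * N.map (Int.cast : ℤ → ℂ) = 1) :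
    ∃ g : GL ι ℤ, cx g = M.map (Int.cast : ℤ → ℂ) := by
  have e : M * N = 1 := by
    apply Matrix.map_injective (Int.cast_injective (α := ℂ))
    simp only
    rw [Matrix.map_one _ Int.cast_zero Int.cast_one, ← h]
    exact Matrix.map_mul (f := Int.castRingHom ℂ)
  exact ⟨⟨M, N, e, mul_eq_one_comm.1 e⟩, rfl⟩

theorem two_mul_two (M N : Matrix ι ι ℂ) : two M * two N = two (M * N) := by
  simp [two, fromBlocks_multiply]

theorem two_one : two (1 : Matrix ι ι ℂ) = 1 :=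
  fromBlocks_one

theorem two_mulVec (M : Matrix ι ι ℂ) (u : ι ⊕ ι → ℂ) :
    two M *ᵥ u = Sum.elim (M *ᵥ fun i => u (Sum.inl i)) (M *ᵥ fun i => u (Sum.inr i)) := by
  rw [two, fromBlocks_mulVec]
  simp [Function.comp_def]

theorem jm_one_zero (M : Matrix ι ι ℂ) : jm 1 0 M = two M := by
  simp [jm, two]

theorem jm_mul (u v u' v' : ℂ) (M N : Matrix ι ι ℂ) :
    jm u v M * jm u' v' N = jm (u * u' + conj v * v') (v * u' + conj u * v') (M * N) := by
  simp only [jm, fromBlocks_multiply, Matrix.smul_mul, Matrix.mul_smul, smul_smul, ← add_smul,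
    map_add, map_mul, conj_conj]
  congr 2 <;> ring

theorem jm_psi1 (u v : ℂ) (M ψ : Matrix ι ι ℂ) :
    (jm u v M)ᴴ * psi1 ψ * jm u v M = ((‖u‖ ^ 2 - ‖v‖ ^ 2 : ℝ) : ℂ) • psi1 (Mᴴ * ψ * M) := by
  have e : ((‖u‖ ^ 2 - ‖v‖ ^ 2 : ℝ) : ℂ) = conj u * u - conj v * v := by
    rw [Complex.conj_mul', Complex.conj_mul']; push_cast; ring
  rw [e]
  simp only [jm, psi1, fromBlocks_conjTranspose, fromBlocks_multiply, conjTranspose_smul,
    Matrix.smul_mul, Matrix.mul_smul, Matrix.mul_zero, Matrix.mul_neg, Matrix.neg_mul, add_zero,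
    zero_add, fromBlocks_smul, smul_zero, star_def, conj_conj]
  congr 1 <;> module

theorem jm_unit {u v : ℂ} (h : ‖v‖ < ‖u‖) (g : GL ι ℤ) : IsUnit (jm u v (cx g)).det := by
  have hd : ((‖u‖ ^ 2 - ‖v‖ ^ 2 : ℝ) : ℂ) ≠ 0 :=
    ofReal_ne_zero.2 (sub_pos.2 (pow_lt_pow_left₀ h (norm_nonneg v) two_ne_zero)).ne'
  have e : ((‖u‖ ^ 2 - ‖v‖ ^ 2 : ℝ) : ℂ) = conj u * u - conj v * v := by
    rw [Complex.conj_mul', Complex.conj_mul']; push_cast; ring
  have h1 := jm_mul u v (conj u) (-v) (cx g) (cx g⁻¹)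
  rw [cx_mul_inv, show v * conj u + conj u * -v = 0 by ring,
    show u * conj u + conj v * -v = ((‖u‖ ^ 2 - ‖v‖ ^ 2 : ℝ) : ℂ) by rw [e]; ring] at h1
  refine isUnit_det_of_right_inverse
    (B := ((‖u‖ ^ 2 - ‖v‖ ^ 2 : ℝ) : ℂ)⁻¹ • jm (conj u) (-v) (cx g⁻¹)) ?_
  rw [Matrix.mul_smul, h1, jm, conj_ofReal, map_zero, zero_smul, fromBlocks_smul, smul_smul,
    inv_mul_cancel₀ hd, one_smul, smul_zero, fromBlocks_one]

theorem qf_add_left (M : Matrix ι ι ℂ) (u u' v : ι → ℂ) : qf M (u + u') v = qf M u v + qf M u' v := by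
  simp [qf, add_dotProduct]

theorem qf_add_right (M : Matrix ι ι ℂ) (u v v' : ι → ℂ) :
    qf M u (v + v') = qf M u v + qf M u v' := by
  simp [qf, mulVec_add]

theorem qf_sub_left (M : Matrix ι ι ℂ) (u u' v : ι → ℂ) : qf M (u - u') v = qf M u v - qf M u' v := by
  simp [qf, sub_dotProduct]

theorem qf_sub_right (M : Matrix ι ι ℂ) (u v v' : ι → ℂ) :
    qf M u (v - v') = qf M u v - qf M u v' := by
  simp [qf, mulVec_sub]

theorem qf_smul_left (M : Matrix ι ι ℂ) (c : ℂ) (u v : ι → ℂ) :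
    qf M (c • u) v = conj c * qf M u v := by
  simp [qf]

theorem qf_smul_right (M : Matrix ι ι ℂ) (c : ℂ) (u v : ι → ℂ) : qf M u (c • v) = c * qf M u v := by
  simp [qf, mulVec_smul]

theorem qf_zero_left (M : Matrix ι ι ℂ) (v : ι → ℂ) : qf M 0 v = 0 := by
  simp [qf]

theorem qf_zero_right (M : Matrix ι ι ℂ) (u : ι → ℂ) : qf M u 0 = 0 := by
  simp [qf]

theorem qf_mulVec_right (M N : Matrix ι ι ℂ) (u v : ι → ℂ) : qf M u (N *ᵥ v) = qf (M * N) u v := by
  rw [qf, qf, mulVec_mulVec]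

theorem qf_mulVec_left (M N : Matrix ι ι ℂ) (u v : ι → ℂ) : qf M (N *ᵥ u) v = qf (Nᴴ * M) u v := by
  rw [qf, qf, star_mulVec, ← mulVec_mulVec, dotProduct_mulVec (star u)]

theorem qf_conj {M : Matrix ι ι ℂ} (h : M.IsHermitian) (u v : ι → ℂ) :
    conj (qf M u v) = qf M v u := by
  rw [qf, qf, ← star_def, ← star_dotProduct_star, star_star, star_mulVec, h.eq, dotProduct_mulVec]

theorem qf_nonneg {H : Matrix ι ι ℂ} (h : H.PosDef) (u : ι → ℂ) : 0 ≤ (qf H u u).re :=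
  (Complex.nonneg_iff.1 (h.posSemidef.dotProduct_mulVec_nonneg u)).1

theorem qf_self {H : Matrix ι ι ℂ} (h : H.PosDef) (u : ι → ℂ) : qf H u u = ((qf H u u).re : ℝ) :=
  (conj_eq_iff_re.1 (qf_conj h.isHermitian u u)).symm

theorem qf_eq_zero {H : Matrix ι ι ℂ} (h : H.PosDef) {u : ι → ℂ} (e : (qf H u u).re = 0) : u = 0 := by
  by_contra h0
  exact (Complex.pos_iff.1 (h.dotProduct_mulVec_pos h0)).1.ne' e

theorem qf_cs {H : Matrix ι ι ℂ} (h : H.PosDef) (u v : ι → ℂ) :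
    ‖qf H u v‖ ^ 2 ≤ (qf H u u).re * (qf H v v).re := by
  rcases eq_or_ne v 0 with rfl | h0
  · simp [qf_zero_right]
  have hd : 0 < (qf H v v).re := (Complex.pos_iff.1 (h.dotProduct_mulVec_pos h0)).1
  have h1 := qf_nonneg h (qf H v v • u - qf H v u • v)
  simp only [qf_sub_left, qf_sub_right, qf_smul_left, qf_smul_right] at h1
  rw [← qf_conj h.isHermitian u v, qf_self h v, qf_self h u] at h1
  rw [Complex.sq_norm, normSq_apply]
  simp only [conj_ofReal, conj_conj, sub_re, mul_re, ofReal_re, ofReal_im, mul_im, conj_re,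
    conj_im, sub_im] at h1
  refine le_of_mul_le_mul_left ?_ hd
  nlinarith

theorem qf_add_le {H : Matrix ι ι ℂ} (h : H.PosDef) (u v : ι → ℂ) :
    (qf H (u + v) (u + v)).re ≤ 2 * (qf H u u).re + 2 * (qf H v v).re := by
  have h1 := qf_nonneg h (u - v)
  simp only [qf_sub_left, qf_sub_right, sub_re] at h1
  simp only [qf_add_left, qf_add_right, add_re]
  linarith

theorem qf_psi1 (ψ : Matrix ι ι ℂ) (u v : ι ⊕ ι → ℂ) : qf (psi1 ψ) u v =
    -qf ψ (fun i => u (Sum.inl i)) (fun i => v (Sum.inl i)) +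
      qf ψ (fun i => u (Sum.inr i)) fun i => v (Sum.inr i) := by
  simp [qf, psi1, fromBlocks_mulVec, dotProduct, Fintype.sum_sum_type, neg_mulVec, Function.comp_def]

theorem qf_two (H : Matrix ι ι ℂ) (u v : ι ⊕ ι → ℂ) : qf (two H) u v =
    qf H (fun i => u (Sum.inl i)) (fun i => v (Sum.inl i)) +
      qf H (fun i => u (Sum.inr i)) fun i => v (Sum.inr i) := by
  simp [qf, two, fromBlocks_mulVec, dotProduct, Fintype.sum_sum_type, Function.comp_def]

theorem sum_fromBlocks {α : Type} (s : Finset α) (A D : α → Matrix ι ι ℂ) :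
    ∑ a ∈ s, fromBlocks (A a) 0 0 (D a) = fromBlocks (∑ a ∈ s, A a) 0 0 (∑ a ∈ s, D a) := by
  ext (i | i) (j | j) <;> simp [Matrix.sum_apply]

theorem sum_prj1 {P : ℤ → Matrix ι ι ℂ} (h : Prj (wt w) P) (c : ℤ → ℂ) :
    ∑ p ∈ wt (w + 1), c p • prj1 P p =
      fromBlocks (∑ p ∈ wt w, c (p + 1) • P p) 0 0 (∑ p ∈ wt w, c p • P p) := by
  simp only [prj1, fromBlocks_smul, smul_zero, sum_fromBlocks]
  congr 1
  · have e : ∑ p ∈ (wt w).map ⟨fun p => p + 1, add_left_injective 1⟩, c p • P (p - 1) =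
        ∑ p ∈ wt w, c (p + 1) • P p := by simp
    rw [← e]
    refine (Finset.sum_subset (fun p hp => ?_) fun p _ hp => ?_).symm
    · simp only [wt, Finset.mem_map, Finset.mem_Icc, Function.Embedding.coeFn_mk] at hp ⊢
      obtain ⟨q, hq, rfl⟩ := hp
      push_cast; omega
    · rw [h.zero _ fun hq => hp (Finset.mem_map.2 ⟨p - 1, hq, sub_add_cancel p 1⟩), smul_zero]
  · refine (Finset.sum_subset (fun p hp => ?_) fun p _ hp => by rw [h.zero p hp, smul_zero]).symm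
    simp only [wt, Finset.mem_Icc] at hp ⊢
    push_cast; omega

theorem prj_prj1 {P : ℤ → Matrix ι ι ℂ} (h : Prj (wt w) P) : Prj (wt (w + 1)) (prj1 P) := by
  refine ⟨?_, fun p => ?_, fun p q hpq => ?_, fun p hp => ?_⟩
  · have := sum_prj1 h fun _ => 1
    simpa only [one_smul, h.sum, fromBlocks_one] using this
  · simp [prj1, fromBlocks_multiply, h.idem]
  · simp [prj1, fromBlocks_multiply, h.orth p q hpq, h.orth (p - 1) (q - 1) (by omega)]
  · simp only [wt, Finset.mem_Icc] at hp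
    rw [prj1, h.zero p, h.zero (p - 1), fromBlocks_zero] <;>
      (simp only [wt, Finset.mem_Icc]; push_cast at hp; omega)

theorem posDef_two {H : Matrix ι ι ℂ} (h : H.PosDef) : (two H).PosDef := by
  refine PosDef.of_dotProduct_mulVec_pos ?_ fun u hu => ?_
  · simp [IsHermitian, two, fromBlocks_conjTranspose, h.isHermitian.eq]
  · have e := qf_two H u u
    have a := h.posSemidef.dotProduct_mulVec_nonneg fun i => u (Sum.inl i)
    have b := h.posSemidef.dotProduct_mulVec_nonneg fun i => u (Sum.inr i)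
    simp only [qf] at e
    rw [e]
    by_cases h1 : (fun i => u (Sum.inl i)) = 0
    · refine add_pos_of_nonneg_of_pos a (h.dotProduct_mulVec_pos fun h2 => hu ?_)
      funext i
      rcases i with i | i
      · exact congrFun h1 i
      · exact congrFun h2 i
    · exact add_pos_of_pos_of_nonneg (h.dotProduct_mulVec_pos h1) b

theorem weyP_prj1 {P : ℤ → Matrix ι ι ℂ} (h : Prj (wt w) P) :
    weyP (w + 1) (prj1 P) = fromBlocks (-weyP w P) 0 0 (weyP w P) := by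
  rw [weyP, sum_prj1 h, weyP, ← Finset.sum_neg_distrib]
  congr 1
  refine Finset.sum_congr rfl fun p _ => ?_
  rw [zpow_add_one₀ (by norm_num), mul_neg_one, neg_smul]

theorem grP_prj1 {P : ℤ → Matrix ι ι ℂ} (h : Prj (wt w) P) :
    grP (w + 1) (prj1 P) = fromBlocks (grP w P + 1) 0 0 (grP w P) := by
  rw [grP, sum_prj1 h (fun p => (p : ℂ)), grP, ← h.sum, ← Finset.sum_add_distrib]
  congr 1
  refine Finset.sum_congr rfl fun p _ => ?_
  rw [Int.cast_add, Int.cast_one, add_smul, one_smul]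

namespace PHS

variable {ψ : Matrix ι ι ℂ} {P : ℤ → Matrix ι ι ℂ}

theorem wey_sq (h : PHS w ψ P) : weyP w P * weyP w P = 1 := by
  rw [weyP, h.prj.sum_mul_sum, ← h.prj.sum]
  refine Finset.sum_congr rfl fun p _ => ?_
  rw [← mul_zpow, neg_mul_neg, one_mul, _root_.one_zpow, one_smul]

theorem wey_mul (h : PHS w ψ P) (p : ℤ) : weyP w P * P p = (-1 : ℂ) ^ p • P p :=
  h.prj.sum_mul _ p

theorem mul_wey (h : PHS w ψ P) (p : ℤ) : P p * weyP w P = (-1 : ℂ) ^ p • P p :=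
  h.prj.mul_sum _ p

theorem wey_adj (h : PHS w ψ P) : (weyP w P)ᴴ * ψ = ψ * weyP w P := by
  simp only [weyP, conjTranspose_sum, conjTranspose_smul, Finset.sum_mul, Finset.mul_sum,
    Matrix.smul_mul, Matrix.mul_smul, h.adj, star_zpow₀, star_neg, star_one]

theorem herm (h : PHS w ψ P) : ψ.IsHermitian := by
  have h1 : (weyP w P)ᴴ * ψᴴ = (weyP w P)ᴴ * ψ := by
    rw [← conjTranspose_mul, h.pos.isHermitian.eq, h.wey_adj]
  have h2 : (weyP w P)ᴴ * (weyP w P)ᴴ = 1 := by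
    rw [← conjTranspose_mul, h.wey_sq, conjTranspose_one]
  rw [IsHermitian, ← Matrix.one_mul ψᴴ, ← h2, Matrix.mul_assoc, h1, ← Matrix.mul_assoc, h2,
    Matrix.one_mul]

theorem unit (h : PHS w ψ P) : IsUnit ψ.det := by
  have := (isUnit_iff_isUnit_det _).1 h.pos.isUnit
  rw [det_mul] at this
  exact isUnit_of_mul_isUnit_left this

theorem gauge (h : PHS w ψ P) {g g' : Matrix ι ι ℂ} (e : g * g' = 1) :
    PHS w (g'ᴴ * ψ * g') fun p => g * P p * g' := by
  have e' : g' * g = 1 := mul_eq_one_comm.1 e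
  have c : ∀ X : Matrix ι ι ℂ, g' * (g * X) = X := fun X => by
    rw [← Matrix.mul_assoc, e', Matrix.one_mul]
  have c' : ∀ X : Matrix ι ι ℂ, gᴴ * (g'ᴴ * X) = X := fun X => by
    rw [← Matrix.mul_assoc, ← conjTranspose_mul, e', conjTranspose_one, Matrix.one_mul]
  have m : ∀ p q, g * P p * g' * (g * P q * g') = g * (P p * P q) * g' := fun p q => by
    simp only [Matrix.mul_assoc, c]
  refine ⟨⟨?_, fun p => ?_, fun p q hpq => ?_, fun p hp => ?_⟩, fun p => ?_, ?_⟩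
  · rw [← Finset.sum_mul, ← Finset.mul_sum, h.prj.sum, Matrix.mul_one, e]
  · rw [m, h.prj.idem]
  · rw [m, h.prj.orth p q hpq, Matrix.mul_zero, Matrix.zero_mul]
  · rw [h.prj.zero p hp, Matrix.mul_zero, Matrix.zero_mul]
  · simp only [conjTranspose_mul, Matrix.mul_assoc, c, c']
    rw [← Matrix.mul_assoc (P p)ᴴ, h.adj, Matrix.mul_assoc]
  · have e1 : weyP w (fun p => g * P p * g') = g * weyP w P * g' := by
      simp only [weyP, Finset.mul_sum, Finset.sum_mul, Matrix.mul_smul, Matrix.smul_mul]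
    have e2 : g'ᴴ * ψ * g' * (g * weyP w P * g') = g'ᴴ * (ψ * weyP w P) * g' := by
      simp only [Matrix.mul_assoc, c]
    rw [e1, e2]
    exact h.pos.conjTranspose_mul_mul_same
      (mulVec_injective_iff_isUnit.2 ⟨⟨g', g, e', e⟩, rfl⟩)

theorem smul (h : PHS w ψ P) {c : ℝ} (hc : 0 < c) : PHS w ((c : ℂ) • ψ) P := by
  refine ⟨h.prj, fun p => by rw [Matrix.mul_smul, Matrix.smul_mul, h.adj], ?_⟩
  rw [Matrix.smul_mul]
  exact h.pos.smul (zero_lt_real.2 hc)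

theorem psi1_wey' (h : PHS w ψ P) :
    psi1 ψ * weyP (w + 1) (prj1 P) = two (ψ * weyP w P) := by
  simp [weyP_prj1 h.prj, psi1, two, fromBlocks_multiply]

theorem wey_iso' (h : PHS w ψ P) (u v : ι → ℂ) :
    qf (ψ * weyP w P) (weyP w P *ᵥ u) (weyP w P *ᵥ v) = qf (ψ * weyP w P) u v := by
  rw [qf_mulVec_left, qf_mulVec_right, ← Matrix.mul_assoc, h.wey_adj, Matrix.mul_assoc,
    h.wey_sq, Matrix.mul_one]

theorem one (h : PHS w ψ P) : PHS (w + 1) (psi1 ψ) (prj1 P) := by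
  refine ⟨prj_prj1 h.prj, fun p => ?_, ?_⟩
  · simp [psi1, prj1, fromBlocks_conjTranspose, fromBlocks_multiply, h.adj]
  · rw [psi1_wey' h]
    exact posDef_two h.pos

theorem psi1_wey (h : PHS w ψ P) : psi1 ψ * weyP (w + 1) (prj1 P) = two (ψ * weyP w P) :=
  psi1_wey' h

theorem qf_le (h : PHS w ψ P) (u v : ι → ℂ) :
    ‖qf ψ u v‖ ^ 2 ≤ (qf (ψ * weyP w P) u u).re * (qf (ψ * weyP w P) v v).re := by
  have h1 := qf_cs h.pos u (weyP w P *ᵥ v)
  rw [wey_iso' h, qf_mulVec_right, Matrix.mul_assoc, h.wey_sq, Matrix.mul_one] at h1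
  exact h1

theorem prj_le (h : PHS w ψ P) (p : ℤ) (u : ι → ℂ) :
    (qf (ψ * weyP w P) (P p *ᵥ u) (P p *ᵥ u)).re ≤ (qf (ψ * weyP w P) u u).re := by
  have a : (P p)ᴴ * (ψ * weyP w P) = ψ * weyP w P * P p := by
    rw [← Matrix.mul_assoc, h.adj, Matrix.mul_assoc, Matrix.mul_assoc, h.wey_mul, h.mul_wey]
  have b : ∀ v, qf (ψ * weyP w P) (P p *ᵥ u) v = qf (ψ * weyP w P) u (P p *ᵥ v) := fun v => by
    rw [qf_mulVec_left, a, qf_mulVec_right]
  have c : P p *ᵥ (P p *ᵥ u) = P p *ᵥ u := by rw [mulVec_mulVec, h.prj.idem]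
  have h1 := qf_nonneg h.pos (u - P p *ᵥ u)
  simp only [qf_sub_left, qf_sub_right, b, c, sub_re] at h1
  rw [b, c]
  linarith

theorem wey_iso (h : PHS w ψ P) (u v : ι → ℂ) :
    qf (ψ * weyP w P) (weyP w P *ᵥ u) (weyP w P *ᵥ v) = qf (ψ * weyP w P) u v :=
  wey_iso' h u v

end PHS

end

end Pool.Agent.Lib.MP_5c318e_ag.V
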