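import Pool.Agent.Lib.MP_5c318e_ag.V.LV

/-! Functoriality of graded metrics: pull back, change of flat frame, sub-objects, duals. -/

set_option autoImplicit false
set_option linter.unusedSectionVars false

namespace Pool.Agent.Lib.MP_5c318e_ag.V

open Complex Filter Topology Matrix
open scoped ContDiff ComplexConjugate ComplexOrder

noncomputable section

variable {E E' : Type*} [NormedAddCommGroup E] [NormedSpace ℂ E] [NormedAddCommGroup E']
  [NormedSpace ℂ E']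
variable {m n k : Type*} [Fintype m] [Fintype n] [Fintype k] [DecidableEq m] [DecidableEq n]
  [DecidableEq k]
variable {U : Set E} {h h' Y Y' : E → Matrix n n ℂ} {K : ℝ} {x ξ : E}

/-! ### congruence -/

theorem th_congr (e : h =ᶠ[𝓝 x] h') : th h ξ x = th h' ξ x := by
  rw [th, th, derM_congr e, e.self_of_nhds]

theorem ths_congr (e : h =ᶠ[𝓝 x] h') : ths h ξ x = ths h' ξ x := by
  rw [ths, ths, derM_congr e, e.self_of_nhds]

theorem lam_congr (e : h =ᶠ[𝓝 x] h') : lam h ξ x = lam h' ξ x := by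
  rw [lam, lam, th_congr e, e.self_of_nhds]

theorem ev_of_on {α : Type*} {f g : E → α} (hU : IsOpen U) (hx : x ∈ U) (e : ∀ y ∈ U, f y = g y) :
    f =ᶠ[𝓝 x] g := eventually_of_mem (hU.mem_nhds hx) e

theorem Met.congr (M : Met U h) (e : ∀ y ∈ U, h' y = h y) : Met U h' :=
  ⟨M.op, fun x hx => (M.sm x hx).congr (ev_of_on M.op hx e), fun x hx => e x hx ▸ M.pos x hx⟩

theorem GM.congr (G : GM U h Y K) (e : ∀ y ∈ U, h' y = h y) (e' : ∀ y ∈ U, Y' y = Y y) :
    GM U h' Y' K where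
  toMet := G.toMet.congr e
  smY := fun x hx => (G.smY x hx).congr (ev_of_on G.op hx e')
  adj := fun x hx => by rw [e x hx, e' x hx, G.adj x hx]
  dY := fun x hx ξ => by rw [derM_congr_on G.op hx e', th_congr (ev_of_on G.op hx e), G.dY x hx]
  deg := fun x hx ξ => by rw [e' x hx, th_congr (ev_of_on G.op hx e), G.deg x hx]
  bd := fun x hx => by rw [e x hx, e' x hx]; exact G.bd x hx

theorem GM.mono_K (G : GM U h Y K) {K' : ℝ} (hK : K ≤ K') : GM U h Y K' :=
  ⟨G.toMet, G.smY, G.adj, G.dY, G.deg, fun x hx => (G.bd x hx).trans hK⟩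

/-- being a graded metric is a local property -/
theorem gm_of_local (hU : IsOpen U) (H : ∀ x ∈ U, ∃ V, x ∈ V ∧ GM V h Y K) : GM U h Y K where
  op := hU
  sm := fun x hx => let ⟨_, hV, G⟩ := H x hx; G.sm x hV
  pos := fun x hx => let ⟨_, hV, G⟩ := H x hx; G.pos x hV
  smY := fun x hx => let ⟨_, hV, G⟩ := H x hx; G.smY x hV
  adj := fun x hx => let ⟨_, hV, G⟩ := H x hx; G.adj x hV
  dY := fun x hx => let ⟨_, hV, G⟩ := H x hx; G.dY x hV
  deg := fun x hx => let ⟨_, hV, G⟩ := H x hx; G.deg x hV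
  bd := fun x hx => let ⟨_, hV, G⟩ := H x hx; G.bd x hV

/-! ### pull back -/

section comp

variable {g : E' → E} {V : Set E'} {y η : E'}

theorem SmM.comp {f : E → Matrix m n ℂ} (hf : SmM f (g y)) (hg : ContDiffAt ℂ ∞ g y) :
    SmM (fun z => f (g z)) y := fun i j =>
  ContDiffAt.comp (g := fun x => f x i j) y (hf i j) (hg.restrict_scalars ℝ)

theorem th_comp (hh : SmM h (g y)) (hg : DifferentiableAt ℂ g y) :
    th (fun z => h (g z)) η y = th h (fderiv ℂ g y η) (g y) := by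
  rw [th, th, derM_comp_holo hh hg]

theorem ths_comp (hh : SmM h (g y)) (hg : DifferentiableAt ℂ g y) :
    ths (fun z => h (g z)) η y = ths h (fderiv ℂ g y η) (g y) := by
  rw [ths, ths, derM_comp_holo hh hg]

theorem lam_comp (hh : SmM h (g y)) (hg : DifferentiableAt ℂ g y) :
    lam (fun z => h (g z)) η y = lam h (fderiv ℂ g y η) (g y) := by
  rw [lam, lam, th_comp hh hg]

theorem Met.comp (M : Met U h) (hV : IsOpen V) (hg : ∀ y ∈ V, ContDiffAt ℂ ∞ g y)
    (hm : ∀ y ∈ V, g y ∈ U) : Met V fun z => h (g z) :=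
  ⟨hV, fun y hy => (M.sm _ (hm y hy)).comp (hg y hy), fun y hy => M.pos _ (hm y hy)⟩

theorem GM.comp (G : GM U h Y K) (hV : IsOpen V) (hg : ∀ y ∈ V, ContDiffAt ℂ ∞ g y)
    (hm : ∀ y ∈ V, g y ∈ U) : GM V (fun z => h (g z)) (fun z => Y (g z)) K where
  toMet := G.toMet.comp hV hg hm
  smY := fun y hy => (G.smY _ (hm y hy)).comp (hg y hy)
  adj := fun y hy => G.adj _ (hm y hy)
  dY := fun y hy η => by
    have d := (hg y hy).differentiableAt (by simp)
    rw [derM_comp_holo (G.smY _ (hm y hy)) d, th_comp (G.sm _ (hm y hy)) d, G.dY _ (hm y hy)]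
  deg := fun y hy η => by
    rw [th_comp (G.sm _ (hm y hy)) ((hg y hy).differentiableAt (by simp)), G.deg _ (hm y hy)]
  bd := fun y hy => G.bd _ (hm y hy)

theorem LV.comp {Q : Matrix n n ℂ} {S : Finset ℤ} {π : ℤ → E → Matrix n n ℂ} (L : LV U Q S π)
    (hV : IsOpen V) (hg : ∀ y ∈ V, ContDiffAt ℂ ∞ g y) (hm : ∀ y ∈ V, g y ∈ U) :
    LV V Q S fun p z => π p (g z) where
  op := hV
  sm := fun p y hy => (L.sm p _ (hm y hy)).comp (hg y hy)
  prj := fun y hy => L.prj _ (hm y hy)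
  adj := fun y hy => L.adj _ (hm y hy)
  pos := fun y hy => L.pos _ (hm y hy)
  ax := fun y hy η => by
    have e : derM (-I) η (gr S fun p z => π p (g z)) y =
        derM (-I) (fderiv ℂ g y η) (gr S π) (g y) :=
      derM_comp_holo (L.sm_gr (hm y hy)) ((hg y hy).differentiableAt (by simp))
    rw [e]
    exact L.ax _ (hm y hy) _

end comp

/-! ### flat sub-objects and change of frame -/

section sub

variable {ι : Matrix n k ℂ}

theorem posDef_sub {H : Matrix n n ℂ} (p : H.PosDef) (hι : Function.Injective ι.mulVec) :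
    (ιᴴ * H * ι).PosDef := p.conjTranspose_mul_mul_same hι

theorem cancel_inj (hι : Function.Injective ι.mulVec) {A B : Matrix k m ℂ} (e : ι * A = ι * B) :
    A = B := by
  have u : IsUnit (ιᴴ * ι).det := by simpa using (posDef_sub PosDef.one hι).det_pos.ne'
  have := congrArg (fun X => (ιᴴ * ι)⁻¹ * (ιᴴ * X)) e
  simpa only [← Matrix.mul_assoc ιᴴ ι, ← Matrix.mul_assoc _ (ιᴴ * ι),
    Matrix.nonsing_inv_mul _ u, Matrix.one_mul] using this

theorem Met.sub (M : Met U h) (hι : Function.Injective ι.mulVec) : Met U fun x => ιᴴ * h x * ι :=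
  ⟨M.op, fun x hx => ((smM_const _).mul (M.sm x hx)).mul (smM_const _),
    fun x hx => posDef_sub (M.pos x hx) hι⟩

omit [DecidableEq n] in
theorem ip_sub_obj (h₁ : Matrix m m ℂ) (H : Matrix n n ℂ) (X Z : Matrix k m ℂ) :
    ip h₁ (ιᴴ * H * ι) X Z = ip h₁ H (ι * X) (ι * Z) := by
  simp only [ip, conjTranspose_mul, Matrix.mul_assoc]

omit [DecidableEq n] in
theorem nsq_sub_obj (h₁ : Matrix m m ℂ) (H : Matrix n n ℂ) (X : Matrix k m ℂ) :
    nsq h₁ (ιᴴ * H * ι) X = nsq h₁ H (ι * X) := by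
  rw [nsq, nsq, ip_sub_obj]

theorem nsq_one {H : Matrix k k ℂ} (p : H.PosDef) : nsq H H 1 = Fintype.card k := by
  rw [nsq, ip_adj p.det_pos.ne'.isUnit (T := 1) (by simp)]
  simp

theorem th_sub (M : Met U h) (hι : Function.Injective ι.mulVec) (hx : x ∈ U) {T : Matrix k k ℂ}
    (e : th h ξ x * ι = ι * T) : th (fun x => ιᴴ * h x * ι) ξ x = T := by
  rw [th, derM_mul_const ((smM_const _).mul (M.sm x hx)), derM_const_mul _ (M.sm x hx), M.d_h hx,
    Matrix.mul_smul, Matrix.smul_mul, Matrix.mul_smul, smul_smul, ← Matrix.mul_assoc ιᴴ,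
    Matrix.mul_assoc _ (th h ξ x) ι, e, ← Matrix.mul_assoc _ ι, ← Matrix.mul_assoc,
    Matrix.nonsing_inv_mul _ ((M.sub hι).unit hx), Matrix.one_mul]
  norm_num

theorem ths_sub (M : Met U h) (hι : Function.Injective ι.mulVec) (hx : x ∈ U) {T : Matrix k k ℂ}
    (e : ths h ξ x * ι = ι * T) : ths (fun x => ιᴴ * h x * ι) ξ x = T := by
  rw [ths, derM_mul_const ((smM_const _).mul (M.sm x hx)), derM_const_mul _ (M.sm x hx),
    M.dbar_h hx, Matrix.mul_smul, Matrix.smul_mul, Matrix.mul_smul, smul_smul,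
    ← Matrix.mul_assoc ιᴴ, Matrix.mul_assoc _ (ths h ξ x) ι, e, ← Matrix.mul_assoc _ ι,
    ← Matrix.mul_assoc,
    Matrix.nonsing_inv_mul _ ((M.sub hι).unit hx), Matrix.one_mul]
  norm_num

/-- the restriction of an endomorphism to the flat subspace spanned by the columns of `ι` -/
def res (ι : Matrix n k ℂ) (A : Matrix n n ℂ) : Matrix k k ℂ := (ιᴴ * ι)⁻¹ * ιᴴ * A * ι

theorem res_eq (hι : Function.Injective ι.mulVec) {A : Matrix n n ℂ} {B : Matrix k k ℂ}
    (e : A * ι = ι * B) : res ι A = B := by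
  have u : IsUnit (ιᴴ * ι).det := by simpa using (posDef_sub PosDef.one hι).det_pos.ne'
  rw [res, Matrix.mul_assoc, e, Matrix.mul_assoc, ← Matrix.mul_assoc ιᴴ, ← Matrix.mul_assoc,
    Matrix.nonsing_inv_mul _ u, Matrix.one_mul]

/-- a flat subspace stable under the grading element carries a graded metric -/
theorem GM.sub (G : GM U h Y K) (hι : Function.Injective ι.mulVec) {Z : E → Matrix k k ℂ}
    (e : ∀ x ∈ U, Y x * ι = ι * Z x) :
    GM U (fun x => ιᴴ * h x * ι) Z (K * Fintype.card k) ∧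
      ∀ x ∈ U, ∀ ξ, th h ξ x * ι = ι * th (fun x => ιᴴ * h x * ι) ξ x ∧
        ths h ξ x * ι = ι * ths (fun x => ιᴴ * h x * ι) ξ x := by
  have sZ : ∀ x ∈ U, SmM Z x := fun x hx =>
    SmM.congr (f := fun y => (ιᴴ * ι)⁻¹ * ιᴴ * Y y * ι)
      (((smM_const _).mul (G.smY x hx)).mul (smM_const _))
      (ev_of_on G.op hx fun y hy => (res_eq hι (e y hy)).symm)
  have d : ∀ x ∈ U, ∀ c ξ, derM c ξ Y x * ι = ι * derM c ξ Z x := fun x hx c ξ => by
    rw [← derM_mul_const (G.smY x hx), ← derM_const_mul _ (sZ x hx)]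
    exact derM_congr_on G.op hx e
  have d1 : ∀ x ∈ U, ∀ ξ, th h ξ x * ι = ι * derM (-I) ξ Z x := fun x hx ξ => by
    rw [← G.dY x hx, d x hx]
  have d2 : ∀ x ∈ U, ∀ ξ, ths h ξ x * ι = ι * -derM I ξ Z x := fun x hx ξ => by
    rw [Matrix.mul_neg, ← d x hx, G.dbarY hx, Matrix.neg_mul, neg_neg]
  refine ⟨⟨G.toMet.sub hι, sZ, fun x hx => ?_, fun x hx ξ => (th_sub G.toMet hι hx (d1 x hx ξ)).symm,
    fun x hx ξ => ?_, fun x hx => ?_⟩, fun x hx ξ => ?_⟩
  · rw [← Matrix.mul_assoc, ← Matrix.mul_assoc, ← conjTranspose_mul, ← e x hx, conjTranspose_mul,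
      Matrix.mul_assoc ιᴴ, G.adj x hx]
    simp only [Matrix.mul_assoc, e x hx]
  · rw [th_sub G.toMet hι hx (d1 x hx ξ)]
    refine cancel_inj hι ?_
    rw [Matrix.mul_sub, ← Matrix.mul_assoc, ← Matrix.mul_assoc, ← d1 x hx, ← e x hx,
      Matrix.mul_assoc, Matrix.mul_assoc, ← d1 x hx, ← e x hx, ← Matrix.mul_assoc,
      ← Matrix.mul_assoc, ← Matrix.sub_mul, G.deg x hx]
  · have p' := (G.toMet.sub hι).pos x hx
    have p := G.pos x hx
    have a := nsq_mul p' p p (Y x) ι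
    have b : nsq (ιᴴ * h x * ι) (h x) ι = Fintype.card k := by
      rw [← nsq_one p', nsq_sub_obj, Matrix.mul_one]
    rw [nsq_sub_obj, ← e x hx]
    rw [b] at a
    exact a.trans (mul_le_mul_of_nonneg_right (G.bd x hx) (Nat.cast_nonneg _))
  · rw [th_sub G.toMet hι hx (d1 x hx ξ), ths_sub G.toMet hι hx (d2 x hx ξ)]
    exact ⟨d1 x hx ξ, d2 x hx ξ⟩

end sub

section gauge

variable {g : Matrix n n ℂ}

theorem inj_of_unit (u : IsUnit g.det) : Function.Injective g.mulVec :=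
  mulVec_injective_of_isUnit ((isUnit_iff_isUnit_det g).2 u)

omit [DecidableEq m] in
theorem ip_gauge_src (u : IsUnit g.det) (h₁ : Matrix n n ℂ) (h₂ : Matrix m m ℂ)
    (X Z : Matrix m n ℂ) : ip (gᴴ * h₁ * g) h₂ (X * g) (Z * g) = ip h₁ h₂ X Z := by
  have u' : IsUnit gᴴ.det := by
    rw [det_conjTranspose]
    exact u.star
  simp only [ip, Matrix.mul_inv_rev, conjTranspose_mul, Matrix.mul_assoc]
  rw [← Matrix.mul_assoc gᴴ⁻¹, Matrix.nonsing_inv_mul _ u', Matrix.one_mul, trace_mul_comm]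
  simp only [Matrix.mul_assoc, Matrix.mul_nonsing_inv _ u, Matrix.mul_one]

theorem ip_gauge {g₂ : Matrix m m ℂ} (u : IsUnit g.det) (u₂ : IsUnit g₂.det) (h₁ : Matrix n n ℂ)
    (h₂ : Matrix m m ℂ) (X Z : Matrix m n ℂ) :
    ip (gᴴ * h₁ * g) (g₂ᴴ * h₂ * g₂) (g₂⁻¹ * X * g) (g₂⁻¹ * Z * g) = ip h₁ h₂ X Z := by
  rw [ip_gauge_src u, ip_sub_obj, ← Matrix.mul_assoc, ← Matrix.mul_assoc,
    Matrix.mul_nonsing_inv _ u₂, Matrix.one_mul, Matrix.one_mul]

theorem nsq_gauge {g₂ : Matrix m m ℂ} (u : IsUnit g.det) (u₂ : IsUnit g₂.det) (h₁ : Matrix n n ℂ)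
    (h₂ : Matrix m m ℂ) (X : Matrix m n ℂ) :
    nsq (gᴴ * h₁ * g) (g₂ᴴ * h₂ * g₂) (g₂⁻¹ * X * g) = nsq h₁ h₂ X := by
  rw [nsq, nsq, ip_gauge u u₂]

theorem gauge_mul (u : IsUnit g.det) (A : Matrix n n ℂ) : A * g = g * (g⁻¹ * A * g) := by
  rw [← Matrix.mul_assoc, ← Matrix.mul_assoc, Matrix.mul_nonsing_inv _ u, Matrix.one_mul]

theorem Met.gauge (M : Met U h) (u : IsUnit g.det) : Met U fun x => gᴴ * h x * g :=
  M.sub (inj_of_unit u)

theorem th_gauge (M : Met U h) (u : IsUnit g.det) (hx : x ∈ U) :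
    th (fun x => gᴴ * h x * g) ξ x = g⁻¹ * th h ξ x * g :=
  th_sub M (inj_of_unit u) hx (gauge_mul u _)

theorem ths_gauge (M : Met U h) (u : IsUnit g.det) (hx : x ∈ U) :
    ths (fun x => gᴴ * h x * g) ξ x = g⁻¹ * ths h ξ x * g :=
  ths_sub M (inj_of_unit u) hx (gauge_mul u _)

theorem lam_gauge (M : Met U h) (u : IsUnit g.det) (hx : x ∈ U) :
    lam (fun x => gᴴ * h x * g) ξ x = lam h ξ x := by
  rw [lam, th_gauge M u hx, nsq_gauge u u, lam]

/-- change of the flat frame -/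
theorem GM.gauge (G : GM U h Y K) (u : IsUnit g.det) :
    GM U (fun x => gᴴ * h x * g) (fun x => g⁻¹ * Y x * g) K :=
  have G' := (G.sub (inj_of_unit u) fun x _ => gauge_mul u (Y x)).1
  ⟨G'.toMet, G'.smY, G'.adj, G'.dY, G'.deg, fun x hx => (nsq_gauge u u _ _ _).trans_le (G.bd x hx)⟩

end gauge

/-! ### the determinant is locally constant -/

theorem GM.der_det (G : GM U h Y K) (hx : x ∈ U) :
    der (-I) ξ (fun y => (h y).det) x = 0 ∧ der I ξ (fun y => (h y).det) x = 0 := by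
  constructor
  · rw [der_det' (G.sm x hx) (G.det_ne hx), G.d_h hx, Matrix.mul_smul, ← Matrix.mul_assoc,
      Matrix.nonsing_inv_mul _ (G.unit hx), Matrix.one_mul, trace_smul, G.trace_th hx]
    simp
  · rw [der_det' (G.sm x hx) (G.det_ne hx), G.dbar_h hx, Matrix.mul_smul, ← Matrix.mul_assoc,
      Matrix.nonsing_inv_mul _ (G.unit hx), Matrix.one_mul, trace_smul, G.trace_ths hx]
    simp

theorem const_of_der {f : E → ℂ} (hU : IsOpen U) (hc : IsPreconnected U)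
    (hf : ∀ x ∈ U, DifferentiableAt ℝ f x)
    (h0 : ∀ x ∈ U, ∀ ξ, der (-I) ξ f x = 0 ∧ der I ξ f x = 0) {x y : E} (hx : x ∈ U) (hy : y ∈ U) :
    f x = f y :=
  hU.is_const_of_fderiv_eq_zero (𝕜 := ℝ) hc (fun z hz => (hf z hz).differentiableWithinAt)
    (fun z hz => by
      ext ξ
      rw [← d_add_dbar, (h0 z hz ξ).1, (h0 z hz ξ).2]
      simp) hx hy

theorem const_of_derM {f : E → Matrix m n ℂ} (hU : IsOpen U) (hc : IsPreconnected U)
    (hf : ∀ x ∈ U, SmM f x) (h0 : ∀ x ∈ U, ∀ ξ, derM (-I) ξ f x = 0 ∧ derM I ξ f x = 0) {x y : E}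
    (hx : x ∈ U) (hy : y ∈ U) : f x = f y := by
  ext i j
  exact const_of_der hU hc (fun z hz => (hf z hz i j).diff)
    (fun z hz ξ => ⟨congrFun (congrFun (h0 z hz ξ).1 i) j, congrFun (congrFun (h0 z hz ξ).2 i) j⟩)
    hx hy

theorem GM.det_const (G : GM U h Y K) (hc : IsPreconnected U) {x y : E} (hx : x ∈ U) (hy : y ∈ U) :
    (h x).det = (h y).det :=
  const_of_der G.op hc (fun z hz => (G.sm z hz).det.diff) (fun _ hz _ => G.der_det hz) hx hy

/-! ### dual and conjugate -/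

theorem SmM.transpose {f : E → Matrix m n ℂ} (hf : SmM f x) : SmM (fun y => (f y)ᵀ) x :=
  fun i j => hf j i

theorem derM_transpose {c : ℂ} (f : E → Matrix m n ℂ) :
    derM c ξ (fun y => (f y)ᵀ) x = (derM c ξ f x)ᵀ := rfl

theorem Met.dual (M : Met U h) : Met U fun x => ((h x)⁻¹)ᵀ :=
  ⟨M.op, fun _ hx => (M.sm_inv hx).transpose, fun x hx => (M.pos x hx).inv.transpose⟩

theorem th_dual (M : Met U h) (hx : x ∈ U) : th (fun x => ((h x)⁻¹)ᵀ) ξ x = -(th h ξ x)ᵀ := by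
  rw [th, derM_transpose, M.d_inv hx, ← transpose_nonsing_inv, ← transpose_mul,
    Matrix.nonsing_inv_nonsing_inv _ (M.unit hx), Matrix.smul_mul, Matrix.mul_assoc,
    Matrix.nonsing_inv_mul _ (M.unit hx), Matrix.mul_one, transpose_smul, smul_smul]
  norm_num

theorem ths_dual (M : Met U h) (hx : x ∈ U) : ths (fun x => ((h x)⁻¹)ᵀ) ξ x = -(ths h ξ x)ᵀ := by
  rw [ths, derM_transpose, M.dbar_inv hx, ← transpose_nonsing_inv, ← transpose_mul,
    Matrix.nonsing_inv_nonsing_inv _ (M.unit hx), Matrix.smul_mul, Matrix.mul_assoc,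
    Matrix.nonsing_inv_mul _ (M.unit hx), Matrix.mul_one, transpose_smul, smul_smul]
  norm_num

theorem GM.nsq_Y (G : GM U h Y K) (hx : x ∈ U) : nsq (h x) (h x) (Y x) = (Y x * Y x).trace.re := by
  rw [nsq, ip_adj (G.unit hx) (G.adj x hx)]

theorem GM.dual (G : GM U h Y K) : GM U (fun x => ((h x)⁻¹)ᵀ) (fun x => -(Y x)ᵀ) K := by
  have a : ∀ x ∈ U, (-(Y x)ᵀ)ᴴ * ((h x)⁻¹)ᵀ = ((h x)⁻¹)ᵀ * -(Y x)ᵀ := fun x hx => by
    have e := congrArg (fun A => ((h x)⁻¹ * A * (h x)⁻¹)ᵀ) (G.adj x hx)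
    simp only [Matrix.mul_assoc, Matrix.mul_nonsing_inv _ (G.unit hx), Matrix.mul_one] at e
    rw [← Matrix.mul_assoc (h x)⁻¹ (h x), Matrix.nonsing_inv_mul _ (G.unit hx), Matrix.one_mul,
      transpose_mul, transpose_mul] at e
    rw [conjTranspose_neg, Matrix.neg_mul, Matrix.mul_neg, ← e]
    rfl
  refine ⟨G.toMet.dual, fun x hx => (G.smY x hx).transpose.neg, a, fun x hx ξ => ?_,
    fun x hx ξ => ?_, fun x hx => ?_⟩
  · rw [derM_neg, derM_transpose, G.dY x hx, th_dual G.toMet hx]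
  · rw [th_dual G.toMet hx, neg_mul_neg, neg_mul_neg, ← transpose_mul, ← transpose_mul,
      ← transpose_sub, ← transpose_neg, ← G.deg x hx ξ, neg_sub, G.deg x hx]
  · rw [nsq, ip_adj (G.toMet.dual.unit hx) (a x hx), neg_mul_neg, ← transpose_mul, trace_transpose,
      ← G.nsq_Y hx]
    exact G.bd x hx

end

end Pool.Agent.Lib.MP_5c318e_ag.V
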