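import Pool.Agent.Lib.MP_5c318e_ag.V.Der
import Pool.Agent.Lib.MP_9ff3e7_ag.F.LeviA

/-! Rules for the Levi form on a complex normed space. Second derivative test. -/

set_option autoImplicit false

namespace Pool.Agent.Lib.MP_5c318e_ag.V

open Complex Filter Topology
open Pool.Agent.Lib.MP_9ff3e7_ag.F.Lv (d2_comp d2_add d2_real d2_holo_I diffAt_fderiv ev_diffAt)
open scoped ContDiff ComplexConjugate

noncomputable section

variable {E : Type*} [NormedAddCommGroup E] [NormedSpace ℂ E] {φ ψ : E → ℝ} {x ξ : E}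

theorem lev_eq_levi {ι : Type} [Fintype ι] (φ : (ι → ℂ) → ℝ) (x ξ : ι → ℂ) :
    lev φ x ξ = Pool.Agent.Lib.MP_9ff3e7_ag.F.levi φ x ξ := rfl

theorem der_eq_dbar {ι : Type} [Fintype ι] (f : (ι → ℂ) → ℂ) (x ξ : ι → ℂ) :
    der I ξ f x = Pool.Agent.Lib.MP_9ff3e7_ag.F.dbar f x ξ := rfl

theorem cd2 {F : Type*} [NormedAddCommGroup F] [NormedSpace ℝ F] {f : E → F}
    (h : ContDiffAt ℝ ∞ f x) : ContDiffAt ℝ 2 f x := h.of_le (by norm_cast)

theorem norm_d_ofReal_sq (hφ : DifferentiableAt ℝ φ x) :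
    ‖der (-I) ξ (fun y => (φ y : ℂ)) x‖ ^ 2 =
      (fderiv ℝ φ x ξ ^ 2 + fderiv ℝ φ x (I • ξ) ^ 2) / 4 := by
  rw [der, pd_ofReal hφ, pd_ofReal hφ, Complex.sq_norm, normSq_apply]
  simp
  ring

@[simp] theorem lev_const (c : ℝ) : lev (fun _ : E => c) x ξ = 0 := by simp [lev]

theorem lev_add (hφ : ContDiffAt ℝ 2 φ x) (hψ : ContDiffAt ℝ 2 ψ x) :
    lev (fun y => φ y + ψ y) x ξ = lev φ x ξ + lev ψ x ξ := by
  simp only [lev, d2_add hφ hψ, add_apply]
  ring

theorem lev_comp_real {χ : ℝ → ℝ} (hχ : ContDiffAt ℝ 2 χ (φ x)) (hφ : ContDiffAt ℝ 2 φ x) :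
    lev (fun y => χ (φ y)) x ξ = deriv χ (φ x) * lev φ x ξ +
      deriv (deriv χ) (φ x) * ‖der (-I) ξ (fun y => (φ y : ℂ)) x‖ ^ 2 := by
  rw [norm_d_ofReal_sq (hφ.differentiableAt (by norm_num))]
  simp only [lev, d2_comp hχ hφ, d2_real hχ]
  simp only [fderiv_eq_smul_deriv, smul_eq_mul]
  ring

theorem lev_const_mul (c : ℝ) (hφ : ContDiffAt ℝ 2 φ x) :
    lev (fun y => c * φ y) x ξ = c * lev φ x ξ := by
  have e : deriv (fun t : ℝ => c * t) = fun _ => c := by
    funext t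
    simp
  rw [lev_comp_real (χ := fun t => c * t) (by fun_prop) hφ, e]
  simp

theorem lev_neg (hφ : ContDiffAt ℝ 2 φ x) : lev (fun y => -φ y) x ξ = -lev φ x ξ := by
  simpa using lev_const_mul (-1) hφ

theorem lev_sub (hφ : ContDiffAt ℝ 2 φ x) (hψ : ContDiffAt ℝ 2 ψ x) :
    lev (fun y => φ y - ψ y) x ξ = lev φ x ξ - lev ψ x ξ := by
  simp only [sub_eq_add_neg]
  rw [lev_add hφ hψ.neg, lev_neg hψ]

theorem lev_sum {α : Type*} (s : Finset α) {φ : α → E → ℝ}
    (hφ : ∀ a ∈ s, ContDiffAt ℝ 2 (φ a) x) :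
    lev (fun y => ∑ a ∈ s, φ a y) x ξ = ∑ a ∈ s, lev (φ a) x ξ := by
  classical
  induction s using Finset.induction_on with
  | empty => simp
  | insert a s ha ih =>
    simp only [Finset.sum_insert ha]
    rw [lev_add (hφ a (Finset.mem_insert_self _ _))
      (ContDiffAt.sum fun b hb => hφ b (Finset.mem_insert_of_mem hb)),
      ih fun b hb => hφ b (Finset.mem_insert_of_mem hb)]

theorem lev_exp (hφ : ContDiffAt ℝ 2 φ x) :
    lev (fun y => Real.exp (φ y)) x ξ =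
      Real.exp (φ x) * (lev φ x ξ + ‖der (-I) ξ (fun y => (φ y : ℂ)) x‖ ^ 2) := by
  rw [lev_comp_real Real.contDiff_exp.contDiffAt hφ, Real.deriv_exp, Real.deriv_exp]
  ring

theorem lev_comp_holo {E' : Type*} [NormedAddCommGroup E'] [NormedSpace ℂ E'] {g : E' → E}
    {x ξ : E'} (hφ : ContDiffAt ℝ 2 φ (g x)) (hg : ContDiffAt ℂ 2 g x) :
    lev (fun y => φ (g y)) x ξ = lev φ (g x) (fderiv ℂ g x ξ) := by
  simp only [lev, d2_comp hφ (hg.restrict_scalars ℝ), d2_holo_I hg,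
    fderiv_real_apply (hg.differentiableAt (by norm_num)), map_smul, map_neg]
  ring

theorem lev_vec_smul (c : ℂ) : lev φ x (c • ξ) = ‖c‖ ^ 2 * lev φ x ξ := by
  have e2 : I • c • ξ = c.re • (I • ξ) + (-c.im) • ξ := by
    rw [smul_split c ξ, smul_add, smul_comm I c.re, smul_comm I c.im, smul_smul I I, I_mul_I]
    simp
  rw [lev, lev, e2, smul_split c ξ, Complex.sq_norm, normSq_apply]
  simp only [map_add, map_smul, add_apply, smul_apply, smul_eq_mul]
  ring

/-- the real part of a holomorphic function is pluriharmonic -/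
theorem lev_re_holo {f : E → ℂ} (hf : ContDiffAt ℂ 2 f x) : lev (fun y => (f y).re) x ξ = 0 := by
  rw [lev_comp_holo (φ := fun z : ℂ => z.re) reCLM.contDiff.contDiffAt hf]
  have : fderiv ℝ (fun z : ℂ => z.re) = fun _ => reCLM := funext fun z => reCLM.fderiv
  simp [lev, this]

theorem lev_normSq (z w : ℂ) : lev (fun y : ℂ => ‖y‖ ^ 2) z w = ‖w‖ ^ 2 := by
  have e : fderiv ℝ (fun y : ℂ => ‖y‖ ^ 2) = fun y => (2 • (innerSL ℝ : ℂ →L[ℝ] ℂ →L[ℝ] ℝ)) y := by
    funext y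
    rw [fderiv_norm_sq_apply]
    rfl
  rw [lev, e, ContinuousLinearMap.fderiv]
  have k : ∀ u : ℂ, (2 • (innerSL ℝ : ℂ →L[ℝ] ℂ →L[ℝ] ℝ)) u u = 2 * ‖u‖ ^ 2 := fun u => by
    rw [← real_inner_self_eq_norm_sq, two_smul, two_mul]
    rfl
  rw [k, k, norm_smul, norm_I]
  ring

/-- `log |f|²` is pluriharmonic off the zeros of a holomorphic `f` -/
theorem lev_log_norm_holo {f : E → ℂ} (hf : ContDiffAt ℂ 2 f x) (h0 : f x ≠ 0) :
    lev (fun y => Real.log ‖f y‖) x ξ = 0 := by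
  have c : ContinuousAt (fun y => f y / f x) x := hf.continuousAt.div_const _
  have s : f x / f x ∈ slitPlane := by
    rw [div_self h0]
    exact one_mem_slitPlane
  have e : (fun y => Real.log ‖f y‖) =ᶠ[𝓝 x]
      fun y => (log (f y / f x) + (Real.log ‖f x‖ : ℝ)).re := by
    filter_upwards [hf.continuousAt.eventually_ne h0] with y hy
    rw [add_re, log_re, ofReal_re, norm_div, Real.log_div (norm_ne_zero_iff.2 hy)
      (norm_ne_zero_iff.2 h0)]
    ring
  rw [lev, e.fderiv.fderiv_eq, ← lev]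
  exact lev_re_holo (((contDiffAt_log s).comp x (hf.div_const _)).add contDiffAt_const)

theorem d2_nonpos_of_max (hφ : ContDiffAt ℝ 2 φ x) (hm : IsLocalMax φ x) (v : E) :
    fderiv ℝ (fderiv ℝ φ) x v v ≤ 0 := by
  by_contra hp
  rw [not_le] at hp
  let l : ℝ → E := fun t => x + t • v
  have l0 : l 0 = x := by simp [l]
  have ld : ∀ t, HasDerivAt l v t := fun t => by
    simpa [l] using ((hasDerivAt_id t).smul_const v).const_add x
  have lc : Tendsto l (𝓝 0) (𝓝 x) := by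
    have := (ld 0).continuousAt.tendsto
    rwa [l0] at this
  have e : deriv (fun t => φ (l t)) =ᶠ[𝓝 0] fun t => fderiv ℝ φ (l t) v := by
    filter_upwards [lc.eventually (ev_diffAt hφ)] with t ht
    exact (ht.hasFDerivAt.comp_hasDerivAt t (ld t)).deriv
  have d2 : HasDerivAt (fun t => fderiv ℝ φ (l t) v) (fderiv ℝ (fderiv ℝ φ) x v v) 0 := by
    have a : HasFDerivAt (fderiv ℝ φ) (fderiv ℝ (fderiv ℝ φ) x) (l 0) := by
      rw [l0]
      exact (diffAt_fderiv hφ).hasFDerivAt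
    simpa using (a.comp_hasDerivAt 0 (ld 0)).clm_apply (hasDerivAt_const 0 v)
  have mx : IsLocalMax (fun t => φ (l t)) 0 := by
    have := lc.eventually hm
    simpa only [IsLocalMax, IsMaxFilter, l0] using this
  have c0 : ContinuousAt (fun t => φ (l t)) 0 :=
    ContinuousAt.comp (by rw [l0]; exact hφ.continuousAt) (ld 0).continuousAt
  have p2 : deriv (deriv fun t => φ (l t)) 0 > 0 := by
    rw [e.deriv_eq, d2.deriv]
    exact hp
  have mn := isLocalMin_of_deriv_deriv_pos p2 mx.deriv_eq_zero c0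
  have cst : (fun t => φ (l t)) =ᶠ[𝓝 0] fun _ => φ (l 0) := by
    filter_upwards [mx, mn] with t h1 h2 using le_antisymm h1 h2
  rw [cst.deriv.deriv_eq] at p2
  simp at p2

/-- second derivative test -/
theorem lev_nonpos_of_max (hφ : ContDiffAt ℝ 2 φ x) (hm : IsLocalMax φ x) : lev φ x ξ ≤ 0 := by
  have a := d2_nonpos_of_max hφ hm ξ
  have b := d2_nonpos_of_max hφ hm (I • ξ)
  rw [lev]
  linarith

end

end Pool.Agent.Lib.MP_5c318e_ag.V
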