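import Pool.Agent.Lib.MP_5c318e_ag.V.HM
import Pool.Agent.Lib.MP_5c318e_ag.V.Lev

/-! One variable: the Ahlfors lemma, a Liouville theorem on a punctured plane. -/

set_option autoImplicit false

namespace Pool.Agent.Lib.MP_5c318e_ag.V

open Complex Filter Topology Metric Set
open scoped ContDiff ComplexConjugate

noncomputable section

section holo

variable {E : Type*} [NormedAddCommGroup E] [NormedSpace ℂ E] {f : E → ℂ} {x ξ : E}

theorem cd_normSq {N : WithTop ℕ∞} (hf : ContDiffAt ℝ N f x) :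
    ContDiffAt ℝ N (fun y => ‖f y‖ ^ 2) x := hf.norm_sq ℝ

theorem lev_normSq_holo (hf : ContDiffAt ℂ 2 f x) :
    lev (fun y => ‖f y‖ ^ 2) x ξ = ‖fderiv ℂ f x ξ‖ ^ 2 := by
  rw [lev_comp_holo (φ := fun z : ℂ => ‖z‖ ^ 2) (cd_normSq contDiffAt_id) hf, lev_normSq]

theorem d_normSq_holo (hf : DifferentiableAt ℂ f x) :
    der (-I) ξ (fun y => ((‖f y‖ ^ 2 : ℝ) : ℂ)) x = fderiv ℂ f x ξ * conj (f x) := by
  have e : (fun y => ((‖f y‖ ^ 2 : ℝ) : ℂ)) = fun y => f y * conj (f y) := by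
    funext y
    rw [mul_conj']
    push_cast
    rfl
  have r := hf.restrictScalars ℝ
  have c : DifferentiableAt ℝ (fun y => conj (f y)) x :=
    (conjCLE : ℂ →L[ℝ] ℂ).differentiableAt.comp x r
  rw [e, der_mul r c, der_conj r, d_holo hf, map_neg, conj_I, neg_neg, dbar_holo hf]
  simp

theorem lev_log2 {φ : E → ℝ} (hφ : ContDiffAt ℝ 2 φ x) (h0 : φ x ≠ 0) :
    lev (fun y => Real.log (φ y)) x ξ =
      lev φ x ξ / φ x - ‖der (-I) ξ (fun y => (φ y : ℂ)) x‖ ^ 2 / φ x ^ 2 := by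
  rw [lev_comp_real (Real.contDiffAt_log.2 h0) hφ, Real.deriv_log', deriv_inv]
  ring

end holo

theorem lev_log_disc {a z : ℂ} {r : ℝ} (h : r ^ 2 - ‖z - a‖ ^ 2 ≠ 0) :
    lev (fun y => Real.log (r ^ 2 - ‖y - a‖ ^ 2)) z 1 = -r ^ 2 / (r ^ 2 - ‖z - a‖ ^ 2) ^ 2 := by
  have c : ContDiffAt ℂ 2 (fun y : ℂ => y - a) z := by fun_prop
  have c2 := cd_normSq (c.restrict_scalars ℝ)
  have f1 : fderiv ℂ (fun y : ℂ => y - a) z 1 = 1 := by simp [fderiv_sub_const]
  have e : der (-I) 1 (fun y => ((r ^ 2 - ‖y - a‖ ^ 2 : ℝ) : ℂ)) z = -conj (z - a) := by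
    have d : DifferentiableAt ℝ (fun y => ((‖y - a‖ ^ 2 : ℝ) : ℂ)) z :=
      ofRealCLM.differentiableAt.comp z (c2.differentiableAt (by norm_num))
    simp only [ofReal_sub]
    rw [der_sub (differentiableAt_const _) d, der_const,
      d_normSq_holo (c.differentiableAt (by norm_num)), f1]
    simp
  rw [lev_log2 (contDiffAt_const.sub c2) h, lev_sub contDiffAt_const c2, lev_const,
    lev_normSq_holo c, f1, e, norm_neg, RCLike.norm_conj, norm_one]
  field_simp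
  ring

/-- the pseudo-metric `l |dz|²` is negatively curved -/
def Neg (Ω : Set ℂ) (K : ℝ) (l : ℂ → ℝ) : Prop :=
  ∀ z ∈ Ω, ContDiffAt ℝ 2 l z ∧ (0 < l z → l z ≤ K * lev (fun y => Real.log (l y)) z 1)

variable {Ω : Set ℂ} {K : ℝ} {l : ℂ → ℝ}

theorem Neg.mono (N : Neg Ω K l) {Ω' : Set ℂ} (h : Ω' ⊆ Ω) : Neg Ω' K l := fun z hz => N z (h hz)

theorem Neg.ahlfors_closed (N : Neg Ω K l) (hK : 0 ≤ K) {a : ℂ} {r : ℝ} (hr : 0 < r)
    (hs : closedBall a r ⊆ Ω) : l a ≤ 2 * K / r ^ 2 := by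
  rcases le_or_gt (l a) 0 with h0 | h0
  · exact h0.trans (by positivity)
  have c : ContinuousOn (fun z => l z * (r ^ 2 - ‖z - a‖ ^ 2) ^ 2) (closedBall a r) :=
    ContinuousOn.mul (fun z hz => (N z (hs hz)).1.continuousAt.continuousWithinAt) (by fun_prop)
  obtain ⟨z, hz, hm⟩ := (isCompact_closedBall a r).exists_isMaxOn (nonempty_closedBall.2 hr.le) c
  have ha : l a * (r ^ 2) ^ 2 ≤ l z * (r ^ 2 - ‖z - a‖ ^ 2) ^ 2 := by
    simpa using hm (mem_closedBall_self hr.le)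
  have p : 0 < l z * (r ^ 2 - ‖z - a‖ ^ 2) ^ 2 := lt_of_lt_of_le (by positivity) ha
  have lz : 0 < l z := (pos_iff_pos_of_mul_pos p).2 (by
    refine lt_of_le_of_ne (sq_nonneg _) fun e => ?_
    rw [← e, mul_zero] at p
    exact p.false)
  have ne : r ^ 2 - ‖z - a‖ ^ 2 ≠ 0 := fun e => by simp [e] at p
  have zb : z ∈ ball a r := by
    rw [mem_ball, dist_eq_norm]
    refine lt_of_le_of_ne (by simpa [dist_eq_norm] using hz) fun e => ne ?_
    rw [e, sub_self]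
  have cl := (N z (hs hz)).1
  have c2 : ContDiffAt ℝ 2 (fun y : ℂ => r ^ 2 - ‖y - a‖ ^ 2) z :=
    contDiffAt_const.sub (cd_normSq (by fun_prop))
  have mx : IsLocalMax (fun y => Real.log (l y) + 2 * Real.log (r ^ 2 - ‖y - a‖ ^ 2)) z := by
    filter_upwards [isOpen_ball.mem_nhds zb, cl.continuousAt.eventually (lt_mem_nhds lz),
      c2.continuousAt.eventually_ne ne] with y hy h1 h2
    have e : ∀ s t : ℝ, s ≠ 0 → t ≠ 0 → Real.log s + 2 * Real.log t = Real.log (s * t ^ 2) :=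
      fun s t hs ht => by rw [Real.log_mul hs (pow_ne_zero 2 ht), Real.log_pow, Nat.cast_ofNat]
    rw [e _ _ h1.ne' h2, e _ _ lz.ne' ne]
    exact Real.log_le_log (by positivity) (hm (ball_subset_closedBall hy))
  have t := lev_nonpos_of_max (ξ := 1)
    ((cl.log lz.ne').add (contDiffAt_const.mul (c2.log ne))) mx
  rw [lev_add (cl.log lz.ne') (contDiffAt_const.mul (c2.log ne)), lev_const_mul _ (c2.log ne),
    lev_log_disc ne] at t
  have u : l z ≤ K * (2 * r ^ 2 / (r ^ 2 - ‖z - a‖ ^ 2) ^ 2) :=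
    ((N z (hs hz)).2 lz).trans (mul_le_mul_of_nonneg_left (by
      rw [neg_div] at t
      rw [mul_div_assoc]
      linarith) hK)
  rw [← mul_div_assoc, le_div_iff₀ (by positivity)] at u
  rw [le_div_iff₀ (by positivity)]
  have r2 : 0 < r ^ 2 := by positivity
  nlinarith

/-- the Ahlfors lemma -/
theorem Neg.ahlfors (N : Neg Ω K l) (hK : 0 ≤ K) {a : ℂ} {r : ℝ} (hr : 0 < r)
    (hs : ball a r ⊆ Ω) : l a ≤ 2 * K / r ^ 2 := by
  have c : ContinuousAt (fun s : ℝ => 2 * K / s ^ 2) r :=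
    continuousAt_const.div (by fun_prop) (by positivity)
  refine ge_of_tendsto (c.tendsto.mono_left (nhdsWithin_le_nhds (s := Iio r))) ?_
  filter_upwards [Ioo_mem_nhdsLT hr] with s h
  exact N.ahlfors_closed hK h.1 ((closedBall_subset_ball h.2).trans hs)

theorem Neg.comp (N : Neg Ω K l) {g : ℂ → ℂ} {Ω' : Set ℂ} (hg : ∀ w ∈ Ω', AnalyticAt ℂ g w)
    (hm : ∀ w ∈ Ω', g w ∈ Ω) : Neg Ω' K fun w => ‖deriv g w‖ ^ 2 * l (g w) := fun w hw => by
  have g2 : ContDiffAt ℂ 2 g w := (hg w hw).contDiffAt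
  have d2 : ContDiffAt ℂ 2 (deriv g) w := (hg w hw).deriv.contDiffAt
  have l2 := (N _ (hm w hw)).1
  have c1 := cd_normSq (d2.restrict_scalars ℝ)
  have c2 : ContDiffAt ℝ 2 (fun w => l (g w)) w := l2.comp w (g2.restrict_scalars ℝ)
  refine ⟨c1.mul c2, fun p => ?_⟩
  have d0 : deriv g w ≠ 0 := fun e => by simp [e] at p
  have lp : 0 < l (g w) := (pos_iff_pos_of_mul_pos p).1 (by positivity)
  have e : (fun y => Real.log (‖deriv g y‖ ^ 2 * l (g y))) =ᶠ[𝓝 w]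
      fun y => 2 * Real.log ‖deriv g y‖ + Real.log (l (g y)) := by
    filter_upwards [d2.continuousAt.eventually_ne d0, c2.continuousAt.eventually_ne lp.ne']
      with y h1 h2
    rw [Real.log_mul (pow_ne_zero 2 (norm_ne_zero_iff.2 h1)) h2, Real.log_pow, Nat.cast_ofNat]
  have c3 : ContDiffAt ℝ 2 (fun y => Real.log ‖deriv g y‖) w :=
    ((d2.restrict_scalars ℝ).norm ℝ d0).log (norm_ne_zero_iff.2 d0)
  rw [lev_congr e, lev_add (contDiffAt_const.mul c3) (c2.log lp.ne'), lev_const_mul _ c3,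
    lev_log_norm_holo d2 d0,
    lev_comp_holo (φ := fun y => Real.log (l y)) (l2.log lp.ne') g2, fderiv_apply_one_eq_deriv,
    show deriv g w = deriv g w • (1 : ℂ) by simp, lev_vec_smul]
  nlinarith [mul_le_mul_of_nonneg_left ((N _ (hm w hw)).2 lp) (sq_nonneg ‖deriv g w‖)]

theorem Neg.exp_bound (N : Neg Ω K l) (hK : 0 ≤ K) {a w : ℂ} {r : ℝ} (hr : 0 < r)
    (hs : ∀ v ∈ ball w r, a + exp v ∈ Ω) : ‖exp w‖ ^ 2 * l (a + exp w) ≤ 2 * K / r ^ 2 := by
  have := (N.comp (g := fun v => a + exp v) (Ω' := ball w r) (fun v _ => by fun_prop) hs).ahlfors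
    hK hr Subset.rfl
  simpa [deriv_const_add] using this

/-- the Ahlfors lemma on an annulus `R₁ < |z - a| < R₂`, in the form: every point `y` with
`|log |y - a| - log |z - a|| < r` lies in the domain -/
theorem Neg.ann_bound (N : Neg Ω K l) (hK : 0 ≤ K) {a z : ℂ} (hz : z ≠ a) {r : ℝ} (hr : 0 < r)
    (hs : ∀ y, y ≠ a → |Real.log ‖y - a‖ - Real.log ‖z - a‖| < r → y ∈ Ω) :
    ‖z - a‖ ^ 2 * l z ≤ 2 * K / r ^ 2 := by
  have := N.exp_bound hK (a := a) (w := log (z - a)) hr fun v hv => hs _ (by simp) (by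
    rw [add_sub_cancel_left, norm_exp, Real.log_exp, ← log_re, ← sub_re]
    exact (abs_re_le_norm _).trans_lt (by simpa [dist_eq_norm] using hv))
  rwa [exp_log (sub_ne_zero.2 hz), add_sub_cancel] at this

/-- the Ahlfors lemma on a punctured disc -/
theorem Neg.punct (N : Neg Ω K l) (hK : 0 ≤ K) {a z : ℂ} {R : ℝ}
    (hs : ∀ y, y ≠ a → ‖y - a‖ < R → y ∈ Ω) (hz : z ≠ a) (hR : ‖z - a‖ < R) :
    ‖z - a‖ ^ 2 * l z ≤ 2 * K / (Real.log R - Real.log ‖z - a‖) ^ 2 := by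
  have p : 0 < ‖z - a‖ := norm_pos_iff.2 (sub_ne_zero.2 hz)
  refine N.ann_bound hK hz (sub_pos.2 (Real.log_lt_log p hR)) fun y hy h => hs y hy ?_
  rw [← Real.log_lt_log_iff (norm_pos_iff.2 (sub_ne_zero.2 hy)) (p.trans hR)]
  linarith [(abs_lt.1 h).2]

/-- the Ahlfors lemma near infinity -/
theorem Neg.infty (N : Neg Ω K l) (hK : 0 ≤ K) {a z : ℂ} {R : ℝ} (h0 : 0 < R)
    (hs : ∀ y, R < ‖y - a‖ → y ∈ Ω) (hR : R < ‖z - a‖) :
    ‖z - a‖ ^ 2 * l z ≤ 2 * K / (Real.log ‖z - a‖ - Real.log R) ^ 2 := by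
  have hz : z ≠ a := sub_ne_zero.1 (norm_pos_iff.1 (h0.trans hR))
  refine N.ann_bound hK hz (sub_pos.2 (Real.log_lt_log h0 hR)) fun y hy h => hs y ?_
  rw [← Real.log_lt_log_iff h0 (norm_pos_iff.2 (sub_ne_zero.2 hy))]
  linarith [(abs_lt.1 h).1]

/-! ### Liouville -/

theorem lev_inv_normSq {a z : ℂ} (h : z ≠ a) : 0 < lev (fun y => ‖(y - a)⁻¹‖ ^ 2) z 1 := by
  have c : ContDiffAt ℂ 2 (fun y : ℂ => (y - a)⁻¹) z :=
    ContDiffAt.inv (by fun_prop) (sub_ne_zero.2 h)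
  have d : HasDerivAt (fun y : ℂ => (y - a)⁻¹) (-1 / (z - a) ^ 2) z :=
    ((hasDerivAt_id z).sub_const a).inv (sub_ne_zero.2 h)
  rw [lev_normSq_holo c, fderiv_apply_one_eq_deriv, d.deriv]
  exact pow_pos (norm_pos_iff.2 (div_ne_zero (by norm_num) (pow_ne_zero 2 (sub_ne_zero.2 h)))) 2

theorem exists_max_punct (R : Finset ℂ) {v : ℂ → ℝ} {A : Set ℂ} (hA : IsClosed A)
    (hv : ∀ z ∈ A, z ∉ R → ContinuousAt v z) {z₁ : ℂ} (h1 : z₁ ∈ A) (h1' : z₁ ∉ R)
    (hR : ∀ a ∈ R, ∀ᶠ z in 𝓝[≠] a, v z ≤ v z₁) (hi : ∀ᶠ z in cocompact ℂ, v z ≤ v z₁) :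
    ∃ z ∈ A, z ∉ R ∧ ∀ y ∈ A, y ∉ R → v y ≤ v z := by
  have : ∀ a ∈ R, ∃ O : Set ℂ, IsOpen O ∧ a ∈ O ∧ z₁ ∉ O ∧ ∀ z ∈ O, z ≠ a → v z ≤ v z₁ :=
    fun a ha => by
    have ne : a ≠ z₁ := fun e => h1' (e ▸ ha)
    obtain ⟨O, h2, h3, h4⟩ := _root_.eventually_nhds_iff.1
      ((eventually_nhdsWithin_iff.1 (hR a ha)).and (eventually_ne_nhds ne))
    exact ⟨O, h3, h4, fun h => (h2 _ h).2 rfl, fun z hz => (h2 z hz).1⟩
  choose! O o1 o2 o3 o4 using this
  have cl : IsClosed (A \ ⋃ a ∈ R, O a) := hA.sdiff (isOpen_biUnion o1)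
  have nR : ∀ z ∈ A \ ⋃ a ∈ R, O a, z ∉ R := fun z hz h => hz.2 (mem_biUnion h (o2 z h))
  have m1 : z₁ ∈ A \ ⋃ a ∈ R, O a := ⟨h1, by simpa using o3⟩
  obtain ⟨z, hz, hm⟩ := ContinuousOn.exists_isMaxOn' (f := v)
    (fun z hz => (hv z hz.1 (nR z hz)).continuousWithinAt) cl m1 (hi.filter_mono inf_le_left)
  refine ⟨z, hz.1, nR z hz, fun y hy hy' => ?_⟩
  by_cases h : y ∈ ⋃ a ∈ R, O a
  · obtain ⟨a, ha, hO⟩ := mem_iUnion₂.1 h
    exact (o4 a ha y hO fun e => hy' (e ▸ ha)).trans (hm m1)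
  · exact hm ⟨hy, h⟩

theorem tendsto_inv_sub (b : ℂ) : Tendsto (fun z : ℂ => (z - b)⁻¹) (cocompact ℂ) (𝓝 0) := by
  rw [← cobounded_eq_cocompact]
  exact tendsto_inv₀_cobounded.comp (tendsto_sub_const_cobounded b)

theorem tendsto_log_ratio (a b : ℂ) :
    Tendsto (fun z => Real.log ‖z - a‖ - Real.log ‖z - b‖) (cocompact ℂ) (𝓝 0) := by
  have t : Tendsto (fun z : ℂ => ‖1 + (b - a) * (z - b)⁻¹‖) (cocompact ℂ) (𝓝 1) := by
    simpa using (((tendsto_inv_sub b).const_mul (b - a)).const_add 1).norm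
  have := t.log one_ne_zero
  rw [Real.log_one] at this
  refine this.congr' ?_
  filter_upwards [isCompact_singleton.compl_mem_cocompact (s := {a}),
    isCompact_singleton.compl_mem_cocompact (s := {b})] with z ha hb
  have ha' : z - a ≠ 0 := sub_ne_zero.2 ha
  have hb' : z - b ≠ 0 := sub_ne_zero.2 hb
  rw [← Real.log_div (norm_ne_zero_iff.2 ha') (norm_ne_zero_iff.2 hb'), ← norm_div]
  congr 2
  field_simp
  ring

theorem tendsto_log_punct (a : ℂ) : Tendsto (fun z => Real.log ‖z - a‖) (𝓝[≠] a) atBot := by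
  refine Real.tendsto_log_nhdsGT_zero.comp (tendsto_nhdsWithin_iff.2 ⟨?_, ?_⟩)
  · have : Continuous fun z : ℂ => ‖z - a‖ := by fun_prop
    simpa using (this.tendsto a).mono_left nhdsWithin_le_nhds
  · exact eventually_mem_nhdsWithin.mono fun z hz => norm_pos_iff.2 (sub_ne_zero.2 hz)

theorem cd_log_norm {a z : ℂ} (h : z ≠ a) : ContDiffAt ℝ 2 (fun y => Real.log ‖y - a‖) z :=
  (ContDiffAt.norm ℝ (f := fun y : ℂ => y - a) (by fun_prop) (sub_ne_zero.2 h)).log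
    (norm_ne_zero_iff.2 (sub_ne_zero.2 h))

theorem lev_log_norm {a z : ℂ} (h : z ≠ a) : lev (fun y => Real.log ‖y - a‖) z 1 = 0 :=
  lev_log_norm_holo (by fun_prop) (sub_ne_zero.2 h)

/-- the barrier -/
def bar (R : Finset ℂ) (a z : ℂ) : ℝ :=
  ∑ b ∈ R, (Real.log ‖z - b‖ - Real.log ‖z - a‖) - Real.log ‖z - a‖ + ‖(z - a)⁻¹‖ ^ 2

theorem cd_inv_normSq {a z : ℂ} (h : z ≠ a) : ContDiffAt ℝ 2 (fun y => ‖(y - a)⁻¹‖ ^ 2) z :=
  cd_normSq (ContDiffAt.inv (by fun_prop) (sub_ne_zero.2 h))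

theorem cd_bar {R : Finset ℂ} {a z : ℂ} (h : z ≠ a) (hz : z ∉ R) : ContDiffAt ℝ 2 (bar R a) z :=
  ((ContDiffAt.sum fun _ hb => (cd_log_norm (ne_of_mem_of_not_mem hb hz).symm).sub (cd_log_norm h)).sub
    (cd_log_norm h)).add (cd_inv_normSq h)

theorem lev_bar {R : Finset ℂ} {a z : ℂ} (h : z ≠ a) (hz : z ∉ R) : 0 < lev (bar R a) z 1 := by
  have c : ∀ b ∈ R, ContDiffAt ℝ 2 (fun y => Real.log ‖y - b‖ - Real.log ‖y - a‖) z :=
    fun _ hb => (cd_log_norm (ne_of_mem_of_not_mem hb hz).symm).sub (cd_log_norm h)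
  unfold bar
  rw [lev_add ((ContDiffAt.sum c).sub (cd_log_norm h)) (cd_inv_normSq h),
    lev_sub (ContDiffAt.sum c) (cd_log_norm h), lev_sum _ c, lev_log_norm h,
    Finset.sum_eq_zero fun b hb => by
      rw [lev_sub (cd_log_norm (ne_of_mem_of_not_mem hb hz).symm) (cd_log_norm h), lev_log_norm h,
        lev_log_norm (ne_of_mem_of_not_mem hb hz).symm, sub_self]]
  simpa using lev_inv_normSq h

theorem bar_punct {R : Finset ℂ} {a b : ℂ} (ha : a ∉ R) (hb : b ∈ R) :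
    Tendsto (fun z => bar R a z - 1 / 2 * Real.log ‖z - b‖) (𝓝[≠] b) atBot := by
  have ne : b ≠ a := fun e => ha (e ▸ hb)
  have c : ContinuousAt (fun z => bar (R.erase b) a z - Real.log ‖z - a‖) b :=
    ((cd_bar ne (Finset.notMem_erase b R)).sub (cd_log_norm ne)).continuousAt
  refine (((tendsto_log_punct b).const_mul_atBot (r := 1 / 2) (by norm_num)).atBot_add
    (c.tendsto.mono_left nhdsWithin_le_nhds)).congr fun z => ?_
  simp only [bar, ← Finset.add_sum_erase R _ hb]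
  ring

theorem bar_infty (R : Finset ℂ) (a : ℂ) :
    Tendsto (fun z => bar R a z + 1 / 2 * Real.log ‖z‖) (cocompact ℂ) atBot := by
  have t1 := tendsto_finsetSum R fun b _ => tendsto_log_ratio b a
  have t2 := ((tendsto_inv_sub a).norm.pow 2)
  have t3 : Tendsto (fun z : ℂ => -(1 / 2) * Real.log ‖z‖) (cocompact ℂ) atBot :=
    (Real.tendsto_log_atTop.comp tendsto_norm_cocompact_atTop).const_mul_atTop_of_neg
      (by norm_num)
  refine (t3.atBot_add ((t1.add (tendsto_log_ratio 0 a)).add t2)).congr fun z => ?_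
  simp only [bar, sub_zero]
  ring

variable {u : ℂ → ℝ}

theorem le_sphere (R : Finset ℂ) (hu : ∀ z ∉ R, ContDiffAt ℝ 2 u z) (sub : ∀ z ∉ R, 0 ≤ lev u z 1)
    (hR : ∀ a ∈ R, ∀ ε > 0, ∀ᶠ z in 𝓝[≠] a, u z ≤ -ε * Real.log ‖z - a‖)
    (hi : ∀ ε > 0, ∀ᶠ z in cocompact ℂ, u z ≤ ε * Real.log ‖z‖) {a z₁ : ℂ} {ρ M : ℝ} (h0 : 0 < ρ)
    (ha : ∀ z ∈ closedBall a ρ, z ∉ R) (hM : ∀ z ∈ sphere a ρ, u z ≤ M) (h1 : z₁ ∉ R)
    (h2 : ρ ≤ dist z₁ a) : u z₁ ≤ M := by
  have aR : a ∉ R := ha a (mem_closedBall_self h0.le)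
  have ne : ∀ z, ρ ≤ dist z a → z ≠ a := fun z hz => dist_pos.1 (h0.trans_le hz)
  obtain ⟨W, hW⟩ := (isCompact_sphere a ρ).bddAbove_image (f := bar R a) fun z hz =>
    (cd_bar (ne z (mem_sphere.1 hz).ge) (ha z (sphere_subset_closedBall hz))).continuousAt
      |>.continuousWithinAt
  have key : ∀ ε > 0, u z₁ + ε * bar R a z₁ ≤ M + ε * W := fun ε hε => by
    obtain ⟨z, hz, hz', hm⟩ := exists_max_punct R (v := fun z => u z + ε * bar R a z)
      (A := {z | ρ ≤ dist z a}) (isClosed_le continuous_const (by fun_prop))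
      (fun z hz hz' => ((hu z hz').add (contDiffAt_const.mul (cd_bar (ne z hz) hz'))).continuousAt)
      h2 h1 (fun b hb => by
        filter_upwards [hR b hb (ε / 2) (half_pos hε), ((bar_punct aR hb).const_mul_atBot hε)
          (eventually_le_atBot (u z₁ + ε * bar R a z₁))] with z e1 e2
        simp only [mem_preimage, mem_ofPred_eq] at e2
        linarith) (by
        filter_upwards [hi (ε / 2) (half_pos hε), ((bar_infty R a).const_mul_atBot hε)
          (eventually_le_atBot (u z₁ + ε * bar R a z₁))] with z e1 e2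
        simp only [mem_preimage, mem_ofPred_eq] at e2
        linarith)
    rcases (show ρ ≤ dist z a from hz).eq_or_lt with e | e
    · have hs : z ∈ sphere a ρ := e.symm
      exact (hm z₁ h2 h1).trans (add_le_add (hM z hs)
        (mul_le_mul_of_nonneg_left (hW (mem_image_of_mem _ hs)) hε.le))
    · exfalso
      have cb := cd_bar (ne z hz) hz'
      have mx : IsLocalMax (fun z => u z + ε * bar R a z) z := by
        filter_upwards [(isOpen_lt continuous_const (continuous_id.dist continuous_const)).mem_nhds e,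
          R.finite_toSet.isClosed.isOpen_compl.mem_nhds hz'] with y e1 e2
        exact hm y (le_of_lt e1) e2
      have t := lev_nonpos_of_max (ξ := 1) ((hu z hz').add (contDiffAt_const.mul cb)) mx
      rw [lev_add (hu z hz') (contDiffAt_const.mul cb), lev_const_mul _ cb] at t
      linarith [sub z hz', mul_pos hε (lev_bar (ne z hz) hz')]
  have c : Continuous fun ε : ℝ => M + ε * (W - bar R a z₁) := by fun_prop
  refine ge_of_tendsto (f := fun ε : ℝ => M + ε * (W - bar R a z₁)) (x := 𝓝[>] 0)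
    (by simpa using (c.tendsto 0).mono_left nhdsWithin_le_nhds) ?_
  filter_upwards [self_mem_nhdsWithin] with ε hε
  linarith [key ε hε]

/-- a subharmonic function on a punctured plane that grows slower than the logarithm is constant -/
theorem liouville (R : Finset ℂ) (hu : ∀ z ∉ R, ContDiffAt ℝ 2 u z) (sub : ∀ z ∉ R, 0 ≤ lev u z 1)
    (hR : ∀ a ∈ R, ∀ ε > 0, ∀ᶠ z in 𝓝[≠] a, u z ≤ -ε * Real.log ‖z - a‖)
    (hi : ∀ ε > 0, ∀ᶠ z in cocompact ℂ, u z ≤ ε * Real.log ‖z‖) {a z₁ : ℂ} (ha : a ∉ R)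
    (h1 : z₁ ∉ R) : u z₁ ≤ u a := by
  rcases eq_or_ne z₁ a with rfl | ne
  · exact le_rfl
  refine le_of_forall_pos_le_add fun η hη => ?_
  obtain ⟨ρ, h0, hρ⟩ := nhds_basis_closedBall.eventually_iff.1
    ((R.finite_toSet.isClosed.isOpen_compl.eventually_mem ha).and
      (((hu a ha).continuousAt.eventually (gt_mem_nhds (lt_add_of_pos_right _ hη))).and
        (eventually_ne_nhds ne.symm)))
  refine le_sphere R hu sub hR hi h0 (fun z hz => (hρ hz).1)
    (fun z hz => (hρ (sphere_subset_closedBall hz)).2.1.le) h1 ?_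
  by_contra h
  exact (hρ (mem_closedBall.2 (not_le.1 h).le)).2.2 rfl

end

end Pool.Agent.Lib.MP_5c318e_ag.V
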