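import Pool.Agent.Lib.MP_5c318e_ag.V.HM

/-! Variations of Hodge structure in a flat frame. -/

set_option autoImplicit false
set_option linter.unusedSectionVars false

namespace Pool.Agent.Lib.MP_5c318e_ag.V

open Complex Filter Topology Matrix
open scoped ContDiff ComplexConjugate ComplexOrder

noncomputable section

variable {E : Type*} [NormedAddCommGroup E] [NormedSpace ℂ E]
variable {m n k : Type*} [Fintype m] [Fintype n] [Fintype k] [DecidableEq m] [DecidableEq n]
  [DecidableEq k]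

/-- a graded metric: Hodge metric `h` and grading element `Y`, with `tr Y² ≤ K` -/
structure GM (U : Set E) (h Y : E → Matrix n n ℂ) (K : ℝ) : Prop extends Met U h where
  smY : ∀ x ∈ U, SmM Y x
  adj : ∀ x ∈ U, (Y x)ᴴ * h x = h x * Y x
  dY : ∀ x ∈ U, ∀ ξ, derM (-I) ξ Y x = th h ξ x
  deg : ∀ x ∈ U, ∀ ξ, th h ξ x * Y x - Y x * th h ξ x = th h ξ x
  bd : ∀ x ∈ U, nsq (h x) (h x) (Y x) ≤ K

namespace GM

variable {U : Set E} {h Y : E → Matrix n n ℂ} {K : ℝ} {x : E}

theorem dbarY (G : GM U h Y K) (hx : x ∈ U) (ξ : E) : derM I ξ Y x = -ths h ξ x := by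
  have e : derM I ξ (fun y => (Y y)ᴴ * h y) x = derM I ξ (fun y => h y * Y y) x :=
    derM_congr_on G.op hx G.adj
  rw [derM_mul (G.smY x hx).ct (G.sm x hx), derM_mul (G.sm x hx) (G.smY x hx),
    dbar_ct (G.smY x hx), G.dY x hx, G.dbar_h hx, G.adj_th hx] at e
  have d := congrArg (fun A => Aᴴ * h x) (G.deg x hx ξ)
  simp only [conjTranspose_sub, conjTranspose_mul, Matrix.sub_mul, Matrix.mul_assoc,
    G.adj_th hx, G.adj x hx] at d
  rw [← Matrix.mul_assoc (th h ξ x)ᴴ, G.adj_th hx] at d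
  have f : h x * derM I ξ Y x = h x * -ths h ξ x := by
    rw [eq_sub_of_add_eq' e.symm]
    simp only [Matrix.mul_smul, Matrix.smul_mul, Matrix.mul_neg]
    rw [eq_add_of_sub_eq d]
    module
  have := congrArg (fun A => (h x)⁻¹ * A) f
  simpa only [← Matrix.mul_assoc, Matrix.nonsing_inv_mul _ (G.unit hx), Matrix.one_mul] using this

theorem deg' (G : GM U h Y K) (hx : x ∈ U) (ξ : E) :
    Y x * ths h ξ x - ths h ξ x * Y x = ths h ξ x := by
  have d := congrArg (fun A => (h x)⁻¹ * (Aᴴ * h x)) (G.deg x hx ξ)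
  simp only [conjTranspose_sub, conjTranspose_mul, Matrix.sub_mul, Matrix.mul_assoc,
    G.adj_th hx, G.adj x hx] at d
  rw [← Matrix.mul_assoc (th h ξ x)ᴴ, G.adj_th hx, ← Matrix.mul_assoc (Y x)ᴴ, G.adj x hx] at d
  simpa only [Matrix.mul_sub, ← Matrix.mul_assoc, Matrix.nonsing_inv_mul _ (G.unit hx),
    Matrix.one_mul] using d

/-- a graded metric is pluriharmonic -/
theorem hm (G : GM U h Y K) : HM U h where
  toMet := G.toMet
  harm := fun x hx ξ η => by
    have sY := G.smY x hx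
    have s1 := G.sm_th hx ξ
    have s2 := G.sm_ths hx η
    have e1 : derM I η (fun y => th h ξ y * Y y - Y y * th h ξ y) x = derM I η (th h ξ) x :=
      derM_congr_on G.op hx fun y hy => G.deg y hy ξ
    have e2 : derM (-I) ξ (fun y => Y y * ths h η y - ths h η y * Y y) x =
        derM (-I) ξ (ths h η) x := derM_congr_on G.op hx fun y hy => G.deg' hy η
    have e3 : derM (-I) ξ (derM I η Y) x = derM I η (derM (-I) ξ Y) x := derM_comm sY
    rw [derM_congr_on G.op hx fun y hy => G.dbarY hy η,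
      derM_congr_on G.op hx fun y hy => G.dY y hy ξ, derM_neg] at e3
    rw [derM_sub (s1.mul sY) (sY.mul s1), derM_mul s1 sY, derM_mul sY s1, G.dbarY hx] at e1
    rw [derM_sub (sY.mul s2) (s2.mul sY), derM_mul sY s2, derM_mul s2 sY, G.dY x hx,
      neg_eq_iff_eq_neg.1 e3] at e2
    simp only [Matrix.mul_neg, Matrix.neg_mul] at e1 e2
    refine smul_right_injective _ (two_ne_zero (α := ℂ)) ?_
    simp only
    linear_combination (norm := module) -e1 + e2
  comm := fun x hx ξ η => by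
    have sY := G.smY x hx
    have key : ∀ ξ η, derM (-I) η (th h ξ) x * Y x + th h ξ x * th h η x -
        (th h η x * th h ξ x + Y x * derM (-I) η (th h ξ) x) = derM (-I) η (th h ξ) x :=
      fun ξ η => by
      have s1 := G.sm_th hx ξ
      have e1 : derM (-I) η (fun y => th h ξ y * Y y - Y y * th h ξ y) x =
          derM (-I) η (th h ξ) x := derM_congr_on G.op hx fun y hy => G.deg y hy ξ
      rwa [derM_sub (s1.mul sY) (sY.mul s1), derM_mul s1 sY, derM_mul sY s1, G.dY x hx] at e1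
    have e3 : derM (-I) ξ (derM (-I) η Y) x = derM (-I) η (derM (-I) ξ Y) x := derM_comm sY
    rw [derM_congr_on G.op hx fun y hy => G.dY y hy η,
      derM_congr_on G.op hx fun y hy => G.dY y hy ξ] at e3
    have e1 := key ξ η
    have e2 := key η ξ
    rw [e3] at e2
    refine smul_right_injective _ (two_ne_zero (α := ℂ)) ?_
    simp only
    linear_combination (norm := module) e1 - e2

theorem mono (G : GM U h Y K) {V : Set E} (hV : IsOpen V) (hVU : V ⊆ U) : GM V h Y K :=
  ⟨G.toMet.mono hV hVU, fun x hx => G.smY x (hVU hx), fun x hx => G.adj x (hVU hx),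
    fun x hx => G.dY x (hVU hx), fun x hx => G.deg x (hVU hx), fun x hx => G.bd x (hVU hx)⟩

theorem trace_th (G : GM U h Y K) (hx : x ∈ U) (ξ : E) : (th h ξ x).trace = 0 := by
  rw [← G.deg x hx ξ, trace_sub, trace_mul_comm, sub_self]

theorem trace_ths (G : GM U h Y K) (hx : x ∈ U) (ξ : E) : (ths h ξ x).trace = 0 := by
  rw [← G.deg' hx ξ, trace_sub, trace_mul_comm, sub_self]

end GM

theorem gm_const {U : Set E} (hU : IsOpen U) {h : Matrix n n ℂ} (H : h.PosDef) :
    GM U (fun _ : E => h) (fun _ => 0) 0 where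
  toMet := met_const hU H
  smY := fun _ _ => smM_const _
  adj := fun _ _ => by simp
  dY := fun x _ ξ => by rw [derM_const, th_const]
  deg := fun x _ ξ => by simp [th_const]
  bd := fun x _ => by simp [nsq, ip_zero_left]

/-- the grading element `Σ p π_p` -/
def gr (S : Finset ℤ) (π : ℤ → E → Matrix n n ℂ) (x : E) : Matrix n n ℂ :=
  ∑ p ∈ S, (p : ℂ) • π p x

/-- the Weil operator `Σ (-1)^p π_p` -/
def wey (S : Finset ℤ) (π : ℤ → E → Matrix n n ℂ) (x : E) : Matrix n n ℂ :=
  ∑ p ∈ S, (-1 : ℂ) ^ p • π p x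

/-- a family of complementary projectors indexed by `S` -/
structure Prj (S : Finset ℤ) (P : ℤ → Matrix n n ℂ) : Prop where
  sum : ∑ p ∈ S, P p = 1
  idem : ∀ p, P p * P p = P p
  orth : ∀ p q, p ≠ q → P p * P q = 0
  zero : ∀ p, p ∉ S → P p = 0

/-- a polarised complex variation of Hodge structure on `U`, in a flat frame: `Q` the flat
hermitian form, `π p x` the Hodge projectors -/
structure LV (U : Set E) (Q : Matrix n n ℂ) (S : Finset ℤ) (π : ℤ → E → Matrix n n ℂ) : Prop where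
  op : IsOpen U
  sm : ∀ p, ∀ x ∈ U, SmM (π p) x
  prj : ∀ x ∈ U, Prj S fun p => π p x
  adj : ∀ x ∈ U, ∀ p, (π p x)ᴴ * Q = Q * π p x
  pos : ∀ x ∈ U, (Q * wey S π x).PosDef
  ax : ∀ x ∈ U, ∀ ξ, derM (-I) ξ (gr S π) x * gr S π x - gr S π x * derM (-I) ξ (gr S π) x =
    derM (-I) ξ (gr S π) x

namespace Prj

variable {S T : Finset ℤ} {P : ℤ → Matrix n n ℂ} {P' : ℤ → Matrix m m ℂ}

theorem sum_mul (H : Prj S P) (c : ℤ → ℂ) (p : ℤ) : (∑ q ∈ S, c q • P q) * P p = c p • P p := by
  rw [Finset.sum_mul, Finset.sum_eq_single p]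
  · rw [Matrix.smul_mul, H.idem]
  · exact fun q _ hq => by rw [Matrix.smul_mul, H.orth q p hq, smul_zero]
  · exact fun hp => by rw [H.zero p hp, Matrix.mul_zero]

theorem mul_sum (H : Prj S P) (c : ℤ → ℂ) (p : ℤ) : P p * ∑ q ∈ S, c q • P q = c p • P p := by
  rw [Finset.mul_sum, Finset.sum_eq_single p]
  · rw [Matrix.mul_smul, H.idem]
  · exact fun q _ hq => by rw [Matrix.mul_smul, H.orth p q hq.symm, smul_zero]
  · exact fun hp => by rw [H.zero p hp, Matrix.zero_mul]

theorem sum_mul_sum (H : Prj S P) (c d : ℤ → ℂ) :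
    (∑ q ∈ S, c q • P q) * ∑ q ∈ S, d q • P q = ∑ q ∈ S, (c q * d q) • P q := by
  rw [Finset.mul_sum]
  exact Finset.sum_congr rfl fun q _ => by rw [Matrix.mul_smul, H.sum_mul, smul_smul, mul_comm]

/-- a map of degree `-d` shifts the projectors -/
theorem shift (H : Prj S P) (H' : Prj T P') {A : Matrix m n ℂ} {d : ℤ}
    (hA : A * ∑ q ∈ S, (q : ℂ) • P q - (∑ q ∈ T, (q : ℂ) • P' q) * A = (d : ℂ) • A) (p : ℤ) :
    A * P p = P' (p - d) * A := by
  have z : ∀ q r, q ≠ r - d → P' q * A * P r = 0 := fun q r hq => by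
    have e := congrArg (fun X => P' q * X * P r) hA
    simp only [Matrix.mul_sub, Matrix.sub_mul, Matrix.mul_smul, Matrix.smul_mul] at e
    rw [← Matrix.mul_assoc (P' q) A, Matrix.mul_assoc (P' q * A), H.sum_mul, ← Matrix.mul_assoc (P' q),
      H'.mul_sum, Matrix.mul_smul, Matrix.smul_mul, Matrix.smul_mul, ← sub_smul, ← sub_eq_zero,
      ← sub_smul] at e
    refine (smul_eq_zero.1 e).resolve_left ?_
    exact_mod_cast (show r - q - d ≠ 0 by omega)
  have a : A * P p = P' (p - d) * A * P p := by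
    conv_lhs => rw [← Matrix.one_mul A, ← H'.sum, Matrix.sum_mul, Matrix.sum_mul]
    refine Finset.sum_eq_single _ (fun q _ hq => z q p hq) fun hp => ?_
    rw [H'.zero _ hp, Matrix.zero_mul, Matrix.zero_mul]
  have b : P' (p - d) * A = P' (p - d) * A * P p := by
    conv_lhs => rw [← Matrix.mul_one (P' (p - d) * A), ← H.sum, Matrix.mul_sum]
    refine Finset.sum_eq_single _ (fun q _ hq => z _ q (by omega)) fun hp => ?_
    rw [H.zero _ hp, Matrix.mul_zero]
  rw [a, ← b]

end Prj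

namespace LV

variable {U : Set E} {Q : Matrix n n ℂ} {S : Finset ℤ} {π : ℤ → E → Matrix n n ℂ} {x : E}

theorem sm_gr (L : LV U Q S π) (hx : x ∈ U) : SmM (gr S π) x :=
  SmM.sum S fun p _ => (L.sm p x hx).csmul _

theorem sm_wey (L : LV U Q S π) (hx : x ∈ U) : SmM (wey S π) x :=
  SmM.sum S fun p _ => (L.sm p x hx).csmul _

theorem gr_mul (L : LV U Q S π) (hx : x ∈ U) (p : ℤ) : gr S π x * π p x = (p : ℂ) • π p x :=
  (L.prj x hx).sum_mul _ p

theorem mul_gr (L : LV U Q S π) (hx : x ∈ U) (p : ℤ) : π p x * gr S π x = (p : ℂ) • π p x :=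
  (L.prj x hx).mul_sum _ p

theorem dgr_shift (L : LV U Q S π) (hx : x ∈ U) (ξ : E) (p : ℤ) :
    derM (-I) ξ (gr S π) x * π p x = π (p - 1) x * derM (-I) ξ (gr S π) x :=
  (L.prj x hx).shift (L.prj x hx) (d := 1) (by simpa [gr] using L.ax x hx ξ) p

theorem d_prj' (L : LV U Q S π) (hx : x ∈ U) (ξ : E) (p : ℤ) :
    derM (-I) ξ (π p) x = derM (-I) ξ (gr S π) x * π p x - π p x * derM (-I) ξ (gr S π) x := by
  have H := L.prj x hx
  have sp := L.sm p x hx
  have sY := L.sm_gr hx
  have e1 : derM (-I) ξ (fun y => π p y * gr S π y) x = derM (-I) ξ (fun y => gr S π y * π p y) x :=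
    derM_congr_on L.op hx fun y hy => by rw [L.gr_mul hy, L.mul_gr hy]
  have e2 : derM (-I) ξ (fun y => π p y * π p y) x = derM (-I) ξ (π p) x :=
    derM_congr_on L.op hx fun y hy => (L.prj y hy).idem p
  rw [derM_mul sp sY, derM_mul sY sp] at e1
  rw [derM_mul sp sp] at e2
  have ax := L.ax x hx ξ
  have c : π p x * gr S π x = gr S π x * π p x := by rw [L.gr_mul hx, L.mul_gr hx]
  have i : π p x * π p x = π p x := H.idem p
  generalize derM (-I) ξ (gr S π) x = θ at *
  generalize derM (-I) ξ (π p) x = D at *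
  have c2 : (D - (θ * π p x - π p x * θ)) * π p x = π (p - 0) x * (D - (θ * π p x - π p x * θ)) := by
    refine H.shift H (d := 0) ?_ p
    change _ * gr S π x - gr S π x * _ = _
    rw [Int.cast_zero, zero_smul]
    linear_combination (norm := noncomm_ring) e1 - ax * π p x - θ * c + π p x * ax + c * θ
  rw [sub_zero] at c2
  generalize π p x = P at *
  have c3 : D - (θ * P - P * θ) = (D - (θ * P - P * θ)) * P + P * (D - (θ * P - P * θ)) := by
    linear_combination (norm := noncomm_ring) -e2 + θ * i - i * θ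
  rw [← sub_eq_zero]
  generalize D - (θ * P - P * θ) = D' at *
  have c4 : P * D' * P = 0 := by
    linear_combination (norm := noncomm_ring) -(P * c3) - i * D'
  have c5 : D' * P = 0 := by
    linear_combination (norm := noncomm_ring) c4 + c2 * P - D' * i
  rw [c3, ← c2, c5, add_zero]

theorem wey_sq (L : LV U Q S π) (hx : x ∈ U) : wey S π x * wey S π x = 1 := by
  rw [wey, (L.prj x hx).sum_mul_sum, ← (L.prj x hx).sum]
  refine Finset.sum_congr rfl fun q _ => ?_
  rw [← mul_zpow]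
  simp

theorem wey_mul (L : LV U Q S π) (hx : x ∈ U) (p : ℤ) :
    wey S π x * π p x = (-1 : ℂ) ^ p • π p x := (L.prj x hx).sum_mul _ p

theorem met (L : LV U Q S π) : Met U fun x => Q * wey S π x :=
  ⟨L.op, fun _ hx => (smM_const Q).mul (L.sm_wey hx), L.pos⟩

theorem dgr_wey (L : LV U Q S π) (hx : x ∈ U) (ξ : E) :
    derM (-I) ξ (gr S π) x * wey S π x = -(wey S π x * derM (-I) ξ (gr S π) x) := by
  have H := L.prj x hx
  conv_lhs => rw [← Matrix.mul_one (_ * _), ← H.sum, Finset.mul_sum]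
  conv_rhs => rw [← Matrix.mul_one (_ * _), ← H.sum, Finset.mul_sum, ← Finset.sum_neg_distrib]
  refine Finset.sum_congr rfl fun q _ => ?_
  rw [Matrix.mul_assoc, L.wey_mul hx, Matrix.mul_assoc, Matrix.mul_smul, L.dgr_shift hx,
    ← Matrix.mul_assoc, L.wey_mul hx, Matrix.smul_mul, zpow_sub_one₀ (by norm_num), ← neg_smul]
  norm_num

theorem th_eq (L : LV U Q S π) (hx : x ∈ U) (ξ : E) :
    th (fun x => Q * wey S π x) ξ x = derM (-I) ξ (gr S π) x := by
  have e : derM (-I) ξ (wey S π) x = (-2 : ℂ) • (wey S π x * derM (-I) ξ (gr S π) x) := by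
    have : derM (-I) ξ (wey S π) x =
        derM (-I) ξ (gr S π) x * wey S π x - wey S π x * derM (-I) ξ (gr S π) x := by
      rw [show wey S π = fun y => ∑ p ∈ S, (-1 : ℂ) ^ p • π p y from rfl,
        derM_sum S fun p _ => (L.sm p x hx).csmul _, Finset.mul_sum, Finset.sum_mul,
        ← Finset.sum_sub_distrib]
      refine Finset.sum_congr rfl fun q _ => ?_
      rw [derM_csmul _ (L.sm q x hx), L.d_prj' hx, smul_sub, Matrix.mul_smul, Matrix.smul_mul]
    rw [this, L.dgr_wey hx]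
    module
  rw [th, derM_const_mul Q (L.sm_wey hx), e, Matrix.mul_smul, Matrix.mul_smul, smul_smul,
    ← Matrix.mul_assoc Q, ← Matrix.mul_assoc, Matrix.nonsing_inv_mul _ (L.met.unit hx),
    Matrix.one_mul]
  norm_num

theorem adj_prj (L : LV U Q S π) (hx : x ∈ U) (p : ℤ) :
    (π p x)ᴴ * (Q * wey S π x) = Q * wey S π x * π p x := by
  rw [← Matrix.mul_assoc, L.adj x hx, Matrix.mul_assoc, Matrix.mul_assoc, L.wey_mul hx, wey,
    (L.prj x hx).mul_sum]

theorem adj_gr (L : LV U Q S π) (hx : x ∈ U) :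
    (gr S π x)ᴴ * (Q * wey S π x) = Q * wey S π x * gr S π x := by
  rw [gr, conjTranspose_sum, Finset.sum_mul, Finset.mul_sum]
  refine Finset.sum_congr rfl fun q _ => ?_
  rw [conjTranspose_smul, Matrix.smul_mul, L.adj_prj hx, Matrix.mul_smul]
  simp

theorem nsq_prj (L : LV U Q S π) (hx : x ∈ U) (p : ℤ) :
    nsq (Q * wey S π x) (Q * wey S π x) (π p x) = (π p x).trace.re := by
  rw [nsq, ip_adj (L.met.unit hx) (L.adj_prj hx p), (L.prj x hx).idem]

/-- the Hodge metric and the grading element form a graded metric -/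
theorem gm (L : LV U Q S π) :
    GM U (fun x => Q * wey S π x) (gr S π) ((∑ p ∈ S, (p : ℝ) ^ 2) * Fintype.card n) where
  toMet := L.met
  smY := fun _ hx => L.sm_gr hx
  adj := fun _ hx => L.adj_gr hx
  dY := fun _ hx ξ => (L.th_eq hx ξ).symm
  deg := fun x hx ξ => by
    rw [L.th_eq hx]
    exact L.ax x hx ξ
  bd := fun x hx => by
    have H := L.prj x hx
    have n0 : ∀ p, 0 ≤ (π p x).trace.re := fun p => by
      rw [← L.nsq_prj hx]
      exact nsq_nonneg (L.pos x hx) (L.pos x hx) _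
    have s : ∑ p ∈ S, (π p x).trace.re = Fintype.card n := by
      rw [← re_sum, ← trace_sum, H.sum, trace_one, natCast_re]
    rw [nsq, ip_adj (L.met.unit hx) (L.adj_gr hx), gr, H.sum_mul_sum, trace_sum, re_sum,
      Finset.sum_mul]
    refine Finset.sum_le_sum fun p hp => ?_
    have e : ((p : ℂ) * p) = (((p : ℝ) ^ 2 : ℝ) : ℂ) := by
      push_cast
      ring
    rw [trace_smul, e, smul_eq_mul, re_ofReal_mul, ← s]
    exact mul_le_mul_of_nonneg_left (Finset.single_le_sum (fun q _ => n0 q) hp) (sq_nonneg _)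

theorem d_prj (L : LV U Q S π) (hx : x ∈ U) (ξ : E) (p : ℤ) :
    derM (-I) ξ (π p) x = th (fun x => Q * wey S π x) ξ x * π p x -
      π p x * th (fun x => Q * wey S π x) ξ x := by
  rw [L.th_eq hx, L.d_prj' hx]

theorem th_shift (L : LV U Q S π) (hx : x ∈ U) (ξ : E) (p : ℤ) :
    th (fun x => Q * wey S π x) ξ x * π p x = π (p - 1) x * th (fun x => Q * wey S π x) ξ x := by
  rw [L.th_eq hx, L.dgr_shift hx]

theorem ths_shift (L : LV U Q S π) (hx : x ∈ U) (ξ : E) (p : ℤ) :
    ths (fun x => Q * wey S π x) ξ x * π p x =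
      π (p + 1) x * ths (fun x => Q * wey S π x) ξ x := by
  have := (L.prj x hx).shift (L.prj x hx) (A := ths (fun x => Q * wey S π x) ξ x) (d := -1)
    (by simpa [gr, neg_eq_iff_eq_neg] using (congrArg Neg.neg (L.gm.deg' hx ξ))) p
  simpa using this

end LV

end

end Pool.Agent.Lib.MP_5c318e_ag.V
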