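import Pool.Agent.Lib.MP_5c318e_ag.V.Top
import Pool.Agent.Lib.MP_5c318e_ag.V.Fun

/-! Determinants of Gram matrices: flat subspaces and holomorphic subbundles. -/

set_option autoImplicit false
set_option linter.unusedSectionVars false

namespace Pool.Agent.Lib.MP_5c318e_ag.V

open Complex Filter Topology Matrix
open scoped ContDiff ComplexConjugate ComplexOrder

noncomputable section

variable {E : Type*} [NormedAddCommGroup E] [NormedSpace ℂ E]
variable {m n k : Type*} [Fintype m] [Fintype n] [Fintype k] [DecidableEq m] [DecidableEq n]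
  [DecidableEq k]

/-- coefficients of the orthogonal projection on the span of the columns of `X` -/
def cof (H : Matrix n n ℂ) (X : Matrix n k ℂ) (Z : Matrix n m ℂ) : Matrix k m ℂ :=
  (Xᴴ * H * X)⁻¹ * Xᴴ * H * Z

/-- the component orthogonal to the span of the columns of `X` -/
def perp (H : Matrix n n ℂ) (X : Matrix n k ℂ) (Z : Matrix n m ℂ) : Matrix n m ℂ :=
  Z - X * cof H X Z

section alg

variable {H : Matrix n n ℂ} {X : Matrix n k ℂ} {h₁ : Matrix m m ℂ}

theorem gram_cof (p : (Xᴴ * H * X).PosDef) (Z : Matrix n m ℂ) :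
    Xᴴ * H * X * cof H X Z = Xᴴ * H * Z := by
  rw [cof, Matrix.mul_assoc _ Xᴴ, Matrix.mul_assoc _ (Xᴴ * H), ← Matrix.mul_assoc,
    Matrix.mul_nonsing_inv _ p.det_pos.ne'.isUnit, Matrix.one_mul]

theorem cof_self (p : (Xᴴ * H * X).PosDef) (W : Matrix k m ℂ) : cof H X (X * W) = W := by
  rw [cof, Matrix.mul_assoc _ Xᴴ, Matrix.mul_assoc _ (Xᴴ * H), ← Matrix.mul_assoc _ X,
    ← Matrix.mul_assoc, Matrix.nonsing_inv_mul _ p.det_pos.ne'.isUnit, Matrix.one_mul]

theorem gram_perp (p : (Xᴴ * H * X).PosDef) (Z : Matrix n m ℂ) : Xᴴ * H * perp H X Z = 0 := by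
  rw [perp, Matrix.mul_sub, ← Matrix.mul_assoc _ X, gram_cof p, sub_self]

theorem ip_perp_left (p : (Xᴴ * H * X).PosDef) (Z : Matrix n m ℂ) (W : Matrix k m ℂ) :
    ip h₁ H (perp H X Z) (X * W) = 0 := by
  rw [ip, conjTranspose_mul, Matrix.mul_assoc, Matrix.mul_assoc, Matrix.mul_assoc,
    ← Matrix.mul_assoc Xᴴ, gram_perp p]
  simp

theorem ip_perp_right (H₁ : h₁.IsHermitian) (H₂ : H.IsHermitian) (p : (Xᴴ * H * X).PosDef)
    (Z : Matrix n m ℂ) (W : Matrix k m ℂ) : ip h₁ H (X * W) (perp H X Z) = 0 := by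
  rw [← ip_conj H₁ H₂, ip_perp_left p, map_zero]

theorem perp_add_cof (Z : Matrix n m ℂ) : perp H X Z + X * cof H X Z = Z := sub_add_cancel _ _

theorem ip_split (H₁ : h₁.IsHermitian) (H₂ : H.IsHermitian) (p : (Xᴴ * H * X).PosDef)
    (Z Z' : Matrix n m ℂ) : ip h₁ H Z Z' =
      ip h₁ H (perp H X Z) (perp H X Z') + ip h₁ (Xᴴ * H * X) (cof H X Z) (cof H X Z') := by
  conv_lhs => rw [← perp_add_cof (H := H) (X := X) Z, ← perp_add_cof (H := H) (X := X) Z']
  rw [ip_add_left, ip_add_right, ip_add_right, ip_perp_left p, ip_perp_right H₁ H₂ p, ip_sub_obj]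
  ring

theorem nsq_split (H₁ : h₁.IsHermitian) (H₂ : H.IsHermitian) (p : (Xᴴ * H * X).PosDef)
    (Z : Matrix n m ℂ) : nsq h₁ H Z = nsq h₁ H (perp H X Z) + nsq h₁ (Xᴴ * H * X) (cof H X Z) := by
  rw [nsq, ip_split H₁ H₂ p, add_re, nsq, nsq]

theorem ofReal_det_re {G : Matrix k k ℂ} (p : G.PosDef) : ((G.det.re : ℝ) : ℂ) = G.det :=
  Complex.ext rfl (by simpa using (Complex.pos_iff.1 p.det_pos).2)

theorem det_re_pos {G : Matrix k k ℂ} (p : G.PosDef) : 0 < G.det.re :=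
  (Complex.pos_iff.1 p.det_pos).1

end alg

variable {U : Set E} {h Y : E → Matrix n n ℂ} {K : ℝ} {x ξ : E}

/-- `log det h` -/
def ld (h : E → Matrix n n ℂ) (x : E) : ℝ := Real.log (h x).det.re

theorem Met.sm_ld (M : Met U h) (hx : x ∈ U) : ContDiffAt ℝ ∞ (ld h) x :=
  (M.sm x hx).det.re.log (det_re_pos (M.pos x hx)).ne'

theorem Met.d_ld (M : Met U h) (hx : x ∈ U) :
    der (-I) ξ (fun y => (ld h y : ℂ)) x = -2 * (th h ξ x).trace := by
  unfold ld
  rw [der_log ((M.sm x hx).det.re.differentiableAt (by simp)) (det_re_pos (M.pos x hx)).ne',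
    der_congr_on M.op hx fun y hy => ofReal_det_re (M.pos y hy), ofReal_det_re (M.pos x hx),
    der_det' (M.sm x hx) (M.det_ne hx), mul_div_cancel_left₀ _ (M.det_ne hx), M.d_h hx,
    Matrix.mul_smul, ← Matrix.mul_assoc, Matrix.nonsing_inv_mul _ (M.unit hx), Matrix.one_mul,
    trace_smul, smul_eq_mul]

theorem Met.lev_ld (M : Met U h) (hx : x ∈ U) :
    (lev (ld h) x ξ : ℂ) = -2 * (derM I ξ (th h ξ) x).trace := by
  rw [lev_eq (M.sm_ld hx), der_congr_on M.op hx fun y hy => M.d_ld (ξ := ξ) hy,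
    der_const_mul _ (M.sm_th hx ξ).trace.diff, der_trace (M.sm_th hx ξ)]

/-! ### flat subspaces -/

section flat

variable {ι : Matrix n k ℂ}

theorem th_gram (M : Met U h) (hx : x ∈ U) :
    th (fun y => ιᴴ * h y * ι) ξ x = cof (h x) ι (th h ξ x * ι) := by
  rw [th, derM_mul_const ((smM_const _).mul (M.sm x hx)), derM_const_mul _ (M.sm x hx), M.d_h hx,
    Matrix.mul_smul, Matrix.smul_mul, Matrix.mul_smul, smul_smul, cof]
  norm_num [Matrix.mul_assoc]

theorem ths_gram (M : Met U h) (hx : x ∈ U) :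
    ths (fun y => ιᴴ * h y * ι) ξ x = cof (h x) ι (ths h ξ x * ι) := by
  rw [ths, derM_mul_const ((smM_const _).mul (M.sm x hx)), derM_const_mul _ (M.sm x hx),
    M.dbar_h hx, Matrix.mul_smul, Matrix.smul_mul, Matrix.mul_smul, smul_smul, cof]
  norm_num [Matrix.mul_assoc]

/-- the Levi form of `log det` of the metric restricted to a flat subspace -/
theorem lev_ld_flat (M : HM U h) (hι : Function.Injective ι.mulVec) (hx : x ∈ U) :
    lev (ld fun y => ιᴴ * h y * ι) x ξ =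
      2 * nsq (ιᴴ * h x * ι) (h x) (perp (h x) ι (th h ξ x * ι)) +
        2 * nsq (ιᴴ * h x * ι) (h x) (perp (h x) ι (ths h ξ x * ι)) := by
  have M' := M.toMet.sub hι
  have p' := M'.pos x hx
  have p := M.pos x hx
  have a := ip_split p'.1 p.1 p' (th h ξ x * ι) (th h ξ x * ι)
  have b := ip_split p'.1 p.1 p' (ths h ξ x * ι) (ths h ξ x * ι)
  rw [← th_gram M.toMet hx, ip_adj (M'.unit hx) (M'.adj_th hx), ip_mul_left (M.adj_ths hx),
    ← ip_conj p'.1 p.1, ip_self p' p] at a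
  rw [← ths_gram M.toMet hx, ip_adj (M'.unit hx) (M'.adj_ths hx), ip_mul_left (M.adj_th hx),
    ← ip_conj p'.1 p.1, ip_self p' p, trace_mul_comm] at b
  have s1 := (M'.sm_inv hx).mul (smM_const ιᴴ)
  have e : derM I ξ (th (fun y => ιᴴ * h y * ι) ξ) x =
      (2 : ℂ) • (ths (fun y => ιᴴ * h y * ι) ξ x * th (fun y => ιᴴ * h y * ι) ξ x) -
        (cof (h x) ι (ths h ξ x * (th h ξ x * ι)) + cof (h x) ι (th h ξ x * (ths h ξ x * ι))) := by
    rw [derM_congr_on M.op hx fun y hy => th_gram (ξ := ξ) M.toMet hy, th_gram M.toMet hx]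
    unfold cof
    rw [derM_mul (s1.mul (M.sm x hx)) ((M.sm_th hx ξ).mul (smM_const ι)), derM_mul s1 (M.sm x hx),
      derM_mul_const (M'.sm_inv hx), M'.dbar_inv hx, M.dbar_h hx, derM_mul_const (M.sm_th hx ξ),
      M.harm x hx]
    simp only [Matrix.mul_sub, Matrix.sub_mul, Matrix.add_mul, Matrix.smul_mul, Matrix.mul_smul,
      Matrix.mul_assoc]
    module
  have c : ∀ Z : Matrix n k ℂ, (cof (h x) ι Z).trace = ip (ιᴴ * h x * ι) (h x) Z ι := fun _ => rfl
  have L := M'.lev_ld (ξ := ξ) hx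
  rw [e, trace_sub, trace_add, trace_smul, c, c, smul_eq_mul] at L
  have a' := congrArg re a
  have b' := congrArg re b
  have L' := congrArg re L
  simp only [conj_re, add_re, ofReal_re, mul_re, sub_re, neg_re, neg_im, re_ofNat, im_ofNat,
    zero_mul, neg_zero, sub_zero] at a' b' L'
  linarith

theorem lev_ld_flat_nonneg (M : HM U h) (hι : Function.Injective ι.mulVec) (hx : x ∈ U) :
    0 ≤ lev (ld fun y => ιᴴ * h y * ι) x ξ := by
  have p := fun Z => nsq_nonneg ((M.toMet.sub hι).pos x hx) (M.pos x hx) Z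
  rw [lev_ld_flat M hι hx]
  exact add_nonneg (mul_nonneg two_pos.le (p _)) (mul_nonneg two_pos.le (p _))

/-- the gap inequality for determinants -/
theorem gap_ld (G : GM U h Y K) (hι : Function.Injective ι.mulVec) (hx : x ∈ U) :
    ‖der (-I) ξ (fun y => (ld (fun y => ιᴴ * h y * ι) y : ℂ)) x‖ ^ 2 ≤
      4 * (K * Fintype.card k) * lev (ld fun y => ιᴴ * h y * ι) x ξ := by
  have M' := G.toMet.sub hι
  have p' := M'.pos x hx
  have p := G.pos x hx
  have e : (th (fun y => ιᴴ * h y * ι) ξ x).trace =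
      ip (ιᴴ * h x * ι) (h x) (Y x * ι) (perp (h x) ι (ths h ξ x * ι)) -
        ip (ιᴴ * h x * ι) (h x) (perp (h x) ι (th h ξ x * ι)) (Y x * ι) := by
    have e1 : (th (fun y => ιᴴ * h y * ι) ξ x).trace = ip (ιᴴ * h x * ι) (h x) (th h ξ x * ι) ι := by
      rw [th_gram G.toMet hx]
      rfl
    rw [e1, perp, perp, ← th_gram G.toMet hx, ← ths_gram G.toMet hx, ip_sub_left, ip_sub_right,
      ← ip_mul_right (M'.unit hx) (M'.adj_ths hx), ← ip_mul_left (G.adj_ths hx),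
      ← ip_mul_left (G.adj x hx), ← ip_mul_left (G.adj x hx), Matrix.mul_assoc (Y x) ι]
    conv_lhs => rw [← G.deg x hx ξ, Matrix.sub_mul, ip_sub_left, Matrix.mul_assoc (th h ξ x),
      Matrix.mul_assoc (Y x)]
    ring
  have b : nsq (ιᴴ * h x * ι) (h x) ι = Fintype.card k := by
    rw [← nsq_one p', nsq_sub_obj, Matrix.mul_one]
  have hW : nsq (ιᴴ * h x * ι) (h x) (Y x * ι) ≤ K * Fintype.card k :=
    (nsq_mul p' p p (Y x) ι).trans (by
      rw [b]
      exact mul_le_mul_of_nonneg_right (G.bd x hx) (Nat.cast_nonneg _))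
  have c1 := (ip_cs p' p (Y x * ι) (perp (h x) ι (ths h ξ x * ι))).trans
    (mul_le_mul_of_nonneg_right hW (nsq_nonneg p' p _))
  have c2 := (ip_cs p' p (perp (h x) ι (th h ξ x * ι)) (Y x * ι)).trans
    (mul_le_mul_of_nonneg_left hW (nsq_nonneg p' p _))
  have t := pow_le_pow_left₀ (norm_nonneg _) (norm_sub_le
    (ip (ιᴴ * h x * ι) (h x) (Y x * ι) (perp (h x) ι (ths h ξ x * ι)))
    (ip (ιᴴ * h x * ι) (h x) (perp (h x) ι (th h ξ x * ι)) (Y x * ι))) 2
  rw [M'.d_ld hx, lev_ld_flat G.hm hι hx, norm_mul, mul_pow, e, norm_neg, norm_ofNat]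
  generalize ‖ip _ (h x) (Y x * ι) _‖ = A at *
  generalize ‖ip _ (h x) _ (Y x * ι)‖ = B at *
  nlinarith [sq_nonneg (A - B)]

/-- the bounded plurisubharmonic function `-det^(-ε)` -/
theorem lev_neg_exp_ld (G : GM U h Y K) (hι : Function.Injective ι.mulVec) (hx : x ∈ U) {ε : ℝ}
    (h0 : 0 ≤ ε) (h1 : 8 * ε * (K * Fintype.card k) ≤ 1) :
    ε / 2 * Real.exp (-ε * ld (fun y => ιᴴ * h y * ι) x) * lev (ld fun y => ιᴴ * h y * ι) x ξ ≤
      lev (fun y => -Real.exp (-ε * ld (fun y => ιᴴ * h y * ι) y)) x ξ := by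
  have s := (G.toMet.sub hι).sm_ld hx
  have s2 : ContDiffAt ℝ 2 (fun y => -ε * ld (fun y => ιᴴ * h y * ι) y) x :=
    contDiffAt_const.mul (cd2 s)
  have e : der (-I) ξ (fun y => ((-ε * ld (fun y => ιᴴ * h y * ι) y : ℝ) : ℂ)) x =
      (-ε : ℝ) * der (-I) ξ (fun y => ((ld (fun y => ιᴴ * h y * ι) y : ℝ) : ℂ)) x := by
    rw [← der_const_mul _ (sm_ofReal s).diff]
    simp only [ofReal_mul]
  rw [lev_neg s2.exp, lev_exp s2, lev_const_mul _ (cd2 s), e, norm_mul, mul_pow, norm_real,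
    Real.norm_eq_abs, sq_abs]
  have a := gap_ld (ξ := ξ) G hι hx
  have c := lev_ld_flat_nonneg (ξ := ξ) G.hm hι hx
  have ex := Real.exp_pos (-ε * ld (fun y => ιᴴ * h y * ι) x)
  generalize lev _ x ξ = L at *
  generalize ‖der _ ξ _ x‖ ^ 2 = D at *
  have q1 : 2 * ε * D ≤ L :=
    (mul_le_mul_of_nonneg_left a (by positivity)).trans (by nlinarith)
  have q2 : ε / 2 * L ≤ ε * L - ε ^ 2 * D := by nlinarith [mul_le_mul_of_nonneg_left q1 h0]
  nlinarith [mul_le_mul_of_nonneg_left q2 ex.le]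

theorem stable_of_lev (M : HM U h) (hι : Function.Injective ι.mulVec) (hx : x ∈ U)
    (H : lev (ld fun y => ιᴴ * h y * ι) x ξ ≤ 0) :
    th h ξ x * ι = ι * th (fun y => ιᴴ * h y * ι) ξ x ∧
      ths h ξ x * ι = ι * ths (fun y => ιᴴ * h y * ι) ξ x := by
  have p' := (M.toMet.sub hι).pos x hx
  have p := M.pos x hx
  have a := nsq_nonneg p' p (perp (h x) ι (th h ξ x * ι))
  have b := nsq_nonneg p' p (perp (h x) ι (ths h ξ x * ι))
  rw [lev_ld_flat M hι hx] at H
  rw [th_gram M.toMet hx, ths_gram M.toMet hx]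
  exact ⟨sub_eq_zero.1 (nsq_eq_zero p' p (by change nsq _ _ (perp _ _ _) = 0; linarith)),
    sub_eq_zero.1 (nsq_eq_zero p' p (by change nsq _ _ (perp _ _ _) = 0; linarith))⟩

/-- the orthogonal projector on the span of the columns of `ι` -/
def oprj (H : Matrix n n ℂ) (ι : Matrix n k ℂ) : Matrix n n ℂ := ι * ((ιᴴ * H * ι)⁻¹ * ιᴴ * H)

theorem oprj_mul (H : Matrix n n ℂ) (Z : Matrix n m ℂ) : oprj H ι * Z = ι * cof H ι Z := by
  rw [oprj, cof, Matrix.mul_assoc]

theorem oprj_self {H : Matrix n n ℂ} (p : (ιᴴ * H * ι).PosDef) : oprj H ι * ι = ι := by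
  have := cof_self p (1 : Matrix k k ℂ)
  rw [Matrix.mul_one] at this
  rw [oprj_mul, this, Matrix.mul_one]

theorem oprj_idem {H : Matrix n n ℂ} (p : (ιᴴ * H * ι).PosDef) :
    oprj H ι * oprj H ι = oprj H ι := by
  conv_lhs => rw [oprj.eq_1 H ι]
  conv_lhs => rw [← Matrix.mul_assoc, ← oprj, oprj_self p]
  rfl

theorem oprj_adj {H : Matrix n n ℂ} (q : H.IsHermitian) (p : (ιᴴ * H * ι).PosDef) :
    (oprj H ι)ᴴ * H = H * oprj H ι := by
  rw [oprj, conjTranspose_mul, conjTranspose_mul, conjTranspose_mul, p.1.inv.eq, q.eq,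
    conjTranspose_conjTranspose]
  simp only [Matrix.mul_assoc]

theorem oprj_comm {H T T' : Matrix n n ℂ} {S S' : Matrix k k ℂ} (q : H.PosDef)
    (p : (ιᴴ * H * ι).PosDef) (a : T'ᴴ * H = H * T) (e : T * ι = ι * S) (e' : T' * ι = ι * S') :
    T * oprj H ι = oprj H ι * T := by
  have k1 : ∀ {T : Matrix n n ℂ} {S : Matrix k k ℂ}, T * ι = ι * S →
      oprj H ι * (T * oprj H ι) = T * oprj H ι := fun {T S} e => by
    conv_lhs => rw [oprj.eq_1 H ι]
    conv_lhs => rw [← Matrix.mul_assoc T, e, ← oprj, Matrix.mul_assoc ι, ← Matrix.mul_assoc,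
      oprj_self p]
    rw [oprj, ← Matrix.mul_assoc T, e, Matrix.mul_assoc ι]
  have k2 := congrArg (fun A => H⁻¹ * (Aᴴ * H)) (k1 e')
  simp only [conjTranspose_mul, Matrix.mul_assoc, oprj_adj q.1 p, a] at k2
  rw [← Matrix.mul_assoc T'ᴴ, a, ← Matrix.mul_assoc _ (H * T), ← Matrix.mul_assoc _ H,
    oprj_adj q.1 p] at k2
  simp only [← Matrix.mul_assoc, Matrix.nonsing_inv_mul _ q.det_pos.ne'.isUnit,
    Matrix.one_mul] at k2
  rw [← k2, Matrix.mul_assoc, k1 e]

theorem sm_oprj (M : Met U h) (hι : Function.Injective ι.mulVec) (hx : x ∈ U) :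
    SmM (fun y => oprj (h y) ι) x :=
  (smM_const ι).mul ((((M.sub hι).sm_inv hx).mul (smM_const _)).mul (M.sm x hx))

/-- the orthogonal projector on a flat subspace stable under `θ` and `θ*` is flat -/
theorem der_oprj (M : Met U h) (hι : Function.Injective ι.mulVec) (hx : x ∈ U)
    (e : th h ξ x * ι = ι * th (fun y => ιᴴ * h y * ι) ξ x)
    (e' : ths h ξ x * ι = ι * ths (fun y => ιᴴ * h y * ι) ξ x) :
    (th h ξ x * oprj (h x) ι = oprj (h x) ι * th h ξ x ∧
      ths h ξ x * oprj (h x) ι = oprj (h x) ι * ths h ξ x) ∧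
    derM (-I) ξ (fun y => oprj (h y) ι) x = 0 ∧ derM I ξ (fun y => oprj (h y) ι) x = 0 := by
  have M' := M.sub hι
  have c := oprj_comm (M.pos x hx) (M'.pos x hx) (M.adj_ths hx) e e'
  have c' := oprj_comm (M.pos x hx) (M'.pos x hx) (M.adj_th hx) e' e
  have s1 := (M'.sm_inv hx).mul (smM_const ιᴴ)
  refine ⟨⟨c, c'⟩, ?_, ?_⟩
  · rw [oprj, ← Matrix.mul_assoc, e] at c
    unfold oprj
    rw [derM_const_mul _ (s1.mul (M.sm x hx)), derM_mul s1 (M.sm x hx),
      derM_mul_const (M'.sm_inv hx), M'.d_inv hx, M.d_h hx]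
    simp only [Matrix.mul_add, Matrix.smul_mul, Matrix.mul_smul, Matrix.mul_assoc] at c ⊢
    rw [c]
    module
  · rw [oprj, ← Matrix.mul_assoc, e'] at c'
    unfold oprj
    rw [derM_const_mul _ (s1.mul (M.sm x hx)), derM_mul s1 (M.sm x hx),
      derM_mul_const (M'.sm_inv hx), M'.dbar_inv hx, M.dbar_h hx]
    simp only [Matrix.mul_add, Matrix.smul_mul, Matrix.mul_smul, Matrix.mul_assoc] at c' ⊢
    rw [c']
    module

/-- if `log det` of the restricted metric is pluriharmonic, the orthogonal projector is constant -/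
theorem oprj_const (M : HM U h) (hι : Function.Injective ι.mulVec) (hc : IsPreconnected U)
    (H : ∀ x ∈ U, ∀ ξ, lev (ld fun y => ιᴴ * h y * ι) x ξ ≤ 0) {x y : E} (hx : x ∈ U)
    (hy : y ∈ U) : oprj (h x) ι = oprj (h y) ι :=
  const_of_derM M.op hc (fun _ hz => sm_oprj M.toMet hι hz) (fun z hz ξ =>
    (der_oprj M.toMet hι hz (stable_of_lev M hι hz (H z hz ξ)).1
      (stable_of_lev M hι hz (H z hz ξ)).2).2) hx hy

end flat

/-! ### holomorphic subbundles of the Higgs bundle -/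

section hol

variable {X : E → Matrix n k ℂ}

theorem Met.gram (M : Met U h) (hX : ∀ y ∈ U, SmM X y)
    (inj : ∀ y ∈ U, Function.Injective (X y).mulVec) : Met U fun y => (X y)ᴴ * h y * X y :=
  ⟨M.op, fun y hy => ((hX y hy).ct.mul (M.sm y hy)).mul (hX y hy),
    fun y hy => posDef_sub (M.pos y hy) (inj y hy)⟩

theorem d_gram (M : Met U h) (hx : x ∈ U) (hX : SmM X x) :
    derM (-I) ξ (fun y => (X y)ᴴ * h y * X y) x =
      (derM I ξ X x - ths h ξ x * X x)ᴴ * h x * X x +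
        (X x)ᴴ * h x * (derM (-I) ξ X x - th h ξ x * X x) := by
  rw [derM_mul (hX.ct.mul (M.sm x hx)) hX, derM_mul hX.ct (M.sm x hx), d_ct hX, M.d_h hx,
    conjTranspose_sub, conjTranspose_mul, Matrix.sub_mul, Matrix.mul_assoc (X x)ᴴ _ (h x),
    M.adj_ths hx]
  simp only [Matrix.mul_sub, Matrix.sub_mul, Matrix.add_mul, Matrix.smul_mul, Matrix.mul_smul,
    Matrix.mul_assoc]
  module

theorem dbar_gram (M : Met U h) (hx : x ∈ U) (hX : SmM X x) :
    derM I ξ (fun y => (X y)ᴴ * h y * X y) x =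
      (derM (-I) ξ X x - th h ξ x * X x)ᴴ * h x * X x +
        (X x)ᴴ * h x * (derM I ξ X x - ths h ξ x * X x) := by
  rw [derM_mul (hX.ct.mul (M.sm x hx)) hX, derM_mul hX.ct (M.sm x hx), dbar_ct hX, M.dbar_h hx,
    conjTranspose_sub, conjTranspose_mul, Matrix.sub_mul, Matrix.mul_assoc (X x)ᴴ _ (h x),
    M.adj_th hx]
  simp only [Matrix.mul_sub, Matrix.sub_mul, Matrix.add_mul, Matrix.smul_mul, Matrix.mul_smul,
    Matrix.mul_assoc]
  module

theorem th_gram_hol (M : Met U h) (hx : x ∈ U) (hX : SmM X x)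
    (hol : derM I ξ X x = ths h ξ x * X x) :
    th (fun y => (X y)ᴴ * h y * X y) ξ x =
      (-1 / 2 : ℂ) • cof (h x) (X x) (derM (-I) ξ X x - th h ξ x * X x) := by
  rw [th, d_gram M hx hX, hol, sub_self, cof]
  simp [Matrix.mul_assoc]

/-- curvature of the determinant of a holomorphic subbundle -/
theorem lev_ld_hol (M : HM U h) (hx : x ∈ U) (hX : ∀ y ∈ U, SmM X y)
    (inj : ∀ y ∈ U, Function.Injective (X y).mulVec)
    (hol : ∀ y ∈ U, derM I ξ X y = ths h ξ y * X y) :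
    lev (ld fun y => (X y)ᴴ * h y * X y) x ξ =
      nsq ((X x)ᴴ * h x * X x) (h x) (perp (h x) (X x) (derM (-I) ξ X x - th h ξ x * X x)) +
        nsq ((X x)ᴴ * h x * X x) (h x) (ths h ξ x * X x) -
          nsq ((X x)ᴴ * h x * X x) (h x) (th h ξ x * X x) := by
  have M' := M.toMet.gram hX inj
  have p' := M'.pos x hx
  have p := M.pos x hx
  have sx := hX x hx
  have sB : SmM (fun y => derM (-I) ξ X y - th h ξ y * X y) x :=
    (sx.der _ _).sub ((M.sm_th hx ξ).mul sx)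
  have cv := dbar_dh (ξ := ξ) (hm_const M.op (PosDef.one (n := k))) M hx hX
    (fun y hy => by simpa [Ths, ths_const] using hol y hy)
  simp only [Th, Ths, th_const, ths_const, Matrix.mul_zero, sub_zero] at cv
  have e : derM I ξ (th (fun y => (X y)ᴴ * h y * X y) ξ) x = (-1 / 2 : ℂ) •
      ((2 : ℂ) • (ths (fun y => (X y)ᴴ * h y * X y) ξ x *
          cof (h x) (X x) (derM (-I) ξ X x - th h ξ x * X x)) +
        ((X x)ᴴ * h x * X x)⁻¹ * (derM (-I) ξ X x - th h ξ x * X x)ᴴ * h x *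
          (derM (-I) ξ X x - th h ξ x * X x) +
        cof (h x) (X x) (th h ξ x * (ths h ξ x * X x) - ths h ξ x * (th h ξ x * X x))) := by
    have s1 := (M'.sm_inv hx).mul sx.ct
    rw [derM_congr_on M.op hx fun y hy => th_gram_hol M.toMet hy (hX y hy) (hol y hy), ← cv]
    unfold cof
    rw [derM_csmul _ ((s1.mul (M.sm x hx)).mul sB), derM_mul (s1.mul (M.sm x hx)) sB,
      derM_mul s1 (M.sm x hx), derM_mul (M'.sm_inv hx) sx.ct, M'.dbar_inv hx, M.dbar_h hx,
      dbar_ct sx, conjTranspose_sub, conjTranspose_mul, Matrix.mul_assoc _ (_ - _) (h x),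
      Matrix.sub_mul, Matrix.mul_assoc (X x)ᴴ _ (h x), M.adj_th hx]
    generalize derM (-I) ξ X x - th h ξ x * X x = B
    simp only [Matrix.mul_sub, Matrix.sub_mul, Matrix.add_mul, Matrix.smul_mul, Matrix.mul_smul,
      Matrix.mul_assoc]
    module
  have t := th_gram_hol M.toMet hx sx (hol x hx)
  have c : ∀ Z : Matrix n k ℂ, (cof (h x) (X x) Z).trace =
      ip ((X x)ᴴ * h x * X x) (h x) Z (X x) := fun _ => rfl
  have a := nsq_split p'.1 p.1 p' (derM (-I) ξ X x - th h ξ x * X x)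
  have L := M'.lev_ld (ξ := ξ) hx
  rw [e, trace_smul, trace_add, trace_add, trace_smul, c, ← ip, ip_self p' p,
    ← ip_adj (M'.unit hx) (M'.adj_th hx), t, ip_smul_right, ip_self p' p', ip_sub_left,
    ip_mul_left (M.adj_ths hx), ip_mul_left (M.adj_th hx) (th h ξ x * X x), ip_self p' p,
    ip_self p' p, a] at L
  apply ofReal_injective
  rw [L]
  simp only [map_div₀, map_neg, map_one, map_ofNat, smul_eq_mul]
  push_cast
  ring

end hol

end

end Pool.Agent.Lib.MP_5c318e_ag.V
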