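import Pool.Agent.Lib.MP_5c318e_ag.V.LV
import Pool.Agent.Lib.MP_5c318e_ag.V.Lev

/-! The grading of `Hom`, the gap inequality, sections of top type, the Schwarz inequality. -/

set_option autoImplicit false
set_option linter.unusedSectionVars false

namespace Pool.Agent.Lib.MP_5c318e_ag.V

open Complex Filter Topology Matrix
open scoped ContDiff ComplexConjugate ComplexOrder

noncomputable section

variable {E : Type*} [NormedAddCommGroup E] [NormedSpace ℂ E]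
variable {m n k : Type*} [Fintype m] [Fintype n] [Fintype k] [DecidableEq m] [DecidableEq n]
  [DecidableEq k]

section alg

variable {h₁ : Matrix n n ℂ} {h₂ : Matrix m m ℂ}

theorem nsq_proj (H₁ : h₁.PosDef) (H₂ : h₂.PosDef) (a : Matrix m n ℂ) {A : Matrix m n ℂ}
    (hA : A ≠ 0) : nsq h₁ h₂ (a - (ip h₁ h₂ a A / nsq h₁ h₂ A) • A) =
      nsq h₁ h₂ a - ‖ip h₁ h₂ a A‖ ^ 2 / nsq h₁ h₂ A := by
  have p : (nsq h₁ h₂ A : ℂ) ≠ 0 := ofReal_ne_zero.2 (nsq_pos H₁ H₂ hA).ne'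
  apply ofReal_injective
  rw [← ip_self H₁ H₂, ip_sub_left, ip_sub_right, ip_sub_right, ip_smul_left, ip_smul_left,
    ip_smul_right, ip_smul_right, ip_self H₁ H₂ A, ip_self H₁ H₂ a, ← ip_conj H₁.1 H₂.1 a A]
  push_cast
  rw [← mul_conj', map_div₀, conj_ofReal]
  field_simp
  ring

theorem gap_alg (H₁ : h₁.PosDef) (H₂ : h₂.PosDef) {a b W A : Matrix m n ℂ} {K : ℝ} (hA : A ≠ 0)
    (ab : ip h₁ h₂ a A = ip h₁ h₂ A b) (sa : ip h₁ h₂ W A = ip h₁ h₂ A W)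
    (e : ip h₁ h₂ a A = ip h₁ h₂ W b - ip h₁ h₂ a W) (hW : nsq h₁ h₂ W ≤ K * nsq h₁ h₂ A) :
    (1 + 4 * K) * ‖ip h₁ h₂ a A‖ ^ 2 ≤ 2 * K * nsq h₁ h₂ A * (nsq h₁ h₂ a + nsq h₁ h₂ b) := by
  have p := nsq_pos H₁ H₂ hA
  have pa := nsq_proj H₁ H₂ a hA
  have pb := nsq_proj H₁ H₂ b hA
  have cb : ip h₁ h₂ b A = conj (ip h₁ h₂ a A) := by rw [ab, ip_conj H₁.1 H₂.1]
  have e2 : ip h₁ h₂ a A = ip h₁ h₂ W (b - (ip h₁ h₂ b A / nsq h₁ h₂ A) • A) -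
      ip h₁ h₂ (a - (ip h₁ h₂ a A / nsq h₁ h₂ A) • A) W := by
    rw [ip_sub_left, ip_sub_right, ip_smul_left, ip_smul_right, cb, sa, map_div₀, conj_conj,
      conj_ofReal]
    linear_combination e
  have c1 := ip_cs H₁ H₂ W (b - (ip h₁ h₂ b A / nsq h₁ h₂ A) • A)
  have c2 := ip_cs H₁ H₂ (a - (ip h₁ h₂ a A / nsq h₁ h₂ A) • A) W
  have n1 := nsq_nonneg H₁ H₂ (b - (ip h₁ h₂ b A / nsq h₁ h₂ A) • A)
  have n2 := nsq_nonneg H₁ H₂ (a - (ip h₁ h₂ a A / nsq h₁ h₂ A) • A)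
  have t := norm_sub_le (ip h₁ h₂ W (b - (ip h₁ h₂ b A / nsq h₁ h₂ A) • A))
    (ip h₁ h₂ (a - (ip h₁ h₂ a A / nsq h₁ h₂ A) • A) W)
  rw [← e2] at t
  have t2 := pow_le_pow_left₀ (norm_nonneg _) t 2
  have u1 := c1.trans (mul_le_mul_of_nonneg_right hW n1)
  have u2 := c2.trans (mul_le_mul_of_nonneg_left hW n2)
  have nb : ‖ip h₁ h₂ b A‖ = ‖ip h₁ h₂ a A‖ := by rw [cb, RCLike.norm_conj]
  rw [pb, nb] at u1
  rw [pa] at u2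
  generalize ‖ip h₁ h₂ W _‖ = X at *
  generalize ‖ip h₁ h₂ _ W‖ = Z at *
  generalize ‖ip h₁ h₂ a A‖ ^ 2 = s at *
  have v : K * nsq h₁ h₂ A * (s / nsq h₁ h₂ A) = K * s := by field_simp
  nlinarith [sq_nonneg (X - Z)]

end alg

variable {U : Set E} {h₁ Y₁ : E → Matrix n n ℂ} {h₂ Y₂ : E → Matrix m m ℂ} {K₁ K₂ : ℝ}
  {x ξ η : E}

/-- the grading element of `Hom` -/
def Yh (Y₁ : E → Matrix n n ℂ) (Y₂ : E → Matrix m m ℂ) (x : E) (X : Matrix m n ℂ) :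
    Matrix m n ℂ := Y₂ x * X - X * Y₁ x

theorem ip_Yh (G₁ : GM U h₁ Y₁ K₁) (G₂ : GM U h₂ Y₂ K₂) (hx : x ∈ U) (X Z : Matrix m n ℂ) :
    ip (h₁ x) (h₂ x) (Yh Y₁ Y₂ x X) Z = ip (h₁ x) (h₂ x) X (Yh Y₁ Y₂ x Z) := by
  rw [Yh, Yh, ip_sub_left, ip_sub_right, ip_mul_left (G₂.adj x hx),
    ip_mul_right (G₁.unit hx) (G₁.adj x hx)]

theorem Th_Yh (G₁ : GM U h₁ Y₁ K₁) (G₂ : GM U h₂ Y₂ K₂) (hx : x ∈ U) (X : Matrix m n ℂ) :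
    Th h₁ h₂ ξ x (Yh Y₁ Y₂ x X) - Yh Y₁ Y₂ x (Th h₁ h₂ ξ x X) = Th h₁ h₂ ξ x X := by
  have a := congrArg (fun A => A * X) (G₂.deg x hx ξ)
  have b := congrArg (fun A => X * A) (G₁.deg x hx ξ)
  simp only [Th, Yh, Matrix.mul_sub, Matrix.sub_mul, Matrix.mul_assoc] at a b ⊢
  linear_combination (norm := abel1) a - b

theorem Yh_Ths (G₁ : GM U h₁ Y₁ K₁) (G₂ : GM U h₂ Y₂ K₂) (hx : x ∈ U) (X : Matrix m n ℂ) :
    Yh Y₁ Y₂ x (Ths h₁ h₂ ξ x X) - Ths h₁ h₂ ξ x (Yh Y₁ Y₂ x X) = Ths h₁ h₂ ξ x X := by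
  have a := congrArg (fun A => A * X) (G₂.deg' hx ξ)
  have b := congrArg (fun A => X * A) (G₁.deg' hx ξ)
  simp only [Ths, Yh, Matrix.mul_sub, Matrix.sub_mul, Matrix.mul_assoc] at a b ⊢
  linear_combination (norm := abel1) a - b

theorem nsq_Yh_le (G₁ : GM U h₁ Y₁ K₁) (G₂ : GM U h₂ Y₂ K₂) (hx : x ∈ U) (A : Matrix m n ℂ) :
    nsq (h₁ x) (h₂ x) (Yh Y₁ Y₂ x A) ≤ 2 * (K₁ + K₂) * nsq (h₁ x) (h₂ x) A := by
  have p₁ := G₁.pos x hx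
  have p₂ := G₂.pos x hx
  have a := nsq_mul p₁ p₂ p₂ (Y₂ x) A
  have b := nsq_mul p₁ p₁ p₂ A (Y₁ x)
  have c := nsq_sub_le p₁ p₂ (Y₂ x * A) (A * Y₁ x)
  have d := nsq_nonneg p₁ p₂ A
  have e₁ := mul_le_mul_of_nonneg_right (G₁.bd x hx) d
  have e₂ := mul_le_mul_of_nonneg_right (G₂.bd x hx) d
  simp only [Yh]
  nlinarith

theorem sm_Yh (G₁ : GM U h₁ Y₁ K₁) (G₂ : GM U h₂ Y₂ K₂) (hx : x ∈ U) {X : E → Matrix m n ℂ}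
    (hX : SmM X x) : SmM (fun y => Yh Y₁ Y₂ y (X y)) x :=
  ((G₂.smY x hx).mul hX).sub (hX.mul (G₁.smY x hx))

theorem d_Yh (G₁ : GM U h₁ Y₁ K₁) (G₂ : GM U h₂ Y₂ K₂) (hx : x ∈ U) {X : E → Matrix m n ℂ}
    (hX : SmM X x) : derM (-I) ξ (fun y => Yh Y₁ Y₂ y (X y)) x =
      Th h₁ h₂ ξ x (X x) + Yh Y₁ Y₂ x (derM (-I) ξ X x) := by
  simp only [Yh, Th]
  rw [derM_sub ((G₂.smY x hx).mul hX) (hX.mul (G₁.smY x hx)), derM_mul (G₂.smY x hx) hX,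
    derM_mul hX (G₁.smY x hx), G₁.dY x hx, G₂.dY x hx]
  abel

theorem dbar_Yh (G₁ : GM U h₁ Y₁ K₁) (G₂ : GM U h₂ Y₂ K₂) (hx : x ∈ U) {X : E → Matrix m n ℂ}
    (hX : SmM X x) : derM I ξ (fun y => Yh Y₁ Y₂ y (X y)) x =
      -Ths h₁ h₂ ξ x (X x) + Yh Y₁ Y₂ x (derM I ξ X x) := by
  simp only [Yh, Ths]
  rw [derM_sub ((G₂.smY x hx).mul hX) (hX.mul (G₁.smY x hx)), derM_mul (G₂.smY x hx) hX,
    derM_mul hX (G₁.smY x hx), G₁.dbarY hx, G₂.dbarY hx, Matrix.neg_mul, Matrix.mul_neg]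
  abel

theorem GM.K_nonneg (G : GM U h₁ Y₁ K₁) (hx : x ∈ U) : 0 ≤ K₁ :=
  (nsq_nonneg (G.pos x hx) (G.pos x hx) _).trans (G.bd x hx)

/-- the gap inequality, algebraic form -/
theorem gap_ip (G₁ : GM U h₁ Y₁ K₁) (G₂ : GM U h₂ Y₂ K₂) (hx : x ∈ U) {A : Matrix m n ℂ}
    (hA : A ≠ 0) :
    (1 + 8 * (K₁ + K₂)) * ‖ip (h₁ x) (h₂ x) (Th h₁ h₂ ξ x A) A‖ ^ 2 ≤
      4 * (K₁ + K₂) * nsq (h₁ x) (h₂ x) A *
        (nsq (h₁ x) (h₂ x) (Th h₁ h₂ ξ x A) + nsq (h₁ x) (h₂ x) (Ths h₁ h₂ ξ x A)) := by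
  have := gap_alg (G₁.pos x hx) (G₂.pos x hx) hA (ip_Th (ξ := ξ) G₁.toMet G₂.toMet hx A A)
    (ip_Yh G₁ G₂ hx A A) (by
      conv_lhs => rw [← Th_Yh G₁ G₂ hx A]
      rw [ip_sub_left, ip_Th G₁.toMet G₂.toMet hx, ip_Yh G₁ G₂ hx (Th h₁ h₂ ξ x A)])
    (nsq_Yh_le G₁ G₂ hx A)
  linarith

/-- the Hodge form measured on a flat section `A` -/
def omA (h₁ : E → Matrix n n ℂ) (h₂ : E → Matrix m m ℂ) (A : Matrix m n ℂ) (ξ x : E) : ℝ :=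
  (2 * nsq (h₁ x) (h₂ x) (Th h₁ h₂ ξ x A) + 2 * nsq (h₁ x) (h₂ x) (Ths h₁ h₂ ξ x A)) /
    nsq (h₁ x) (h₂ x) A

theorem omA_nonneg (M₁ : Met U h₁) (M₂ : Met U h₂) (hx : x ∈ U) (A : Matrix m n ℂ) :
    0 ≤ omA h₁ h₂ A ξ x := by
  have p := fun X => nsq_nonneg (M₁.pos x hx) (M₂.pos x hx) X
  exact div_nonneg (by linarith [p (Th h₁ h₂ ξ x A), p (Ths h₁ h₂ ξ x A)]) (p _)

theorem norm_d_log_nsq (M₁ : Met U h₁) (M₂ : Met U h₂) (hx : x ∈ U) {A : Matrix m n ℂ}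
    (hA : A ≠ 0) :
    ‖der (-I) ξ (fun y => ((Real.log (nsq (h₁ y) (h₂ y) A) : ℝ) : ℂ)) x‖ ^ 2 ≤ omA h₁ h₂ A ξ x := by
  have p := nsq_pos (M₁.pos x hx) (M₂.pos x hx) hA
  rw [der_log ((sm_nsq M₁ M₂ hx (smM_const A)).differentiableAt (by simp)) p.ne', norm_div,
    div_pow, norm_real, Real.norm_of_nonneg p.le, omA, div_le_div_iff₀ (by positivity) p]
  have := mul_le_mul_of_nonneg_right (norm_d_nsq_flat (ξ := ξ) M₁ M₂ hx A) p.le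
  nlinarith

/-- the gap inequality -/
theorem gap (G₁ : GM U h₁ Y₁ K₁) (G₂ : GM U h₂ Y₂ K₂) (hx : x ∈ U) {A : Matrix m n ℂ}
    (hA : A ≠ 0) : omA h₁ h₂ A ξ x ≤
      (1 + 8 * (K₁ + K₂)) * lev (fun y => Real.log (nsq (h₁ y) (h₂ y) A)) x ξ := by
  have p := nsq_pos (G₁.pos x hx) (G₂.pos x hx) hA
  have g := gap_ip (ξ := ξ) G₁ G₂ hx hA
  rw [lev_log (sm_nsq G₁.toMet G₂.toMet hx (smM_const A)) p.ne', lev_nsq_flat G₁.hm G₂.hm hx,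
    d_nsq_flat G₁.toMet G₂.toMet hx, omA, norm_mul, mul_pow, div_sub_div _ _ p.ne' (by positivity),
    ← mul_div_assoc, div_le_div_iff₀ p (by positivity)]
  have := mul_le_mul_of_nonneg_right g (sq_nonneg (nsq (h₁ x) (h₂ x) A))
  norm_num
  nlinarith

theorem lev_log_le_omA (M₁ : HM U h₁) (M₂ : HM U h₂) (hx : x ∈ U) {A : Matrix m n ℂ}
    (hA : A ≠ 0) : lev (fun y => Real.log (nsq (h₁ y) (h₂ y) A)) x ξ ≤ omA h₁ h₂ A ξ x := by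
  have p := nsq_pos (M₁.pos x hx) (M₂.pos x hx) hA
  rw [lev_log (sm_nsq M₁.toMet M₂.toMet hx (smM_const A)) p.ne', lev_nsq_flat M₁ M₂ hx, omA]
  exact sub_le_self _ (by positivity)

/-- the bounded plurisubharmonic function `-|A|^(-2ε)` -/
theorem lev_neg_exp (G₁ : GM U h₁ Y₁ K₁) (G₂ : GM U h₂ Y₂ K₂) (hx : x ∈ U) {A : Matrix m n ℂ}
    (hA : A ≠ 0) {ε : ℝ} (h0 : 0 ≤ ε) (h1 : 2 * ε * (1 + 8 * (K₁ + K₂)) ≤ 1) :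
    ε ^ 2 * Real.exp (-ε * Real.log (nsq (h₁ x) (h₂ x) A)) * omA h₁ h₂ A ξ x ≤
      lev (fun y => -Real.exp (-ε * Real.log (nsq (h₁ y) (h₂ y) A))) x ξ := by
  have p := nsq_pos (G₁.pos x hx) (G₂.pos x hx) hA
  have s := (sm_nsq G₁.toMet G₂.toMet hx (smM_const A)).log p.ne'
  have s2 : ContDiffAt ℝ 2 (fun y => -ε * Real.log (nsq (h₁ y) (h₂ y) A)) x :=
    contDiffAt_const.mul (cd2 s)
  have e : der (-I) ξ (fun y => ((-ε * Real.log (nsq (h₁ y) (h₂ y) A) : ℝ) : ℂ)) x =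
      (-ε : ℝ) * der (-I) ξ (fun y => ((Real.log (nsq (h₁ y) (h₂ y) A) : ℝ) : ℂ)) x := by
    rw [← der_const_mul _ (sm_ofReal s).diff]
    simp only [ofReal_mul]
  rw [lev_neg s2.exp, lev_exp s2, lev_const_mul _ (cd2 s), e, norm_mul, mul_pow, norm_real,
    Real.norm_eq_abs, sq_abs]
  have a := norm_d_log_nsq (ξ := ξ) G₁.toMet G₂.toMet hx hA
  have b := gap (ξ := ξ) G₁ G₂ hx hA
  have c := lev_log_nsq_flat (ξ := ξ) G₁.hm G₂.hm hx hA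
  have ex := Real.exp_pos (-ε * Real.log (nsq (h₁ x) (h₂ x) A))
  generalize lev _ x ξ = L at *
  generalize ‖der _ ξ _ x‖ ^ 2 = D at *
  generalize omA h₁ h₂ A ξ x = o at *
  have q1 : 2 * ε * o ≤ L :=
    (mul_le_mul_of_nonneg_left b (by positivity)).trans (by nlinarith)
  have q2 : ε ^ 2 * o ≤ ε * L - ε ^ 2 * D := by
    nlinarith [mul_le_mul_of_nonneg_left q1 h0, mul_le_mul_of_nonneg_left a (sq_nonneg ε)]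
  nlinarith [mul_le_mul_of_nonneg_left q2 ex.le]

/-- if `log |A|²` is pluriharmonic at `x` then the Higgs field kills `A` -/
theorem Th_eq_zero_of_lev (G₁ : GM U h₁ Y₁ K₁) (G₂ : GM U h₂ Y₂ K₂) (hx : x ∈ U)
    {A : Matrix m n ℂ} (h : lev (fun y => Real.log (nsq (h₁ y) (h₂ y) A)) x ξ ≤ 0) :
    Th h₁ h₂ ξ x A = 0 ∧ Ths h₁ h₂ ξ x A = 0 := by
  rcases eq_or_ne A 0 with rfl | hA
  · simp [Th, Ths]
  have p₁ := G₁.pos x hx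
  have p₂ := G₂.pos x hx
  have g := (gap (ξ := ξ) G₁ G₂ hx hA).trans (mul_nonpos_of_nonneg_of_nonpos
    (by linarith [G₁.K_nonneg hx, G₂.K_nonneg hx]) h)
  rw [omA, div_nonpos_iff] at g
  have a := nsq_nonneg p₁ p₂ (Th h₁ h₂ ξ x A)
  have b := nsq_nonneg p₁ p₂ (Ths h₁ h₂ ξ x A)
  have c := nsq_pos p₁ p₂ hA
  rcases g with g | g
  · linarith [g.2]
  · exact ⟨nsq_eq_zero p₁ p₂ (by linarith [g.1]), nsq_eq_zero p₁ p₂ (by linarith [g.1])⟩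

end

end Pool.Agent.Lib.MP_5c318e_ag.V
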