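import Pool.Agent.Lib.MP_5c318e_ag.V.LV

/-!
Polarised variations of Hodge structure with a lattice, in pointwise reference frames, and the
forms of one variable with values in them.
-/

set_option autoImplicit false

namespace Pool.Agent.Lib.MP_5c318e_ag.V

open Matrix Filter Topology MeasureTheory Complex
open scoped ComplexOrder ContDiff ComplexConjugate

noncomputable section

/-! ### Pointwise structures -/

section Point

variable {ι : Type} [Fintype ι] [DecidableEq ι]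

/-- the degrees `0, ..., w` -/
def wt (w : ℕ) : Finset ℤ := Finset.Icc 0 (w : ℤ)

/-- the grading element of a family of projectors -/
def grP (w : ℕ) (P : ℤ → Matrix ι ι ℂ) : Matrix ι ι ℂ := ∑ p ∈ wt w, (p : ℂ) • P p

/-- the sign operator of a family of projectors -/
def weyP (w : ℕ) (P : ℤ → Matrix ι ι ℂ) : Matrix ι ι ℂ := ∑ p ∈ wt w, (-1 : ℂ) ^ p • P p

/-- a polarised grading with degrees `0, ..., w` -/
structure PHS (w : ℕ) (ψ : Matrix ι ι ℂ) (P : ℤ → Matrix ι ι ℂ) : Prop where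
  prj : Prj (wt w) P
  adj : ∀ p, (P p)ᴴ * ψ = ψ * P p
  pos : (ψ * weyP w P).PosDef

/-- the sesquilinear form of a matrix, antilinear in the first slot -/
def qf (M : Matrix ι ι ℂ) (u v : ι → ℂ) : ℂ := star u ⬝ᵥ (M *ᵥ v)

/-- an integral invertible matrix as a complex matrix -/
def cx (g : GL ι ℤ) : Matrix ι ι ℂ := (g : Matrix ι ι ℤ).map (Int.cast : ℤ → ℂ)

/-- the pairing on `a dx + b dx̄` -/
def psi1 (ψ : Matrix ι ι ℂ) : Matrix (ι ⊕ ι) (ι ⊕ ι) ℂ := fromBlocks (-ψ) 0 0 ψ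

/-- the projectors on `a dx + b dx̄` -/
def prj1 (P : ℤ → Matrix ι ι ℂ) (p : ℤ) : Matrix (ι ⊕ ι) (ι ⊕ ι) ℂ :=
  fromBlocks (P (p - 1)) 0 0 (P p)

/-- a matrix acting on both components of a form -/
def two (M : Matrix ι ι ℂ) : Matrix (ι ⊕ ι) (ι ⊕ ι) ℂ := fromBlocks M 0 0 M

/-- the pull back of `a dz + b dz̄` under a map with `dz = u dx + v dx̄`, with transport `M` -/
def jm (u v : ℂ) (M : Matrix ι ι ℂ) : Matrix (ι ⊕ ι) (ι ⊕ ι) ℂ :=
  fromBlocks (u • M) (conj v • M) (v • M) (conj u • M)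

end Point

/-! ### Vector valued functions -/

section Der

variable {E : Type} [NormedAddCommGroup E] [NormedSpace ℂ E] {ι : Type}

/-- entrywise Wirtinger derivative of a vector -/
def derV (c : ℂ) (ξ : E) (f : E → ι → ℂ) (x : E) : ι → ℂ := fun i => der c ξ (fun y => f y i) x

/-- entrywise smooth near `x` -/
def SmV (f : E → ι → ℂ) (x : E) : Prop := ∀ i, Sm (fun y => f y i) x

end Der

/-! ### Local systems -/

section Loc

variable {A Γ : Type} [TopologicalSpace A] [Group Γ]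

/-- transport of germs: `κ y y'` carries the reference frame at `y'` to the frame of `y` -/
structure Germ (U : Set A) (κ : A → A → Γ) : Prop where
  self : ∀ y ∈ U, κ y y = 1
  coc : ∀ y ∈ U, ∀ᶠ y' in 𝓝[U] y, ∀ᶠ y'' in 𝓝[U] y', κ y y'' = κ y y' * κ y' y''

/-- a flat frame on `O` -/
def IsFr (O : Set A) (κ : A → A → Γ) (k : A → Γ) : Prop :=
  ∀ y ∈ O, ∀ᶠ y' in 𝓝[O] y, k y' = k y * κ y y'

theorem Germ.comp {B : Type} [TopologicalSpace B] {U : Set A} {κ : A → A → Γ} (h : Germ U κ)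
    {O : Set B} {φ : B → A} (hc : ContinuousOn φ O) (hm : Set.MapsTo φ O U) :
    Germ O fun a a' => κ (φ a) (φ a') where
  self := fun y hy => h.self _ (hm hy)
  coc := fun y hy => by
    filter_upwards [((hc y hy).tendsto_nhdsWithin hm).eventually (h.coc _ (hm hy)),
      self_mem_nhdsWithin] with y' h1 h2
    exact ((hc y' h2).tendsto_nhdsWithin hm).eventually h1

end Loc

/-! ### Variations -/

section Var

variable {ι : Type} [Fintype ι] [DecidableEq ι]

/-- the local condition at `a`: smooth projectors, and `[∂G, G] = ∂G` -/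
def Ax {E : Type} [NormedAddCommGroup E] [NormedSpace ℂ E] (w : ℕ) (π : ℤ → E → Matrix ι ι ℂ)
    (a : E) : Prop :=
  (∀ p, SmM (π p) a) ∧ ∀ ξ, derM (-I) ξ (gr (wt w) π) a * gr (wt w) π a -
    gr (wt w) π a * derM (-I) ξ (gr (wt w) π) a = derM (-I) ξ (gr (wt w) π) a

/-- a holomorphic germ with values in `U` -/
def Plot {A E : Type} [NormedAddCommGroup A] [NormedSpace ℂ A] [NormedAddCommGroup E]
    [NormedSpace ℂ E] (U : Set A) (φ : E → A) (a : E) : Prop :=
  AnalyticAt ℂ φ a ∧ ∀ᶠ a' in 𝓝 a, φ a' ∈ U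

/-- a polarised variation of Hodge structure with a lattice on a set `U` -/
structure VHS (A : Type) [NormedAddCommGroup A] [NormedSpace ℂ A] (U : Set A) (ι : Type)
    [Fintype ι] [DecidableEq ι] (w : ℕ) where
  κ : A → A → GL ι ℤ
  ψ : A → Matrix ι ι ℂ
  π : ℤ → A → Matrix ι ι ℂ
  germ : Germ U κ
  flat : ∀ y ∈ U, ∀ᶠ y' in 𝓝[U] y, ψ y' = (cx (κ y y'))ᴴ * ψ y * cx (κ y y')
  phs : ∀ y ∈ U, PHS w (ψ y) fun p => π p y
  ax : ∀ (E : Type) [NormedAddCommGroup E] [NormedSpace ℂ E] (φ : E → A) (a : E), Plot U φ a →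
    Ax w (fun p a' => cx (κ (φ a) (φ a')) * π p (φ a') * cx (κ (φ a) (φ a'))⁻¹) a

variable {A : Type} [NormedAddCommGroup A] [NormedSpace ℂ A] {U : Set A} {w : ℕ}

/-- the Hodge metric -/
def VHS.H (V : VHS A U ι w) (y : A) : Matrix ι ι ℂ := V.ψ y * wey (wt w) V.π y

/-- pull back along a holomorphic map -/
def VHS.pull (V : VHS A U ι w) {B : Type} [NormedAddCommGroup B] [NormedSpace ℂ B] (O : Set B)
    (f : B → A) (hf : ∀ b ∈ O, AnalyticAt ℂ f b) (hm : Set.MapsTo f O U) : VHS B O ι w where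
  κ := fun b b' => V.κ (f b) (f b')
  ψ := fun b => V.ψ (f b)
  π := fun p b => V.π p (f b)
  germ := V.germ.comp (fun b hb => (hf b hb).continuousAt.continuousWithinAt) hm
  flat := fun b hb => (((hf b hb).continuousAt.continuousWithinAt (s := O)).tendsto_nhdsWithin
    hm).eventually (V.flat _ (hm hb))
  phs := fun _ hb => V.phs _ (hm hb)
  ax := fun E _ _ φ a h => V.ax E (fun a => f (φ a)) a
    ⟨(hf _ h.2.self_of_nhds).comp h.1, h.2.mono fun _ h => hm h⟩

/-- the fibre of `Ω` over `s` -/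
def fb (Ω : Set (A × ℂ)) (s : A) : Set ℂ := {x | (s, x) ∈ Ω}

/-- the restriction to the fibre over `s` -/
def VHS.fib {Ω : Set (A × ℂ)} (V : VHS (A × ℂ) Ω ι w) (s : A) : VHS ℂ (fb Ω s) ι w :=
  V.pull _ (fun x => (s, x)) (fun _ _ => analyticAt_const.prod analyticAt_id) fun _ h => h

/-- a flat self adjoint endomorphism of degree zero -/
structure VHS.End (V : VHS A U ι w) (ε : A → Matrix ι ι ℂ) : Prop where
  flat : ∀ y ∈ U, ∀ᶠ y' in 𝓝[U] y, cx (V.κ y y') * ε y' = ε y * cx (V.κ y y')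
  comm : ∀ y ∈ U, ∀ p, ε y * V.π p y = V.π p y * ε y
  adj : ∀ y ∈ U, (ε y)ᴴ * V.ψ y = V.ψ y * ε y

/-- `u` is a holomorphic section of the top piece along `φ` on `O` -/
def VHS.HolTop (V : VHS A U ι w) {E : Type} [NormedAddCommGroup E] [NormedSpace ℂ E] (φ : E → A)
    (u : E → ι → ℂ) (O : Set E) : Prop :=
  ∀ a ∈ O, AnalyticAt ℂ (fun a' => cx (V.κ (φ a) (φ a')) *ᵥ u a') a ∧ V.π w (φ a) *ᵥ u a = u a

/-- every point of `S` has a holomorphic chart -/
def Charted (S : Set A) : Prop :=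
  ∀ s ∈ S, ∃ (m : ℕ) (σ : (Fin m → ℂ) → A) (p : A → Fin m → ℂ), Plot S σ (p s) ∧
    AnalyticAt ℂ p s ∧ (∀ᶠ a in 𝓝 (p s), p (σ a) = a) ∧ ∀ᶠ s' in 𝓝[S] s, σ (p s') = s'

/-- over `S` the set `Ω` is the complement of disjoint holomorphic graphs -/
def Roots (S : Set A) (Ω : Set (A × ℂ)) : Prop :=
  ∀ s ∈ S, ∃ (n : ℕ) (ρ : Fin n → A → ℂ), (∀ i, AnalyticAt ℂ (ρ i) s) ∧
    (Function.Injective fun i => ρ i s) ∧
    ∀ᶠ s' in 𝓝[S] s, ∀ x, (s', x) ∈ Ω ↔ ∀ i, x ≠ ρ i s'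

end Var

/-! ### Forms in one variable -/

section One

variable {ι : Type} [Fintype ι] [DecidableEq ι] {Ω : Set ℂ} {w : ℕ}

/-- forms `a dx + b dx̄` in the reference frames -/
abbrev Form (ι : Type) : Type := ℂ → ι ⊕ ι → ℂ

/-- the coefficient of `dx` -/
def f1 (α : Form ι) : ℂ → ι → ℂ := fun x i => α x (Sum.inl i)

/-- the coefficient of `dx̄` -/
def f2 (α : Form ι) : ℂ → ι → ℂ := fun x i => α x (Sum.inr i)

/-- the form `u dx` -/
def dxF (u : ℂ → ι → ℂ) : Form ι := fun x => Sum.elim (u x) 0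

/-- the differential of a vector valued function -/
def dV (β : ℂ → ι → ℂ) : Form ι := fun x => Sum.elim (derV (-I) 1 β x) (derV I 1 β x)

/-- a pointwise operator on forms -/
def mulF (M : ℂ → Matrix (ι ⊕ ι) (ι ⊕ ι) ℂ) (α : Form ι) : Form ι := fun x => M x *ᵥ α x

/-- compact support in `Ω` -/
def Cpt {F : Type} [Zero F] (Ω : Set ℂ) (e : ℂ → F) : Prop :=
  ∃ K ⊆ Ω, IsCompact K ∧ ∀ x ∈ Ω, x ∉ K → e x = 0

namespace VHS

variable (V : VHS ℂ Ω ι w)

/-- a section read in the frame of the point `x` -/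
def loc (e : ℂ → ι → ℂ) (x : ℂ) : ℂ → ι → ℂ := fun x' => cx (V.κ x x') *ᵥ e x'

/-- smooth sections -/
def SmS (e : ℂ → ι → ℂ) : Prop := ∀ x ∈ Ω, SmV (V.loc e x) x

/-- the flat connection -/
def D (e : ℂ → ι → ℂ) : Form ι := fun x => dV (V.loc e x) x

/-- smooth forms -/
def SmF (α : Form ι) : Prop := V.SmS (f1 α) ∧ V.SmS (f2 α)

/-- smooth closed forms -/
def Closed (α : Form ι) : Prop :=
  V.SmF α ∧ ∀ x ∈ Ω, derV I 1 (V.loc (f1 α) x) x = derV (-I) 1 (V.loc (f2 α) x) x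

/-- exact forms -/
def Exact (α : Form ι) : Prop := ∃ e, V.SmS e ∧ ∀ x ∈ Ω, V.D e x = α x

/-- forms with a primitive modulo `Λ` -/
def PrimMod (Λ : AddSubgroup ℂ) (α : Form ι) : Prop :=
  ∃ b : ℂ → ι → ℂ, ∀ x ∈ Ω, ∃ β : ℂ → ι → ℂ, ∀ᶠ x' in 𝓝 x, SmV β x' ∧
    dV β x' = two (cx (V.κ x x')) *ᵥ α x' ∧ ∀ i, β x' i - V.loc b x x' i ∈ Λ

/-- forms with integral periods -/
def Intg (α : Form ι) : Prop := V.PrimMod (AddSubgroup.zmultiples 1) α

/-- the flat pairing of forms -/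
def Q (α β : Form ι) : ℂ := ∫ x, qf (psi1 (V.ψ x)) (α x) (β x)

/-- the pointwise squared norm -/
def nrm (α : Form ι) (x : ℂ) : ℝ := (qf (two (V.H x)) (α x) (α x)).re

/-- square integrable forms -/
def L2 (α : Form ι) : Prop := Integrable (V.nrm α)

/-- the part of degree `p` of a form -/
def pF (p : ℤ) (α : Form ι) : Form ι := mulF (fun x => prj1 (fun p => V.π p x) p) α

/-- the sign operator of forms -/
def cF (α : Form ι) : Form ι := mulF (fun x => weyP (w + 1) (prj1 fun p => V.π p x)) α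

/-- smooth closed square integrable forms -/
def Z (α : Form ι) : Prop := V.Closed α ∧ V.L2 α

/-- harmonic forms -/
def Harm (α : Form ι) : Prop := V.Z α ∧ V.Closed (V.cF α)

/-- limits of differentials of sections with compact support -/
def Cl (α : Form ι) : Prop :=
  ∀ ε > 0, ∃ e, V.SmS e ∧ Cpt Ω e ∧ ∫ x, V.nrm (α - V.D e) x < ε

end VHS

/-- forms representing a basis of the cohomology, and their harmonic representatives -/
structure FD (ι : Type) (n : ℕ) where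
  e : Fin n → Form ι
  h : Fin n → Form ι

/-- a lattice basis of the cohomology of a fibre -/
structure Fib (V : VHS ℂ Ω ι w) {n : ℕ} (F : FD ι n) : Prop where
  closed : ∀ j, V.Closed (F.e j)
  cpt : ∀ j, Cpt Ω (F.e j)
  intg : ∀ j, V.Intg (F.e j)
  indep : ∀ c : Fin n → ℂ, V.Exact (∑ j, c j • F.e j) → c = 0
  span : ∀ ζ, V.Z ζ → ∃ c : Fin n → ℂ, V.Exact (ζ - ∑ j, c j • F.e j)
  spanZ : ∀ ζ, V.Z ζ → V.Intg ζ → ∃ c : Fin n → ℤ, V.Exact (ζ - ∑ j, (c j : ℂ) • F.e j)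
  harm : ∀ j, V.Harm (F.h j)
  exact : ∀ j, V.Exact (F.h j - F.e j)

namespace FD

variable {n : ℕ} (F : FD ι n) (V : VHS ℂ Ω ι w)

/-- the pairing on cohomology -/
def ψ : Matrix (Fin n) (Fin n) ℂ := Matrix.of fun j k => V.Q (F.e j) (F.e k)

/-- the coordinates of the class of a form -/
def cls (ζ : Form ι) : Fin n → ℂ := (F.ψ V)⁻¹ *ᵥ fun j => V.Q (F.e j) ζ

/-- the harmonic form with given coordinates -/
def hf (c : Fin n → ℂ) : Form ι := ∑ j, c j • F.h j

/-- the matrix of a pointwise operator on cohomology -/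
def op (M : ℂ → Matrix (ι ⊕ ι) (ι ⊕ ι) ℂ) : Matrix (Fin n) (Fin n) ℂ :=
  Matrix.of fun j k => F.cls V (mulF M (F.h k)) j

/-- the projectors on cohomology -/
def π (p : ℤ) : Matrix (Fin n) (Fin n) ℂ := F.op V fun x => prj1 (fun p => V.π p x) p

end FD

end One

end

end Pool.Agent.Lib.MP_5c318e_ag.V
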