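import Pool.Agent.Lib.MP_5c318e_ag.V.Defs
import Pool.Agent.Lib.MP_5c318e_ag.H.Lift

/-! Frames on star shaped sets, transport in families, primitives. -/

set_option autoImplicit false

namespace Pool.Agent.Lib.MP_5c318e_ag.V

open Matrix Filter Topology MeasureTheory Complex Metric
open scoped ComplexOrder ContDiff ComplexConjugate

noncomputable section

section

variable {Γ : Type} [Group Γ]

theorem IsFr.mul {B : Type} [TopologicalSpace B] {O : Set B} {κ : B → B → Γ} {k : B → Γ}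
    (h : IsFr O κ k) (c : Γ) : IsFr O κ fun y => c * k y :=
  fun y hy => (h y hy).mono fun _ e => by simp only [e, mul_assoc]

theorem IsFr.uniq {B : Type} [TopologicalSpace B] {O : Set B} (hO : IsPreconnected O)
    {κ : B → B → Γ} {k k' : B → Γ} (h : IsFr O κ k) (h' : IsFr O κ k') {a : B} (ha : a ∈ O)
    (e : k a = k' a) : ∀ y ∈ O, k y = k' y :=
  fun _ hy => Abs.lift_unique hO h h' ha e hy

theorem IsFr.mono {B : Type} [TopologicalSpace B] {O O' : Set B} {κ : B → B → Γ} {k : B → Γ}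
    (h : IsFr O κ k) (hO : O' ⊆ O) : IsFr O' κ k :=
  fun y hy => (h y (hO hy)).filter_mono (nhdsWithin_mono y hO)

/-- the germ at `y` is a frame on a neighbourhood of `y` -/
theorem Germ.exists_fr {B : Type} [TopologicalSpace B] {U : Set B} {κ : B → B → Γ} (h : Germ U κ)
    {y : B} (hy : y ∈ U) : ∃ N, IsOpen N ∧ y ∈ N ∧ IsFr (N ∩ U) κ (κ y) := by
  obtain ⟨N, ho, hm, hN⟩ := mem_nhdsWithin.mp (h.coc y hy)
  exact ⟨N, ho, hm, fun y' hy' => (hN hy').filter_mono (nhdsWithin_mono y' Set.inter_subset_right)⟩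

theorem Germ.lift {B : Type} [NormedAddCommGroup B] [NormedSpace ℝ B] {O : Set B} (hO : IsOpen O)
    {a : B} (ha : a ∈ O) (hs : StarConvex ℝ a O) {κ : B → B → Γ} (h : Germ O κ) (k0 : Γ) :
    ∃ k, k a = k0 ∧ IsFr O κ k := by
  obtain ⟨k, h0, hk⟩ := Abs.lift_on hO (Abs.starConvex_simplyConnected hs ⟨a, ha⟩) κ h.self h.coc
    continuousOn_id (Set.mapsTo_id O) ha k0
  exact ⟨k, h0, fun y hy => (hk y hy).filter_mono nhdsWithin_le_nhds⟩

theorem IsFr.comp_cont {B C : Type} [TopologicalSpace B] [TopologicalSpace C] {O : Set B}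
    {κ : B → B → Γ} {k : B → Γ} (h : IsFr O κ k) {O' : Set C} {f : C → B} (hc : ContinuousOn f O')
    (hm : Set.MapsTo f O' O) : IsFr O' (fun a a' => κ (f a) (f a')) fun a => k (f a) :=
  fun y hy => ((hc y hy).tendsto_nhdsWithin hm).eventually (h _ (hm hy))

/-- transport along the first variable -/
theorem Germ.trans {B C : Type} [NormedAddCommGroup B] [NormedSpace ℝ B] [NormedAddCommGroup C]
    [NormedSpace ℝ C] {a0 : B} {δ : ℝ} (hδ : 0 < δ) {O : Set C} (hO : IsOpen O)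
    {κ : B × C → B × C → Γ} (h : Germ (ball a0 δ ×ˢ O) κ) :
    ∃ m : B → C → Γ, (∀ x ∈ O, m a0 x = 1) ∧ ∀ a ∈ ball a0 δ, ∀ x ∈ O, ∀ᶠ p : B × C in 𝓝 (a, x),
      κ (a0, x) (a0, p.2) * m p.1 p.2 = m a x * κ (a, x) p := by
  classical
  have c1 : ∀ x : C, ContinuousOn (fun a : B => (a, x)) (ball a0 δ) := fun x => by fun_prop
  have key : ∀ x ∈ O, ∃ k : B → Γ, k a0 = 1 ∧
      IsFr (ball a0 δ) (fun a a' => κ (a, x) (a', x)) k := fun x hx =>
    Germ.lift isOpen_ball (mem_ball_self hδ) ((convex_ball a0 δ).starConvex (mem_ball_self hδ))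
      (h.comp (c1 x) fun _ ha => ⟨ha, hx⟩) 1
  choose! k k0 hk using key
  refine ⟨fun a x => k x a, k0, fun a ha x hx => ?_⟩
  obtain ⟨r, hr, hN⟩ := Metric.isOpen_iff.mp hO x hx
  have op : IsOpen (ball a0 δ ×ˢ ball x r) := isOpen_ball.prod isOpen_ball
  have m0 : (a0, x) ∈ ball a0 δ ×ˢ ball x r := ⟨mem_ball_self hδ, mem_ball_self hr⟩
  have m1 : (a, x) ∈ ball a0 δ ×ˢ ball x r := ⟨ha, mem_ball_self hr⟩
  obtain ⟨g, g0, hg⟩ := Germ.lift op m0
    (((convex_ball a0 δ).prod (convex_ball x r)).starConvex m0)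
    (h.comp continuousOn_id (Set.prod_mono_right hN)) 1
  have e : ∀ x' ∈ ball x r, ∀ a' ∈ ball a0 δ, g (a', x') = g (a0, x') * k x' a' := fun x' hx' =>
    IsFr.uniq (convex_ball a0 δ).isPreconnected (hg.comp_cont (c1 x') fun _ ha => ⟨ha, hx'⟩)
      ((hk x' (hN hx')).mul _) (mem_ball_self hδ) (by rw [k0 x' (hN hx'), mul_one])
  have t1 := hg _ m0
  have t2 := hg _ m1
  rw [op.nhdsWithin_eq m0] at t1
  rw [op.nhdsWithin_eq m1] at t2
  have ct : ContinuousAt (fun p : B × C => (a0, p.2)) (a, x) := by fun_prop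
  filter_upwards [ct.eventually t1, t2, op.mem_nhds m1] with p p1 p2 p3
  rw [g0, one_mul] at p1
  rw [e x (mem_ball_self hr) a ha, g0, one_mul] at p2
  exact ((congrArg (· * k p.2 p.1) p1).symm.trans (e p.2 p3.2 p.1 p3.1).symm).trans p2

end

theorem fderiv_zero_of_der {f : ℂ → ℂ} {x : ℂ} (h1 : der (-I) 1 f x = 0) (h2 : der I 1 f x = 0) :
    fderiv ℝ f x = 0 := by
  rw [der] at h1 h2
  have a : fderiv ℝ f x 1 = 0 := by linear_combination h1 + h2
  have b : fderiv ℝ f x (I • 1) = 0 := by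
    linear_combination (-I) * h2 + I * h1 + fderiv ℝ f x (I • 1) * I_mul_I
  refine ContinuousLinearMap.ext fun v => ?_
  have e : v = v • (1 : ℂ) := by simp
  rw [e, smul_split v 1, map_add, map_smul, map_smul, a, b]
  simp

theorem ev_const_of_der {f : ℂ → ℂ} {x : ℂ}
    (h : ∀ᶠ x' in 𝓝 x, Sm f x' ∧ der (-I) 1 f x' = 0 ∧ der I 1 f x' = 0) :
    ∀ᶠ x' in 𝓝 x, f x' = f x := by
  obtain ⟨r, hr, hb⟩ := Metric.eventually_nhds_iff_ball.mp h
  filter_upwards [ball_mem_nhds x hr] with y hy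
  exact isOpen_ball.is_const_of_fderiv_eq_zero (𝕜 := ℝ) (convex_ball x r).isPreconnected
    (fun z hz => (hb z hz).1.diff.differentiableWithinAt)
    (fun z hz => fderiv_zero_of_der (hb z hz).2.1 (hb z hz).2.2) hy (mem_ball_self hr)

theorem exists_prim_convex {O : Set ℂ} (hO : IsOpen O) (hs : Convex ℝ O) {a b : ℂ → ℂ}
    (h1 : ∀ x ∈ O, Sm a x) (h2 : ∀ x ∈ O, Sm b x)
    (hc : ∀ x ∈ O, der I 1 a x = der (-I) 1 b x) :
    ∃ f : ℂ → ℂ, ∀ x ∈ O, Sm f x ∧ der (-I) 1 f x = a x ∧ der I 1 f x = b x := by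
  let L1 : ℂ →L[ℝ] ℂ := ContinuousLinearMap.id ℝ ℂ
  let L2 : ℂ →L[ℝ] ℂ := conjCLE
  let om : ℂ → ℂ →L[ℝ] ℂ := fun x => a x • L1 + b x • L2
  have som : ∀ x ∈ O, ContDiffAt ℝ ∞ om x := fun x hx =>
    ((h1 x hx).smul contDiffAt_const).add ((h2 x hx).smul contDiffAt_const)
  have dom : ∀ x ∈ O, ∀ u v, fderiv ℝ om x u v = fderiv ℝ a x u * v + fderiv ℝ b x u * conj v := by
    intro x hx u v
    have := (((h1 x hx).diff.hasFDerivAt.smul_const L1).add
      ((h2 x hx).diff.hasFDerivAt.smul_const L2)).fderiv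
    erw [this]
    simp [L1, L2]
  obtain ⟨f, hf⟩ := hs.exists_forall_hasFDerivAt_of_fderiv_symmetric hO
    (show DifferentiableOn ℝ om O from fun x hx =>
      ((som x hx).differentiableAt (by simp)).differentiableWithinAt) (fun x hx u v => by
      have c := hc x hx
      have e : ∀ (g : ℂ → ℂ) (u : ℂ), fderiv ℝ g x u =
          u.re * fderiv ℝ g x 1 + u.im * fderiv ℝ g x (I • 1) := fun g u => by
        have e : u = u • (1 : ℂ) := by simp
        conv_lhs => rw [e, smul_split u 1, map_add, map_smul, map_smul]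
        simp
      have cj : ∀ u : ℂ, conj u = u.re - u.im * I := fun u => by apply Complex.ext <;> simp
      rw [der, der] at c
      rw [dom x hx, dom x hx, e a u, e b u, e a v, e b v, cj u, cj v]
      have eu := re_add_im u
      have ev := re_add_im v
      generalize (u.re : ℂ) = u1 at *
      generalize (u.im : ℂ) = u2 at *
      generalize (v.re : ℂ) = v1 at *
      generalize (v.im : ℂ) = v2 at *
      subst eu ev
      linear_combination (2 * I * (u1 * v2 - u2 * v1)) * c - (u1 * v2 - u2 * v1) *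
        (fderiv ℝ a x (I • 1) + fderiv ℝ b x (I • 1)) * I_mul_I)
  have sf : ContDiffOn ℝ ∞ f O := (contDiffOn_infty_iff_fderiv_of_isOpen hO).mpr
    ⟨fun x hx => (hf x hx).differentiableAt.differentiableWithinAt,
      fun x hx => (som x hx).contDiffWithinAt.congr (fun y hy => (hf y hy).fderiv) (hf x hx).fderiv⟩
  refine ⟨f, fun x hx => ⟨sf.contDiffAt (hO.mem_nhds hx), ?_, ?_⟩⟩
  · rw [der, (hf x hx).fderiv]
    simp only [om, L1, L2, _root_.add_apply, _root_.smul_apply, smul_eq_mul, mul_one,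
      ContinuousLinearMap.id_apply, ContinuousLinearEquiv.coe_coe, conjCLE_apply, map_one, conj_I]
    linear_combination ((b x - a x) / 2) * I_mul_I
  · rw [der, (hf x hx).fderiv]
    simp only [om, L1, L2, _root_.add_apply, _root_.smul_apply, smul_eq_mul, mul_one,
      ContinuousLinearMap.id_apply, ContinuousLinearEquiv.coe_coe, conjCLE_apply, map_one, conj_I]
    linear_combination ((a x - b x) / 2) * I_mul_I

theorem exists_prim_star {O : Set ℂ} (hO : IsOpen O) {x0 : ℂ} (hb : x0 ∈ O)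
    (hs : StarConvex ℝ x0 O) {a b : ℂ → ℂ} (h1 : ∀ x ∈ O, Sm a x) (h2 : ∀ x ∈ O, Sm b x)
    (hc : ∀ x ∈ O, der I 1 a x = der (-I) 1 b x) :
    ∃ f : ℂ → ℂ, ∀ x ∈ O, Sm f x ∧ der (-I) 1 f x = a x ∧ der I 1 f x = b x := by
  have key : ∀ y ∈ O, ∃ f : ℂ → ℂ, f y = 0 ∧
      ∀ᶠ x in 𝓝 y, Sm f x ∧ der (-I) 1 f x = a x ∧ der I 1 f x = b x := fun y hy => by
    obtain ⟨r, hr, hN⟩ := Metric.isOpen_iff.mp hO y hy
    obtain ⟨f, hf⟩ := exists_prim_convex isOpen_ball (convex_ball y r) (fun x hx => h1 x (hN hx))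
      (fun x hx => h2 x (hN hx)) fun x hx => hc x (hN hx)
    refine ⟨fun x => f x - f y, sub_self _, ?_⟩
    filter_upwards [ball_mem_nhds y hr] with x hx
    obtain ⟨s, e1, e2⟩ := hf x hx
    exact ⟨s.sub contDiffAt_const,
      by rw [der_sub s.diff (differentiableAt_const _), der_const, sub_zero, e1],
      by rw [der_sub s.diff (differentiableAt_const _), der_const, sub_zero, e2]⟩
  choose! f f0 hf using key
  have G : Germ O fun y y' => Multiplicative.ofAdd (f y y') :=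
    ⟨fun y hy => by rw [f0 y hy, ofAdd_zero], fun y hy => by
      filter_upwards [(hf y hy).eventually_nhds.filter_mono nhdsWithin_le_nhds,
        self_mem_nhdsWithin] with y' e1 hy'
      have : ∀ᶠ x in 𝓝 y', f y x - f y' x = f y y' - f y' y' := by
        refine ev_const_of_der (f := fun x => f y x - f y' x) ?_
        filter_upwards [e1, hf y' hy'] with x p q
        exact ⟨p.1.sub q.1, by rw [der_sub p.1.diff q.1.diff, p.2.1, q.2.1, sub_self],
          by rw [der_sub p.1.diff q.1.diff, p.2.2, q.2.2, sub_self]⟩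
      filter_upwards [this.filter_mono nhdsWithin_le_nhds] with x e
      rw [f0 y' hy', sub_zero, sub_eq_iff_eq_add] at e
      rw [e, ofAdd_add]⟩
  obtain ⟨k, -, hk⟩ := G.lift hO hb hs 1
  refine ⟨fun x => (k x).toAdd, fun x hx => ?_⟩
  have e : (fun y => (k y).toAdd) =ᶠ[𝓝 x] fun y => (k x).toAdd + f x y := by
    have := hk x hx
    rw [hO.nhdsWithin_eq hx] at this
    exact this.mono fun y hy => by simp only [hy, toAdd_mul, toAdd_ofAdd]
  obtain ⟨s, e1, e2⟩ := (hf x hx).self_of_nhds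
  exact ⟨(contDiffAt_const.add s).congr_of_eventuallyEq e,
    by rw [der_congr e, der_add (differentiableAt_const _) s.diff, der_const, zero_add, e1],
    by rw [der_congr e, der_add (differentiableAt_const _) s.diff, der_const, zero_add, e2]⟩

/-- closed forms have primitives on star shaped sets -/
theorem exists_prim {ι : Type} [Fintype ι] {O : Set ℂ} (hO : IsOpen O) {b : ℂ} (hb : b ∈ O)
    (hs : StarConvex ℝ b O) {α : Form ι} (h1 : ∀ x ∈ O, SmV (f1 α) x) (h2 : ∀ x ∈ O, SmV (f2 α) x)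
    (hc : ∀ x ∈ O, derV I 1 (f1 α) x = derV (-I) 1 (f2 α) x) :
    ∃ β : ℂ → ι → ℂ, ∀ x ∈ O, SmV β x ∧ dV β x = α x := by
  choose f hf using fun i => exists_prim_star hO hb hs (fun x hx => h1 x hx i)
    (fun x hx => h2 x hx i) fun x hx => congrFun (hc x hx) i
  refine ⟨fun x i => f i x, fun x hx => ⟨fun i => (hf i x hx).1, ?_⟩⟩
  funext j
  rcases j with i | i
  · exact (hf i x hx).2.1
  · exact (hf i x hx).2.2

/-- a function with zero differential is locally constant -/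
theorem const_of_dV {ι : Type} [Fintype ι] {β : ℂ → ι → ℂ} {x : ℂ}
    (h : ∀ᶠ x' in 𝓝 x, SmV β x' ∧ dV β x' = 0) : ∀ᶠ x' in 𝓝 x, β x' = β x := by
  have := fun i => ev_const_of_der (f := fun y => β y i) (h.mono fun y hy =>
    ⟨hy.1 i, congrFun hy.2 (Sum.inl i), congrFun hy.2 (Sum.inr i)⟩)
  exact (Filter.eventually_all.mpr this).mono fun y hy => funext hy

end

end Pool.Agent.Lib.MP_5c318e_ag.V
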