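import Pool.Agent.Lib.MP_5c318e_ag.V.Alg
import Pool.Agent.Lib.MP_5c318e_ag.V.Lift
import Pool.Agent.Lib.MP_5c318e_ag.V.Fun

/-! Variations, sections and forms in flat frames. -/

set_option autoImplicit false
set_option linter.unusedSectionVars false

namespace Pool.Agent.Lib.MP_5c318e_ag.V

open Matrix Filter Topology MeasureTheory Complex Metric
open scoped ComplexOrder ContDiff ComplexConjugate

noncomputable section

variable {ι : Type} [Fintype ι] [DecidableEq ι] {w : ℕ}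

namespace Fr

variable {E : Type} [NormedAddCommGroup E] [NormedSpace ℂ E] {f g : E → ι → ℂ} {x ξ : E} {c : ℂ}

omit [Fintype ι] [DecidableEq ι]

theorem smV_congr (hf : SmV f x) (h : g =ᶠ[𝓝 x] f) : SmV g x :=
  fun i => (hf i).congr_of_eventuallyEq (h.mono fun _ hy => by simp only [hy])

theorem derV_congr (h : f =ᶠ[𝓝 x] g) : derV c ξ f x = derV c ξ g x :=
  funext fun _ => der_congr (h.mono fun _ hy => by simp only [hy])

theorem smV_const (v : ι → ℂ) : SmV (fun _ : E => v) x := fun _ => contDiffAt_const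

theorem smV_add (hf : SmV f x) (hg : SmV g x) : SmV (fun y => f y + g y) x :=
  fun i => ContDiffAt.add (hf i) (hg i)

theorem smV_sub (hf : SmV f x) (hg : SmV g x) : SmV (fun y => f y - g y) x :=
  fun i => ContDiffAt.sub (hf i) (hg i)

theorem smV_fmul {a : E → ℂ} (ha : Sm a x) (hf : SmV f x) : SmV (fun y => a y • f y) x :=
  fun i => ContDiffAt.mul ha (hf i)

theorem smV_der (hf : SmV f x) (c : ℂ) (ξ : E) : SmV (derV c ξ f) x := fun i => (hf i).der c ξ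

theorem derV_const (v : ι → ℂ) : derV c ξ (fun _ : E => v) x = 0 := funext fun _ => der_const _

theorem derV_add (hf : SmV f x) (hg : SmV g x) :
    derV c ξ (fun y => f y + g y) x = derV c ξ f x + derV c ξ g x :=
  funext fun i => der_add (hf i).diff (hg i).diff

theorem derV_sub (hf : SmV f x) (hg : SmV g x) :
    derV c ξ (fun y => f y - g y) x = derV c ξ f x - derV c ξ g x :=
  funext fun i => der_sub (hf i).diff (hg i).diff

theorem derV_fmul {a : E → ℂ} (ha : Sm a x) (hf : SmV f x) :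
    derV c ξ (fun y => a y • f y) x = a x • derV c ξ f x + der c ξ a x • f x :=
  funext fun i => (der_mul ha.diff (hf i).diff).trans (add_comm _ _)

theorem derV_csmul (a : ℂ) (hf : SmV f x) :
    derV c ξ (fun y => a • f y) x = a • derV c ξ f x :=
  funext fun i => der_const_mul a (hf i).diff

theorem derV_comm {c' : ℂ} {η : E} (hf : SmV f x) :
    derV c ξ (derV c' η f) x = derV c' η (derV c ξ f) x := funext fun i => der_comm (hf i)

theorem smV_mulVec [Fintype ι] {M : E → Matrix ι ι ℂ} (hM : SmM M x) (hf : SmV f x) :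
    SmV (fun y => M y *ᵥ f y) x := fun i => by
  simp only [mulVec, dotProduct]
  exact ContDiffAt.sum fun j _ => ContDiffAt.mul (hM i j) (hf j)

theorem derV_mulVec [Fintype ι] (M : Matrix ι ι ℂ) (hf : SmV f x) :
    derV c ξ (fun y => M *ᵥ f y) x = M *ᵥ derV c ξ f x := funext fun i => by
  simp only [derV, mulVec, dotProduct]
  rw [der_sum _ fun j _ => (differentiableAt_const _).fun_mul (hf j).diff]
  exact Finset.sum_congr rfl fun j _ => der_const_mul _ (hf j).diff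

theorem dV_congr {f g : ℂ → ι → ℂ} {x : ℂ} (h : f =ᶠ[𝓝 x] g) : dV f x = dV g x := by
  simp only [dV, derV_congr h]

theorem dV_mulVec [Fintype ι] [DecidableEq ι] {f : ℂ → ι → ℂ} {x : ℂ} (M : Matrix ι ι ℂ)
    (hf : SmV f x) : dV (fun y => M *ᵥ f y) x = two M *ᵥ dV f x := by
  rw [two_mulVec]
  simp only [dV, derV_mulVec M hf]
  rfl

theorem ev_within {B : Type} [TopologicalSpace B] {O : Set B} (hO : IsOpen O) {x : B} (hx : x ∈ O)
    {p : B → Prop} (h : ∀ᶠ y in 𝓝[O] x, p y) : ∀ᶠ y in 𝓝 x, p y := by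
  rwa [hO.nhdsWithin_eq hx] at h

theorem sm_gr [Fintype ι] [DecidableEq ι] {S : Finset ℤ} {π : ℤ → E → Matrix ι ι ℂ}
    (h : ∀ p, SmM (π p) x) : SmM (gr S π) x := SmM.sum S fun p _ => (h p).csmul _

theorem f1_two [Fintype ι] [DecidableEq ι] (M : ℂ → Matrix ι ι ℂ) (α : Form ι) :
    (f1 fun y => two (M y) *ᵥ α y) = fun y => M y *ᵥ f1 α y := by
  funext y i
  simp only [f1, two_mulVec, Sum.elim_inl]
  rfl

theorem f2_two [Fintype ι] [DecidableEq ι] (M : ℂ → Matrix ι ι ℂ) (α : Form ι) :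
    (f2 fun y => two (M y) *ᵥ α y) = fun y => M y *ᵥ f2 α y := by
  funext y i
  simp only [f2, two_mulVec, Sum.elim_inr]
  rfl

theorem f1_blocks [Fintype ι] (M N : ℂ → Matrix ι ι ℂ) (α : Form ι) :
    (f1 fun y => fromBlocks (M y) 0 0 (N y) *ᵥ α y) = fun y => M y *ᵥ f1 α y := by
  funext y i
  simp only [f1, fromBlocks_mulVec, Sum.elim_inl, zero_mulVec, add_zero]
  rfl

theorem f2_blocks [Fintype ι] (M N : ℂ → Matrix ι ι ℂ) (α : Form ι) :
    (f2 fun y => fromBlocks (M y) 0 0 (N y) *ᵥ α y) = fun y => N y *ᵥ f2 α y := by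
  funext y i
  simp only [f2, fromBlocks_mulVec, Sum.elim_inr, zero_mulVec, zero_add]
  rfl

end Fr

open Fr

section

variable {A : Type} [NormedAddCommGroup A] [NormedSpace ℂ A] {U : Set A}
  {E : Type} [NormedAddCommGroup E] [NormedSpace ℂ E]

theorem Ax.comp [CompleteSpace E] {E' : Type} [NormedAddCommGroup E'] [NormedSpace ℂ E']
    {π : ℤ → E → Matrix ι ι ℂ} {f : E' → E} {a : E'} (h : Ax w π (f a)) (hf : AnalyticAt ℂ f a) :
    Ax w (fun p a' => π p (f a')) a := by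
  refine ⟨fun p => (h.1 p).comp hf.contDiffAt, fun η => ?_⟩
  have e : derM (-I) η (gr (wt w) fun p a' => π p (f a')) a =
      derM (-I) (fderiv ℂ f a η) (gr (wt w) π) (f a) :=
    derM_comp_holo (sm_gr h.1) hf.differentiableAt
  rw [e]
  exact h.2 _

theorem Ax.congr {π π' : ℤ → E → Matrix ι ι ℂ} {a : E} (h : Ax w π a)
    (e : ∀ᶠ a' in 𝓝 a, ∀ p, π' p a' = π p a') : Ax w π' a := by
  have e1 : gr (wt w) π' =ᶠ[𝓝 a] gr (wt w) π := e.mono fun _ hy => by simp only [gr, hy]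
  refine ⟨fun p => (h.1 p).congr (e.mono fun _ hy => hy p), fun ξ => ?_⟩
  rw [derM_congr e1, e1.self_of_nhds]
  exact h.2 ξ

theorem Ax.gauge {π : ℤ → E → Matrix ι ι ℂ} {a : E} (h : Ax w π a) {g g' : Matrix ι ι ℂ}
    (e : g' * g = 1) : Ax w (fun p a' => g * π p a' * g') a := by
  have e1 : (gr (wt w) fun p a' => g * π p a' * g') = fun a' => g * gr (wt w) π a' * g' := by
    funext a'
    simp only [gr, Matrix.mul_sum, Matrix.sum_mul, Matrix.mul_smul, Matrix.smul_mul]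
  refine ⟨fun p => ((smM_const _).mul (h.1 p)).mul (smM_const _), fun ξ => ?_⟩
  rw [e1, derM_mul_const ((smM_const _).mul (sm_gr h.1)), derM_const_mul _ (sm_gr h.1)]
  have k : ∀ X Y : Matrix ι ι ℂ, g * X * g' * (g * Y * g') = g * (X * Y) * g' := fun X Y => by
    calc g * X * g' * (g * Y * g') = g * X * (g' * g) * Y * g' := by simp only [Matrix.mul_assoc]
      _ = _ := by rw [e, Matrix.mul_one, Matrix.mul_assoc g]
  beta_reduce
  rw [k, k, ← Matrix.sub_mul, ← Matrix.mul_sub, h.2 ξ]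

/-- the pairing is constant in a flat frame -/
theorem VHS.psi_fr (V : VHS A U ι w) {φ : E → A} {O : Set E} (hO : IsPreconnected O)
    (hc : ContinuousOn φ O) (hm : Set.MapsTo φ O U) {k : E → GL ι ℤ}
    (hk : IsFr O (fun a a' => V.κ (φ a) (φ a')) k) {a a' : E} (ha : a ∈ O) (ha' : a' ∈ O) :
    (cx (k a)⁻¹)ᴴ * V.ψ (φ a) * cx (k a)⁻¹ = (cx (k a')⁻¹)ᴴ * V.ψ (φ a') * cx (k a')⁻¹ := by
  refine hO.induction₂ (fun a a' => (cx (k a)⁻¹)ᴴ * V.ψ (φ a) * cx (k a)⁻¹ =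
    (cx (k a')⁻¹)ᴴ * V.ψ (φ a') * cx (k a')⁻¹) (fun y hy => ?_)
    (fun _ _ _ _ _ _ h1 h2 => h1.trans h2) (fun _ _ _ _ h => h.symm) ha ha'
  filter_upwards [hk y hy, ((hc y hy).tendsto_nhdsWithin hm).eventually (V.flat _ (hm hy))]
    with y' h1 h2
  rw [h1, h2, _root_.mul_inv_rev, cx_mul, conjTranspose_mul]
  generalize V.κ (φ y) (φ y') = g
  have e1 : cx g * cx g⁻¹ = 1 := cx_mul_inv g
  have e2 : (cx g⁻¹)ᴴ * (cx g)ᴴ = 1 := by rw [← conjTranspose_mul, e1, conjTranspose_one]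
  calc _ = (cx (k y)⁻¹)ᴴ * ((cx g⁻¹)ᴴ * (cx g)ᴴ) * V.ψ (φ y) * (cx g * cx g⁻¹) * cx (k y)⁻¹ := by
        rw [e1, e2, Matrix.mul_one, Matrix.mul_one]
    _ = _ := by simp only [Matrix.mul_assoc]

theorem lv_of_ax {O : Set E} (hO : IsOpen O) {Q : Matrix ι ι ℂ} {π : ℤ → E → Matrix ι ι ℂ}
    (h1 : ∀ a ∈ O, Ax w π a) (h2 : ∀ a ∈ O, PHS w Q fun p => π p a) : LV O Q (wt w) π :=   ⟨hO, fun p a ha => (h1 a ha).1 p, fun a ha => (h2 a ha).prj, fun a ha => (h2 a ha).adj,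
    fun a ha => (h2 a ha).pos, fun a ha => (h1 a ha).2⟩

/-- a variation in a flat frame -/
theorem VHS.lv (V : VHS A U ι w) {φ : E → A} {O : Set E} (hO : IsOpen O)
    (hp : ∀ a ∈ O, AnalyticAt ℂ φ a) (hm : Set.MapsTo φ O U) {k : E → GL ι ℤ}
    (hk : IsFr O (fun a a' => V.κ (φ a) (φ a')) k) {Q : Matrix ι ι ℂ}
    (hQ : ∀ a ∈ O, Q = (cx (k a)⁻¹)ᴴ * V.ψ (φ a) * cx (k a)⁻¹) :
    LV O Q (wt w) fun p a => cx (k a) * V.π p (φ a) * cx (k a)⁻¹ := by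
  refine lv_of_ax hO (fun a ha => ?_) fun a ha => ?_
  · refine ((V.ax E φ a ⟨hp a ha, eventually_of_mem (hO.mem_nhds ha) fun _ h => hm h⟩).gauge
      (cx_inv_mul (k a))).congr ?_
    filter_upwards [ev_within hO ha (hk a ha)] with a' h p
    rw [h, _root_.mul_inv_rev, cx_mul, cx_mul]
    simp only [Matrix.mul_assoc]
  · rw [hQ a ha]
    exact (V.phs _ (hm ha)).gauge (cx_mul_inv (k a))

theorem VHS.H_pos (V : VHS A U ι w) {y : A} (hy : y ∈ U) : (V.H y).PosDef := (V.phs y hy).pos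

end

namespace VHS

variable {Ω : Set ℂ} {V : VHS ℂ Ω ι w} {e e' : ℂ → ι → ℂ} {α β : Form ι}

/-- a small disc with the flat frame of its centre -/
theorem exists_lv (V : VHS ℂ Ω ι w) (hΩ : IsOpen Ω) {x : ℂ} (hx : x ∈ Ω) :
    ∃ r > 0, ball x r ⊆ Ω ∧ IsFr (ball x r) V.κ (V.κ x) ∧
      (∀ y ∈ ball x r, V.ψ y = (cx (V.κ x y))ᴴ * V.ψ x * cx (V.κ x y)) ∧
      LV (ball x r) (V.ψ x) (wt w) fun p y => cx (V.κ x y) * V.π p y * cx (V.κ x y)⁻¹ := by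
  obtain ⟨N, hN, hxN, hk⟩ := V.germ.exists_fr hx
  obtain ⟨r, hr, hb⟩ := Metric.isOpen_iff.1 (hN.inter hΩ) x ⟨hxN, hx⟩
  have hs : ball x r ⊆ Ω := fun _ h => (hb h).2
  have hk' : IsFr (ball x r) V.κ (V.κ x) := hk.mono hb
  have hQ : ∀ y ∈ ball x r, V.ψ x = (cx (V.κ x y)⁻¹)ᴴ * V.ψ y * cx (V.κ x y)⁻¹ := fun y hy => by
    have := V.psi_fr (φ := fun a => a) (convex_ball x r).isPreconnected continuousOn_id hs hk'
      (mem_ball_self hr) hy
    rwa [V.germ.self x hx, inv_one, cx_one, conjTranspose_one, Matrix.one_mul,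
      Matrix.mul_one] at this
  refine ⟨r, hr, hs, hk', fun y hy => ?_,
    V.lv (φ := fun a => a) isOpen_ball (fun _ _ => analyticAt_id) hs hk' hQ⟩
  rw [hQ y hy]
  generalize V.κ x y = g
  have e1 : cx g⁻¹ * cx g = 1 := cx_inv_mul g
  have e2 : (cx g)ᴴ * (cx g⁻¹)ᴴ = 1 := by rw [← conjTranspose_mul, e1, conjTranspose_one]
  calc _ = ((cx g)ᴴ * (cx g⁻¹)ᴴ) * V.ψ y * (cx g⁻¹ * cx g) := by
        rw [e1, e2, Matrix.mul_one, Matrix.one_mul]
    _ = _ := by simp only [Matrix.mul_assoc]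

theorem loc_self (V : VHS ℂ Ω ι w) (e : ℂ → ι → ℂ) {x : ℂ} (hx : x ∈ Ω) : V.loc e x x = e x := by
  rw [loc, V.germ.self x hx, cx_one, one_mulVec]

theorem fr_loc (V : VHS ℂ Ω ι w) (e : ℂ → ι → ℂ) {O : Set ℂ} (hO : IsOpen O) {k : ℂ → GL ι ℤ}
    (hk : IsFr O V.κ k) {x : ℂ} (hx : x ∈ O) :
    (fun y => cx (k y) *ᵥ e y) =ᶠ[𝓝 x] fun y => cx (k x) *ᵥ V.loc e x y := by
  filter_upwards [ev_within hO hx (hk x hx)] with y h
  rw [h, cx_mul, loc, mulVec_mulVec]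

theorem SmS.fr (h : V.SmS e) {O : Set ℂ} (hO : IsOpen O) (hs : O ⊆ Ω) {k : ℂ → GL ι ℤ}
    (hk : IsFr O V.κ k) {x : ℂ} (hx : x ∈ O) :
    SmV (fun y => cx (k y) *ᵥ e y) x ∧
      dV (fun y => cx (k y) *ᵥ e y) x = two (cx (k x)) *ᵥ V.D e x :=   ⟨smV_congr (smV_mulVec (smM_const _) (h x (hs hx))) (V.fr_loc e hO hk hx),
    (dV_congr (V.fr_loc e hO hk hx)).trans (dV_mulVec _ (h x (hs hx)))⟩

theorem smS_of_fr {x : ℂ} {O : Set ℂ} (hO : IsOpen O) (hs : O ⊆ Ω) {k : ℂ → GL ι ℤ}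
    (hk : IsFr O V.κ k) (hx : x ∈ O) (h : SmV (fun y => cx (k y) *ᵥ e y) x) :
    SmV (V.loc e x) x := by
  have _ := hs
  refine smV_congr (smV_mulVec (smM_const (cx (k x)⁻¹)) h) ?_
  filter_upwards [V.fr_loc e hO hk hx] with y hy
  rw [hy, mulVec_mulVec, cx_inv_mul, one_mulVec]

theorem Closed.fr (h : V.Closed α) {O : Set ℂ} (hO : IsOpen O) (hs : O ⊆ Ω) {k : ℂ → GL ι ℤ}
    (hk : IsFr O V.κ k) {x : ℂ} (hx : x ∈ O) :
    SmV (f1 fun y => two (cx (k y)) *ᵥ α y) x ∧ SmV (f2 fun y => two (cx (k y)) *ᵥ α y) x ∧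
      derV I 1 (f1 fun y => two (cx (k y)) *ᵥ α y) x =
        derV (-I) 1 (f2 fun y => two (cx (k y)) *ᵥ α y) x := by
  rw [f1_two, f2_two]
  refine ⟨(h.1.1.fr hO hs hk hx).1, (h.1.2.fr hO hs hk hx).1, ?_⟩
  rw [derV_congr (V.fr_loc _ hO hk hx), derV_congr (V.fr_loc _ hO hk hx),
    derV_mulVec _ (h.1.1 x (hs hx)), derV_mulVec _ (h.1.2 x (hs hx)), h.2 x (hs hx)]

theorem loc_congr (V : VHS ℂ Ω ι w) {x : ℂ} (he : e' =ᶠ[𝓝 x] e) : V.loc e' x =ᶠ[𝓝 x] V.loc e x :=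
  he.mono fun _ hy => by simp only [loc, hy]

theorem loc_zero (V : VHS ℂ Ω ι w) (x : ℂ) : V.loc 0 x = fun _ => 0 := by
  funext y
  simp [loc]

theorem loc_add (V : VHS ℂ Ω ι w) (e e' : ℂ → ι → ℂ) (x : ℂ) :
    V.loc (e + e') x = fun y => V.loc e x y + V.loc e' x y := by
  funext y
  simp only [loc, Pi.add_apply, mulVec_add]

theorem loc_sub (V : VHS ℂ Ω ι w) (e e' : ℂ → ι → ℂ) (x : ℂ) :
    V.loc (e - e') x = fun y => V.loc e x y - V.loc e' x y := by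
  funext y
  simp only [loc, Pi.sub_apply, mulVec_sub]

theorem loc_fmul (V : VHS ℂ Ω ι w) (f : ℂ → ℂ) (e : ℂ → ι → ℂ) (x : ℂ) :
    V.loc (fun x => f x • e x) x = fun y => f y • V.loc e x y := by
  funext y
  simp only [loc, mulVec_smul]

theorem loc_smul (V : VHS ℂ Ω ι w) (c : ℂ) (e : ℂ → ι → ℂ) (x : ℂ) :
    V.loc (c • e) x = fun y => c • V.loc e x y := V.loc_fmul (fun _ => c) e x

theorem loc_ed (hΩ : IsOpen Ω) (e : ℂ → ι → ℂ) {ε : ℂ → Matrix ι ι ℂ} (hε : V.End ε) {x : ℂ}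
    (hx : x ∈ Ω) : V.loc (fun x => ε x *ᵥ e x) x =ᶠ[𝓝 x] fun y => ε x *ᵥ V.loc e x y := by
  filter_upwards [ev_within hΩ hx (hε.flat x hx)] with y hy
  simp only [loc, mulVec_mulVec, hy]

theorem SmS.mat (h : V.SmS e) {M : ℂ → Matrix ι ι ℂ}
    (hM : ∀ x ∈ Ω, SmM (fun y => cx (V.κ x y) * M y * cx (V.κ x y)⁻¹) x) :
    V.SmS fun x => M x *ᵥ e x := fun x hx => by
  refine smV_congr (smV_mulVec (hM x hx) (h x hx)) (Eventually.of_forall fun y => ?_)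
  simp only [loc, mulVec_mulVec, Matrix.mul_assoc, cx_inv_mul, Matrix.mul_one]

theorem sm_prj (V : VHS ℂ Ω ι w) (hΩ : IsOpen Ω) (p : ℤ) {x : ℂ} (hx : x ∈ Ω) :
    SmM (fun y => cx (V.κ x y) * V.π p y * cx (V.κ x y)⁻¹) x :=
  (V.ax ℂ (fun a => a) x ⟨analyticAt_id, hΩ.mem_nhds hx⟩).1 p

theorem SmS.wey (hΩ : IsOpen Ω) (h : V.SmS e) :
    V.SmS fun x => weyP w (fun p => V.π p x) *ᵥ e x := h.mat fun x hx => by
  simp only [weyP, Matrix.mul_sum, Matrix.sum_mul, Matrix.mul_smul, Matrix.smul_mul]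
  exact SmM.sum _ fun p _ => (V.sm_prj hΩ p hx).csmul _

theorem SmS.congr (hΩ : IsOpen Ω) (h : V.SmS e) (he : ∀ x ∈ Ω, e' x = e x) : V.SmS e' :=   fun x hx => smV_congr (h x hx) (V.loc_congr (eventually_of_mem (hΩ.mem_nhds hx) he))

theorem D_congr (hΩ : IsOpen Ω) (he : ∀ x ∈ Ω, e' x = e x) : ∀ x ∈ Ω, V.D e' x = V.D e x :=   fun _ hx => dV_congr (V.loc_congr (eventually_of_mem (hΩ.mem_nhds hx) he))

theorem D_congr_ev {x : ℂ} (he : e' =ᶠ[𝓝 x] e) : V.D e' x = V.D e x := dV_congr (V.loc_congr he)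

theorem smS_zero : V.SmS 0 := fun x _ => by
  rw [loc_zero]
  exact smV_const _

theorem SmS.add (h : V.SmS e) (h' : V.SmS e') : V.SmS (e + e') := fun x hx => by
  rw [loc_add]
  exact smV_add (h x hx) (h' x hx)

theorem SmS.sub (h : V.SmS e) (h' : V.SmS e') : V.SmS (e - e') := fun x hx => by
  rw [loc_sub]
  exact smV_sub (h x hx) (h' x hx)

theorem SmS.smul (h : V.SmS e) (c : ℂ) : V.SmS (c • e) := fun x hx => by
  rw [loc_smul]
  exact smV_fmul contDiffAt_const (h x hx)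

theorem SmS.fmul (h : V.SmS e) {f : ℂ → ℂ} (hf : ∀ x ∈ Ω, Sm f x) : V.SmS fun x => f x • e x :=
  fun x hx => by
  rw [loc_fmul]
  exact smV_fmul (hf x hx) (h x hx)

theorem SmS.prj (hΩ : IsOpen Ω) (h : V.SmS e) (p : ℤ) : V.SmS fun x => V.π p x *ᵥ e x :=   h.mat fun _ hx => V.sm_prj hΩ p hx

theorem SmS.ed (hΩ : IsOpen Ω) (h : V.SmS e) {ε : ℂ → Matrix ι ι ℂ} (hε : V.End ε) :
    V.SmS fun x => ε x *ᵥ e x := fun x hx =>
  smV_congr (smV_mulVec (smM_const _) (h x hx)) (loc_ed hΩ e hε hx)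

theorem D_zero (x : ℂ) : V.D 0 x = 0 := by
  simp only [D, loc_zero, dV, derV_const]
  exact Sum.elim_zero_zero

theorem D_add (h : V.SmS e) (h' : V.SmS e') : ∀ x ∈ Ω, V.D (e + e') x = V.D e x + V.D e' x :=   fun x hx => by
  simp only [D, loc_add, dV, derV_add (h x hx) (h' x hx)]
  funext i
  cases i <;> rfl

theorem D_sub (h : V.SmS e) (h' : V.SmS e') : ∀ x ∈ Ω, V.D (e - e') x = V.D e x - V.D e' x :=   fun x hx => by
  simp only [D, loc_sub, dV, derV_sub (h x hx) (h' x hx)]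
  funext i
  cases i <;> rfl

theorem D_smul (h : V.SmS e) (c : ℂ) : ∀ x ∈ Ω, V.D (c • e) x = c • V.D e x := fun x hx => by
  simp only [D, loc_smul, dV, derV_csmul c (h x hx)]
  funext i
  cases i <;> rfl

theorem D_fmul (h : V.SmS e) {f : ℂ → ℂ} (hf : ∀ x ∈ Ω, Sm f x) : ∀ x ∈ Ω,
    V.D (fun x => f x • e x) x =
      f x • V.D e x + Sum.elim (der (-I) 1 f x • e x) (der I 1 f x • e x) := fun x hx => by
  simp only [D, loc_fmul, dV, derV_fmul (hf x hx) (h x hx), V.loc_self e hx]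
  funext i
  cases i <;> rfl

theorem D_ed (hΩ : IsOpen Ω) (h : V.SmS e) {ε : ℂ → Matrix ι ι ℂ} (hε : V.End ε) : ∀ x ∈ Ω,
    V.D (fun x => ε x *ᵥ e x) x = two (ε x) *ᵥ V.D e x := fun x hx =>
  (dV_congr (loc_ed hΩ e hε hx)).trans (dV_mulVec _ (h x hx))

theorem SmS.ev_loc (hΩ : IsOpen Ω) (h : V.SmS e) {x : ℂ} (hx : x ∈ Ω) :
    ∀ᶠ y in 𝓝 x, SmV (V.loc e x) y ∧ dV (V.loc e x) y = two (cx (V.κ x y)) *ᵥ V.D e y := by
  obtain ⟨N, hN, hxN, hk⟩ := V.germ.exists_fr hx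
  filter_upwards [(hN.inter hΩ).mem_nhds ⟨hxN, hx⟩] with y hy
  exact h.fr (hN.inter hΩ) Set.inter_subset_right hk hy

theorem SmS.closed (hΩ : IsOpen Ω) (h : V.SmS e) : V.Closed (V.D e) := by
  have e1 : ∀ x ∈ Ω, V.loc (f1 (V.D e)) x =ᶠ[𝓝 x] derV (-I) 1 (V.loc e x) := fun x hx => by
    filter_upwards [h.ev_loc hΩ hx] with y hy
    funext i
    have := congrFun hy.2 (Sum.inl i)
    rw [two_mulVec] at this
    exact this.symm
  have e2 : ∀ x ∈ Ω, V.loc (f2 (V.D e)) x =ᶠ[𝓝 x] derV I 1 (V.loc e x) := fun x hx => by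
    filter_upwards [h.ev_loc hΩ hx] with y hy
    funext i
    have := congrFun hy.2 (Sum.inr i)
    rw [two_mulVec] at this
    exact this.symm
  refine ⟨⟨fun x hx => smV_congr (smV_der (h x hx) _ _) (e1 x hx),
    fun x hx => smV_congr (smV_der (h x hx) _ _) (e2 x hx)⟩, fun x hx => ?_⟩
  rw [derV_congr (e1 x hx), derV_congr (e2 x hx), derV_comm (h x hx)]

theorem SmF.congr (hΩ : IsOpen Ω) (h : V.SmF α) (he : ∀ x ∈ Ω, β x = α x) : V.SmF β :=   ⟨h.1.congr hΩ fun x hx => funext fun _ => congrFun (he x hx) _,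
    h.2.congr hΩ fun x hx => funext fun _ => congrFun (he x hx) _⟩

theorem smF_zero : V.SmF 0 := ⟨smS_zero, smS_zero⟩

theorem SmF.add (h : V.SmF α) (h' : V.SmF β) : V.SmF (α + β) := ⟨h.1.add h'.1, h.2.add h'.2⟩

theorem SmF.sub (h : V.SmF α) (h' : V.SmF β) : V.SmF (α - β) := ⟨h.1.sub h'.1, h.2.sub h'.2⟩

theorem SmF.smul (h : V.SmF α) (c : ℂ) : V.SmF (c • α) := ⟨h.1.smul c, h.2.smul c⟩

theorem SmF.pF (hΩ : IsOpen Ω) (h : V.SmF α) (p : ℤ) : V.SmF (V.pF p α) := by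
  constructor
  · exact f1_blocks (V.π (p - 1)) (V.π p) α ▸ h.1.prj hΩ (p - 1)
  · exact f2_blocks (V.π (p - 1)) (V.π p) α ▸ h.2.prj hΩ p

theorem SmF.cF (hΩ : IsOpen Ω) (h : V.SmF α) : V.SmF (V.cF α) := by
  have k : V.SmF fun y => fromBlocks (-weyP w fun p => V.π p y) 0 0 (weyP w fun p => V.π p y) *ᵥ
      α y := by
    constructor
    · rw [f1_blocks]
      exact ((h.1.wey hΩ).smul (-1)).congr hΩ fun x _ => by simp [neg_mulVec]
    · rw [f2_blocks]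
      exact h.2.wey hΩ
  exact k.congr hΩ fun x hx => by simp only [VHS.cF, mulF, weyP_prj1 (V.phs x hx).prj]

theorem cF_cF (α : Form ι) : ∀ x ∈ Ω, V.cF (V.cF α) x = α x := fun x hx => by
  simp only [VHS.cF, mulF, mulVec_mulVec, (V.phs x hx).one.wey_sq, one_mulVec]

theorem Closed.congr (hΩ : IsOpen Ω) (h : V.Closed α) (he : ∀ x ∈ Ω, β x = α x) : V.Closed β :=
  by
  refine ⟨h.1.congr hΩ he, fun x hx => ?_⟩
  have ev : ∀ᶠ y in 𝓝 x, β y = α y := eventually_of_mem (hΩ.mem_nhds hx) he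
  rw [derV_congr (V.loc_congr (e' := f1 β) (e := f1 α)
      (ev.mono fun y hy => funext fun _ => congrFun hy _)),
    derV_congr (V.loc_congr (e' := f2 β) (e := f2 α)
      (ev.mono fun y hy => funext fun _ => congrFun hy _)),
    h.2 x hx]

theorem closed_zero : V.Closed 0 := ⟨smF_zero, fun x _ => by
  show derV I 1 (V.loc 0 x) x = derV (-I) 1 (V.loc 0 x) x
  rw [loc_zero, derV_const, derV_const]⟩

theorem Closed.add (h : V.Closed α) (h' : V.Closed β) : V.Closed (α + β) :=   ⟨h.1.add h'.1, fun x hx => by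
    show derV I 1 (V.loc (f1 α + f1 β) x) x = derV (-I) 1 (V.loc (f2 α + f2 β) x) x
    rw [loc_add, loc_add, derV_add (h.1.1 x hx) (h'.1.1 x hx), derV_add (h.1.2 x hx) (h'.1.2 x hx),
      h.2 x hx, h'.2 x hx]⟩

theorem Closed.sub (h : V.Closed α) (h' : V.Closed β) : V.Closed (α - β) :=   ⟨h.1.sub h'.1, fun x hx => by
    show derV I 1 (V.loc (f1 α - f1 β) x) x = derV (-I) 1 (V.loc (f2 α - f2 β) x) x
    rw [loc_sub, loc_sub, derV_sub (h.1.1 x hx) (h'.1.1 x hx), derV_sub (h.1.2 x hx) (h'.1.2 x hx),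
      h.2 x hx, h'.2 x hx]⟩

theorem Closed.smul (h : V.Closed α) (c : ℂ) : V.Closed (c • α) :=   ⟨h.1.smul c, fun x hx => by
    show derV I 1 (V.loc (c • f1 α) x) x = derV (-I) 1 (V.loc (c • f2 α) x) x
    rw [loc_smul, loc_smul, derV_csmul c (h.1.1 x hx), derV_csmul c (h.1.2 x hx), h.2 x hx]⟩

theorem Closed.sum {J : Type} (s : Finset J) {α : J → Form ι} (h : ∀ j ∈ s, V.Closed (α j))
    (c : J → ℂ) : V.Closed (∑ j ∈ s, c j • α j) :=   Finset.sum_induction _ V.Closed (fun _ _ => Closed.add) closed_zero fun j hj => (h j hj).smul _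

theorem Closed.ed (hΩ : IsOpen Ω) (h : V.Closed α) {ε : ℂ → Matrix ι ι ℂ} (hε : V.End ε) :
    V.Closed (mulF (fun x => two (ε x)) α) := by
  have e1 : f1 (mulF (fun x => two (ε x)) α) = fun y => ε y *ᵥ f1 α y := f1_two ε α
  have e2 : f2 (mulF (fun x => two (ε x)) α) = fun y => ε y *ᵥ f2 α y := f2_two ε α
  refine ⟨⟨e1 ▸ h.1.1.ed hΩ hε, e2 ▸ h.1.2.ed hΩ hε⟩, fun x hx => ?_⟩
  rw [e1, e2, derV_congr (loc_ed hΩ _ hε hx), derV_congr (loc_ed hΩ _ hε hx),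
    derV_mulVec _ (h.1.1 x hx), derV_mulVec _ (h.1.2 x hx), h.2 x hx]

theorem Exact.closed (hΩ : IsOpen Ω) (h : V.Exact α) : V.Closed α :=   let ⟨_, h1, h2⟩ := h
  (h1.closed hΩ).congr hΩ fun x hx => (h2 x hx).symm

theorem Exact.congr (h : V.Exact α) (he : ∀ x ∈ Ω, β x = α x) : V.Exact β :=   let ⟨e, h1, h2⟩ := h
  ⟨e, h1, fun x hx => (h2 x hx).trans (he x hx).symm⟩

theorem exact_zero : V.Exact 0 := ⟨0, smS_zero, fun x _ => D_zero x⟩

theorem Exact.add (h : V.Exact α) (h' : V.Exact β) : V.Exact (α + β) :=   let ⟨e, h1, h2⟩ := h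
  let ⟨e', h3, h4⟩ := h'
  ⟨e + e', h1.add h3, fun x hx => by rw [D_add h1 h3 x hx, h2 x hx, h4 x hx, Pi.add_apply]⟩

theorem Exact.sub (h : V.Exact α) (h' : V.Exact β) : V.Exact (α - β) :=   let ⟨e, h1, h2⟩ := h
  let ⟨e', h3, h4⟩ := h'
  ⟨e - e', h1.sub h3, fun x hx => by rw [D_sub h1 h3 x hx, h2 x hx, h4 x hx, Pi.sub_apply]⟩

theorem Exact.smul (h : V.Exact α) (c : ℂ) : V.Exact (c • α) :=   let ⟨e, h1, h2⟩ := h
  ⟨c • e, h1.smul c, fun x hx => by rw [D_smul h1 c x hx, h2 x hx, Pi.smul_apply]⟩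

theorem Exact.sum {J : Type} (s : Finset J) {α : J → Form ι} (h : ∀ j ∈ s, V.Exact (α j))
    (c : J → ℂ) : V.Exact (∑ j ∈ s, c j • α j) :=   Finset.sum_induction _ V.Exact (fun _ _ => Exact.add) exact_zero fun j hj => (h j hj).smul _

theorem exact_iff (hΩ : IsOpen Ω) : V.Exact α ↔ V.PrimMod ⊥ α := by
  constructor
  · rintro ⟨e, h1, h2⟩
    refine ⟨e, fun x hx => ⟨V.loc e x, ?_⟩⟩
    filter_upwards [h1.ev_loc hΩ hx, hΩ.mem_nhds hx] with y hy hyΩ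
    exact ⟨hy.1, by rw [hy.2, h2 y hyΩ], fun i => by simp⟩
  · rintro ⟨b, hb⟩
    have k : ∀ x ∈ Ω, SmV (V.loc b x) x ∧ V.D b x = α x := fun x hx => by
      obtain ⟨β, hβ⟩ := hb x hx
      have ev : V.loc b x =ᶠ[𝓝 x] β := hβ.mono fun y hy =>
        funext fun i => (sub_eq_zero.1 (AddSubgroup.mem_bot.1 (hy.2.2 i))).symm
      refine ⟨smV_congr hβ.self_of_nhds.1 ev, (dV_congr ev).trans ?_⟩
      rw [hβ.self_of_nhds.2.1, V.germ.self x hx, cx_one, two_one, one_mulVec]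
    exact ⟨b, fun x hx => (k x hx).1, fun x hx => (k x hx).2⟩

end VHS

theorem Cpt.add {F : Type} [AddZeroClass F] {Ω : Set ℂ} {e e' : ℂ → F} (h : Cpt Ω e)
    (h' : Cpt Ω e') : Cpt Ω (e + e') :=   let ⟨K, h1, h2, h3⟩ := h
  let ⟨K', h4, h5, h6⟩ := h'
  ⟨K ∪ K', Set.union_subset h1 h4, h2.union h5, fun x hx hn => by
    rw [Pi.add_apply, h3 x hx fun c => hn (Or.inl c), h6 x hx fun c => hn (Or.inr c), add_zero]⟩

theorem Cpt.of_zero {F F' : Type} [Zero F] [Zero F'] {Ω : Set ℂ} {e : ℂ → F} {e' : ℂ → F'}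
    (h : Cpt Ω e) (h' : ∀ x ∈ Ω, e x = 0 → e' x = 0) : Cpt Ω e' :=   let ⟨K, h1, h2, h3⟩ := h
  ⟨K, h1, h2, fun x hx hn => h' x hx (h3 x hx hn)⟩

theorem Cpt.sum {F J : Type} [AddCommMonoid F] [Module ℂ F] {Ω : Set ℂ} (s : Finset J)
    {e : J → ℂ → F} (h : ∀ j ∈ s, Cpt Ω (e j)) (c : J → ℂ) : Cpt Ω (∑ j ∈ s, c j • e j) :=   Finset.sum_induction _ (Cpt Ω) (fun _ _ => Cpt.add)
    ⟨∅, Set.empty_subset _, isCompact_empty, fun _ _ _ => rfl⟩
    fun j hj => (h j hj).of_zero fun x _ e => by rw [Pi.smul_apply, e, smul_zero]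

theorem Cpt.D {Ω : Set ℂ} (hΩ : IsOpen Ω) {V : VHS ℂ Ω ι w} {e : ℂ → ι → ℂ} (h : Cpt Ω e) :
    Cpt Ω (V.D e) :=   let ⟨K, h1, h2, h3⟩ := h
  ⟨K, h1, h2, fun x hx hn => (VHS.D_congr_ev (e := 0) (by
    filter_upwards [hΩ.mem_nhds hx, h2.isClosed.isOpen_compl.mem_nhds hn] with y hy hy'
    exact h3 y hy hy')).trans (VHS.D_zero x)⟩

end

end Pool.Agent.Lib.MP_5c318e_ag.V
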