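import Pool.Agent.Lib.MP_9ff3e7_ag.F.Osg

/-! The mean value inequality for a Haar measure, and integrals with a holomorphic parameter. -/

set_option autoImplicit false

namespace Pool.Agent.Lib.MP_5c318e_ag.V

open Filter Topology MeasureTheory Complex Metric
open scoped ContDiff
open Pool.Agent.Lib.MP_9ff3e7_ag

variable {E : Type} [NormedAddCommGroup E] [NormedSpace ℂ E] [FiniteDimensional ℂ E]

section Haar

variable [MeasurableSpace E] [BorelSpace E] (μ : Measure E) [μ.IsAddHaarMeasure]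

theorem FamDn_rot0 {c : ℂ} (hc : ‖c‖ = 1) : MeasurePreserving (fun y : E => c • y) μ μ := by
  have : ProperSpace E := FiniteDimensional.proper ℂ E
  have c0 : c ≠ 0 := fun h => by simp [h] at hc
  let f : E ≃ₗ[ℝ] E := (LinearEquiv.smulOfNeZero ℂ E c c0).restrictScalars ℝ
  have hf : ∀ y, (f : E →ₗ[ℝ] E) y = c • y := fun _ => rfl
  have hm : Measurable (fun y : E => c • y) := (continuous_const_smul c).measurable
  have e := Measure.map_linearMap_addHaar_eq_smul_addHaar μ (f := (f : E →ₗ[ℝ] E))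
    f.isUnit_det'.ne_zero
  have e' : (fun y : E => c • y) = (f : E →ₗ[ℝ] E) := funext fun y => (hf y).symm
  refine ⟨hm, ?_⟩
  have h1 : Measure.map (fun y : E => c • y) μ (ball 0 1) = μ (ball 0 1) := by
    rw [Measure.map_apply hm measurableSet_ball]
    congr 1
    ext y
    simp [norm_smul, hc]
  rw [e', e] at h1 ⊢
  rw [Measure.smul_apply, smul_eq_mul] at h1
  have h2 := (ENNReal.mul_left_inj (measure_ball_pos μ (0 : E) one_pos).ne'
    measure_ball_lt_top.ne).1 (h1.trans (one_mul _).symm)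
  rw [h2, one_smul]

theorem FamDn_rot (x : E) {c : ℂ} (hc : ‖c‖ = 1) :
    MeasurePreserving (fun y : E => x + c • y) μ μ :=
  (measurePreserving_add_left μ x).comp (FamDn_rot0 μ hc)

/-- the mean value inequality on a ball -/
theorem FamDn_submean {G : E → ℂ} {x : E} {r : ℝ} (hF : DifferentiableOn ℂ G (ball x r)) :
    ENNReal.ofReal (‖G x‖ ^ 2) * μ (ball (0 : E) r) ≤
      ∫⁻ y in ball x r, ENNReal.ofReal (‖G y‖ ^ 2) ∂μ := by
  classical
  have : ProperSpace E := FiniteDimensional.proper ℂ E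
  let g := (ball x r).indicator fun y => ENNReal.ofReal (‖G y‖ ^ 2)
  have gm : Measurable g :=
    ContinuousOn.measurable_piecewise (ENNReal.continuous_ofReal.comp_continuousOn
      (hF.continuousOn.norm.pow 2)) continuousOn_const measurableSet_ball
  have key : ∀ y ∈ ball (0 : E) r, ENNReal.ofReal (‖G x‖ ^ 2) ≤
      ∫⁻ t : F.Osg.Tc, g (x + fourier 1 t • y) ∂AddCircle.haarAddCircle := fun y hy => by
    have m : ∀ a : ℂ, ‖a‖ ≤ 1 → x + a • y ∈ ball x r := fun a ha => by
      rw [add_mem_ball_iff_norm, norm_smul]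
      exact (mul_le_of_le_one_left (norm_nonneg _) ha).trans_lt (mem_ball_zero_iff.1 hy)
    have d : DifferentiableOn ℂ (fun a : ℂ => G (x + a • y) ^ 2) (closedBall 0 1) :=
      (hF.comp (by fun_prop) fun a ha => m a (mem_closedBall_zero_iff.1 ha)).pow 2
    have e := DiffContOnCl.circleAverage (c := 0) (R := 1) (f := fun a : ℂ => G (x + a • y) ^ 2)
      (by simpa using (d.mono closure_ball_subset_closedBall).diffContOnCl)
    rw [← F.Osg.avg, zero_smul, add_zero] at e
    rw [← norm_pow, ofReal_norm, ← e]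
    refine (enorm_integral_le_lintegral_enorm _).trans_eq (lintegral_congr fun t => ?_)
    simp only [g]
    rw [Set.indicator_of_mem (m _ (F.Osg.nrm t).le), ← norm_pow, ofReal_norm]
  calc _ = ∫⁻ _ in ball (0 : E) r, ENNReal.ofReal (‖G x‖ ^ 2) ∂μ := (setLIntegral_const _ _).symm
    _ ≤ ∫⁻ y, ∫⁻ t : F.Osg.Tc, g (x + fourier 1 t • y) ∂AddCircle.haarAddCircle ∂μ :=
        (setLIntegral_mono' measurableSet_ball key).trans (setLIntegral_le_lintegral _ _)
    _ = ∫⁻ t : F.Osg.Tc, (∫⁻ y, g (x + fourier 1 t • y) ∂μ) ∂AddCircle.haarAddCircle :=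
        lintegral_lintegral_swap (gm.comp (Continuous.measurable (by fun_prop))).aemeasurable
    _ = ∫⁻ _ : F.Osg.Tc, (∫⁻ y, g y ∂μ) ∂AddCircle.haarAddCircle :=
        lintegral_congr fun t => (FamDn_rot μ x (F.Osg.nrm t)).lintegral_comp gm
    _ = _ := by rw [lintegral_const, measure_univ, mul_one, lintegral_indicator measurableSet_ball]

end Haar

/-- integrals over a compact set with a holomorphic parameter -/
theorem FamDn_param {G : E × ℂ → ℂ} {U : Set E} (hU : IsOpen U) {K : Set ℂ} (hK : IsCompact K)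
    (hs : ∀ a ∈ U, ∀ x ∈ K, ContDiffAt ℝ ∞ G (a, x))
    (hd : ∀ x ∈ K, DifferentiableOn ℂ (fun a => G (a, x)) U) :
    DifferentiableOn ℂ (fun a => ∫ x in K, G (a, x)) U := by
  have : ProperSpace E := FiniteDimensional.proper ℂ E
  intro a1 h1
  obtain ⟨r, r0, hr⟩ := nhds_basis_closedBall.mem_iff.1 (hU.mem_nhds h1)
  have c1 : ∀ a ∈ U, ∀ x ∈ K, ContinuousAt (fderiv ℝ G) (a, x) := fun a ha x hx =>
    ((hs a ha x hx).fderiv_right (m := 0) (by norm_cast)).continuousAt
  obtain ⟨C, hC⟩ := ((isCompact_closedBall a1 r).prod hK).exists_bound_of_continuousOn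
    (f := fderiv ℝ G) fun p hp => (c1 p.1 (hr hp.1) p.2 hp.2).continuousWithinAt
  have d : ∀ a ∈ U, ∀ x ∈ K, HasFDerivAt (fun a => G (a, x)) (fderiv ℂ (fun a => G (a, x)) a) a :=
    fun a ha x hx => ((hd x hx).differentiableAt (hU.mem_nhds ha)).hasFDerivAt
  have e : ∀ a ∈ U, ∀ x ∈ K, (fderiv ℂ (fun a => G (a, x)) a).restrictScalars ℝ =
      (fderiv ℝ G (a, x)).comp (ContinuousLinearMap.inl ℝ E ℂ) := fun a ha x hx =>
    ((d a ha x hx).restrictScalars ℝ).unique
      (((hs a ha x hx).differentiableAt (by simp)).hasFDerivAt.comp a (hasFDerivAt_prodMk_left a x))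
  have c0 : ∀ a ∈ U, ContinuousOn (fun x => G (a, x)) K := fun a ha x hx =>
    ((hs a ha x hx).continuousAt.comp (f := fun x => (a, x)) (by fun_prop)).continuousWithinAt
  have c2 : ContinuousOn (fun x => fderiv ℂ (fun a => G (a, x)) a1) K := by
    rw [← (ContinuousLinearMap.restrictScalarsIsometry ℂ E ℂ ℝ ℝ).isometry.comp_continuousOn_iff]
    refine ContinuousOn.congr (f := fun x =>
      (fderiv ℝ G (a1, x)).comp (ContinuousLinearMap.inl ℝ E ℂ)) (fun x hx => ?_)
      fun x hx => e a1 h1 x hx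
    exact (((c1 a1 h1 x hx).comp (f := fun x => (a1, x)) (by fun_prop)).clm_comp
      continuousAt_const).continuousWithinAt
  have n := closedBall_mem_nhds a1 r0
  have : IsFiniteMeasure (volume.restrict K) := isFiniteMeasure_restrict.2 hK.measure_lt_top.ne
  have D := hasFDerivAt_integral_of_dominated_of_fderiv_le (𝕜 := ℂ) (μ := volume.restrict K)
    (F := fun a x => G (a, x)) (F' := fun a x => fderiv ℂ (fun a => G (a, x)) a)
    (bound := fun _ => C) n
    (mem_of_superset n fun a ha => (c0 a (hr ha)).aestronglyMeasurable hK.measurableSet)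
    ((c0 a1 h1).integrableOn_compact hK) (c2.aestronglyMeasurable hK.measurableSet)
    ((ae_restrict_mem hK.measurableSet).mono fun x hx a ha => by
      rw [← ContinuousLinearMap.norm_restrictScalars (𝕜' := ℝ), e a (hr ha) x hx]
      refine (ContinuousLinearMap.opNorm_comp_le _ _).trans ?_
      exact (mul_le_of_le_one_right (norm_nonneg _)
        (ContinuousLinearMap.norm_inl_le_one ℝ E ℂ)).trans (hC (a, x) ⟨ha, hx⟩))
    (integrable_const C)
    ((ae_restrict_mem hK.measurableSet).mono fun x hx a ha => d a (hr ha) x hx)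
  exact D.differentiableAt.differentiableWithinAt

end Pool.Agent.Lib.MP_5c318e_ag.V
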