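import Pool.Agent.Lib.MP_5c318e_ag.V.Int
import Pool.Agent.Lib.MP_5c318e_ag.H.Reg

/-! Harmonic forms are graded. -/

set_option autoImplicit false

namespace Pool.Agent.Lib.MP_5c318e_ag.V

open Matrix Filter Topology MeasureTheory Complex Metric
open scoped ComplexOrder ContDiff ComplexConjugate

noncomputable section

variable {ι : Type} [Fintype ι] [DecidableEq ι] {w : ℕ} {Ω : Set ℂ} {V : VHS ℂ Ω ι w}

omit [DecidableEq ι] in
theorem harmP_mulVec {c ξ x : ℂ} {M : ℂ → Matrix ι ι ℂ} {u : ℂ → ι → ℂ} (hM : SmM M x)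
    (hu : SmV u x) : derV c ξ (fun y => M y *ᵥ u y) x =
      derM c ξ M x *ᵥ u x + M x *ᵥ derV c ξ u x := by
  funext i
  simp only [derV, derM, mulVec, dotProduct, Pi.add_apply, Matrix.of_apply]
  rw [der_sum _ fun l _ => (hM i l).diff.fun_mul (hu l).diff, ← Finset.sum_add_distrib]
  exact Finset.sum_congr rfl fun l _ => der_mul (hM i l).diff (hu l).diff

omit [Fintype ι] [DecidableEq ι] in
theorem harmP_congr {c ξ x : ℂ} {u v : ℂ → ι → ℂ} (h : u =ᶠ[𝓝 x] v) :
    derV c ξ u x = derV c ξ v x :=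
  funext fun i => der_congr (h.mono fun _ hy => by simp only [hy])

section

variable {U : Set ℂ} {Q : Matrix ι ι ℂ} {S : Finset ℤ} {π : ℤ → ℂ → Matrix ι ι ℂ} {x : ℂ}

theorem harmP_cancel {h A B : Matrix ι ι ℂ} (u : IsUnit h.det) (e : h * A = h * B) : A = B := by
  have := congrArg (fun X => h⁻¹ * X) e
  simpa only [← Matrix.mul_assoc, Matrix.nonsing_inv_mul _ u, Matrix.one_mul] using this

theorem harmP_dbar_prj (L : LV U Q S π) (hx : x ∈ U) (ξ : ℂ) (p : ℤ) :
    derM I ξ (π p) x = ths (fun x => Q * wey S π x) ξ x * π p x -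
      π p x * ths (fun x => Q * wey S π x) ξ x := by
  have M := L.met
  have e : derM I ξ (fun y => (π p y)ᴴ * (Q * wey S π y)) x =
      derM I ξ (fun y => Q * wey S π y * π p y) x :=
    derM_congr_on L.op hx fun y hy => L.adj_prj hy p
  rw [derM_mul (L.sm p x hx).ct (M.sm x hx), derM_mul (M.sm x hx) (L.sm p x hx),
    dbar_ct (L.sm p x hx), L.d_prj hx, M.dbar_h hx, conjTranspose_sub, conjTranspose_mul,
    conjTranspose_mul] at e
  have a1 := M.adj_th (ξ := ξ) hx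
  have a2 := L.adj_prj hx p
  refine harmP_cancel (M.unit hx) ?_
  generalize th (fun x => Q * wey S π x) ξ x = θ at *
  generalize ths (fun x => Q * wey S π x) ξ x = θ' at *
  generalize Q * wey S π x = h at *
  simp only [two_smul, neg_smul] at e
  linear_combination (norm := noncomm_ring) -e + (π p x)ᴴ * a1 - θᴴ * a2 - a1 * π p x - a2 * θ'

theorem harmP_wey (L : LV U Q S π) (hx : x ∈ U) (ξ : ℂ) :
    derM (-I) ξ (wey S π) x = (-2 : ℂ) • (wey S π x * th (fun x => Q * wey S π x) ξ x) ∧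
      derM I ξ (wey S π) x = (-2 : ℂ) • (wey S π x * ths (fun x => Q * wey S π x) ξ x) := by
  have u : IsUnit Q.det := by
    have := L.met.unit hx
    rw [det_mul] at this
    exact isUnit_of_mul_isUnit_left this
  refine ⟨harmP_cancel u ?_, harmP_cancel u ?_⟩
  · rw [← derM_const_mul Q (L.sm_wey hx), L.met.d_h hx, Matrix.mul_smul, Matrix.mul_assoc]
  · rw [← derM_const_mul Q (L.sm_wey hx), L.met.dbar_h hx, Matrix.mul_smul, Matrix.mul_assoc]

/-- the parts of a closed and coclosed form are closed -/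
theorem harmP_local (L : LV U Q S π) (hx : x ∈ U) {a b : ℂ → ι → ℂ} (ha : SmV a x) (hb : SmV b x)
    (h1 : derV I 1 a x = derV (-I) 1 b x)
    (h2 : derV I 1 (fun y => (-wey S π y) *ᵥ a y) x = derV (-I) 1 (fun y => wey S π y *ᵥ b y) x)
    (p : ℤ) : derV I 1 (fun y => π (p - 1) y *ᵥ a y) x =
      derV (-I) 1 (fun y => π p y *ᵥ b y) x := by
  rw [harmP_mulVec (L.sm_wey hx).neg ha, harmP_mulVec (L.sm_wey hx) hb, derM_neg,
    (harmP_wey L hx 1).1, (harmP_wey L hx 1).2, h1] at h2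
  rw [harmP_mulVec (L.sm _ x hx) ha, harmP_mulVec (L.sm _ x hx) hb, harmP_dbar_prj L hx,
    L.d_prj hx, L.th_shift hx, L.ths_shift hx, sub_add_cancel, h1]
  have h3 := congrArg (fun v => wey S π x *ᵥ v) h2
  generalize th (fun x => Q * wey S π x) 1 x = θ at *
  generalize ths (fun x => Q * wey S π x) 1 x = θ' at *
  simp only [mulVec_add, neg_mulVec, mulVec_neg, smul_mulVec, mulVec_smul, mulVec_mulVec,
    ← Matrix.mul_assoc, L.wey_sq hx, Matrix.one_mul, one_mulVec] at h3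
  have h4 : derV (-I) 1 b x = θ' *ᵥ a x + θ *ᵥ b x := by
    refine smul_right_injective _ (two_ne_zero (α := ℂ)) ?_
    simp only
    linear_combination (norm := module) -h3
  rw [h4]
  simp only [sub_mulVec, mulVec_add, mulVec_mulVec]
  abel

end

theorem harmP_bound {H ε : Matrix ι ι ℂ} (hH : H.PosDef) (a : εᴴ * H = H * ε) (u : ι → ℂ) :
    (qf H (ε *ᵥ u) (ε *ᵥ u)).re ≤ (ε * ε).trace.re * (qf H u u).re := by
  have h := nsq_mul (h₁ := (1 : Matrix Unit Unit ℂ)) PosDef.one hH hH ε (replicateCol Unit u)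
  rw [← replicateCol_mulVec, nsq, nsq, nsq, ip_col, ip_col, ip_adj hH.det_pos.ne'.isUnit a] at h
  exact h

namespace VHS

variable {α β : Form ι}

omit [DecidableEq ι] in
theorem harmP_f1 (M N : ℂ → Matrix ι ι ℂ) (α : Form ι) (x : ℂ) :
    f1 (mulF (fun x => fromBlocks (M x) 0 0 (N x)) α) x = M x *ᵥ f1 α x := by
  funext i
  simp [f1, mulF, fromBlocks_mulVec, Function.comp_def]
  rfl

omit [DecidableEq ι] in
theorem harmP_f2 (M N : ℂ → Matrix ι ι ℂ) (α : Form ι) (x : ℂ) :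
    f2 (mulF (fun x => fromBlocks (M x) 0 0 (N x)) α) x = N x *ᵥ f2 α x := by
  funext i
  simp [f2, mulF, fromBlocks_mulVec, Function.comp_def]
  rfl

theorem harmP_cF {x : ℂ} (hx : x ∈ Ω) (α : Form ι) : V.cF α x =
    mulF (fun x => fromBlocks (-wey (wt w) V.π x) 0 0 (wey (wt w) V.π x)) α x := by
  simp only [cF, mulF, weyP_prj1 (V.phs x hx).prj]
  rfl

theorem harmP_conj (g : GL ι ℤ) (M : Matrix ι ι ℂ) (u : ι → ℂ) :
    cx g *ᵥ M *ᵥ u = (cx g * M * cx g⁻¹) *ᵥ cx g *ᵥ u := by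
  rw [mulVec_mulVec, mulVec_mulVec, Matrix.mul_assoc, cx_inv_mul, Matrix.mul_one]

theorem harmP_cF_pF {x : ℂ} (hx : x ∈ Ω) (p : ℤ) (α : Form ι) :
    V.cF (V.pF p α) x = ((-1 : ℂ) ^ p • V.pF p α) x := by
  simp only [cF, pF, mulF, mulVec_mulVec, Pi.smul_apply]
  rw [(V.phs x hx).one.wey_mul, smul_mulVec]

theorem Harm.congr (hΩ : Ωᶜ.Finite) (h : V.Harm α) (he : ∀ x ∈ Ω, β x = α x) : V.Harm β :=
  ⟨h.1.congr hΩ he, h.2.congr (by simpa using hΩ.isClosed.isOpen_compl) fun x hx => by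
    simp only [cF, mulF, he x hx]⟩

theorem Harm.sub (hΩ : Ωᶜ.Finite) (h : V.Harm α) (h' : V.Harm β) : V.Harm (α - β) :=
  ⟨h.1.sub hΩ h'.1, by
    have : V.cF (α - β) = V.cF α - V.cF β := funext fun x => mulVec_sub _ _ _
    rw [this]
    exact h.2.sub h'.2⟩

theorem Harm.sum (hΩ : Ωᶜ.Finite) {J : Type} (s : Finset J) {α : J → Form ι}
    (h : ∀ j ∈ s, V.Harm (α j)) (c : J → ℂ) : V.Harm (∑ j ∈ s, c j • α j) :=
  ⟨Z.sum hΩ s (fun j hj => (h j hj).1) c, by
    have : V.cF (∑ j ∈ s, c j • α j) = ∑ j ∈ s, c j • V.cF (α j) := funext fun x => by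
      simp only [cF, mulF, Finset.sum_apply, Pi.smul_apply, mulVec_sum, mulVec_smul]
    rw [this]
    exact Closed.sum s (fun j hj => (h j hj).2) c⟩

theorem Harm.cF (hΩ : Ωᶜ.Finite) (h : V.Harm α) : V.Harm (V.cF α) :=
  ⟨⟨h.2, h.1.2.cF hΩ⟩, h.1.1.congr (by simpa using hΩ.isClosed.isOpen_compl) (cF_cF α)⟩

theorem Harm.pF (hΩ : Ωᶜ.Finite) (h : V.Harm α) (p : ℤ) : V.Harm (V.pF p α) := by
  have hO : IsOpen Ω := by simpa using hΩ.isClosed.isOpen_compl
  have hc : V.Closed (V.pF p α) := by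
    refine ⟨h.1.1.1.pF hO p, fun x hx => ?_⟩
    obtain ⟨r, hr, hs, -, -, L⟩ := V.exists_lv hO hx
    have ev : ∀ᶠ y in 𝓝 x, y ∈ Ω := hO.mem_nhds hx
    have wy : ∀ y, wey (wt w) (fun p y => cx (V.κ x y) * V.π p y * cx (V.κ x y)⁻¹) y =
        cx (V.κ x y) * wey (wt w) V.π y * cx (V.κ x y)⁻¹ := fun y => by
      simp only [wey, Matrix.mul_sum, Matrix.sum_mul, Matrix.mul_smul, Matrix.smul_mul]
    have h2 := h.2.2 x hx
    have e1 : V.loc (f1 (V.cF α)) x =ᶠ[𝓝 x] fun y => (-wey (wt w)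
        (fun p y => cx (V.κ x y) * V.π p y * cx (V.κ x y)⁻¹) y) *ᵥ V.loc (f1 α) x y :=
      ev.mono fun y hy => by
        have : f1 (V.cF α) y = (-wey (wt w) V.π y) *ᵥ f1 α y := by
          rw [← harmP_f1 (fun y => -wey (wt w) V.π y) (wey (wt w) V.π)]
          funext i
          exact congrFun (harmP_cF hy α) _
        simp only [loc, this, wy]
        rw [harmP_conj, Matrix.mul_neg, Matrix.neg_mul]
    have e2 : V.loc (f2 (V.cF α)) x =ᶠ[𝓝 x] fun y => wey (wt w)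
        (fun p y => cx (V.κ x y) * V.π p y * cx (V.κ x y)⁻¹) y *ᵥ V.loc (f2 α) x y :=
      ev.mono fun y hy => by
        have : f2 (V.cF α) y = wey (wt w) V.π y *ᵥ f2 α y := by
          rw [← harmP_f2 (fun y => -wey (wt w) V.π y) (wey (wt w) V.π)]
          funext i
          exact congrFun (harmP_cF hy α) _
        simp only [loc, this, wy]
        rw [harmP_conj]
    rw [harmP_congr e1, harmP_congr e2] at h2
    have := harmP_local L (mem_ball_self hr) (h.1.1.1.1 x hx) (h.1.1.1.2 x hx) (h.1.1.2 x hx) h2 p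
    convert this using 2
    · funext y
      simp only [loc]
      rw [← harmP_conj, ← harmP_f1 (V.π (p - 1)) (V.π p)]
      rfl
    · funext y
      simp only [loc]
      rw [← harmP_conj, ← harmP_f2 (V.π (p - 1)) (V.π p)]
      rfl
  exact ⟨⟨hc, h.1.2.pF hΩ h.1.1.1 p⟩, (hc.smul _).congr hO fun x hx => harmP_cF_pF hx p α⟩

theorem Harm.ed (hΩ : Ωᶜ.Finite) (h : V.Harm α) {ε : ℂ → Matrix ι ι ℂ} (hε : V.End ε) :
    V.Harm (mulF (fun x => two (ε x)) α) := by
  have hO : IsOpen Ω := by simpa using hΩ.isClosed.isOpen_compl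
  have cw : ∀ x ∈ Ω, ε x * wey (wt w) V.π x = wey (wt w) V.π x * ε x := fun x hx => by
    simp only [wey, Matrix.mul_sum, Matrix.sum_mul, Matrix.mul_smul, Matrix.smul_mul,
      hε.comm x hx]
  have hc := h.1.1.ed hO hε
  have hp : IsPreconnected Ω := by
    have := (hΩ.countable.isConnected_compl_of_one_lt_rank (by simp)).isPreconnected
    rwa [compl_compl] at this
  obtain ⟨K, hK⟩ : ∃ K : ℂ, ∀ x ∈ Ω, (ε x * ε x).trace = K := by
    rcases Ω.eq_empty_or_nonempty with h0 | ⟨x0, h0⟩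
    · exact ⟨0, fun x hx => absurd (h0 ▸ hx) (Set.notMem_empty x)⟩
    refine ⟨(ε x0 * ε x0).trace, fun x hx => ?_⟩
    refine hp.induction₂' (fun a b => (ε a * ε a).trace = (ε b * ε b).trace) (fun a ha => ?_)
      (fun _ _ _ _ _ _ h1 h2 => h1.trans h2) hx h0
    filter_upwards [hε.flat a ha] with b e
    have e1 : ε b = cx (V.κ a b)⁻¹ * (ε a * cx (V.κ a b)) := by
      rw [← e, ← Matrix.mul_assoc, cx_inv_mul, Matrix.one_mul]
    have e2 : (ε b * ε b).trace = (ε a * ε a).trace := by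
      conv_lhs => rw [e1]
      rw [Matrix.mul_assoc, trace_mul_comm, Matrix.mul_assoc, Matrix.mul_assoc, Matrix.mul_assoc,
        Matrix.mul_assoc, cx_mul_inv, Matrix.mul_one, ← Matrix.mul_assoc (cx (V.κ a b)),
        cx_mul_inv, Matrix.one_mul]
    exact ⟨e2.symm, e2⟩
  refine ⟨⟨hc, l2_of_le hΩ hc.1 (Integrable.const_mul h.1.2 K.re) fun x hx => ?_⟩,
    (h.2.ed hO hε).congr hO fun x hx => ?_⟩
  · have a : (ε x)ᴴ * V.H x = V.H x * ε x := by
      rw [H, ← Matrix.mul_assoc, hε.adj x hx, Matrix.mul_assoc, cw x hx, Matrix.mul_assoc]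
    simp only [nrm, mulF, qf_two, two_mulVec, Sum.elim_inl, Sum.elim_inr, add_re, mul_add,
      ← hK x hx]
    exact add_le_add (harmP_bound (V.H_pos hx) a _) (harmP_bound (V.H_pos hx) a _)
  · rw [harmP_cF hx]
    simp only [mulF]
    rw [harmP_cF hx]
    simp only [mulF, mulVec_mulVec, two, fromBlocks_multiply, Matrix.mul_zero, Matrix.zero_mul,
      add_zero, zero_add, Matrix.mul_neg, Matrix.neg_mul, neg_zero, cw x hx]

theorem harm_dxF (hΩ : Ωᶜ.Finite) {u : ℂ → ι → ℂ} (h : V.HolTop id u Ω)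
    (hi : Integrable fun x => (qf (V.H x) (u x) (u x)).re) :
    V.Harm (dxF u) ∧ ∀ x ∈ Ω, V.pF (w + 1 : ℕ) (dxF u) x = dxF u x := by
  have hO : IsOpen Ω := by simpa using hΩ.isClosed.isOpen_compl
  have an : ∀ x ∈ Ω, ∀ i, AnalyticAt ℂ (fun y => V.loc u x y i) x := fun x hx =>
    analyticAt_pi_iff.1 (h x hx).1
  have hc : V.Closed (dxF u) := by
    refine ⟨⟨fun x hx i => ((an x hx i).contDiffAt (n := ∞)).restrict_scalars ℝ, smS_zero⟩,
      fun x hx => funext fun i => ?_⟩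
    have e : (fun y => V.loc (f2 (dxF u)) x y i) = fun _ => 0 := funext fun y => by
      have : f2 (dxF u) y = 0 := rfl
      simp [loc, this]
    rw [derV, derV, e, der_const]
    exact dbar_holo (an x hx i).differentiableAt
  have hp : ∀ x ∈ Ω, V.pF (w + 1 : ℕ) (dxF u) x = dxF u x := fun x hx => by
    have := (h x hx).2
    simp only [id] at this
    simp [pF, mulF, prj1, dxF, fromBlocks_mulVec, this]
  refine ⟨⟨⟨hc, ?_⟩, (hc.smul ((-1 : ℂ) ^ ((w + 1 : ℕ) : ℤ))).congr hO fun x hx => ?_⟩, hp⟩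
  · refine hi.congr (Eventually.of_forall fun x => ?_)
    simp only [nrm, qf_two, dxF, Sum.elim_inl, Sum.elim_inr]
    rw [show (fun i : ι => (0 : ι → ℂ) i) = 0 from rfl, qf_zero_left, add_zero]
  · have := harmP_cF_pF (V := V) hx (w + 1 : ℕ) (dxF u)
    simp only [cF, mulF, Pi.smul_apply, hp x hx] at this ⊢
    exact this

theorem holTop_of_closed (hΩ : Ωᶜ.Finite) (h : V.Closed α)
    (ht : ∀ x ∈ Ω, V.pF (w + 1 : ℕ) α x = α x) :
    V.HolTop id (f1 α) Ω ∧ ∀ x ∈ Ω, α x = dxF (f1 α) x := by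
  have hO : IsOpen Ω := by simpa using hΩ.isClosed.isOpen_compl
  have t1 : ∀ x ∈ Ω, V.π w x *ᵥ f1 α x = f1 α x := fun x hx => by
    have := harmP_f1 (V.π ((w + 1 : ℕ) - 1)) (V.π (w + 1 : ℕ)) α x
    rw [show ((w + 1 : ℕ) : ℤ) - 1 = w by push_cast; ring] at this
    rw [← this]
    funext i
    have e := congrFun (ht x hx) (Sum.inl i)
    simp only [pF, prj1, show ((w + 1 : ℕ) : ℤ) - 1 = w by push_cast; ring] at e
    exact e
  have t2 : ∀ x ∈ Ω, f2 α x = 0 := fun x hx => by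
    have := harmP_f2 (V.π ((w + 1 : ℕ) - 1)) (V.π (w + 1 : ℕ)) α x
    rw [(V.phs x hx).prj.zero (w + 1 : ℕ) (by simp [wt]), zero_mulVec] at this
    rw [← this]
    funext i
    exact (congrFun (ht x hx) (Sum.inr i)).symm
  refine ⟨fun x hx => ⟨analyticAt_pi_iff.2 fun i => ?_, t1 x hx⟩, fun x hx => ?_⟩
  · obtain ⟨r, hr, hs, hk, -, -⟩ := V.exists_lv hO hx
    refine DifferentiableOn.analyticAt (s := ball x r) (fun y hy => ?_) (ball_mem_nhds x hr)
    obtain ⟨s1, -, e⟩ := h.fr isOpen_ball hs hk hy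
    have z : (f2 fun y => two (cx (V.κ x y)) *ᵥ α y) =ᶠ[𝓝 y] fun _ => 0 := by
      filter_upwards [isOpen_ball.mem_nhds hy] with z hz
      have := harmP_f2 (fun y => cx (V.κ x y)) (fun y => cx (V.κ x y)) α z
      rw [t2 z (hs hz), mulVec_zero] at this
      exact this
    rw [harmP_congr z] at e
    have e1 : (fun z => (cx (V.κ x z) *ᵥ f1 α z) i) =
        fun z => (f1 fun y => two (cx (V.κ x y)) *ᵥ α y) z i := funext fun z =>
      (congrFun (harmP_f1 (fun y => cx (V.κ x y)) (fun y => cx (V.κ x y)) α z) i).symm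
    simp only [id]
    rw [e1]
    refine (holo_of_dbar (s1 i).diff fun ξ => ?_).differentiableWithinAt
    have e2 := congrFun e i
    rw [derV, derV, der_const] at e2
    rw [← mul_one ξ, ← smul_eq_mul, dbar_vec_smul, e2, mul_zero]
  · funext i
    rcases i with i | i
    · rfl
    · exact congrFun (t2 x hx) i

end VHS

end

end Pool.Agent.Lib.MP_5c318e_ag.V
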