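import Pool.Agent.Lib.MP_5c318e_ag.V.Alg
import Pool.Agent.Lib.MP_9ff3e7_ag.F.Osg
import Pool.Agent.Lib.MP_5c318e_ag.H.Reg

/-! A differentiable variation is smooth. -/

set_option autoImplicit false

namespace Pool.Agent.Lib.MP_5c318e_ag.V

open Matrix Filter Topology MeasureTheory Complex Metric
open scoped ComplexOrder ContDiff ComplexConjugate

noncomputable section

variable {ι : Type} [Fintype ι] [DecidableEq ι] {w : ℕ}
  {E : Type} [NormedAddCommGroup E] [NormedSpace ℂ E]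

theorem analyticAt_of_diff [FiniteDimensional ℂ E] {f : E → ℂ} {a : E}
    (h : ∀ᶠ a' in 𝓝 a, DifferentiableAt ℂ f a') : AnalyticAt ℂ f a := analyticAt_of_holo h

theorem lip_of_bdd {G : Type*} [NormedAddCommGroup G] [NormedSpace ℂ G] {g : G → ℂ} {c z : G}
    {r C : ℝ} (hd : DifferentiableOn ℂ g (ball c r)) (hb : ∀ y ∈ ball c r, ‖g y‖ ≤ C)
    (hz : z ∈ ball c r) : ‖g z - g c‖ ≤ 2 * C / r * ‖z - c‖ := by
  have hc : c ∈ ball c r := mem_ball_self (nonempty_ball.1 ⟨z, hz⟩)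
  have := Complex.dist_le_div_mul_dist_of_mapsTo_ball (R₂ := 2 * C) hd (fun y hy => by
    rw [mem_closedBall, dist_eq_norm]
    exact (norm_sub_le _ _).trans (by linarith [hb y hy, hb c hc])) hz
  simpa only [dist_eq_norm] using this

theorem differentiableAt_of_sep {f : E × ℂ → ℂ} {a : E} {x : ℂ} {r C : ℝ}
    (hr : 0 < r) (h1 : ∀ x' ∈ ball x r, DifferentiableOn ℂ (fun a' => f (a', x')) (ball a r))
    (h2 : ∀ a' ∈ ball a r, DifferentiableOn ℂ (fun x' => f (a', x')) (ball x r))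
    (hb : ∀ a' ∈ ball a r, ∀ x' ∈ ball x r, ‖f (a', x')‖ ≤ C) : DifferentiableAt ℂ f (a, x) := by
  have ma := mem_ball_self (x := a) hr
  have mx := mem_ball_self (x := x) hr
  have d1 : DifferentiableAt ℂ (fun p : E × ℂ => f (p.1, x)) (a, x) :=
    DifferentiableAt.comp (g := fun a' => f (a', x)) (a, x)
      ((h1 x mx).differentiableAt (isOpen_ball.mem_nhds ma)) differentiableAt_fst
  have d2 : DifferentiableAt ℂ (fun p : E × ℂ => f (a, p.2)) (a, x) :=
    DifferentiableAt.comp (g := fun x' => f (a, x')) (a, x)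
      ((h2 a ma).differentiableAt (isOpen_ball.mem_nhds mx)) differentiableAt_snd
  have d3 : HasFDerivAt (fun p : E × ℂ => f p - f (p.1, x) - (f (a, p.2) - f (a, x)))
      (0 : E × ℂ →L[ℂ] ℂ) (a, x) := by
    rw [hasFDerivAt_iff_isLittleO]
    have a1 : (fun p : E × ℂ => ‖p - (a, x)‖) =o[𝓝 (a, x)] fun _ => (1 : ℝ) := by
      rw [Asymptotics.isLittleO_one_iff]
      exact tendsto_iff_norm_sub_tendsto_zero.mp tendsto_id
    have a3 := a1.mul_isBigO (Asymptotics.isBigO_refl (fun p : E × ℂ => ‖p - (a, x)‖) _)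
    simp only [one_mul] at a3
    refine Asymptotics.IsBigO.trans_isLittleO ?_ a3.of_norm_right
    refine Asymptotics.IsBigO.of_bound (2 * (2 * C / r) / r) ?_
    filter_upwards [(isOpen_ball.prod isOpen_ball).mem_nhds
      (show (a, x) ∈ ball a r ×ˢ ball x r from ⟨ma, mx⟩)] with p hp
    have c0 : 0 ≤ C := (norm_nonneg _).trans (hb a ma x mx)
    have l := lip_of_bdd (g := fun a' => f (a', p.2) - f (a', x)) ((h1 _ hp.2).sub (h1 x mx))
      (fun y hy => lip_of_bdd (h2 y hy) (hb y hy) hp.2) hp.1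
    have n1 : ‖p.1 - a‖ ≤ ‖p - (a, x)‖ := norm_fst_le (p - (a, x))
    have n2 : ‖p.2 - x‖ ≤ ‖p - (a, x)‖ := norm_snd_le (p - (a, x))
    simp only [sub_self, sub_zero, _root_.zero_apply, norm_mul, norm_norm]
    refine l.trans ?_
    calc 2 * (2 * C / r * ‖p.2 - x‖) / r * ‖p.1 - a‖
        = 2 * (2 * C / r) / r * (‖p.2 - x‖ * ‖p.1 - a‖) := by ring
      _ ≤ _ := by gcongr
  refine ((d3.differentiableAt.add d1).add (d2.sub_const (f (a, x)))).congr_of_eventuallyEq
    (Eventually.of_forall fun p => ?_)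
  simp only [Pi.add_apply]
  ring

/-- a locally bounded separately holomorphic function is holomorphic -/
theorem analyticAt_of_sep [FiniteDimensional ℂ E] {f : E × ℂ → ℂ} {a : E} {x : ℂ} {r C : ℝ}
    (hr : 0 < r) (h1 : ∀ x' ∈ ball x r, DifferentiableOn ℂ (fun a' => f (a', x')) (ball a r))
    (h2 : ∀ a' ∈ ball a r, DifferentiableOn ℂ (fun x' => f (a', x')) (ball x r))
    (hb : ∀ a' ∈ ball a r, ∀ x' ∈ ball x r, ‖f (a', x')‖ ≤ C) : AnalyticAt ℂ f (a, x) := by
  refine analyticAt_of_holo ?_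
  have h0 : 0 < r / 2 := half_pos hr
  filter_upwards [(isOpen_ball.prod isOpen_ball).mem_nhds
    (show (a, x) ∈ ball a (r / 2) ×ˢ ball x (r / 2) from ⟨mem_ball_self h0, mem_ball_self h0⟩)]
    with p hp
  have s1 : ball p.1 (r / 2) ⊆ ball a r := ball_subset_ball' (by linarith [mem_ball.1 hp.1])
  have s2 : ball p.2 (r / 2) ⊆ ball x r := ball_subset_ball' (by linarith [mem_ball.1 hp.2])
  exact differentiableAt_of_sep h0 (fun y hy => (h1 y (s2 hy)).mono s1)
    (fun y hy => (h2 y (s1 hy)).mono s2) fun y hy z hz => hb y (s1 hy) z (s2 hz)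

theorem upgrade [FiniteDimensional ℂ E] {O : Set E} (hO : IsOpen O) {Q : Matrix ι ι ℂ}
    {π : ℤ → E → Matrix ι ι ℂ} (h1 : ∀ a ∈ O, PHS w Q fun p => π p a)
    (h2 : ∀ a ∈ O, ∀ p i j, DifferentiableAt ℝ (fun a => π p a i j) a)
    (h3 : ∀ a ∈ O, ∀ ξ, derM (-I) ξ (gr (wt w) π) a * gr (wt w) π a -
      gr (wt w) π a * derM (-I) ξ (gr (wt w) π) a = derM (-I) ξ (gr (wt w) π) a) :
    ∀ a ∈ O, Ax w π a := by
  have L : DLV O Q (wt w) π :=
    ⟨hO, fun a ha i j => by
      simp only [gr, Matrix.sum_apply, Matrix.smul_apply, smul_eq_mul]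
      exact DifferentiableAt.fun_sum fun p _ => (h2 a ha p i j).const_mul _,
    fun a ha => (h1 a ha).prj, fun a ha => (h1 a ha).adj, fun a ha => (h1 a ha).pos, h3⟩
  exact fun a ha => ⟨fun p => L.lv.sm p a ha, h3 a ha⟩

end

end Pool.Agent.Lib.MP_5c318e_ag.V
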