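import Pool.Agent.Lib.MP_5c318e_ag.V.KW
import Pool.Agent.Lib.MP_5c318e_ag.V.HarmP
import Pool.Agent.Lib.MP_5c318e_ag.V.Upg
import Pool.Agent.Lib.MP_5c318e_ag.V.FamDnA

/-! Holomorphic families of square integrable sections. -/

set_option autoImplicit false
set_option linter.unusedSectionVars false

namespace Pool.Agent.Lib.MP_5c318e_ag.V

open Matrix Filter Topology MeasureTheory Complex Metric
open scoped ComplexOrder ContDiff ComplexConjugate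

noncomputable section

variable {ι : Type} [Fintype ι] [DecidableEq ι] {w : ℕ}
  {A : Type} [NormedAddCommGroup A] [NormedSpace ℂ A]
  {E : Type} [NormedAddCommGroup E] [NormedSpace ℂ E] {Ω : Set (A × ℂ)}
  {V : VHS (A × ℂ) Ω ι w}

theorem FamDn_qf {M : E → Matrix ι ι ℂ} {f g : E → ι → ℂ} {x : E} (hM : SmM M x) (hf : SmV f x)
    (hg : SmV g x) : Sm (fun y => qf (M y) (f y) (g y)) x := by
  simp only [qf, dotProduct, mulVec, Pi.star_apply]
  exact ContDiffAt.sum fun i _ => ContDiffAt.mul (Complex.conjCLE.contDiff.contDiffAt.comp x (hf i))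
    (ContDiffAt.sum fun j _ => (hM i j).mul (hg j))

theorem FamDn_qf_tr (Q g : Matrix ι ι ℂ) (u v : ι → ℂ) :
    qf (gᴴ * Q * g) u v = qf Q (g *ᵥ u) (g *ᵥ v) := by
  rw [qf_mulVec_left, qf_mulVec_right]

omit [NormedAddCommGroup E] [NormedSpace ℂ E] in
theorem FamDn_wey (S : Finset ℤ) (π : ℤ → E → Matrix ι ι ℂ) (g g' : E → Matrix ι ι ℂ) (y : E) :
    wey S (fun p y => g y * π p y * g' y) y = g y * wey S π y * g' y := by
  simp only [wey, Finset.mul_sum, Finset.sum_mul, Matrix.mul_smul, Matrix.smul_mul]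

theorem FamDn_mv (N : Matrix ι ι ℂ) {f : E → ι → ℂ} {x : E} (h : AnalyticAt ℂ f x) :
    AnalyticAt ℂ (fun y => N *ᵥ f y) x :=
  ((LinearMap.toContinuousLinearMap N.mulVecLin).analyticAt _).comp h

/-- the restriction of a holomorphic family to one fibre -/
theorem FamDn_fib {φ : E → A} {O : Set E} {u : E × ℂ → ι → ℂ}
    (hu : V.HolTop (fun p : E × ℂ => (φ p.1, p.2)) u {p | p.1 ∈ O ∧ (φ p.1, p.2) ∈ Ω})
    {a : E} (ha : a ∈ O) : (V.fib (φ a)).HolTop id (fun x => u (a, x)) (fb Ω (φ a)) :=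
  fun x hx => ⟨(hu (a, x) ⟨ha, hx⟩).1.comp (f := fun x => (a, x))
    (analyticAt_const.prod analyticAt_id), (hu (a, x) ⟨ha, hx⟩).2⟩

namespace Fam

variable {φ : E → A} {a0 : E} {K : Set ℂ} (M : Fam V φ a0 K) {O : Set E} {u : E × ℂ → ι → ℂ}

/-- the family read on the central fibre -/
def FamDn_v (u : E × ℂ → ι → ℂ) (p : E × ℂ) : ι → ℂ := cx (M.m p.1 p.2) *ᵥ u (p.1, M.z p.1 p.2)

theorem FamDn_ev {a : E} (ha : a ∈ ball a0 M.δ) {x : ℂ} (hx : x ∈ fb Ω (φ a0)) :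
    ∀ᶠ p : E × ℂ in 𝓝 (a, x), cx (V.κ (φ a0, x) (φ a0, p.2)) *ᵥ M.FamDn_v u p =
      cx (M.m a x) *ᵥ (cx (V.κ (φ a, M.z a x) (φ p.1, M.z p.1 p.2)) *ᵥ u (p.1, M.z p.1 p.2)) :=
  (M.tr a ha x hx).mono fun p hp => by
    rw [FamDn_v, mulVec_mulVec, mulVec_mulVec, ← cx_mul, ← cx_mul, hp]

theorem FamDn_sm (hO : ball a0 M.δ ⊆ O)
    (hu : V.HolTop (fun p : E × ℂ => (φ p.1, p.2)) u {p | p.1 ∈ O ∧ (φ p.1, p.2) ∈ Ω})
    {a : E} (ha : a ∈ ball a0 M.δ) {x : ℂ} (hx : x ∈ fb Ω (φ a0)) :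
    SmV (fun p : E × ℂ => cx (V.κ (φ a0, x) (φ a0, p.2)) *ᵥ M.FamDn_v u p) (a, x) := by
  have h1 := FamDn_mv (cx (M.m a x)) (hu (a, M.z a x) ⟨hO ha, (M.mem a ha x).2 hx⟩).1
  have h2 : ContDiffAt ℝ ∞ (fun p : E × ℂ => (p.1, M.z p.1 p.2)) (a, x) :=
    contDiffAt_fst.prodMk (M.smz a ha x)
  have h3 := ((h1.contDiffAt (n := ∞)).restrict_scalars ℝ).comp (a, x) h2
  exact fun i => contDiffAt_pi.1 (h3.congr_of_eventuallyEq (M.FamDn_ev ha hx)) i

theorem FamDn_an (hO : ball a0 M.δ ⊆ O)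
    (hu : V.HolTop (fun p : E × ℂ => (φ p.1, p.2)) u {p | p.1 ∈ O ∧ (φ p.1, p.2) ∈ Ω})
    {x : ℂ} (hx : x ∈ fb Ω (φ a0)) :
    DifferentiableOn ℂ (fun a => M.FamDn_v u (a, x)) (ball a0 M.δ) := by
  intro a ha
  have h1 := FamDn_mv (cx (M.m a x)) (hu (a, M.z a x) ⟨hO ha, (M.mem a ha x).2 hx⟩).1
  have h2 : AnalyticAt ℂ (fun a : E => (a, M.z a x)) a := analyticAt_id.prod (M.hol x a ha)
  have h3 := h1.comp (f := fun a : E => (a, M.z a x)) h2
  have h4 := (ContinuousAt.tendsto (f := fun a : E => (a, x)) (x := a) (by fun_prop)).eventually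
    (M.FamDn_ev (u := u) ha hx)
  refine (h3.congr (h4.mono fun a' h => ?_)).differentiableAt.differentiableWithinAt
  rw [V.germ.self _ hx, cx_one, one_mulVec] at h
  exact h.symm

include M in
theorem FamDn_open : IsOpen (fb Ω (φ a0)) :=
  isClosed_compl_iff.1 (M.fin a0 (mem_ball_self M.pos)).isClosed

include M in
theorem FamDn_ae : ∀ᵐ x : ℂ, x ∈ fb Ω (φ a0) :=
  (M.fin a0 (mem_ball_self M.pos)).measure_zero volume

include M in
theorem FamDn_flat {x : ℂ} (hx : x ∈ fb Ω (φ a0)) (a : E) : ∀ᶠ p : E × ℂ in 𝓝 (a, x),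
    V.ψ (φ a0, p.2) = (cx (V.κ (φ a0, x) (φ a0, p.2)))ᴴ * V.ψ (φ a0, x) *
      cx (V.κ (φ a0, x) (φ a0, p.2)) := by
  have h := (V.fib (φ a0)).flat x hx
  rw [M.FamDn_open.nhdsWithin_eq hx] at h
  exact (continuousAt_snd (p := (a, x))).tendsto.eventually h

/-- pairing with a smooth section of the central fibre -/
theorem FamDn_pair (hO : ball a0 M.δ ⊆ O)
    (hu : V.HolTop (fun p : E × ℂ => (φ p.1, p.2)) u {p | p.1 ∈ O ∧ (φ p.1, p.2) ∈ Ω})
    {e : ℂ → ι → ℂ} (he : (V.fib (φ a0)).SmS e) {a : E} (ha : a ∈ ball a0 M.δ) {x : ℂ}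
    (hx : x ∈ fb Ω (φ a0)) :
    Sm (fun p : E × ℂ => qf (V.ψ (φ a0, p.2)) (e p.2) (M.FamDn_v u p)) (a, x) := by
  have h1 : SmV (fun p : E × ℂ => cx (V.κ (φ a0, x) (φ a0, p.2)) *ᵥ e p.2) (a, x) :=
    fun i => ContDiffAt.comp (g := fun y => (V.fib (φ a0)).loc e x y i) (f := Prod.snd) (a, x)
      (he x hx i) contDiffAt_snd
  refine (FamDn_qf (M := fun _ => V.ψ (φ a0, x)) (fun _ _ => contDiffAt_const) h1
    (M.FamDn_sm hO hu ha hx)).congr_of_eventuallyEq ((M.FamDn_flat hx a).mono fun p hp => ?_)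
  beta_reduce
  rw [hp, FamDn_qf_tr]

/-- the norm of the central fibre -/
theorem FamDn_nrm (hO : ball a0 M.δ ⊆ O)
    (hu : V.HolTop (fun p : E × ℂ => (φ p.1, p.2)) u {p | p.1 ∈ O ∧ (φ p.1, p.2) ∈ Ω})
    {a : E} (ha : a ∈ ball a0 M.δ) {x : ℂ} (hx : x ∈ fb Ω (φ a0)) :
    ContinuousAt (fun p : E × ℂ => V.nv (φ a0, p.2) (M.FamDn_v u p)) (a, x) := by
  have h0 := ((V.fib (φ a0)).ax ℂ id x ⟨analyticAt_id, M.FamDn_open.mem_nhds hx⟩).1
  have h1 : SmM (fun p : E × ℂ => V.ψ (φ a0, x) * wey (wt w) (fun q (y : ℂ) =>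
      cx (V.κ (φ a0, x) (φ a0, y)) * V.π q (φ a0, y) * cx (V.κ (φ a0, x) (φ a0, y))⁻¹) p.2)
      (a, x) := fun i j => by
    simp only [wey, Matrix.mul_apply (M := V.ψ (φ a0, x)), Matrix.sum_apply, Matrix.smul_apply,
      smul_eq_mul]
    exact ContDiffAt.sum fun l _ => contDiffAt_const.mul (ContDiffAt.sum fun q _ =>
      contDiffAt_const.mul (ContDiffAt.comp (g := fun y : ℂ => (cx (V.κ (φ a0, x) (φ a0, y)) *
        V.π q (φ a0, y) * cx (V.κ (φ a0, x) (φ a0, y))⁻¹) l j) (f := Prod.snd) (a, x) (h0 q l j)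
        contDiffAt_snd))
  have h2 := (FamDn_qf h1 (M.FamDn_sm hO hu ha hx) (M.FamDn_sm hO hu ha hx)).continuousAt
  refine (Complex.continuous_re.continuousAt.comp h2).congr ((M.FamDn_flat hx a).mono fun p hp => ?_)
  simp only [Function.comp, VHS.nv, VHS.H]
  rw [← FamDn_qf_tr, hp, FamDn_wey (wt w) (fun q (y : ℂ) => V.π q (φ a0, y))]
  simp only [Matrix.mul_assoc, cx_inv_mul, Matrix.mul_one]
  rfl

theorem FamDn_v0 {x : ℂ} (hx : x ∈ fb Ω (φ a0)) : M.FamDn_v u (a0, x) = u (a0, x) := by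
  rw [FamDn_v]
  simp only [M.m0 x hx, M.z0, cx_one, one_mulVec]

/-- comparison of the norms along the motion -/
theorem FamDn_cmp : ∃ C : ℝ, 0 < C ∧ ∀ a ∈ ball a0 (M.δ / 2), ∀ x ∈ fb Ω (φ a0), ∀ v : ι → ℂ,
    V.nv (φ a0, x) (cx (M.m a x) *ᵥ v) ≤ C * V.nv (φ a, M.z a x) v := by
  obtain ⟨C, hC, h⟩ := lip ι w
  refine ⟨C, hC, fun a ha x hx v => ?_⟩
  have L := V.lv (φ := fun a => (φ a, M.z a x)) isOpen_ball
    (fun a ha => (M.an a ha).prod (M.hol x a ha)) (fun a ha => (M.mem a ha x).2 hx) (M.isFr hx)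
    (Q := V.ψ (φ a0, x)) fun a ha => by
      rw [M.iso a ha x hx]
      simp only [← Matrix.mul_assoc]
      rw [← Matrix.conjTranspose_mul, cx_mul_inv, Matrix.mul_assoc, cx_mul_inv]
      simp
  have h1 := (h E a0 M.δ _ _ L a ha (cx (M.m a x) *ᵥ v) 0).2.1
  have ha' : a ∈ ball a0 M.δ := ball_subset_ball (half_le_self M.pos.le) ha
  rw [FamDn_wey (wt w) (fun q (a : E) => V.π q (φ a, M.z a x)),
    FamDn_wey (wt w) (fun q (a : E) => V.π q (φ a, M.z a x)), M.m0 x hx, inv_one, cx_one,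
    Matrix.one_mul, Matrix.mul_one, ← FamDn_qf_tr (_ * (cx (M.m a x) * _ * _))] at h1
  simp only [VHS.nv, VHS.H]
  rw [M.iso a ha' x hx]
  simp only [Matrix.mul_assoc, cx_inv_mul, Matrix.mul_one, wey, M.z0] at h1 ⊢
  exact h1

end Fam

theorem Ctx.fam_int [CompleteSpace A] [FiniteDimensional ℂ E] [MeasurableSpace E] [BorelSpace E]
    {S : Set A} (hR : Roots S Ω) (μ : Measure E) [μ.IsAddHaarMeasure] {φ : E → A} {O : Set E}
    {u : E × ℂ → ι → ℂ} (hO : IsOpen O) (hφ : ∀ a ∈ O, Plot S φ a)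
    (hu : V.HolTop (fun p : E × ℂ => (φ p.1, p.2)) u {p | p.1 ∈ O ∧ (φ p.1, p.2) ∈ Ω})
    (hi : ∀ a ∈ O, ∃ N ∈ 𝓝 a,
      ∫⁻ a' in N, (∫⁻ x, ENNReal.ofReal (V.nv (φ a', x) (u (a', x)))) ∂μ < ⊤) :
    ∀ a ∈ O, Integrable fun x => V.nv (φ a, x) (u (a, x)) := by
  intro a0 h0
  have : ProperSpace E := FiniteDimensional.proper ℂ E
  obtain ⟨N, hN, hfin⟩ := hi a0 h0
  obtain ⟨r, r0, hr⟩ := Metric.mem_nhds_iff.1 (inter_mem (hO.mem_nhds h0) hN)
  obtain ⟨M, hM, -⟩ := exists_fam hR V (hφ a0 h0) isCompact_empty (Set.empty_subset _) r0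
  have hb : ball a0 M.δ ⊆ O := fun a ha => (hr (ball_subset_ball hM ha)).1
  have hh : ball a0 (M.δ / 2) ⊆ ball a0 M.δ := ball_subset_ball (half_le_self M.pos.le)
  obtain ⟨C, hC, hcmp⟩ := M.FamDn_cmp
  have c0 : ContinuousOn (fun p : E × ℂ => V.nv (φ a0, p.2) (M.FamDn_v u p))
      (ball a0 (M.δ / 2) ×ˢ fb Ω (φ a0)) := fun p hp =>
    (M.FamDn_nrm hb hu (hh hp.1) hp.2).continuousWithinAt
  have vr : (volume : Measure ℂ).restrict (fb Ω (φ a0)) = volume :=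
    Measure.restrict_eq_self_of_ae_mem M.FamDn_ae
  have nn : ∀ y ∈ Ω, ∀ v, 0 ≤ V.nv y v := fun y hy v => qf_nonneg (V.H_pos hy) v
  refine ⟨?_, ?_⟩
  · rw [← vr]
    refine ContinuousOn.aestronglyMeasurable (fun x hx => ?_) M.FamDn_open.measurableSet
    have := ((M.FamDn_nrm hb hu (mem_ball_self M.pos) hx).comp (f := fun x => (a0, x))
      (by fun_prop)).continuousWithinAt (s := fb Ω (φ a0))
    refine this.congr (fun y hy => ?_) ?_
    · simp only [Function.comp, M.FamDn_v0 hy]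
    · simp only [Function.comp, M.FamDn_v0 hx]
  rw [hasFiniteIntegral_iff_ofReal (M.FamDn_ae.mono fun x hx => nn _ hx _)]
  have s1 : ∀ x ∈ fb Ω (φ a0), ENNReal.ofReal (V.nv (φ a0, x) (u (a0, x))) * μ (ball 0 (M.δ / 2))
      ≤ ∫⁻ a in ball a0 (M.δ / 2), ENNReal.ofReal (V.nv (φ a0, x) (M.FamDn_v u (a, x))) ∂μ := by
    intro x hx
    have d : DifferentiableOn ℂ (fun a => qf (V.H (φ a0, x)) (u (a0, x)) (M.FamDn_v u (a, x)))
        (ball a0 (M.δ / 2)) := by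
      simp only [qf, dotProduct, mulVec]
      exact DifferentiableOn.fun_sum fun i _ => DifferentiableOn.const_mul
        (DifferentiableOn.fun_sum fun j _ => DifferentiableOn.const_mul
          (differentiableOn_pi.1 ((M.FamDn_an hb hu hx).mono hh) j) _) _
    have s := FamDn_submean μ d
    have n0 := qf_nonneg (V.H_pos hx) (u (a0, x))
    rw [M.FamDn_v0 hx, qf_self (V.H_pos hx), Complex.norm_real, Real.norm_of_nonneg n0, sq,
      ENNReal.ofReal_mul n0, mul_assoc] at s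
    have s' := s.trans (lintegral_mono fun a => ENNReal.ofReal_le_ofReal
      (qf_cs (V.H_pos hx) (u (a0, x)) (M.FamDn_v u (a, x))))
    simp only [ENNReal.ofReal_mul n0] at s'
    rw [lintegral_const_mul' _ _ ENNReal.ofReal_ne_top] at s'
    by_cases z : ENNReal.ofReal (V.nv (φ a0, x) (u (a0, x))) = 0
    · rw [z, zero_mul]
      exact zero_le
    · exact (ENNReal.mul_le_mul_iff_right z ENNReal.ofReal_ne_top).1 s'
  have s2 : ∀ a ∈ ball a0 (M.δ / 2), ∫⁻ x, ENNReal.ofReal (V.nv (φ a0, x) (M.FamDn_v u (a, x))) ≤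
      ENNReal.ofReal (4 * C) * ∫⁻ x, ENNReal.ofReal (V.nv (φ a, x) (u (a, x))) := by
    intro a ha
    have ha' := hh ha
    have j : ∀ x, ‖der I 1 (M.z a) x‖ + 1 / 2 ≤ ‖der (-I) 1 (M.z a) x‖ := fun x => by
      have h1 := M.small a ha' x
      have h2 := norm_sub_norm_le (1 : ℂ) (der (-I) 1 (M.z a) x)
      rw [norm_sub_rev, norm_one] at h2
      linarith
    rw [← lintegral_pull (f := M.z a)
      (fun x => (M.smz a ha' x).comp (f := fun x => (a, x)) x (by fun_prop))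
      (Function.bijective_iff_has_inverse.2 ⟨M.zi a, M.li a ha', M.ri a ha'⟩)
      (fun x => by linarith [j x]) fun x => ENNReal.ofReal (V.nv (φ a, x) (u (a, x))),
      ← lintegral_const_mul' _ _ ENNReal.ofReal_ne_top]
    refine lintegral_mono_ae (M.FamDn_ae.mono fun x hx => ?_)
    have n1 := nn _ ((M.mem a ha' x).2 hx) (u (a, M.z a x))
    have j1 : 1 / 4 ≤ ‖der (-I) 1 (M.z a) x‖ ^ 2 - ‖der I 1 (M.z a) x‖ ^ 2 := by
      nlinarith [j x, norm_nonneg (der I 1 (M.z a) x)]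
    rw [← ENNReal.ofReal_mul (by linarith), ← ENNReal.ofReal_mul (by positivity)]
    refine ENNReal.ofReal_le_ofReal ((hcmp a ha x hx _).trans ?_)
    nlinarith [mul_nonneg (mul_nonneg hC.le n1) (sub_nonneg.2 j1)]
  have me : AEMeasurable (Function.uncurry fun (x : ℂ) (a : E) =>
      ENNReal.ofReal (V.nv (φ a0, x) (M.FamDn_v u (a, x))))
      (volume.prod (μ.restrict (ball a0 (M.δ / 2)))) := by
    rw [← vr, Measure.prod_restrict]
    refine ContinuousOn.aemeasurable ?_ (M.FamDn_open.measurableSet.prod measurableSet_ball)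
    exact ENNReal.continuous_ofReal.comp_continuousOn
      (c0.comp continuous_swap.continuousOn fun p hp => ⟨hp.2, hp.1⟩)
  have s3 : (∫⁻ x, ENNReal.ofReal (V.nv (φ a0, x) (u (a0, x)))) * μ (ball 0 (M.δ / 2)) < ⊤ :=
    calc _ = ∫⁻ x, ENNReal.ofReal (V.nv (φ a0, x) (u (a0, x))) * μ (ball 0 (M.δ / 2)) :=
          (lintegral_mul_const' _ _ measure_ball_lt_top.ne).symm
      _ ≤ ∫⁻ x, ∫⁻ a in ball a0 (M.δ / 2),
            ENNReal.ofReal (V.nv (φ a0, x) (M.FamDn_v u (a, x))) ∂μ :=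
          lintegral_mono_ae (M.FamDn_ae.mono s1)
      _ = ∫⁻ a in ball a0 (M.δ / 2), (∫⁻ x,
            ENNReal.ofReal (V.nv (φ a0, x) (M.FamDn_v u (a, x)))) ∂μ := lintegral_lintegral_swap me
      _ ≤ ∫⁻ a in ball a0 (M.δ / 2), ENNReal.ofReal (4 * C) *
            (∫⁻ x, ENNReal.ofReal (V.nv (φ a, x) (u (a, x)))) ∂μ :=
          setLIntegral_mono' measurableSet_ball s2
      _ ≤ ENNReal.ofReal (4 * C) *
            ∫⁻ a in N, (∫⁻ x, ENNReal.ofReal (V.nv (φ a, x) (u (a, x)))) ∂μ := by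
          rw [lintegral_const_mul' _ _ ENNReal.ofReal_ne_top]
          gcongr
          exact fun a ha => (hr (ball_subset_ball hM (hh ha))).2
      _ < ⊤ := ENNReal.mul_lt_top ENNReal.ofReal_lt_top hfin
  exact ENNReal.lt_top_of_mul_ne_top_left s3.ne (measure_ball_pos μ _ (half_pos M.pos)).ne'

theorem Ctx.fam_dn [CompleteSpace A] [FiniteDimensional ℂ E] {S : Set A} {n : ℕ} {F : A → FD ι n}
    {κW : A → A → GL (Fin n) ℤ} (h : Ctx V S F κW) {φ : E → A} {O : Set E} {u : E × ℂ → ι → ℂ}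
    (hO : IsOpen O) (hφ : ∀ a ∈ O, Plot S φ a)
    (hu : V.HolTop (fun p : E × ℂ => (φ p.1, p.2)) u {p | p.1 ∈ O ∧ (φ p.1, p.2) ∈ Ω})
    (hi : ∀ a ∈ O, Integrable fun x => V.nv (φ a, x) (u (a, x))) : ∀ a ∈ O,
    AnalyticAt ℂ (fun a' => cx (κW (φ a) (φ a')) *ᵥ
      (F (φ a')).cls (V.fib (φ a')) (dxF fun x => u (a', x))) a := by
  intro a0 h0
  have hs := (hφ a0 h0).2.self_of_nhds
  have hF := h.fib _ hs
  choose Kj k1 k2 k3 using hF.cpt
  have hK : IsCompact (⋃ j, Kj j) := isCompact_iUnion k2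
  have hKΩ : (⋃ j, Kj j) ⊆ fb Ω (φ a0) := Set.iUnion_subset k1
  have hKe : ∀ j, ∀ x ∈ fb Ω (φ a0), x ∉ (⋃ j, Kj j) → (F (φ a0)).e j x = 0 :=
    fun j x hx hn => k3 j x hx fun hh => hn (Set.mem_iUnion.2 ⟨j, hh⟩)
  obtain ⟨r, r0, hr⟩ := Metric.mem_nhds_iff.1 (hO.mem_nhds h0)
  obtain ⟨M, hM, -⟩ := exists_fam h.roots V (hφ a0 h0) hK hKΩ r0
  have hb : ball a0 M.δ ⊆ O := (ball_subset_ball hM).trans hr
  have d : ∀ j, DifferentiableOn ℂ (fun a => ∫ x in ⋃ j, Kj j,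
      qf (V.ψ (φ a0, x)) (f1 ((F (φ a0)).e j) x) (M.FamDn_v u (a, x))) (ball a0 M.δ) := fun j =>
    FamDn_param (G := fun p : E × ℂ =>
      qf (V.ψ (φ a0, p.2)) (f1 ((F (φ a0)).e j) p.2) (M.FamDn_v u p)) isOpen_ball hK
      (fun a ha x hx => M.FamDn_pair hb hu (hF.closed j).1.1 ha (hKΩ hx)) fun x hx => by
        simp only [qf, dotProduct, mulVec]
        exact DifferentiableOn.fun_sum fun i _ => DifferentiableOn.const_mul
          (DifferentiableOn.fun_sum fun l _ => DifferentiableOn.const_mul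
            (differentiableOn_pi.1 (M.FamDn_an hb hu (hKΩ hx)) l) _) _
  have e : ∀ a ∈ ball a0 M.δ, ∀ j, (V.fib (φ a0)).Q ((F (φ a0)).e j)
      (M.pb a (dxF fun x => u (a, x))) = -∫ x in ⋃ j, Kj j,
        qf (V.ψ (φ a0, x)) (f1 ((F (φ a0)).e j) x) (M.FamDn_v u (a, x)) := by
    intro a ha j
    rw [VHS.Q, ← setIntegral_eq_integral_of_ae_compl_eq_zero (s := ⋃ j, Kj j)
      (M.FamDn_ae.mono fun x hx hn => by rw [hKe j x hx hn, qf_zero_left]), ← integral_neg]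
    refine setIntegral_congr_fun hK.measurableSet fun x hx => ?_
    rw [M.pb_fix ha _ hx, qf_psi1, two_mulVec, Fam.FamDn_v]
    simp only [(M.fix x hx).self_of_nhds a ha, dxF, Sum.elim_inl, Sum.elim_inr, Pi.zero_apply]
    rw [show (fun _ : ι => (0 : ℂ)) = 0 from rfl, mulVec_zero,
      show (fun i : ι => (0 : ι → ℂ) i) = 0 from rfl, qf_zero_right, add_zero]
    rfl
  have an : AnalyticAt ℂ (fun a => fun j => -∫ x in ⋃ j, Kj j,
      qf (V.ψ (φ a0, x)) (f1 ((F (φ a0)).e j) x) (M.FamDn_v u (a, x))) a0 :=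
    analyticAt_pi_iff.2 fun j => (analyticAt_of_diff (((d j).eventually_differentiableAt
      (ball_mem_nhds a0 M.pos)))).neg
  refine (FamDn_mv ((F (φ a0)).ψ (V.fib (φ a0)))⁻¹ an).congr ?_
  filter_upwards [h.kw E φ a0 _ M (hφ a0 h0) hK hKe, ball_mem_nhds a0 M.pos] with a h1 ha
  rw [h1 _ (VHS.harm_dxF (M.fin a ha) (FamDn_fib hu (hb ha)) (hi a (hb ha))).1.1, FD.cls]
  congr 1
  funext j
  exact (e a ha j).symm

end

end Pool.Agent.Lib.MP_5c318e_ag.V
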