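import Pool.Agent.Lib.MP_5c318e_ag.V.SDefs
import Pool.Agent.Lib.MP_5c318e_ag.V.Frame

/-! Geometry of the slit plane. -/

set_option autoImplicit false

namespace Pool.Agent.Lib.MP_5c318e_ag.V

open Matrix Filter Topology MeasureTheory Complex Metric
open scoped ComplexOrder ContDiff ComplexConjugate

noncomputable section

variable {ι : Type} [Fintype ι] [DecidableEq ι] {w : ℕ} {Ω : Set ℂ} {V : VHS ℂ Ω ι w}

theorem slit_continuous_co (b r : ℂ) : Continuous (co b r) := by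
  unfold co
  fun_prop

theorem slit_co_comb (b r x y : ℂ) {s t : ℝ} (h : s + t = 1) :
    co b r (s • x + t • y) = (s : ℂ) * co b r x + (t : ℂ) * co b r y := by
  have : (t : ℂ) = 1 - s := by
    rw [eq_sub_iff_add_eq'.mpr h]
    push_cast
    ring
  simp only [co, real_smul, this]
  ring

theorem slit_co_re (b r x y : ℂ) {s t : ℝ} (h : s + t = 1) :
    (co b r (s • x + t • y)).re = s * (co b r x).re + t * (co b r y).re := by
  rw [slit_co_comb b r x y h]
  simp

theorem slit_co_im (b r x y : ℂ) {s t : ℝ} (h : s + t = 1) :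
    (co b r (s • x + t • y)).im = s * (co b r x).im + t * (co b r y).im := by
  rw [slit_co_comb b r x y h]
  simp

theorem slit_comb {s t u v : ℝ} (hs : 0 ≤ s) (ht : 0 ≤ t) (h : s + t = 1) (hu : 0 < u)
    (hv : 0 < v) : 0 < s * u + t * v := by
  rcases hs.eq_or_lt with rfl | hs
  · have : t = 1 := by linarith
    simpa [this] using hv
  · have := mul_pos hs hu
    have := mul_nonneg ht hv.le
    linarith

theorem isOpen_cone (b r : ℂ) (ε : ℝ) : IsOpen (cone b r ε) := by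
  have := slit_continuous_co b r
  exact isOpen_lt (by fun_prop) (by fun_prop)

theorem convex_cone (b r : ℂ) (ε : ℝ) : Convex ℝ (cone b r ε) := by
  intro x hx y hy s t hs ht h
  simp only [cone, Set.mem_ofPred_eq, abs_lt] at hx hy ⊢
  rw [slit_co_re b r x y h, slit_co_im b r x y h]
  have h1 := slit_comb hs ht h (sub_pos.mpr hx.1) (sub_pos.mpr hy.1)
  have h2 := slit_comb hs ht h (sub_pos.mpr hx.2) (sub_pos.mpr hy.2)
  constructor <;> nlinarith

theorem convex_cone_minus (b r : ℂ) (ε : ℝ) : Convex ℝ (cone b r ε ∩ {x | (co b r x).im < 0}) := by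
  refine (convex_cone b r ε).inter ?_
  intro x hx y hy s t hs ht h
  simp only [Set.mem_ofPred_eq] at hx hy ⊢
  rw [slit_co_im b r x y h]
  have h1 := slit_comb hs ht h (neg_pos.mpr hx) (neg_pos.mpr hy)
  nlinarith

theorem convex_cone_plus (b r : ℂ) (ε : ℝ) : Convex ℝ (cone b r ε ∩ {x | 0 < (co b r x).im}) := by
  refine (convex_cone b r ε).inter ?_
  intro x hx y hy s t hs ht h
  simp only [Set.mem_ofPred_eq] at hx hy ⊢
  rw [slit_co_im b r x y h]
  exact slit_comb hs ht h hx hy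

theorem isOpen_cut {n : ℕ} (b : ℂ) (r : Fin n → ℂ) : IsOpen (cut b r) := by
  have e : cut b r = ⋂ i, ({x | (co b (r i) x).im = 0} ∩ {x | 0 ≤ (co b (r i) x).re})ᶜ := by
    ext x
    simp [cut]
  rw [e]
  refine isOpen_iInter_of_finite fun i => isOpen_compl_iff.mpr ?_
  have := slit_continuous_co b (r i)
  exact (isClosed_eq (by fun_prop) (by fun_prop)).inter (isClosed_le (by fun_prop) (by fun_prop))

/-- a real line has measure zero -/
theorem slit_ae_line (r : ℂ) {d : ℂ} (hd : d ≠ 0) : ∀ᵐ x : ℂ, ((x - r) / d).im ≠ 0 := by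
  have h1 : (volume : Measure ℂ) (AffineSubspace.mk' r (ℝ ∙ d) : AffineSubspace ℝ ℂ) = 0 := by
    refine Measure.addHaar_affineSubspace _ _ fun hh => ?_
    have h2 : r + I * d ∈ (AffineSubspace.mk' r (ℝ ∙ d) : AffineSubspace ℝ ℂ) := by
      rw [hh]
      exact AffineSubspace.mem_top _ _ _
    rw [AffineSubspace.mem_mk', Submodule.mem_span_singleton] at h2
    obtain ⟨t, ht⟩ := h2
    rw [vsub_eq_sub, add_sub_cancel_left, real_smul] at ht
    have := congrArg Complex.im (mul_right_cancel₀ hd ht)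
    simp at this
  refine measure_mono_null (fun x hx => ?_) h1
  have h3 : ((x - r) / d).im = 0 := by simpa using hx
  rw [SetLike.mem_coe, AffineSubspace.mem_mk', Submodule.mem_span_singleton]
  refine ⟨((x - r) / d).re, ?_⟩
  have h4 : (((x - r) / d).re : ℂ) = (x - r) / d := Complex.ext (by simp) (by simp [h3])
  rw [real_smul, h4, vsub_eq_sub, div_mul_cancel₀ _ hd]

theorem ae_cut {n : ℕ} {b : ℂ} {r : Fin n → ℂ} (h : ∀ i, r i ≠ b) : ∀ᵐ x : ℂ, x ∈ cut b r := by
  have : ∀ᵐ x : ℂ, ∀ i, ((x - r i) / (r i - b)).im ≠ 0 :=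
    ae_all_iff.mpr fun i => slit_ae_line (r i) (sub_ne_zero.mpr (h i))
  filter_upwards [this] with x hx i hh
  exact hx i hh.1

theorem slit_co_base {b r : ℂ} (h : r ≠ b) : co b r b = -1 := by
  have := sub_ne_zero.mpr h
  rw [co, div_eq_iff this]
  ring

theorem slit_co_self (b r : ℂ) : co b r r = 0 := by simp [co]

theorem slit_co_add {b r : ℂ} (h : r ≠ b) (c : ℂ) : co b r (r + c * (r - b)) = c := by
  have := sub_ne_zero.mpr h
  rw [co, add_sub_cancel_left, mul_div_cancel_right₀ _ this]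

theorem slit_co_change {b r r' : ℂ} (h : r ≠ b) (h' : r' ≠ b) (x : ℂ) :
    co b r x = (1 + co b r' x) * ((r' - b) / (r - b)) - 1 := by
  have := sub_ne_zero.mpr h
  have := sub_ne_zero.mpr h'
  simp only [co]
  field_simp
  ring

theorem star_cut {n : ℕ} {b : ℂ} {r : Fin n → ℂ} (h : ∀ i, r i ≠ b) :
    b ∈ cut b r ∧ StarConvex ℝ b (cut b r) := by
  refine ⟨fun i hh => ?_, fun y hy s t hs ht e i hh => ?_⟩
  · rw [slit_co_base (h i)] at hh
    have := hh.2
    norm_num at this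
  · rw [slit_co_re _ _ _ _ e, slit_co_im _ _ _ _ e, slit_co_base (h i)] at hh
    obtain ⟨h1, h2⟩ := hh
    simp only [neg_im, one_im, neg_zero, mul_zero, zero_add, neg_re, one_re, mul_neg,
      mul_one] at h1 h2
    rcases ht.eq_or_lt with rfl | ht
    · have : s = 1 := by linarith
      rw [this] at h2
      norm_num at h2
    · refine hy i ⟨(mul_eq_zero.mp h1).resolve_left ht.ne', ?_⟩
      by_contra h3
      have := mul_neg_of_pos_of_neg ht (not_le.mp h3)
      linarith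

theorem slit_uniq {n : ℕ} {b : ℂ} {r : Fin n → ℂ} {ε : ℝ} (ne : ∀ i, r i ≠ b) (pos : 0 < ε)
    (sep : ∀ i j, i ≠ j → ε * ((r j - b) / (r i - b)).re ≤ |((r j - b) / (r i - b)).im|)
    {i j : Fin n} {x : ℂ} (hi : x ∈ cone b (r i) ε)
    (hj : (co b (r j) x).im = 0 ∧ 0 ≤ (co b (r j) x).re) : i = j := by
  by_contra hne
  have h1 := sep i j hne
  have h2 : |(co b (r i) x).im| < ε * (co b (r i) x).re := hi
  rw [slit_co_change (ne i) (ne j) x] at h2
  set c := (r j - b) / (r i - b)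
  set t := (co b (r j) x).re
  have e1 : ((1 + co b (r j) x) * c - 1).im = (1 + t) * c.im := by
    simp [hj.1, t]
  have e2 : ((1 + co b (r j) x) * c - 1).re = (1 + t) * c.re - 1 := by
    simp [hj.1, t]
  have ht : 0 ≤ 1 + t := by linarith [hj.2]
  rw [e1, e2, abs_mul, abs_of_nonneg ht] at h2
  have := mul_le_mul_of_nonneg_left h1 ht
  nlinarith

theorem slit_minus {b r : ℂ} {ε : ℝ} (ne : r ≠ b) (pos : 0 < ε) :
    (cone b r ε ∩ {x | (co b r x).im < 0}).Nonempty := by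
  refine ⟨r + (⟨1, -(ε / 2)⟩ : ℂ) * (r - b), ?_, ?_⟩
  · show |(co b r _).im| < ε * (co b r _).re
    rw [slit_co_add ne, abs_lt]
    constructor <;> simp only <;> linarith
  · show (co b r _).im < 0
    rw [slit_co_add ne]
    simp only
    linarith

theorem slit_plus {b r : ℂ} {ε : ℝ} (ne : r ≠ b) (pos : 0 < ε) :
    (cone b r ε ∩ {x | 0 < (co b r x).im}).Nonempty := by
  refine ⟨r + (⟨1, ε / 2⟩ : ℂ) * (r - b), ?_, ?_⟩
  · show |(co b r _).im| < ε * (co b r _).re
    rw [slit_co_add ne, abs_lt]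
    constructor <;> simp only <;> linarith
  · show 0 < (co b r _).im
    rw [slit_co_add ne]
    simp only
    linarith

theorem slit_cut_sub {n : ℕ} {b : ℂ} {r : Fin n → ℂ} (mem : ∀ x, x ∈ Ω ↔ ∀ i, x ≠ r i) :
    cut b r ⊆ Ω := by
  intro x hx
  refine (mem x).mpr fun i hh => hx i ?_
  rw [hh, slit_co_self]
  simp

theorem slit_cone_sub {n : ℕ} {b : ℂ} {r : Fin n → ℂ} {ε : ℝ} (mem : ∀ x, x ∈ Ω ↔ ∀ i, x ≠ r i)
    (ne : ∀ i, r i ≠ b) (pos : 0 < ε)
    (sep : ∀ i j, i ≠ j → ε * ((r j - b) / (r i - b)).re ≤ |((r j - b) / (r i - b)).im|)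
    (i : Fin n) : cone b (r i) ε ⊆ Ω := by
  intro x hx
  refine (mem x).mpr fun j hh => ?_
  have h1 : i = j := slit_uniq ne pos sep hx (by rw [hh, slit_co_self]; simp)
  have h2 : |(co b (r i) x).im| < ε * (co b (r i) x).re := hx
  rw [hh, ← h1, slit_co_self] at h2
  simp at h2

theorem slit_mem_cut {n : ℕ} {b : ℂ} {r : Fin n → ℂ} {ε : ℝ} (ne : ∀ i, r i ≠ b) (pos : 0 < ε)
    (sep : ∀ i j, i ≠ j → ε * ((r j - b) / (r i - b)).re ≤ |((r j - b) / (r i - b)).im|)
    (i : Fin n) {x : ℂ} (hx : x ∈ cone b (r i) ε) (h : (co b (r i) x).im ≠ 0) : x ∈ cut b r := by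
  intro j hj
  have h1 : i = j := slit_uniq ne pos sep hx hj
  exact h (h1 ▸ hj.1)

namespace Slit

variable (L : Slit V)

theorem cut_sub : cut L.b L.r ⊆ Ω := slit_cut_sub L.mem

theorem cone_sub (i : Fin L.n) : cone L.b (L.r i) L.ε ⊆ Ω :=
  slit_cone_sub L.mem L.ne L.pos L.sep i

theorem mem_cut (i : Fin L.n) {x : ℂ} (hx : x ∈ cone L.b (L.r i) L.ε)
    (h : (co L.b (L.r i) x).im ≠ 0) : x ∈ cut L.b L.r := slit_mem_cut L.ne L.pos L.sep i hx h

theorem cover {x : ℂ} (hx : x ∈ Ω) : x ∈ cut L.b L.r ∨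
    ∃ i, x ∈ cone L.b (L.r i) L.ε ∧ (co L.b (L.r i) x).im = 0 := by
  by_cases h : x ∈ cut L.b L.r
  · exact Or.inl h
  · right
    simp only [cut, Set.mem_ofPred_eq, not_forall, not_not] at h
    obtain ⟨i, h1, h2⟩ := h
    refine ⟨i, ?_, h1⟩
    show |(co L.b (L.r i) x).im| < L.ε * (co L.b (L.r i) x).re
    rw [h1, abs_zero]
    refine mul_pos L.pos (h2.lt_of_ne fun h3 => (L.mem x).mp hx i ?_)
    have h4 : co L.b (L.r i) x = 0 := Complex.ext h3.symm h1
    rw [co, div_eq_zero_iff] at h4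
    exact sub_eq_zero.mp (h4.resolve_right (sub_ne_zero.mpr (L.ne i)))

theorem uniq {i j : Fin L.n} {x : ℂ} (hi : x ∈ cone L.b (L.r i) L.ε)
    (hj : (co L.b (L.r j) x).im = 0 ∧ 0 ≤ (co L.b (L.r j) x).re) : i = j :=
  slit_uniq L.ne L.pos L.sep hi hj

theorem minus_ne (i : Fin L.n) :
    (cone L.b (L.r i) L.ε ∩ {x | (co L.b (L.r i) x).im < 0}).Nonempty := slit_minus (L.ne i) L.pos

theorem plus_ne (i : Fin L.n) :
    (cone L.b (L.r i) L.ε ∩ {x | 0 < (co L.b (L.r i) x).im}).Nonempty := slit_plus (L.ne i) L.pos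

end Slit

theorem slit_base {n : ℕ} {r : Fin n → ℂ} (hr : Function.Injective r) : ∃ (b : ℂ) (ε : ℝ),
    (∀ i, r i ≠ b) ∧ 0 < ε ∧
      ∀ i j, i ≠ j → ε * ((r j - b) / (r i - b)).re ≤ |((r j - b) / (r i - b)).im| := by
  have h1 : ∀ᵐ x : ℂ, ∀ i, ((x - r i) / 1).im ≠ 0 :=
    ae_all_iff.mpr fun i => slit_ae_line (r i) one_ne_zero
  have h2 : ∀ᵐ x : ℂ, ∀ i j, i ≠ j → ((x - r i) / (r j - r i)).im ≠ 0 :=
    ae_all_iff.mpr fun i => ae_all_iff.mpr fun j => by
      by_cases h : i = j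
      · exact Eventually.of_forall fun _ hh => absurd h hh
      · filter_upwards [slit_ae_line (r i) (sub_ne_zero.mpr fun hh => h (hr hh).symm)] with x hx _
        exact hx
  obtain ⟨b, k1, k2⟩ := (h1.and h2).exists
  have ne : ∀ i, r i ≠ b := fun i hh => k1 i (by simp [hh])
  have h3 : ∀ i j, i ≠ j → ((r j - b) / (r i - b)).im ≠ 0 := by
    intro i j hij hh
    have d1 := sub_ne_zero.mpr (ne i)
    have d2 : r j - r i ≠ 0 := sub_ne_zero.mpr fun hh => hij (hr hh).symm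
    have e : (b - r i) / (r j - r i) = (1 - (r j - b) / (r i - b))⁻¹ := by
      rw [one_sub_div d1, inv_div, div_eq_div_iff d2 (by
        rw [sub_sub_sub_cancel_right]
        exact fun h0 => d2 (by rw [← neg_sub, h0, neg_zero]))]
      ring
    refine k2 i j hij ?_
    rw [e, Complex.inv_im]
    simp [hh]
  have h4 : ∀ᶠ ε : ℝ in 𝓝[>] 0, ∀ i j, i ≠ j →
      ε * ((r j - b) / (r i - b)).re ≤ |((r j - b) / (r i - b)).im| := by
    refine eventually_all.mpr fun i => eventually_all.mpr fun j => ?_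
    by_cases h : i = j
    · exact Eventually.of_forall fun _ hh => absurd h hh
    · have h5 : ∀ᶠ ε : ℝ in 𝓝 0,
          ε * ((r j - b) / (r i - b)).re < |((r j - b) / (r i - b)).im| :=
        ContinuousAt.eventually_lt (by fun_prop) continuousAt_const
          (by simpa using h3 i j h)
      filter_upwards [h5.filter_mono nhdsWithin_le_nhds] with ε hε _
      exact hε.le
  obtain ⟨ε, k3, k4⟩ := (h4.and self_mem_nhdsWithin).exists
  exact ⟨b, ε, ne, k4, k3⟩

theorem slit_germ {B Γ : Type} [TopologicalSpace B] [Group Γ] {U O : Set B} {κ : B → B → Γ}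
    (h : Germ U κ) (hO : O ⊆ U) : Germ O κ :=
  h.comp (φ := id) continuousOn_id hO

theorem exists_slit (hΩ : Ωᶜ.Finite) (V : VHS ℂ Ω ι w) : Nonempty (Slit V) := by
  obtain ⟨n, f, hf⟩ := hΩ.fin_embedding
  have mem : ∀ x, x ∈ Ω ↔ ∀ i, x ≠ f i := by
    intro x
    rw [← not_iff_not, ← Set.mem_compl_iff, ← hf]
    simp [eq_comm]
  obtain ⟨b, ε, ne, pos, sep⟩ := slit_base f.injective
  obtain ⟨k0, _, fr0⟩ := (slit_germ V.germ (slit_cut_sub (b := b) mem)).lift (isOpen_cut b f)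
    (star_cut ne).1 (star_cut ne).2 1
  have h : ∀ i, ∃ (k : ℂ → GL ι ℤ) (T : GL ι ℤ), IsFr (cone b (f i) ε) V.κ k ∧
      (∀ x ∈ cone b (f i) ε ∩ cut b f, (co b (f i) x).im < 0 → k0 x = k x) ∧
      ∀ x ∈ cone b (f i) ε ∩ cut b f, 0 < (co b (f i) x).im → k0 x = T * k x := by
    intro i
    obtain ⟨p, hp⟩ := slit_minus (ne i) pos
    obtain ⟨q, hq⟩ := slit_plus (ne i) pos
    obtain ⟨k, e, fr⟩ := (slit_germ V.germ (slit_cone_sub mem ne pos sep i)).lift
      (isOpen_cone b (f i) ε) hp.1 ((convex_cone b (f i) ε).starConvex hp.1) (k0 p)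
    refine ⟨k, k0 q * (k q)⁻¹, fr, fun x hx hx' => ?_, fun x hx hx' => ?_⟩
    · exact IsFr.uniq (convex_cone_minus b (f i) ε).isPreconnected
        (fr0.mono fun y hy => slit_mem_cut ne pos sep i hy.1 (ne_of_lt hy.2))
        (fr.mono Set.inter_subset_left) hp e.symm x ⟨hx.1, hx'⟩
    · exact IsFr.uniq (convex_cone_plus b (f i) ε).isPreconnected
        (fr0.mono fun y hy => slit_mem_cut ne pos sep i hy.1 (ne_of_gt hy.2))
        ((fr.mono Set.inter_subset_left).mul (k0 q * (k q)⁻¹)) hq (by simp) x ⟨hx.1, hx'⟩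
  choose k T fr minus plus using h
  exact ⟨⟨n, f, b, ε, k0, k, T, mem, ne, pos, sep, fr0, fr, minus, plus⟩⟩

end

end Pool.Agent.Lib.MP_5c318e_ag.V
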