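import Pool.Agent.Lib.MP_5c318e_ag.V.Frame
import Pool.Agent.Lib.MP_5c318e_ag.H.EllC

/-! Weakly closed forms with a smooth codifferential are smooth. -/

set_option autoImplicit false

namespace Pool.Agent.Lib.MP_5c318e_ag.V

open Matrix Filter Topology MeasureTheory Complex Metric
open scoped ComplexOrder ContDiff ComplexConjugate

noncomputable section

variable {ι : Type} [Fintype ι] [DecidableEq ι] {w : ℕ} {Ω : Set ℂ} {V : VHS ℂ Ω ι w}

open Fr Ell

/-- the pairing with the differential of a test section -/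
theorem VHS.exists_test {O : Set ℂ} (hO : IsOpen O) (hs : O ⊆ Ω) {k : ℂ → GL ι ℤ}
    (hk : IsFr O V.κ k) {Q : Matrix ι ι ℂ} (hQ : ∀ y ∈ O, V.ψ y = (cx (k y))ᴴ * Q * cx (k y))
    (hu : IsUnit Q.det) {φ : ℂ → ℂ} (hφ : Test O φ) (i : ι) :
    ∃ e, V.SmS e ∧ Cpt Ω e ∧ ∀ β : Form ι, V.Q (V.D e) β =
      -∫ x, (der I 1 φ x * (cx (k x) *ᵥ f1 β x) i - der (-I) 1 φ x * (cx (k x) *ᵥ f2 β x) i) := by
  let v : ι → ℂ := (Q⁻¹)ᴴ *ᵥ Pi.single i 1
  let e : ℂ → ι → ℂ := fun y => cx (k y)⁻¹ *ᵥ (conj (φ y) • v)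
  have ke : (fun y => cx (k y) *ᵥ e y) = fun y => conj (φ y) • v := funext fun y => by
    simp only [e, mulVec_mulVec, cx_mul_inv, one_mulVec]
  have sc : ∀ x, Sm (fun y => conj (φ y)) x := fun x => Sm.conj hφ.sm.contDiffAt
  have z : ∀ x, x ∉ tsupport φ → e =ᶠ[𝓝 x] 0 := fun x hx =>
    (notMem_tsupport_iff_eventuallyEq.1 hx).mono fun y hy => by simp [e, hy]
  have se : V.SmS e := fun x _ => by
    by_cases hx : x ∈ tsupport φ
    · refine VHS.smS_of_fr hO hs hk (hφ.sub hx) ?_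
      rw [ke]
      exact smV_fmul (sc x) (smV_const v)
    · exact smV_congr (smV_const 0) ((V.loc_congr (z x hx)).trans (by rw [V.loc_zero]))
  refine ⟨e, se, ⟨tsupport φ, hφ.sub.trans hs, hφ.cs, fun x _ hx => (z x hx).self_of_nhds⟩,
    fun β => ?_⟩
  rw [← integral_neg]
  refine integral_congr_ae (Eventually.of_forall fun x => ?_)
  by_cases hx : x ∈ tsupport φ
  · have h := (se.fr hO hs hk (hφ.sub hx)).2
    have d : ∀ c, derV c 1 (fun y => conj (φ y) • v) x = conj (der (conj c) 1 φ x) • v :=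
      fun c => by
        rw [derV_fmul (sc x) (smV_const v), derV_const, smul_zero, zero_add,
          der_conj (Sm.diff hφ.sm.contDiffAt)]
    have q : ∀ (c : ℂ) (u u' : ι → ℂ), cx (k x) *ᵥ u = conj c • v →
        qf (V.ψ x) u u' = c * (cx (k x) *ᵥ u') i := fun c u u' hu' => by
      rw [hQ x (hφ.sub hx), ← qf_mulVec_right, ← qf_mulVec_left, hu', qf_smul_left, conj_conj,
        qf_mulVec_left, conjTranspose_conjTranspose, Matrix.nonsing_inv_mul _ hu]
      simp [qf]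
    rw [ke, two_mulVec, dV, d, d] at h
    have h1 := congrArg (· ∘ Sum.inl) h
    have h2 := congrArg (· ∘ Sum.inr) h
    simp only [Sum.elim_comp_inl, Sum.elim_comp_inr, map_neg, conj_I, neg_neg] at h1 h2
    beta_reduce
    rw [qf_psi1, q _ _ _ h1.symm, q _ _ _ h2.symm]
    unfold f1 f2
    ring
  · simp only [VHS.D_congr_ev (z x hx), VHS.D_zero, qf_zero_left, der_eq_zero_of_notMem hx,
      zero_mul, sub_zero, neg_zero]

theorem VHS.wk {O : Set ℂ} (hO : IsOpen O) (hs : O ⊆ Ω) {k : ℂ → GL ι ℤ}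
    (hk : IsFr O V.κ k) {Q : Matrix ι ι ℂ} (hQ : ∀ y ∈ O, V.ψ y = (cx (k y))ᴴ * Q * cx (k y))
    (hu : IsUnit Q.det) {α : Form ι} (h : ∀ e, V.SmS e → Cpt Ω e → V.Q (V.D e) α = 0) :
    WK O (fun x => cx (k x) *ᵥ f1 α x) (fun x => cx (k x) *ᵥ f2 α x) 0 := fun φ hφ i => by
  obtain ⟨e, h1, h2, h3⟩ := V.exists_test hO hs hk hQ hu hφ i
  have := h e h1 h2
  rw [h3, neg_eq_zero] at this
  simpa only [Pi.zero_apply, mul_zero, sub_zero] using this

theorem parts2 {O : Set ℂ} {φ : ℂ → ℂ} (hφ : Test O φ) {a b : ℂ → ℂ} (ha : ∀ x ∈ O, Sm a x)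
    (hb : ∀ x ∈ O, Sm b x) : ∫ x, (der I 1 φ x * a x - der (-I) 1 φ x * b x) =
      ∫ x, φ x * (der (-I) 1 b x - der I 1 a x) := by
  simp only [mul_sub]
  rw [integral_sub ((hφ.der _ _).mul ha).integrable' ((hφ.der _ _).mul hb).integrable',
    integral_sub (hφ.mul fun x hx => (hb x hx).der _ _).integrable'
      (hφ.mul fun x hx => (ha x hx).der _ _).integrable', hφ.parts ha, hφ.parts hb]
  ring

/-- a smooth weakly closed form is closed -/
theorem VHS.closed_of_weak (hΩ : Ωᶜ.Finite) {α : Form ι} (hα : V.SmF α)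
    (h1 : ∀ e, V.SmS e → Cpt Ω e → V.Q (V.D e) α = 0) : V.Closed α := by
  have op : IsOpen Ω := isClosed_compl_iff.1 hΩ.isClosed
  refine ⟨hα, fun x hx => funext fun i => ?_⟩
  obtain ⟨r, hr, hs, hk, hQ, -⟩ := V.exists_lv op hx
  have a := fun y hy => (hα.1.fr isOpen_ball hs hk (x := y) hy).1 i
  have b := fun y hy => (hα.2.fr isOpen_ball hs hk (x := y) hy).1 i
  have s := fun y hy => ContDiffAt.sub ((b y hy).der (-I) 1) ((a y hy).der I 1)
  have := ae_zero_of_test isOpen_ball (locInt_of_sm isOpen_ball s) fun φ hφ => by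
    rw [← parts2 hφ a b]
    simpa only [Pi.zero_apply, mul_zero, sub_zero] using
      V.wk isOpen_ball hs hk hQ (V.phs x hx).unit h1 φ hφ i
  have := eq_of_ae (g := fun _ => 0) (s x (mem_ball_self hr)).continuousAt
    continuousAt_const (ev_ae_of (ball_mem_nhds x hr) this)
  exact (sub_eq_zero.1 this).symm

theorem VHS.reg (op : IsOpen Ω) {α g : Form ι} (hg : V.SmF g) {x : ℂ} (hx : x ∈ Ω)
    (hi : IntegrableAtFilter (fun y => two (cx (V.κ x y)) *ᵥ α y) (𝓝 x))
    (h1 : ∀ e, V.SmS e → Cpt Ω e → V.Q (V.D e) α = 0)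
    (h2 : ∀ e, V.SmS e → Cpt Ω e → V.Q (V.D e) (V.cF α) = V.Q (V.D e) (V.cF g)) (j : ι ⊕ ι) :
    Reg x fun y => (two (cx (V.κ x y)) *ᵥ α y) j := by
  obtain ⟨r, hr, hs, hk, hQ, L⟩ := V.exists_lv op hx
  obtain ⟨s, hs1, hs2⟩ := hi
  let O := ball x r ∩ interior s
  have hO : IsOpen O := isOpen_ball.inter isOpen_interior
  have sO : O ⊆ ball x r := Set.inter_subset_left
  have sΩ := sO.trans hs
  have hk' := hk.mono sO
  have hQ' := fun y hy => hQ y (sO hy)
  have hu := (V.phs x hx).unit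
  have L' : LV O (V.ψ x) (wt w) fun p y => cx (V.κ x y) * V.π p y * cx (V.κ x y)⁻¹ :=
    ⟨hO, fun p y hy => L.sm p y (sO hy), fun y hy => L.prj y (sO hy), fun y hy => L.adj y (sO hy),
      fun y hy => L.pos y (sO hy), fun y hy => L.ax y (sO hy)⟩
  have li : ∀ j, LocallyIntegrableOn (fun y => (two (cx (V.κ x y)) *ᵥ α y) j) O := fun j =>
    IntegrableOn.locallyIntegrableOn
      ((hs2.mono_set (Set.inter_subset_right.trans interior_subset)).eval j)
  have ia : LI O fun y => cx (V.κ x y) *ᵥ f1 α y := fun i => by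
    simpa only [two_mulVec, Sum.elim_inl] using! li (Sum.inl i)
  have ib : LI O fun y => cx (V.κ x y) *ᵥ f2 α y := fun i => by
    simpa only [two_mulVec, Sum.elim_inr] using! li (Sum.inr i)
  have a := fun y hy => ((hg.cF op).1.fr hO sΩ hk' (x := y) hy).1
  have b := fun y hy => ((hg.cF op).2.fr hO sΩ hk' (x := y) hy).1
  have sf := fun y hy i => ContDiffAt.sub ((b y hy i).der (-I) 1) ((a y hy i).der I 1)
  have c : ∀ y ∈ O, ∀ u, wey (wt w) (fun p y => cx (V.κ x y) * V.π p y * cx (V.κ x y)⁻¹) y *ᵥ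
      (cx (V.κ x y) *ᵥ u) = cx (V.κ x y) *ᵥ (weyP w (fun p => V.π p y) *ᵥ u) := fun y _ u => by
    simp only [mulVec_mulVec, wey, weyP, Finset.sum_mul, Finset.mul_sum, Matrix.smul_mul,
      Matrix.mul_smul, Matrix.mul_assoc, cx_inv_mul, Matrix.mul_one]
  have key := lv_reg L' ⟨mem_ball_self hr, mem_interior_iff_mem_nhds.2 hs1⟩ ia ib sf
    (V.wk hO sΩ hk' hQ' hu h1) fun φ hφ i => by
      obtain ⟨e, e1, e2, e3⟩ := V.exists_test hO sΩ hk' hQ' hu hφ i
      have := h2 e e1 e2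
      rw [e3, e3, neg_inj, parts2 hφ (fun y hy => a y hy i) fun y hy => b y hy i] at this
      refine (integral_sub (((hφ.der _ _).integrable
        (ia.mul hO (fun y hy => (L'.sm_wey hy).neg) i)).sub ((hφ.der _ _).integrable
          (ib.mul hO (fun y hy => L'.sm_wey hy) i)))
        (hφ.mul fun y hy => sf y hy i).integrable').trans (sub_eq_zero.2 (Eq.trans ?_ this))
      refine integral_congr_ae (Eventually.of_forall fun y => ?_)
      by_cases hy : y ∈ O
      · have e : V.cF α y = _ := congrArg (· *ᵥ α y) (weyP_prj1 (V.phs y (sΩ hy)).prj)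
        have q1 : f1 (V.cF α) y = -(weyP w (fun p => V.π p y) *ᵥ f1 α y) := funext fun i => by
          simp only [f1, e, fromBlocks_mulVec, Sum.elim_inl, zero_mulVec, add_zero, neg_mulVec]
          rfl
        have q2 : f2 (V.cF α) y = weyP w (fun p => V.π p y) *ᵥ f2 α y := funext fun i => by
          simp only [f2, e, fromBlocks_mulVec, Sum.elim_inr, zero_mulVec, zero_add]
          rfl
        simp only [Pi.sub_apply, neg_mulVec, c y hy, q1, q2, mulVec_neg]
      · simp only [Pi.sub_apply, (hφ.der _ _).zero hy, zero_mul]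
  rcases j with i | i
  · simpa only [two_mulVec, Sum.elim_inl] using! (key i).1
  · simpa only [two_mulVec, Sum.elim_inr] using! (key i).2

theorem VHS.weyl (hΩ : Ωᶜ.Finite) {α g : Form ι} (hg : V.SmF g)
    (hi : ∀ x ∈ Ω, IntegrableAtFilter (fun y => two (cx (V.κ x y)) *ᵥ α y) (𝓝 x))
    (h1 : ∀ e, V.SmS e → Cpt Ω e → V.Q (V.D e) α = 0)
    (h2 : ∀ e, V.SmS e → Cpt Ω e → V.Q (V.D e) (V.cF α) = V.Q (V.D e) (V.cF g)) :
    ∃ ζ, V.Closed ζ ∧ ∀ᵐ x, α x = ζ x := by
  have op : IsOpen Ω := isClosed_compl_iff.1 hΩ.isClosed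
  choose! G s e using fun x hx => V.reg op hg hx (hi x hx) h1 h2
  have s' : ∀ x ∈ Ω, ∀ᶠ y in 𝓝 x, ∀ j, Sm (G x j) y := fun x hx => eventually_all.2 (s x hx)
  have e' : ∀ x ∈ Ω, ∀ᶠ y in 𝓝 x ⊓ ae volume, two (cx (V.κ x y)) *ᵥ α y = fun j => G x j y :=
    fun x hx => (eventually_all.2 (e x hx)).mono fun y hy => funext hy
  have key : ∀ x ∈ Ω, ∀ᶠ y in 𝓝 x,
      two (cx (V.κ x y)) *ᵥ (fun j => G y j y) = fun j => G x j y := fun x hx => by
    filter_upwards [op.mem_nhds hx, s' x hx, ev_ae_nhds (e' x hx),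
      ev_within op hx (V.germ.coc x hx)] with y hy p1 p2 p3
    refine eq_of_ae (f := fun z => two (cx (V.κ x y)) *ᵥ fun j => G y j z)
      (g := fun z j => G x j z) (continuousAt_pi.2 fun j => (sm_mulVec (smM_const _)
        (s' y hy).self_of_nhds j).continuousAt) (continuousAt_pi.2 fun j => (p1 j).continuousAt) ?_
    filter_upwards [p2, e' y hy, mem_inf_of_left (ev_within op hy p3)] with z q1 q2 q3
    rw [← q1, ← q2, q3, mulVec_mulVec, two_mul_two, cx_mul]
  have ae : ∀ᵐ x, α x = fun j => G x j x := by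
    have := ae_of_local (U := Ω) (p := fun y => α y = fun j => G y j y) fun x hx => by
      filter_upwards [e' x hx, mem_inf_of_left (key x hx)] with y q1 q2
      have := congrArg (two (cx (V.κ x y)⁻¹) *ᵥ ·) (q1.trans q2.symm)
      simpa only [mulVec_mulVec, two_mul_two, cx_inv_mul, two_one, one_mulVec] using this
    filter_upwards [this, compl_mem_ae_iff.2 (hΩ.measure_zero volume)] with x h hx
    exact h (not_not.1 hx)
  refine ⟨fun x j => G x j x, VHS.closed_of_weak hΩ ⟨fun x hx i => ?_, fun x hx i => ?_⟩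
    fun e e1 e2 => ?_, ae⟩
  · refine ((s' x hx).self_of_nhds (Sum.inl i)).congr_of_eventuallyEq
      ((key x hx).mono fun y hy => ?_)
    simpa only [two_mulVec, Sum.elim_inl] using! congrFun hy (Sum.inl i)
  · refine ((s' x hx).self_of_nhds (Sum.inr i)).congr_of_eventuallyEq
      ((key x hx).mono fun y hy => ?_)
    simpa only [two_mulVec, Sum.elim_inr] using! congrFun hy (Sum.inr i)
  · rw [← h1 e e1 e2]
    exact integral_congr_ae (ae.mono fun y hy => by simp only [hy])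

end

end Pool.Agent.Lib.MP_5c318e_ag.V
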