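import Pool.Agent.Lib.MP_5c318e_ag.V.Int
import Pool.Agent.Lib.MP_5c318e_ag.V.Weyl
import Pool.Agent.Lib.MP_5c318e_ag.V.Slit

/-! The orthogonal decomposition of square integrable forms. -/

set_option autoImplicit false
set_option linter.unusedSectionVars false

namespace Pool.Agent.Lib.MP_5c318e_ag.V

open Matrix Filter Topology MeasureTheory Complex Metric
open scoped ComplexOrder ContDiff ComplexConjugate

noncomputable section

variable {ι : Type} [Fintype ι] [DecidableEq ι] {w : ℕ} {Ω : Set ℂ} {V : VHS ℂ Ω ι w}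

namespace Hdg

section Root

open scoped MatrixOrder Matrix.Norms.L2Operator

/-- a continuous square root of positive matrices -/
theorem exists_root (J : Type) [Fintype J] [DecidableEq J] : ∃ R : Matrix J J ℂ → Matrix J J ℂ,
    ContinuousOn R {H | H.PosSemidef} ∧ ∀ H, H.PosSemidef → (R H)ᴴ * R H = H := by
  refine ⟨CFC.sqrt, ?_, fun H h => ?_⟩
  · exact (CFC.continuousOn_sqrt (A := Matrix J J ℂ)).mono fun H h => h.nonneg
  · rw [(CFC.sqrt_nonneg H).posSemidef.isHermitian.eq, CFC.sqrt_mul_sqrt_self H h.nonneg]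

end Root

/-- three orthogonal parts -/
theorem three {E : Type} [NormedAddCommGroup E] [InnerProductSpace ℂ E] [CompleteSpace E]
    (B B' : Submodule ℂ E) (ho : ∀ b ∈ B, ∀ b' ∈ B', inner ℂ b b' = 0) (v : E) :
    ∃ h n m : E, v = h + n + m ∧ n ∈ closure (B : Set E) ∧ m ∈ closure (B' : Set E) ∧
      (∀ b ∈ B, inner ℂ b h = 0 ∧ inner ℂ b m = 0) ∧
      ∀ b ∈ B', inner ℂ b h = 0 ∧ inner ℂ b n = 0 := by
  have : CompleteSpace B.topologicalClosure := B.isClosed_topologicalClosure.completeSpace_coe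
  have : CompleteSpace B'.topologicalClosure := B'.isClosed_topologicalClosure.completeSpace_coe
  obtain ⟨n, hn, z, hz, e1⟩ := Submodule.exists_add_mem_mem_orthogonal (K := B.topologicalClosure) v
  obtain ⟨m, hm, h, hh, e2⟩ :=
    Submodule.exists_add_mem_mem_orthogonal (K := B'.topologicalClosure) z
  have key : ∀ (b : E) (K : Submodule ℂ E), (∀ c ∈ K, inner ℂ b c = 0) →
      ∀ c ∈ closure (K : Set E), inner ℂ b c = 0 := fun b K hK c hc =>
    closure_minimal (t := {c | inner ℂ b c = 0}) hK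
      (isClosed_eq (by fun_prop) continuous_const) hc
  refine ⟨h, n, m, by rw [e1, e2]; abel, hn, hm, fun b hb => ?_, fun b hb => ⟨?_, ?_⟩⟩
  · have h1 : inner ℂ b m = 0 := key b B' (ho b hb) m hm
    have h2 : inner ℂ b z = 0 := (Submodule.mem_orthogonal _ _).1 hz b (B.le_topologicalClosure hb)
    rw [e2, inner_add_right, h1, zero_add] at h2
    exact ⟨h2, h1⟩
  · exact (Submodule.mem_orthogonal _ _).1 hh b (B'.le_topologicalClosure hb)
  · exact key b B (fun c hc => inner_eq_zero_symm.1 (ho c hc b hb)) n hn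

theorem int_inner {E : Type} [NormedAddCommGroup E] [InnerProductSpace ℂ E] {μ : Measure ℂ}
    {f g : ℂ → E} (hf : MemLp f 2 μ) (hg : MemLp g 2 μ) :
    Integrable (fun x => inner ℂ (f x) (g x)) μ :=
  (L2.integrable_inner (hf.toLp f) (hg.toLp g)).congr (by
    filter_upwards [hf.coeFn_toLp, hg.coeFn_toLp] with x h1 h2
    rw [h1, h2])

theorem isOpen_of (hΩ : Ωᶜ.Finite) : IsOpen Ω := by
  simpa using hΩ.isClosed.isOpen_compl

theorem ae_mem (hΩ : Ωᶜ.Finite) : ∀ᵐ x : ℂ, x ∈ Ω := hΩ.measure_zero volume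

/-- the restriction to a subset -/
def res (V : VHS ℂ Ω ι w) {O : Set ℂ} (h : O ⊆ Ω) : VHS ℂ O ι w :=
  V.pull O (fun x => x) (fun _ _ => analyticAt_id) h

theorem fr_mono {O O' : Set ℂ} {κ : ℂ → ℂ → GL ι ℤ} {k : ℂ → GL ι ℤ} (hk : IsFr O κ k)
    (h : O' ⊆ O) : IsFr O' κ k := fun y hy => (hk y (h hy)).filter_mono (nhdsWithin_mono _ h)

theorem smF_flat (hO : IsOpen Ω) {k : ℂ → GL ι ℤ} (hk : IsFr Ω V.κ k) (u : ι ⊕ ι → ℂ) :
    V.SmF fun y => two (cx (k y)⁻¹) *ᵥ u := by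
  refine ⟨fun x hx => VHS.smS_of_fr hO subset_rfl hk hx ?_,
    fun x hx => VHS.smS_of_fr hO subset_rfl hk hx ?_⟩
  · have e : (fun y => cx (k y) *ᵥ f1 (fun y => two (cx (k y)⁻¹) *ᵥ u) y) =
        fun _ i => u (Sum.inl i) := by
      funext y
      have : f1 (fun y => two (cx (k y)⁻¹) *ᵥ u) y = cx (k y)⁻¹ *ᵥ fun i => u (Sum.inl i) := by
        funext i
        simp only [f1, two_mulVec, Sum.elim_inl]
      rw [this, mulVec_mulVec, cx_mul_inv, one_mulVec]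
    rw [e]
    exact fun _ => contDiffAt_const
  · have e : (fun y => cx (k y) *ᵥ f2 (fun y => two (cx (k y)⁻¹) *ᵥ u) y) =
        fun _ i => u (Sum.inr i) := by
      funext y
      have : f2 (fun y => two (cx (k y)⁻¹) *ᵥ u) y = cx (k y)⁻¹ *ᵥ fun i => u (Sum.inr i) := by
        funext i
        simp only [f2, two_mulVec, Sum.elim_inr]
      rw [this, mulVec_mulVec, cx_mul_inv, one_mulVec]
    rw [e]
    exact fun _ => contDiffAt_const

theorem cont_fr {O : Set ℂ} (hO : IsOpen O) (hs : O ⊆ Ω) {k : ℂ → GL ι ℤ} (hk : IsFr O V.κ k)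
    {α : Form ι} (h : V.SmF α) : ContinuousOn (fun y => two (cx (k y)) *ᵥ α y) O := by
  refine continuousOn_pi.2 fun j x hx => ?_
  simp only [two_mulVec]
  rcases j with i | i
  · exact ((h.1.fr hO hs hk hx).1 i).continuousAt.continuousWithinAt
  · exact ((h.2.fr hO hs hk hx).1 i).continuousAt.continuousWithinAt

theorem two_pos {x : ℂ} (hx : x ∈ Ω) : (two (V.H x)).PosDef := by
  have h := (V.phs x hx).one.pos
  rwa [(V.phs x hx).psi1_wey] at h

theorem two_inv (g : GL ι ℤ) : two (cx g⁻¹) * two (cx g) = 1 := by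
  rw [two_mul_two, cx_inv_mul, two_one]

theorem two_inv' (g : GL ι ℤ) : two (cx g) * two (cx g⁻¹) = 1 := by
  rw [two_mul_two, cx_mul_inv, two_one]

theorem qf_entry {J : Type} [Fintype J] [DecidableEq J] (M : Matrix J J ℂ) (i j : J) :
    qf M (Pi.single i 1) (Pi.single j 1) = M i j := by
  simp [qf, Pi.star_single]

/-- a form in the unitary frame `S` -/
def tr (S : ℂ → Matrix (ι ⊕ ι) (ι ⊕ ι) ℂ) (α : Form ι) : ℂ → EuclideanSpace ℂ (ι ⊕ ι) :=
  fun x => WithLp.toLp 2 (S x *ᵥ α x)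

/-- a measurable unitary frame -/
structure Gau (V : VHS ℂ Ω ι w) (S : ℂ → Matrix (ι ⊕ ι) (ι ⊕ ι) ℂ) : Prop where
  sq : ∀ᵐ x, x ∈ Ω ∧ (S x)ᴴ * S x = two (V.H x)
  meas : ∀ (U : Set ℂ) (hU : U ⊆ Ω), IsOpen U → ∀ α, (res V hU).SmF α →
    AEStronglyMeasurable (tr S α) (volume.restrict U)

theorem exists_gau (hΩ : Ωᶜ.Finite) (V : VHS ℂ Ω ι w) : ∃ S, Gau V S := by
  obtain ⟨L⟩ := exists_slit hΩ V
  obtain ⟨R, Rc, Rs⟩ := exists_root (ι ⊕ ι)
  have hO := isOpen_cut L.b L.r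
  have hs := L.cut_sub
  have ha := ae_cut L.ne
  set O := cut L.b L.r
  let H' : ℂ → Matrix (ι ⊕ ι) (ι ⊕ ι) ℂ := fun y =>
    (two (cx (L.k0 y)⁻¹))ᴴ * two (V.H y) * two (cx (L.k0 y)⁻¹)
  have Hp : ∀ y ∈ O, (H' y).PosSemidef := fun y hy =>
    (two_pos (hs hy)).posSemidef.conjTranspose_mul_mul_same _
  have Hc : ContinuousOn H' O := by
    refine continuousOn_pi.2 fun i => continuousOn_pi.2 fun j => ?_
    have s1 := smF_flat (V := res V hs) hO L.fr0 (Pi.single i 1)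
    have s2 := (smF_flat (V := res V hs) hO L.fr0 (Pi.single j 1)).cF hO
    refine ContinuousOn.congr
      (fun y hy => (VHS.sm_pair hO s1 s2 y hy).continuousAt.continuousWithinAt) fun y hy => ?_
    have e := VHS.pair_cF (V := res V hs) (fun y => two (cx (L.k0 y)⁻¹) *ᵥ Pi.single i 1)
      (fun y => two (cx (L.k0 y)⁻¹) *ᵥ Pi.single j 1) y hy
    refine Eq.trans ?_ e.symm
    rw [qf_mulVec_left, qf_mulVec_right, qf_entry]
    rfl
  refine ⟨fun y => R (H' y) * two (cx (L.k0 y)), ?_, fun U hU oU α hα => ?_⟩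
  · filter_upwards [ha] with y hy
    refine ⟨hs hy, ?_⟩
    rw [conjTranspose_mul, Matrix.mul_assoc, ← Matrix.mul_assoc (R (H' y))ᴴ, Rs _ (Hp y hy)]
    simp only [H', Matrix.mul_assoc]
    rw [two_inv, Matrix.mul_one, ← Matrix.mul_assoc, ← conjTranspose_mul, two_inv,
      conjTranspose_one, Matrix.one_mul]
  · have e : volume.restrict U = volume.restrict (U ∩ O) := by
      refine Measure.restrict_congr_set ?_
      filter_upwards [ha] with y hy
      exact propext ⟨fun h => ⟨h, hy⟩, fun h => h.1⟩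
    rw [e]
    refine ContinuousOn.aestronglyMeasurable ?_ (oU.inter hO).measurableSet
    have c1 : ContinuousOn (fun y => two (cx (L.k0 y)) *ᵥ α y) (U ∩ O) :=
      cont_fr (V := res V hU) (oU.inter hO) Set.inter_subset_left
        (fr_mono L.fr0 Set.inter_subset_right) hα
    have c2 : ContinuousOn (fun y => R (H' y)) (U ∩ O) :=
      (Rc.comp Hc Hp).mono Set.inter_subset_right
    have c3 := (continuous_fst.matrix_mulVec continuous_snd).comp_continuousOn (c2.prodMk c1)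
    refine ((PiLp.continuous_toLp 2 _).comp_continuousOn c3).congr fun y _ => ?_
    simp only [tr, Function.comp_apply, mulVec_mulVec]

theorem inner_tr {S : ℂ → Matrix (ι ⊕ ι) (ι ⊕ ι) ℂ} {x : ℂ} (h : (S x)ᴴ * S x = two (V.H x))
    (α β : Form ι) : inner ℂ (tr S α x) (tr S β x) = qf (two (V.H x)) (α x) (β x) := by
  rw [← h, ← qf_mulVec_right, ← Matrix.mul_one (S x)ᴴ, ← qf_mulVec_left]
  simp only [tr, EuclideanSpace.inner_toLp_toLp, qf, one_mulVec]
  exact dotProduct_comm _ _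

theorem norm_tr {S : ℂ → Matrix (ι ⊕ ι) (ι ⊕ ι) ℂ} {x : ℂ} (h : (S x)ᴴ * S x = two (V.H x))
    (α : Form ι) : ‖tr S α x‖ ^ 2 = V.nrm α x := by
  rw [VHS.nrm, ← inner_tr h, @norm_sq_eq_re_inner ℂ]
  rfl

theorem Q_cF_cF (hΩ : Ωᶜ.Finite) (α β : Form ι) : V.Q (V.cF α) (V.cF β) = V.Q α β :=
  (VHS.Q_mulF hΩ (fun x hx => (V.phs x hx).one.wey_adj) α (V.cF β)).trans
    (VHS.Q_congr hΩ (fun _ _ => rfl) (VHS.cF_cF β))

/-- the space of square integrable maps -/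
abbrev Hs (ι : Type) [Fintype ι] : Type := Lp (EuclideanSpace ℂ (ι ⊕ ι)) 2 (volume : Measure ℂ)

/-- `F` is the class of the form `α` -/
def Rep (S : ℂ → Matrix (ι ⊕ ι) (ι ⊕ ι) ℂ) (F : Hs ι) (α : Form ι) : Prop := F =ᵐ[volume] tr S α

namespace Rep

variable {S : ℂ → Matrix (ι ⊕ ι) (ι ⊕ ι) ℂ} {F G : Hs ι} {α β : Form ι}

theorem congr (h : Rep S F α) (e : ∀ᵐ x, α x = β x) : Rep S F β := by
  filter_upwards [h, e] with x h1 h2
  rw [h1, tr, tr, h2]

theorem add (h : Rep S F α) (h' : Rep S G β) : Rep S (F + G) (α + β) := by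
  filter_upwards [h, h', Lp.coeFn_add F G] with x h1 h2 h3
  rw [h3, Pi.add_apply, h1, h2]
  simp only [tr, Pi.add_apply, mulVec_add, WithLp.toLp_add]

theorem sub (h : Rep S F α) (h' : Rep S G β) : Rep S (F - G) (α - β) := by
  filter_upwards [h, h', Lp.coeFn_sub F G] with x h1 h2 h3
  rw [h3, Pi.sub_apply, h1, h2]
  simp only [tr, Pi.sub_apply, mulVec_sub, WithLp.toLp_sub]

theorem smul (h : Rep S F α) (c : ℂ) : Rep S (c • F) (c • α) := by
  filter_upwards [h, Lp.coeFn_smul c F] with x h1 h3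
  rw [h3, Pi.smul_apply, h1]
  simp only [tr, Pi.smul_apply, mulVec_smul, WithLp.toLp_smul]

theorem zero : Rep S 0 0 := by
  filter_upwards [Lp.coeFn_zero (EuclideanSpace ℂ (ι ⊕ ι)) 2 (volume : Measure ℂ)] with x h
  rw [h]
  simp only [tr, Pi.zero_apply, mulVec_zero, WithLp.toLp_zero]

theorem inner_eq (g : Gau V S) (h : Rep S F α) (h' : Rep S G β) :
    inner ℂ F G = V.Q α (V.cF β) := by
  rw [L2.inner_def]
  refine integral_congr_ae ?_
  filter_upwards [h, h', g.sq] with x h1 h2 h3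
  rw [h1, h2, inner_tr h3.2, VHS.pair_cF α β x h3.1]

theorem inner_eq' (hΩ : Ωᶜ.Finite) (g : Gau V S) (h : Rep S F (V.cF α)) (h' : Rep S G β) :
    inner ℂ F G = V.Q α β := by
  rw [inner_eq g h h', Q_cF_cF hΩ]

theorem norm_eq (hΩ : Ωᶜ.Finite) (g : Gau V S) (h : Rep S F α) : ‖F‖ ^ 2 = ∫ x, V.nrm α x := by
  rw [@norm_sq_eq_re_inner ℂ, inner_eq g h h, VHS.Q_cF_self hΩ]
  rfl

theorem l2 (g : Gau V S) (h : Rep S F α) : V.L2 α := by
  refine ((memLp_two_iff_integrable_sq_norm (Lp.aestronglyMeasurable F)).1 (Lp.memLp F)).congr ?_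
  filter_upwards [h, g.sq] with x h1 h3
  rw [h1, norm_tr h3.2]

theorem small (hΩ : Ωᶜ.Finite) (g : Gau V S) (h : Rep S F α) (h' : Rep S G β) {ε : ℝ}
    (hd : dist F G < √ε) : ∫ x, V.nrm (α - β) x < ε := by
  rw [← norm_eq hΩ g (h.sub h'), ← dist_eq_norm]
  exact (Real.lt_sqrt dist_nonneg).1 hd

/-- the class of a form is locally integrable in flat frames -/
theorem loc_int (g : Gau V S) (hO : IsOpen Ω) (h : Rep S F α) : ∀ x ∈ Ω,
    IntegrableAtFilter (fun y => two (cx (V.κ x y)) *ᵥ α y) (𝓝 x) := by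
  intro x hx
  obtain ⟨r, hr, hb, hk, hψ, -⟩ := V.exists_lv hO hx
  have hs : closedBall x (r / 2) ⊆ ball x r := closedBall_subset_ball (by linarith)
  refine ⟨closedBall x (r / 2), closedBall_mem_nhds x (by linarith), ?_⟩
  refine integrable_pi_iff.2 fun j => ?_
  let u : ι ⊕ ι → ℂ := ((psi1 (V.ψ x))⁻¹)ᴴ *ᵥ Pi.single j 1
  let β : Form ι := fun y => two (cx (V.κ x y)⁻¹) *ᵥ u
  have s1 : (res V hb).SmF (V.cF β) := (smF_flat (V := res V hb) isOpen_ball hk u).cF isOpen_ball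
  have m1 : MemLp (tr S (V.cF β)) 2 (volume.restrict (closedBall x (r / 2))) := by
    refine (memLp_two_iff_integrable_sq_norm
      ((g.meas _ hb isOpen_ball _ s1).mono_measure (Measure.restrict_mono hs le_rfl))).2 ?_
    refine (((VHS.nrm_cont isOpen_ball s1).mono hs).integrableOn_compact
      (isCompact_closedBall _ _)).congr ?_
    filter_upwards [ae_restrict_of_ae g.sq] with y hy
    exact (norm_tr hy.2 _).symm
  refine (int_inner m1 ((Lp.memLp F).restrict _)).congr ?_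
  filter_upwards [ae_restrict_of_ae g.sq, ae_restrict_of_ae h,
    ae_restrict_mem measurableSet_closedBall] with y h1 h2 h3
  have P := (V.phs y h1.1).one
  have e1 : qf (psi1 (V.ψ y)) (V.cF β y) (V.cF α y) = qf (psi1 (V.ψ y)) (β y) (α y) := by
    simp only [VHS.cF, mulF]
    rw [qf_mulVec_left, qf_mulVec_right, P.wey_adj, Matrix.mul_assoc, P.wey_sq, Matrix.mul_one]
  have e2 : psi1 (V.ψ y) = (two (cx (V.κ x y)))ᴴ * psi1 (V.ψ x) * two (cx (V.κ x y)) := by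
    rw [hψ y (hs h3), ← jm_one_zero, jm_psi1]
    simp
  rw [h2, inner_tr h1.2, ← VHS.pair_cF (V.cF β) α y h1.1, e1, e2]
  simp only [β, u]
  rw [← qf_mulVec_right, qf_mulVec_left, ← Matrix.mul_assoc, ← conjTranspose_mul, two_inv',
    conjTranspose_one, Matrix.one_mul, qf_mulVec_left, conjTranspose_conjTranspose,
    Matrix.nonsing_inv_mul _ (V.phs x hx).one.unit]
  simp [qf, Pi.star_single]

end Rep

variable {S : ℂ → Matrix (ι ⊕ ι) (ι ⊕ ι) ℂ}

theorem Gau.exists_form (g : Gau V S) (F : Hs ι) : ∃ α, Rep S F α := by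
  refine ⟨fun x => (S x)⁻¹ *ᵥ (F x).ofLp, ?_⟩
  filter_upwards [g.sq] with x hx
  have hu : IsUnit (S x).det := by
    have h1 := (two_pos (V := V) hx.1).det_pos.ne'
    rw [← hx.2, det_mul] at h1
    exact (right_ne_zero_of_mul h1).isUnit
  rw [tr, mulVec_mulVec, Matrix.mul_nonsing_inv _ hu, one_mulVec]

theorem Gau.exists_cls (hΩ : Ωᶜ.Finite) (g : Gau V S) {α : Form ι} (s : V.SmF α) (h : V.L2 α) :
    ∃ F, Rep S F α := by
  have m := g.meas Ω subset_rfl (isOpen_of hΩ) α s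
  rw [Measure.restrict_eq_self_of_ae_mem (ae_mem hΩ)] at m
  have m2 : MemLp (tr S α) 2 volume := by
    refine (memLp_two_iff_integrable_sq_norm m).2 (Integrable.congr h ?_)
    filter_upwards [g.sq] with x hx
    exact (norm_tr hx.2 _).symm
  exact ⟨m2.toLp _, m2.coeFn_toLp⟩

/-- the classes of differentials of sections with compact support -/
def spc (hΩ : Ωᶜ.Finite) (V : VHS ℂ Ω ι w) (S : ℂ → Matrix (ι ⊕ ι) (ι ⊕ ι) ℂ) :
    Submodule ℂ (Hs ι) where
  carrier := {F | ∃ e, V.SmS e ∧ Cpt Ω e ∧ Rep S F (V.D e)}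
  add_mem' := by
    rintro F G ⟨e, s, c, h⟩ ⟨e', s', c', h'⟩
    exact ⟨e + e', s.add s', c.add c', (h.add h').congr
      ((ae_mem hΩ).mono fun x hx => (VHS.D_add s s' x hx).symm)⟩
  zero_mem' := ⟨0, VHS.smS_zero, ⟨∅, Set.empty_subset _, isCompact_empty, fun _ _ _ => rfl⟩,
    Rep.zero.congr (Eventually.of_forall fun x => (VHS.D_zero x).symm)⟩
  smul_mem' := by
    rintro a F ⟨e, s, c, h⟩
    exact ⟨a • e, s.smul a, c.of_zero fun x _ hx => by rw [Pi.smul_apply, hx, smul_zero],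
      (h.smul a).congr ((ae_mem hΩ).mono fun x hx => (VHS.D_smul s a x hx).symm)⟩

theorem rep_cF {F : Hs ι} {α : Form ι} :
    Rep (fun x => S x * weyP (w + 1) (prj1 fun p => V.π p x)) F α ↔ Rep S F (V.cF α) := by
  have e : tr (fun x => S x * weyP (w + 1) (prj1 fun p => V.π p x)) α = tr S (V.cF α) := by
    funext x
    simp only [tr, VHS.cF, mulF, mulVec_mulVec]
  rw [Rep, Rep, e]

end Hdg

open Hdg in
theorem VHS.hodge (hΩ : Ωᶜ.Finite) {γ : Form ι} (s : V.SmF γ) (h : V.L2 γ) :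
    ∃ η n n', V.Harm η ∧ V.Z n ∧ V.Cl n ∧ V.Z n' ∧ V.Cl n' ∧
      ∀ x ∈ Ω, γ x = η x + n x + V.cF n' x := by
  have hO := isOpen_of hΩ
  obtain ⟨S, g⟩ := exists_gau hΩ V
  obtain ⟨Γ, rΓ⟩ := g.exists_cls hΩ s h
  let B := spc hΩ V S
  let B' := spc hΩ V fun x => S x * weyP (w + 1) (prj1 fun p => V.π p x)
  have hB : ∀ e, V.SmS e → Cpt Ω e →
      (∃ F ∈ B, Rep S F (V.D e)) ∧ ∃ F ∈ B', Rep S F (V.cF (V.D e)) := by
    intro e se ce
    have s1 := (se.closed hO).1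
    have l1 := VHS.l2_of_cpt hΩ s1 (ce.D hO)
    obtain ⟨F, r⟩ := g.exists_cls hΩ s1 l1
    obtain ⟨F', r'⟩ := g.exists_cls hΩ (s1.cF hO) (l1.cF hΩ)
    exact ⟨⟨F, ⟨e, se, ce, r⟩, r⟩, F', ⟨e, se, ce, rep_cF.2 r'⟩, r'⟩
  have ho : ∀ F ∈ B, ∀ F' ∈ B', inner ℂ F F' = 0 := by
    rintro F ⟨e, se, ce, r⟩ F' ⟨e', se', -, r'⟩
    rw [r.inner_eq g (rep_cF.1 r'), VHS.Q_congr hΩ (fun _ _ => rfl) (VHS.cF_cF _)]
    exact VHS.stokes hΩ se ce (se'.closed hO)
  obtain ⟨Fh, Fn, Fm, e0, hn, hm, o1, o2⟩ := three B B' ho Γ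
  obtain ⟨αh, rh⟩ := g.exists_form Fh
  obtain ⟨αn, rn⟩ := g.exists_form Fn
  obtain ⟨η, cη, eη⟩ := VHS.weyl hΩ VHS.smF_zero (rh.loc_int g hO)
    (fun e se ce => by
      obtain ⟨-, F, hF, r⟩ := hB e se ce
      rw [← r.inner_eq' hΩ g rh, (o2 F hF).1])
    fun e se ce => by
      obtain ⟨⟨F, hF, r⟩, -⟩ := hB e se ce
      rw [← r.inner_eq g rh, ← r.inner_eq g Rep.zero, (o1 F hF).1, inner_zero_right]
  obtain ⟨ν, cν, eν⟩ := VHS.weyl hΩ s (rn.loc_int g hO)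
    (fun e se ce => by
      obtain ⟨-, F, hF, r⟩ := hB e se ce
      rw [← r.inner_eq' hΩ g rn, (o2 F hF).2])
    fun e se ce => by
      obtain ⟨⟨F, hF, r⟩, -⟩ := hB e se ce
      rw [← r.inner_eq g rn, ← r.inner_eq g rΓ, e0, inner_add_right, inner_add_right, (o1 F hF).1,
        (o1 F hF).2, zero_add, add_zero]
  have rη := rh.congr eη
  have rν := rn.congr eν
  have rm : Rep S Fm (γ - η - ν) := by
    have e1 : Fm = Γ - Fh - Fn := by rw [e0]; abel
    rw [e1]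
    exact (rΓ.sub rη).sub rν
  refine ⟨η, ν, V.cF (γ - η - ν), ⟨⟨cη, rη.l2 g⟩, ?_⟩, ⟨cν, rν.l2 g⟩, fun ε hε => ?_,
    ⟨?_, (rm.l2 g).cF hΩ⟩, fun ε hε => ?_, fun x hx => ?_⟩
  · refine VHS.closed_of_weak hΩ (cη.1.cF hO) fun e se ce => ?_
    obtain ⟨⟨F, hF, r⟩, -⟩ := hB e se ce
    rw [← r.inner_eq g rη, (o1 F hF).1]
  · obtain ⟨F, ⟨e, se, ce, r⟩, hd⟩ := Metric.mem_closure_iff.1 hn _ (Real.sqrt_pos.2 hε)
    exact ⟨e, se, ce, rν.small hΩ g r hd⟩
  · refine VHS.closed_of_weak hΩ (((s.sub cη.1).sub cν.1).cF hO) fun e se ce => ?_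
    obtain ⟨⟨F, hF, r⟩, -⟩ := hB e se ce
    rw [← r.inner_eq g rm, (o1 F hF).2]
  · obtain ⟨F, ⟨e, se, ce, r⟩, hd⟩ := Metric.mem_closure_iff.1 hm _ (Real.sqrt_pos.2 hε)
    refine ⟨e, se, ce, lt_of_eq_of_lt (integral_congr_ae ?_) (rm.small hΩ g (rep_cF.1 r) hd)⟩
    filter_upwards [ae_mem hΩ] with x hx
    rw [← VHS.nrm_cF _ x hx]
    have e1 : V.cF (V.cF (γ - η - ν) - V.D e) x = (γ - η - ν - V.cF (V.D e)) x := by
      rw [Pi.sub_apply _ (V.cF (V.D e)), ← VHS.cF_cF (V := V) (γ - η - ν) x hx]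
      exact mulVec_sub _ _ _
    rw [VHS.nrm, VHS.nrm, e1]
  · rw [VHS.cF_cF _ x hx]
    simp

end

end Pool.Agent.Lib.MP_5c318e_ag.V
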