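import Pool.Agent.Lib.MP_5c318e_ag.V.K0Exh
import Pool.Agent.Lib.MP_5c318e_ag.V.Gap

/-! Stokes formula for a smooth section with square integrable flat derivative. -/

set_option linter.unusedSectionVars false

namespace Pool.Agent.Lib.MP_5c318e_ag.V

open MeasureTheory Set Filter Topology Complex Matrix
open scoped ContDiff ComplexConjugate ComplexOrder

noncomputable section

variable {m n : Type*} [Fintype m] [Fintype n] [DecidableEq m] [DecidableEq n]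

/-- On `U`, in a flat frame, `f = |v|²`, `g = <∂v, v> + <v, ∂̄v>` and `e = |∂v|² + |∂̄v|²`. -/
structure SecOn (K₁ K₂ : ℝ) (f : ℂ → ℝ) (g : ℂ → ℂ) (e : ℂ → ℝ) (U : Set ℂ)
    (h₁ Y₁ : ℂ → Matrix n n ℂ) (h₂ Y₂ : ℂ → Matrix m m ℂ) (v : ℂ → Matrix m n ℂ) : Prop where
  G₁ : GM U h₁ Y₁ K₁
  G₂ : GM U h₂ Y₂ K₂
  sm : ∀ x ∈ U, SmM v x
  ef : ∀ x ∈ U, f x = nsq (h₁ x) (h₂ x) (v x)
  eg : ∀ x ∈ U, g x = ip (h₁ x) (h₂ x) (derM (-I) 1 v x) (v x) +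
    ip (h₁ x) (h₂ x) (v x) (derM I 1 v x)
  ee : ∀ x ∈ U, e x = nsq (h₁ x) (h₂ x) (derM (-I) 1 v x) + nsq (h₁ x) (h₂ x) (derM I 1 v x)

variable (m n) in
/-- `f, g, e` come from a section of `Hom` of two graded metrics near every point of `Om`. -/
def LocSec (Om : Set ℂ) (K₁ K₂ : ℝ) (f : ℂ → ℝ) (g : ℂ → ℂ) (e : ℂ → ℝ) : Prop :=
  ∀ a ∈ Om, ∃ (U : Set ℂ) (h₁ Y₁ : ℂ → Matrix n n ℂ) (h₂ Y₂ : ℂ → Matrix m m ℂ)
    (v : ℂ → Matrix m n ℂ), a ∈ U ∧ SecOn K₁ K₂ f g e U h₁ Y₁ h₂ Y₂ v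

/-- the number `<θ v, v>` in terms of `f` and `g` -/
def secW (f : ℂ → ℝ) (g : ℂ → ℂ) (x : ℂ) : ℂ := (g x - der (-I) 1 (fun y => (f y : ℂ)) x) / 2

theorem cs_two {A B C D s t : ℝ} (hA : 0 ≤ A) (hB : 0 ≤ B) (hC : 0 ≤ C) (hD : 0 ≤ D)
    (h1 : s ^ 2 ≤ D * B) (h2 : t ^ 2 ≤ A * C) :
    2 * (s + t) ≤ √(2 * (A + B)) * √(2 * (C + D)) := by
  rw [← Real.sqrt_mul (by positivity)]
  refine Real.le_sqrt_of_sq_le ?_
  have h3 : (s * t) ^ 2 ≤ ((A * D + B * C) / 2) ^ 2 := by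
    have := mul_le_mul h1 h2 (sq_nonneg _) (by positivity)
    nlinarith [sq_nonneg (A * D - B * C)]
  have h4 := (abs_le_of_sq_le_sq' h3 (by positivity)).2
  nlinarith

namespace SecOn

variable {K₁ K₂ : ℝ} {f : ℂ → ℝ} {g : ℂ → ℂ} {e : ℂ → ℝ} {U : Set ℂ}
  {h₁ Y₁ : ℂ → Matrix n n ℂ} {h₂ Y₂ : ℂ → Matrix m m ℂ} {v : ℂ → Matrix m n ℂ} {x : ℂ}

theorem sm_f (S : SecOn K₁ K₂ f g e U h₁ Y₁ h₂ Y₂ v) (hx : x ∈ U) : ContDiffAt ℝ ∞ f x :=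
  (sm_nsq S.G₁.toMet S.G₂.toMet hx (S.sm x hx)).congr_of_eventuallyEq
    (eventually_of_mem (S.G₁.op.mem_nhds hx) S.ef)

theorem sm_e (S : SecOn K₁ K₂ f g e U h₁ Y₁ h₂ Y₂ v) (hx : x ∈ U) : ContDiffAt ℝ ∞ e x :=
  ((sm_nsq S.G₁.toMet S.G₂.toMet hx ((S.sm x hx).der _ _)).add
    (sm_nsq S.G₁.toMet S.G₂.toMet hx ((S.sm x hx).der _ _))).congr_of_eventuallyEq
    (eventually_of_mem (S.G₁.op.mem_nhds hx) S.ee)

theorem f_nonneg (S : SecOn K₁ K₂ f g e U h₁ Y₁ h₂ Y₂ v) (hx : x ∈ U) : 0 ≤ f x := by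
  rw [S.ef x hx]
  exact nsq_nonneg (S.G₁.pos x hx) (S.G₂.pos x hx) _

theorem e_nonneg (S : SecOn K₁ K₂ f g e U h₁ Y₁ h₂ Y₂ v) (hx : x ∈ U) : 0 ≤ e x := by
  rw [S.ee x hx]
  exact add_nonneg (nsq_nonneg (S.G₁.pos x hx) (S.G₂.pos x hx) _)
    (nsq_nonneg (S.G₁.pos x hx) (S.G₂.pos x hx) _)

theorem W_eq (S : SecOn K₁ K₂ f g e U h₁ Y₁ h₂ Y₂ v) (hx : x ∈ U) :
    secW f g x = ip (h₁ x) (h₂ x) (Th h₁ h₂ 1 x (v x)) (v x) := by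
  have e1 : der (-I) 1 (fun y => (f y : ℂ)) x =
      der (-I) 1 (fun y => ip (h₁ y) (h₂ y) (v y) (v y)) x :=
    der_congr_on S.G₁.op hx fun y hy => by
      rw [S.ef y hy, ip_self (S.G₁.pos y hy) (S.G₂.pos y hy)]
  rw [secW, e1, d_ip S.G₁.toMet S.G₂.toMet hx (S.sm x hx) (S.sm x hx), S.eg x hx, ip_sub_left,
    ip_sub_right, ← ip_Th S.G₁.toMet S.G₂.toMet hx]
  ring

theorem sm_W (S : SecOn K₁ K₂ f g e U h₁ Y₁ h₂ Y₂ v) (hx : x ∈ U) : Sm (secW f g) x :=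
  (sm_ip S.G₁.toMet S.G₂.toMet hx (sm_Th S.G₁.toMet S.G₂.toMet hx (S.sm x hx))
    (S.sm x hx)).congr_of_eventuallyEq
    (eventually_of_mem (S.G₁.op.mem_nhds hx) fun _ hy => S.W_eq hy)

theorem g_le (S : SecOn K₁ K₂ f g e U h₁ Y₁ h₂ Y₂ v) (hx : x ∈ U) :
    ‖g x‖ ^ 2 ≤ 2 * e x * f x := by
  have p₁ := S.G₁.pos x hx
  have p₂ := S.G₂.pos x hx
  have a := ip_cs p₁ p₂ (derM (-I) 1 v x) (v x)
  have b := ip_cs p₁ p₂ (v x) (derM I 1 v x)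
  have c := pow_le_pow_left₀ (norm_nonneg _) (norm_add_le
    (ip (h₁ x) (h₂ x) (derM (-I) 1 v x) (v x)) (ip (h₁ x) (h₂ x) (v x) (derM I 1 v x))) 2
  rw [S.eg x hx, S.ee x hx, S.ef x hx]
  nlinarith [sq_nonneg (‖ip (h₁ x) (h₂ x) (derM (-I) 1 v x) (v x)‖ -
    ‖ip (h₁ x) (h₂ x) (v x) (derM I 1 v x)‖)]

theorem exists_p (S : SecOn K₁ K₂ f g e U h₁ Y₁ h₂ Y₂ v) (hx : x ∈ U) :
    ∃ p : ℝ, 0 ≤ p ∧ 2 * p ^ 2 - 2 * p * √(2 * e x) ≤ -4 * (der I 1 (secW f g) x).re ∧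
      (1 + 8 * (K₁ + K₂)) * (4 * ‖secW f g x‖ ^ 2) ≤ 8 * (K₁ + K₂) * p ^ 2 * f x := by
  have m₁ := S.G₁.toMet
  have m₂ := S.G₂.toMet
  have p₁ := m₁.pos x hx
  have p₂ := m₂.pos x hx
  have nA := nsq_nonneg p₁ p₂ (Th h₁ h₂ 1 x (v x))
  have nB := nsq_nonneg p₁ p₂ (Ths h₁ h₂ 1 x (v x))
  refine ⟨√(2 * (nsq (h₁ x) (h₂ x) (Th h₁ h₂ 1 x (v x)) +
    nsq (h₁ x) (h₂ x) (Ths h₁ h₂ 1 x (v x)))), Real.sqrt_nonneg _, ?_, ?_⟩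
  · have c := cs_two nA nB (nsq_nonneg p₁ p₂ (derM (-I) 1 v x)) (nsq_nonneg p₁ p₂ (derM I 1 v x))
      (ip_cs p₁ p₂ (derM I 1 v x) (Ths h₁ h₂ 1 x (v x)))
      (ip_cs p₁ p₂ (Th h₁ h₂ 1 x (v x)) (derM (-I) 1 v x))
    have r1 := re_le_norm (ip (h₁ x) (h₂ x) (derM I 1 v x) (Ths h₁ h₂ 1 x (v x)))
    have r2 := re_le_norm (ip (h₁ x) (h₂ x) (Th h₁ h₂ 1 x (v x)) (derM (-I) 1 v x))
    rw [der_congr_on m₁.op hx fun y hy => S.W_eq hy,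
      dbar_ip m₁ m₂ hx (sm_Th m₁ m₂ hx (S.sm x hx)) (S.sm x hx),
      dbar_Th S.G₁.hm S.G₂.hm hx (S.sm x hx), Real.sq_sqrt (by linarith), S.ee x hx]
    simp only [ip_sub_left, ip_add_left, ip_sub_right]
    rw [ip_Th m₁ m₂ hx (derM I 1 v x), ip_Th m₁ m₂ hx (Ths h₁ h₂ 1 x (v x)),
      ip_self p₁ p₂ (Th h₁ h₂ 1 x (v x)), ip_self p₁ p₂ (Ths h₁ h₂ 1 x (v x))]
    simp only [add_re, sub_re, ofReal_re]
    linarith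
  · rw [S.W_eq hx, Real.sq_sqrt (by linarith), S.ef x hx]
    by_cases h0 : v x = 0
    · simp [h0, ip_zero_right, nsq]
    · have := gap_ip (ξ := 1) S.G₁ S.G₂ hx h0
      linarith

theorem K_nonneg (S : SecOn K₁ K₂ f g e U h₁ Y₁ h₂ Y₂ v) (hx : x ∈ U) : 0 ≤ K₁ + K₂ :=
  add_nonneg ((nsq_nonneg (S.G₁.pos x hx) (S.G₁.pos x hx) _).trans (S.G₁.bd x hx))
    ((nsq_nonneg (S.G₂.pos x hx) (S.G₂.pos x hx) _).trans (S.G₂.bd x hx))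

end SecOn

theorem hld_clm {F : ℂ → ℂ} {z : ℂ} (h : Sm F z) (l : ℂ →L[ℝ] ℝ) (w : ℂ) :
    HasLineDerivAt ℝ (fun y => l (F y)) (l (fderiv ℝ F z w)) z w :=
  (l.hasFDerivAt.comp z h.diff.hasFDerivAt).hasLineDerivAt w

theorem con_clm {Om : Set ℂ} {F : ℂ → ℂ} (h : ∀ z ∈ Om, Sm F z) (l : ℂ →L[ℝ] ℝ) :
    ContinuousOn (fun y => l (F y)) Om :=
  fun z hz => (l.continuous.continuousAt.comp (h z hz).continuousAt).continuousWithinAt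

theorem LocSec.dat {Om : Set ℂ} {K₁ K₂ : ℝ} {f : ℂ → ℝ} {g : ℂ → ℂ} {e : ℂ → ℝ}
    (L : LocSec m n Om K₁ K₂ f g e) :
    ∃ c f1 f2 X1 X2 a1 a2 p, 0 ≤ c ∧ c < 1 ∧
      K0.Dat Om Om c f f1 f2 X1 X2 a1 a2 p fun z => √(2 * e z) := by
  have sf : ∀ z ∈ Om, ContDiffAt ℝ ∞ f z := fun z hz => by
    obtain ⟨U, h₁, Y₁, h₂, Y₂, v, hU, S⟩ := L z hz
    exact S.sm_f hU
  have se : ∀ z ∈ Om, ContDiffAt ℝ ∞ e z ∧ 0 ≤ e z := fun z hz => by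
    obtain ⟨U, h₁, Y₁, h₂, Y₂, v, hU, S⟩ := L z hz
    exact ⟨S.sm_e hU, S.e_nonneg hU⟩
  have sW : ∀ z ∈ Om, Sm (secW f g) z := fun z hz => by
    obtain ⟨U, h₁, Y₁, h₂, Y₂, v, hU, S⟩ := L z hz
    exact S.sm_W hU
  have ep : ∀ z ∈ Om, ∃ p : ℝ, 0 ≤ p ∧
      2 * p ^ 2 - 2 * p * √(2 * e z) ≤ -4 * (der I 1 (secW f g) z).re ∧
      (1 + 8 * |K₁ + K₂|) * (4 * ‖secW f g z‖ ^ 2) ≤ 8 * |K₁ + K₂| * p ^ 2 * f z := fun z hz => by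
    obtain ⟨U, h₁, Y₁, h₂, Y₂, v, hU, S⟩ := L z hz
    rw [abs_of_nonneg (S.K_nonneg hU)]
    exact S.exists_p hU
  choose! p p0 p1 p2 using ep
  have k0 := abs_nonneg (K₁ + K₂)
  refine ⟨√(8 * |K₁ + K₂| / (1 + 8 * |K₁ + K₂|)), fun z => fderiv ℝ f z 1, fun z => fderiv ℝ f z I,
    fun z => ((-2 : ℝ) • reCLM) (secW f g z), fun z => ((2 : ℝ) • imCLM) (secW f g z),
    fun z => ((-2 : ℝ) • reCLM) (fderiv ℝ (secW f g) z 1),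
    fun z => ((2 : ℝ) • imCLM) (fderiv ℝ (secW f g) z I), p, Real.sqrt_nonneg _, ?_,
    fun z hz => K0.hld_of_sm (sf z hz) _, fun z hz => K0.hld_of_sm (sf z hz) _,
    fun z hz => hld_clm (sW z hz) _ _, fun z hz => hld_clm (sW z hz) _ _, K0.con_of_sm sf,
    K0.con_of_sm fun z hz => K0.sm_pdr (sf z hz) _, K0.con_of_sm fun z hz => K0.sm_pdr (sf z hz) _,
    con_clm sW _, con_clm sW _, con_clm (fun z hz => sm_pd (sW z hz) _) _,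
    con_clm (fun z hz => sm_pd (sW z hz) _) _, ?_, fun z hz => ?_, p0,
    fun z _ => Real.sqrt_nonneg _, fun z hz => ?_, fun z hz => ?_, fun z hz => ?_⟩
  · rw [Real.sqrt_lt' one_pos, div_lt_iff₀ (by positivity)]
    linarith
  · refine ((K0.con_of_sm fun z hz => (se z hz).1).const_smul (2 : ℝ)).congr fun z hz => ?_
    exact Real.sq_sqrt (by linarith [(se z hz).2])
  · obtain ⟨U, h₁, Y₁, h₂, Y₂, v, hU, S⟩ := L z hz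
    exact S.f_nonneg hU
  · refine (p1 z hz).trans (le_of_eq ?_)
    simp [der]
    ring
  · rw [Real.sq_sqrt (by positivity), div_mul_eq_mul_div, div_mul_eq_mul_div,
      le_div_iff₀ (by positivity)]
    refine le_trans (le_of_eq ?_) (p2 z hz)
    rw [Complex.sq_norm, normSq_apply]
    simp
    ring
  · obtain ⟨U, h₁, Y₁, h₂, Y₂, v, hU, S⟩ := L z hz
    have a := S.g_le hU
    have d := (sf z hz).differentiableAt (by simp)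
    rw [Complex.sq_norm, normSq_apply] at a
    rw [Real.sq_sqrt (by linarith [(se z hz).2])]
    refine le_trans (le_of_eq ?_) (show 4 * ((g z).re * (g z).re + (g z).im * (g z).im) ≤ _ by
      linarith)
    simp [secW, der, pd_ofReal d]
    ring

/-- Stokes formula: the pairing of a section having `L²` flat derivative with an `L²` form -/
theorem exact_core (R : Finset ℂ) {K₁ K₂ : ℝ} {f : ℂ → ℝ} {g : ℂ → ℂ} {e : ℂ → ℝ}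
    (L : LocSec m n (R : Set ℂ)ᶜ K₁ K₂ f g e) (he : IntegrableOn e (R : Set ℂ)ᶜ)
    {B₁ B₂ : ℂ → ℂ} {zt : ℂ → ℝ} (s₁ : ∀ x ∈ (R : Set ℂ)ᶜ, Sm B₁ x)
    (s₂ : ∀ x ∈ (R : Set ℂ)ᶜ, Sm B₂ x) (hz : IntegrableOn zt (R : Set ℂ)ᶜ)
    (hb : ∀ x ∈ (R : Set ℂ)ᶜ, ‖B₁ x‖ ^ 2 + ‖B₂ x‖ ^ 2 ≤ f x * zt x)
    (hr : IntegrableOn (fun x => der (-I) 1 B₁ x + der I 1 B₂ x) (R : Set ℂ)ᶜ) :
    ∫ x in (R : Set ℂ)ᶜ, (der (-I) 1 B₁ x + der I 1 B₂ x) = 0 := by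
  have hO : IsOpen (R : Set ℂ)ᶜ := R.finite_toSet.isClosed.isOpen_compl
  obtain ⟨K, sg, s1, s2, s11, s22, E⟩ := K0.exists_exhaust R
  obtain ⟨c, f1, f2, X1, X2, a1, a2, p, c0, c1, D⟩ := L.dat
  have he' : IntegrableOn (fun z => √(2 * e z) ^ 2) (R : Set ℂ)ᶜ := by
    refine IntegrableOn.congr_fun (he.const_mul 2) (fun z hz => ?_) hO.measurableSet
    obtain ⟨U, h₁, Y₁, h₂, Y₂, v, hU, S⟩ := L z hz
    exact (Real.sq_sqrt (by linarith [S.e_nonneg hU])).symm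
  have t₁ : ∀ x ∈ (R : Set ℂ)ᶜ, Sm (fun y => 2⁻¹ * (B₁ y + B₂ y)) x := fun x hx =>
    contDiffAt_const.mul ((s₁ x hx).add (s₂ x hx))
  have t₂ : ∀ x ∈ (R : Set ℂ)ᶜ, Sm (fun y => I / 2 * (B₂ y - B₁ y)) x := fun x hx =>
    contDiffAt_const.mul ((s₂ x hx).sub (s₁ x hx))
  have u : ∀ x ∈ (R : Set ℂ)ᶜ, fderiv ℝ (fun y => 2⁻¹ * (B₁ y + B₂ y)) x 1 +
      fderiv ℝ (fun y => I / 2 * (B₂ y - B₁ y)) x I = der (-I) 1 B₁ x + der I 1 B₂ x :=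
    fun x hx => by
    have d₁ := (s₁ x hx).diff
    have d₂ := (s₂ x hx).diff
    rw [fderiv_const_mul (d₁.fun_add d₂), fderiv_const_mul (d₂.fun_sub d₁), fderiv_fun_add d₁ d₂,
      fderiv_fun_sub d₂ d₁]
    simp [der]
    ring
  have key : ∀ l : ℂ →L[ℝ] ℝ, (∀ w, l w ^ 2 ≤ ‖w‖ ^ 2) →
      l (∫ x in (R : Set ℂ)ᶜ, (der (-I) 1 B₁ x + der I 1 B₂ x)) = 0 := fun l hl => by
    have v : ∀ x ∈ (R : Set ℂ)ᶜ, l (der (-I) 1 B₁ x + der I 1 B₂ x) =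
        l (fderiv ℝ (fun y => 2⁻¹ * (B₁ y + B₂ y)) x 1) +
          l (fderiv ℝ (fun y => I / 2 * (B₂ y - B₁ y)) x I) := fun x hx => by
      rw [← u x hx, map_add]
    rw [← l.integral_comp_comm hr, setIntegral_congr_fun hO.measurableSet v]
    refine K0.div_zero hO c0 c1 E D he' (fun z hz => hld_clm (t₁ z hz) l 1)
      (fun z hz => hld_clm (t₂ z hz) l I) (con_clm t₁ l) (con_clm t₂ l)
      (con_clm (fun z hz => sm_pd (t₁ z hz) _) l) (con_clm (fun z hz => sm_pd (t₂ z hz) _) l)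
      (IntegrableOn.congr_fun (l.integrable_comp hr) v hO.measurableSet) hz fun z hz => ?_
    have a := hl (2⁻¹ * (B₁ z + B₂ z))
    have b := hl (I / 2 * (B₂ z - B₁ z))
    have q := parallelogram_law_with_norm ℂ (B₂ z) (B₁ z)
    have := hb z hz
    rw [norm_mul, mul_pow, add_comm (B₁ z)] at a
    rw [norm_mul, mul_pow] at b
    simp only [norm_inv, norm_div, norm_I, norm_ofNat] at a b
    rw [add_comm (B₁ z)]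
    nlinarith [sq_nonneg ‖B₁ z‖, sq_nonneg ‖B₂ z‖]
  apply Complex.ext
  · exact key reCLM fun w => sq_le_sq' (neg_le_of_abs_le (abs_re_le_norm w)) (re_le_norm w)
  · exact key imCLM fun w => sq_le_sq' (neg_le_of_abs_le (abs_im_le_norm w)) (im_le_norm w)

end

end Pool.Agent.Lib.MP_5c318e_ag.V
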