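import Pool.Agent.Lib.MP_5c318e_ag.V.Alg
import Pool.Agent.Lib.MP_5c318e_ag.V.K0

/-! Scalar Stokes formula, radial cut-off functions, descent along the exponential map. -/

set_option autoImplicit false

namespace Pool.Agent.Lib.MP_5c318e_ag.V

open Matrix Filter Topology MeasureTheory Complex Metric
open scoped ComplexOrder ContDiff ComplexConjugate

noncomputable section

variable {ι : Type} [Fintype ι] [DecidableEq ι]

theorem lp_con {K Om : Set ℂ} (h : K ⊆ Om) {F : ℂ → ℂ} (hF : ∀ x ∈ Om, Sm F x) :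
    ContinuousOn F K := fun x hx => (hF x (h hx)).continuousAt.continuousWithinAt

theorem lp_stokes {Om K : Set ℂ} (hO : IsOpen Om) (hK : IsCompact K) (hKO : K ⊆ Om) {F : ℂ → ℂ}
    (hF : ∀ x ∈ Om, Sm F x) (h0 : ∀ x ∈ Om, x ∉ K → F x = 0) (c : ℂ) :
    ∫ x in K, der c 1 F x = 0 := by
  have hi : ∀ v : ℂ, IntegrableOn (fun x => fderiv ℝ F x v) K := fun v =>
    (lp_con hKO fun x hx => sm_pd (hF x hx) v).integrableOn_compact hK
  have key : ∀ v : ℂ, ∫ x in K, fderiv ℝ F x v = 0 := fun v => by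
    have k : ∀ l : ℂ →L[ℝ] ℝ, l (∫ x in K, fderiv ℝ F x v) = 0 := fun l => by
      rw [← l.integral_comp_comm (hi v)]
      exact K0.int_deriv_zero hO hK hKO (fun z hz => hld_clm (hF z hz) l v)
        (fun z hz hz' => by rw [h0 z hz hz', map_zero]) ((con_clm hF l).mono hKO)
        ((con_clm (fun z hz => sm_pd (hF z hz) v) l).mono hKO)
    exact Complex.ext (k reCLM) (k imCLM)
  simp only [der]
  rw [integral_div, integral_add (hi _) ((hi _).const_mul c), integral_const_mul, key, key]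
  simp

theorem lp_dual {Q T T' : Matrix ι ι ℂ} (hQ : IsUnit Q.det) (hT : T * T' = 1)
    (h : Tᴴ * Q * T = Q) {c : ι → ℂ} (H : ∀ s, T *ᵥ s = s → qf Q s c = 0) :
    ∃ v, c = T *ᵥ v - v := by
  have m : c ∈ LinearMap.range (Matrix.toLin' (T - 1)) := by
    rw [← Subspace.forall_mem_dualAnnihilator_apply_eq_zero_iff]
    intro φ hφ
    have z : ∀ v, φ (T *ᵥ v) = φ v := fun v => by
      have := (Submodule.mem_dualAnnihilator φ).1 hφ _ (LinearMap.mem_range_self _ v)
      rwa [Matrix.toLin'_apply, Matrix.sub_mulVec, Matrix.one_mulVec, map_sub, sub_eq_zero] at this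
    have rep : ∀ v, qf Q ((Q⁻¹)ᴴ *ᵥ star fun i => φ (Pi.single i 1)) v = φ v := fun v => by
      rw [qf_mulVec_left, conjTranspose_conjTranspose, Matrix.nonsing_inv_mul _ hQ, qf, star_star,
        Matrix.one_mulVec, LinearMap.pi_apply_eq_sum_univ φ v]
      refine Finset.sum_congr rfl fun i _ => ?_
      rw [smul_eq_mul, mul_comm]
      refine congrArg (fun t => v i * φ t) (funext fun j => ?_)
      simp [Pi.single_apply, eq_comm]
    generalize ((Q⁻¹)ᴴ *ᵥ star fun i => φ (Pi.single i 1)) = s at rep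
    rw [← rep]
    refine H s ?_
    have e : ∀ v, qf Q (T *ᵥ s - s) v = 0 := fun v => by
      have e1 : v = T *ᵥ (T' *ᵥ v) := by rw [mulVec_mulVec, hT, one_mulVec]
      rw [qf_sub_left, e1, qf_mulVec_left, qf_mulVec_right, h, rep, rep, z, sub_self]
    have e2 := e (Q⁻¹ *ᵥ (T *ᵥ s - s))
    rw [qf_mulVec_right, Matrix.mul_nonsing_inv _ hQ] at e2
    exact sub_eq_zero.1 (qf_eq_zero PosDef.one (by rw [e2, zero_re]))
  obtain ⟨v, hv⟩ := m
  exact ⟨v, by rw [← hv, Matrix.toLin'_apply, Matrix.sub_mulVec, Matrix.one_mulVec]⟩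

omit [DecidableEq ι] in
theorem lp_smV_mulVec (M : Matrix ι ι ℂ) {β : ℂ → ι → ℂ} {x : ℂ} (h : SmV β x) :
    SmV (fun y => M *ᵥ β y) x := fun i =>
  ContDiffAt.sum fun j _ => (contDiffAt_const (c := M i j)).mul (h j)

omit [DecidableEq ι] in
theorem lp_derV_mulVec (M : Matrix ι ι ℂ) {β : ℂ → ι → ℂ} {x : ℂ} (h : SmV β x) (c : ℂ) :
    derV c 1 (fun y => M *ᵥ β y) x = M *ᵥ derV c 1 β x := by
  ext i
  simp only [derV, mulVec, dotProduct]
  rw [der_sum _ fun j _ => Sm.diff ((contDiffAt_const (c := M i j)).mul (h j))]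
  exact Finset.sum_congr rfl fun j _ => der_const_mul _ (h j).diff

/-- the radial cut-off which is `0` on the side `p` and `1` on the side `q` -/
def lpS (c : ℂ) (p q : ℝ) (x : ℂ) : ℝ := (‖x - c‖ ^ 2 - p) / (q - p)

def lpR (c : ℂ) (p q : ℝ) (x : ℂ) : ℂ := (Real.smoothTransition (lpS c p q x) : ℝ)

theorem lpS_sm (c : ℂ) (p q : ℝ) : ContDiff ℝ ∞ (lpS c p q) :=
  (((contDiff_id.sub contDiff_const).norm_sq ℝ).sub contDiff_const).div_const _

theorem lpR_sm (c : ℂ) (p q : ℝ) (x : ℂ) : Sm (lpR c p q) x :=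
  sm_ofReal (Real.smoothTransition.contDiff.comp (lpS_sm c p q)).contDiffAt

theorem lpR_zero {c : ℂ} {p q : ℝ} {x : ℂ} (h : lpS c p q x < 0) : ∀ᶠ y in 𝓝 x, lpR c p q y = 0 := by
  filter_upwards [(lpS_sm c p q).continuous.continuousAt.eventually_lt continuousAt_const h]
    with y hy
  rw [lpR, Real.smoothTransition.zero_of_nonpos hy.le, ofReal_zero]

theorem lpR_one {c : ℂ} {p q : ℝ} {x : ℂ} (h : 1 < lpS c p q x) : ∀ᶠ y in 𝓝 x, lpR c p q y = 1 := by
  filter_upwards [continuousAt_const.eventually_lt (lpS_sm c p q).continuous.continuousAt h]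
    with y hy
  rw [lpR, Real.smoothTransition.one_of_one_le hy.le, ofReal_one]

theorem lpR_der_zero {c : ℂ} {p q : ℝ} {x : ℂ} (h : ¬(0 ≤ lpS c p q x ∧ lpS c p q x ≤ 1)) (a : ℂ) :
    der a 1 (lpR c p q) x = 0 := by
  rw [not_and_or, not_le, not_le] at h
  rcases h with h | h
  · rw [der_congr (g := fun _ => 0) (lpR_zero h), der_const]
  · rw [der_congr (g := fun _ => 1) (lpR_one h), der_const]

theorem lpR_conj (c : ℂ) (p q : ℝ) (x a : ℂ) :
    conj (der a 1 (lpR c p q) x) = der (conj a) 1 (lpR c p q) x := by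
  have := der_conj (c := conj a) (ξ := 1) (lpR_sm c p q x).diff
  rw [conj_conj] at this
  rw [← this]
  simp only [lpR, conj_ofReal]
  rfl

theorem lpR_dbar (c : ℂ) (p q : ℝ) (x : ℂ) : der I 1 (lpR c p q) x =
    (deriv Real.smoothTransition (lpS c p q x) / (q - p) : ℝ) * (x - c) := by
  have h1 : HasFDerivAt (lpS c p q) _ x :=
    ((((hasFDerivAt_id x).sub_const c).norm_sq).sub_const p).mul_const (q - p)⁻¹
  have h2 := ((Real.smoothTransition.contDiff (n := 1)).differentiable one_ne_zero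
    (lpS c p q x)).hasDerivAt.comp_hasFDerivAt x h1
  have d : ∀ v, fderiv ℝ (lpR c p q) x v =
      (fderiv ℝ (Real.smoothTransition ∘ lpS c p q) x v : ℝ) := pd_ofReal h2.differentiableAt
  rw [der, d, d, h2.fderiv, div_eq_mul_inv _ (q - p)]
  generalize (q - p)⁻¹ = u
  apply Complex.ext
  · simp [Complex.inner]
    ring
  · simp [Complex.inner]
    ring

theorem lp_cpt (c : ℂ) {p q : ℝ} (hpq : p ≠ q) :
    IsCompact {x | 0 ≤ lpS c p q x ∧ lpS c p q x ≤ 1} := by
  have ct := (lpS_sm c p q).continuous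
  refine Metric.isCompact_of_isClosed_isBounded
    ((isClosed_le continuous_const ct).inter (isClosed_le ct continuous_const)) ?_
  refine (isBounded_closedBall (x := c) (r := |p| + |q - p| + 1)).subset fun x hx => ?_
  have e : ‖x - c‖ ^ 2 = p + lpS c p q x * (q - p) := by
    rw [lpS, div_mul_cancel₀ _ (sub_ne_zero.2 hpq.symm)]
    ring
  have a : lpS c p q x * (q - p) ≤ |q - p| :=
    (mul_le_mul_of_nonneg_left (le_abs_self _) hx.1).trans
      (mul_le_of_le_one_left (abs_nonneg _) hx.2)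
  rw [mem_closedBall, dist_eq_norm]
  nlinarith [le_abs_self p, norm_nonneg (x - c), abs_nonneg p, abs_nonneg (q - p),
    sq_nonneg (‖x - c‖ - 1)]

theorem lp_int_pos (c : ℂ) {p q : ℝ} (hp : 0 < p) (hq : 0 < q) (hpq : p ≠ q) :
    0 < ∫ x in {x | 0 ≤ lpS c p q x ∧ lpS c p q x ≤ 1},
      deriv Real.smoothTransition (lpS c p q x) := by
  have sm := Real.smoothTransition.contDiff (n := 1)
  have ct : Continuous fun x => deriv Real.smoothTransition (lpS c p q x) :=
    (sm.continuous_deriv le_rfl).comp (lpS_sm c p q).continuous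
  have z : ∀ x, x ∉ {x | 0 ≤ lpS c p q x ∧ lpS c p q x ≤ 1} →
      deriv Real.smoothTransition (lpS c p q x) = 0 := fun x hx => by
    rw [Set.mem_ofPred_eq, not_and_or, not_le, not_le] at hx
    rcases hx with h | h
    · have : Real.smoothTransition =ᶠ[𝓝 (lpS c p q x)] fun _ => 0 :=
        (gt_mem_nhds h).mono fun t ht => Real.smoothTransition.zero_of_nonpos ht.le
      rw [this.deriv_eq, deriv_const]
    · have : Real.smoothTransition =ᶠ[𝓝 (lpS c p q x)] fun _ => 1 :=
        (lt_mem_nhds h).mono fun t ht => Real.smoothTransition.one_of_one_le ht.le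
      rw [this.deriv_eq, deriv_const]
  rw [setIntegral_eq_integral_of_forall_compl_eq_zero z]
  obtain ⟨t, ht, e⟩ := exists_deriv_eq_slope Real.smoothTransition one_pos
    sm.continuous.continuousOn (sm.differentiable one_ne_zero).differentiableOn
  have n : 0 ≤ p + t * (q - p) := by nlinarith [ht.1, ht.2]
  refine ct.integral_pos_of_hasCompactSupport_nonneg_nonzero
    (HasCompactSupport.intro (lp_cpt c hpq) z)
    (fun x => Real.smoothTransition.monotone.deriv_nonneg) (x := c + √(p + t * (q - p))) ?_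
  have : lpS c p q (c + √(p + t * (q - p))) = t := by
    rw [lpS, add_sub_cancel_left, norm_real, Real.norm_eq_abs, sq_abs, Real.sq_sqrt n,
      add_sub_cancel_left, mul_div_cancel_right₀ _ (sub_ne_zero.2 hpq.symm)]
  rw [this, e]
  simp

/-- a periodic function on a strip only depends on the exponential -/
theorem lp_desc {F : Type} {g : ℂ → F} {J : Set ℝ}
    (per : ∀ τ : ℂ, τ.re ∈ J → g (τ + 2 * Real.pi * I) = g τ) {τ : ℂ} (h : τ.re ∈ J) :
    g (log (exp τ)) = g τ := by
  obtain ⟨n, hn⟩ := exp_eq_exp_iff_exists_int.1 (exp_log (exp_ne_zero τ))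
  rw [hn]
  clear hn
  induction n using Int.induction_on with
  | zero => simp
  | succ n ih =>
    rw [← ih, ← per (τ + ((n : ℤ) : ℂ) * (2 * Real.pi * I)) (by simpa using h)]
    congr 1
    push_cast
    ring
  | pred n ih =>
    rw [← ih, ← per (τ + ((-(n : ℤ) - 1 : ℤ) : ℂ) * (2 * Real.pi * I)) (by simpa using h)]
    congr 1
    push_cast
    ring

/-- a function which is smooth after composition with the exponential is smooth -/
theorem lp_sm_of_exp {G : ℂ → ℂ} {c τ : ℂ} (h : Sm (fun t => G (c + exp t)) τ) :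
    Sm G (c + exp τ) := by
  have e0 := exp_ne_zero τ
  have hL : ContDiffAt ℝ ∞ (fun x => τ + log ((x - c) / exp τ)) (c + exp τ) := by
    refine ContDiffAt.restrict_scalars ℝ (AnalyticAt.contDiffAt (𝕜 := ℂ) ?_)
    refine analyticAt_const.add (AnalyticAt.clog (by fun_prop) ?_)
    simp [e0]
  have h' : Sm (fun t => G (c + exp t)) (τ + log ((c + exp τ - c) / exp τ)) := by
    simpa [e0] using h
  refine (ContDiffAt.comp (f := fun x => τ + log ((x - c) / exp τ)) (c + exp τ) h'
    hL).congr_of_eventuallyEq ?_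
  have : c + exp τ ≠ c := by simp
  filter_upwards [eventually_ne_nhds this] with x hx
  have hx' := sub_ne_zero.2 hx
  simp only [Function.comp_apply]
  rw [exp_add, exp_log (div_ne_zero hx' e0), mul_div_cancel₀ _ e0, add_sub_cancel]

theorem lp_der_exp {G : ℂ → ℂ} {c τ : ℂ} (h : Sm G (c + exp τ)) :
    der (-I) 1 (fun t => G (c + exp t)) τ = exp τ * der (-I) 1 G (c + exp τ) ∧
      der I 1 (fun t => G (c + exp t)) τ = conj (exp τ) * der I 1 G (c + exp τ) := by
  have d : HasDerivAt (fun t => c + exp t) (exp τ) τ := (hasDerivAt_exp τ).const_add c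
  have e : fderiv ℂ (fun t => c + exp t) τ 1 = exp τ • (1 : ℂ) := by
    rw [fderiv_eq_smul_deriv, d.deriv]
    simp
  rw [der_comp_holo (g := fun t => c + exp t) h.diff d.differentiableAt,
    der_comp_holo (g := fun t => c + exp t) h.diff d.differentiableAt, e, d_vec_smul,
    dbar_vec_smul]
  exact ⟨rfl, rfl⟩

theorem lp_der_shift (G : ℂ → ℂ) (a τ c : ℂ) :
    der c 1 (fun t => G (t + a)) τ = der c 1 G (τ + a) := by
  simp only [der, fderiv_comp_add_right]

end

end Pool.Agent.Lib.MP_5c318e_ag.V
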