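import Pool.Agent.Lib.MP_5c318e_ag.V.Frame

/-! Integrals of pairings of forms, and the theorem of Stokes. -/

set_option autoImplicit false

namespace Pool.Agent.Lib.MP_5c318e_ag.V

open Matrix Filter Topology MeasureTheory Complex Metric
open scoped ComplexOrder ContDiff ComplexConjugate

noncomputable section

variable {ι : Type} [Fintype ι] [DecidableEq ι] {w : ℕ} {Ω : Set ℂ} {V : VHS ℂ Ω ι w}

theorem int_open (hΩ : Ωᶜ.Finite) : IsOpen Ω := by
  simpa using hΩ.isClosed.isOpen_compl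

theorem int_ae (hΩ : Ωᶜ.Finite) : ∀ᵐ x : ℂ, x ∈ Ω := hΩ.measure_zero _

theorem int_meas (hΩ : Ωᶜ.Finite) {F : Type} [NormedAddCommGroup F] {f : ℂ → F}
    (h : ContinuousOn f Ω) : AEStronglyMeasurable f volume := by
  have := h.aestronglyMeasurable (μ := volume) (int_open hΩ).measurableSet
  rwa [Measure.restrict_eq_self_of_ae_mem (int_ae hΩ)] at this

theorem int_ae_eq (hΩ : Ωᶜ.Finite) {F : Type} {f g : ℂ → F} (h : ∀ x ∈ Ω, f x = g x) :
    f =ᵐ[volume] g := (int_ae hΩ).mono h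

/-- a function continuous on `Ω` with compact support in `Ω` is integrable -/
theorem int_of_cpt (hΩ : Ωᶜ.Finite) {F : Type} [NormedAddCommGroup F] {f : ℂ → F}
    (h : ContinuousOn f Ω) (hc : Cpt Ω f) : Integrable f := by
  obtain ⟨K, hK, hk, h0⟩ := hc
  exact ((h.mono hK).integrableOn_compact hk).integrable_of_ae_notMem_eq_zero
    ((int_ae hΩ).mono h0)

/-- the integral of a derivative of a function with compact support vanishes -/
theorem int_der_zero (hΩ : Ωᶜ.Finite) {f : ℂ → ℂ} (h : ∀ x ∈ Ω, Sm f x) (hc : Cpt Ω f) (c : ℂ) :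
    Integrable (der c 1 f) ∧ ∫ x, der c 1 f x = 0 := by
  have hO := int_open hΩ
  obtain ⟨K, hK, hk, h0⟩ := hc
  have ev : ∀ x ∈ Ω, f =ᶠ[𝓝 x] K.indicator f := fun x hx => by
    filter_upwards [hO.mem_nhds hx] with y hy
    by_cases hy' : y ∈ K
    · rw [Set.indicator_of_mem hy']
    · rw [Set.indicator_of_notMem hy', h0 y hy hy']
  have sm : ContDiff ℝ ∞ (K.indicator f) := contDiff_iff_contDiffAt.2 fun x => by
    by_cases hx : x ∈ K
    · exact (h x (hK hx)).congr_of_eventuallyEq (ev x (hK hx)).symm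
    · refine (contDiffAt_const (c := (0 : ℂ))).congr_of_eventuallyEq ?_
      filter_upwards [hk.isClosed.isOpen_compl.mem_nhds hx] with y hy
      exact Set.indicator_of_notMem hy _
  have cs : HasCompactSupport (K.indicator f) :=
    HasCompactSupport.intro hk fun x hx => Set.indicator_of_notMem hx _
  have i1 : ∀ v : ℂ, Integrable fun x => fderiv ℝ (K.indicator f) x v := fun v =>
    ((sm.continuous_fderiv (by simp)).clm_apply continuous_const).integrable_of_hasCompactSupport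
      (cs.fderiv_apply ℝ v)
  have i0 : ∀ v : ℂ, ∫ x, fderiv ℝ (K.indicator f) x v = 0 := fun v => by
    have := integral_mul_fderiv_eq_neg_fderiv_mul_of_integrable (μ := (volume : Measure ℂ))
      (f := fun _ : ℂ => (1 : ℂ)) (g := K.indicator f) (v := v) (by simp) (by simpa using i1 v)
      (by simpa using sm.continuous.integrable_of_hasCompactSupport cs)
      (fun _ _ => differentiableAt_const _) fun x _ => (sm.differentiable (by simp)) x
    simpa using this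
  have e : der c 1 f =ᵐ[volume] der c 1 (K.indicator f) :=
    int_ae_eq hΩ fun x hx => der_congr (ev x hx)
  have i2 : Integrable fun x => c * fderiv ℝ (K.indicator f) x (I • (1 : ℂ)) := (i1 _).const_mul c
  refine ⟨(((i1 1).add i2).div_const 2).congr e.symm, ?_⟩
  rw [integral_congr_ae e]
  simp only [der]
  rw [integral_div, integral_add (i1 1) i2, integral_const_mul, i0, i0]
  simp

omit [DecidableEq ι] in
theorem int_sm_qf (M : Matrix ι ι ℂ) {u v : ℂ → ι → ℂ} {x : ℂ} (hu : SmV u x) (hv : SmV v x) :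
    Sm (fun y => qf M (u y) (v y)) x := by
  have e : ∀ a b : ι → ℂ, qf M a b = ∑ i, ∑ j, conj (a i) * (M i j * b j) := fun a b => by
    simp only [qf, dotProduct, mulVec, Finset.mul_sum, Pi.star_apply, star_def]
  simp only [e]
  exact ContDiffAt.sum fun i _ => ContDiffAt.sum fun j _ =>
    (hu i).conj.mul (contDiffAt_const.mul (hv j))

omit [DecidableEq ι] in
theorem int_der_qf (M : Matrix ι ι ℂ) {u v : ℂ → ι → ℂ} {x : ℂ} (hu : SmV u x) (hv : SmV v x)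
    (c : ℂ) : der c 1 (fun y => qf M (u y) (v y)) x =
      qf M (derV (conj c) 1 u x) (v x) + qf M (u x) (derV c 1 v x) := by
  have e : ∀ a b : ι → ℂ, qf M a b = ∑ i, ∑ j, conj (a i) * (M i j * b j) := fun a b => by
    simp only [qf, dotProduct, mulVec, Finset.mul_sum, Pi.star_apply, star_def]
  have s : ∀ i j, Sm (fun y => M i j * v y j) x := fun i j => contDiffAt_const.mul (hv j)
  have t : ∀ i j, Sm (fun y => conj (u y i) * (M i j * v y j)) x := fun i j =>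
    (hu i).conj.mul (s i j)
  simp only [e, ← Finset.sum_add_distrib]
  rw [der_sum _ fun i _ => Sm.diff (ContDiffAt.sum fun j _ => t i j)]
  refine Finset.sum_congr rfl fun i _ => ?_
  rw [der_sum _ fun j _ => (t i j).diff]
  refine Finset.sum_congr rfl fun j _ => ?_
  rw [der_mul (hu i).conj.diff (s i j).diff, der_conj (hu i).diff, der_const_mul _ (hv j).diff]
  rfl

namespace VHS

variable {e : ℂ → ι → ℂ} {α α' β β' : Form ι}

/-- the pairing of two sections in the frame of a point -/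
theorem int_qf_ev (hΩ : IsOpen Ω) (e e' : ℂ → ι → ℂ) {x : ℂ} (hx : x ∈ Ω) :
    (fun y => qf (V.ψ y) (e y) (e' y)) =ᶠ[𝓝 x]
      fun y => qf (V.ψ x) (V.loc e x y) (V.loc e' x y) := by
  have := V.flat x hx
  rw [hΩ.nhdsWithin_eq hx] at this
  filter_upwards [this] with y hy
  rw [hy, VHS.loc, VHS.loc, qf_mulVec_left, qf_mulVec_right]

theorem int_der_pair (hΩ : IsOpen Ω) {e e' : ℂ → ι → ℂ} (h : V.SmS e) (h' : V.SmS e') {x : ℂ}
    (hx : x ∈ Ω) (c : ℂ) : der c 1 (fun y => qf (V.ψ y) (e y) (e' y)) x =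
      qf (V.ψ x) (derV (conj c) 1 (V.loc e x) x) (e' x) +
        qf (V.ψ x) (e x) (derV c 1 (V.loc e' x) x) := by
  rw [der_congr (int_qf_ev hΩ e e' hx), int_der_qf _ (h x hx) (h' x hx), V.loc_self e hx,
    V.loc_self e' hx]

theorem int_wey (V : VHS ℂ Ω ι w) {x : ℂ} (hx : x ∈ Ω) :
    psi1 (V.ψ x) * weyP (w + 1) (prj1 fun p => V.π p x) = two (V.H x) := (V.phs x hx).psi1_wey

theorem int_pos (V : VHS ℂ Ω ι w) {x : ℂ} (hx : x ∈ Ω) : (two (V.H x)).PosDef :=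
  V.int_wey hx ▸ (V.phs x hx).one.pos

theorem sm_qf (hΩ : IsOpen Ω) {e e' : ℂ → ι → ℂ} (h : V.SmS e) (h' : V.SmS e') :
    ∀ x ∈ Ω, Sm (fun x => qf (V.ψ x) (e x) (e' x)) x := fun x hx =>
  (int_sm_qf _ (h x hx) (h' x hx)).congr_of_eventuallyEq (int_qf_ev hΩ e e' hx)

theorem sm_pair (hΩ : IsOpen Ω) (h : V.SmF α) (h' : V.SmF β) :
    ∀ x ∈ Ω, Sm (fun x => qf (psi1 (V.ψ x)) (α x) (β x)) x := fun x hx => by
  simp only [qf_psi1]
  exact (sm_qf hΩ h.1 h'.1 x hx).neg.add (sm_qf hΩ h.2 h'.2 x hx)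

theorem pair_cF (α β : Form ι) : ∀ x ∈ Ω,
    qf (psi1 (V.ψ x)) (α x) (V.cF β x) = qf (two (V.H x)) (α x) (β x) := fun x hx => by
  rw [cF, mulF, qf_mulVec_right, V.int_wey hx]

theorem nrm_nonneg (α : Form ι) : ∀ x ∈ Ω, 0 ≤ V.nrm α x := fun _ hx =>
  qf_nonneg (V.int_pos hx) _

theorem nrm_cont (hΩ : IsOpen Ω) (h : V.SmF α) : ContinuousOn (V.nrm α) Ω := by
  have c : ContinuousOn (fun x => qf (psi1 (V.ψ x)) (α x) (V.cF α x)) Ω := fun x hx =>
    (sm_pair hΩ h (h.cF hΩ) x hx).continuousAt.continuousWithinAt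
  exact (continuous_re.comp_continuousOn c).congr fun x hx => by
    simp only [Function.comp, nrm, pair_cF α α x hx]

theorem nrm_cF (α : Form ι) : ∀ x ∈ Ω, V.nrm (V.cF α) x = V.nrm α x := fun x hx => by
  rw [nrm, nrm, ← V.int_wey hx, cF, mulF, (V.phs x hx).one.wey_iso]

theorem pair_le (α β : Form ι) : ∀ x ∈ Ω,
    ‖qf (psi1 (V.ψ x)) (α x) (β x)‖ ^ 2 ≤ V.nrm α x * V.nrm β x := fun x hx => by
  rw [nrm, nrm, ← V.int_wey hx]
  exact (V.phs x hx).one.qf_le _ _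

theorem l2_of_le (hΩ : Ωᶜ.Finite) (h : V.SmF α) {g : ℂ → ℝ} (hg : Integrable g)
    (hle : ∀ x ∈ Ω, V.nrm α x ≤ g x) : V.L2 α :=
  hg.mono' (int_meas hΩ (nrm_cont (int_open hΩ) h)) ((int_ae hΩ).mono fun x hx => by
    rw [Real.norm_of_nonneg (nrm_nonneg α x hx)]
    exact hle x hx)

theorem l2_of_cpt (hΩ : Ωᶜ.Finite) (h : V.SmF α) (hc : Cpt Ω α) : V.L2 α :=
  int_of_cpt hΩ (nrm_cont (int_open hΩ) h) (hc.of_zero fun x _ h0 => by
    rw [nrm, h0, qf_zero_left, zero_re])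

theorem L2.congr (hΩ : Ωᶜ.Finite) (h : V.L2 α) (he : ∀ x ∈ Ω, β x = α x) : V.L2 β :=
  Integrable.congr h (int_ae_eq hΩ fun x hx => by rw [nrm, nrm, he x hx])

theorem int_nrm_smul (c : ℂ) (α : Form ι) (x : ℂ) : V.nrm (c • α) x = ‖c‖ ^ 2 * V.nrm α x := by
  rw [nrm, nrm, Pi.smul_apply, qf_smul_left, qf_smul_right, ← mul_assoc, Complex.conj_mul',
    ← ofReal_pow, re_ofReal_mul]

theorem int_nrm_add (α β : Form ι) : ∀ x ∈ Ω, V.nrm (α + β) x ≤ 2 * V.nrm α x + 2 * V.nrm β x :=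
  fun _ hx => qf_add_le (V.int_pos hx) _ _

theorem L2.add (hΩ : Ωᶜ.Finite) (h : V.L2 α) (h' : V.L2 β) (s : V.SmF α) (s' : V.SmF β) :
    V.L2 (α + β) :=
  l2_of_le hΩ (s.add s') ((Integrable.const_mul h 2).add (Integrable.const_mul h' 2))
    (int_nrm_add α β)

theorem L2.smul (h : V.L2 α) (c : ℂ) : V.L2 (c • α) := by
  have e : V.nrm (c • α) = fun x => ‖c‖ ^ 2 * V.nrm α x := funext (int_nrm_smul c α)
  rw [L2, e]
  exact Integrable.const_mul h _

theorem L2.sub (hΩ : Ωᶜ.Finite) (h : V.L2 α) (h' : V.L2 β) (s : V.SmF α) (s' : V.SmF β) :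
    V.L2 (α - β) := by
  rw [sub_eq_add_neg, ← neg_one_smul ℂ β]
  exact h.add hΩ (h'.smul _) s (s'.smul _)

theorem L2.pF (hΩ : Ωᶜ.Finite) (h : V.L2 α) (s : V.SmF α) (p : ℤ) : V.L2 (V.pF p α) :=
  l2_of_le hΩ (s.pF (int_open hΩ) p) h fun x hx => by
    rw [nrm, nrm, ← V.int_wey hx]
    exact (V.phs x hx).one.prj_le p _

theorem L2.cF (hΩ : Ωᶜ.Finite) (h : V.L2 α) : V.L2 (V.cF α) :=
  Integrable.congr h (int_ae_eq hΩ fun x hx => (nrm_cF α x hx).symm)

theorem z_zero : V.Z 0 := by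
  refine ⟨closed_zero, ?_⟩
  have e : V.nrm 0 = fun _ => 0 := funext fun x => by rw [nrm, Pi.zero_apply, qf_zero_left, zero_re]
  rw [L2, e]
  exact integrable_zero _ _ _

theorem Z.congr (hΩ : Ωᶜ.Finite) (h : V.Z α) (he : ∀ x ∈ Ω, β x = α x) : V.Z β :=
  ⟨h.1.congr (int_open hΩ) he, h.2.congr hΩ he⟩

theorem Z.add (hΩ : Ωᶜ.Finite) (h : V.Z α) (h' : V.Z β) : V.Z (α + β) :=
  ⟨h.1.add h'.1, h.2.add hΩ h'.2 h.1.1 h'.1.1⟩

theorem Z.sub (hΩ : Ωᶜ.Finite) (h : V.Z α) (h' : V.Z β) : V.Z (α - β) :=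
  ⟨h.1.sub h'.1, h.2.sub hΩ h'.2 h.1.1 h'.1.1⟩

theorem Z.smul (h : V.Z α) (c : ℂ) : V.Z (c • α) := ⟨h.1.smul c, h.2.smul c⟩

theorem Z.sum (hΩ : Ωᶜ.Finite) {J : Type} (s : Finset J) {α : J → Form ι} (h : ∀ j ∈ s, V.Z (α j))
    (c : J → ℂ) : V.Z (∑ j ∈ s, c j • α j) :=
  Finset.sum_induction _ V.Z (fun _ _ a b => a.add hΩ b) z_zero fun j hj => (h j hj).smul _

theorem int_pair_le (α β : Form ι) (t : ℝ) : ∀ x ∈ Ω,
    2 * t * ‖qf (psi1 (V.ψ x)) (α x) (β x)‖ ≤ t * t * V.nrm α x + V.nrm β x := fun x hx => by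
  have h1 := pair_le (V := V) α β x hx
  have h2 := nrm_nonneg (V := V) α x hx
  have h3 := nrm_nonneg (V := V) β x hx
  refine abs_le_of_sq_le_sq' ?_ (add_nonneg (mul_nonneg (mul_self_nonneg t) h2) h3) |>.2
  nlinarith [sq_nonneg (t * t * V.nrm α x - V.nrm β x),
    mul_le_mul_of_nonneg_left h1 (mul_self_nonneg t)]

theorem pair_int (hΩ : Ωᶜ.Finite) (s : V.SmF α) (h : V.L2 α) (s' : V.SmF β) (h' : V.L2 β) :
    Integrable fun x => qf (psi1 (V.ψ x)) (α x) (β x) :=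
  (Integrable.add h h').mono' (int_meas hΩ fun x hx =>
    (sm_pair (int_open hΩ) s s' x hx).continuousAt.continuousWithinAt)
    ((int_ae hΩ).mono fun x hx => by
      have h1 := int_pair_le (V := V) α β 1 x hx
      have h2 := norm_nonneg (qf (psi1 (V.ψ x)) (α x) (β x))
      rw [Pi.add_apply]
      linarith)

theorem Q_congr (hΩ : Ωᶜ.Finite) (e1 : ∀ x ∈ Ω, α' x = α x) (e2 : ∀ x ∈ Ω, β' x = β x) :
    V.Q α' β' = V.Q α β :=
  integral_congr_ae (int_ae_eq hΩ fun x hx => by rw [e1 x hx, e2 x hx])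

theorem Q_conj (hΩ : Ωᶜ.Finite) (α β : Form ι) : conj (V.Q α β) = V.Q β α := by
  rw [Q, ← integral_conj]
  exact integral_congr_ae (int_ae_eq hΩ fun x hx => qf_conj (V.phs x hx).one.herm _ _)

theorem Q_smul_right (α β : Form ι) (c : ℂ) : V.Q α (c • β) = c * V.Q α β := by
  simp only [Q, Pi.smul_apply, qf_smul_right, integral_const_mul]

theorem Q_smul_left (α β : Form ι) (c : ℂ) : V.Q (c • α) β = conj c * V.Q α β := by
  simp only [Q, Pi.smul_apply, qf_smul_left, integral_const_mul]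

theorem Q_add_right (hΩ : Ωᶜ.Finite) (s : V.SmF α) (h : V.L2 α) (s1 : V.SmF β) (h1 : V.L2 β)
    (s2 : V.SmF β') (h2 : V.L2 β') : V.Q α (β + β') = V.Q α β + V.Q α β' := by
  simp only [Q, Pi.add_apply, qf_add_right]
  exact integral_add (pair_int hΩ s h s1 h1) (pair_int hΩ s h s2 h2)

theorem Q_sub_right (hΩ : Ωᶜ.Finite) (s : V.SmF α) (h : V.L2 α) (s1 : V.SmF β) (h1 : V.L2 β)
    (s2 : V.SmF β') (h2 : V.L2 β') : V.Q α (β - β') = V.Q α β - V.Q α β' := by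
  simp only [Q, Pi.sub_apply, qf_sub_right]
  exact integral_sub (pair_int hΩ s h s1 h1) (pair_int hΩ s h s2 h2)

theorem Q_add_left (hΩ : Ωᶜ.Finite) (s1 : V.SmF α) (h1 : V.L2 α) (s2 : V.SmF α') (h2 : V.L2 α')
    (s : V.SmF β) (h : V.L2 β) : V.Q (α + α') β = V.Q α β + V.Q α' β := by
  simp only [Q, Pi.add_apply, qf_add_left]
  exact integral_add (pair_int hΩ s1 h1 s h) (pair_int hΩ s2 h2 s h)

theorem Q_sub_left (hΩ : Ωᶜ.Finite) (s1 : V.SmF α) (h1 : V.L2 α) (s2 : V.SmF α') (h2 : V.L2 α')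
    (s : V.SmF β) (h : V.L2 β) : V.Q (α - α') β = V.Q α β - V.Q α' β := by
  simp only [Q, Pi.sub_apply, qf_sub_left]
  exact integral_sub (pair_int hΩ s1 h1 s h) (pair_int hΩ s2 h2 s h)

theorem Q_sum_right (hΩ : Ωᶜ.Finite) (s : V.SmF α) (h : V.L2 α) {J : Type} (t : Finset J)
    {β : J → Form ι} (hβ : ∀ j ∈ t, V.Z (β j)) (c : J → ℂ) :
    V.Q α (∑ j ∈ t, c j • β j) = ∑ j ∈ t, c j * V.Q α (β j) := by
  classical
  induction t using Finset.induction_on with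
  | empty => simp [Q, qf_zero_right]
  | insert a t ha ih =>
    have h1 := (hβ a (Finset.mem_insert_self a t)).smul (c a)
    have h2 : ∀ j ∈ t, V.Z (β j) := fun j hj => hβ j (Finset.mem_insert_of_mem hj)
    have h3 := Z.sum hΩ t h2 c
    rw [Finset.sum_insert ha, Finset.sum_insert ha, Q_add_right hΩ s h h1.1.1 h1.2 h3.1.1 h3.2,
      Q_smul_right, ih h2]

theorem Q_sum_left (hΩ : Ωᶜ.Finite) (s : V.SmF β) (h : V.L2 β) {J : Type} (t : Finset J)
    {α : J → Form ι} (hα : ∀ j ∈ t, V.Z (α j)) (c : J → ℂ) :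
    V.Q (∑ j ∈ t, c j • α j) β = ∑ j ∈ t, conj (c j) * V.Q (α j) β := by
  rw [← Q_conj hΩ, Q_sum_right hΩ s h t hα c, map_sum]
  exact Finset.sum_congr rfl fun j _ => by rw [map_mul, Q_conj hΩ]

/-- a self adjoint pointwise operator is self adjoint -/
theorem Q_mulF (hΩ : Ωᶜ.Finite) {M : ℂ → Matrix (ι ⊕ ι) (ι ⊕ ι) ℂ}
    (hM : ∀ x ∈ Ω, (M x)ᴴ * psi1 (V.ψ x) = psi1 (V.ψ x) * M x) (α β : Form ι) :
    V.Q (mulF M α) β = V.Q α (mulF M β) :=
  integral_congr_ae (int_ae_eq hΩ fun x hx => by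
    rw [mulF, mulF, qf_mulVec_left, qf_mulVec_right, hM x hx])

theorem Q_cF_self (hΩ : Ωᶜ.Finite) (α : Form ι) : V.Q α (V.cF α) = (∫ x, V.nrm α x : ℝ) := by
  rw [← integral_complex_ofReal]
  exact integral_congr_ae (int_ae_eq hΩ fun x hx => by
    rw [pair_cF α α x hx]
    exact qf_self (V.int_pos hx) _)

theorem Q_le (hΩ : Ωᶜ.Finite) (s : V.SmF α) (h : V.L2 α) (s' : V.SmF β) (h' : V.L2 β) :
    ‖V.Q α β‖ ^ 2 ≤ (∫ x, V.nrm α x) * ∫ x, V.nrm β x := by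
  have i := (pair_int hΩ s h s' h').norm
  have k : ∀ t : ℝ, 0 ≤ (∫ x, V.nrm α x) * (t * t) +
      (-2 * ∫ x, ‖qf (psi1 (V.ψ x)) (α x) (β x)‖) * t + ∫ x, V.nrm β x := fun t => by
    have := integral_mono_ae (i.const_mul (2 * t)) ((Integrable.const_mul h (t * t)).add h')
      ((int_ae hΩ).mono (int_pair_le α β t))
    simp only [Pi.add_apply] at this
    rw [integral_add (Integrable.const_mul h (t * t)) h', integral_const_mul,
      integral_const_mul] at this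
    linarith
  have d := discrim_le_zero k
  have n : ‖V.Q α β‖ ≤ ∫ x, ‖qf (psi1 (V.ψ x)) (α x) (β x)‖ := norm_integral_le_integral_norm _
  rw [discrim] at d
  nlinarith [pow_le_pow_left₀ (norm_nonneg _) n 2]

theorem eq_zero_of_int (hΩ : Ωᶜ.Finite) (s : V.SmF α) (h : V.L2 α) (h0 : ∫ x, V.nrm α x = 0) :
    ∀ x ∈ Ω, α x = 0 := fun x hx => by
  have a := (integral_eq_zero_iff_of_nonneg_ae ((int_ae hΩ).mono (nrm_nonneg α)) h).1 h0
  exact qf_eq_zero (V.int_pos hx) (Measure.eqOn_open_of_ae_eq (ae_restrict_of_ae a) (int_open hΩ)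
    (nrm_cont (int_open hΩ) s) continuousOn_const hx)

/-- the theorem of Stokes -/
theorem stokes (hΩ : Ωᶜ.Finite) (s : V.SmS e) (hc : Cpt Ω e) (h : V.Closed α) :
    V.Q (V.D e) α = 0 := by
  have hO := int_open hΩ
  have r : ∀ x ∈ Ω, qf (psi1 (V.ψ x)) (V.D e x) (α x) =
      der (-I) 1 (fun y => qf (V.ψ y) (e y) (f2 α y)) x -
        der I 1 (fun y => qf (V.ψ y) (e y) (f1 α y)) x := fun x hx => by
    rw [int_der_pair hO s h.1.2 hx, int_der_pair hO s h.1.1 hx, h.2 x hx, qf_psi1]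
    simp only [map_neg, conj_I, neg_neg]
    change -qf _ (derV (-I) 1 (V.loc e x) x) (f1 α x) + qf _ (derV I 1 (V.loc e x) x) (f2 α x) = _
    ring
  have k : ∀ {u : ℂ → ι → ℂ}, V.SmS u → ∀ c : ℂ,
      Integrable (der c 1 fun y => qf (V.ψ y) (e y) (u y)) ∧
        ∫ x, der c 1 (fun y => qf (V.ψ y) (e y) (u y)) x = 0 := fun hu c =>
    int_der_zero hΩ (sm_qf hO s hu) (hc.of_zero fun x _ h0 => by rw [h0, qf_zero_left]) c
  rw [Q, integral_congr_ae (int_ae_eq hΩ r), integral_sub (k h.1.2 _).1 (k h.1.1 _).1,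
    (k h.1.2 _).2, (k h.1.1 _).2, sub_zero]

theorem Cl.orth (hΩ : Ωᶜ.Finite) (h : V.Cl α) (hα : V.Z α) (hβ : V.Z β) : V.Q α β = 0 := by
  have hO := int_open hΩ
  have B : 0 ≤ ∫ x, V.nrm β x := integral_nonneg_of_ae ((int_ae hΩ).mono (nrm_nonneg β))
  have k : ∀ ε > 0, ‖V.Q α β‖ ^ 2 ≤ 0 + ε := fun ε hε => by
    obtain ⟨e, s, c, l⟩ := h (ε / ((∫ x, V.nrm β x) + 1)) (by positivity)
    have z : V.Z (V.D e) := ⟨s.closed hO, l2_of_cpt hΩ (s.closed hO).1 (c.D hO)⟩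
    have z' := hα.sub hΩ z
    have q := Q_le hΩ z'.1.1 z'.2 hβ.1.1 hβ.2
    rw [Q_sub_left hΩ hα.1.1 hα.2 z.1.1 z.2 hβ.1.1 hβ.2, stokes hΩ s c hβ.1, sub_zero] at q
    rw [lt_div_iff₀ (by positivity)] at l
    have A : 0 ≤ ∫ x, V.nrm (α - V.D e) x := integral_nonneg_of_ae ((int_ae hΩ).mono (nrm_nonneg _))
    nlinarith
  exact norm_eq_zero.1 (pow_eq_zero_iff two_ne_zero |>.1
    (le_antisymm (le_of_forall_pos_le_add k) (sq_nonneg _)))

end VHS

end

end Pool.Agent.Lib.MP_5c318e_ag.V
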