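import Pool.Agent.Lib.MP_5c318e_ag.V.SDefs
import Pool.Agent.Lib.MP_5c318e_ag.V.Int

/-! Pull back of sections and forms. -/

set_option autoImplicit false

namespace Pool.Agent.Lib.MP_5c318e_ag.V

open Matrix Filter Topology MeasureTheory Complex Metric
open scoped ComplexOrder ContDiff ComplexConjugate

noncomputable section

variable {ι : Type} [Fintype ι] [DecidableEq ι] {w : ℕ} {Ω : Set ℂ} {V : VHS ℂ Ω ι w}

namespace Pl

theorem fderiv_eq_der (g : ℂ → ℂ) (y t : ℂ) :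
    fderiv ℝ g y t = t * der (-I) 1 g y + conj t * der I 1 g y := by
  have e : t = t • (1 : ℂ) := by simp
  have cj : conj t = t.re - t.im * I := by apply Complex.ext <;> simp
  conv_lhs => rw [e, smul_split t 1, map_add, map_smul, map_smul]
  rw [der, der, cj]
  simp only [real_smul]
  have et := re_add_im t
  generalize (t.re : ℂ) = t1 at *
  generalize (t.im : ℂ) = t2 at *
  subst et
  linear_combination (t2 * fderiv ℝ g y (I • 1)) * I_mul_I

theorem der_comp {f g : ℂ → ℂ} {x : ℂ} (hf : DifferentiableAt ℝ f x)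
    (hg : DifferentiableAt ℝ g (f x)) :
    der (-I) 1 (fun y => g (f y)) x =
        der (-I) 1 f x * der (-I) 1 g (f x) + conj (der I 1 f x) * der I 1 g (f x) ∧
      der I 1 (fun y => g (f y)) x =
        der I 1 f x * der (-I) 1 g (f x) + conj (der (-I) 1 f x) * der I 1 g (f x) := by
  have e : fderiv ℝ (fun y => g (f y)) x = (fderiv ℝ g (f x)).comp (fderiv ℝ f x) :=
    fderiv_comp x hg hf
  have k : ∀ c, der c 1 (fun y => g (f y)) x =
      (fderiv ℝ g (f x) (fderiv ℝ f x 1) + c * fderiv ℝ g (f x) (fderiv ℝ f x (I • 1))) / 2 :=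
    fun c => by rw [der, e]; rfl
  rw [k, k, fderiv_eq_der g (f x) (fderiv ℝ f x 1), fderiv_eq_der g (f x) (fderiv ℝ f x (I • 1))]
  generalize der (-I) 1 g (f x) = a
  generalize der I 1 g (f x) = b
  simp only [der, map_div₀, map_add, map_mul, map_neg, conj_I, map_ofNat]
  constructor <;> ring

theorem jm_mulVec (u v : ℂ) (M : Matrix ι ι ℂ) (a : ι ⊕ ι → ℂ) :
    jm u v M *ᵥ a =
      Sum.elim (u • (M *ᵥ fun i => a (Sum.inl i)) + conj v • (M *ᵥ fun i => a (Sum.inr i)))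
        (v • (M *ᵥ fun i => a (Sum.inl i)) + conj u • (M *ᵥ fun i => a (Sum.inr i))) := by
  simp only [jm, fromBlocks_mulVec, smul_mulVec]
  rfl

theorem two_mul_jm (u v : ℂ) (M N : Matrix ι ι ℂ) : two M * jm u v N = jm u v (M * N) := by
  rw [← jm_one_zero, jm_mul]
  simp

theorem jm_mul_two (u v : ℂ) (M N : Matrix ι ι ℂ) : jm u v M * two N = jm u v (M * N) := by
  rw [← jm_one_zero, jm_mul]
  simp

omit [Fintype ι] [DecidableEq ι] in
theorem smV_comp {β : ℂ → ι → ℂ} {f : ℂ → ℂ} {x : ℂ} (hβ : SmV β (f x)) (hf : Sm f x) :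
    SmV (fun y => β (f y)) x := fun i => ContDiffAt.comp (g := fun y => β y i) x (hβ i) hf

theorem dV_comp {β : ℂ → ι → ℂ} {f : ℂ → ℂ} {x : ℂ} (hβ : SmV β (f x)) (hf : Sm f x)
    (M : Matrix ι ι ℂ) :
    dV (fun y => M *ᵥ β (f y)) x = jm (der (-I) 1 f x) (der I 1 f x) M *ᵥ dV β (f x) := by
  have e : dV (fun y => β (f y)) x = jm (der (-I) 1 f x) (der I 1 f x) 1 *ᵥ dV β (f x) := by
    rw [jm_mulVec, one_mulVec, one_mulVec]
    funext j
    rcases j with i | i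
    · exact (der_comp (g := fun y => β y i) hf.diff (hβ i).diff).1
    · exact (der_comp (g := fun y => β y i) hf.diff (hβ i).diff).2
  rw [Fr.dV_mulVec M (smV_comp hβ hf), e, mulVec_mulVec, two_mul_jm, Matrix.mul_one]

theorem det_fderiv (f : ℂ → ℂ) (x : ℂ) :
    (fderiv ℝ f x).det = ‖der (-I) 1 f x‖ ^ 2 - ‖der I 1 f x‖ ^ 2 := by
  rw [ContinuousLinearMap.det, ← LinearMap.det_toMatrix basisOneI, Matrix.det_fin_two,
    ← normSq_eq_norm_sq, ← normSq_eq_norm_sq]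
  simp only [LinearMap.toMatrix_apply, coe_basisOneI_repr, coe_basisOneI, der, smul_eq_mul, mul_one,
    normSq_apply]
  simp
  ring

end Pl

open Pl

namespace Mor

variable {Ω' : Set ℂ} {V' : VHS ℂ Ω' ι w} {f : ℂ → ℂ} {m : ℂ → GL ι ℤ} {α β : Form ι}

theorem loc_pull (h : Mor V V' f m) (e : ℂ → ι → ℂ) {x : ℂ} (hx : x ∈ Ω) :
    V.loc (pullS f m e) x =ᶠ[𝓝 x] fun y => cx (m x) *ᵥ V'.loc e (f x) (f y) := by
  filter_upwards [h.tr x hx] with y hy
  simp only [VHS.loc, pullS, mulVec_mulVec, ← cx_mul, hy]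

theorem locF_pull (h : Mor V V' f m) (α : Form ι) {x : ℂ} (hx : x ∈ Ω) :
    ∀ᶠ y in 𝓝 x, two (cx (V.κ x y)) *ᵥ pullF f m α y =
      jm (der (-I) 1 f y) (der I 1 f y) (cx (m x)) *ᵥ (two (cx (V'.κ (f x) (f y))) *ᵥ α (f y)) := by
  filter_upwards [h.tr x hx] with y hy
  simp only [pullF, mulVec_mulVec, two_mul_jm, jm_mul_two, ← cx_mul, hy]

theorem smS (h : Mor V V' f m) {e : ℂ → ι → ℂ} (he : V'.SmS e) : V.SmS (pullS f m e) :=
  fun x hx => Fr.smV_congr (Fr.smV_mulVec (smM_const _) (smV_comp (he _ (h.maps hx)) (h.sm x hx)))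
    (h.loc_pull e hx)

theorem D (h : Mor V V' f m) {e : ℂ → ι → ℂ} (he : V'.SmS e) :
    ∀ x ∈ Ω, V.D (pullS f m e) x = pullF f m (V'.D e) x := fun x hx =>
  (Fr.dV_congr (h.loc_pull e hx)).trans (dV_comp (he _ (h.maps hx)) (h.sm x hx) _)

theorem smF (h : Mor V V' f m) (hα : V'.SmF α) : V.SmF (pullF f m α) := by
  have u := fun x hx => (h.sm x hx).der (-I) 1
  have v := fun x hx => (h.sm x hx).der I 1
  refine ⟨(((h.smS hα.1).fmul u).add ((h.smS hα.2).fmul fun x hx => (v x hx).conj)).congr h.op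
    fun x _ => ?_, (((h.smS hα.1).fmul v).add
      ((h.smS hα.2).fmul fun x hx => (u x hx).conj)).congr h.op fun x _ => ?_⟩
  · funext i
    simp only [f1, pullF, jm_mulVec]
    rfl
  · funext i
    simp only [f2, pullF, jm_mulVec]
    rfl

theorem prim_pull (h : Mor V V' f m) {x : ℂ} (hx : x ∈ Ω) {b : ℂ → ι → ℂ}
    (hb : ∀ᶠ y in 𝓝 (f x), SmV b y ∧ dV b y = two (cx (V'.κ (f x) y)) *ᵥ α y) :
    ∀ᶠ y in 𝓝 x, SmV (fun z => cx (m x) *ᵥ b (f z)) y ∧
      dV (fun z => cx (m x) *ᵥ b (f z)) y = two (cx (V.κ x y)) *ᵥ pullF f m α y := by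
  filter_upwards [(h.sm x hx).continuousAt.eventually hb, h.locF_pull α hx, h.op.mem_nhds hx]
    with y e1 e2 hy
  exact ⟨Fr.smV_mulVec (smM_const _) (smV_comp e1.1 (h.sm y hy)),
    by rw [dV_comp e1.1 (h.sm y hy), e1.2, e2]⟩

theorem closed (h : Mor V V' f m) (hα : V'.Closed α) : V.Closed (pullF f m α) := by
  refine ⟨h.smF hα.1, fun x hx => ?_⟩
  obtain ⟨r, hr, hs, hk, -⟩ := V'.exists_lv h.op' (h.maps hx)
  obtain ⟨b, hb⟩ := exists_prim isOpen_ball (mem_ball_self hr)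
    ((convex_ball (f x) r).starConvex (mem_ball_self hr))
    (fun y hy => (hα.fr isOpen_ball hs hk hy).1) (fun y hy => (hα.fr isOpen_ball hs hk hy).2.1)
    fun y hy => (hα.fr isOpen_ball hs hk hy).2.2
  have key := h.prim_pull hx (eventually_of_mem (ball_mem_nhds _ hr) hb)
  have e1 : V.loc (f1 (pullF f m α)) x =ᶠ[𝓝 x] derV (-I) 1 fun z => cx (m x) *ᵥ b (f z) :=
    key.mono fun y hy => by
      have := congrArg (fun a i => a (Sum.inl i)) hy.2
      rw [two_mulVec] at this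
      exact this.symm
  have e2 : V.loc (f2 (pullF f m α)) x =ᶠ[𝓝 x] derV I 1 fun z => cx (m x) *ᵥ b (f z) :=
    key.mono fun y hy => by
      have := congrArg (fun a i => a (Sum.inr i)) hy.2
      rw [two_mulVec] at this
      exact this.symm
  rw [Fr.derV_congr e1, Fr.derV_congr e2]
  exact Fr.derV_comm key.self_of_nhds.1

theorem exact (h : Mor V V' f m) (hα : V'.Exact α) : V.Exact (pullF f m α) := by
  obtain ⟨e, he, h1⟩ := hα
  exact ⟨_, h.smS he, fun x hx => by rw [h.D he x hx, pullF, pullF, h1 _ (h.maps hx)]⟩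

theorem primMod (h : Mor V V' f m) {Λ : AddSubgroup ℂ} (hα : V'.PrimMod Λ α) :
    V.PrimMod Λ (pullF f m α) := by
  obtain ⟨b, hb⟩ := hα
  refine ⟨pullS f m b, fun x hx => ?_⟩
  obtain ⟨c, hc⟩ := hb _ (h.maps hx)
  refine ⟨fun z => cx (m x) *ᵥ c (f z), ?_⟩
  filter_upwards [h.prim_pull hx (hc.mono fun y hy => ⟨hy.1, hy.2.1⟩), h.loc_pull b hx,
    (h.sm x hx).continuousAt.eventually hc] with y e1 e2 e3
  refine ⟨e1.1, e1.2, fun i => ?_⟩
  rw [e2, ← Pi.sub_apply, ← mulVec_sub]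
  exact cx_mem Λ _ e3.2.2 i

theorem pair (h : Mor V V' f m) (α β : Form ι) : ∀ x ∈ Ω,
    qf (psi1 (V.ψ x)) (pullF f m α x) (pullF f m β x) =
      ((‖der (-I) 1 f x‖ ^ 2 - ‖der I 1 f x‖ ^ 2 : ℝ) : ℂ) *
        qf (psi1 (V'.ψ (f x))) (α (f x)) (β (f x)) := fun x hx => by
  rw [pullF, pullF, qf_mulVec_right, qf_mulVec_left, ← Matrix.mul_assoc, jm_psi1, ← h.iso x hx,
    qf, qf, smul_mulVec, dotProduct_smul, smul_eq_mul]

end Mor

theorem pullF_add (f : ℂ → ℂ) (m : ℂ → GL ι ℤ) (α β : Form ι) :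
    pullF f m (α + β) = pullF f m α + pullF f m β :=
  funext fun _ => mulVec_add _ _ _

theorem pullF_sub (f : ℂ → ℂ) (m : ℂ → GL ι ℤ) (α β : Form ι) :
    pullF f m (α - β) = pullF f m α - pullF f m β :=
  funext fun _ => mulVec_sub _ _ _

theorem pullF_sum (f : ℂ → ℂ) (m : ℂ → GL ι ℤ) {J : Type} (s : Finset J) (α : J → Form ι)
    (c : J → ℂ) : pullF f m (∑ j ∈ s, c j • α j) = ∑ j ∈ s, c j • pullF f m (α j) := by
  funext x
  simp only [pullF, Finset.sum_apply, Pi.smul_apply, mulVec_sum, mulVec_smul]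

theorem pullF_comp {f g : ℂ → ℂ} (m m' : ℂ → GL ι ℤ) (α : Form ι) {x : ℂ} (hf : Sm f x)
    (hg : Sm g (f x)) :
    pullF f m (pullF g m' α) x = pullF (fun y => g (f y)) (fun y => m y * m' (f y)) α x := by
  simp only [pullF, mulVec_mulVec, jm_mul, cx_mul, (der_comp hf.diff hg.diff).1,
    (der_comp hf.diff hg.diff).2]

theorem pullF_id {f : ℂ → ℂ} (m : ℂ → GL ι ℤ) (α : Form ι) {x : ℂ} (hf : ∀ᶠ y in 𝓝 x, f y = y) :
    pullF f m α x = two (cx (m x)) *ᵥ α x := by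
  have e : f =ᶠ[𝓝 x] fun y => y := hf
  have d : DifferentiableAt ℂ (fun y : ℂ => y) x := differentiableAt_id
  rw [pullF, der_congr e, der_congr e, dbar_holo d, d_holo d, hf.self_of_nhds]
  simp [jm_one_zero]

/-- change of variables -/
theorem integral_pull {F : Type} [NormedAddCommGroup F] [NormedSpace ℝ F] {f : ℂ → ℂ}
    (hf : ∀ x, Sm f x) (hb : Function.Bijective f) (hj : ∀ x, ‖der I 1 f x‖ < ‖der (-I) 1 f x‖)
    (g : ℂ → F) :
    (∫ x, (‖der (-I) 1 f x‖ ^ 2 - ‖der I 1 f x‖ ^ 2) • g (f x) = ∫ x, g x) ∧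
      ((Integrable fun x => (‖der (-I) 1 f x‖ ^ 2 - ‖der I 1 f x‖ ^ 2) • g (f x)) ↔
        Integrable g) := by
  have d : ∀ x ∈ (Set.univ : Set ℂ), HasFDerivWithinAt f (fderiv ℝ f x) Set.univ x :=
    fun x _ => (hf x).diff.hasFDerivAt.hasFDerivWithinAt
  have e : ∀ x, |(fderiv ℝ f x).det| = ‖der (-I) 1 f x‖ ^ 2 - ‖der I 1 f x‖ ^ 2 := fun x => by
    rw [det_fderiv, abs_of_nonneg (sub_nonneg.2 (pow_le_pow_left₀ (norm_nonneg _) (hj x).le 2))]
  have h1 := integral_image_eq_integral_abs_det_fderiv_smul volume MeasurableSet.univ d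
    hb.1.injOn g
  have h2 := integrableOn_image_iff_integrableOn_abs_det_fderiv_smul volume MeasurableSet.univ d
    hb.1.injOn g
  simp only [Set.image_univ, hb.2.range_eq, Measure.restrict_univ, integrableOn_univ, e] at h1 h2
  exact ⟨h1.symm, h2.symm⟩

theorem lintegral_pull {f : ℂ → ℂ} (hf : ∀ x, Sm f x) (hb : Function.Bijective f)
    (hj : ∀ x, ‖der I 1 f x‖ < ‖der (-I) 1 f x‖) (g : ℂ → ENNReal) :
    ∫⁻ x, ENNReal.ofReal (‖der (-I) 1 f x‖ ^ 2 - ‖der I 1 f x‖ ^ 2) * g (f x) = ∫⁻ x, g x := by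
  have d : ∀ x ∈ (Set.univ : Set ℂ), HasFDerivWithinAt f (fderiv ℝ f x) Set.univ x :=
    fun x _ => (hf x).diff.hasFDerivAt.hasFDerivWithinAt
  have e : ∀ x, |(fderiv ℝ f x).det| = ‖der (-I) 1 f x‖ ^ 2 - ‖der I 1 f x‖ ^ 2 := fun x => by
    rw [det_fderiv, abs_of_nonneg (sub_nonneg.2 (pow_le_pow_left₀ (norm_nonneg _) (hj x).le 2))]
  have h1 := lintegral_image_eq_lintegral_abs_det_fderiv_mul volume MeasurableSet.univ d
    hb.1.injOn g
  simp only [Set.image_univ, hb.2.range_eq, Measure.restrict_univ, e] at h1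
  exact h1.symm

end

end Pool.Agent.Lib.MP_5c318e_ag.V
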