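import Pool.Agent.Lib.MP_5c318e_ag.V.Exact
import Pool.Agent.Lib.MP_5c318e_ag.V.Pull
import Pool.Agent.Lib.MP_5c318e_ag.V.LocPA

/-! Primitives near the punctures. -/

set_option autoImplicit false

namespace Pool.Agent.Lib.MP_5c318e_ag.V

open Matrix Filter Topology MeasureTheory Complex Metric
open scoped ComplexOrder ContDiff ComplexConjugate

noncomputable section

variable {ι : Type} [Fintype ι] [DecidableEq ι] {w : ℕ} {Ω : Set ℂ} {V : VHS ℂ Ω ι w}

theorem lp_const {F : Type} {O : Set ℂ} (hO : IsPreconnected O) {u : ℂ → F}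
    (hu : ∀ a ∈ O, ∀ᶠ a1 in 𝓝 a, u a1 = u a) {a b : ℂ} (ha : a ∈ O) (hb : b ∈ O) : u a = u b := by
  let : TopologicalSpace F := ⊥
  have : DiscreteTopology F := ⟨rfl⟩
  refine hO.constant (fun x hx => ?_) ha hb
  exact ((continuousAt_const (y := u x)).congr (EventuallyEq.symm (hu x hx))).continuousWithinAt

/-- equivariant functions on a strip descend to sections -/
theorem lp_sec {c : ℂ} {J : Set ℝ} (hJ : IsOpen J) {k : ℂ → GL ι ℤ} {T : GL ι ℤ}
    (hk : IsFr {τ : ℂ | τ.re ∈ J} (fun a a' => V.κ (c + exp a) (c + exp a')) k)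
    (hT : ∀ τ : ℂ, τ.re ∈ J → k (τ + 2 * Real.pi * I) = T * k τ) {β : ℂ → ι → ℂ} {α : Form ι}
    (hs : ∀ τ : ℂ, τ.re ∈ J → SmV β τ)
    (hp : ∀ τ : ℂ, τ.re ∈ J → β (τ + 2 * Real.pi * I) = cx T *ᵥ β τ)
    (h1 : ∀ τ : ℂ, τ.re ∈ J → derV (-I) 1 β τ = exp τ • (cx (k τ) *ᵥ f1 α (c + exp τ)))
    (h2 : ∀ τ : ℂ, τ.re ∈ J → derV I 1 β τ = conj (exp τ) • (cx (k τ) *ᵥ f2 α (c + exp τ))) :
    ∃ e : ℂ → ι → ℂ, ∀ τ : ℂ, τ.re ∈ J → e (c + exp τ) = cx (k τ)⁻¹ *ᵥ β τ ∧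
      SmV (V.loc e (c + exp τ)) (c + exp τ) ∧ V.D e (c + exp τ) = α (c + exp τ) := by
  have hS : IsOpen {τ : ℂ | τ.re ∈ J} := hJ.preimage continuous_re
  obtain ⟨e, he⟩ : ∃ e : ℂ → ι → ℂ, ∀ τ : ℂ, τ.re ∈ J → e (c + exp τ) = cx (k τ)⁻¹ *ᵥ β τ := by
    refine ⟨fun x => cx (k (log (x - c)))⁻¹ *ᵥ β (log (x - c)), fun τ h => ?_⟩
    simp only [add_sub_cancel_left]
    refine lp_desc (g := fun t => cx (k t)⁻¹ *ᵥ β t) (fun t ht => ?_) h
    rw [hT t ht, hp t ht, _root_.mul_inv_rev, cx_mul, mulVec_mulVec, Matrix.mul_assoc, cx_inv_mul,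
      Matrix.mul_one]
  refine ⟨e, fun τ h => ⟨he τ h, ?_⟩⟩
  have ev : ∀ᶠ t in 𝓝 τ, V.loc e (c + exp τ) (c + exp t) = cx (k τ)⁻¹ *ᵥ β t := by
    have := hk τ h
    rw [hS.nhdsWithin_eq h] at this
    filter_upwards [this, hS.mem_nhds h] with t ht ht'
    rw [VHS.loc, he t ht', ht, mulVec_mulVec, ← cx_mul, _root_.mul_inv_rev, mul_inv_cancel_left]
  have evi : ∀ i, (fun t => V.loc e (c + exp τ) (c + exp t) i) =ᶠ[𝓝 τ]
      fun t => (cx (k τ)⁻¹ *ᵥ β t) i := fun i => ev.mono fun t ht => congrFun ht i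
  have sm : SmV (V.loc e (c + exp τ)) (c + exp τ) := fun i =>
    lp_sm_of_exp ((lp_smV_mulVec _ (hs τ h) i).congr_of_eventuallyEq (evi i))
  refine ⟨sm, funext fun j => ?_⟩
  have d : ∀ a i, der a 1 (fun t => V.loc e (c + exp τ) (c + exp t) i) τ =
      (cx (k τ)⁻¹ *ᵥ derV a 1 β τ) i := fun a i => by
    rw [der_congr (evi i), ← lp_derV_mulVec _ (hs τ h)]
    rfl
  rcases j with i | i
  · have := (lp_der_exp (sm i)).1
    rw [d, h1 τ h, mulVec_smul, mulVec_mulVec, cx_inv_mul, one_mulVec] at this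
    exact (mul_left_cancel₀ (exp_ne_zero τ) this).symm
  · have := (lp_der_exp (sm i)).2
    rw [d, h2 τ h, mulVec_smul, mulVec_mulVec, cx_inv_mul, one_mulVec] at this
    exact (mul_left_cancel₀ ((map_ne_zero _).2 (exp_ne_zero τ)) this).symm

/-- the product of a local section with a cut-off function -/
theorem lp_cut {c : ℂ} {p q : ℝ} {e : ℂ → ι → ℂ}
    (he : ∀ x ∈ Ω, 0 ≤ lpS c p q x → SmV (V.loc e x) x) :
    V.SmS (fun x => lpR c p q x • e x) ∧
      (∀ x ∈ Ω, lpS c p q x < 0 → V.D (fun x => lpR c p q x • e x) x = 0) ∧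
      ∀ x ∈ Ω, 0 ≤ lpS c p q x → V.D (fun x => lpR c p q x • e x) x = lpR c p q x • V.D e x +
        Sum.elim (der (-I) 1 (lpR c p q) x • e x) (der I 1 (lpR c p q) x • e x) := by
  have l : ∀ x i, (fun y => V.loc (fun x => lpR c p q x • e x) x y i) =
      fun y => lpR c p q y * V.loc e x y i := fun x i => by
    funext y
    simp only [VHS.loc, mulVec_smul, Pi.smul_apply, smul_eq_mul]
  have z : ∀ x i, lpS c p q x < 0 →
      (fun y => lpR c p q y * V.loc e x y i) =ᶠ[𝓝 x] fun _ => 0 := fun x i h =>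
    (lpR_zero h).mono fun y hy => by simp only [hy, zero_mul]
  refine ⟨fun x hx i => ?_, fun x _ h => funext fun j => ?_, fun x hx h => funext fun j => ?_⟩
  · rw [l]
    rcases lt_or_ge (lpS c p q x) 0 with h | h
    · exact contDiffAt_const.congr_of_eventuallyEq (z x i h)
    · exact (lpR_sm c p q x).mul (he x hx h i)
  · rcases j with i | i <;>
    · simp only [VHS.D, dV, derV, Sum.elim_inl, Sum.elim_inr, l]
      rw [der_congr (z x i h), der_const]
      rfl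
  · rcases j with i | i <;>
    · simp only [VHS.D, dV, derV, Sum.elim_inl, Sum.elim_inr, l, Pi.add_apply, Pi.smul_apply,
        smul_eq_mul]
      rw [der_mul (lpR_sm c p q x).diff (he x hx h i).diff, V.loc_self e hx, add_comm]

/-- the period of a closed square integrable form against a flat section vanishes -/
theorem lp_period (hΩ : Ωᶜ.Finite) {ζ : Form ι} (hζ : V.Z ζ) {c : ℂ} {p q : ℝ} (hp : 0 < p)
    (hq : 0 < q) (hpq : p ≠ q) (hK : ∀ x, 0 ≤ lpS c p q x → lpS c p q x ≤ 1 → x ∈ Ω)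
    {s : ℂ → ι → ℂ} {G : ℂ → ℂ} {a : ℂ}
    (h : ∀ x ∈ Ω, 0 ≤ lpS c p q x → SmV (V.loc s x) x ∧ V.D s x = 0 ∧ Sm G x ∧
      (x - c) * qf (V.ψ x) (s x) (f1 ζ x) = (x - c) * der (-I) 1 G x + a ∧
      qf (V.ψ x) (s x) (f2 ζ x) = der I 1 G x) : a = 0 := by
  have hO : IsOpen Ω := by simpa using hΩ.isClosed.isOpen_compl
  obtain ⟨c1, c2, c3⟩ := lp_cut (V := V) fun x hx h0 => (h x hx h0).1
  have cK := lp_cpt c hpq
  have sK : {x | 0 ≤ lpS c p q x ∧ lpS c p q x ≤ 1} ⊆ Ω := fun x hx => hK x hx.1 hx.2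
  have z : ∀ x ∈ Ω, x ∉ {x | 0 ≤ lpS c p q x ∧ lpS c p q x ≤ 1} →
      V.D (fun x => lpR c p q x • s x) x = 0 := fun x hx hx' => by
    rcases lt_or_ge (lpS c p q x) 0 with h0 | h0
    · exact c2 x hx h0
    · rw [c3 x hx h0, (h x hx h0).2.1, lpR_der_zero hx', lpR_der_zero hx']
      simp
  have o := VHS.Exact.orth hΩ ⟨_, c1, fun _ _ => rfl⟩
    (VHS.l2_of_cpt hΩ (c1.closed hO).1 ⟨_, sK, cK, z⟩) hζ
  have sF : ∀ b : ℂ, ∀ x ∈ Ω, Sm (fun y => G y * der b 1 (lpR c p q) y) x := fun b x hx => by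
    rcases lt_or_ge (lpS c p q x) 0 with h0 | h0
    · refine (contDiffAt_const (c := (0 : ℂ))).congr_of_eventuallyEq ?_
      filter_upwards [(lpS_sm c p q).continuous.continuousAt.eventually_lt continuousAt_const h0]
        with y hy
      rw [lpR_der_zero fun h => hy.not_ge h.1, mul_zero]
    · exact (h x hx h0).2.2.1.mul ((lpR_sm c p q x).der _ _)
  have st : ∀ b b' : ℂ, ∫ x in {x | 0 ≤ lpS c p q x ∧ lpS c p q x ≤ 1},
      der b' 1 (fun y => G y * der b 1 (lpR c p q) y) x = 0 := fun b b' =>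
    lp_stokes hO cK sK (sF b) (fun x _ hx => by rw [lpR_der_zero hx, mul_zero]) b'
  have it : ∀ b b' : ℂ, IntegrableOn (der b' 1 fun y => G y * der b 1 (lpR c p q) y)
      {x | 0 ≤ lpS c p q x ∧ lpS c p q x ≤ 1} := fun b b' =>
    (lp_con sK fun x hx => (sF b x hx).der _ _).integrableOn_compact cK
  have id : IntegrableOn (fun x => a / (q - p : ℝ) *
      (deriv Real.smoothTransition (lpS c p q x) : ℝ)) {x | 0 ≤ lpS c p q x ∧ lpS c p q x ≤ 1} :=
    (continuous_const.mul (continuous_ofReal.comp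
      (((Real.smoothTransition.contDiff (n := 1)).continuous_deriv le_rfl).comp
        (lpS_sm c p q).continuous))).continuousOn.integrableOn_compact cK
  have pt : ∀ x ∈ {x | 0 ≤ lpS c p q x ∧ lpS c p q x ≤ 1},
      qf (psi1 (V.ψ x)) (V.D (fun x => lpR c p q x • s x) x) (ζ x) =
      der I 1 (fun y => G y * der (-I) 1 (lpR c p q) y) x -
        der (-I) 1 (fun y => G y * der I 1 (lpR c p q) y) x -
        a / (q - p : ℝ) * (deriv Real.smoothTransition (lpS c p q x) : ℝ) := fun x hx => by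
    obtain ⟨-, a2, a3, a4, a5⟩ := h x (sK hx) hx.1
    have r := lpR_sm c p q x
    rw [c3 x (sK hx) hx.1, a2, smul_zero, zero_add, qf_psi1, der_mul a3.diff (r.der _ _).diff,
      der_mul a3.diff (r.der _ _).diff, der_comm (c := I) r]
    simp only [Sum.elim_inl, Sum.elim_inr]
    change -qf _ (_ • s x) (f1 ζ x) + qf _ (_ • s x) (f2 ζ x) = _
    rw [qf_smul_left, qf_smul_left, lpR_conj, lpR_conj, a5, map_neg, conj_I, neg_neg, lpR_dbar]
    push_cast
    linear_combination (-((deriv Real.smoothTransition (lpS c p q x) : ℝ) : ℂ) / ((q : ℂ) - p)) * a4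
  have ae : ∀ᵐ x : ℂ, x ∈ Ω := hΩ.measure_zero _
  rw [VHS.Q, ← setIntegral_eq_integral_of_ae_compl_eq_zero
    (s := {x | 0 ≤ lpS c p q x ∧ lpS c p q x ≤ 1})
    (ae.mono fun x hx hx' => by rw [z x hx hx', qf_zero_left]),
    setIntegral_congr_fun cK.measurableSet pt, integral_sub (by exact (it _ _).sub (it _ _)) id,
    integral_sub (it _ _) (it _ _), st, st, integral_const_mul, integral_complex_ofReal] at o
  have n := (lp_int_pos c hp hq hpq).ne'
  have n2 : ((q - p : ℝ) : ℂ) ≠ 0 := ofReal_ne_zero.2 (sub_ne_zero.2 hpq.symm)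
  simpa [n, n2, -ofReal_sub] using o

/-- a primitive near one end -/
theorem lp_end (hΩ : Ωᶜ.Finite) {ζ : Form ι} (hζ : V.Z ζ) {c : ℂ} {J : Set ℝ} (hJ : IsOpen J)
    (cJ : Convex ℝ J) {p q : ℝ} (hp : 0 < p) (hq : 0 < q) (hpq : p ≠ q)
    (hA : ∀ τ : ℂ, τ.re ∈ J → c + exp τ ∈ Ω) {τ0 : ℂ} (h0 : τ0.re ∈ J)
    (hs : ∀ x ∈ Ω, 0 ≤ lpS c p q x → ∃ τ : ℂ, τ.re ∈ J ∧ x = c + exp τ)
    (hK : ∀ x, 0 ≤ lpS c p q x → lpS c p q x ≤ 1 → x ∈ Ω) :
    ∃ e, V.SmS e ∧ (∀ x ∈ Ω, 1 < lpS c p q x → V.D e x = ζ x) ∧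
      ∀ x ∈ Ω, lpS c p q x < 0 → V.D e x = 0 := by
  have hO : IsOpen Ω := by simpa using hΩ.isClosed.isOpen_compl
  have hS : IsOpen {τ : ℂ | τ.re ∈ J} := hJ.preimage continuous_re
  have cS : Convex ℝ {τ : ℂ | τ.re ∈ J} := cJ.linear_preimage reLm
  have an : ∀ τ : ℂ, AnalyticAt ℂ (fun t => c + exp t) τ := fun τ => by fun_prop
  have sh : ∀ τ : ℂ, τ.re ∈ J → (τ + 2 * Real.pi * I).re ∈ J := fun τ h => by simpa using h
  have ex : ∀ τ : ℂ, exp (τ + 2 * Real.pi * I) = exp τ := exp_periodic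
  set V' := V.pull {τ : ℂ | τ.re ∈ J} (fun t => c + exp t) (fun τ _ => an τ) hA with hV'
  obtain ⟨k, -, hk⟩ := V'.germ.lift hS h0 (cS.starConvex h0) 1
  have M : Mor V' V (fun t => c + exp t) fun _ => 1 :=
    ⟨hS, hO, hA, fun τ _ => (an τ).contDiffAt.restrict_scalars ℝ,
      fun τ _ => Eventually.of_forall fun _ => (mul_one _).trans (one_mul _).symm,
      fun τ _ => by simp [cx_one, hV', VHS.pull]⟩
  have F := fun τ (h : τ ∈ {τ : ℂ | τ.re ∈ J}) => (M.closed hζ.1).fr hS subset_rfl hk h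
  obtain ⟨β, hβ⟩ := exists_prim hS h0 (cS.starConvex h0) (fun τ h => (F τ h).1)
    (fun τ h => (F τ h).2.1) fun τ h => (F τ h).2.2
  have pf : ∀ τ : ℂ, pullF (fun t => c + exp t) (fun _ => 1) ζ τ =
      Sum.elim (exp τ • f1 ζ (c + exp τ)) (conj (exp τ) • f2 ζ (c + exp τ)) := fun τ => by
    have d : HasDerivAt (fun t => c + exp t) (exp τ) τ := (hasDerivAt_exp τ).const_add c
    rw [pullF, dbar_holo d.differentiableAt, d_holo d.differentiableAt, fderiv_eq_smul_deriv,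
      d.deriv, cx_one, jm, fromBlocks_mulVec]
    simp only [smul_mulVec, one_mulVec, map_zero, zero_smul, zero_mulVec, add_zero, zero_add,
      one_smul]
    rfl
  have h1 : ∀ τ : ℂ, τ.re ∈ J → derV (-I) 1 β τ = exp τ • (cx (k τ) *ᵥ f1 ζ (c + exp τ)) :=
    fun τ h => by
    have := (hβ τ h).2
    rw [pf, two_mulVec] at this
    rw [← mulVec_smul]
    exact funext fun i => congrFun this (Sum.inl i)
  have h2 : ∀ τ : ℂ, τ.re ∈ J → derV I 1 β τ = conj (exp τ) • (cx (k τ) *ᵥ f2 ζ (c + exp τ)) :=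
    fun τ h => by
    have := (hβ τ h).2
    rw [pf, two_mulVec] at this
    rw [← mulVec_smul]
    exact funext fun i => congrFun this (Sum.inr i)
  have sβ : ∀ τ : ℂ, τ.re ∈ J → SmV β τ := fun τ h => (hβ τ h).1
  obtain ⟨T, hT⟩ : ∃ T : GL ι ℤ, ∀ τ : ℂ, τ.re ∈ J → k (τ + 2 * Real.pi * I) = T * k τ := by
    refine ⟨k (τ0 + 2 * Real.pi * I) * (k τ0)⁻¹, fun τ h => IsFr.uniq cS.isPreconnected
      (k := fun τ => k (τ + 2 * Real.pi * I)) (fun y hy => ?_) (hk.mul _) h0 (by simp) τ h⟩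
    have t : Tendsto (fun τ : ℂ => τ + 2 * Real.pi * I) (𝓝[{τ : ℂ | τ.re ∈ J}] y)
        (𝓝[{τ : ℂ | τ.re ∈ J}] (y + 2 * Real.pi * I)) :=
      (continuous_add_const _).continuousWithinAt.tendsto_nhdsWithin sh
    filter_upwards [t.eventually (hk _ (sh y hy))] with y' hy'
    rw [hy']
    simp only [hV', VHS.pull, ex]
  have ss : ∀ τ : ℂ, τ.re ∈ J → SmV (fun t => β (t + 2 * Real.pi * I)) τ := fun τ h i =>
    ContDiffAt.comp (f := fun t : ℂ => t + 2 * Real.pi * I) τ (sβ _ (sh τ h) i)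
      (contDiffAt_id.add contDiffAt_const)
  obtain ⟨u, hu⟩ : ∃ u, ∀ τ : ℂ, τ.re ∈ J → β (τ + 2 * Real.pi * I) = cx T *ᵥ β τ + u := by
    refine ⟨β (τ0 + 2 * Real.pi * I) - cx T *ᵥ β τ0, fun τ h => eq_add_of_sub_eq' ?_⟩
    refine lp_const (u := fun t => β (t + 2 * Real.pi * I) - cx T *ᵥ β t) cS.isPreconnected
      (fun a ha => const_of_dV ?_) h h0
    filter_upwards [hS.mem_nhds ha] with t ht
    have m := lp_smV_mulVec (cx T) (sβ t ht)
    have d : ∀ a i, der a 1 (fun y => (β (y + 2 * Real.pi * I) - cx T *ᵥ β y) i) t =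
        (derV a 1 β (t + 2 * Real.pi * I) - cx T *ᵥ derV a 1 β t) i := fun a i => by
      simp only [Pi.sub_apply]
      rw [der_sub (ss t ht i).diff (m i).diff, lp_der_shift fun y => β y i,
        ← lp_derV_mulVec _ (sβ t ht)]
      rfl
    refine ⟨fun i => (ss t ht i).sub (m i), funext fun j => ?_⟩
    rcases j with i | i
    · simp only [dV, derV, Sum.elim_inl]
      rw [d, h1 _ (sh t ht), h1 t ht, ex, hT t ht, cx_mul, mulVec_smul, mulVec_mulVec, sub_self]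
      rfl
    · simp only [dV, derV, Sum.elim_inr]
      rw [d, h2 _ (sh t ht), h2 t ht, ex, hT t ht, cx_mul, mulVec_smul, mulVec_mulVec, sub_self]
      rfl
  obtain ⟨Q, hQ⟩ : ∃ Q, ∀ τ : ℂ, τ.re ∈ J →
      Q = (cx (k τ)⁻¹)ᴴ * V.ψ (c + exp τ) * cx (k τ)⁻¹ :=
    ⟨_, fun τ h => V.psi_fr cS.isPreconnected (fun τ _ => (an τ).continuousAt.continuousWithinAt)
      hA hk h0 h⟩
  have uQ : IsUnit Q.det := by
    have a : IsUnit (cx (k τ0)⁻¹).det := isUnit_det_of_left_inverse (cx_mul_inv _)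
    rw [hQ τ0 h0, det_mul, det_mul, det_conjTranspose]
    exact (a.star.mul (V.phs _ (hA τ0 h0)).unit).mul a
  have iT : (cx T)ᴴ * Q * cx T = Q := by
    conv_lhs => rw [hQ _ (sh τ0 h0), ex, hT τ0 h0, _root_.mul_inv_rev, cx_mul, conjTranspose_mul]
    rw [hQ τ0 h0]
    simp only [← Matrix.mul_assoc]
    rw [← conjTranspose_mul, cx_inv_mul, conjTranspose_one, Matrix.one_mul,
      Matrix.mul_assoc _ (cx T⁻¹), cx_inv_mul, Matrix.mul_one]
  have pi0 : (2 * Real.pi * I : ℂ) ≠ 0 := two_pi_I_ne_zero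
  obtain ⟨v, hv⟩ := lp_dual (c := u) uQ (cx_mul_inv T) iT fun s0 hs0 => by
    obtain ⟨s, hs'⟩ := lp_sec (α := 0) (β := fun _ => s0) hJ hk hT
      (fun _ _ _ => contDiffAt_const) (fun _ _ => hs0.symm)
      (fun τ _ => funext fun i => by simp [derV, der_const, f1, mulVec, dotProduct])
      (fun τ _ => funext fun i => by simp [derV, der_const, f2, mulVec, dotProduct])
    have per : ∀ τ : ℂ, τ.re ∈ J → qf Q s0 (β (τ + 2 * Real.pi * I)) -
        qf Q s0 u / (2 * Real.pi * I) * (τ + 2 * Real.pi * I) =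
        qf Q s0 (β τ) - qf Q s0 u / (2 * Real.pi * I) * τ := fun τ h => by
      have : qf Q s0 (cx T *ᵥ β τ) = qf Q s0 (β τ) := by
        conv_lhs => rw [← hs0, qf_mulVec_left, qf_mulVec_right, iT]
      rw [hu τ h, qf_add_right, this]
      field_simp
      ring
    refine (div_eq_zero_iff.1 (lp_period hΩ hζ hp hq hpq hK (s := s)
      (G := fun x => qf Q s0 (β (log (x - c))) - qf Q s0 u / (2 * Real.pi * I) * log (x - c))
      (a := qf Q s0 u / (2 * Real.pi * I)) fun x hx hx0 => ?_)).resolve_right pi0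
    generalize qf Q s0 u / (2 * Real.pi * I) = a at per ⊢
    obtain ⟨τ, h, rfl⟩ := hs x hx hx0
    obtain ⟨s1, s2, s3⟩ := hs' τ h
    have ev : (fun t => qf Q s0 (β (log (c + exp t - c))) - a * log (c + exp t - c)) =ᶠ[𝓝 τ]
        fun t => qf Q s0 (β t) - a * t := by
      filter_upwards [hS.mem_nhds h] with t ht
      rw [add_sub_cancel_left]
      exact lp_desc (g := fun t => qf Q s0 (β t) - a * t) per ht
    have sc : SmV (fun _ : ℂ => s0) τ := fun _ => contDiffAt_const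
    have sq : Sm (fun t => qf Q s0 (β t)) τ :=
      ContDiffAt.sum fun i _ => contDiffAt_const.mul (lp_smV_mulVec Q (sβ τ h) i)
    have sl : Sm (fun t : ℂ => a * t) τ := contDiffAt_const.mul contDiffAt_id
    have dl : DifferentiableAt ℂ (fun t : ℂ => a * t) τ := by fun_prop
    have sG := lp_sm_of_exp
      (G := fun x => qf Q s0 (β (log (x - c))) - a * log (x - c)) ((sq.sub sl).congr_of_eventuallyEq ev)
    have z : ∀ b, derV b 1 (fun _ : ℂ => s0) τ = 0 := fun b => funext fun i => der_const _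
    have tr : ∀ y, qf Q s0 (cx (k τ) *ᵥ y) = qf (V.ψ (c + exp τ)) (s (c + exp τ)) y := fun y => by
      rw [s1, qf_mulVec_left, qf_mulVec_right, hQ τ h, Matrix.mul_assoc _ _ (cx (k τ)), cx_inv_mul,
        Matrix.mul_one]
    obtain ⟨d1, d2⟩ := lp_der_exp sG
    rw [der_congr ev, der_sub sq.diff sl.diff, k0_der_qf Q sc (sβ τ h), z, qf_zero_left,
      zero_add] at d1 d2
    rw [h1 τ h, qf_smul_right, tr, d_holo dl, fderiv_eq_smul_deriv] at d1
    rw [h2 τ h, qf_smul_right, tr, dbar_holo dl, sub_zero] at d2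
    refine ⟨s2, s3, sG, ?_, mul_left_cancel₀ ((map_ne_zero _).2 (exp_ne_zero τ)) d2⟩
    rw [add_sub_cancel_left, ← d1]
    simp
  obtain ⟨e, he⟩ := lp_sec (α := ζ) (β := fun t => β t + v) hJ hk hT
    (fun τ h i => (sβ τ h i).add contDiffAt_const)
    (fun τ h => by rw [hu τ h, hv, mulVec_add]; abel)
    (fun τ h => by
      rw [← h1 τ h]
      exact funext fun i => (der_add (sβ τ h i).diff (differentiableAt_const _)).trans
        (by rw [der_const, add_zero]; rfl))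
    (fun τ h => by
      rw [← h2 τ h]
      exact funext fun i => (der_add (sβ τ h i).diff (differentiableAt_const _)).trans
        (by rw [der_const, add_zero]; rfl))
  have he' : ∀ x ∈ Ω, 0 ≤ lpS c p q x → SmV (V.loc e x) x ∧ V.D e x = ζ x := fun x hx hx0 => by
    obtain ⟨τ, h, rfl⟩ := hs x hx hx0
    exact (he τ h).2
  obtain ⟨c1, c2, c3⟩ := lp_cut (V := V) fun x hx h0 => (he' x hx h0).1
  refine ⟨_, c1, fun x hx h => ?_, c2⟩
  have h' : 0 ≤ lpS c p q x := by linarith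
  rw [c3 x hx h', (he' x hx h').2, lpR_der_zero fun h2 => h.not_ge h2.2,
    lpR_der_zero fun h2 => h.not_ge h2.2, (lpR_one h).self_of_nhds]
  simp

theorem lp_sum {J : Type} (s : Finset J) {e : J → ℂ → ι → ℂ} (h : ∀ j ∈ s, V.SmS (e j)) :
    V.SmS (∑ j ∈ s, e j) ∧ ∀ x ∈ Ω, V.D (∑ j ∈ s, e j) x = ∑ j ∈ s, V.D (e j) x := by
  classical
  induction s using Finset.induction_on with
  | empty => exact ⟨VHS.smS_zero, fun x _ => VHS.D_zero x⟩
  | insert a s ha ih =>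
    obtain ⟨i1, i2⟩ := ih fun j hj => h j (Finset.mem_insert_of_mem hj)
    have h1 := h a (Finset.mem_insert_self _ _)
    rw [Finset.sum_insert ha]
    exact ⟨h1.add i1, fun x hx => by rw [VHS.D_add h1 i1 x hx, Finset.sum_insert ha, i2 x hx]⟩

theorem lpS_in {c x : ℂ} {p q : ℝ} (h : q < p) :
    (0 ≤ lpS c p q x ↔ ‖x - c‖ ^ 2 ≤ p) ∧ (lpS c p q x ≤ 1 ↔ q ≤ ‖x - c‖ ^ 2) := by
  rw [lpS, le_div_iff_of_neg (sub_neg.2 h), div_le_iff_of_neg (sub_neg.2 h)]
  constructor <;> constructor <;> intro <;> linarith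

theorem lpS_out {c x : ℂ} {p q : ℝ} (h : p < q) :
    (0 ≤ lpS c p q x ↔ p ≤ ‖x - c‖ ^ 2) ∧ (lpS c p q x ≤ 1 ↔ ‖x - c‖ ^ 2 ≤ q) := by
  rw [lpS, le_div_iff₀ (sub_pos.2 h), div_le_iff₀ (sub_pos.2 h)]
  constructor <;> constructor <;> intro <;> linarith

theorem VHS.Z.locp (hΩ : Ωᶜ.Finite) {ζ : Form ι} (hζ : V.Z ζ) :
    ∃ e, V.SmS e ∧ Cpt Ω (ζ - V.D e) := by
  set R := hΩ.toFinset
  have hR : ∀ x, x ∈ R ↔ x ∉ Ω := fun x => hΩ.mem_toFinset
  obtain ⟨δ, ⟨d0, d1⟩, d2⟩ : ∃ δ : ℝ, δ ∈ Set.Ioo (0 : ℝ) 1 ∧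
      ∀ r ∈ R, ∀ r' ∈ R, r ≠ r' → 2 * δ ≤ ‖r - r'‖ := by
    refine Eventually.exists (f := 𝓝[>] (0 : ℝ)) (Eventually.and (Ioo_mem_nhdsGT one_pos) ?_)
    refine (eventually_all_finset R).2 fun r _ => (eventually_all_finset R).2 fun r' _ => ?_
    by_cases e : r = r'
    · exact Eventually.of_forall fun _ h => absurd e h
    · have := half_pos (norm_pos_iff.2 (sub_ne_zero.2 e))
      filter_upwards [Ioo_mem_nhdsGT this] with t ht _
      linarith [ht.2]
  obtain ⟨M, M0, hM⟩ : ∃ M : ℝ, 0 < M ∧ ∀ r ∈ R, ‖r‖ + 1 ≤ M :=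
    ⟨∑ r ∈ R, ‖r‖ + 1, by positivity, fun r hr => by
      linarith [Finset.single_le_sum (f := fun r : ℂ => ‖r‖) (fun _ _ => norm_nonneg _) hr]⟩
  have q1 : δ ^ 2 / 2 < δ ^ 2 := half_lt_self (by positivity)
  have q2 : (M + 1) ^ 2 < (M + 1) ^ 2 + 1 := lt_add_one _
  have far : ∀ r ∈ R, ∀ x, x ≠ r → ‖x - r‖ < 2 * δ → x ∈ Ω := fun r hr x h1 h2 => by
    by_contra hx
    exact h2.not_ge (d2 x ((hR x).2 hx) r hr h1)
  have far' : ∀ x, M < ‖x‖ → x ∈ Ω := fun x h => by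
    by_contra hx
    linarith [hM x ((hR x).2 hx)]
  have E1 : ∀ r ∈ R, ∃ e, V.SmS e ∧ (∀ x ∈ Ω, 1 < lpS r (δ ^ 2) (δ ^ 2 / 2) x → V.D e x = ζ x) ∧
      ∀ x ∈ Ω, lpS r (δ ^ 2) (δ ^ 2 / 2) x < 0 → V.D e x = 0 := fun r hr => by
    refine lp_end hΩ hζ (J := Set.Iio (Real.log (2 * δ))) isOpen_Iio (convex_Iio _) (by positivity)
      (by positivity) q1.ne' (fun τ h => far r hr _ (by simp) ?_)
      (τ0 := (Real.log (2 * δ) - 1 : ℝ)) (by simp) (fun x hx h => ?_) fun x h1 h2 => ?_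
    · rw [add_sub_cancel_left, norm_exp]
      exact (Real.lt_log_iff_exp_lt (by positivity)).1 h
    · have ne : x - r ≠ 0 := sub_ne_zero.2 fun e => (hR r).1 hr (e ▸ hx)
      refine ⟨log (x - r), ?_, by rw [exp_log ne, add_sub_cancel]⟩
      rw [log_re]
      have := abs_le_of_sq_le_sq' ((lpS_in q1).1.1 h) d0.le
      exact Real.log_lt_log (norm_pos_iff.2 ne) (by linarith [this.2])
    · have := abs_le_of_sq_le_sq' ((lpS_in q1).1.1 h1) d0.le
      refine far r hr x (fun e => ?_) (by linarith [this.2])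
      have := (lpS_in q1).2.1 h2
      rw [e, sub_self, norm_zero] at this
      nlinarith
  choose! e e1 e2 e3 using E1
  obtain ⟨e', f1, f2, f3⟩ := lp_end hΩ hζ (c := 0) (J := Set.Ioi (Real.log M)) isOpen_Ioi
    (convex_Ioi _) (by positivity) (by positivity) q2.ne (fun τ h => far' _ (by
      rw [zero_add, norm_exp]
      exact (Real.log_lt_iff_lt_exp M0).1 h))
    (τ0 := (Real.log M + 1 : ℝ)) (by simp) (fun x _ h => by
      have := abs_le_of_sq_le_sq' ((lpS_out q2).1.1 h) (norm_nonneg _)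
      rw [sub_zero] at this
      have ne : x ≠ 0 := norm_pos_iff.1 (by linarith [this.2])
      refine ⟨log x, ?_, by rw [exp_log ne, zero_add]⟩
      rw [log_re]
      exact Real.log_lt_log M0 (by linarith [this.2]))
    fun x h _ => far' x (by
      have := abs_le_of_sq_le_sq' ((lpS_out q2).1.1 h) (norm_nonneg _)
      rw [sub_zero] at this
      linarith [this.2])
  obtain ⟨s1, s2⟩ := lp_sum R e1
  refine ⟨e' + ∑ r ∈ R, e r, f1.add s1, {x | lpS 0 ((M + 1) ^ 2) ((M + 1) ^ 2 + 1) x ≤ 1 ∧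
    ∀ r ∈ R, lpS r (δ ^ 2) (δ ^ 2 / 2) x ≤ 1}, fun x hx => ?_, ?_, fun x hx hx' => ?_⟩
  · by_contra h
    have := (lpS_in q1).2.1 (hx.2 x ((hR x).2 h))
    rw [sub_self, norm_zero] at this
    nlinarith
  · refine Metric.isCompact_of_isClosed_isBounded ?_ ?_
    · refine (isClosed_le (lpS_sm _ _ _).continuous continuous_const).inter ?_
      change IsClosed {x | ∀ r ∈ R, lpS r (δ ^ 2) (δ ^ 2 / 2) x ≤ 1}
      simp only [Set.ofPred_forall]
      exact isClosed_iInter fun r => isClosed_iInter fun _ =>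
        isClosed_le (lpS_sm _ _ _).continuous continuous_const
    · refine (isBounded_closedBall (x := (0 : ℂ)) (r := M + 2)).subset fun x hx => ?_
      rw [mem_closedBall, dist_eq_norm]
      exact (abs_le_of_sq_le_sq' (((lpS_out q2).2.1 hx.1).trans (by nlinarith)) (by linarith)).2
  · rw [Pi.sub_apply, VHS.D_add f1 s1 x hx, s2 x hx, sub_eq_zero]
    by_cases h : lpS 0 ((M + 1) ^ 2) ((M + 1) ^ 2 + 1) x ≤ 1
    · have : ∃ r ∈ R, 1 < lpS r (δ ^ 2) (δ ^ 2 / 2) x := by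
        by_contra h'
        exact hx' ⟨h, fun r hr => not_lt.1 fun h2 => h' ⟨r, hr, h2⟩⟩
      obtain ⟨r, hr, h1⟩ := this
      have a : ‖x - r‖ ^ 2 < δ ^ 2 / 2 := not_le.1 fun h2 => h1.not_ge ((lpS_in q1).2.2 h2)
      have a2 : ‖x - r‖ < δ := lt_of_pow_lt_pow_left₀ 2 d0.le (a.trans q1)
      rw [f3 x hx, Finset.sum_eq_single_of_mem r hr, e2 r hr x hx h1, zero_add]
      · refine fun r' hr' ne => e3 r' hr' x hx (not_le.1 fun h2 => ?_)
        have b := (abs_le_of_sq_le_sq' ((lpS_in q1).1.1 h2) d0.le).2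
        have c := d2 r' hr' r hr ne
        have d := norm_sub_le_norm_sub_add_norm_sub r' x r
        rw [norm_sub_rev r' x] at d
        linarith
      · refine not_le.1 fun h2 => ?_
        have b := (abs_le_of_sq_le_sq' ((lpS_out q2).1.1 h2) (norm_nonneg _)).2
        have d := norm_sub_norm_le x r
        rw [sub_zero] at b
        linarith [hM r hr]
    · rw [f2 x hx (not_le.1 h), Finset.sum_eq_zero, add_zero]
      refine fun r hr => e3 r hr x hx (not_le.1 fun h2 => h ((lpS_out q2).2.2 ?_))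
      have b := (abs_le_of_sq_le_sq' ((lpS_in q1).1.1 h2) d0.le).2
      have d := norm_sub_norm_le x r
      rw [sub_zero]
      nlinarith [hM r hr, norm_nonneg x]

end

end Pool.Agent.Lib.MP_5c318e_ag.V
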