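import Pool.Agent.Lib.MP_5c318e_ag.V.Defs

/-! Subspaces stable under additive maps are rational. -/

set_option autoImplicit false

namespace Pool.Agent.Lib.MP_5c318e_ag.V

open Matrix Filter Topology MeasureTheory Complex Metric
open scoped ComplexOrder ContDiff ComplexConjugate

noncomputable section

/-- integer vectors as complex vectors -/
def ratCast (M : Type) : (M → ℤ) →ₗ[ℤ] (M → ℂ) where
  toFun y := fun i => (y i : ℂ)
  map_add' y z := by funext i; simp
  map_smul' c y := by funext i; simp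

/-- a rational valued linear form as an additive self-map of the complex numbers -/
def ratAdd (ψ : ℂ →ₗ[ℚ] ℚ) : ℂ →+ ℂ where
  toFun z := (ψ z : ℂ)
  map_zero' := by simp
  map_add' y z := by simp

theorem rat_den {M : Type} [Fintype M] (r : M → ℚ) :
    ∃ (d : ℤ) (y : M → ℤ), d ≠ 0 ∧ ∀ i, (y i : ℚ) = d * r i := by
  classical
  refine ⟨∏ i, ((r i).den : ℤ), fun i => (∏ k ∈ Finset.univ.erase i, ((r k).den : ℤ)) * (r i).num,
    Finset.prod_ne_zero_iff.2 fun i _ => by exact_mod_cast (r i).den_nz, fun i => ?_⟩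
  rw [← Finset.prod_erase_mul Finset.univ (fun k => ((r k).den : ℤ)) (Finset.mem_univ i)]
  push_cast
  rw [mul_assoc, Rat.den_mul_eq_num]

/-- a subspace stable under additive maps lies in any subspace containing its integer points -/
theorem rat_le {M : Type} [Fintype M] (P W : Submodule ℂ (M → ℂ))
    (hP : ∀ φ : ℂ →+ ℂ, ∀ y ∈ P, (fun i => φ (y i)) ∈ P)
    (hW : ∀ y : M → ℤ, (fun i => (y i : ℂ)) ∈ P → (fun i => (y i : ℂ)) ∈ W) : P ≤ W := by
  classical
  have hq : ∀ r : M → ℚ, (fun i => (r i : ℂ)) ∈ P → (fun i => (r i : ℂ)) ∈ W := by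
    intro r hr
    obtain ⟨d, y, hd, hy⟩ := rat_den r
    have hd' : (d : ℂ) ≠ 0 := by exact_mod_cast hd
    have e : (fun i => (y i : ℂ)) = (d : ℂ) • fun i => (r i : ℂ) := by
      funext i
      have := congrArg (fun t : ℚ => (t : ℂ)) (hy i)
      simpa using this
    have h1 := hW y (by rw [e]; exact P.smul_mem _ hr)
    rw [e] at h1
    exact (W.smul_mem_iff hd').1 h1
  intro y hy
  let B := Module.Basis.ofVectorSpace ℚ ℂ
  let S := Finset.univ.biUnion fun i => (B.repr (y i)).support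
  have e : y = ∑ l ∈ S, B l • fun i => ((B.coord l (y i) : ℚ) : ℂ) := by
    funext i
    have h1 : y i = ∑ l ∈ S, (B.repr (y i) l) • B l := by
      conv_lhs => rw [← B.linearCombination_repr (y i)]
      rw [Finsupp.linearCombination_apply, Finsupp.sum_of_support_subset _ (s := S)]
      · exact Finset.subset_biUnion_of_mem (fun i => (B.repr (y i)).support) (Finset.mem_univ i)
      · intro l _; simp
    rw [Finset.sum_apply]
    conv_lhs => rw [h1]
    refine Finset.sum_congr rfl fun l _ => ?_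
    simp [Rat.smul_def, mul_comm]
  rw [e]
  refine W.sum_mem fun l _ => W.smul_mem _ (hq _ ?_)
  exact hP (ratAdd (B.coord l)) y hy

theorem rat {M : Type} [Fintype M] (P D : Submodule ℂ (M → ℂ)) (hDP : D ≤ P)
    (hP : ∀ φ : ℂ →+ ℂ, ∀ y ∈ P, (fun i => φ (y i)) ∈ P)
    (hD : ∀ φ : ℂ →+ ℂ, ∀ y ∈ D, (fun i => φ (y i)) ∈ D) :
    ∃ (n : ℕ) (v : Fin n → M → ℤ), (∀ j, (fun i => (v j i : ℂ)) ∈ P) ∧
      (∀ c : Fin n → ℂ, (∑ j, c j • fun i => (v j i : ℂ)) ∈ D → c = 0) ∧
      (∀ y ∈ P, ∃ c : Fin n → ℂ, (y - ∑ j, c j • fun i => (v j i : ℂ)) ∈ D) ∧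
      ∀ y : M → ℤ, (fun i => (y i : ℂ)) ∈ P →
        ∃ c : Fin n → ℤ, ((fun i => (y i : ℂ)) - ∑ j, (c j : ℂ) • fun i => (v j i : ℂ)) ∈ D := by
  classical
  have _ := hDP
  let L : Submodule ℤ (M → ℤ) := (P.restrictScalars ℤ).comap (ratCast M)
  let q : (M → ℤ) →ₗ[ℤ] ((M → ℂ) ⧸ D) := (D.mkQ.restrictScalars ℤ).comp (ratCast M)
  let N : Submodule ℤ ((M → ℂ) ⧸ D) := L.map q
  have hN : Module.Finite ℤ N :=
    Module.Finite.iff_fg.2 ((IsNoetherian.noetherian L).map q)
  have hT : Module.IsTorsionFree ℤ ((M → ℂ) ⧸ D) := by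
    refine Module.IsTorsionFree.of_smul_eq_zero fun r m h => ?_
    rw [← Int.cast_smul_eq_zsmul ℂ, smul_eq_zero] at h
    exact h.imp (fun h => by exact_mod_cast h) id
  obtain ⟨n, b⟩ : Σ n, Module.Basis (Fin n) ℤ N := Module.basisOfFiniteTypeTorsionFree'
  have hv : ∀ j, ∃ v : M → ℤ, v ∈ L ∧ q v = (b j : (M → ℂ) ⧸ D) := fun j => (b j).2
  choose v hvL hvq using hv
  have hq : ∀ c : Fin n → ℤ, D.mkQ (∑ j, (c j : ℂ) • fun i => (v j i : ℂ)) =
      ((∑ j, c j • b j : N) : (M → ℂ) ⧸ D) := by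
    intro c
    rw [map_sum, Submodule.coe_sum]
    refine Finset.sum_congr rfl fun j _ => ?_
    rw [map_smul, Int.cast_smul_eq_zsmul, Submodule.coe_smul, ← hvq j]
    rfl
  have h4 : ∀ y : M → ℤ, (fun i => (y i : ℂ)) ∈ P →
      ∃ c : Fin n → ℤ, ((fun i => (y i : ℂ)) - ∑ j, (c j : ℂ) • fun i => (v j i : ℂ)) ∈ D := by
    intro y hy
    have hyN : q y ∈ N := Submodule.mem_map_of_mem (show y ∈ L from hy)
    refine ⟨fun j => b.repr ⟨q y, hyN⟩ j, ?_⟩
    rw [← Submodule.Quotient.eq]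
    change _ = D.mkQ _
    rw [hq, b.sum_repr]
    rfl
  refine ⟨n, v, hvL, ?_, ?_, h4⟩
  · intro c hc
    funext j
    refine (Module.forall_dual_apply_eq_zero_iff ℚ (c j)).1 fun ψ => ?_
    have h1 := hD (ratAdd ψ) _ hc
    obtain ⟨d, m, hd, hm⟩ := rat_den fun k => ψ (c k)
    have e : (∑ k, (m k : ℂ) • fun i => (v k i : ℂ)) =
        (d : ℂ) • fun i => ratAdd ψ ((∑ k, c k • fun i => (v k i : ℂ)) i) := by
      funext i
      simp only [Finset.sum_apply, Pi.smul_apply, smul_eq_mul, map_sum, Finset.mul_sum]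
      refine Finset.sum_congr rfl fun k _ => ?_
      have h2 : ratAdd ψ (c k * (v k i : ℂ)) = (v k i : ℂ) * (ψ (c k) : ℂ) := by
        rw [mul_comm, ← zsmul_eq_mul, map_zsmul, zsmul_eq_mul]
        rfl
      have h3 := congrArg (fun t : ℚ => (t : ℂ)) (hm k)
      simp only [Rat.cast_intCast, Rat.cast_mul] at h3
      rw [h2, h3]
      ring
    have h5 : (∑ k, (m k : ℂ) • fun i => (v k i : ℂ)) ∈ D := by
      rw [e]; exact D.smul_mem _ h1
    have h6 : (∑ k, m k • b k : N) = 0 := by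
      apply Subtype.ext
      rw [← hq]
      exact (Submodule.Quotient.mk_eq_zero D).2 h5
    have h7 : m j = 0 := Fintype.linearIndependent_iff.1 b.linearIndependent m h6 j
    have h8 := hm j
    rw [h7] at h8
    have hd' : (d : ℚ) ≠ 0 := by exact_mod_cast hd
    exact (mul_eq_zero.1 (by simpa using h8.symm)).resolve_left hd'
  · intro y hy
    have hle := rat_le P (D ⊔ Submodule.span ℂ (Set.range fun j => fun i => (v j i : ℂ))) hP
      fun z hz => by
        obtain ⟨c, hc⟩ := h4 z hz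
        refine Submodule.mem_sup.2 ⟨_, hc, _, ?_, sub_add_cancel _ _⟩
        exact Submodule.sum_mem _ fun j _ =>
          Submodule.smul_mem _ _ (Submodule.subset_span ⟨j, rfl⟩)
    obtain ⟨a, ha, s, hs, e⟩ := Submodule.mem_sup.1 (hle hy)
    obtain ⟨c, hc⟩ := (Submodule.mem_span_range_iff_exists_fun ℂ).1 hs
    refine ⟨c, ?_⟩
    rw [hc, ← e, add_sub_cancel_right]
    exact ha

end

end Pool.Agent.Lib.MP_5c318e_ag.V
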