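import Pool.Agent.Lib.MP_5c318e_ag.V.Slit

/-! Forms with given primitives on the slit plane, and cut off functions. -/

set_option autoImplicit false

namespace Pool.Agent.Lib.MP_5c318e_ag.V

open Matrix Filter Topology MeasureTheory Complex Metric Fr
open scoped ComplexOrder ContDiff ComplexConjugate Manifold

noncomputable section

variable {ι : Type} [Fintype ι] [DecidableEq ι] {w : ℕ} {Ω : Set ℂ} {V : VHS ℂ Ω ι w}

theorem stab_cut {K U : Set ℂ} (hK : IsCompact K) (hU : IsOpen U) (h : K ⊆ U) :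
    ∃ K2 ⊆ U, IsCompact K2 ∧ ∃ χ : ℂ → ℂ, (∀ x, Sm χ x) ∧ (∀ x ∈ K, ∀ᶠ y in 𝓝 x, χ y = 1) ∧
      ∀ x ∉ K2, ∀ᶠ y in 𝓝 x, χ y = 0 := by
  obtain ⟨L, L1, L2, L3⟩ := exists_compact_between hK hU h
  obtain ⟨f, f1, f0, -⟩ := exists_contMDiffMap_one_nhds_of_subset_interior (n := ⊤) 𝓘(ℝ, ℂ)
    hK.isClosed L2
  refine ⟨L, L3, L1, fun y => (f y : ℝ), fun x => sm_ofReal f.contMDiff.contDiff.contDiffAt,
    fun x hx => ?_, fun x hx => ?_⟩
  · filter_upwards [f1.filter_mono (nhds_le_nhdsSet hx)] with y hy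
    simp [hy]
  · filter_upwards [L1.isClosed.isOpen_compl.mem_nhds hx] with y hy
    simp [f0 y hy]

theorem stab_two_inv (g : GL ι ℤ) (u : ι ⊕ ι → ℂ) : two (cx g) *ᵥ (two (cx g⁻¹) *ᵥ u) = u := by
  rw [mulVec_mulVec, two_mul_two, cx_mul_inv, two_one, one_mulVec]

theorem stab_inv_two (g : GL ι ℤ) (u : ι ⊕ ι → ℂ) : two (cx g⁻¹) *ᵥ (two (cx g) *ᵥ u) = u := by
  rw [mulVec_mulVec, two_mul_two, cx_inv_mul, two_one, one_mulVec]

/-- a form with a primitive in a flat frame is closed -/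
theorem stab_closed {O : Set ℂ} (hO : IsOpen O) (hs : O ⊆ Ω) {k : ℂ → GL ι ℤ}
    (hk : IsFr O V.κ k) {α : Form ι} {β : ℂ → ι → ℂ}
    (h : ∀ y ∈ O, SmV β y ∧ dV β y = two (cx (k y)) *ᵥ α y) {x : ℂ} (hx : x ∈ O) :
    SmV (V.loc (f1 α) x) x ∧ SmV (V.loc (f2 α) x) x ∧
      derV I 1 (V.loc (f1 α) x) x = derV (-I) 1 (V.loc (f2 α) x) x := by
  have e1 : (fun y => cx (k y) *ᵥ f1 α y) =ᶠ[𝓝 x] derV (-I) 1 β := by
    filter_upwards [hO.mem_nhds hx] with y hy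
    have := congrArg (fun u : ι ⊕ ι → ℂ => fun i => u (Sum.inl i)) (h y hy).2
    rw [two_mulVec] at this
    exact this.symm
  have e2 : (fun y => cx (k y) *ᵥ f2 α y) =ᶠ[𝓝 x] derV I 1 β := by
    filter_upwards [hO.mem_nhds hx] with y hy
    have := congrArg (fun u : ι ⊕ ι → ℂ => fun i => u (Sum.inr i)) (h y hy).2
    rw [two_mulVec] at this
    exact this.symm
  have s1 := VHS.smS_of_fr hO hs hk hx (smV_congr (smV_der (h x hx).1 _ _) e1)
  have s2 := VHS.smS_of_fr hO hs hk hx (smV_congr (smV_der (h x hx).1 _ _) e2)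
  refine ⟨s1, s2, ?_⟩
  have d1 := derV_congr (c := I) (ξ := 1) ((V.fr_loc (f1 α) hO hk hx).symm.trans e1)
  have d2 := derV_congr (c := -I) (ξ := 1) ((V.fr_loc (f2 α) hO hk hx).symm.trans e2)
  rw [derV_mulVec _ s1] at d1
  rw [derV_mulVec _ s2, ← derV_comm (h x hx).1, ← d1] at d2
  have := congrArg (fun u => cx (k x)⁻¹ *ᵥ u) d2
  simpa only [mulVec_mulVec, cx_inv_mul, one_mulVec] using this.symm

namespace Slit

variable (L : Slit V)

theorem stab_re {i : Fin L.n} {x : ℂ} (hx : x ∈ cone L.b (L.r i) L.ε) :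
    0 < (co L.b (L.r i) x).re :=
  (pos_iff_pos_of_mul_pos ((abs_nonneg _).trans_lt hx)).mp L.pos

theorem stab_im {i : Fin L.n} {x : ℂ} (hx : x ∈ cone L.b (L.r i) L.ε) (h : x ∈ cut L.b L.r) :
    (co L.b (L.r i) x).im ≠ 0 := fun e => h i ⟨e, (L.stab_re hx).le⟩

/-- a form with periods is closed -/
theorem Per.closed {α : Form ι} {c : Fin L.n → ι → ℂ} (h : L.Per α c) : V.Closed α := by
  obtain ⟨β0, β, h0, h1⟩ := h
  have key : ∀ x ∈ Ω, SmV (V.loc (f1 α) x) x ∧ SmV (V.loc (f2 α) x) x ∧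
      derV I 1 (V.loc (f1 α) x) x = derV (-I) 1 (V.loc (f2 α) x) x := fun x hx => by
    rcases L.cover hx with h | ⟨i, h, -⟩
    · exact stab_closed (isOpen_cut _ _) L.cut_sub L.fr0 h0 h
    · exact stab_closed (isOpen_cone _ _ _) (L.cone_sub i) (L.fr i) (fun y hy => (h1 i y hy).1) h
  exact ⟨⟨fun x hx => (key x hx).1, fun x hx => (key x hx).2.1⟩, fun x hx => (key x hx).2.2⟩

theorem stab_ev_lt (i : Fin L.n) {x : ℂ} (h : (co L.b (L.r i) x).im < 0) :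
    ∀ᶠ y in 𝓝 x, (co L.b (L.r i) y).im < 0 :=
  (isOpen_lt (continuous_im.comp (slit_continuous_co _ _)) continuous_const).mem_nhds h

theorem stab_ev_gt (i : Fin L.n) {x : ℂ} (h : 0 < (co L.b (L.r i) x).im) :
    ∀ᶠ y in 𝓝 x, 0 < (co L.b (L.r i) y).im :=
  (isOpen_lt continuous_const (continuous_im.comp (slit_continuous_co _ _))).mem_nhds h

/-- a function on the slit plane with prescribed jumps is the primitive of a form -/
theorem stab_glue (B0 : ℂ → ι → ℂ) (g : Fin L.n → ℂ → ι → ℂ) (c : Fin L.n → ι → ℂ)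
    (h0 : ∀ x ∈ cut L.b L.r, SmV B0 x)
    (h1 : ∀ i, ∀ x ∈ cone L.b (L.r i) L.ε, (co L.b (L.r i) x).im = 0 → SmV (g i) x ∧
      ∀ᶠ y in 𝓝 x, ((co L.b (L.r i) y).im < 0 → B0 y = g i y) ∧
        (0 < (co L.b (L.r i) y).im → B0 y = cx (L.T i) *ᵥ g i y + c i)) :
    ∃ α : Form ι, L.Per α c ∧ (∀ x ∈ cut L.b L.r, dV B0 x = 0 → α x = 0) ∧
      ∀ i, ∀ x ∈ cone L.b (L.r i) L.ε, (co L.b (L.r i) x).im = 0 → dV (g i) x = 0 → α x = 0 := by
  classical
  let B : Fin L.n → ℂ → ι → ℂ := fun i y => if (co L.b (L.r i) y).im < 0 then B0 y else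
    if 0 < (co L.b (L.r i) y).im then cx (L.T i)⁻¹ *ᵥ (B0 y - c i) else g i y
  have Bm : ∀ i y, (co L.b (L.r i) y).im < 0 → B i y = B0 y := fun i y h => if_pos h
  have Bp : ∀ i y, 0 < (co L.b (L.r i) y).im → B i y = cx (L.T i)⁻¹ *ᵥ (B0 y - c i) :=
    fun i y h => by simp only [B, if_neg h.not_gt, if_pos h]
  have Bz : ∀ i, ∀ x ∈ cone L.b (L.r i) L.ε, (co L.b (L.r i) x).im = 0 → B i =ᶠ[𝓝 x] g i :=
    fun i x hx h => by
      filter_upwards [(h1 i x hx h).2] with y hy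
      rcases lt_trichotomy (co L.b (L.r i) y).im 0 with e | e | e
      · rw [Bm i y e, hy.1 e]
      · simp only [B, e, lt_irrefl, if_false]
      · rw [Bp i y e, hy.2 e, add_sub_cancel_right, mulVec_mulVec, cx_inv_mul, one_mulVec]
  let α : Form ι := fun x =>
    if h : ∃ i, x ∈ cone L.b (L.r i) L.ε ∧ (co L.b (L.r i) x).im = 0 then
      two (cx (L.k h.choose x)⁻¹) *ᵥ dV (g h.choose) x else two (cx (L.k0 x)⁻¹) *ᵥ dV B0 x
  have a0 : ∀ x ∈ cut L.b L.r, α x = two (cx (L.k0 x)⁻¹) *ᵥ dV B0 x := fun x hx =>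
    dif_neg fun ⟨_, h, e⟩ => L.stab_im h hx e
  have a1 : ∀ i, ∀ x ∈ cone L.b (L.r i) L.ε, (co L.b (L.r i) x).im = 0 →
      α x = two (cx (L.k i x)⁻¹) *ᵥ dV (g i) x := fun i x hx e => by
    have h : ∃ i, x ∈ cone L.b (L.r i) L.ε ∧ (co L.b (L.r i) x).im = 0 := ⟨i, hx, e⟩
    have hi : h.choose = i := L.uniq h.choose_spec.1 ⟨e, (L.stab_re hx).le⟩
    simp only [α, dif_pos h, hi]
  refine ⟨α, ⟨B0, B, fun x hx => ⟨h0 x hx, by rw [a0 x hx, stab_two_inv]⟩, fun i x hx =>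
    ⟨?_, fun e => (Bm i x e).symm, fun e => ?_⟩⟩, fun x hx e => by rw [a0 x hx, e, mulVec_zero],
    fun i x hx e e' => by rw [a1 i x hx e, e', mulVec_zero]⟩
  · rcases lt_trichotomy (co L.b (L.r i) x).im 0 with e | e | e
    · have hc := L.mem_cut i hx e.ne
      have ev : B i =ᶠ[𝓝 x] B0 := (L.stab_ev_lt i e).mono fun y hy => Bm i y hy
      refine ⟨smV_congr (h0 x hc) ev, ?_⟩
      rw [dV_congr ev, a0 x hc, L.minus i x ⟨hx, hc⟩ e, stab_two_inv]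
    · refine ⟨smV_congr (h1 i x hx e).1 (Bz i x hx e), ?_⟩
      rw [dV_congr (Bz i x hx e), a1 i x hx e, stab_two_inv]
    · have hc := L.mem_cut i hx e.ne'
      have ev : B i =ᶠ[𝓝 x] fun y => cx (L.T i)⁻¹ *ᵥ (B0 y - c i) :=
        (L.stab_ev_gt i e).mono fun y hy => Bp i y hy
      have s : SmV (fun y => B0 y - c i) x := smV_sub (h0 x hc) (smV_const _)
      refine ⟨smV_congr (smV_mulVec (smM_const _) s) ev, ?_⟩
      have d : dV (fun y => B0 y - c i) x = dV B0 x := by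
        simp only [dV, derV_sub (h0 x hc) (smV_const _), derV_const, sub_zero]
      rw [dV_congr ev, dV_mulVec _ s, d, a0 x hc, L.plus i x ⟨hx, hc⟩ e, mulVec_mulVec,
        two_mul_two, ← cx_mul, _root_.mul_inv_rev, mul_inv_cancel_left]
  · rw [Bp i x e, mulVec_mulVec, cx_mul_inv, one_mulVec, sub_add_cancel]

end Slit

end

end Pool.Agent.Lib.MP_5c318e_ag.V
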