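import Pool.Agent.Lib.MP_5c318e_ag.V.Per
import Pool.Agent.Lib.MP_5c318e_ag.V.StabA

/-! Periods of forms with compact support are stable under additive maps. -/

set_option autoImplicit false

namespace Pool.Agent.Lib.MP_5c318e_ag.V

open Matrix Filter Topology MeasureTheory Complex Metric Fr
open scoped ComplexOrder ContDiff ComplexConjugate

noncomputable section

variable {ι : Type} [Fintype ι] [DecidableEq ι] {w : ℕ} {Ω : Set ℂ} {V : VHS ℂ Ω ι w}

theorem stab_lc (φ : ℂ →+ ℂ) {O K : Set ℂ} (hO : IsOpen O) (hK : IsClosed K) {β : ℂ → ι → ℂ}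
    (h : ∀ y ∈ O, y ∉ K → SmV β y ∧ dV β y = 0) {x : ℂ} (hx : x ∈ O) (hk : x ∉ K) :
    (fun y j => φ (β y j)) =ᶠ[𝓝 x] fun _ j => φ (β x j) := by
  have : ∀ᶠ y in 𝓝 x, SmV β y ∧ dV β y = 0 := by
    filter_upwards [hO.mem_nhds hx, hK.isOpen_compl.mem_nhds hk] with y h1 h2 using h y h1 h2
  filter_upwards [const_of_dV this] with y hy
  rw [hy]

theorem stab_sm (φ : ℂ →+ ℂ) {O K : Set ℂ} (hO : IsOpen O) (hK : IsClosed K) {β : ℂ → ι → ℂ}
    (h : ∀ y ∈ O, y ∉ K → SmV β y ∧ dV β y = 0) {χ : ℂ → ℂ} (hχ : ∀ x, Sm χ x)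
    (h1 : ∀ x ∈ K, ∀ᶠ y in 𝓝 x, χ y = 1) {x : ℂ} (hx : x ∈ O) :
    SmV (fun y => (1 - χ y) • fun j => φ (β y j)) x := by
  by_cases hk : x ∈ K
  · refine smV_congr (smV_const 0) ?_
    filter_upwards [h1 x hk] with y hy
    rw [hy, sub_self, zero_smul]
  · exact smV_fmul (contDiffAt_const.sub (hχ x))
      (smV_congr (smV_const _) (stab_lc φ hO hK h hx hk))

theorem stab_dV {β : ℂ → ι → ℂ} {x : ℂ} {v : ι → ℂ} (h : β =ᶠ[𝓝 x] fun _ => v) : dV β x = 0 := by
  rw [dV_congr h]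
  simp only [dV, derV_const]
  exact Sum.elim_zero_zero

theorem Slit.stab (L : Slit V) (φ : ℂ →+ ℂ) {α : Form ι} {c : Fin L.n → ι → ℂ} (h : V.Closed α)
    (hc : Cpt Ω α) (hp : L.Per α c) :
    ∃ α', V.Closed α' ∧ Cpt Ω α' ∧ L.Per α' fun i j => φ (c i j) := by
  classical
  have hΩ : IsOpen Ω := by
    have : Ω = (Set.range L.r)ᶜ := by
      ext x
      simp [L.mem x, eq_comm]
    rw [this]
    exact (Set.finite_range _).isClosed.isOpen_compl
  obtain ⟨K, KΩ, Kc, K0⟩ := hc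
  obtain ⟨β0, β, h0, h1⟩ := hp
  obtain ⟨K2, K2Ω, K2c, χ, χs, χ1, χ0⟩ := stab_cut Kc hΩ KΩ
  have KK : ∀ x ∉ K2, x ∉ K := fun x hx hk => by
    have e0 := (χ0 x hx).self_of_nhds
    rw [(χ1 x hk).self_of_nhds] at e0
    exact one_ne_zero e0
  have hσ : ∀ i, ∃ C ⊆ cone L.b (L.r i) L.ε, ∃ σ : ℂ → ℂ, (∀ x, Sm σ x) ∧
      (∀ x ∈ K2, (co L.b (L.r i) x).im = 0 → 0 ≤ (co L.b (L.r i) x).re →
        ∀ᶠ y in 𝓝 x, σ y = 1) ∧ ∀ x ∉ C, ∀ᶠ y in 𝓝 x, σ y = 0 := fun i => by
    have c1 : IsClosed {x | (co L.b (L.r i) x).im = 0 ∧ 0 ≤ (co L.b (L.r i) x).re} :=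
      (isClosed_eq (continuous_im.comp (slit_continuous_co _ _)) continuous_const).inter
        (isClosed_le continuous_const (continuous_re.comp (slit_continuous_co _ _)))
    obtain ⟨C, C1, -, σ, s1, s2, s3⟩ := stab_cut (K2c.inter_right c1)
      (isOpen_cone L.b (L.r i) L.ε) (by
        rintro x ⟨hx, e⟩
        rcases L.cover (K2Ω hx) with hh | ⟨j, hj, -⟩
        · exact (hh i e).elim
        · exact L.uniq hj e ▸ hj)
    exact ⟨C, C1, σ, s1, fun x a b c => s2 x ⟨a, b, c⟩, s3⟩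
  choose C C1 σ σs σ1 σ0 using hσ
  have z0 : ∀ y ∈ cut L.b L.r, y ∉ K → SmV β0 y ∧ dV β0 y = 0 := fun y hy hk =>
    ⟨(h0 y hy).1, by rw [(h0 y hy).2, K0 y (L.cut_sub hy) hk, mulVec_zero]⟩
  have z1 : ∀ i, ∀ y ∈ cone L.b (L.r i) L.ε, y ∉ K → SmV (β i) y ∧ dV (β i) y = 0 :=
    fun i y hy hk => ⟨(h1 i y hy).1.1, by
      rw [(h1 i y hy).1.2, K0 y (L.cone_sub i hy) hk, mulVec_zero]⟩
  let u : Fin L.n → ℂ → ι → ℂ := fun i y =>
    if 0 < (co L.b (L.r i) y).im then fun j => φ (c i j) else 0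
  obtain ⟨α', p, a0, a1⟩ := L.stab_glue
    (fun y => ((1 - χ y) • fun j => φ (β0 y j)) + ∑ i, (χ y * σ i y) • u i y)
    (fun i y => (1 - χ y) • fun j => φ (β i y j)) (fun i j => φ (c i j)) (fun x hx => by
      refine smV_add (stab_sm φ (isOpen_cut _ _) Kc.isClosed z0 χs χ1 hx) fun j => ?_
      simp only [Finset.sum_apply]
      refine ContDiffAt.sum fun i _ => ?_
      revert j
      show SmV (fun y => (χ y * σ i y) • u i y) x
      by_cases hC : x ∈ C i
      · refine smV_fmul ((χs x).mul (σs i x)) (smV_congr (smV_const (u i x)) ?_)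
        rcases (L.stab_im (C1 i hC) hx).lt_or_gt with e | e
        · filter_upwards [L.stab_ev_lt i e] with y hy
          simp only [u, if_neg e.not_gt, if_neg hy.not_gt]
        · filter_upwards [L.stab_ev_gt i e] with y hy
          simp only [u, if_pos e, if_pos hy]
      · refine smV_congr (smV_const 0) ?_
        filter_upwards [σ0 i x hC] with y hy
        rw [hy, mul_zero, zero_smul])
    (fun i x hx e => by
      refine ⟨stab_sm φ (isOpen_cone _ _ _) Kc.isClosed (z1 i) χs χ1 hx, ?_⟩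
      have e1 : ∀ᶠ y in 𝓝 x, ∀ j, j ≠ i → σ j y = 0 := by
        refine eventually_all.mpr fun j => ?_
        by_cases hj : j = i
        · exact Eventually.of_forall fun _ hh => (hh hj).elim
        · exact (σ0 j x fun hC => hj (L.uniq (C1 j hC) ⟨e, (L.stab_re hx).le⟩)).mono
            fun _ hh _ => hh
      have e2 : ∀ᶠ y in 𝓝 x, χ y * σ i y = χ y := by
        by_cases hk : x ∈ K2
        · filter_upwards [σ1 i x hk e (L.stab_re hx).le] with y hy
          rw [hy, mul_one]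
        · filter_upwards [χ0 x hk] with y hy
          rw [hy, zero_mul]
      filter_upwards [e1, e2, (isOpen_cone _ _ _).mem_nhds hx] with y y1 y2 y3
      rw [Finset.sum_eq_single i (fun j _ hj => by rw [y1 j hj, mul_zero, zero_smul])
        (fun hh => (hh (Finset.mem_univ _)).elim), y2]
      refine ⟨fun s => ?_, fun s => ?_⟩
      · simp only [u, if_neg s.not_gt, smul_zero, add_zero, (h1 i y y3).2.1 s]
      · simp only [u, if_pos s, (h1 i y y3).2.2 s, Pi.add_apply, map_add, mulVec_smul,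
          ← cx_map]
        funext j
        simp only [Pi.add_apply, Pi.smul_apply, smul_eq_mul]
        ring)
  refine ⟨α', p.closed, ⟨K2, K2Ω, K2c, fun x hx hk => ?_⟩, p⟩
  rcases L.cover hx with hh | ⟨i, hh, e⟩
  · refine a0 x hh (stab_dV (v := fun j => φ (β0 x j)) ?_)
    filter_upwards [χ0 x hk, stab_lc φ (isOpen_cut _ _) Kc.isClosed z0 hh (KK x hk)] with y y1 y2
    simp only [y1, sub_zero, one_smul, zero_mul, zero_smul, Finset.sum_const_zero, add_zero, y2]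
  · refine a1 i x hh e (stab_dV (v := fun j => φ (β i x j)) ?_)
    filter_upwards [χ0 x hk, stab_lc φ (isOpen_cone _ _ _) Kc.isClosed (z1 i) hh (KK x hk)]
      with y y1 y2
    simp only [y1, sub_zero, one_smul, y2]

end

end Pool.Agent.Lib.MP_5c318e_ag.V
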