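import Pool.Agent.Lib.MP_5c318e_ag.V.PerC
import Pool.Agent.Lib.MP_5c318e_ag.V.Stab
import Pool.Agent.Lib.MP_5c318e_ag.V.Rat
import Pool.Agent.Lib.MP_5c318e_ag.V.LocP
import Pool.Agent.Lib.MP_5c318e_ag.V.Hodge

/-! Existence of a lattice basis. -/

set_option autoImplicit false

namespace Pool.Agent.Lib.MP_5c318e_ag.V

open Matrix Filter Topology MeasureTheory Complex Metric
open scoped ComplexOrder ContDiff ComplexConjugate

noncomputable section

variable {ι : Type} [Fintype ι] [DecidableEq ι] {w : ℕ} {Ω : Set ℂ} {V : VHS ℂ Ω ι w}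

/-- harmonic representatives -/
theorem VHS.Z.exists_harm (hΩ : Ωᶜ.Finite) {ζ : Form ι} (h : V.Z ζ) :
    ∃ η, V.Harm η ∧ V.Exact (η - ζ) := by
  obtain ⟨η, n, n', hη, hn, cn, hn', cn', e⟩ := VHS.hodge hΩ h.1.1 h.2
  have h1 : V.Z (V.cF n') := by
    refine VHS.Z.congr hΩ (VHS.Z.sub hΩ (VHS.Z.sub hΩ h hη.1) hn) fun x hx => ?_
    simp only [Pi.sub_apply, e x hx]
    abel
  have h2 := VHS.Cl.orth hΩ cn' hn' h1
  rw [VHS.Q_cF_self hΩ] at h2
  have h3 := VHS.eq_zero_of_int hΩ hn'.1.1 hn'.2 (by exact_mod_cast h2)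
  refine ⟨η, hη, VHS.Exact.congr ((VHS.Cl.exact hΩ cn hn).smul (-1)) fun x hx => ?_⟩
  have h4 : V.cF n' x = 0 := by
    simp only [VHS.cF, mulF, h3 x hx, mulVec_zero]
  simp only [Pi.sub_apply, Pi.smul_apply, e x hx, h4, neg_smul, one_smul]
  abel

omit [Fintype ι] [DecidableEq ι] in
theorem fibEx_cpt_zero : Cpt Ω (0 : Form ι) :=
  ⟨∅, Set.empty_subset _, isCompact_empty, fun _ _ _ => rfl⟩

/-- the period cocycles of closed forms with compact support -/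
def Slit.perP (L : Slit V) : Submodule ℂ (Fin L.n × ι → ℂ) where
  carrier := {y | ∃ α, V.Closed α ∧ Cpt Ω α ∧ L.Per α fun i j => y (i, j)}
  add_mem' := fun ⟨_, h1, h2, h3⟩ ⟨_, k1, k2, k3⟩ =>
    ⟨_, h1.add k1, h2.add k2, Slit.Per.add L h3 k3⟩
  zero_mem' := ⟨0, VHS.closed_zero, fibEx_cpt_zero, by
    have := L.per_zero 0
    have e : L.cob 0 = fun _ _ => 0 := by funext i j; simp [Slit.cob]
    rw [e] at this
    exact this⟩
  smul_mem' := fun a _ ⟨_, h1, h2, h3⟩ =>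
    ⟨_, h1.smul a, h2.of_zero fun x _ hx => by simp [hx], Slit.Per.smul L h3 a⟩

/-- the coboundaries -/
def Slit.perD (L : Slit V) : Submodule ℂ (Fin L.n × ι → ℂ) where
  carrier := {y | ∃ v, (fun i j => y (i, j)) = L.cob v}
  add_mem' := fun {y z} ⟨u, hu⟩ ⟨v, hv⟩ => ⟨u + v, by
    funext i j
    have h1 := congrFun (congrFun hu i) j
    have h2 := congrFun (congrFun hv i) j
    simp only [Slit.cob, Pi.sub_apply, Pi.add_apply, mulVec_add] at h1 h2 ⊢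
    rw [h1, h2]
    ring⟩
  zero_mem' := ⟨0, by funext i j; simp [Slit.cob]⟩
  smul_mem' := fun a y ⟨u, hu⟩ => ⟨a • u, by
    funext i j
    have h1 := congrFun (congrFun hu i) j
    simp only [Slit.cob, Pi.sub_apply, Pi.smul_apply, mulVec_smul, smul_eq_mul] at h1 ⊢
    rw [h1]
    ring⟩

theorem Slit.perD_le (L : Slit V) : L.perD ≤ L.perP := fun y ⟨v, hv⟩ =>
  ⟨0, VHS.closed_zero, fibEx_cpt_zero, by rw [hv]; exact L.per_zero v⟩

/-- the periods of a closed square integrable form are periods of a form with compact support -/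
theorem Slit.mem_perP (hΩ : Ωᶜ.Finite) (L : Slit V) {ζ : Form ι} (hζ : V.Z ζ)
    {y : Fin L.n × ι → ℂ} (h : L.Per ζ fun i j => y (i, j)) : y ∈ L.perP := by
  have hO : IsOpen Ω := by simpa using hΩ.isClosed.isOpen_compl
  obtain ⟨e, he, hc⟩ := VHS.Z.locp hΩ hζ
  obtain ⟨c, h1⟩ := L.per_ex (he.closed hO)
  obtain ⟨v, hv⟩ := (Slit.Per.exact L h1).1 ⟨e, he, fun _ _ => rfl⟩
  have h2 : (fun p : Fin L.n × ι => c p.1 p.2) ∈ L.perP := L.perD_le ⟨v, hv⟩
  have h3 : (y - fun p : Fin L.n × ι => c p.1 p.2) ∈ L.perP :=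
    ⟨_, hζ.1.sub (he.closed hO), hc, Slit.Per.sub L h h1⟩
  simpa using L.perP.add_mem h3 h2

theorem exists_fib (hΩ : Ωᶜ.Finite) (V : VHS ℂ Ω ι w) : ∃ (n : ℕ) (F : FD ι n), Fib V F := by
  obtain ⟨L⟩ := exists_slit hΩ V
  obtain ⟨n, v, hv, hi, hs, hz⟩ := rat L.perP L.perD L.perD_le
    (fun φ y ⟨α, h1, h2, h3⟩ => L.stab φ h1 h2 h3)
    (fun φ y ⟨u, hu⟩ => ⟨fun j => φ (u j), by
      funext i j
      have h1 := congrFun (congrFun hu i) j
      have h2 := congrFun (cx_map φ (L.T i) u) j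
      simp only [Slit.cob, Pi.sub_apply] at h1 h2 ⊢
      rw [h1, map_sub, h2]⟩)
  choose e ec ek ep using hv
  have hZ : ∀ j, V.Z (e j) := fun j => ⟨ec j, VHS.l2_of_cpt hΩ (ec j).1 (ek j)⟩
  choose η hη hx using fun j => VHS.Z.exists_harm hΩ (hZ j)
  have hsum : ∀ c : Fin n → ℂ, L.Per (∑ k, c k • e k)
      fun i j => (∑ k, c k • fun p : Fin L.n × ι => (v k p : ℂ)) (i, j) := by
    intro c
    have h1 := Slit.Per.sum L Finset.univ (fun k _ => ep k) c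
    convert h1 using 1
    funext i j
    simp [Finset.sum_apply]
  have hex : ∀ (ζ : Form ι) (y : Fin L.n × ι → ℂ) (c : Fin n → ℂ),
      (L.Per ζ fun i j => y (i, j)) →
      (y - ∑ k, c k • fun p : Fin L.n × ι => (v k p : ℂ)) ∈ L.perD →
      V.Exact (ζ - ∑ k, c k • e k) := fun ζ y c h1 h2 =>
    (Slit.Per.exact L (Slit.Per.sub L h1 (hsum c))).2 h2
  refine ⟨n, ⟨e, η⟩, ec, ek, fun j => ?_, fun c hc => ?_, fun ζ hζ => ?_, fun ζ hζ hI => ?_,
    hη, hx⟩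
  · refine (Slit.Per.prim L (ep j) _).2 ⟨0, fun i k => ?_⟩
    refine AddSubgroup.mem_zmultiples_iff.2 ⟨v j (i, k), ?_⟩
    simp [Slit.cob]
  · exact hi c ((Slit.Per.exact L (hsum c)).1 hc)
  · obtain ⟨c0, h0⟩ := L.per_ex hζ.1
    obtain ⟨c, hc⟩ := hs (fun p => c0 p.1 p.2) (L.mem_perP hΩ hζ h0)
    exact ⟨c, hex ζ _ c h0 hc⟩
  · obtain ⟨c0, h0⟩ := L.per_ex hζ.1
    obtain ⟨u, hu⟩ := (Slit.Per.prim L h0 _).1 hI
    choose y hy using fun p : Fin L.n × ι => AddSubgroup.mem_zmultiples_iff.1 (hu p.1 p.2)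
    have h1 : L.Per ζ fun i j => ((y (i, j) : ℤ) : ℂ) := by
      have h2 := Slit.Per.sub L h0 (L.per_zero u)
      rw [sub_zero] at h2
      convert h2 using 1
      funext i j
      simpa using hy (i, j)
    obtain ⟨c, hc⟩ := hz y (L.mem_perP hΩ hζ h1)
    exact ⟨c, hex ζ _ _ h1 hc⟩

end

end Pool.Agent.Lib.MP_5c318e_ag.V
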