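import Pool.Agent.Lib.MP_5c318e_ag.V.KWA
import Pool.Agent.Lib.MP_5c318e_ag.V.FibEx

/-! The lattice of the cohomology is a local system. -/

set_option autoImplicit false

namespace Pool.Agent.Lib.MP_5c318e_ag.V

open Matrix Filter Topology MeasureTheory Complex Metric
open scoped ComplexOrder ContDiff ComplexConjugate

noncomputable section

variable {ι : Type} [Fintype ι] [DecidableEq ι] {w : ℕ}
  {A : Type} [NormedAddCommGroup A] [NormedSpace ℂ A] {Ω : Set (A × ℂ)}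
  {V : VHS (A × ℂ) Ω ι w}

theorem exists_fibs [CompleteSpace A] (V : VHS (A × ℂ) Ω ι w) {S : Set A} (hc : Charted S)
    (hS : IsPreconnected S) (hR : Roots S Ω) :
    ∃ (n : ℕ) (F : A → FD ι n), ∀ s ∈ S, Fib (V.fib s) (F s) := by
  classical
  have h0 : ∀ s, ∃ (n : ℕ) (F : FD ι n), s ∈ S → Fib (V.fib s) F := fun s => by
    by_cases hs : s ∈ S
    · obtain ⟨n, F, h⟩ := exists_fib (hR.fin hs) (V.fib s)
      exact ⟨n, F, fun _ => h⟩
    · exact ⟨0, ⟨0, 0⟩, fun h => absurd h hs⟩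
  choose nn FF hFF using h0
  have hloc : ∀ s ∈ S, ∀ᶠ s' in 𝓝[S] s, nn s' = nn s := fun s hs => by
    refine hc.ev1 hs fun m σ a0 hσ e => ?_
    subst e
    obtain ⟨M, -, hM⟩ := exists_fam hR V hσ isCompact_empty (Set.empty_subset _) one_pos
    filter_upwards [ball_mem_nhds a0 (half_pos M.pos)] with a ha
    exact M.rank_eq ha (hFF _ hs) (hFF _ (hM a (M.half ha)))
  have hcont : ContinuousOn nn S := fun s hs =>
    continuousWithinAt_const.congr_of_eventuallyEq (hloc s hs) rfl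
  rcases S.eq_empty_or_nonempty with h | ⟨s0, h0⟩
  · exact ⟨0, fun _ => ⟨0, 0⟩, fun s hs => absurd hs (by simp [h])⟩
  · have h1 : ∀ s, ∃ F : FD ι (nn s0), s ∈ S → Fib (V.fib s) F := fun s => by
      by_cases hs : s ∈ S
      · rw [hS.constant hcont h0 hs]
        exact ⟨FF s, hFF s⟩
      · exact ⟨⟨0, 0⟩, fun h => absurd h hs⟩
    choose F hF using h1
    exact ⟨_, F, hF⟩

/-- the transport property at one point of the base -/
theorem kw_loc [CompleteSpace A] (V : VHS (A × ℂ) Ω ι w) {S : Set A} (hc : Charted S)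
    (hR : Roots S Ω) {n : ℕ} {F : A → FD ι n} (hF : ∀ s ∈ S, Fib (V.fib s) (F s)) {s : A}
    (hs : s ∈ S) : ∃ g : A → GL (Fin n) ℤ,
      ∀ (E : Type) [NormedAddCommGroup E] [NormedSpace ℂ E] (φ : E → A) (a0 : E) (K : Set ℂ)
        (M : Fam V φ a0 K), φ a0 = s → Plot S φ a0 →
        (∀ j, ∀ x ∈ fb Ω (φ a0), x ∉ K → (F (φ a0)).e j x = 0) →
        ∀ᶠ a in 𝓝 a0, ∀ ζ, (V.fib (φ a)).Z ζ →
          cx (g (φ a)) *ᵥ (F (φ a)).cls (V.fib (φ a)) ζ =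
            (F (φ a0)).cls (V.fib (φ a0)) (M.pb a ζ) := by
  classical
  obtain ⟨m, σ, p, h1, h2, -, h4⟩ := hc s hs
  have e0 : σ (p s) = s := h4.self_of_nhdsWithin hs
  have hs' : σ (p s) ∈ S := h1.2.self_of_nhds
  obtain ⟨K0, k1, k2, k3⟩ := (hF _ hs').exists_K
  obtain ⟨N, -, hN⟩ := exists_fam hR V h1 k2 k1 one_pos
  have h5 : ∀ b, ∃ g : GL (Fin n) ℤ, b ∈ ball (p s) (N.δ / 2) →
      cx g = pm (F (σ (p s))) (V.fib (σ (p s))) (F (σ b)) (N.pb b) := fun b => by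
    by_cases hb : b ∈ ball (p s) (N.δ / 2)
    · obtain ⟨g, hg⟩ := N.exists_gl hb (hF _ hs') (hF _ (hN b (N.half hb)))
      exact ⟨g, fun _ => hg⟩
    · exact ⟨1, fun h => absurd h hb⟩
  choose g hg using h5
  refine ⟨fun s' => g (p s'), fun E _ _ φ a0 K M e hφ hK => ?_⟩
  subst e
  have t1 : Tendsto φ (𝓝 a0) (𝓝[S] φ a0) :=
    tendsto_nhdsWithin_iff.2 ⟨hφ.1.continuousAt, hφ.2⟩
  have t2 : ∀ᶠ a in 𝓝 a0, σ (p (φ a)) = φ a ∧ p (φ a) ∈ ball (p (φ a0)) (N.δ / 2) ∧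
      ContinuousAt (fun a => p (φ a)) a ∧ a ∈ ball a0 M.δ := by
    filter_upwards [t1.eventually h4, (h2.comp hφ.1).continuousAt.eventually
      (ball_mem_nhds _ (half_pos N.pos)), (h2.comp hφ.1).eventually_continuousAt,
      ball_mem_nhds a0 M.pos] with a b1 b2 b3 b4
    exact ⟨b1, b2, b3, b4⟩
  obtain ⟨r, hr, hb⟩ := Metric.eventually_nhds_iff_ball.1 t2
  have key : ∀ x ∈ K, x ∈ K0 → x ∈ fb Ω (φ a0) → ∀ a ∈ ball a0 r,
      M.m a x = N.m (p (φ a)) x := fun x x1 x2 x3 => by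
    have x4 : x ∈ fb Ω (σ (p (φ a0))) := by rwa [e0]
    refine IsFr.uniq (convex_ball a0 r).isPreconnected
      ((M.isFr_fix x1 x3).mono fun a ha => (hb a ha).2.2.2)
      ((N.isFr_fix x2 x4).comp (fun a ha => (hb a ha).2.2.1.continuousWithinAt)
        (fun a ha => N.half (hb a ha).2.1) fun y hy y' hy' => by
          simp only [(hb y hy).1, (hb y' hy').1]) (mem_ball_self hr) ?_
    rw [M.m0 x x3, N.m0 x x4]
  filter_upwards [ball_mem_nhds a0 hr] with a ha ζ hζ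
  obtain ⟨b1, b2, -, b4⟩ := hb a ha
  have hζ' : (V.fib (σ (p (φ a)))).Z ζ := by rwa [b1]
  have c1 := N.cls_pb b2 (hF _ hs') (hF _ (hN _ (N.half b2))) hζ'
  rw [← hg _ b2, b1, e0] at c1
  rw [← c1]
  refine cls_congr_K (M.fin _ M.cen) fun j x hx h0 => ?_
  have x1 : x ∈ K := by_contra fun h => h0 (hK j x hx h)
  have x2 : x ∈ K0 := by_contra fun h => h0 (by
    have := k3 j x (by rwa [e0]) h
    rwa [e0] at this)
  rw [N.pb_fix (N.half b2) ζ x2, M.pb_fix b4 ζ x1, key x x1 x2 hx a ha]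

theorem KW.fam [CompleteSpace A] {S : Set A} (hR : Roots S Ω) {n : ℕ} {F : A → FD ι n}
    (hF : ∀ s ∈ S, Fib (V.fib s) (F s)) {κW : A → A → GL (Fin n) ℤ} (h : KW V S F κW)
    {E : Type} [NormedAddCommGroup E] [NormedSpace ℂ E] {φ : E → A} {a0 : E} (hφ : Plot S φ a0)
    {K1 : Set ℂ} (h1 : IsCompact K1) (h2 : K1 ⊆ fb Ω (φ a0)) :
    ∃ (K : Set ℂ) (M : Fam V φ a0 K), K1 ⊆ K ∧ K ⊆ fb Ω (φ a0) ∧ IsCompact K ∧
      (∀ j, ∀ x ∈ fb Ω (φ a0), x ∉ K → (F (φ a0)).e j x = 0) ∧ (∀ a ∈ ball a0 M.δ, φ a ∈ S) ∧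
      ∀ᶠ a in 𝓝 a0, a ∈ ball a0 (M.δ / 2) ∧ ∀ ζ, (V.fib (φ a)).Z ζ →
        cx (κW (φ a0) (φ a)) *ᵥ (F (φ a)).cls (V.fib (φ a)) ζ =
          (F (φ a0)).cls (V.fib (φ a0)) (M.pb a ζ) := by
  obtain ⟨K0, k1, k2, k3⟩ := (hF _ hφ.2.self_of_nhds).exists_K
  have k4 : K1 ∪ K0 ⊆ fb Ω (φ a0) := Set.union_subset h2 k1
  obtain ⟨M, -, hM⟩ := exists_fam hR V hφ (h1.union k2) k4 one_pos
  have k5 : ∀ j, ∀ x ∈ fb Ω (φ a0), x ∉ K1 ∪ K0 → (F (φ a0)).e j x = 0 :=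
    fun j x hx hK => k3 j x hx fun h => hK (Or.inr h)
  exact ⟨_, M, Set.subset_union_left, k4, h1.union k2, k5, hM,
    Eventually.and (ball_mem_nhds a0 (half_pos M.pos)) (h E φ a0 _ M hφ (h1.union k2) k5)⟩

theorem KW.germ [CompleteSpace A] {S : Set A} (hc : Charted S) (hR : Roots S Ω) {n : ℕ}
    {F : A → FD ι n} (hF : ∀ s ∈ S, Fib (V.fib s) (F s)) {κW : A → A → GL (Fin n) ℤ}
    (h : KW V S F κW) : Germ S κW where
  self := fun s hs => by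
    obtain ⟨K, M, -, -, -, -, -, h6⟩ := h.fam hR hF (φ := fun _ : ℂ => s) (a0 := 0)
      ⟨analyticAt_const, Eventually.of_forall fun _ => hs⟩ isCompact_empty (Set.empty_subset _)
    refine cx_inj ?_
    rw [cx_one]
    refine ext_cls (hR.fin hs) (hF s hs) fun ζ hζ => ?_
    rw [h6.self_of_nhds.2 ζ hζ, one_mulVec]
    exact Fib.cls_congr (hR.fin hs) _ (M.pb_zero ζ)
  coc := fun s hs => by
    refine hc.ev hs (P := fun s' s'' => κW s s'' = κW s s' * κW s' s'') fun m σ a0 hσ e => ?_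
    subst e
    obtain ⟨K, M, -, k2, k3, k4, k5, k6⟩ := h.fam hR hF hσ isCompact_empty (Set.empty_subset _)
    filter_upwards [k6, eventually_eventually_nhds.2 k6] with a1 ⟨b1, b2⟩ b3
    have b4 := M.half b1
    have hσ1 : Plot S σ a1 := ⟨M.an _ b4, eventually_of_mem (isOpen_ball.mem_nhds b4) k5⟩
    obtain ⟨K', N, l1, -, -, -, l5, l6⟩ := h.fam hR hF hσ1 k3 fun x hx => M.mem_fb b4 hx (k2 hx)
    obtain ⟨r, hr, hb⟩ := Metric.eventually_nhds_iff_ball.1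
      ((eventually_of_mem (isOpen_ball.mem_nhds b4) fun _ h => h).and
        (eventually_of_mem (ball_mem_nhds a1 N.pos) fun _ h => h))
    have key : ∀ x ∈ K, ∀ a ∈ ball a1 r, M.m a x = M.m a1 x * N.m a x := fun x x1 => by
      have x2 := M.mem_fb b4 x1 (k2 x1)
      refine IsFr.uniq (convex_ball a1 r).isPreconnected
        ((M.isFr_fix x1 (k2 x1)).mono fun a ha => (hb a ha).1)
        (((N.isFr_fix (l1 x1) x2).mono fun a ha => (hb a ha).2).mul _) (mem_ball_self hr) ?_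
      rw [N.m0 x x2, mul_one]
    filter_upwards [b3, l6, ball_mem_nhds a1 hr] with a2 ⟨c1, c2⟩ ⟨c3, c4⟩ c5
    refine cx_inj ?_
    rw [cx_mul]
    refine ext_cls (M.fin _ (M.half c1)) (hF _ (k5 _ (M.half c1))) fun ζ hζ => ?_
    rw [← mulVec_mulVec, c4 ζ hζ, b2 _ (N.pb_z c3 hζ), c2 ζ hζ]
    refine cls_congr_K (M.fin _ M.cen) fun j x hx h0 => ?_
    have x1 : x ∈ K := by_contra fun h => h0 (k4 j x hx h)
    rw [M.pb_fix (M.half c1) ζ x1, M.pb_fix b4 _ x1, N.pb_fix (N.half c3) ζ (l1 x1),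
      key x x1 a2 c5, mulVec_mulVec, two_mul_two, cx_mul]

theorem exists_ctx [CompleteSpace A] (V : VHS (A × ℂ) Ω ι w) {S : Set A} (hc : Charted S)
    (hR : Roots S Ω) {n : ℕ} {F : A → FD ι n} (hF : ∀ s ∈ S, Fib (V.fib s) (F s)) :
    ∃ κW, Ctx V S F κW := by
  classical
  choose g hg using fun (s : A) (hs : s ∈ S) => kw_loc V hc hR hF hs
  have h : KW V S F fun s => if hs : s ∈ S then g s hs else fun _ => 1 :=
    fun E _ _ φ a0 K M hφ _ hK => by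
      simp only [dif_pos hφ.2.self_of_nhds]
      exact hg _ _ E φ a0 K M rfl hφ hK
  exact ⟨_, hc, hR, hF, h.germ hc hR hF, h⟩

namespace Ctx

variable {S : Set A} {n : ℕ} {F : A → FD ι n} {κW : A → A → GL (Fin n) ℤ}

theorem flat [CompleteSpace A] (h : Ctx V S F κW) : ∀ s ∈ S, ∀ᶠ s' in 𝓝[S] s,
    (F s').ψ (V.fib s') = (cx (κW s s'))ᴴ * (F s).ψ (V.fib s) * cx (κW s s') := fun s hs => by
  refine h.ch.ev1 hs fun m σ a0 hσ e => ?_
  subst e
  obtain ⟨K, M, -, -, -, -, k5, k6⟩ :=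
    h.kw.fam h.roots h.fib hσ isCompact_empty (Set.empty_subset _)
  filter_upwards [k6] with a ⟨b1, b2⟩
  have b3 := M.half b1
  have f1 := h.fib _ (k5 a b3)
  have z := f1.z_e (M.fin a b3)
  ext j k
  rw [FD.ψ, of_apply, ← M.Q_pb b3, (h.fib _ hs).Q_cls (M.fin _ M.cen) (M.pb_z b1 (z j))
    (M.pb_z b1 (z k)), ← b2 _ (z j), ← b2 _ (z k), f1.cls_e (M.fin a b3), f1.cls_e (M.fin a b3),
    qf_mulVec_left, qf_mulVec_right]
  simp [qf, dotProduct, Pi.single_apply, apply_ite]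

theorem ed_flat [CompleteSpace A] (h : Ctx V S F κW) {ε : A × ℂ → Matrix ι ι ℂ} (hε : V.End ε) :
    ∀ s ∈ S, ∀ᶠ s' in 𝓝[S] s,
      cx (κW s s') * ((F s').op (V.fib s') fun x => two (ε (s', x))) =
        ((F s).op (V.fib s) fun x => two (ε (s, x))) * cx (κW s s') := fun s hs => by
  refine h.ch.ev1 hs fun m σ a0 hσ e => ?_
  subst e
  obtain ⟨K, M, -, -, -, -, k5, k6⟩ :=
    h.kw.fam h.roots h.fib hσ isCompact_empty (Set.empty_subset _)
  filter_upwards [k6] with a ⟨b1, b2⟩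
  have b3 := M.half b1
  have f1 := h.fib _ (k5 a b3)
  refine ext_cls (M.fin a b3) f1 fun ζ hζ => ?_
  obtain ⟨c1, c2⟩ := f1.ed_cls (M.fin a b3) (hε.fib _) hζ
  rw [← mulVec_mulVec, ← mulVec_mulVec, ← c2, b2 _ c1, b2 _ hζ,
    ← ((h.fib _ hs).ed_cls (M.fin _ M.cen) (hε.fib _) (M.pb_z b1 hζ)).2]
  exact Fib.cls_congr (M.fin _ M.cen) _ (M.pb_ed b3 hε ζ)

end Ctx

end

end Pool.Agent.Lib.MP_5c318e_ag.V
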