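import Pool.Agent.Lib.MP_5c318e_ag.V.Harv
import Pool.Agent.Lib.MP_5c318e_ag.V.KW
import Pool.Agent.Lib.MP_5c318e_ag.V.Upg
import Pool.Agent.Lib.MP_5c318e_ag.V.Hodge
import Pool.Agent.Lib.MP_5c318e_ag.V.FamDn

/-! Pairings of a moving harmonic form of top degree with a fixed form. -/

set_option autoImplicit false
set_option linter.unusedSectionVars false

namespace Pool.Agent.Lib.MP_5c318e_ag.V

open Matrix Filter Topology MeasureTheory Complex Metric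
open scoped ComplexOrder ContDiff ComplexConjugate

noncomputable section

variable {ι : Type} [Fintype ι] [DecidableEq ι] {w : ℕ}
  {A : Type} [NormedAddCommGroup A] [NormedSpace ℂ A]
  {E : Type} [NormedAddCommGroup E] [NormedSpace ℂ E] {Ω : Set (A × ℂ)}
  {V : VHS (A × ℂ) Ω ι w}

theorem FamUp_qf {n : Type} [Fintype n] [DecidableEq n] (N : Matrix n n ℂ) (u : n → ℂ)
    {c : E → n → ℂ} {a : E} (h : DifferentiableAt ℂ c a) :
    DifferentiableAt ℂ (fun a => qf N u (c a)) a := by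
  simp only [qf, dotProduct, mulVec]
  exact DifferentiableAt.fun_sum fun i _ => DifferentiableAt.const_mul
    (DifferentiableAt.fun_sum fun j _ => (differentiableAt_pi.1 h j).const_mul _) _

theorem Fib.int_nrm {Ω : Set ℂ} {V : VHS ℂ Ω ι w} {n : ℕ} {F : FD ι n} (hΩ : Ωᶜ.Finite)
    (h : Fib V F) (c : Fin n → ℂ) :
    ∫ x, V.nrm (F.hf c) x = (qf (F.ψ V) c (weyP (w + 1) (F.π V) *ᵥ c)).re := by
  have e := VHS.Q_cF_self (V := V) hΩ (F.hf c)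
  rw [← VHS.Q_congr hΩ (fun _ _ => rfl) (h.hf_wey hΩ c), h.Q_cls hΩ (h.harm_hf hΩ c).1
    (h.harm_hf hΩ _).1, h.cls_hf hΩ, h.cls_hf hΩ] at e
  rw [e, ofReal_re]

theorem Fib.nrm_bdd {Ω : Set ℂ} {V : VHS ℂ Ω ι w} {n : ℕ} {F : FD ι n} (hΩ : Ωᶜ.Finite)
    (h : Fib V F) {c : E → Fin n → ℂ} {a0 : E} (hc : ContinuousAt c a0) :
    ∃ B, 0 ≤ B ∧ ∀ᶠ a in 𝓝 a0, ∫ x, V.nrm (F.hf (c a)) x ≤ B := by
  simp only [h.int_nrm hΩ]
  have : ContinuousAt (fun a => (qf (F.ψ V) (c a) (weyP (w + 1) (F.π V) *ᵥ c a)).re) a0 := by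
    refine Complex.continuous_re.continuousAt.comp (ContinuousAt.comp
      (g := fun c => qf (F.ψ V) c (weyP (w + 1) (F.π V) *ᵥ c)) (Continuous.continuousAt ?_) hc)
    simp only [qf]
    fun_prop
  refine ⟨max 0 (_ + 1), le_max_left _ _, (this.eventually (gt_mem_nhds (lt_add_one _))).mono
    fun a ha => le_max_of_le_right ha.le⟩

namespace Fam

variable {φ : E → A} {a0 : E} {K : Set ℂ} (M : Fam V φ a0 K) {a : E} {α β : Form ι}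

theorem FamUp_P (ha : a ∈ ball a0 (M.δ / 2)) (p : ℤ) (s : (V.fib (φ a0)).SmF α)
    (h : (V.fib (φ a0)).L2 α) : (V.fib (φ a0)).SmF (mulF (fun x => M.P x p a) α) ∧
      (V.fib (φ a0)).L2 (mulF (fun x => M.P x p a) α) := by
  have b := M.half ha
  have e : mulF (fun x => M.P x p a) α = M.pb a ((V.fib (φ a)).pF p (M.pf a α)) :=
    funext fun x => by rw [M.pb_pF b, M.pb_pf b, mulF]
  have o : IsOpen (fb Ω (φ a)) := isClosed_compl_iff.1 (M.fin a b).isClosed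
  have s1 : (V.fib (φ a)).SmF (M.pf a α) := (M.mor_inv b).smF s
  rw [e]
  exact ⟨(M.mor b).smF (s1.pF o p),
    M.pb_l2 ha (s1.pF o p) ((M.pf_l2 ha s h).pF (M.fin a b) s1 p)⟩

theorem FamUp_perp {x : ℂ} (hx : x ∈ fb Ω (φ a0)) {p : ℤ} {u : ι ⊕ ι → ℂ}
    (hu : M.P x p a0 *ᵥ u = 0) (v : ι ⊕ ι → ℂ) :
    qf (psi1 (V.ψ (φ a0, x))) u (M.P x p a0 *ᵥ v) = 0 := by
  rw [qf_mulVec_right, ← (M.lv hx).adj a0 M.cen, ← qf_mulVec_left, hu, qf_zero_left]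

/-- the pairing with the moving top projector is complex differentiable -/
theorem FamUp_phi [FiniteDimensional ℂ E] (s : (V.fib (φ a0)).SmF β) (h : (V.fib (φ a0)).L2 β)
    (h0 : ∀ x ∈ fb Ω (φ a0), M.P x (w + 1 : ℕ) a0 *ᵥ β x = 0) (s' : (V.fib (φ a0)).SmF α)
    (h' : (V.fib (φ a0)).L2 α) :
    DifferentiableAt ℂ (fun a => (V.fib (φ a0)).Q β (mulF (fun x => M.P x (w + 1 : ℕ) a) α)) a0 := by
  obtain ⟨d, e⟩ := M.hasFDerivAt_pair (w + 1 : ℕ) s h s' h'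
  refine holo_of_dbar d fun ξ => ?_
  rw [(e I ξ (Or.inl rfl)).2, VHS.Q]
  refine integral_eq_zero_of_ae (M.FamDn_ae.mono fun x hx => ?_)
  have L := M.lv hx
  have z : M.P x (((w + 1 : ℕ) : ℤ) + 1) a0 = 0 := (L.prj a0 M.cen).zero _ (by simp [wt])
  simp only [mulF, Pi.zero_apply]
  rw [L.dbar_prj M.cen, L.ths_shift M.cen, z, Matrix.zero_mul, zero_sub, neg_mulVec,
    ← mulVec_mulVec, ← neg_one_smul ℂ, qf_smul_right]
  exact mul_eq_zero_of_right _ (M.FamUp_perp hx (h0 x hx) _)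

theorem FamUp_nrm {x : ℂ} (hx : x ∈ fb Ω (φ a0)) (α : Form ι) :
    (qf (psi1 (V.ψ (φ a0, x)) * wey (wt (w + 1)) (M.P x) a0) (α x) (α x)).re =
      (V.fib (φ a0)).nrm α x := by
  have e : wey (wt (w + 1)) (M.P x) a0 = weyP (w + 1) (prj1 fun p => V.π p (φ a0, x)) := by
    simp only [wey, weyP, M.P_zero hx]
  rw [e, (V.phs _ hx).psi1_wey]
  rfl

/-- the quadratic remainder -/
theorem FamUp_rem : ∃ C : ℝ, 0 ≤ C ∧ ∀ a ∈ ball a0 (M.δ / 2), ∀ (p : ℤ) (β ν : Form ι),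
    (V.fib (φ a0)).L2 β → (V.fib (φ a0)).L2 ν → (∀ x ∈ fb Ω (φ a0), M.P x p a0 *ᵥ β x = 0) →
    ‖(V.fib (φ a0)).Q β (mulF (fun x => M.P x p a) ν)‖ ≤
      C * (‖a - a0‖ ^ 2 * (∫ x, (V.fib (φ a0)).nrm β x) + ∫ x, (V.fib (φ a0)).nrm ν x) := by
  obtain ⟨C, hC, h⟩ := lip (ι ⊕ ι) (w + 1)
  have d := M.pos
  refine ⟨C / M.δ, by positivity, fun a ha p β ν h1 h2 h0 => ?_⟩
  rw [← integral_const_mul, ← integral_add (h1.const_mul _) h2, ← integral_const_mul]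
  refine norm_integral_le_of_norm_le (((h1.const_mul _).add h2).const_mul _)
    (M.FamDn_ae.mono fun x hx => ?_)
  have e := (h E a0 M.δ _ _ (M.lv hx) a ha (β x) (ν x)).2.2 p
  rw [M.FamUp_nrm hx, M.FamUp_nrm hx, sub_mulVec, qf_sub_right, M.FamUp_perp hx (h0 x hx),
    sub_zero] at e
  have n1 := (V.fib (φ a0)).nrm_nonneg β x hx
  have n2 := (V.fib (φ a0)).nrm_nonneg ν x hx
  refine (pow_le_pow_iff_left₀ (norm_nonneg _) (by positivity) two_ne_zero).1 (e.trans ?_)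
  rw [mul_pow (C / M.δ), mul_div_right_comm, mul_pow, mul_assoc]
  refine mul_le_mul_of_nonneg_left ?_ (sq_nonneg _)
  have n3 := mul_nonneg (sq_nonneg ‖a - a0‖) n1
  nlinarith [mul_nonneg n3 n2, sq_nonneg (‖a - a0‖ ^ 2 * (V.fib (φ a0)).nrm β x),
    sq_nonneg ((V.fib (φ a0)).nrm ν x)]

end Fam

/-- the moving harmonic form near the centre -/
theorem Ctx.FamUp_ev {S : Set A} {n : ℕ} {F : A → FD ι n} {κW : A → A → GL (Fin n) ℤ}
    (h : Ctx V S F κW) {φ : E → A} {a0 : E} (hφ : Plot S φ a0) {K : Set ℂ} (M : Fam V φ a0 K)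
    (hK : IsCompact K) (hKe : ∀ j, ∀ x ∈ fb Ω (φ a0), x ∉ K → (F (φ a0)).e j x = 0)
    (v : E → Fin n → ℂ) : ∃ C : ℝ, ∀ᶠ a in 𝓝 a0, a ∈ ball a0 (M.δ / 2) ∧ φ a ∈ S ∧
      (V.fib (φ a0)).Z (M.pb a ((F (φ a)).hf (v a))) ∧
      (F (φ a0)).cls (V.fib (φ a0)) (M.pb a ((F (φ a)).hf (v a))) = cx (κW (φ a0) (φ a)) *ᵥ v a ∧
      ∫ x, (V.fib (φ a0)).nrm (M.pb a ((F (φ a)).hf (v a)) -
          (F (φ a0)).hf (cx (κW (φ a0) (φ a)) *ᵥ v a)) x ≤ (C * ‖a - a0‖) ^ 2 *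
        ∫ x, (V.fib (φ a0)).nrm ((F (φ a0)).hf (cx (κW (φ a0) (φ a)) *ᵥ v a)) x := by
  obtain ⟨C, r, r0, r1, hl⟩ := M.harm_lip
  have hΩ := M.fin _ M.cen
  have F0 := h.fib _ hφ.2.self_of_nhds
  refine ⟨C, ?_⟩
  filter_upwards [h.kw E φ a0 K M hφ hK hKe, hφ.2, ball_mem_nhds a0 r0] with a h1 h2 h3
  have b1 : a ∈ ball a0 (M.δ / 2) := ball_subset_ball r1 h3
  have b2 := M.fin a (M.half b1)
  have Fa := h.fib _ h2
  have z := M.pb_z b1 (Fa.harm_hf b2 (v a)).1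
  have e := h1 _ (Fa.harm_hf b2 (v a)).1
  rw [Fa.cls_hf b2] at e
  refine ⟨b1, h2, z, e.symm, hl a h3 _ _ (Fa.harm_hf b2 _) (F0.harm_hf hΩ _) ?_⟩
  have x1 := F0.cls_spec hΩ z
  rw [← e] at x1
  refine (x1.sub (F0.exact_hf (cx (κW (φ a0) (φ a)) *ᵥ v a))).congr fun x _ => ?_
  simp only [Pi.sub_apply, sub_sub_sub_cancel_right]

theorem Ctx.FamUp_diff [FiniteDimensional ℂ E] {S : Set A} {n : ℕ}
    {F : A → FD ι n} {κW : A → A → GL (Fin n) ℤ} (h : Ctx V S F κW) {φ : E → A} {a0 : E}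
    (hφ : Plot S φ a0) {K : Set ℂ} (M : Fam V φ a0 K) (hK : IsCompact K)
    (hKe : ∀ j, ∀ x ∈ fb Ω (φ a0), x ∉ K → (F (φ a0)).e j x = 0) {v : E → Fin n → ℂ}
    (hv : AnalyticAt ℂ (fun a => cx (κW (φ a0) (φ a)) *ᵥ v a) a0)
    (ht : ∀ᶠ a in 𝓝 a0, (F (φ a)).π (V.fib (φ a)) (w + 1 : ℕ) *ᵥ v a = v a) {γ : Form ι}
    (s : (V.fib (φ a0)).SmF γ) (hγ : (V.fib (φ a0)).L2 γ) :
    DifferentiableAt ℂ (fun a => (V.fib (φ a0)).Q γ (M.pb a ((F (φ a)).hf (v a)))) a0 := by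
  have hΩ := M.fin _ M.cen
  have o := M.FamDn_open
  have F0 := h.fib _ hφ.2.self_of_nhds
  obtain ⟨η, ν, ν', h1, h2, h3, h4, h5, h6⟩ := VHS.hodge hΩ s hγ
  obtain ⟨C, hC⟩ := h.FamUp_ev hφ M hK hKe v
  obtain ⟨C', hC0, hC'⟩ := M.FamUp_rem
  obtain ⟨B, -, hB⟩ := F0.nrm_bdd hΩ hv.continuousAt
  generalize hc : (fun a => cx (κW (φ a0) (φ a)) *ᵥ v a) = c at hv
  simp only [show ∀ a, cx (κW (φ a0) (φ a)) *ᵥ v a = c a from congrFun hc] at hC hB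
  set W := V.fib (φ a0) with hW
  set β : Form ι := W.cF ν' - ((-1 : ℂ) ^ ((w + 1 : ℕ) : ℤ)) • ν' with hβ
  have sc := h4.1.1.cF o
  have lc := h4.2.cF hΩ
  have sβ : W.SmF β := sc.sub (h4.1.1.smul _)
  have lβ : W.L2 β := lc.sub hΩ (h4.2.smul _) sc (h4.1.1.smul _)
  have β0 : ∀ x ∈ fb Ω (φ a0), M.P x (w + 1 : ℕ) a0 *ᵥ β x = 0 := fun x hx => by
    have e := (V.phs _ hx).one.mul_wey (w + 1 : ℕ)
    rw [M.P_zero hx, hβ, Pi.sub_apply, Pi.smul_apply, mulVec_sub, mulVec_smul, VHS.cF, mulF,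
      mulVec_mulVec]
    erw [e]
    rw [smul_mulVec, sub_self]
  have d1 := FamUp_qf ((F (φ a0)).ψ W) ((F (φ a0)).cls W η) hv.differentiableAt
  have d2 : DifferentiableAt ℂ (fun a => ∑ k, c a k *
      W.Q β (mulF (fun x => M.P x (w + 1 : ℕ) a) ((F (φ a0)).h k))) a0 :=
    DifferentiableAt.fun_sum fun k _ => (differentiableAt_pi.1 hv.differentiableAt k).mul
      (M.FamUp_phi sβ lβ β0 (F0.harm k).1.1.1 (F0.harm k).1.2)
  have d3 : DifferentiableAt ℂ (fun a => W.Q β (mulF (fun x => M.P x (w + 1 : ℕ) a)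
      (M.pb a ((F (φ a)).hf (v a)) - (F (φ a0)).hf (c a)))) a0 := by
    have bd : ∀ᶠ a in 𝓝 a0, ‖W.Q β (mulF (fun x => M.P x (w + 1 : ℕ) a)
        (M.pb a ((F (φ a)).hf (v a)) - (F (φ a0)).hf (c a)))‖ ≤
        C' * ((∫ x, W.nrm β x) + C ^ 2 * B) * ‖‖a - a0‖ ^ 2‖ := by
      filter_upwards [hC, hB] with a ⟨b1, _, b3, _, b5⟩ b6
      refine (hC' a b1 _ β _ lβ (b3.sub hΩ (F0.harm_hf hΩ _).1).2 β0).trans ?_
      rw [Real.norm_of_nonneg (sq_nonneg _), mul_assoc]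
      refine mul_le_mul_of_nonneg_left ?_ hC0
      nlinarith [mul_le_mul_of_nonneg_left b6 (sq_nonneg (C * ‖a - a0‖))]
    have z := bd.self_of_nhds
    rw [sub_self, norm_zero, zero_pow two_ne_zero, norm_zero, mul_zero, norm_le_zero_iff] at z
    refine HasFDerivAt.differentiableAt (f' := 0) (hasFDerivAt_iff_isLittleO.2 ?_)
    simp only [z, sub_zero, _root_.zero_apply]
    exact (Asymptotics.IsBigO.of_bound _ bd).trans_isLittleO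
      (Asymptotics.isLittleO_pow_sub_sub a0 one_lt_two)
  refine ((d1.add d2).add d3).congr_of_eventuallyEq ?_
  filter_upwards [hC, ht] with a ⟨b1, b2, b3, b4, _⟩ b6
  have b := M.half b1
  have g := F0.harm_hf hΩ (c a)
  have q1 := M.FamUp_P b1 (w + 1 : ℕ) g.1.1.1 g.1.2
  have q2 := M.FamUp_P b1 (w + 1 : ℕ) (b3.sub hΩ g.1).1.1 (b3.sub hΩ g.1).2
  have t : ∀ x ∈ fb Ω (φ a0), M.pb a ((F (φ a)).hf (v a)) x =
      (mulF (fun x => M.P x (w + 1 : ℕ) a) ((F (φ a0)).hf (c a)) +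
        mulF (fun x => M.P x (w + 1 : ℕ) a)
          (M.pb a ((F (φ a)).hf (v a)) - (F (φ a0)).hf (c a))) x := fun x hx => by
    have e := (h.fib _ b2).hf_prj (M.fin a b) (w + 1 : ℕ) (v a) _ ((M.mem a b x).2 hx)
    rw [b6] at e
    rw [Pi.add_apply, mulF, mulF, ← mulVec_add, Pi.sub_apply, add_sub_cancel, ← M.pb_pF b]
    simp only [Fam.pb, pullF, ← e]
  have e1 : W.Q β (mulF (fun x => M.P x (w + 1 : ℕ) a) ((F (φ a0)).hf (c a))) =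
      ∑ k, c a k * W.Q β (mulF (fun x => M.P x (w + 1 : ℕ) a) ((F (φ a0)).h k)) := by
    simp only [VHS.Q, ← integral_const_mul]
    rw [← integral_finsetSum _ fun k _ => ?_]
    · congr 1
      funext x
      simp only [mulF, FD.hf, Finset.sum_apply, Pi.smul_apply, mulVec_sum, mulVec_smul, qf,
        dotProduct_sum, dotProduct_smul, smul_eq_mul]
    · have q := M.FamUp_P b1 (w + 1 : ℕ) (F0.harm k).1.1.1 (F0.harm k).1.2
      exact (VHS.pair_int hΩ sβ lβ q.1 q.2).const_mul _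
  have e2 : W.Q γ (M.pb a ((F (φ a)).hf (v a))) =
      W.Q (η + ν + W.cF ν') (M.pb a ((F (φ a)).hf (v a))) :=
    VHS.Q_congr hΩ h6 fun _ _ => rfl
  have e3 : W.Q β (M.pb a ((F (φ a)).hf (v a))) = W.Q (W.cF ν') (M.pb a ((F (φ a)).hf (v a))) := by
    rw [hβ, VHS.Q_sub_left hΩ sc lc (h4.1.1.smul _) (h4.2.smul _) b3.1.1 b3.2, VHS.Q_smul_left,
      h5.orth hΩ h4 b3, mul_zero, sub_zero]
  have z := h1.1.add hΩ h2
  simp only [Pi.add_apply]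
  rw [e2, VHS.Q_add_left hΩ z.1.1 z.2 sc lc b3.1.1 b3.2,
    VHS.Q_add_left hΩ h1.1.1.1 h1.1.2 h2.1.1 h2.2 b3.1.1 b3.2, h3.orth hΩ h2 b3, add_zero,
    F0.Q_cls hΩ h1.1 b3, b4, ← e3, VHS.Q_congr hΩ (fun _ _ => rfl) t,
    VHS.Q_add_right hΩ sβ lβ q1.1 q1.2 q2.1 q2.2, e1, add_assoc]

end

end Pool.Agent.Lib.MP_5c318e_ag.V
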