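import Pool.Agent.Lib.MP_5c318e_ag.V.Per
import Pool.Agent.Lib.MP_5c318e_ag.V.Int

/-! Periods are continuous in the square norm. -/

set_option autoImplicit false

namespace Pool.Agent.Lib.MP_5c318e_ag.V

open Matrix Filter Topology MeasureTheory Complex Metric
open scoped ComplexOrder ContDiff ComplexConjugate

noncomputable section

variable {ι : Type} [Fintype ι] [DecidableEq ι] {w : ℕ} {Ω : Set ℂ} {V : VHS ℂ Ω ι w}

theorem pc_nv_nonneg {y : ℂ} (hy : y ∈ Ω) (u : ι → ℂ) : 0 ≤ V.nv y u :=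
  qf_nonneg (V.H_pos hy) u

/-- a flat linear form is locally bounded for the Hodge norm -/
theorem pc_loc (hΩ : IsOpen Ω) {x : ℂ} (hx : x ∈ Ω) (ρ : ι → ℂ) :
    ∃ C : ℝ, ∀ᶠ y in 𝓝 x, ∀ u, ‖ρ ⬝ᵥ (cx (V.κ x y) *ᵥ u)‖ ^ 2 ≤ C * V.nv y u := by
  obtain ⟨r, hr, hs, -, hψ, lv⟩ := V.exists_lv hΩ hx
  set π' : ℤ → ℂ → Matrix ι ι ℂ := fun p y => cx (V.κ x y) * V.π p y * cx (V.κ x y)⁻¹ with hπ
  set e : ι → ℂ := star (ρ ᵥ* (V.ψ x)⁻¹) with he
  have hu := (V.phs x hx).unit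
  have h1 : ∀ v, qf (V.ψ x) e v = ρ ⬝ᵥ v := fun v => by
    rw [qf, he, star_star, ← dotProduct_mulVec, mulVec_mulVec, nonsing_inv_mul _ hu, one_mulVec]
  have sm : SmM (fun y => V.ψ x * wey (wt w) π' y) x :=
    (smM_const _).mul (SmM.sum _ fun p _ => (lv.sm p x (mem_ball_self hr)).csmul _)
  have hc : ContinuousAt (fun y => (qf (V.ψ x * wey (wt w) π' y) e e).re) x := by
    refine continuous_re.continuousAt.comp ?_
    simp only [qf, dotProduct, mulVec]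
    exact tendsto_finsetSum _ fun i _ => tendsto_const_nhds.mul
      (tendsto_finsetSum _ fun j _ => (sm i j).continuousAt.tendsto.mul tendsto_const_nhds)
  refine ⟨(qf (V.ψ x * wey (wt w) π' x) e e).re + 1, ?_⟩
  filter_upwards [ball_mem_nhds x hr, hc.eventually (gt_mem_nhds (lt_add_one _))] with y hy hb u
  have ph : PHS w (V.ψ x) fun p => π' p y := ⟨lv.prj y hy, lv.adj y hy, lv.pos y hy⟩
  have h2 := ph.qf_le e (cx (V.κ x y) *ᵥ u)
  have e1 : weyP w (fun p => π' p y) = cx (V.κ x y) * wey (wt w) V.π y * cx (V.κ x y)⁻¹ := by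
    simp only [weyP, wey, hπ, Finset.mul_sum, Finset.sum_mul, Matrix.mul_smul, Matrix.smul_mul]
  have e2 : (qf (V.ψ x * weyP w fun p => π' p y) (cx (V.κ x y) *ᵥ u) (cx (V.κ x y) *ᵥ u)).re =
      V.nv y u := by
    rw [qf_mulVec_left, qf_mulVec_right, e1, VHS.nv, VHS.H, hψ y hy]
    simp only [Matrix.mul_assoc, cx_inv_mul, Matrix.mul_one]
  rw [h1, e2] at h2
  exact h2.trans (mul_le_mul_of_nonneg_right hb.le (pc_nv_nonneg (hs hy) u))

/-- coordinates in a flat frame are bounded by the Hodge norm on compact sets -/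
theorem pc_cpt (hΩ : IsOpen Ω) {O : Set ℂ} (hO : IsOpen O) (hs : O ⊆ Ω) {k : ℂ → GL ι ℤ}
    (hk : IsFr O V.κ k) {K : Set ℂ} (hK : IsCompact K) (hKO : K ⊆ O) (j : ι) :
    ∃ C : ℝ, 0 ≤ C ∧ ∀ y ∈ K, y ∈ Ω → ∀ u, ‖(cx (k y) *ᵥ u) j‖ ^ 2 ≤ C * V.nv y u := by
  refine hK.induction_on (p := fun s => ∃ C : ℝ, 0 ≤ C ∧ ∀ y ∈ s, y ∈ Ω → ∀ u,
    ‖(cx (k y) *ᵥ u) j‖ ^ 2 ≤ C * V.nv y u) ⟨0, le_rfl, fun y hy => hy.elim⟩ ?_ ?_ ?_
  · rintro s t hst ⟨C, h0, h⟩
    exact ⟨C, h0, fun y hy => h y (hst hy)⟩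
  · rintro s t ⟨C, h0, h⟩ ⟨C', h0', h'⟩
    refine ⟨max C C', le_max_of_le_left h0, fun y hy hy' u => ?_⟩
    rcases hy with hy | hy
    · exact (h y hy hy' u).trans
        (mul_le_mul_of_nonneg_right (le_max_left _ _) (pc_nv_nonneg hy' u))
    · exact (h' y hy hy' u).trans
        (mul_le_mul_of_nonneg_right (le_max_right _ _) (pc_nv_nonneg hy' u))
  · intro x hx
    obtain ⟨C, hC⟩ := pc_loc (V := V) hΩ (hs (hKO hx)) (cx (k x) j)
    have h1 := hk x (hKO hx)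
    rw [hO.nhdsWithin_eq (hKO hx)] at h1
    refine ⟨_, mem_nhdsWithin_of_mem_nhds (hC.and h1), max C 0, le_max_right _ _,
      fun y hy hy' u => ?_⟩
    have e : (cx (k y) *ᵥ u) j = cx (k x) j ⬝ᵥ (cx (V.κ x y) *ᵥ u) := by
      rw [hy.2, cx_mul, ← mulVec_mulVec]
      rfl
    rw [e]
    exact (hy.1 u).trans (mul_le_mul_of_nonneg_right (le_max_left _ _) (pc_nv_nonneg hy' u))

/-- the measurable version of the squared norm -/
def pcG (V : VHS ℂ Ω ι w) (α : Form ι) (x : ℂ) : ENNReal :=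
  ENNReal.ofReal (Ω.indicator (V.nrm α) x)

theorem pcG_meas (hΩ : IsOpen Ω) {α : Form ι} (h : V.SmF α) : Measurable (pcG V α) := by
  classical
  refine ENNReal.measurable_ofReal.comp ?_
  exact (VHS.nrm_cont hΩ h).measurable_piecewise continuousOn_const hΩ.measurableSet

theorem pcG_int (hΩ : Ωᶜ.Finite) {α : Form ι} (h : V.L2 α) :
    ∫⁻ x, pcG V α x = ENNReal.ofReal (∫ x, V.nrm α x) := by
  have ae : ∀ᵐ x : ℂ, x ∈ Ω := hΩ.measure_zero _
  rw [ofReal_integral_eq_lintegral_ofReal h (ae.mono fun x hx => VHS.nrm_nonneg α x hx)]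
  exact lintegral_congr_ae (ae.mono fun x hx => by simp only [pcG, Set.indicator_of_mem hx])

/-- the mean of `g` over the translated segment -/
def pcL (g : ℂ → ENNReal) (p q u : ℂ) : ENNReal :=
  ∫⁻ t in Set.Icc (0 : ℝ) 1, g (p + t • (q - p) + u)

theorem pcL_meas {g : ℂ → ENNReal} (hg : Measurable g) (p q : ℂ) : Measurable (pcL g p q) := by
  have : Measurable fun z : ℂ × ℝ => g (p + z.2 • (q - p) + z.1) := hg.comp (by fun_prop)
  exact this.lintegral_prod_right'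

theorem pcL_int {g : ℂ → ENNReal} (hg : Measurable g) (p q : ℂ) :
    ∫⁻ u, pcL g p q u = ∫⁻ x, g x := by
  have : Measurable fun z : ℂ × ℝ => g (p + z.2 • (q - p) + z.1) := hg.comp (by fun_prop)
  unfold pcL
  rw [lintegral_lintegral_swap this.aemeasurable]
  simp only [lintegral_add_left_eq_self]
  simp

theorem pc_fderiv (f : ℂ → ℂ) (x ξ : ℂ) :
    ‖fderiv ℝ f x ξ‖ ≤ ‖ξ‖ * (‖der (-I) 1 f x‖ + ‖der I 1 f x‖) := by
  have e : ξ = ξ • (1 : ℂ) := by simp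
  rw [← d_add_dbar, mul_add]
  refine (norm_add_le _ _).trans (add_le_add ?_ ?_)
  · conv_lhs => rw [e, d_vec_smul, norm_mul]
  · conv_lhs => rw [e, dbar_vec_smul, norm_mul, RCLike.norm_conj]

theorem pc_line {f : ℂ → ℂ} {p q : ℂ} (hf : ∀ t ∈ Set.Icc (0 : ℝ) 1, Sm f (p + t • (q - p))) :
    ‖f q - f p‖ₑ ≤ ∫⁻ t in Set.Icc (0 : ℝ) 1, ‖fderiv ℝ f (p + t • (q - p)) (q - p)‖ₑ := by
  have hγ : ContDiff ℝ 1 fun t : ℝ => p + t • (q - p) := by fun_prop
  have h1 := enorm_sub_le_lintegral_deriv_of_contDiffOn_Icc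
    (f := fun t : ℝ => f (p + t • (q - p))) (a := 0) (b := 1)
    (fun t ht => (((hf t ht).of_le (by norm_cast)).comp t hγ.contDiffAt).contDiffWithinAt)
    zero_le_one
  simp only [one_smul, add_sub_cancel, zero_smul, add_zero] at h1
  refine h1.trans (le_of_eq (setLIntegral_congr_fun measurableSet_Icc fun t ht => ?_))
  have h2 : HasDerivAt (fun t : ℝ => p + t • (q - p)) (q - p) t := by
    simpa using ((hasDerivAt_id t).smul_const (q - p)).const_add p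
  exact congrArg _ ((hf t ht).diff.hasFDerivAt.comp_hasDerivAt t h2).deriv

/-- the variation of a primitive along translates of a segment -/
theorem pc_seg (hΩ : IsOpen Ω) {O : Set ℂ} (hO : IsOpen O) (hs : O ⊆ Ω) {k : ℂ → GL ι ℤ}
    (hk : IsFr O V.κ k) {p q : ℂ} (hpq : segment ℝ p q ⊆ O) (ρ : ι → ℂ) :
    ∃ C : NNReal, ∀ᶠ u in 𝓝 (0 : ℂ), ∀ (α : Form ι) (β : ℂ → ι → ℂ),
      (∀ x ∈ O, SmV β x ∧ dV β x = two (cx (k x)) *ᵥ α x) →
      ‖ρ ⬝ᵥ (β (q + u) - β (p + u))‖ₑ ≤ C * (1 + pcL (pcG V α) p q u) := by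
  have hc : IsCompact (segment ℝ p q) := by
    rw [segment_eq_image']
    exact isCompact_Icc.image (by fun_prop)
  obtain ⟨δ, hδ, hKO⟩ := hc.exists_cthickening_subset_open hO hpq
  choose C hC0 hC using pc_cpt (V := V) hΩ hO hs hk (hc.cthickening (r := δ)) hKO
  refine ⟨∑ j, ‖ρ j‖₊ * (‖q - p‖₊ * (2 + (C j).toNNReal)), ?_⟩
  filter_upwards [ball_mem_nhds 0 hδ] with u hu α β hβ
  have hm : ∀ t ∈ Set.Icc (0 : ℝ) 1, p + t • (q - p) + u ∈ cthickening δ (segment ℝ p q) :=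
    fun t ht => mem_cthickening_of_dist_le _ (p + t • (q - p)) _ _
      (by rw [segment_eq_image']; exact ⟨t, ht, rfl⟩)
      (by simpa [dist_eq_norm] using (mem_ball_zero_iff.1 hu).le)
  have e : ∀ t : ℝ, p + u + t • (q + u - (p + u)) = p + t • (q - p) + u := fun t => by
    rw [add_sub_add_right_eq_sub]
    ring
  have h1 : ∀ j, ‖β (q + u) j - β (p + u) j‖ₑ ≤
      (‖q - p‖₊ * (2 + (C j).toNNReal) : NNReal) * (1 + pcL (pcG V α) p q u) := fun j => by
    refine (pc_line (f := fun y => β y j) fun t ht => ?_).trans ?_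
    · rw [e]
      exact (hβ _ (hKO (hm t ht))).1 j
    have e1 : (1 : ENNReal) + pcL (pcG V α) p q u =
        ∫⁻ t in Set.Icc (0 : ℝ) 1, (1 + pcG V α (p + t • (q - p) + u)) := by
      rw [lintegral_add_left measurable_const]
      simp [pcL]
    rw [e1, ← lintegral_const_mul' _ _ ENNReal.coe_ne_top]
    refine setLIntegral_mono' measurableSet_Icc fun t ht => ?_
    rw [e, add_sub_add_right_eq_sub]
    set x := p + t • (q - p) + u
    have hx := hKO (hm t ht)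
    have d := (hβ x hx).2
    rw [two_mulVec] at d
    have d1 : der (-I) 1 (fun y => β y j) x = (cx (k x) *ᵥ f1 α x) j := congrFun d (Sum.inl j)
    have d2 : der I 1 (fun y => β y j) x = (cx (k x) *ᵥ f2 α x) j := congrFun d (Sum.inr j)
    have n : V.nrm α x = V.nv x (f1 α x) + V.nv x (f2 α x) := by
      rw [VHS.nrm, qf_two, add_re]
      rfl
    have b1 := hC j x (hm t ht) (hs hx) (f1 α x)
    have b2 := hC j x (hm t ht) (hs hx) (f2 α x)
    have n0 := VHS.nrm_nonneg (V := V) α x (hs hx)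
    have b : ‖fderiv ℝ (fun y => β y j) x (q - p)‖ ≤ ‖q - p‖ * (2 + C j) * (1 + V.nrm α x) := by
      refine (pc_fderiv _ _ _).trans ?_
      rw [d1, d2, mul_assoc]
      refine mul_le_mul_of_nonneg_left ?_ (norm_nonneg _)
      have c0 := hC0 j
      have : C j * V.nrm α x = C j * V.nv x (f1 α x) + C j * V.nv x (f2 α x) := by rw [n, mul_add]
      nlinarith [sq_nonneg (‖(cx (k x) *ᵥ f1 α x) j‖ - 1), sq_nonneg (‖(cx (k x) *ᵥ f2 α x) j‖ - 1),
        norm_nonneg ((cx (k x) *ᵥ f1 α x) j), norm_nonneg ((cx (k x) *ᵥ f2 α x) j)]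
    rw [← ofReal_norm, pcG, Set.indicator_of_mem (hs hx), ← ENNReal.ofReal_one,
      ← ENNReal.ofReal_add zero_le_one n0, ← ENNReal.ofReal_coe_nnreal,
      ← ENNReal.ofReal_mul (NNReal.coe_nonneg _)]
    refine ENNReal.ofReal_le_ofReal (b.trans (le_of_eq ?_))
    simp [Real.coe_toNNReal _ (hC0 j)]
  rw [dotProduct, ENNReal.ofNNReal_finsetSum, Finset.sum_mul]
  refine (enorm_sum_le _ _).trans (Finset.sum_le_sum fun j _ => ?_)
  rw [enorm_mul, ENNReal.coe_mul, mul_assoc]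
  exact mul_le_mul_right (h1 j) _

theorem pc_one (L : Slit V) (l : Fin L.n → ι → ℂ) (hl : ∀ v, ∑ i, l i ⬝ᵥ L.cob v i = 0) :
    ∃ C : ℝ, ∀ α c, V.Z α → L.Per α c → ‖∑ i, l i ⬝ᵥ c i‖ ≤ C * (1 + ∫ x, V.nrm α x) := by
  have hf : Ωᶜ.Finite := (Set.finite_range L.r).subset fun x hx => by
    by_contra h
    exact hx ((L.mem x).2 fun i e => h ⟨i, e.symm⟩)
  have hΩ : IsOpen Ω := isClosed_compl_iff.1 hf.isClosed
  choose pm hpm using L.minus_ne
  choose pp hpp using L.plus_ne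
  obtain ⟨hb, hst⟩ := star_cut (b := L.b) L.ne
  have cm : ∀ i, pm i ∈ cut L.b L.r := fun i => L.mem_cut i (hpm i).1 (ne_of_lt (hpm i).2)
  have cp : ∀ i, pp i ∈ cut L.b L.r := fun i => L.mem_cut i (hpp i).1 (ne_of_gt (hpp i).2)
  choose C1 h1 using fun i => pc_seg (V := V) hΩ (isOpen_cut _ _) L.cut_sub L.fr0
    (hst.segment_subset (cp i)) (l i)
  choose C2 h2 using fun i => pc_seg (V := V) hΩ (isOpen_cone _ _ _) (L.cone_sub i) (L.fr i)
    ((convex_cone _ _ _).segment_subset (hpm i).1 (hpp i).1) (l i ᵥ* cx (L.T i))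
  choose C3 h3 using fun i => pc_seg (V := V) hΩ (isOpen_cut _ _) L.cut_sub L.fr0
    (hst.segment_subset (cm i)) (l i ᵥ* cx (L.T i))
  have cc : ∀ i, Continuous fun x => (co L.b (L.r i) x).im := fun i => by
    unfold co
    fun_prop
  have h4 : ∀ i, ∀ᶠ u in 𝓝 (0 : ℂ), pm i + u ∈
      cone L.b (L.r i) L.ε ∩ {x | (co L.b (L.r i) x).im < 0} := fun i =>
    (continuous_const.add continuous_id).continuousAt.eventually
      (((isOpen_cone _ _ _).inter (isOpen_lt (cc i) continuous_const)).mem_nhds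
        (by simpa using hpm i))
  have h5 : ∀ i, ∀ᶠ u in 𝓝 (0 : ℂ), pp i + u ∈
      cone L.b (L.r i) L.ε ∩ {x | 0 < (co L.b (L.r i) x).im} := fun i =>
    (continuous_const.add continuous_id).continuousAt.eventually
      (((isOpen_cone _ _ _).inter (isOpen_lt continuous_const (cc i))).mem_nhds
        (by simpa using hpp i))
  obtain ⟨η, hη, hU⟩ := Metric.eventually_nhds_iff_ball.1
    (eventually_all.2 fun i => (h1 i).and ((h2 i).and ((h3 i).and ((h4 i).and (h5 i)))))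
  set m : ENNReal := volume (ball (0 : ℂ) η)
  have m0 : m ≠ 0 := (measure_ball_pos _ _ hη).ne'
  have mt : m ≠ ⊤ := measure_ball_lt_top.ne
  have mp : 0 < m.toReal := ENNReal.toReal_pos m0 mt
  set A : NNReal := ∑ i, (C1 i + C2 i + C3 i)
  refine ⟨A * (1 + m.toReal) / m.toReal, fun α c hα hc => ?_⟩
  obtain ⟨β0, β, g0, g⟩ := hc
  have hg := pcG_meas hΩ hα.1.1
  set N := ∫ x, V.nrm α x
  have N0 : 0 ≤ N := integral_nonneg_of_ae
    ((show ∀ᵐ x : ℂ, x ∈ Ω from hf.measure_zero _).mono fun x hx => VHS.nrm_nonneg α x hx)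
  have pt : ∀ u ∈ ball (0 : ℂ) η, ‖∑ i, l i ⬝ᵥ c i‖ₑ ≤ ∑ i,
      (C1 i * (1 + pcL (pcG V α) L.b (pp i) u) + C2 i * (1 + pcL (pcG V α) (pm i) (pp i) u) +
        C3 i * (1 + pcL (pcG V α) L.b (pm i) u)) := fun u hu => by
    have e : ∑ i, l i ⬝ᵥ c i = ∑ i, (l i ⬝ᵥ (β0 (pp i + u) - β0 (L.b + u)) -
        (l i ᵥ* cx (L.T i)) ⬝ᵥ (β i (pp i + u) - β i (pm i + u)) -
        (l i ᵥ* cx (L.T i)) ⬝ᵥ (β0 (pm i + u) - β0 (L.b + u))) := by
      rw [← sub_zero (∑ i, l i ⬝ᵥ c i), ← hl (β0 (L.b + u)), ← Finset.sum_sub_distrib]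
      refine Finset.sum_congr rfl fun i _ => ?_
      obtain ⟨-, -, -, a4, a5⟩ := hU u hu i
      rw [(g i _ a5.1).2.2 a5.2, (g i _ a4.1).2.1 a4.2, ← dotProduct_mulVec, ← dotProduct_mulVec,
        ← dotProduct_sub, ← dotProduct_sub, ← dotProduct_sub, Slit.cob, mulVec_sub, mulVec_sub]
      congr 1
      abel
    rw [e]
    refine (enorm_sum_le _ _).trans (Finset.sum_le_sum fun i _ => ?_)
    obtain ⟨a1, a2, a3, -, -⟩ := hU u hu i
    exact (enorm_sub_le).trans (add_le_add ((enorm_sub_le).trans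
      (add_le_add (a1 α β0 g0) (a2 α (β i) fun x hx => (g i x hx).1))) (a3 α β0 g0))
  have tm : ∀ (C : NNReal) (p q : ℂ), Measurable fun u => C * (1 + pcL (pcG V α) p q u) :=
    fun C p q => (measurable_const.add (pcL_meas hg p q)).const_mul _
  have ti : ∀ (C : NNReal) (p q : ℂ), ∫⁻ u in ball (0 : ℂ) η, C * (1 + pcL (pcG V α) p q u) ≤
      C * (m + ENNReal.ofReal N) := fun C p q => by
    rw [lintegral_const_mul' _ _ ENNReal.coe_ne_top, lintegral_add_left measurable_const,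
      setLIntegral_const, one_mul, ← pcG_int hf hα.2, ← pcL_int hg p q]
    exact mul_le_mul_right (add_le_add le_rfl (setLIntegral_le_lintegral _ _)) _
  have key : ‖∑ i, l i ⬝ᵥ c i‖ₑ * m ≤ A * (m + ENNReal.ofReal N) := by
    rw [← setLIntegral_const]
    refine (setLIntegral_mono' measurableSet_ball pt).trans ?_
    rw [lintegral_finsetSum _ fun i _ => ((tm _ _ _).fun_add (tm _ _ _)).fun_add (tm _ _ _),
      ENNReal.ofNNReal_finsetSum, Finset.sum_mul]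
    refine Finset.sum_le_sum fun i _ => ?_
    rw [lintegral_add_left ((tm _ _ _).fun_add (tm _ _ _)), lintegral_add_left (tm _ _ _),
      ENNReal.coe_add, ENNReal.coe_add, add_mul, add_mul]
    exact add_le_add (add_le_add (ti _ _ _) (ti _ _ _)) (ti _ _ _)
  have k2 := ENNReal.toReal_mono (ENNReal.mul_ne_top ENNReal.coe_ne_top
    (ENNReal.add_ne_top.2 ⟨mt, ENNReal.ofReal_ne_top⟩)) key
  rw [ENNReal.toReal_mul, ENNReal.toReal_mul, ENNReal.toReal_add mt ENNReal.ofReal_ne_top,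
    ENNReal.toReal_ofReal N0, toReal_enorm, ENNReal.coe_toReal] at k2
  rw [div_mul_eq_mul_div, le_div_iff₀ mp]
  refine k2.trans ?_
  rw [mul_assoc]
  refine mul_le_mul_of_nonneg_left ?_ A.coe_nonneg
  nlinarith [mul_nonneg mp.le N0]

theorem pc_nrm_smul (α : Form ι) (s : ℝ) (x : ℂ) :
    V.nrm ((s : ℂ) • α) x = s ^ 2 * V.nrm α x := by
  simp only [VHS.nrm, Pi.smul_apply, qf_smul_left, qf_smul_right, conj_ofReal, ← mul_assoc,
    ← ofReal_mul, re_ofReal_mul, sq]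

theorem Slit.per_le (L : Slit V) (l : Fin L.n → ι → ℂ) (hl : ∀ v, ∑ i, l i ⬝ᵥ L.cob v i = 0) :
    ∃ C : ℝ, ∀ α c, V.Z α → L.Per α c → ‖∑ i, l i ⬝ᵥ c i‖ ^ 2 ≤ C * ∫ x, V.nrm α x := by
  obtain ⟨C, hC⟩ := pc_one L l hl
  refine ⟨4 * C ^ 2, fun α c hα hc => ?_⟩
  set a := ‖∑ i, l i ⬝ᵥ c i‖ with ha
  set N := ∫ x, V.nrm α x with hN
  have h : ∀ s : ℝ, 0 ≤ s → s * a ≤ C * (1 + s ^ 2 * N) := fun s hs => by
    have := hC _ _ (hα.smul s) (hc.smul L s)
    simp only [pc_nrm_smul, integral_const_mul, Pi.smul_apply, dotProduct_smul, smul_eq_mul,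
      ← Finset.mul_sum, norm_mul, norm_real, Real.norm_of_nonneg hs] at this
    exact this
  have C0 : 0 ≤ C := by simpa using h 0 le_rfl
  have a0 : 0 ≤ a := norm_nonneg _
  rcases a0.eq_or_lt with a1 | a1
  · have N0 : 0 ≤ C ^ 2 * N := by
      by_contra hn
      push Not at hn
      have C1 : 0 < C := C0.lt_of_ne fun e => by simp [← e] at hn
      have N1 : N < 0 := by nlinarith [sq_nonneg C]
      have := h (1 + (-N)⁻¹) (by have := inv_pos.2 (neg_pos.2 N1); positivity)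
      have i1 : (-N)⁻¹ * N = -1 := by field_simp [N1.ne]
      have i2 := inv_pos.2 (neg_pos.2 N1)
      rw [← a1, mul_zero] at this
      have : 0 ≤ 1 + (1 + (-N)⁻¹) ^ 2 * N := nonneg_of_mul_nonneg_right this C1 |> fun h => h
      nlinarith
    rw [← a1]
    nlinarith
  · rcases C0.eq_or_lt with C1 | C1
    · have := h 1 zero_le_one
      rw [← C1] at this
      linarith
    · have := h (2 * C / a) (by positivity)
      rw [div_mul_cancel₀ _ a1.ne'] at this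
      have h2 : 1 ≤ (2 * C / a) ^ 2 * N := by nlinarith
      rw [div_pow, div_mul_eq_mul_div, le_div_iff₀ (by positivity)] at h2
      nlinarith

theorem VHS.Cl.exact (hΩ : Ωᶜ.Finite) {α : Form ι} (h : V.Cl α) (hα : V.Z α) : V.Exact α := by
  obtain ⟨L⟩ := exists_slit hΩ V
  have ho : IsOpen Ω := isClosed_compl_iff.1 hΩ.isClosed
  obtain ⟨c, hc⟩ := L.per_ex hα.1
  rw [hc.exact L]
  let B : (ι → ℂ) →ₗ[ℂ] Fin L.n → ι → ℂ :=
    LinearMap.pi fun i => LinearMap.id - (cx (L.T i)).mulVecLin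
  have hB : ∀ v, B v = L.cob v := fun v => rfl
  by_contra hn
  have hn' : c ∉ LinearMap.range B := fun ⟨v, hv⟩ => hn ⟨v, hv.symm⟩
  obtain ⟨φ, h1, h2⟩ := (LinearMap.range B).exists_le_ker_of_notMem hn'
  let l : Fin L.n → ι → ℂ := fun i j => φ (Pi.single i (Pi.single j 1))
  have hφ : ∀ y, ∑ i, l i ⬝ᵥ y i = φ y := fun y => by
    conv_rhs => rw [← Finset.univ_sum_single y, map_sum]
    refine Finset.sum_congr rfl fun i _ => ?_
    have e : (Pi.single i (y i) : Fin L.n → ι → ℂ) =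
        ∑ j, y i j • (Pi.single i (Pi.single j 1) : Fin L.n → ι → ℂ) := by
      funext i' j'
      by_cases hi : i' = i
      · subst hi
        simp [Pi.single_apply]
      · simp [hi]
    rw [e, map_sum, dotProduct]
    exact Finset.sum_congr rfl fun j _ => by rw [map_smul, smul_eq_mul, mul_comm]
  have h0 : ∀ v, φ (L.cob v) = 0 := fun v => h2 ⟨v, rfl⟩
  obtain ⟨C, hC⟩ := L.per_le l fun v => by rw [hφ, h0]
  have p0 : 0 < ‖φ c‖ ^ 2 := by positivity
  obtain ⟨e, se, ce, he⟩ := h (‖φ c‖ ^ 2 / (|C| + 1)) (by positivity)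
  have zd : V.Z (V.D e) := ⟨se.closed ho, VHS.l2_of_cpt hΩ (se.closed ho).1 (ce.D ho)⟩
  obtain ⟨c', hc'⟩ := L.per_ex zd.1
  obtain ⟨v, rfl⟩ := (hc'.exact L).1 ⟨e, se, fun _ _ => rfl⟩
  have := hC _ _ (hα.sub hΩ zd) (hc.sub L hc')
  rw [hφ, map_sub, h0, sub_zero] at this
  have N0 : 0 ≤ ∫ x, V.nrm (α - V.D e) x := integral_nonneg_of_ae
    ((show ∀ᵐ x : ℂ, x ∈ Ω from hΩ.measure_zero _).mono fun x hx => VHS.nrm_nonneg _ x hx)
  rw [lt_div_iff₀ (by positivity)] at he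
  nlinarith [le_abs_self C, mul_le_mul_of_nonneg_right (le_abs_self C) N0]

end

end Pool.Agent.Lib.MP_5c318e_ag.V
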