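import Pool.Agent.Lib.MP_5c318e_ag.V.Harv
import Pool.Agent.Lib.MP_5c318e_ag.V.KW
import Pool.Agent.Lib.MP_5c318e_ag.V.Upg
import Pool.Agent.Lib.MP_5c318e_ag.V.Hodge
import Pool.Agent.Lib.MP_5c318e_ag.V.PerC
import Pool.Agent.Lib.MP_5c318e_ag.V.FamUpA

/-! Holomorphic sections of the top piece of the cohomology. -/

set_option autoImplicit false
set_option linter.unusedSectionVars false
set_option linter.unusedVariables false

namespace Pool.Agent.Lib.MP_5c318e_ag.V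

open Matrix Filter Topology MeasureTheory Complex Metric
open scoped ComplexOrder ContDiff ComplexConjugate

noncomputable section

variable {ι : Type} [Fintype ι] [DecidableEq ι] {w : ℕ}
  {A : Type} [NormedAddCommGroup A] [NormedSpace ℂ A]
  {E : Type} [NormedAddCommGroup E] [NormedSpace ℂ E] {Ω : Set (A × ℂ)}
  {V : VHS (A × ℂ) Ω ι w}

open Pool.Agent.Lib.MP_9ff3e7_ag in
/-- the mean value property with a rotation invariant weight -/
theorem FamUp_mean {G s : ℂ → ℂ} {x : ℂ} {r : ℝ} (hd : DifferentiableOn ℂ G (closedBall x r))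
    (hs : Continuous s) (h0 : ∀ t, r ≤ ‖t‖ → s t = 0)
    (hr : ∀ (e : ℂ) t, ‖e‖ = 1 → s (e • t) = s t) : ∫ t, s (t - x) * G t = (∫ t, s t) * G x := by
  have m : ∀ (e t : ℂ), ‖e‖ ≤ 1 → t ∈ closedBall (0 : ℂ) r → x + e • t ∈ closedBall x r :=
    fun e t he ht => by
      rw [add_mem_closedBall_iff_norm, norm_smul]
      exact (mul_le_of_le_one_left (norm_nonneg _) he).trans (mem_closedBall_zero_iff.1 ht)
  have z : ∀ t, t ∉ closedBall (0 : ℂ) r → s t = 0 := fun t ht =>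
    h0 t (le_of_not_ge fun h => ht (mem_closedBall_zero_iff.2 h))
  have c : ContinuousOn (fun p : F.Osg.Tc × ℂ => s p.2 * G (x + fourier 1 p.1 • p.2))
      (Set.univ ×ˢ closedBall 0 r) :=
    (hs.comp continuous_snd).continuousOn.mul (hd.continuousOn.comp
      (Continuous.continuousOn (by fun_prop)) fun p hp => m _ _ (F.Osg.nrm _).le hp.2)
  calc _ = ∫ t, s t * G (x + t) := by
        rw [← integral_add_left_eq_self _ x]
        simp only [add_sub_cancel_left]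
    _ = ∫ θ : F.Osg.Tc, ∫ t, s t * G (x + fourier 1 θ • t) ∂volume ∂AddCircle.haarAddCircle := by
        have : ∀ θ : F.Osg.Tc, ∫ t, s t * G (x + fourier 1 θ • t) = ∫ t, s t * G (x + t) :=
          fun θ => by
            have c0 : fourier 1 θ ≠ 0 := fun h => by simpa [h] using F.Osg.nrm θ
            rw [← (FamDn_rot0 volume (F.Osg.nrm θ)).integral_comp
              (measurableEmbedding_const_smul₀ c0) fun t => s t * G (x + t)]
            simp only [hr _ _ (F.Osg.nrm θ)]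
        simp only [this, integral_const, probReal_univ, one_smul]
    _ = ∫ t, ∫ θ : F.Osg.Tc, s t * G (x + fourier 1 θ • t) ∂AddCircle.haarAddCircle :=
        integral_integral_swap ((c.integrableOn_compact
          (isCompact_univ.prod (isCompact_closedBall 0 r))).integrable_of_forall_notMem_eq_zero
          fun p hp => mul_eq_zero_of_left (z _ fun h => hp ⟨trivial, h⟩) _)
    _ = _ := by
        rw [← integral_mul_const]
        congr 1
        funext t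
        by_cases ht : t ∈ closedBall (0 : ℂ) r
        swap
        · simp [z t ht]
        have d : DifferentiableOn ℂ (fun e : ℂ => G (x + e • t)) (closedBall 0 1) :=
          hd.comp (by fun_prop) fun e he => m e t (mem_closedBall_zero_iff.1 he) ht
        have e := DiffContOnCl.circleAverage (c := 0) (R := 1) (f := fun e : ℂ => G (x + e • t))
          (by simpa using (d.mono closure_ball_subset_closedBall).diffContOnCl)
        rw [integral_const_mul, F.Osg.avg fun e => G (x + e • t), e, zero_smul, add_zero]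

theorem FamUp_wt {r : ℝ} (hr : 0 < r) : ∃ s : ℂ → ℝ, ContDiff ℝ ∞ s ∧ (∀ t, 0 ≤ s t ∧ s t ≤ 1) ∧
    (∀ t, r ≤ ‖t‖ → s t = 0) ∧ (∀ (e : ℂ) t, ‖e‖ = 1 → s (e • t) = s t) ∧ 0 < ∫ t, s t := by
  have c : ContDiff ℝ ∞ fun t : ℂ => Real.smoothTransition (r ^ 2 - ‖t‖ ^ 2) :=
    Real.smoothTransition.contDiff.comp (contDiff_const.sub (contDiff_norm_sq ℝ))
  have z : ∀ t : ℂ, r ≤ ‖t‖ → Real.smoothTransition (r ^ 2 - ‖t‖ ^ 2) = 0 := fun t ht =>
    Real.smoothTransition.zero_of_nonpos (by nlinarith)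
  refine ⟨_, c, fun t => ⟨Real.smoothTransition.nonneg _, Real.smoothTransition.le_one _⟩, z,
    fun e t he => by rw [norm_smul, he, one_mul], ?_⟩
  refine c.continuous.integral_pos_of_hasCompactSupport_nonneg_nonzero (x := 0)
    (HasCompactSupport.intro (isCompact_closedBall 0 r) fun t ht =>
      z t (le_of_not_ge fun h => ht (mem_closedBall_zero_iff.2 h)))
    (fun t => Real.smoothTransition.nonneg _) (Real.smoothTransition.pos_of_pos ?_).ne'
  simpa using pow_pos hr 2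

section One

variable {Ω : Set ℂ} {V : VHS ℂ Ω ι w}

/-- test forms near a point -/
theorem VHS.FamUp_test (V : VHS ℂ Ω ι w) (hΩ : IsOpen Ω) {x1 : ℂ} (hx : x1 ∈ Ω) :
    ∃ r > 0, closedBall x1 (3 * r) ⊆ Ω ∧ IsFr (ball x1 (2 * r)) V.κ (V.κ x1) ∧ ∀ u : ι → ℂ,
      ∃ γ : Form ι, V.SmF γ ∧ (∀ x, x ∉ closedBall x1 (3 * r) → γ x = 0) ∧
        ∀ x ∈ ball x1 (2 * r), ∀ α : ι ⊕ ι → ℂ, qf (psi1 (V.ψ x)) (γ x) α =
          -qf (V.ψ x1) u (cx (V.κ x1 x) *ᵥ fun i => α (Sum.inl i)) := by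
  obtain ⟨R, R0, h1, h2, h3, -⟩ := V.exists_lv hΩ hx
  have s1 : closedBall x1 (3 * (R / 4)) ⊆ ball x1 R := closedBall_subset_ball (by linarith)
  have s2 : ball x1 (2 * (R / 4)) ⊆ ball x1 R := ball_subset_ball (by linarith)
  refine ⟨R / 4, by positivity, s1.trans h1, h2.mono s2, fun u => ?_⟩
  let χ : ContDiffBump x1 := ⟨2 * (R / 4), 3 * (R / 4), by positivity, by linarith⟩
  have z : ∀ x, x ∉ closedBall x1 (3 * (R / 4)) → χ x = 0 := fun x hx =>
    χ.zero_of_le_dist (le_of_not_ge hx)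
  refine ⟨dxF fun x => (χ x : ℂ) • (cx (V.κ x1 x)⁻¹ *ᵥ u), ⟨fun y hy => ?_, VHS.smS_zero⟩,
    fun x hx => ?_, fun x hx α => ?_⟩
  · by_cases hb : y ∈ ball x1 R
    · refine VHS.smS_of_fr isOpen_ball h1 h2 hb fun i => ?_
      have e : (fun y => (cx (V.κ x1 y) *ᵥ f1 (dxF fun x => (χ x : ℂ) • (cx (V.κ x1 x)⁻¹ *ᵥ u)) y) i)
          = fun y => (χ y : ℂ) * u i := funext fun y => by
        change (cx (V.κ x1 y) *ᵥ ((χ y : ℂ) • (cx (V.κ x1 y)⁻¹ *ᵥ u))) i = _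
        rw [mulVec_smul, mulVec_mulVec, cx_mul_inv, one_mulVec, Pi.smul_apply, smul_eq_mul]
      rw [e]
      exact (ofRealCLM.contDiff.comp χ.contDiff).contDiffAt.mul contDiffAt_const
    · intro i
      refine (contDiffAt_const (c := 0)).congr_of_eventuallyEq ?_
      filter_upwards [isClosed_closedBall.isOpen_compl.mem_nhds fun h => hb (s1 h)] with t ht
      change (cx (V.κ y t) *ᵥ ((χ t : ℂ) • (cx (V.κ x1 t)⁻¹ *ᵥ u))) i = _
      rw [z t ht, ofReal_zero, zero_smul, mulVec_zero, Pi.zero_apply]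
  · simp only [dxF, z x hx, ofReal_zero, zero_smul, Sum.elim_zero_zero]
  · rw [qf_psi1]
    simp only [dxF, Sum.elim_inl, Sum.elim_inr]
    rw [χ.one_of_mem_closedBall (ball_subset_closedBall hx), ofReal_one, one_smul,
      show (fun i : ι => (0 : ι → ℂ) i) = 0 from rfl, qf_zero_left, add_zero, h3 x (s2 hx),
      FamDn_qf_tr, mulVec_mulVec, cx_mul_inv, one_mulVec]

theorem VHS.FamUp_add (hΩ : Ωᶜ.Finite) {α β : Form ι} (h : V.L2 β) (h' : V.L2 (α - β)) :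
    ∫ x, V.nrm α x ≤ 2 * (∫ x, V.nrm β x) + 2 * ∫ x, V.nrm (α - β) x := by
  have ae : ∀ᵐ x : ℂ, x ∈ Ω := hΩ.measure_zero volume
  rw [← integral_const_mul, ← integral_const_mul, ← integral_add (h.const_mul _) (h'.const_mul _)]
  refine integral_mono_of_nonneg (ae.mono (V.nrm_nonneg α)) ((h.const_mul _).add (h'.const_mul _))
    (ae.mono fun x hx => ?_)
  have e := qf_add_le (V.phs x hx).one.pos (β x) (α x - β x)
  rw [add_sub_cancel, (V.phs x hx).psi1_wey] at e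
  exact e

theorem VHS.FamUp_mul (hΩ : Ωᶜ.Finite) {γ : Form ι} (h : V.SmF γ) (h' : V.L2 γ) {s : ℂ → ℝ}
    (hs : ContDiff ℝ ∞ s) (h1 : ∀ t, 0 ≤ s t ∧ s t ≤ 1) :
    V.SmF (fun x => (s x : ℂ) • γ x) ∧ V.L2 (fun x => (s x : ℂ) • γ x) ∧
      ∫ x, V.nrm (fun x => (s x : ℂ) • γ x) x ≤ ∫ x, V.nrm γ x := by
  have ae : ∀ᵐ x : ℂ, x ∈ Ω := hΩ.measure_zero volume
  have c : ∀ x ∈ Ω, Sm (fun x => (s x : ℂ)) x := fun x _ => (ofRealCLM.contDiff.comp hs).contDiffAt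
  have sm : V.SmF (fun x => (s x : ℂ) • γ x) := ⟨h.1.fmul c, h.2.fmul c⟩
  have le : ∀ x ∈ Ω, V.nrm (fun x => (s x : ℂ) • γ x) x ≤ V.nrm γ x := fun x hx => by
    have n := V.nrm_nonneg γ x hx
    simp only [VHS.nrm, qf_smul_left, qf_smul_right, conj_ofReal, re_ofReal_mul] at n ⊢
    nlinarith [h1 x, mul_nonneg (h1 x).1 n, mul_nonneg (sub_nonneg.2 (h1 x).2) n,
      mul_nonneg (sub_nonneg.2 (h1 x).2) (mul_nonneg (h1 x).1 n)]
  exact ⟨sm, VHS.l2_of_le hΩ sm h' le,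
    integral_mono_of_nonneg (ae.mono (V.nrm_nonneg _)) h' (ae.mono le)⟩

end One

/-- pairings with a fixed test form are complex differentiable at the centre -/
theorem Ctx.pair_diff [CompleteSpace A] [FiniteDimensional ℂ E] {S : Set A} {n : ℕ}
    {F : A → FD ι n} {κW : A → A → GL (Fin n) ℤ} (h : Ctx V S F κW) {φ : E → A} {a0 : E}
    (hφ : Plot S φ a0) {K : Set ℂ} (M : Fam V φ a0 K) (hK : IsCompact K)
    (hKe : ∀ j, ∀ x ∈ fb Ω (φ a0), x ∉ K → (F (φ a0)).e j x = 0) {v : E → Fin n → ℂ}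
    (hv : AnalyticAt ℂ (fun a => cx (κW (φ a0) (φ a)) *ᵥ v a) a0)
    (ht : ∀ᶠ a in 𝓝 a0, (F (φ a)).π (V.fib (φ a)) (w + 1 : ℕ) *ᵥ v a = v a) {γ : Form ι}
    (s : (V.fib (φ a0)).SmF γ) (hγ : (V.fib (φ a0)).L2 γ) :
    DifferentiableAt ℂ (fun a => (V.fib (φ a0)).Q γ (M.pb a ((F (φ a)).hf (v a)))) a0 :=
  h.FamUp_diff hφ M hK hKe hv ht s hγ

/-- pairings with a test form supported in the fixed set are differentiable on a ball -/
theorem Ctx.FamUp_on [CompleteSpace A] [FiniteDimensional ℂ E] {S : Set A} {n : ℕ}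
    {F : A → FD ι n} {κW : A → A → GL (Fin n) ℤ} (h : Ctx V S F κW) {φ : E → A} {a0 : E}
    {K : Set ℂ} (M : Fam V φ a0 K) (hK : IsCompact K) (hKΩ : K ⊆ fb Ω (φ a0)) {a1 : E}
    (b1 : a1 ∈ ball a0 (M.δ / 2)) (hφ : Plot S φ a1) {v : E → Fin n → ℂ}
    (hv : AnalyticAt ℂ (fun a => cx (κW (φ a1) (φ a)) *ᵥ v a) a1)
    (ht : ∀ᶠ a in 𝓝 a1, (F (φ a)).π (V.fib (φ a)) (w + 1 : ℕ) *ᵥ v a = v a) {γ : Form ι}
    (s : (V.fib (φ a0)).SmF γ) (hγ : (V.fib (φ a0)).L2 γ) (h0 : ∀ x, x ∉ K → γ x = 0) :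
    DifferentiableAt ℂ (fun a => (V.fib (φ a0)).Q γ (M.pb a ((F (φ a)).hf (v a)))) a1 := by
  have b4 := M.half b1
  obtain ⟨K', N, l1, -, l3, l4, -, -⟩ :=
    h.kw.fam h.roots h.fib hφ hK fun x hx => M.mem_fb b4 hx (hKΩ hx)
  obtain ⟨r, hr, hb⟩ := Metric.eventually_nhds_iff_ball.1
    ((eventually_of_mem (isOpen_ball.mem_nhds b4) fun _ h => h).and
      (eventually_of_mem (ball_mem_nhds a1 N.pos) fun _ h => h))
  have key : ∀ x ∈ K, ∀ a ∈ ball a1 r, M.m a x = M.m a1 x * N.m a x := fun x x1 => by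
    have x2 := M.mem_fb b4 x1 (hKΩ x1)
    refine IsFr.uniq (convex_ball a1 r).isPreconnected
      ((M.isFr_fix x1 (hKΩ x1)).mono fun a ha => (hb a ha).1)
      (((N.isFr_fix (l1 x1) x2).mono fun a ha => (hb a ha).2).mul _) (mem_ball_self hr) ?_
    rw [N.m0 x x2, mul_one]
  refine (h.pair_diff hφ N l3 l4 hv ht (γ := M.pf a1 γ) ((M.mor_inv b4).smF s)
    (M.pf_l2 b1 s hγ)).congr_of_eventuallyEq ?_
  filter_upwards [ball_mem_nhds a1 hr] with a ha
  rw [← M.Q_pb b4]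
  simp only [VHS.Q]
  congr 1
  funext x
  rw [M.pb_pf b4]
  by_cases x1 : x ∈ K
  · rw [M.pb_fix (hb a ha).1 _ x1, M.pb_fix b4 _ x1, N.pb_fix (hb a ha).2 _ (l1 x1),
      key x x1 a ha, mulVec_mulVec, two_mul_two, cx_mul]
  · rw [h0 x x1, qf_zero_left, qf_zero_left]

theorem Ctx.fam_up [CompleteSpace A] [FiniteDimensional ℂ E] {S : Set A} {n : ℕ} {F : A → FD ι n}
    {κW : A → A → GL (Fin n) ℤ} (h : Ctx V S F κW)
    (hc : ∀ (φ : E → A) (a0 : E), Plot S φ a0 → ∀ i j, ContinuousAt (fun a =>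
      (cx (κW (φ a0) (φ a)) * weyP (w + 1) ((F (φ a)).π (V.fib (φ a))) *
        cx (κW (φ a0) (φ a))⁻¹) i j) a0)
    {φ : E → A} {O : Set E} {v : E → Fin n → ℂ} (hO : IsOpen O) (hφ : ∀ a ∈ O, Plot S φ a)
    (hv : ∀ a ∈ O, AnalyticAt ℂ (fun a' => cx (κW (φ a) (φ a')) *ᵥ v a') a ∧
      (F (φ a)).π (V.fib (φ a)) (w + 1 : ℕ) *ᵥ v a = v a) :
    V.HolTop (fun p : E × ℂ => (φ p.1, p.2)) (fun p => f1 ((F (φ p.1)).hf (v p.1)) p.2)
      {p | p.1 ∈ O ∧ (φ p.1, p.2) ∈ Ω} := by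
  rintro ⟨a0, x0⟩ ⟨h0, hx0⟩
  have hs := (hφ a0 h0).2.self_of_nhds
  have hΩ := h.roots.fin hs
  have F0 := h.fib _ hs
  refine ⟨?_, ((F0.up_top hΩ (hv a0 h0).2).1 x0 hx0).2⟩
  obtain ⟨r, r0, r1, r2, hγ⟩ := (V.fib (φ a0)).FamUp_test (isClosed_compl_iff.1 hΩ.isClosed) hx0
  obtain ⟨K, M, k1, k2, k3, k4, -, -⟩ :=
    h.kw.fam h.roots h.fib (hφ a0 h0) (isCompact_closedBall x0 (3 * r)) r1
  obtain ⟨C, hC⟩ := h.FamUp_ev (hφ a0 h0) M k3 k4 v
  obtain ⟨B, B0, hB⟩ := F0.nrm_bdd hΩ (hv a0 h0).1.continuousAt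
  obtain ⟨ρ, ρ0, hρ⟩ := Metric.eventually_nhds_iff_ball.1
    (hC.and (hB.and (Eventually.and (hO.mem_nhds h0) (ball_mem_nhds a0 one_pos))))
  obtain ⟨s, s1, s2, s3, s4, s5⟩ := FamUp_wt r0
  have sK : ball x0 (2 * r) ⊆ K :=
    ((ball_subset_ball (by linarith)).trans ball_subset_closedBall).trans k1
  have an : ∀ u : ι → ℂ, AnalyticAt ℂ (fun p : E × ℂ => qf (V.ψ (φ a0, x0)) u
      (cx (V.κ (φ a0, x0) (φ a0, p.2)) *ᵥ (cx (M.m p.1 p.2) *ᵥ f1 ((F (φ p.1)).hf (v p.1)) p.2)))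
      (a0, x0) := fun u => by
    obtain ⟨γ, g1, g2, g3⟩ := hγ u
    have g4 := VHS.l2_of_cpt hΩ g1 ⟨_, r1, isCompact_closedBall _ _, fun x _ => g2 x⟩
    generalize hf : (fun p : E × ℂ => qf (V.ψ (φ a0, x0)) u (cx (V.κ (φ a0, x0) (φ a0, p.2)) *ᵥ
      (cx (M.m p.1 p.2) *ᵥ f1 ((F (φ p.1)).hf (v p.1)) p.2))) = f
    have d2 : ∀ a ∈ ball a0 ρ, DifferentiableOn ℂ (fun x => f (a, x)) (ball x0 (2 * r)) :=
      fun a ha x hx => by
      obtain ⟨⟨b1, b2, -⟩, -, b3, -⟩ := hρ a ha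
      have b := M.half b1
      have x1 := k2 (sK hx)
      have a1 := (((h.fib _ b2).up_top (M.fin a b) (hv a b3).2).1 x (M.mem_fb b (sK hx) x1)).1
      have a2 := FamUp_qf (V.ψ (φ a0, x0)) u (FamDn_mv
        (cx (V.κ (φ a0, x0) (φ a0, x) * M.m a x)) a1).differentiableAt
      refine (a2.congr_of_eventuallyEq ?_).differentiableWithinAt
      have t := r2 x hx
      rw [isOpen_ball.nhdsWithin_eq hx] at t
      filter_upwards [(M.mor b).tr x x1, t, isOpen_ball.mem_nhds hx] with y y1 y2 y3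
      rw [M.z_fix b (sK hx), M.z_fix b (sK y3)] at y1
      have y4 : V.κ (φ a0, x0) (φ a0, y) * M.m a y =
          V.κ (φ a0, x0) (φ a0, x) * M.m a x * (V.fib (φ a)).κ x y := by
        rw [mul_assoc, ← y1, ← mul_assoc]
        exact congrArg (· * M.m a y) y2
      simp only [← hf, mulVec_mulVec, ← cx_mul, y4, id]
    have mv : ∀ a ∈ ball a0 ρ, ∀ x ∈ ball x0 r, f (a, x) = -((∫ t, s t : ℝ) : ℂ)⁻¹ *
        (V.fib (φ a0)).Q (fun y => (s (y - x) : ℂ) • γ y) (M.pb a ((F (φ a)).hf (v a))) :=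
      fun a ha x hx => by
      have b := M.half (hρ a ha).1.1
      have sb : closedBall x r ⊆ ball x0 (2 * r) :=
        closedBall_subset_ball' (by linarith [mem_ball.1 hx])
      have e := FamUp_mean (s := fun t => (s t : ℂ)) ((d2 a ha).mono sb)
        (continuous_ofReal.comp s1.continuous) (fun t ht => by rw [s3 t ht, ofReal_zero])
        fun e t he => by rw [s4 e t he]
      have e2 : (V.fib (φ a0)).Q (fun y => (s (y - x) : ℂ) • γ y) (M.pb a ((F (φ a)).hf (v a))) =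
          -∫ t, (s (t - x) : ℂ) * f (a, t) := by
        rw [VHS.Q, ← integral_neg]
        congr 1
        funext y
        rw [qf_smul_left, conj_ofReal]
        by_cases hy : y ∈ closedBall x r
        · rw [g3 y (sb hy), M.pb_fix b _ (sK (sb hy)), two_mulVec, ← hf, mul_neg]
          rfl
        · rw [s3 _ (le_of_not_ge fun h => hy (mem_closedBall_iff_norm.2 h)), ofReal_zero, zero_mul,
            zero_mul, neg_zero]
      have c0 : ((∫ t, s t : ℝ) : ℂ) ≠ 0 := ofReal_ne_zero.2 s5.ne'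
      rw [e2, e, integral_complex_ofReal, neg_mul_neg, inv_mul_cancel_left₀ c0]
    have tf := fun x : ℂ => VHS.FamUp_mul hΩ g1 g4 (s := fun y => s (y - x))
      (s1.comp (contDiff_id.sub contDiff_const)) fun t => s2 _
    have m1 : ball a0 (min ρ r) ⊆ ball a0 ρ := ball_subset_ball (min_le_left _ _)
    have m2 : ball x0 (min ρ r) ⊆ ball x0 r := ball_subset_ball (min_le_right _ _)
    refine analyticAt_of_sep (r := min ρ r) (C := ‖-((∫ t, s t : ℝ) : ℂ)⁻¹‖ *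
      √((∫ x, (V.fib (φ a0)).nrm γ x) * (2 * B + 2 * (C ^ 2 * B)))) (lt_min ρ0 r0)
      (fun x hx => DifferentiableOn.congr (fun a ha => ?_) fun a ha => mv a (m1 ha) x (m2 hx))
      (fun a ha => (d2 a (m1 ha)).mono (m2.trans (ball_subset_ball (by linarith))))
      fun a ha x hx => ?_
    · obtain ⟨⟨b1, -⟩, -, b3, -⟩ := hρ a (m1 ha)
      exact ((h.FamUp_on M k3 k2 b1 (hφ a b3) (hv a b3).1
        (eventually_of_mem (hO.mem_nhds b3) fun a ha => (hv a ha).2) (tf x).1 (tf x).2.1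
        fun y hy => by rw [g2 y fun h => hy (k1 h), smul_zero]).const_mul _).differentiableWithinAt
    · obtain ⟨⟨b1, -, b3, -, b5⟩, b6, -, b7⟩ := hρ a (m1 ha)
      rw [mv a (m1 ha) x (m2 hx), norm_mul]
      refine mul_le_mul_of_nonneg_left (Real.le_sqrt_of_sq_le ?_) (norm_nonneg _)
      have g := (F0.harm_hf hΩ (cx (κW (φ a0) (φ a)) *ᵥ v a)).1
      have n1 := VHS.FamUp_add hΩ g.2 (b3.sub hΩ g).2
      have n2 : (C * ‖a - a0‖) ^ 2 ≤ C ^ 2 := by
        rw [mul_pow]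
        exact mul_le_of_le_one_right (sq_nonneg _)
          (pow_le_one₀ (norm_nonneg _) (mem_ball_iff_norm.1 b7).le)
      have n3 := b5.trans ((mul_le_mul_of_nonneg_left b6 (sq_nonneg _)).trans
        (mul_le_mul_of_nonneg_right n2 B0))
      refine (VHS.Q_le hΩ (tf x).1 (tf x).2.1 b3.1.1 b3.2).trans (mul_le_mul (tf x).2.2
        (by linarith) (integral_nonneg_of_ae (M.FamDn_ae.mono (VHS.nrm_nonneg _))) ?_)
      exact integral_nonneg_of_ae (M.FamDn_ae.mono (VHS.nrm_nonneg _))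
  refine (FamDn_mv (V.ψ (φ a0, x0))⁻¹
    (analyticAt_pi_iff.2 fun i => an (Pi.single i 1))).congr ?_
  have e1 : ∀ᶠ p : E × ℂ in 𝓝 (a0, x0), p ∈ ball a0 M.δ ×ˢ ball x0 (2 * r) :=
    (isOpen_ball.prod isOpen_ball).mem_nhds ⟨M.cen, mem_ball_self (by linarith)⟩
  filter_upwards [M.tr a0 M.cen x0 hx0, e1] with p p1 p2
  rw [M.m0 x0 hx0, one_mul, M.z0, M.z_fix p2.1 (sK p2.2)] at p1
  have e2 : ∀ y : ι → ℂ, (fun i => qf (V.ψ (φ a0, x0)) (Pi.single i 1) y) = V.ψ (φ a0, x0) *ᵥ y :=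
    fun y => funext fun i => by simp [qf]
  rw [e2, mulVec_mulVec, Matrix.nonsing_inv_mul _ (V.phs _ hx0).unit, one_mulVec, mulVec_mulVec,
    ← cx_mul, p1]

end

end Pool.Agent.Lib.MP_5c318e_ag.V
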