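import Pool.Agent.Lib.MP_5c318e_ag.V.KWD
import Pool.Agent.Lib.MP_5c318e_ag.V.FamDn
import Pool.Agent.Lib.MP_5c318e_ag.V.FamUp
import Pool.Agent.Lib.MP_5c318e_ag.H.Reg

/-! Integration over one variable. -/

set_option autoImplicit false

namespace Pool.Agent.Lib.MP_5c318e_ag.V

open Matrix Filter Topology MeasureTheory Complex Metric
open scoped ComplexOrder ContDiff ComplexConjugate

noncomputable section

variable {ι : Type} [Fintype ι] [DecidableEq ι] {w : ℕ}
  {A : Type} [NormedAddCommGroup A] [NormedSpace ℂ A] {Ω : Set (A × ℂ)}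
  {V : VHS (A × ℂ) Ω ι w}

namespace Ctx

variable {S : Set A} {n : ℕ} {F : A → FD ι n} {κW : A → A → GL (Fin n) ℤ}

theorem ax_fin [CompleteSpace A] (h : Ctx V S F κW) {E : Type} [NormedAddCommGroup E]
    [NormedSpace ℂ E] [FiniteDimensional ℂ E] {φ : E → A} {a0 : E} (hφ : Plot S φ a0) :
    Ax (w + 1) (fun p a => cx (κW (φ a0) (φ a)) * (F (φ a)).π (V.fib (φ a)) p *
      cx (κW (φ a0) (φ a))⁻¹) a0 := by
  have hs := hφ.2.self_of_nhds
  have t : Tendsto φ (𝓝 a0) (𝓝[S] φ a0) := tendsto_nhdsWithin_iff.2 ⟨hφ.1.continuousAt, hφ.2⟩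
  obtain ⟨O, hO, o1, o2⟩ := _root_.eventually_nhds_iff.1
    ((hφ.1.eventually_analyticAt.and (eventually_eventually_nhds.2 hφ.2)).and
      ((t.eventually (h.flat _ hs)).and (t.eventually (h.germ.coc _ hs))))
  have key : ∀ a ∈ O, ∃ (g g' : Matrix (Fin n) (Fin n) ℂ) (π : ℤ → E → Matrix (Fin n) (Fin n) ℂ),
      g' * g = 1 ∧ (∀ p, DfM (π p) a) ∧
      (∀ ξ, derM (-I) ξ (gr (wt (w + 1)) π) a * gr (wt (w + 1)) π a -
        gr (wt (w + 1)) π a * derM (-I) ξ (gr (wt (w + 1)) π) a =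
          derM (-I) ξ (gr (wt (w + 1)) π) a) ∧
      ∀ᶠ b in 𝓝 a, ∀ p, cx (κW (φ a0) (φ b)) * (F (φ b)).π (V.fib (φ b)) p *
        cx (κW (φ a0) (φ b))⁻¹ = g * π p b * g' := fun a ha => by
    obtain ⟨hp, -, h2⟩ := hO a ha
    obtain ⟨d1, d2⟩ := h.diff (a0 := a) hp _ fun _ _ => rfl
    refine ⟨_, _, _, cx_inv_mul (κW (φ a0) (φ a)), d1, d2, ?_⟩
    filter_upwards [(tendsto_nhdsWithin_iff.2 ⟨hp.1.continuousAt, hp.2⟩).eventually h2] with b e p
    rw [e, _root_.mul_inv_rev, cx_mul, cx_mul]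
    simp only [Matrix.mul_assoc]
  refine upgrade o1 (Q := (F (φ a0)).ψ (V.fib (φ a0))) (fun a ha => ?_) (fun a ha p => ?_)
    (fun a ha ξ => ?_) a0 o2
  · obtain ⟨hp, h1, -⟩ := hO a ha
    have hs' := hp.2.self_of_nhds
    have := ((h.fib _ hs').phs (h.roots.fin hs')).gauge (cx_mul_inv (κW (φ a0) (φ a)))
    rwa [h1, ← Matrix.mul_assoc, ← Matrix.mul_assoc, ← conjTranspose_mul, Matrix.mul_assoc,
      cx_mul_inv, conjTranspose_one, Matrix.one_mul, Matrix.mul_one] at this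
  · obtain ⟨g, g', π, -, d1, -, e⟩ := key a ha
    exact (((dfM_const g).mul (d1 p)).mul (dfM_const g')).congr (e.mono fun _ hb => hb p)
  · obtain ⟨g, g', π, e0, d1, d2, e⟩ := key a ha
    have e1 : (gr (wt (w + 1)) fun p a => cx (κW (φ a0) (φ a)) * (F (φ a)).π (V.fib (φ a)) p *
        cx (κW (φ a0) (φ a))⁻¹) =ᶠ[𝓝 a] fun b => g * gr (wt (w + 1)) π b * g' :=
      e.mono fun b hb => by
        simp only [gr, hb, Finset.mul_sum, Finset.sum_mul, Matrix.mul_smul, Matrix.smul_mul]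
    have d3 : DfM (gr (wt (w + 1)) π) a := fun i j => by
      simp only [gr, Matrix.sum_apply, Matrix.smul_apply, smul_eq_mul]
      exact DifferentiableAt.fun_sum fun p _ => (d1 p i j).const_mul _
    rw [derM_congr e1, e1.self_of_nhds, ((dfM_const g).mul d3).derM_mul (dfM_const g'),
      (dfM_const g).derM_mul d3, derM_const, derM_const, Matrix.zero_mul, Matrix.mul_zero,
      zero_add, add_zero]
    have e2 : ∀ X Z : Matrix (Fin n) (Fin n) ℂ, g * X * g' * (g * Z * g') = g * (X * Z) * g' :=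
      fun X Z => by
        rw [Matrix.mul_assoc (g * X), ← Matrix.mul_assoc g', ← Matrix.mul_assoc g', e0,
          Matrix.one_mul, ← Matrix.mul_assoc, Matrix.mul_assoc g]
    rw [e2, e2, ← Matrix.sub_mul, ← Matrix.mul_sub, d2 ξ]

/-- the variation on the base -/
def vhs [CompleteSpace A] (h : Ctx V S F κW) : VHS A S (Fin n) (w + 1) where
  κ := κW
  ψ := fun s => (F s).ψ (V.fib s)
  π := fun p s => (F s).π (V.fib s) p
  germ := h.germ
  flat := h.flat
  phs := fun s hs => (h.fib s hs).phs (h.roots.fin hs)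
  ax := fun E _ _ φ a hφ => by
    have hs := hφ.2.self_of_nhds
    obtain ⟨m, σ, p, h1, h2, -, h4⟩ := h.ch _ hs
    have t : Tendsto φ (𝓝 a) (𝓝[S] φ a) := tendsto_nhdsWithin_iff.2 ⟨hφ.1.continuousAt, hφ.2⟩
    refine ((h.ax_fin h1).comp (f := fun a => p (φ a)) (h2.comp hφ.1)).congr ?_
    filter_upwards [t.eventually h4] with b e q
    rw [e, h4.self_of_nhdsWithin hs]

end Ctx

/-- the coefficient of `dx` of the harmonic form with given coordinates -/
def FD.up {n : ℕ} (F : FD ι n) : (Fin n → ℂ) →ₗ[ℂ] ℂ → ι → ℂ where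
  toFun := fun v => f1 (F.hf v)
  map_add' := fun v v' => by
    funext x i
    simp [f1, FD.hf, add_mul, Finset.sum_add_distrib]
  map_smul' := fun c v => by
    funext x i
    simp [f1, FD.hf, Finset.mul_sum, mul_assoc]

theorem step [CompleteSpace A] (V : VHS (A × ℂ) Ω ι w) {S : Set A} (hc : Charted S)
    (hS : IsPreconnected S) (hR : Roots S Ω) : ∃ n, Nonempty (Step V S n) := by
  obtain ⟨n, F, hF⟩ := exists_fibs V hc hS hR
  obtain ⟨κW, h⟩ := exists_ctx V hc hR hF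
  refine ⟨n, ⟨{
    W := h.vhs
    up := fun s => (F s).up
    dn := fun s u => (F s).cls (V.fib s) (dxF u)
    ed := fun ε s => (F s).op (V.fib s) fun x => two (ε (s, x))
    up_top := fun s hs v hv => ?_
    up_iso := fun s hs v v' hv hv' => ?_
    dn_top := fun s hs u hu hi => (hF s hs).dn_top (hR.fin hs) hu hi
    ed_end := fun ε hε => ⟨h.ed_flat hε, fun s hs p => (hF s hs).ed_comm (hR.fin hs) (hε.fib s) p,
      fun s hs => (hF s hs).ed_adj (hR.fin hs) (hε.fib s)⟩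
    ed_up := fun ε hε s hs v x hx => ?_
    ed_idem := fun ε hε hi s hs => (hF s hs).ed_idem (hR.fin hs) (hε.fib s) fun x hx => hi _ hx
    fam_dn := fun E _ _ _ _ _ μ _ φ O u hO hφ hu hi => ?_
    fam_up := fun E _ _ _ φ O v hO hφ hv => h.fam_up (fun φ a0 hφ i j => ?_) hO hφ hv }⟩⟩
  · obtain ⟨a, -, b, c⟩ := (hF s hs).up_top (hR.fin hs) hv
    exact ⟨a, b, c⟩
  · refine ((hF s hs).qf_H (hR.fin hs) v v').trans (integral_congr_ae ?_)
    have ae : ∀ᵐ x : ℂ, x ∈ fb Ω s := by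
      rw [ae_iff]
      exact (hR.fin hs).measure_zero _
    filter_upwards [ae] with x hx
    rw [((hF s hs).up_top (hR.fin hs) hv).2.1 x hx, ((hF s hs).up_top (hR.fin hs) hv').2.1 x hx,
      qf_two]
    exact (congrArg _ (qf_zero_left _ _)).trans (add_zero _)
  · funext i
    have := congrFun ((hF s hs).ed_hf (hR.fin hs) (hε.fib s) v x hx) (Sum.inl i)
    rw [two_mulVec] at this
    exact this
  · have i1 := Ctx.fam_int hR μ hO hφ hu hi
    refine ⟨fun a ha => ⟨h.fam_dn hO hφ hu i1 a ha, ?_⟩, i1⟩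
    have hs := (hφ a ha).2.self_of_nhds
    refine ((hF _ hs).dn_top (hR.fin hs) (fun x hx => ⟨?_, (hu (a, x) ⟨ha, hx⟩).2⟩) (i1 a ha)).1
    exact (hu (a, x) ⟨ha, hx⟩).1.comp (f := fun x => (a, x)) (analyticAt_const.prod analyticAt_id)
  · have s := SmM.sum (wt (w + 1)) fun p _ => ((h.ax_fin hφ).1 p).csmul ((-1 : ℂ) ^ p)
    refine (s i j).continuousAt.congr (Eventually.of_forall fun a => ?_)
    simp only [weyP, Finset.mul_sum, Finset.sum_mul, Matrix.mul_smul, Matrix.smul_mul]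

end

end Pool.Agent.Lib.MP_5c318e_ag.V
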