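import Pool.Agent.Lib.MP_5c318e_ag.V.SDefs

/-! Existence of holomorphic motions. -/

set_option autoImplicit false

namespace Pool.Agent.Lib.MP_5c318e_ag.V

open Matrix Filter Topology MeasureTheory Complex Metric
open scoped ComplexOrder ContDiff ComplexConjugate

noncomputable section

variable {A : Type} [NormedAddCommGroup A] [NormedSpace ℂ A]
  {E : Type} [NormedAddCommGroup E] [NormedSpace ℂ E]

theorem Roots.fin {S : Set A} {Ω : Set (A × ℂ)} (h : Roots S Ω) {s : A} (hs : s ∈ S) :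
    (fb Ω s)ᶜ.Finite := by
  obtain ⟨n, ρ, -, -, he⟩ := h s hs
  have h0 := he.self_of_nhdsWithin hs
  refine (Set.finite_range fun i => ρ i s).subset fun x hx => ?_
  by_contra hn
  exact hx ((h0 x).2 fun i hi => hn ⟨i, hi.symm⟩)

theorem mot_tendsto {S : Set A} {φ : E → A} {a : E} (h : Plot S φ a) :
    Tendsto φ (𝓝 a) (𝓝[S] (φ a)) :=
  tendsto_nhdsWithin_iff.2 ⟨h.1.continuousAt, h.2⟩

theorem Roots.isOpen {S : Set A} {Ω : Set (A × ℂ)} (h : Roots S Ω) {φ : E → A} {O : Set E}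
    (hO : IsOpen O) (hφ : ∀ a ∈ O, Plot S φ a) :
    IsOpen {p : E × ℂ | p.1 ∈ O ∧ (φ p.1, p.2) ∈ Ω} := by
  refine isOpen_iff_mem_nhds.2 fun p hp => ?_
  obtain ⟨n, ρ, hρ, -, he⟩ := h _ (hφ _ hp.1).2.self_of_nhds
  have h1 := (mot_tendsto (hφ _ hp.1)).eventually he
  have h2 := (h1.self_of_nhds p.2).1 hp.2
  have h3 : ∀ᶠ q : E × ℂ in 𝓝 p, ∀ i, q.2 - ρ i (φ q.1) ≠ 0 := by
    refine eventually_all.2 fun i => ContinuousAt.eventually_ne ?_ (sub_ne_zero.2 (h2 i))
    exact continuousAt_snd.sub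
      (((hρ i).continuousAt.comp (hφ _ hp.1).1.continuousAt).comp continuousAt_fst)
  filter_upwards [continuousAt_fst.eventually h1, h3,
    continuousAt_fst.eventually (hO.mem_nhds hp.1)] with q h4 h5 h6
  exact ⟨h6, (h4 q.2).2 fun i => sub_ne_zero.1 (h5 i)⟩

/-- a small perturbation of the identity has a smooth inverse -/
theorem mot_inv {g : ℂ → ℂ} (hg : ContDiff ℝ ∞ g) (hb : ∀ x, ‖fderiv ℝ g x‖ ≤ 1 / 4) :
    ∃ k : ℂ → ℂ, ContDiff ℝ ∞ k ∧ (∀ x, k (x + g x) = x) ∧ ∀ x, k x + g (k x) = x := by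
  have hd : Differentiable ℝ g := hg.differentiable (by simp)
  have hl : LipschitzWith (1 / 4 : NNReal) g :=
    lipschitzWith_of_nnnorm_fderiv_le hd fun x => by
      rw [← NNReal.coe_le_coe]; simpa using hb x
  have ha : ApproximatesLinearOn (fun x => x + g x)
      ((ContinuousLinearEquiv.refl ℝ ℂ : ℂ ≃L[ℝ] ℂ) : ℂ →L[ℝ] ℂ) Set.univ (1 / 4) := by
    rw [ApproximatesLinearOn.approximatesLinearOn_iff_lipschitzOnWith]
    have : ((fun x => x + g x) - ⇑((ContinuousLinearEquiv.refl ℝ ℂ : ℂ ≃L[ℝ] ℂ) : ℂ →L[ℝ] ℂ)) = g := by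
      ext x; simp
    rw [this]
    exact hl.lipschitzOnWith
  have hc : (1 / 4 : NNReal) <
      ‖((ContinuousLinearEquiv.refl ℝ ℂ).symm : ℂ →L[ℝ] ℂ)‖₊⁻¹ := by
    rw [ContinuousLinearEquiv.refl_symm, ContinuousLinearEquiv.coe_refl,
      ContinuousLinearMap.nnnorm_id]
    norm_num
  let F := ha.toHomeomorph _ (Or.inr hc)
  have hF : ∀ x, F x = x + g x := fun _ => rfl
  have hn : ∀ x, ‖-fderiv ℝ g x‖ < 1 := fun x => by rw [norm_neg]; linarith [hb x]
  refine ⟨F.symm, ?_, fun x => ?_, fun x => ?_⟩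
  · refine F.contDiff_symm (f₀' := fun x => ContinuousLinearEquiv.unitsEquiv ℝ ℂ
      (Units.oneSub (-fderiv ℝ g x) (hn x))) (fun x => ?_) (contDiff_id.add hg)
    have h1 : HasFDerivAt (fun x => x + g x) (ContinuousLinearMap.id ℝ ℂ + fderiv ℝ g x) x :=
      (hasFDerivAt_id x).add (hd x).hasFDerivAt
    refine h1.congr_fderiv ?_
    ext y
    simp [ContinuousLinearEquiv.unitsEquiv_apply]
  · rw [← hF, F.symm_apply_apply]
  · rw [← hF, F.apply_symm_apply]

theorem mot_norm_der_le {c : ℂ} (hc : ‖c‖ = 1) (g : ℂ → ℂ) (x : ℂ) :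
    ‖der c 1 g x‖ ≤ ‖fderiv ℝ g x‖ := by
  have h1 := (fderiv ℝ g x).le_opNorm 1
  have h2 := (fderiv ℝ g x).le_opNorm (I • (1 : ℂ))
  have h3 := norm_add_le (fderiv ℝ g x 1) (c * fderiv ℝ g x (I • (1 : ℂ)))
  rw [norm_mul, hc] at h3
  rw [norm_smul, norm_I, norm_one] at h2
  rw [norm_one] at h1
  rw [der, norm_div, Complex.norm_two]
  linarith

theorem mot_der_id (c : ℂ) (x : ℂ) : der c 1 (fun y : ℂ => y) x = (1 + c * I) / 2 := by
  simp [der]

/-- cut off functions at finitely many points -/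
theorem mot_bumps {n : ℕ} {r : Fin n → ℂ} (hr : Function.Injective r) {K : Set ℂ}
    (hK : IsCompact K) (hrK : ∀ i, r i ∉ K) :
    ∃ (χ : Fin n → ℂ → ℂ) (C : ℝ), 0 < C ∧ (∀ i, ContDiff ℝ ∞ (χ i)) ∧
      (∀ i x, ‖fderiv ℝ (χ i) x‖ ≤ C) ∧ (∀ i, χ i (r i) = 1) ∧ (∀ i j, i ≠ j → χ i (r j) = 0) ∧
      ∀ x ∈ K, ∀ᶠ x' in 𝓝 x, ∀ i, χ i x' = 0 := by
  have h1 : ∀ i, ∃ ε > 0, ∀ x, (x ∈ K ∨ ∃ j, j ≠ i ∧ x = r j) → ε < dist x (r i) := fun i => by
    have hc : IsClosed (K ∪ r '' {j | j ≠ i}) :=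
      hK.isClosed.union ((Set.toFinite _).image r).isClosed
    have hm : r i ∈ (K ∪ r '' {j | j ≠ i})ᶜ := by
      rintro (h | ⟨j, hj, h⟩)
      · exact hrK i h
      · exact hj (hr h)
    obtain ⟨ε, hε, hb⟩ := nhds_basis_closedBall.mem_iff.1 (hc.isOpen_compl.mem_nhds hm)
    refine ⟨ε, hε, fun x hx => not_le.1 fun hle => hb (mem_closedBall.2 hle) ?_⟩
    rcases hx with h | ⟨j, hj, rfl⟩
    · exact Or.inl h
    · exact Or.inr ⟨j, hj, rfl⟩
  choose ε hε hd using h1
  let b : ∀ i, ContDiffBump (r i) := fun i => ⟨ε i / 2, ε i, by linarith [hε i], by linarith [hε i]⟩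
  have hs : ∀ i, ContDiff ℝ ∞ fun x => ((b i x : ℝ) : ℂ) := fun i =>
    ofRealCLM.contDiff.comp (b i).contDiff
  have hbd : ∀ i, ∃ C, ∀ x, ‖fderiv ℝ (fun x => ((b i x : ℝ) : ℂ)) x‖ ≤ C := fun i =>
    ((hs i).continuous_fderiv (by simp)).bounded_above_of_compact_support
      (((b i).hasCompactSupport.comp_left (g := fun t : ℝ => (t : ℂ)) (by simp)).fderiv ℝ)
  choose C hC using hbd
  refine ⟨fun i x => ((b i x : ℝ) : ℂ), ∑ i, |C i| + 1, by positivity, hs, fun i x => ?_,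
    fun i => ?_, fun i j hij => ?_, fun x hx => eventually_all.2 fun i => ?_⟩
  · have := Finset.single_le_sum (f := fun i => |C i|) (fun _ _ => abs_nonneg _) (Finset.mem_univ i)
    linarith [hC i x, le_abs_self (C i)]
  · beta_reduce
    rw [(b i).one_of_mem_closedBall (mem_closedBall_self (b i).rIn_pos.le), ofReal_one]
  · beta_reduce
    rw [(b i).zero_of_le_dist (hd i _ (Or.inr ⟨j, hij.symm, rfl⟩)).le, ofReal_zero]
  · have hc : ContinuousAt (fun x' => dist x' (r i)) x := by fun_prop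
    filter_upwards [hc.eventually (lt_mem_nhds (hd i x (Or.inl hx)))] with x' hx'
    rw [(b i).zero_of_le_dist hx'.le, ofReal_zero]

theorem exists_mot [CompleteSpace A] {S : Set A} {Ω : Set (A × ℂ)} (h : Roots S Ω) {φ : E → A}
    {a0 : E} (hφ : Plot S φ a0) {K : Set ℂ} (hK : IsCompact K) (hKΩ : K ⊆ fb Ω (φ a0)) {r : ℝ}
    (hr : 0 < r) : ∃ M : Mot Ω φ a0 K, M.δ ≤ r ∧ ∀ a ∈ ball a0 M.δ, φ a ∈ S := by
  obtain ⟨n, ρ, hρ, hinj, he⟩ := h _ hφ.2.self_of_nhds
  have h1 := (mot_tendsto hφ).eventually he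
  have h10 := h1.self_of_nhds
  obtain ⟨χ, C, hC, hχ, hχb, hχ1, hχ0, hχK⟩ := mot_bumps hinj hK
    fun i hi => (h10 _).1 (hKΩ hi) i rfl
  let d : Fin n → E → ℂ := fun i a => ρ i (φ a) - ρ i (φ a0)
  have hda : ∀ i, AnalyticAt ℂ (d i) a0 := fun i => ((hρ i).comp hφ.1).sub analyticAt_const
  have h2 : ∀ᶠ a in 𝓝 a0, ∑ i, ‖d i a‖ * C < 1 / 4 := by
    have hc : ContinuousAt (fun a => ∑ i, ‖d i a‖ * C) a0 :=
      tendsto_finsetSum _ fun i _ => (hda i).continuousAt.norm.mul continuousAt_const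
    exact hc.eventually (gt_mem_nhds (by simp [d]))
  have h3 := (hφ.1.eventually_analyticAt.and hφ.2.eventually_nhds).and
    ((eventually_all.2 fun i => (hda i).eventually_analyticAt).and (h1.and h2))
  obtain ⟨δ0, hδ0, hall⟩ := Metric.eventually_nhds_iff_ball.1 h3
  have hsub : ball a0 (min δ0 r) ⊆ ball a0 δ0 := ball_subset_ball (min_le_left _ _)
  let g : E → ℂ → ℂ := fun a x => ∑ i, d i a * χ i x
  have hχd : ∀ i x, DifferentiableAt ℝ (χ i) x := fun i x => (hχ i).differentiable (by simp) x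
  have hg : ∀ a, ContDiff ℝ ∞ (g a) := fun a =>
    ContDiff.sum fun i _ => contDiff_const.mul (hχ i)
  have hgd : ∀ a x, DifferentiableAt ℝ (g a) x := fun a x => (hg a).differentiable (by simp) x
  have hgb : ∀ a ∈ ball a0 δ0, ∀ x, ‖fderiv ℝ (g a) x‖ ≤ 1 / 4 := fun a ha x => by
    have e : fderiv ℝ (g a) x = ∑ i, d i a • fderiv ℝ (χ i) x :=
      (HasFDerivAt.fun_sum fun i _ => (hχd i x).hasFDerivAt.const_mul (d i a)).fderiv
    rw [e]
    refine (norm_sum_le _ _).trans (le_trans (Finset.sum_le_sum fun i _ => ?_)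
      (hall a ha).2.2.2.le)
    rw [norm_smul]
    exact mul_le_mul_of_nonneg_left (hχb i x) (norm_nonneg _)
  have hk : ∀ a ∈ ball a0 δ0, ∃ k : ℂ → ℂ, ContDiff ℝ ∞ k ∧ (∀ x, k (x + g a x) = x) ∧
      ∀ x, k x + g a (k x) = x := fun a ha => mot_inv (hg a) (hgb a ha)
  choose! k hks hkl hkr using hk
  have hder : ∀ c a x, der c 1 (fun x => x + g a x) x = (1 + c * I) / 2 + der c 1 (g a) x :=
    fun c a x => by rw [der_add differentiableAt_fun_id (hgd a x), mot_der_id]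
  have hder2 : ∀ c a x, der c 1 (g a) x = ∑ i, d i a * der c 1 (χ i) x := fun c a x => by
    rw [der_sum _ fun i _ => (hχd i x).const_mul (d i a)]
    exact Finset.sum_congr rfl fun i _ => der_const_mul _ (hχd i x)
  have hhol : ∀ (u : ℂ) (v : Fin n → ℂ),
      AnalyticOnNhd ℂ (fun a => u + ∑ i, d i a * v i) (ball a0 (min δ0 r)) := fun u v a ha =>
    analyticAt_const.add (Finset.analyticAt_fun_sum _ fun i _ =>
      ((hall a (hsub ha)).2.1 i).mul analyticAt_const)
  have hroot : ∀ a j, ρ j (φ a0) + g a (ρ j (φ a0)) = ρ j (φ a) := fun a j => by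
    have : g a (ρ j (φ a0)) = d j a := by
      simp only [g]
      rw [Finset.sum_eq_single j (fun i _ hi => by rw [hχ0 i j hi, mul_zero]) (by simp), hχ1,
        mul_one]
    rw [this]; simp [d]
  refine ⟨{ δ := min δ0 r
            z := fun a x => x + g a x
            zi := k
            pos := lt_min hδ0 hr
            an := fun a ha => (hall a (hsub ha)).1.1
            fin := fun a ha => h.fin (hall a (hsub ha)).1.2.self_of_nhds
            op := h.isOpen isOpen_ball fun a ha => (hall a (hsub ha)).1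
            z0 := fun x => by simp [g, d]
            li := fun a ha => hkl a (hsub ha)
            ri := fun a ha => hkr a (hsub ha)
            mem := fun a ha x => ?_
            smz := fun a ha x => ?_
            smi := fun a ha x => (hks a (hsub ha)).contDiffAt
            hol := fun x => hhol x fun i => χ i x
            hol1 := fun x => ?_
            hol2 := fun x => ?_
            small := fun a ha x => ?_
            fix := fun x hx => ?_ }, min_le_right _ _,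
    fun a ha => (hall a (hsub ha)).1.2.self_of_nhds⟩
  · rw [(hall a (hsub ha)).2.2.1, h10]
    refine forall_congr' fun i => not_congr ⟨fun e => ?_, fun e => ?_⟩
    · rw [← hkl a (hsub ha) x, e, ← hroot a i, hkl a (hsub ha)]
    · rw [e, hroot]
  · have hs : ContDiffAt ℝ ∞ (fun p : E × ℂ => p.2) (a, x) :=
      (contDiffAt_snd (𝕜 := ℂ)).restrict_scalars ℝ
    refine hs.add (ContDiffAt.sum fun i _ => ContDiffAt.mul ?_ ((hχ i).contDiffAt.comp _ hs))
    have : AnalyticAt ℂ (fun p : E × ℂ => d i p.1) (a, x) :=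
      AnalyticAt.comp (g := d i) (f := fun p : E × ℂ => p.1) ((hall a (hsub ha)).2.1 i)
        analyticAt_fst
    exact this.contDiffAt.restrict_scalars ℝ
  · simp only [hder, hder2]
    exact hhol _ _
  · simp only [hder, hder2]
    exact hhol _ _
  · have e1 : (1 + -I * I) / 2 = (1 : ℂ) := by rw [neg_mul, I_mul_I]; norm_num
    have e2 : (1 + I * I) / 2 = (0 : ℂ) := by rw [I_mul_I]; norm_num
    rw [hder, hder, e1, e2, add_sub_cancel_left, zero_add]
    linarith [mot_norm_der_le (c := -I) (by simp) (g a) x, mot_norm_der_le (c := I) (by simp) (g a) x,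
      hgb a (hsub ha) x]
  · filter_upwards [hχK x hx] with x' hx' a _
    simp [g, hx']

end

end Pool.Agent.Lib.MP_5c318e_ag.V
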