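import Mathlib

/-! Wirtinger derivatives of scalar and matrix valued functions on a complex normed space. -/

set_option autoImplicit false

namespace Pool.Agent.Lib.MP_5c318e_ag.V

open Complex Filter Topology Matrix
open scoped ContDiff ComplexConjugate

noncomputable section

variable {E : Type*} [NormedAddCommGroup E] [NormedSpace ℂ E]

/-- `der (-I) ξ = ∂_ξ`, `der I ξ = ∂̄_ξ`. -/
def der (c : ℂ) (ξ : E) (f : E → ℂ) (x : E) : ℂ :=
  (fderiv ℝ f x ξ + c * fderiv ℝ f x (I • ξ)) / 2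

/-- smooth near `x` -/
abbrev Sm (f : E → ℂ) (x : E) : Prop := ContDiffAt ℝ ∞ f x

variable {m n k : Type*}

/-- entrywise Wirtinger derivative -/
def derM (c : ℂ) (ξ : E) (f : E → Matrix m n ℂ) (x : E) : Matrix m n ℂ :=
  Matrix.of fun i j => der c ξ (fun y => f y i j) x

/-- entrywise smooth near `x` -/
def SmM (f : E → Matrix m n ℂ) (x : E) : Prop := ∀ i j, Sm (fun y => f y i j) x

/-- the Levi form of a real function -/
def lev (φ : E → ℝ) (x ξ : E) : ℝ :=
  (fderiv ℝ (fderiv ℝ φ) x ξ ξ + fderiv ℝ (fderiv ℝ φ) x (I • ξ) (I • ξ)) / 4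

section scalar

variable {c c' : ℂ} {ξ η x : E} {f g : E → ℂ}

theorem Sm.diff (hf : Sm f x) : DifferentiableAt ℝ f x := hf.differentiableAt (by simp)

theorem Sm.ev (hf : Sm f x) : ∀ᶠ y in 𝓝 x, ContDiffAt ℝ 2 f y :=
  (hf.of_le (m := 2) (by norm_cast)).eventually (by simp)

theorem Sm.ev_diff (hf : Sm f x) : ∀ᶠ y in 𝓝 x, DifferentiableAt ℝ f y :=
  hf.ev.mono fun _ h => h.differentiableAt (by simp)

theorem sm_pd (hf : Sm f x) (w : E) : Sm (fun y => fderiv ℝ f y w) x :=
  (hf.fderiv_right (m := ∞) (by norm_cast)).clm_apply contDiffAt_const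

theorem Sm.der (hf : Sm f x) (c : ℂ) (ξ : E) : Sm (der c ξ f) x :=
  ((sm_pd hf _).add (contDiffAt_const.mul (sm_pd hf _))).div_const 2

theorem der_congr (h : f =ᶠ[𝓝 x] g) : der c ξ f x = der c ξ g x := by
  rw [der, der, h.fderiv_eq]

theorem der_congr_ev (h : f =ᶠ[𝓝 x] g) : der c ξ f =ᶠ[𝓝 x] der c ξ g :=
  h.eventuallyEq_nhds.mono fun _ hy => der_congr hy

theorem der_const (a : ℂ) : der c ξ (fun _ : E => a) x = 0 := by simp [der]

theorem der_add (hf : DifferentiableAt ℝ f x) (hg : DifferentiableAt ℝ g x) :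
    der c ξ (fun y => f y + g y) x = der c ξ f x + der c ξ g x := by
  simp only [der, fderiv_fun_add hf hg, _root_.add_apply]
  ring

theorem der_sub (hf : DifferentiableAt ℝ f x) (hg : DifferentiableAt ℝ g x) :
    der c ξ (fun y => f y - g y) x = der c ξ f x - der c ξ g x := by
  simp only [der, fderiv_fun_sub hf hg, _root_.sub_apply]
  ring

theorem der_neg : der c ξ (fun y => -f y) x = -der c ξ f x := by
  simp only [der, fderiv_fun_neg, _root_.neg_apply]
  ring

theorem der_mul (hf : DifferentiableAt ℝ f x) (hg : DifferentiableAt ℝ g x) :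
    der c ξ (fun y => f y * g y) x = der c ξ f x * g x + f x * der c ξ g x := by
  simp only [der, fderiv_fun_mul hf hg, _root_.add_apply,
    _root_.smul_apply, smul_eq_mul]
  ring

theorem der_const_mul (a : ℂ) (hf : DifferentiableAt ℝ f x) :
    der c ξ (fun y => a * f y) x = a * der c ξ f x := by
  rw [der_mul (differentiableAt_const a) hf, der_const]
  ring

theorem der_sum {α : Type*} (s : Finset α) {F : α → E → ℂ}
    (hF : ∀ a ∈ s, DifferentiableAt ℝ (F a) x) :
    der c ξ (fun y => ∑ a ∈ s, F a y) x = ∑ a ∈ s, der c ξ (F a) x := by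
  simp only [der, fderiv_fun_sum hF, _root_.sum_apply, Finset.mul_sum,
    ← Finset.sum_add_distrib, Finset.sum_div]

theorem der_prod {α : Type*} [DecidableEq α] (s : Finset α) {F : α → E → ℂ}
    (hF : ∀ a ∈ s, DifferentiableAt ℝ (F a) x) :
    der c ξ (fun y => ∏ a ∈ s, F a y) x =
      ∑ a ∈ s, (∏ b ∈ s.erase a, F b x) * der c ξ (F a) x := by
  have h := HasFDerivAt.finsetProd (u := s) (g := F) (g' := fun a => fderiv ℝ (F a) x)
    fun a ha => (hF a ha).hasFDerivAt
  simp only [der, h.fderiv, _root_.sum_apply, _root_.smul_apply,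
    smul_eq_mul, Finset.mul_sum, ← Finset.sum_add_distrib, Finset.sum_div]
  exact Finset.sum_congr rfl fun a _ => by ring

theorem pd_conj (hf : DifferentiableAt ℝ f x) (w : E) :
    fderiv ℝ (fun y => conj (f y)) x w = conj (fderiv ℝ f x w) := by
  have e : fderiv ℝ (fun y => conj (f y)) x = (conjCLE : ℂ →L[ℝ] ℂ).comp (fderiv ℝ f x) :=
    ((conjCLE : ℂ →L[ℝ] ℂ).hasFDerivAt.comp x hf.hasFDerivAt).fderiv
  rw [e]
  rfl

theorem der_conj (hf : DifferentiableAt ℝ f x) :
    der c ξ (fun y => conj (f y)) x = conj (der (conj c) ξ f x) := by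
  simp only [der, pd_conj hf, map_div₀, map_add, map_mul, conj_conj, map_ofNat]

theorem Sm.conj (hf : Sm f x) : Sm (fun y => conj (f y)) x :=
  (conjCLE : ℂ →L[ℝ] ℂ).contDiff.contDiffAt.comp x hf

theorem d2_eq {F : Type*} [NormedAddCommGroup F] [NormedSpace ℝ F] {f : E → F}
    (hf : ContDiffAt ℝ 2 f x) (v w : E) :
    fderiv ℝ (fderiv ℝ f) x v w = fderiv ℝ (fun y => fderiv ℝ f y w) x v := by
  have h : DifferentiableAt ℝ (fderiv ℝ f) x :=
    (hf.fderiv_right (m := 1) (by norm_num)).differentiableAt (by norm_num)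
  rw [fderiv_clm_apply h (differentiableAt_const w)]
  simp

theorem pd_comm (hf : Sm f x) (v w : E) :
    fderiv ℝ (fun y => fderiv ℝ f y w) x v = fderiv ℝ (fun y => fderiv ℝ f y v) x w := by
  have h2 : ContDiffAt ℝ 2 f x := hf.ev.self_of_nhds
  rw [← d2_eq h2, ← d2_eq h2]
  exact (h2.isSymmSndFDerivAt (by simp)).eq v w

theorem pd_der (hf : Sm f x) (w : E) :
    fderiv ℝ (der c ξ f) x w = (fderiv ℝ (fun y => fderiv ℝ f y ξ) x w +
      c * fderiv ℝ (fun y => fderiv ℝ f y (I • ξ)) x w) / 2 := by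
  have h1 := (sm_pd hf ξ).diff.hasFDerivAt
  have h2 := (sm_pd hf (I • ξ)).diff.hasFDerivAt
  have h := ((h1.add (h2.const_mul c)).mul_const (2⁻¹ : ℂ)).fderiv
  have e : der c ξ f = fun y => (fderiv ℝ f y ξ + c * fderiv ℝ f y (I • ξ)) * 2⁻¹ := by
    funext y
    rw [der, div_eq_mul_inv]
  rw [e]
  erw [h]
  simp only [_root_.smul_apply, _root_.add_apply, smul_eq_mul]
  ring

theorem der_comm (hf : Sm f x) :
    der c ξ (der c' η f) x = der c' η (der c ξ f) x := by
  rw [der, der, pd_der hf, pd_der hf, pd_der hf, pd_der hf, pd_comm hf ξ η, pd_comm hf ξ (I • η),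
    pd_comm hf (I • ξ) η, pd_comm hf (I • ξ) (I • η)]
  ring

theorem fderiv_real_apply {E' : Type*} [NormedAddCommGroup E'] [NormedSpace ℂ E'] {g : E → E'}
    (hg : DifferentiableAt ℂ g x) (v : E) : fderiv ℝ g x v = fderiv ℂ g x v := by
  rw [hg.fderiv_restrictScalars ℝ]
  rfl

theorem der_comp_holo {E' : Type*} [NormedAddCommGroup E'] [NormedSpace ℂ E'] {f : E' → ℂ}
    {g : E → E'} (hf : DifferentiableAt ℝ f (g x)) (hg : DifferentiableAt ℂ g x) :
    der c ξ (fun y => f (g y)) x = der c (fderiv ℂ g x ξ) f (g x) := by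
  have e : fderiv ℝ (fun y => f (g y)) x = (fderiv ℝ f (g x)).comp (fderiv ℝ g x) :=
    fderiv_comp x hf (hg.restrictScalars ℝ)
  simp only [der, e, ContinuousLinearMap.comp_apply, fderiv_real_apply hg, map_smul]

theorem dbar_holo (hf : DifferentiableAt ℂ f x) : der I ξ f x = 0 := by
  rw [der, fderiv_real_apply hf, fderiv_real_apply hf, map_smul, smul_eq_mul, ← mul_assoc, I_mul_I]
  simp

theorem d_holo (hf : DifferentiableAt ℂ f x) : der (-I) ξ f x = fderiv ℂ f x ξ := by
  rw [der, fderiv_real_apply hf, fderiv_real_apply hf, map_smul, smul_eq_mul, ← mul_assoc, neg_mul,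
    I_mul_I]
  ring

theorem d_add_dbar : der (-I) ξ f x + der I ξ f x = fderiv ℝ f x ξ := by
  simp only [der]
  ring

theorem der_vec_add : der c (ξ + η) f x = der c ξ f x + der c η f x := by
  simp only [der, smul_add, map_add]
  ring

theorem smul_split (a : ℂ) (ξ : E) : a • ξ = a.re • ξ + a.im • (I • ξ) := by
  conv_lhs => rw [← re_add_im a]
  rw [add_smul, mul_smul, coe_smul, coe_smul]

theorem d_vec_smul (a : ℂ) : der (-I) (a • ξ) f x = a * der (-I) ξ f x := by
  have e2 : I • a • ξ = a.re • (I • ξ) + (-a.im) • ξ := by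
    rw [smul_split a ξ, smul_add, smul_comm I a.re, smul_comm I a.im, smul_smul I I, I_mul_I]
    simp
  rw [der, der, e2, smul_split a ξ]
  simp only [map_add, map_smul, real_smul, ofReal_neg]
  conv_rhs => rw [← re_add_im a]
  linear_combination (a.im * fderiv ℝ f x (I • ξ) / 2 : ℂ) * I_mul_I

theorem dbar_vec_smul (a : ℂ) : der I (a • ξ) f x = conj a * der I ξ f x := by
  have e2 : I • a • ξ = a.re • (I • ξ) + (-a.im) • ξ := by
    rw [smul_split a ξ, smul_add, smul_comm I a.re, smul_comm I a.im, smul_smul I I, I_mul_I]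
    simp
  have e3 : conj a = a.re - a.im * I := by
    apply Complex.ext <;> simp
  rw [der, der, e2, smul_split a ξ, e3]
  simp only [map_add, map_smul, real_smul, ofReal_neg]
  linear_combination (a.im * fderiv ℝ f x (I • ξ) / 2 : ℂ) * I_mul_I

theorem der_holo_comp {χ : ℂ → ℂ} (hχ : DifferentiableAt ℂ χ (f x)) (hf : DifferentiableAt ℝ f x) :
    der c ξ (fun y => χ (f y)) x = deriv χ (f x) * der c ξ f x := by
  have e : fderiv ℝ (fun y => χ (f y)) x = (fderiv ℝ χ (f x)).comp (fderiv ℝ f x) :=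
    fderiv_comp x (hχ.restrictScalars ℝ) hf
  simp only [der, e, ContinuousLinearMap.comp_apply, fderiv_real_apply hχ, fderiv_eq_smul_deriv,
    smul_eq_mul]
  ring

theorem pd_ofReal {φ : E → ℝ} (hφ : DifferentiableAt ℝ φ x) (w : E) :
    fderiv ℝ (fun y => (φ y : ℂ)) x w = (fderiv ℝ φ x w : ℝ) := by
  have e : fderiv ℝ (fun y => (φ y : ℂ)) x = ofRealCLM.comp (fderiv ℝ φ x) :=
    (ofRealCLM.hasFDerivAt.comp x hφ.hasFDerivAt).fderiv
  rw [e]
  rfl

theorem sm_ofReal {φ : E → ℝ} (hφ : ContDiffAt ℝ ∞ φ x) : Sm (fun y => (φ y : ℂ)) x :=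
  ofRealCLM.contDiff.contDiffAt.comp x hφ

theorem Sm.re (hf : Sm f x) : ContDiffAt ℝ ∞ (fun y => (f y).re) x :=
  reCLM.contDiff.contDiffAt.comp x hf

/-- the Levi form is `∂̄ ∂` -/
theorem lev_eq {φ : E → ℝ} (hφ : ContDiffAt ℝ ∞ φ x) :
    (lev φ x ξ : ℂ) = der I ξ (der (-I) ξ fun y => (φ y : ℂ)) x := by
  have hs := sm_ofReal hφ
  have h2 : ContDiffAt ℝ 2 φ x := hφ.of_le (by norm_cast)
  have ev : ∀ᶠ y in 𝓝 x, DifferentiableAt ℝ φ y :=
    (h2.eventually (by simp)).mono fun _ h => h.differentiableAt (by simp)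
  have key : ∀ v w : E, fderiv ℝ (fun y => fderiv ℝ (fun y => (φ y : ℂ)) y w) x v =
      (fderiv ℝ (fderiv ℝ φ) x v w : ℝ) := fun v w => by
    have e : (fun y => fderiv ℝ (fun y => (φ y : ℂ)) y w) =ᶠ[𝓝 x]
        fun y => ((fderiv ℝ φ y w : ℝ) : ℂ) := ev.mono fun y hy => pd_ofReal hy w
    have hd : DifferentiableAt ℝ (fun y => fderiv ℝ φ y w) x :=
      ((hφ.fderiv_right (m := ∞) (by norm_cast)).clm_apply contDiffAt_const).differentiableAt
        (by simp)
    rw [e.fderiv_eq, pd_ofReal hd, d2_eq h2]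
  rw [der, pd_der hs, pd_der hs, pd_comm hs ξ (I • ξ), key, key, key, lev]
  push_cast
  linear_combination (fderiv ℝ (fderiv ℝ φ) x (I • ξ) (I • ξ) / 4 : ℂ) * I_mul_I

/-- real derivative of a real function from `∂` -/
theorem pd_real_eq {φ : E → ℝ} (hφ : DifferentiableAt ℝ φ x) (w : E) :
    fderiv ℝ φ x w = 2 * (der (-I) w (fun y => (φ y : ℂ)) x).re := by
  rw [der, pd_ofReal hφ, pd_ofReal hφ]
  simp
  ring

end scalar

section matrix

variable {c c' : ℂ} {ξ η x : E}

theorem SmM.der {f : E → Matrix m n ℂ} (hf : SmM f x) (c : ℂ) (ξ : E) : SmM (derM c ξ f) x :=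
  fun i j => (hf i j).der c ξ

theorem smM_const (A : Matrix m n ℂ) : SmM (fun _ : E => A) x := fun _ _ => contDiffAt_const

theorem SmM.add {f g : E → Matrix m n ℂ} (hf : SmM f x) (hg : SmM g x) :
    SmM (fun y => f y + g y) x := fun i j => ContDiffAt.add (hf i j) (hg i j)

theorem SmM.sub {f g : E → Matrix m n ℂ} (hf : SmM f x) (hg : SmM g x) :
    SmM (fun y => f y - g y) x := fun i j => ContDiffAt.sub (hf i j) (hg i j)

theorem SmM.neg {f : E → Matrix m n ℂ} (hf : SmM f x) : SmM (fun y => -f y) x :=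
  fun i j => ContDiffAt.neg (hf i j)

theorem SmM.smul {a : E → ℂ} {f : E → Matrix m n ℂ} (ha : Sm a x) (hf : SmM f x) :
    SmM (fun y => a y • f y) x := fun i j => ContDiffAt.mul ha (hf i j)

theorem SmM.csmul (a : ℂ) {f : E → Matrix m n ℂ} (hf : SmM f x) :
    SmM (fun y => a • f y) x := SmM.smul contDiffAt_const hf

theorem SmM.mul [Fintype n] {f : E → Matrix m n ℂ} {g : E → Matrix n k ℂ} (hf : SmM f x)
    (hg : SmM g x) : SmM (fun y => f y * g y) x := fun i j => by
  simp only [Matrix.mul_apply]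
  exact ContDiffAt.sum fun l _ => ContDiffAt.mul (hf i l) (hg l j)

theorem SmM.ct {f : E → Matrix m n ℂ} (hf : SmM f x) : SmM (fun y => (f y)ᴴ) x :=
  fun i j => (hf j i).conj

theorem SmM.sum {α : Type*} (s : Finset α) {F : α → E → Matrix m n ℂ}
    (hF : ∀ a ∈ s, SmM (F a) x) : SmM (fun y => ∑ a ∈ s, F a y) x := fun i j => by
  simp only [Matrix.sum_apply]
  exact ContDiffAt.sum fun a ha => hF a ha i j

theorem SmM.trace [Fintype n] {f : E → Matrix n n ℂ} (hf : SmM f x) :
    Sm (fun y => (f y).trace) x := ContDiffAt.sum fun i _ => hf i i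

theorem SmM.det [Fintype n] [DecidableEq n] {f : E → Matrix n n ℂ} (hf : SmM f x) :
    Sm (fun y => (f y).det) x := by
  simp only [Matrix.det_apply']
  exact ContDiffAt.sum fun σ _ => ContDiffAt.mul contDiffAt_const
    (contDiffAt_prod fun i _ => hf (σ i) i)

theorem SmM.inv [Fintype n] [DecidableEq n] {f : E → Matrix n n ℂ} (hf : SmM f x)
    (h0 : (f x).det ≠ 0) : SmM (fun y => (f y)⁻¹) x := fun i j => by
  simp only [Matrix.inv_def, Matrix.smul_apply, Ring.inverse_eq_inv', smul_eq_mul,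
    Matrix.adjugate_apply]
  refine ContDiffAt.mul (hf.det.inv h0) (SmM.det fun a b => ?_)
  simp only [Matrix.updateRow_apply]
  split_ifs
  · exact contDiffAt_const
  · exact hf a b

theorem SmM.congr {f g : E → Matrix m n ℂ} (hf : SmM f x) (h : g =ᶠ[𝓝 x] f) : SmM g x :=
  fun i j => (hf i j).congr_of_eventuallyEq (h.mono fun _ hy => by simp only [hy])

theorem derM_congr {f g : E → Matrix m n ℂ} (h : f =ᶠ[𝓝 x] g) : derM c ξ f x = derM c ξ g x := by
  ext i j
  exact der_congr (h.mono fun _ hy => by simp only [hy])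

theorem derM_congr_on {f g : E → Matrix m n ℂ} {U : Set E} (hU : IsOpen U) (hx : x ∈ U)
    (h : ∀ y ∈ U, f y = g y) : derM c ξ f x = derM c ξ g x :=
  derM_congr (Filter.eventually_of_mem (hU.mem_nhds hx) h)

theorem der_congr_on {f g : E → ℂ} {U : Set E} (hU : IsOpen U) (hx : x ∈ U)
    (h : ∀ y ∈ U, f y = g y) : der c ξ f x = der c ξ g x :=
  der_congr (Filter.eventually_of_mem (hU.mem_nhds hx) h)

theorem derM_const (A : Matrix m n ℂ) : derM c ξ (fun _ : E => A) x = 0 := by
  ext i j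
  exact der_const _

theorem derM_add {f g : E → Matrix m n ℂ} (hf : SmM f x) (hg : SmM g x) :
    derM c ξ (fun y => f y + g y) x = derM c ξ f x + derM c ξ g x := by
  ext i j
  exact der_add (hf i j).diff (hg i j).diff

theorem derM_sub {f g : E → Matrix m n ℂ} (hf : SmM f x) (hg : SmM g x) :
    derM c ξ (fun y => f y - g y) x = derM c ξ f x - derM c ξ g x := by
  ext i j
  exact der_sub (hf i j).diff (hg i j).diff

theorem derM_neg {f : E → Matrix m n ℂ} : derM c ξ (fun y => -f y) x = -derM c ξ f x := by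
  ext i j
  exact der_neg

theorem derM_smul {a : E → ℂ} {f : E → Matrix m n ℂ} (ha : Sm a x) (hf : SmM f x) :
    derM c ξ (fun y => a y • f y) x = der c ξ a x • f x + a x • derM c ξ f x := by
  ext i j
  exact der_mul ha.diff (hf i j).diff

theorem derM_csmul (a : ℂ) {f : E → Matrix m n ℂ} (hf : SmM f x) :
    derM c ξ (fun y => a • f y) x = a • derM c ξ f x := by
  ext i j
  exact der_const_mul a (hf i j).diff

theorem derM_mul [Fintype n] {f : E → Matrix m n ℂ} {g : E → Matrix n k ℂ} (hf : SmM f x)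
    (hg : SmM g x) :
    derM c ξ (fun y => f y * g y) x = derM c ξ f x * g x + f x * derM c ξ g x := by
  ext i j
  simp only [derM, Matrix.of_apply, Matrix.mul_apply, Matrix.add_apply]
  rw [der_sum _ fun l _ => ((hf i l).mul (hg l j)).differentiableAt (by simp),
    ← Finset.sum_add_distrib]
  exact Finset.sum_congr rfl fun l _ => der_mul (hf i l).diff (hg l j).diff

theorem derM_const_mul [Fintype n] (A : Matrix m n ℂ) {g : E → Matrix n k ℂ} (hg : SmM g x) :
    derM c ξ (fun y => A * g y) x = A * derM c ξ g x := by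
  rw [derM_mul (smM_const A) hg, derM_const, Matrix.zero_mul, zero_add]

theorem derM_mul_const [Fintype n] {f : E → Matrix m n ℂ} (hf : SmM f x) (B : Matrix n k ℂ) :
    derM c ξ (fun y => f y * B) x = derM c ξ f x * B := by
  rw [derM_mul hf (smM_const B), derM_const, Matrix.mul_zero, add_zero]

theorem derM_ct {f : E → Matrix m n ℂ} (hf : SmM f x) :
    derM c ξ (fun y => (f y)ᴴ) x = (derM (conj c) ξ f x)ᴴ := by
  ext i j
  exact der_conj (hf j i).diff

theorem d_ct {f : E → Matrix m n ℂ} (hf : SmM f x) :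
    derM (-I) ξ (fun y => (f y)ᴴ) x = (derM I ξ f x)ᴴ := by
  rw [derM_ct hf]
  simp

theorem dbar_ct {f : E → Matrix m n ℂ} (hf : SmM f x) :
    derM I ξ (fun y => (f y)ᴴ) x = (derM (-I) ξ f x)ᴴ := by
  rw [derM_ct hf]
  simp

theorem derM_sum {α : Type*} (s : Finset α) {F : α → E → Matrix m n ℂ}
    (hF : ∀ a ∈ s, SmM (F a) x) :
    derM c ξ (fun y => ∑ a ∈ s, F a y) x = ∑ a ∈ s, derM c ξ (F a) x := by
  ext i j
  simp only [derM, Matrix.of_apply, Matrix.sum_apply]
  exact der_sum s fun a ha => (hF a ha i j).diff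

theorem der_trace [Fintype n] {f : E → Matrix n n ℂ} (hf : SmM f x) :
    der c ξ (fun y => (f y).trace) x = (derM c ξ f x).trace :=
  der_sum Finset.univ fun i _ => (hf i i).diff

theorem derM_comm {f : E → Matrix m n ℂ} (hf : SmM f x) :
    derM c ξ (derM c' η f) x = derM c' η (derM c ξ f) x := by
  ext i j
  exact der_comm (hf i j)

theorem derM_comp_holo {E' : Type*} [NormedAddCommGroup E'] [NormedSpace ℂ E']
    {f : E' → Matrix m n ℂ} {g : E → E'} (hf : SmM f (g x)) (hg : DifferentiableAt ℂ g x) :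
    derM c ξ (fun y => f (g y)) x = derM c (fderiv ℂ g x ξ) f (g x) := by
  ext i j
  exact der_comp_holo (f := fun y => f y i j) (hf i j).diff hg

theorem dM_vec_smul (a : ℂ) {f : E → Matrix m n ℂ} :
    derM (-I) (a • ξ) f x = a • derM (-I) ξ f x := by
  ext i j
  exact d_vec_smul a

theorem dbarM_vec_smul (a : ℂ) {f : E → Matrix m n ℂ} :
    derM I (a • ξ) f x = conj a • derM I ξ f x := by
  ext i j
  exact dbar_vec_smul a

theorem derM_vec_add {f : E → Matrix m n ℂ} :
    derM c (ξ + η) f x = derM c ξ f x + derM c η f x := by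
  ext i j
  exact der_vec_add

theorem derM_inv [Fintype n] [DecidableEq n] {f : E → Matrix n n ℂ} (hf : SmM f x)
    (h0 : (f x).det ≠ 0) :
    derM c ξ (fun y => (f y)⁻¹) x = -((f x)⁻¹ * derM c ξ f x * (f x)⁻¹) := by
  have ev : ∀ᶠ y in 𝓝 x, (f y).det ≠ 0 := hf.det.continuousAt.eventually_ne h0
  have e : (fun y => f y * (f y)⁻¹) =ᶠ[𝓝 x] fun _ => (1 : Matrix n n ℂ) :=
    ev.mono fun y hy => Matrix.mul_nonsing_inv _ (Ne.isUnit hy)
  have h := derM_congr (c := c) (ξ := ξ) e
  rw [derM_mul hf (hf.inv h0), derM_const] at h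
  have h2 := congrArg (fun M => (f x)⁻¹ * M) h
  simp only [Matrix.mul_add, ← Matrix.mul_assoc, Matrix.nonsing_inv_mul _ (Ne.isUnit h0),
    Matrix.one_mul, Matrix.mul_zero] at h2
  exact eq_neg_of_add_eq_zero_right h2

/-- the formula of Jacobi -/
theorem der_det [Fintype n] [DecidableEq n] {f : E → Matrix n n ℂ} (hf : SmM f x) :
    der c ξ (fun y => (f y).det) x = ((f x).adjugate * derM c ξ f x).trace := by
  have e : ∀ j, ((f x).adjugate * derM c ξ f x) j j =
      ((f x).updateCol j fun i => derM c ξ f x i j).det := fun j => by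
    rw [← Matrix.cramer_apply, Matrix.cramer_eq_adjugate_mulVec]
    rfl
  simp only [Matrix.trace, Matrix.diag_apply, e, Matrix.det_apply']
  rw [der_sum _ fun σ _ => (ContDiffAt.mul contDiffAt_const
    (contDiffAt_prod fun i _ => hf (σ i) i)).differentiableAt (by simp), Finset.sum_comm]
  refine Finset.sum_congr rfl fun σ _ => ?_
  rw [der_const_mul _ ((contDiffAt_prod fun i _ => hf (σ i) i).differentiableAt (by simp)),
    der_prod _ fun i _ => (hf (σ i) i).diff, Finset.mul_sum]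
  refine Finset.sum_congr rfl fun j _ => ?_
  congr 1
  rw [← Finset.prod_erase_mul _ _ (Finset.mem_univ j), Matrix.updateCol_self]
  congr 1
  exact Finset.prod_congr rfl fun i hi => (Matrix.updateCol_ne (Finset.ne_of_mem_erase hi)).symm

theorem der_det' [Fintype n] [DecidableEq n] {f : E → Matrix n n ℂ} (hf : SmM f x)
    (h0 : (f x).det ≠ 0) :
    der c ξ (fun y => (f y).det) x = (f x).det * ((f x)⁻¹ * derM c ξ f x).trace := by
  rw [der_det hf, Matrix.inv_def, Ring.inverse_eq_inv', Matrix.smul_mul, Matrix.trace_smul,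
    smul_eq_mul, mul_inv_cancel_left₀ h0]

end matrix

end

end Pool.Agent.Lib.MP_5c318e_ag.V
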