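import Pool.Agent.Lib.MP_5c318e_ag.V.Int
import Pool.Agent.Lib.MP_5c318e_ag.V.K0

/-! Exact square integrable forms are orthogonal to closed ones. -/

set_option autoImplicit false

namespace Pool.Agent.Lib.MP_5c318e_ag.V

open Matrix Filter Topology MeasureTheory Complex Metric
open scoped ComplexOrder ContDiff ComplexConjugate

noncomputable section

variable {ι : Type} [Fintype ι] [DecidableEq ι] {w : ℕ} {Ω : Set ℂ} {V : VHS ℂ Ω ι w}

omit [DecidableEq ι] in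
theorem k0_der_qf (M : Matrix ι ι ℂ) {u v : ℂ → ι → ℂ} {x : ℂ} (hu : SmV u x) (hv : SmV v x)
    (c : ℂ) : der c 1 (fun y => qf M (u y) (v y)) x =
      qf M (derV (conj c) 1 u x) (v x) + qf M (u x) (derV c 1 v x) := by
  have e : ∀ a b : ι → ℂ, qf M a b = ∑ i, ∑ j, conj (a i) * (M i j * b j) := fun a b => by
    simp only [qf, dotProduct, mulVec, Finset.mul_sum, Pi.star_apply, star_def]
  have s : ∀ i j, Sm (fun y => M i j * v y j) x := fun i j => contDiffAt_const.mul (hv j)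
  have t : ∀ i j, Sm (fun y => conj (u y i) * (M i j * v y j)) x := fun i j =>
    (hu i).conj.mul (s i j)
  simp only [e, ← Finset.sum_add_distrib]
  rw [der_sum _ fun i _ => Sm.diff (ContDiffAt.sum fun j _ => t i j)]
  refine Finset.sum_congr rfl fun i _ => ?_
  rw [der_sum _ fun j _ => (t i j).diff]
  refine Finset.sum_congr rfl fun j _ => ?_
  rw [der_mul (hu i).conj.diff (s i j).diff, der_conj (hu i).diff, der_const_mul _ (hv j).diff]
  rfl

theorem k0_der_pair (hΩ : IsOpen Ω) {e e' : ℂ → ι → ℂ} (h : V.SmS e) (h' : V.SmS e') {x : ℂ}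
    (hx : x ∈ Ω) (c : ℂ) : der c 1 (fun y => qf (V.ψ y) (e y) (e' y)) x =
      qf (V.ψ x) (derV (conj c) 1 (V.loc e x) x) (e' x) +
        qf (V.ψ x) (e x) (derV c 1 (V.loc e' x) x) := by
  have ev : (fun y => qf (V.ψ y) (e y) (e' y)) =ᶠ[𝓝 x]
      fun y => qf (V.ψ x) (V.loc e x y) (V.loc e' x y) := by
    have := V.flat x hx
    rw [hΩ.nhdsWithin_eq hx] at this
    filter_upwards [this] with y hy
    rw [hy, VHS.loc, VHS.loc, qf_mulVec_left, qf_mulVec_right]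
  rw [der_congr ev, k0_der_qf _ (h x hx) (h' x hx), V.loc_self e hx, V.loc_self e' hx]

theorem k0_locSec (hΩ : IsOpen Ω) {e : ℂ → ι → ℂ} (h : V.SmS e) :
    LocSec ι Unit Ω 0 ((∑ p ∈ wt w, (p : ℝ) ^ 2) * Fintype.card ι)
      (fun x => (qf (V.H x) (e x) (e x)).re)
      (fun x => qf (V.H x) (e x) (f1 (V.D e) x) + qf (V.H x) (f2 (V.D e) x) (e x))
      (V.nrm (V.D e)) := fun a ha => by
  obtain ⟨r, hr, hs, fr, hψ, L⟩ := V.exists_lv hΩ ha
  have key : ∀ y ∈ ball a r, ∀ u v : ι → ℂ, ip (1 : Matrix Unit Unit ℂ) (V.ψ a * wey (wt w)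
      (fun p y => cx (V.κ a y) * V.π p y * cx (V.κ a y)⁻¹) y)
      (replicateCol Unit (cx (V.κ a y) *ᵥ u)) (replicateCol Unit (cx (V.κ a y) *ᵥ v)) =
      qf (V.H y) v u := fun y hy u v => by
    have e1 : wey (wt w) (fun p y => cx (V.κ a y) * V.π p y * cx (V.κ a y)⁻¹) y =
        cx (V.κ a y) * wey (wt w) V.π y * cx (V.κ a y)⁻¹ := by
      simp only [wey, Finset.mul_sum, Finset.sum_mul, Matrix.mul_smul, Matrix.smul_mul]
    rw [ip_col]
    change qf _ _ _ = _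
    rw [qf_mulVec_left, qf_mulVec_right, e1, VHS.H, hψ y hy]
    simp only [Matrix.mul_assoc, cx_inv_mul, Matrix.mul_one]
  have F := fun y (hy : y ∈ ball a r) => h.fr isOpen_ball hs fr hy
  have d1 : ∀ y ∈ ball a r, derM (-I) 1 (fun y => replicateCol Unit (cx (V.κ a y) *ᵥ e y)) y =
      replicateCol Unit (cx (V.κ a y) *ᵥ f1 (V.D e) y) := fun y hy => by
    ext i j
    have := congrFun (F y hy).2 (Sum.inl i)
    rw [two_mulVec] at this
    exact this
  have d2 : ∀ y ∈ ball a r, derM I 1 (fun y => replicateCol Unit (cx (V.κ a y) *ᵥ e y)) y =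
      replicateCol Unit (cx (V.κ a y) *ᵥ f2 (V.D e) y) := fun y hy => by
    ext i j
    have := congrFun (F y hy).2 (Sum.inr i)
    rw [two_mulVec] at this
    exact this
  refine ⟨ball a r, _, _, _, _, fun y => replicateCol Unit (cx (V.κ a y) *ᵥ e y),
    mem_ball_self hr, gm_const isOpen_ball PosDef.one, L.gm, fun y hy i _ => (F y hy).1 i,
    fun y hy => ?_, fun y hy => ?_, fun y hy => ?_⟩
  · rw [nsq, key y hy]
  · rw [d1 y hy, d2 y hy, key y hy, key y hy]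
  · rw [d1 y hy, d2 y hy, nsq, nsq, key y hy, key y hy, VHS.nrm, qf_two, add_re]
    rfl

theorem VHS.Exact.orth (hΩ : Ωᶜ.Finite) {α ζ : Form ι} (h : V.Exact α) (hα : V.L2 α) (hζ : V.Z ζ) :
    V.Q α ζ = 0 := by
  have hO : IsOpen Ω := by simpa using hΩ.isClosed.isOpen_compl
  have hi := VHS.pair_int hΩ (h.closed hO).1 hα hζ.1.1 hζ.2
  obtain ⟨e, he, hD⟩ := h
  have hR : ((hΩ.toFinset : Finset ℂ) : Set ℂ)ᶜ = Ω := by simp
  have r : ∀ x ∈ Ω, qf (psi1 (V.ψ x)) (α x) (ζ x) =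
      der (-I) 1 (fun y => qf (V.ψ y) (e y) (f2 ζ y)) x +
        der I 1 (fun y => -qf (V.ψ y) (e y) (f1 ζ y)) x := fun x hx => by
    rw [der_neg, k0_der_pair hO he hζ.1.1.2 hx, k0_der_pair hO he hζ.1.1.1 hx, hζ.1.2 x hx,
      ← hD x hx, qf_psi1]
    simp only [map_neg, conj_I, neg_neg]
    change -qf _ (derV (-I) 1 (V.loc e x) x) (f1 ζ x) + qf _ (derV I 1 (V.loc e x) x) (f2 ζ x) = _
    ring
  have core := exact_core (m := ι) (n := Unit) hΩ.toFinset (by rw [hR]; exact k0_locSec hO he)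
    (B₁ := fun y => qf (V.ψ y) (e y) (f2 ζ y)) (B₂ := fun y => -qf (V.ψ y) (e y) (f1 ζ y))
    (zt := V.nrm ζ)
  rw [hR] at core
  have ae : ∀ᵐ x : ℂ, x ∈ Ω := hΩ.measure_zero _
  rw [VHS.Q, ← Measure.restrict_eq_self_of_ae_mem ae, setIntegral_congr_fun hO.measurableSet r]
  refine core (IntegrableOn.congr_fun hα.integrableOn (fun x hx => ?_) hO.measurableSet)
    (VHS.sm_qf hO he hζ.1.1.2) (fun x hx => (VHS.sm_qf hO he hζ.1.1.1 x hx).neg)
    hζ.2.integrableOn (fun x hx => ?_)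
    (IntegrableOn.congr_fun hi.integrableOn r hO.measurableSet)
  · simp only [VHS.nrm, hD x hx]
  · rw [norm_neg, VHS.nrm, qf_two, add_re, mul_add, add_comm]
    exact add_le_add ((V.phs x hx).qf_le _ _) ((V.phs x hx).qf_le _ _)

end

end Pool.Agent.Lib.MP_5c318e_ag.V
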