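import Pool.Agent.Lib.MP_5c318e_ag.V.Motion
import Pool.Agent.Lib.MP_5c318e_ag.V.Frame

/-! Existence of the transport along a motion. -/

set_option autoImplicit false

namespace Pool.Agent.Lib.MP_5c318e_ag.V

open Matrix Filter Topology MeasureTheory Complex Metric
open scoped ComplexOrder ContDiff ComplexConjugate

noncomputable section

variable {ι : Type} [Fintype ι] [DecidableEq ι] {w : ℕ}
  {A : Type} [NormedAddCommGroup A] [NormedSpace ℂ A]
  {E : Type} [NormedAddCommGroup E] [NormedSpace ℂ E] {Ω : Set (A × ℂ)}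
  {V : VHS (A × ℂ) Ω ι w}

theorem fx_conj (g : GL ι ℤ) {P Q : Matrix ι ι ℂ} (h : (cx g⁻¹)ᴴ * P * cx g⁻¹ = Q) :
    P = (cx g)ᴴ * Q * cx g := by
  have e1 : (cx g)ᴴ * (cx g⁻¹)ᴴ = 1 := by
    rw [← conjTranspose_mul, cx_inv_mul, conjTranspose_one]
  rw [← h]
  calc P = ((cx g)ᴴ * (cx g⁻¹)ᴴ) * P * (cx g⁻¹ * cx g) := by
        rw [e1, cx_inv_mul, Matrix.one_mul, Matrix.mul_one]
    _ = _ := by simp only [Matrix.mul_assoc]

theorem Mot.fx_open {φ : E → A} {a0 : E} {K : Set ℂ} (M : Mot Ω φ a0 K) {a : E}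
    (ha : a ∈ ball a0 M.δ) : IsOpen (fb Ω (φ a)) := by
  simpa using (M.fin a ha).isClosed.isOpen_compl

theorem Mot.fx_cont {φ : E → A} {a0 : E} {K : Set ℂ} (M : Mot Ω φ a0 K) {a : E}
    (ha : a ∈ ball a0 M.δ) (x : ℂ) :
    ContinuousAt (fun p : E × ℂ => (φ p.1, M.z p.1 p.2)) (a, x) :=
  (ContinuousAt.comp (f := Prod.fst) (x := (a, x)) (M.an a ha).continuousAt
    continuousAt_fst).prodMk (M.smz a ha x).continuousAt

theorem Mot.fx_isFr {φ : E → A} {a0 : E} {K : Set ℂ} (M : Mot Ω φ a0 K) (V : VHS (A × ℂ) Ω ι w)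
    {m : E → ℂ → GL ι ℤ} {x : ℂ} (hx : x ∈ fb Ω (φ a0))
    (tr : ∀ a ∈ ball a0 M.δ, ∀ᶠ p : E × ℂ in 𝓝 (a, x),
      V.κ (φ a0, x) (φ a0, p.2) * m p.1 p.2 = m a x * V.κ (φ a, M.z a x) (φ p.1, M.z p.1 p.2)) :
    IsFr (ball a0 M.δ) (fun a a' => V.κ (φ a, M.z a x) (φ a', M.z a' x)) fun a => m a x := by
  intro a ha
  have h1 : Tendsto (fun a' : E => (a', x)) (𝓝 a) (𝓝 (a, x)) :=
    (continuous_id.prodMk continuous_const).continuousAt
  refine Filter.Eventually.filter_mono nhdsWithin_le_nhds ?_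
  filter_upwards [h1.eventually (tr a ha)] with a' h
  simpa only [V.germ.self _ hx, one_mul] using h

theorem Mot.exists_fam {φ : E → A} {a0 : E} {K : Set ℂ} (M : Mot Ω φ a0 K)
    (V : VHS (A × ℂ) Ω ι w) : ∃ N : Fam V φ a0 K, N.toMot = M := by
  have h0 : a0 ∈ ball a0 M.δ := mem_ball_self M.pos
  have hg : Germ (ball a0 M.δ ×ˢ fb Ω (φ a0))
      fun p p' : E × ℂ => V.κ (φ p.1, M.z p.1 p.2) (φ p'.1, M.z p'.1 p'.2) :=
    V.germ.comp (φ := fun p : E × ℂ => (φ p.1, M.z p.1 p.2))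
      (fun p hp => (M.fx_cont hp.1 p.2).continuousWithinAt)
      fun p hp => (M.mem p.1 hp.1 p.2).2 hp.2
  obtain ⟨m, m0, tr⟩ := hg.trans M.pos (M.fx_open h0)
  simp only [M.z0] at tr
  refine ⟨{ toMot := M, m := m, m0 := m0, tr := tr, iso := fun a ha x hx => ?_ }, rfl⟩
  have hc : ContinuousOn (fun a : E => (φ a, M.z a x)) (ball a0 M.δ) := fun b hb =>
    (ContinuousAt.comp (f := fun a' : E => (a', x)) (x := b) (M.fx_cont hb x)
      (continuous_id.prodMk continuous_const).continuousAt).continuousWithinAt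
  have h := V.psi_fr (φ := fun a : E => (φ a, M.z a x)) (convex_ball a0 M.δ).isPreconnected hc
    (fun b hb => (M.mem b hb x).2 hx) (M.fx_isFr V hx fun b hb => tr b hb x hx) ha h0
  simp only [m0 x hx, inv_one, cx_one, conjTranspose_one, Matrix.one_mul, Matrix.mul_one,
    M.z0] at h
  exact fx_conj _ h

theorem exists_fam [CompleteSpace A] {S : Set A} (h : Roots S Ω) (V : VHS (A × ℂ) Ω ι w)
    {φ : E → A} {a0 : E} (hφ : Plot S φ a0) {K : Set ℂ} (hK : IsCompact K)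
    (hKΩ : K ⊆ fb Ω (φ a0)) {r : ℝ} (hr : 0 < r) :
    ∃ M : Fam V φ a0 K, M.δ ≤ r ∧ ∀ a ∈ ball a0 M.δ, φ a ∈ S := by
  obtain ⟨M, h1, h2⟩ := exists_mot h hφ hK hKΩ hr
  obtain ⟨N, rfl⟩ := M.exists_fam V
  exact ⟨N, h1, h2⟩

namespace Fam

variable {φ : E → A} {a0 : E} {K : Set ℂ} (M : Fam V φ a0 K)

theorem mor {a : E} (ha : a ∈ ball a0 M.δ) : Mor (V.fib (φ a0)) (V.fib (φ a)) (M.z a) (M.m a) where
  op := M.toMot.fx_open (mem_ball_self M.pos)
  op' := M.toMot.fx_open ha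
  maps := fun x hx => (M.mem a ha x).2 hx
  sm := fun x _ => ContDiffAt.comp (f := fun x' : ℂ => (a, x')) x (M.smz a ha x)
    (contDiffAt_const.prodMk contDiffAt_id)
  tr := fun x hx => by
    have h1 : Tendsto (fun x' : ℂ => (a, x')) (𝓝 x) (𝓝 (a, x)) :=
      (continuous_const.prodMk continuous_id).continuousAt
    exact h1.eventually (M.tr a ha x hx)
  iso := fun x hx => M.iso a ha x hx

theorem mor_inv {a : E} (ha : a ∈ ball a0 M.δ) :
    Mor (V.fib (φ a)) (V.fib (φ a0)) (M.zi a) fun x => (M.m a (M.zi a x))⁻¹ := by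
  have hm : Set.MapsTo (M.zi a) (fb Ω (φ a)) (fb Ω (φ a0)) := fun y hy =>
    (M.mem a ha _).1 (by rw [M.ri a ha]; exact hy)
  refine ⟨M.toMot.fx_open ha, M.toMot.fx_open (mem_ball_self M.pos), hm,
    fun y _ => M.smi a ha y, fun y hy => ?_, fun y hy => ?_⟩
  · filter_upwards [(M.smi a ha y).continuousAt.eventually ((M.mor ha).tr _ (hm hy))] with y' h
    rw [M.ri a ha, M.ri a ha] at h
    rw [eq_inv_mul_iff_mul_eq, ← mul_assoc, ← h, mul_inv_cancel_right]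
  · have h := (M.mor ha).iso _ (hm hy)
    rw [M.ri a ha] at h
    refine fx_conj _ ?_
    rw [inv_inv]
    exact h.symm

/-- the transport is a flat frame along the trajectory of a point -/
theorem isFr {x : ℂ} (hx : x ∈ fb Ω (φ a0)) :
    IsFr (ball a0 M.δ) (fun a a' => V.κ (φ a, M.z a x) (φ a', M.z a' x)) fun a => M.m a x :=
  M.toMot.fx_isFr V hx fun a ha => M.tr a ha x hx

end Fam

end

end Pool.Agent.Lib.MP_5c318e_ag.V
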