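import Pool.Agent.Lib.MP_5c318e_ag.V.Top
import Pool.Agent.Lib.MP_5c318e_ag.V.Fun
import Pool.Agent.Lib.MP_5c318e_ag.V.Max

/-! The Schwarz lemma for graded metrics and the growth of the norms of flat sections. -/

set_option autoImplicit false
set_option linter.unusedSectionVars false

namespace Pool.Agent.Lib.MP_5c318e_ag.V

open Complex Filter Topology Matrix Metric Set
open scoped ContDiff ComplexConjugate ComplexOrder

noncomputable section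

variable {E : Type*} [NormedAddCommGroup E] [NormedSpace ℂ E]
variable {m n : Type*} [Fintype m] [Fintype n] [DecidableEq m] [DecidableEq n]

theorem liouville_bdd (R : Finset ℂ) {u : ℂ → ℝ} {M : ℝ} (hu : ∀ z ∉ R, ContDiffAt ℝ 2 u z)
    (sub : ∀ z ∉ R, 0 ≤ lev u z 1) (hM : ∀ z ∉ R, u z ≤ M) {a z : ℂ} (ha : a ∉ R) (hz : z ∉ R) :
    u z = u a := by
  have cl := R.finite_toSet
  have hR : ∀ a ∈ R, ∀ ε > 0, ∀ᶠ z in 𝓝[≠] a, u z ≤ -ε * Real.log ‖z - a‖ := fun a _ ε hε => by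
    have e : ∀ᶠ z in 𝓝[≠] a, z ∉ R := by
      filter_upwards [self_mem_nhdsWithin, mem_nhdsWithin_of_mem_nhds
        ((cl.sdiff (t := {a})).isClosed.isOpen_compl.mem_nhds (x := a) (by simp))] with z h1 h2 h
      exact h2 ⟨h, h1⟩
    filter_upwards [e, ((tendsto_log_punct a).const_mul_atBot hε) (eventually_le_atBot (-M))]
      with z h1 h2
    simp only [mem_preimage, mem_ofPred_eq] at h2
    linarith [hM z h1]
  have hi : ∀ ε > 0, ∀ᶠ z in cocompact ℂ, u z ≤ ε * Real.log ‖z‖ := fun ε hε => by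
    filter_upwards [cl.isCompact.compl_mem_cocompact,
      ((Real.tendsto_log_atTop.comp (tendsto_norm_cocompact_atTop (E := ℂ))).const_mul_atTop hε)
        (eventually_ge_atTop M)] with z h1 h2
    exact (hM z h1).trans h2
  exact le_antisymm (liouville R hu sub hR hi ha hz) (liouville R hu sub hR hi hz ha)

theorem GM.neg {Ω : Set ℂ} {h Y : ℂ → Matrix n n ℂ} {K : ℝ} (G : GM Ω h Y K) :
    Neg Ω K (lam h 1) := fun _ hz => ⟨cd2 (G.sm_lam hz), G.schwarz hz⟩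

section schwarz

variable {U : Set E} {h Y : E → Matrix n n ℂ} {K r : ℝ} {x ξ : E}

/-- Schwarz lemma along a holomorphic disc -/
theorem GM.lam_le_of_map (G : GM U h Y K) {g : ℂ → E} {a : ℂ} (hr : 0 < r)
    (hg : ∀ t ∈ ball a r, ContDiffAt ℂ ∞ g t) (hm : ∀ t ∈ ball a r, g t ∈ U) :
    lam h (deriv g a) (g a) ≤ 2 * K / r ^ 2 := by
  have a0 := mem_ball_self (x := a) hr
  have := (G.comp isOpen_ball hg hm).neg.ahlfors (G.K_nonneg (hm a a0)) hr Subset.rfl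
  rwa [lam_comp (G.sm _ (hm a a0)) ((hg a a0).differentiableAt (by simp)),
    fderiv_apply_one_eq_deriv] at this

theorem GM.lam_le_disc (G : GM U h Y K) (hr : 0 < r) (hm : ∀ t : ℂ, ‖t‖ < r → x + t • ξ ∈ U) :
    lam h ξ x ≤ 2 * K / r ^ 2 := by
  have d : deriv (fun t : ℂ => x + t • ξ) 0 = ξ := by
    simpa using (((hasDerivAt_id (0 : ℂ)).smul_const ξ).const_add x).deriv
  have := G.lam_le_of_map (g := fun t => x + t • ξ) (a := 0) hr (fun t _ => by fun_prop)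
    fun t ht => hm t (by simpa using ht)
  simpa [d] using this

theorem GM.lam_le_ball (G : GM U h Y K) (hr : 0 < r) (hm : ball x r ⊆ U) (ξ : E) :
    lam h ξ x ≤ 2 * K * ‖ξ‖ ^ 2 / r ^ 2 := by
  rcases eq_or_ne ξ 0 with rfl | h0
  · have := lam_smul h 0 (0 : E) x
    rw [smul_zero, norm_zero, zero_pow two_ne_zero, zero_mul] at this
    rw [this]
    simp
  have p := norm_pos_iff.2 h0
  have := G.lam_le_disc (x := x) (ξ := ξ) (div_pos hr p) fun t ht => hm (by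
    rwa [mem_ball, dist_eq_norm, add_sub_cancel_left, norm_smul, ← lt_div_iff₀ p])
  refine this.trans_eq ?_
  field_simp

end schwarz

/-- the constant in the growth estimates -/
def cg (K : ℝ) : ℝ := 6 * √(2 * K)

theorem cg_nonneg (K : ℝ) : 0 ≤ cg K := by
  unfold cg
  positivity

section growth

variable {U : Set E} {h₁ Y₁ : E → Matrix n n ℂ} {h₂ Y₂ : E → Matrix m m ℂ} {K₁ K₂ r : ℝ}
  {x y ξ : E} {A : Matrix m n ℂ}

theorem diff_log_nsq (M₁ : Met U h₁) (M₂ : Met U h₂) (hx : x ∈ U) (hA : A ≠ 0) :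
    DifferentiableAt ℝ (fun y => Real.log (nsq (h₁ y) (h₂ y) A)) x :=
  ((sm_nsq M₁ M₂ hx (smM_const A)).differentiableAt (by simp)).log
    (nsq_pos (M₁.pos x hx) (M₂.pos x hx) hA).ne'

theorem abs_pd_le_disc (G₁ : GM U h₁ Y₁ K₁) (G₂ : GM U h₂ Y₂ K₂) (hA : A ≠ 0) (hr : 0 < r)
    (hm : ∀ t : ℂ, ‖t‖ < r → x + t • ξ ∈ U) :
    |fderiv ℝ (fun y => Real.log (nsq (h₁ y) (h₂ y) A)) x ξ| ≤ cg (K₁ + K₂) / r := by
  have hx : x ∈ U := by simpa using hm 0 (by simpa using hr)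
  refine (abs_pd_log_nsq G₁.toMet G₂.toMet hx hA ξ).trans ?_
  rw [cg, mul_div_assoc]
  refine mul_le_mul_of_nonneg_left (Real.sqrt_le_iff.2 ⟨by positivity, ?_⟩) (by norm_num)
  rw [div_pow, Real.sq_sqrt (by linarith [G₁.K_nonneg hx, G₂.K_nonneg hx])]
  refine (add_le_add (G₁.lam_le_disc hr hm) (G₂.lam_le_disc hr hm)).trans_eq ?_
  ring

theorem hasDerivAt_log_nsq (M₁ : Met U h₁) (M₂ : Met U h₂) (hA : A ≠ 0) {s : ℝ}
    (hs : x + s • ξ ∈ U) :
    HasDerivAt (fun s : ℝ => Real.log (nsq (h₁ (x + s • ξ)) (h₂ (x + s • ξ)) A))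
      (fderiv ℝ (fun y => Real.log (nsq (h₁ y) (h₂ y) A)) (x + s • ξ) ξ) s := by
  have l : HasDerivAt (fun s : ℝ => x + s • ξ) ξ s := by
    simpa using ((hasDerivAt_id s).smul_const ξ).const_add x
  exact (diff_log_nsq M₁ M₂ hs hA).hasFDerivAt.comp_hasDerivAt s l

/-- growth along a segment around which discs of radius `r` fit into the domain -/
theorem log_nsq_seg (G₁ : GM U h₁ Y₁ K₁) (G₂ : GM U h₂ Y₂ K₂) (hA : A ≠ 0) (hr : 0 < r) {T : ℝ}
    (hT : 0 ≤ T) (hm : ∀ s ∈ Icc (0 : ℝ) T, ∀ t : ℂ, ‖t‖ < r → x + s • ξ + t • ξ ∈ U) :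
    |Real.log (nsq (h₁ (x + T • ξ)) (h₂ (x + T • ξ)) A) - Real.log (nsq (h₁ x) (h₂ x) A)| ≤
      cg (K₁ + K₂) / r * T := by
  have := norm_image_sub_le_of_norm_deriv_le_segment' (a := 0) (b := T)
    (fun s hs => (hasDerivAt_log_nsq (x := x) (ξ := ξ) G₁.toMet G₂.toMet hA
      (by simpa using hm s hs 0 (by simpa using hr))).hasDerivWithinAt)
    (fun s hs => abs_pd_le_disc G₁ G₂ hA hr (hm s (Ico_subset_Icc_self hs))) T ⟨hT, le_rfl⟩
  simpa using this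

theorem log_nsq_of_balls (G₁ : GM U h₁ Y₁ K₁) (G₂ : GM U h₂ Y₂ K₂) (hA : A ≠ 0) (hr : 0 < r)
    (hm : ∀ z ∈ segment ℝ x y, ball z r ⊆ U) :
    |Real.log (nsq (h₁ y) (h₂ y) A) - Real.log (nsq (h₁ x) (h₂ x) A)| ≤
      cg (K₁ + K₂) * ‖y - x‖ / r := by
  rcases eq_or_ne y x with rfl | ne
  · simp
  have p := norm_pos_iff.2 (sub_ne_zero.2 ne)
  have := log_nsq_seg (x := x) (ξ := y - x) G₁ G₂ hA (div_pos hr p) zero_le_one fun s hs t ht =>
    hm (x + s • (y - x)) (by rw [segment_eq_image']; exact ⟨s, hs, rfl⟩) (by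
      rwa [mem_ball, dist_eq_norm, add_sub_cancel_left, norm_smul, ← lt_div_iff₀ p])
  rw [one_smul, add_sub_cancel] at this
  refine this.trans_eq ?_
  field_simp

theorem nsq_le_of_log (M₁ : Met U h₁) (M₂ : Met U h₂) (hx : x ∈ U) (hy : y ∈ U) {c : ℝ}
    (H : A ≠ 0 → |Real.log (nsq (h₁ y) (h₂ y) A) - Real.log (nsq (h₁ x) (h₂ x) A)| ≤ c) :
    nsq (h₁ y) (h₂ y) A ≤ Real.exp c * nsq (h₁ x) (h₂ x) A := by
  rcases eq_or_ne A 0 with rfl | hA
  · simp [nsq_zero]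
  rw [← Real.exp_log (nsq_pos (M₁.pos x hx) (M₂.pos x hx) hA), ← Real.exp_add,
    ← Real.log_le_iff_le_exp (nsq_pos (M₁.pos y hy) (M₂.pos y hy) hA)]
  linarith [(abs_le.1 (H hA)).2]

/-- Harnack inequality for the Hodge norms on a ball -/
theorem nsq_le_ball (G₁ : GM U h₁ Y₁ K₁) (G₂ : GM U h₂ Y₂ K₂) {a : E} (hm : ball a (2 * r) ⊆ U)
    (hx : x ∈ ball a r) (hy : y ∈ ball a r) (A : Matrix m n ℂ) :
    nsq (h₁ y) (h₂ y) A ≤ Real.exp (2 * cg (K₁ + K₂)) * nsq (h₁ x) (h₂ x) A := by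
  have hr : 0 < r := pos_of_mem_ball hx
  have s : ball a r ⊆ U := (ball_subset_ball (by linarith)).trans hm
  refine nsq_le_of_log G₁.toMet G₂.toMet (s hx) (s hy) fun hA =>
    (log_nsq_of_balls G₁ G₂ hA hr fun z hz => Subset.trans (ball_subset_ball' ?_) hm).trans ?_
  · linarith [mem_ball.1 ((convex_ball a r).segment_subset hx hy hz)]
  · rw [div_le_iff₀ hr, ← dist_eq_norm]
    have := dist_triangle_right y x a
    nlinarith [mem_ball.1 hx, mem_ball.1 hy, cg_nonneg (K₁ + K₂)]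

/-- growth along a ray on which the discs grow linearly -/
theorem log_nsq_ray (G₁ : GM U h₁ Y₁ K₁) (G₂ : GM U h₂ Y₂ K₂) (hA : A ≠ 0) {s₀ s₁ : ℝ}
    (h0 : 0 < s₀) (h1 : s₀ ≤ s₁)
    (hm : ∀ s ∈ Icc s₀ s₁, ∀ t : ℂ, ‖t‖ < s → x + s • ξ + t • ξ ∈ U) :
    |Real.log (nsq (h₁ (x + s₁ • ξ)) (h₂ (x + s₁ • ξ)) A) -
        Real.log (nsq (h₁ (x + s₀ • ξ)) (h₂ (x + s₀ • ξ)) A)| ≤
      cg (K₁ + K₂) * (Real.log s₁ - Real.log s₀) := by
  have d := fun s (hs : s ∈ Icc s₀ s₁) => hasDerivAt_log_nsq (x := x) (ξ := ξ) (s := s) G₁.toMet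
    G₂.toMet hA (by simpa using hm s hs 0 (by simpa using h0.trans_le hs.1))
  have dB : ∀ s ∈ Icc s₀ s₁, HasDerivAt (fun s => cg (K₁ + K₂) * (Real.log s - Real.log s₀))
      (cg (K₁ + K₂) / s) s := fun s hs =>
    ((Real.hasDerivAt_log (h0.trans_le hs.1).ne').sub_const _).const_mul _
  exact image_norm_le_of_norm_deriv_right_le_deriv_boundary' (a := s₀) (b := s₁)
    (f := fun s => Real.log (nsq (h₁ (x + s • ξ)) (h₂ (x + s • ξ)) A) -
      Real.log (nsq (h₁ (x + s₀ • ξ)) (h₂ (x + s₀ • ξ)) A))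
    (fun s hs => ((d s hs).sub_const _).continuousAt.continuousWithinAt)
    (fun s hs => ((d s (Ico_subset_Icc_self hs)).sub_const _).hasDerivWithinAt) (by simp)
    (fun s hs => (dB s hs).continuousAt.continuousWithinAt)
    (fun s hs => (dB s (Ico_subset_Icc_self hs)).hasDerivWithinAt)
    (fun s hs => abs_pd_le_disc G₁ G₂ hA (h0.trans_le hs.1) (hm s (Ico_subset_Icc_self hs)))
    ⟨h1, le_rfl⟩

end growth

section half

variable {Ω : Set ℂ} {h₁ Y₁ : ℂ → Matrix n n ℂ} {h₂ Y₂ : ℂ → Matrix m m ℂ} {K₁ K₂ a : ℝ}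
  {A : Matrix m n ℂ}

theorem log_nsq_horiz (G₁ : GM Ω h₁ Y₁ K₁) (G₂ : GM Ω h₂ Y₂ K₂) (hA : A ≠ 0)
    (hΩ : ∀ w : ℂ, a < w.im → w ∈ Ω) {w w' : ℂ} (hw : a < w.im) (e : w'.im = w.im) :
    |Real.log (nsq (h₁ w') (h₂ w') A) - Real.log (nsq (h₁ w) (h₂ w) A)| ≤
      cg (K₁ + K₂) * |w'.re - w.re| / (w.im - a) := by
  have := log_nsq_of_balls (x := w) (y := w') G₁ G₂ hA (sub_pos.2 hw) fun z hz v hv => hΩ v (by
    obtain ⟨s, t, -, -, h1, rfl⟩ := hz
    have h2 := (abs_im_le_norm _).trans_lt (show ‖v - _‖ < _ by rwa [← dist_eq_norm])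
    have h3 : (s • w + t • w').im = w.im := by
      simp only [add_im, smul_im, e, smul_eq_mul, ← add_mul, h1, one_mul]
    rw [sub_im, h3] at h2
    linarith [(abs_lt.1 h2).1])
  have e2 : w' - w = ((w'.re - w.re : ℝ) : ℂ) := Complex.ext (by simp) (by simp [e])
  rwa [e2, norm_real, Real.norm_eq_abs] at this

theorem log_nsq_vert (G₁ : GM Ω h₁ Y₁ K₁) (G₂ : GM Ω h₂ Y₂ K₂) (hA : A ≠ 0)
    (hΩ : ∀ w : ℂ, a < w.im → w ∈ Ω) {w w' : ℂ} (hw : a < w.im) (hw' : a < w'.im)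
    (e : w'.re = w.re) :
    |Real.log (nsq (h₁ w') (h₂ w') A) - Real.log (nsq (h₁ w) (h₂ w) A)| ≤
      cg (K₁ + K₂) * |Real.log (w'.im - a) - Real.log (w.im - a)| := by
  wlog h : w.im ≤ w'.im generalizing w w'
  · rw [abs_sub_comm, abs_sub_comm (Real.log (w'.im - a))]
    exact this hw' hw e.symm (not_le.1 h).le
  have := log_nsq_ray (x := (w.re + a * I : ℂ)) (ξ := I) G₁ G₂ hA (sub_pos.2 hw)
    (sub_le_sub_right h a) fun s _ t ht => hΩ _ (by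
      have := (abs_lt.1 ((abs_re_le_norm t).trans_lt ht)).1
      simp
      linarith)
  have e1 : (w.re + a * I : ℂ) + (w'.im - a) • I = w' := Complex.ext (by simp [e]) (by simp)
  have e2 : (w.re + a * I : ℂ) + (w.im - a) • I = w := Complex.ext (by simp) (by simp)
  rw [e1, e2] at this
  exact this.trans (mul_le_mul_of_nonneg_left (le_abs_self _) (cg_nonneg _))

/-- growth on a half plane -/
theorem log_nsq_half (G₁ : GM Ω h₁ Y₁ K₁) (G₂ : GM Ω h₂ Y₂ K₂) (hA : A ≠ 0)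
    (hΩ : ∀ w : ℂ, a < w.im → w ∈ Ω) {w w' : ℂ} (hw : a < w.im) (hw' : a < w'.im) :
    |Real.log (nsq (h₁ w') (h₂ w') A) - Real.log (nsq (h₁ w) (h₂ w) A)| ≤
      cg (K₁ + K₂) * (|Real.log (w'.im - a) - Real.log (w.im - a)| +
        |w'.re - w.re| / (w'.im - a)) := by
  have v := log_nsq_vert G₁ G₂ hA hΩ (w := w) (w' := ⟨w.re, w'.im⟩) hw hw' rfl
  have h := log_nsq_horiz G₁ G₂ hA hΩ (w := ⟨w.re, w'.im⟩) (w' := w') hw' rfl
  rw [mul_add, ← mul_div_assoc]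
  exact (abs_sub_le _ _ _).trans ((add_le_add h v).trans_eq (add_comm _ _))

end half

end

end Pool.Agent.Lib.MP_5c318e_ag.V
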