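import Pool.Agent.Lib.MP_5c318e_ag.V.Defs
import Pool.Agent.Lib.MP_5c318e_ag.V.Grow

/-! The projectors of a variation on a ball are Lipschitz for the Hodge metric: the proof. -/

set_option autoImplicit false
set_option linter.unusedSectionVars false

namespace Pool.Agent.Lib.MP_5c318e_ag.V

open Matrix Filter Topology Complex Metric Set
open scoped ComplexOrder ContDiff ComplexConjugate

noncomputable section

section

variable {E : Type*} [NormedAddCommGroup E] [NormedSpace ℂ E] {n : Type*} [Fintype n]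
  [DecidableEq n] {U : Set E} {Q : Matrix n n ℂ} {S : Finset ℤ} {π : ℤ → E → Matrix n n ℂ} {x : E}

theorem LV.dbar_prj (L : LV U Q S π) (hx : x ∈ U) (ξ : E) (p : ℤ) :
    derM I ξ (π p) x = ths (fun x => Q * wey S π x) ξ x * π p x -
      π p x * ths (fun x => Q * wey S π x) ξ x := by
  have M := L.met
  have sp := L.sm p x hx
  have e : derM I ξ (fun y => (π p y)ᴴ * (Q * wey S π y)) x =
      derM I ξ (fun y => Q * wey S π y * π p y) x := derM_congr_on L.op hx fun y hy => L.adj_prj hy p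
  have a := L.adj_prj hx p
  have b := M.adj_th (ξ := ξ) hx
  rw [derM_mul sp.ct (M.sm x hx), derM_mul (M.sm x hx) sp, dbar_ct sp, L.d_prj hx, M.dbar_h hx,
    conjTranspose_sub, conjTranspose_mul, conjTranspose_mul, Matrix.sub_mul,
    Matrix.mul_assoc (π p x)ᴴ, Matrix.mul_assoc _ (π p x)ᴴ, b, a, ← Matrix.mul_assoc _ _ (π p x), b,
    Matrix.mul_smul, ← Matrix.mul_assoc (π p x)ᴴ, a] at e
  have u := M.unit hx
  generalize Q * wey S π x = H at *
  have f : H * derM I ξ (π p) x = H * (ths (fun x => Q * wey S π x) ξ x * π p x -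
      π p x * ths (fun x => Q * wey S π x) ξ x) := by
    rw [eq_sub_of_add_eq' e.symm]
    simp only [Matrix.mul_sub, Matrix.smul_mul, Matrix.mul_assoc]
    module
  have := congrArg (fun A => H⁻¹ * A) f
  simpa only [← Matrix.mul_assoc, Matrix.nonsing_inv_mul _ u, Matrix.one_mul] using this

theorem LV.nsq_prj_le (L : LV U Q S π) (hx : x ∈ U) (p : ℤ) :
    nsq (Q * wey S π x) (Q * wey S π x) (π p x) ≤ Fintype.card n := by
  have H := L.prj x hx
  have n0 : ∀ p, 0 ≤ (π p x).trace.re := fun p => by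
    rw [← L.nsq_prj hx]
    exact nsq_nonneg (L.pos x hx) (L.pos x hx) _
  have s : ∑ p ∈ S, (π p x).trace.re = Fintype.card n := by
    rw [← re_sum, ← trace_sum, H.sum, trace_one, natCast_re]
  by_cases hp : p ∈ S
  · rw [L.nsq_prj hx, ← s]
    exact Finset.single_le_sum (fun q _ => n0 q) hp
  · rw [show π p x = 0 from H.zero p hp, nsq_zero]
    exact Nat.cast_nonneg _

theorem LV.adj_wey (L : LV U Q S π) (hx : x ∈ U) :
    (wey S π x)ᴴ * (Q * wey S π x) = Q * wey S π x * wey S π x := by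
  conv_lhs => rw [wey.eq_1 S π x, conjTranspose_sum, ← wey, Finset.sum_mul]
  conv_rhs => rw [wey.eq_1 S π x]
  rw [Finset.mul_sum, ← wey]
  refine Finset.sum_congr rfl fun q _ => ?_
  rw [conjTranspose_smul, Matrix.smul_mul, L.adj_prj hx, Matrix.mul_smul]
  simp

theorem LV.nsq_wey (L : LV U Q S π) (hx : x ∈ U) :
    nsq (Q * wey S π x) (Q * wey S π x) (wey S π x) = Fintype.card n := by
  rw [nsq, ip_adj (L.met.unit hx) (L.adj_wey hx), L.wey_sq hx, trace_one, natCast_re]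

/-- the real derivative of a matrix valued function -/
theorem hasDerivAt_entry {m : Type*} {f : E → Matrix m n ℂ} {ξ : E} {s : ℝ}
    (hf : SmM f (x + s • ξ)) (i : m) (j : n) : HasDerivAt (fun s : ℝ => f (x + s • ξ) i j)
      ((derM (-I) ξ f (x + s • ξ) + derM I ξ f (x + s • ξ)) i j) s := by
  have l : HasDerivAt (fun s : ℝ => x + s • ξ) ξ s := by
    simpa using ((hasDerivAt_id s).smul_const ξ).const_add x
  have := (hf i j).diff.hasFDerivAt.comp_hasDerivAt s l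
  rwa [← d_add_dbar] at this

theorem LV.nsq_dprj_le (L : LV U Q S π) (hx : x ∈ U) (ξ : E) (p : ℤ) :
    nsq (Q * wey S π x) (Q * wey S π x) (derM (-I) ξ (π p) x + derM I ξ (π p) x) ≤
      16 * Fintype.card n * lam (fun x => Q * wey S π x) ξ x := by
  have P := L.pos x hx
  have c := L.nsq_prj_le hx p
  have t := L.met.nsq_ths (ξ := ξ) hx
  have l := L.met.lam_nonneg (ξ := ξ) hx
  have a1 := nsq_mul P P P (th (fun x => Q * wey S π x) ξ x) (π p x)
  have a2 := nsq_mul P P P (π p x) (th (fun x => Q * wey S π x) ξ x)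
  have a3 := nsq_mul P P P (ths (fun x => Q * wey S π x) ξ x) (π p x)
  have a4 := nsq_mul P P P (π p x) (ths (fun x => Q * wey S π x) ξ x)
  have b1 := nsq_sub_le P P (th (fun x => Q * wey S π x) ξ x * π p x)
    (π p x * th (fun x => Q * wey S π x) ξ x)
  have b2 := nsq_sub_le P P (ths (fun x => Q * wey S π x) ξ x * π p x)
    (π p x * ths (fun x => Q * wey S π x) ξ x)
  rw [L.d_prj hx, L.dbar_prj hx]
  refine (nsq_add_le P P _ _).trans ?_
  rw [t] at a3 a4
  unfold lam at *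
  nlinarith [mul_le_mul_of_nonneg_left c l]

end

variable {ι : Type} [Fintype ι] [DecidableEq ι]

theorem qf_eq_ip (H : Matrix ι ι ℂ) (u v : ι → ℂ) :
    qf H u v = ip (1 : Matrix Unit Unit ℂ) H (replicateCol Unit v) (replicateCol Unit u) :=
  (ip_col H v u).symm

theorem qf_eq_nsq (H : Matrix ι ι ℂ) (u : ι → ℂ) :
    (qf H u u).re = nsq (1 : Matrix Unit Unit ℂ) H (replicateCol Unit u) := by
  rw [qf_eq_ip, nsq]

theorem lip_core (ι : Type) [Fintype ι] [DecidableEq ι] (w : ℕ) : ∃ K : ℝ, 0 < K ∧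
    ∀ (E : Type) [NormedAddCommGroup E] [NormedSpace ℂ E] (a0 : E) (δ : ℝ) (Q : Matrix ι ι ℂ)
      (π : ℤ → E → Matrix ι ι ℂ), LV (ball a0 δ) Q (wt w) π → ∀ a ∈ ball a0 (δ / 2),
      ∀ u v : ι → ℂ,
        (qf (Q * wey (wt w) π a) u u).re ≤ K * (qf (Q * wey (wt w) π a0) u u).re ∧
        (qf (Q * wey (wt w) π a0) u u).re ≤ K * (qf (Q * wey (wt w) π a) u u).re ∧
        ∀ p, ‖qf Q u ((π p a - π p a0) *ᵥ v)‖ ^ 2 ≤ (K * ‖a - a0‖ / δ) ^ 2 *
          ((qf (Q * wey (wt w) π a0) u u).re * (qf (Q * wey (wt w) π a0) v v).re) := by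
  obtain ⟨K₀, hK₀⟩ : ∃ K₀ : ℝ, K₀ = (∑ p ∈ wt w, (p : ℝ) ^ 2) * Fintype.card ι := ⟨_, rfl⟩
  have k0 : 0 ≤ K₀ := by
    rw [hK₀]
    positivity
  obtain ⟨c, hc⟩ : ∃ c : ℝ, c = Fintype.card ι := ⟨_, rfl⟩
  obtain ⟨e, he⟩ : ∃ e : ℝ, e = Real.exp (2 * cg (0 + K₀)) := ⟨_, rfl⟩
  have e0 : 0 < e := he ▸ Real.exp_pos _
  have t0 : 0 ≤ 128 * c ^ 2 * K₀ := by positivity
  refine ⟨e * (1 + 128 * c ^ 2 * K₀), by positivity, fun E _ _ a0 δ Q π L a ha u v => ?_⟩
  have hδ : 0 < δ := by linarith [pos_of_mem_ball ha]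
  have G := hK₀ ▸ L.gm
  have G0 := gm_const (E := E) (U := ball a0 δ) isOpen_ball (PosDef.one (n := Unit))
  have sb : ball a0 (δ / 2) ⊆ ball a0 δ := ball_subset_ball (by linarith)
  have a0m : a0 ∈ ball a0 (δ / 2) := mem_ball_self (half_pos hδ)
  have har : ∀ x ∈ ball a0 (δ / 2), ∀ y ∈ ball a0 (δ / 2), ∀ u : ι → ℂ,
      (qf (Q * wey (wt w) π y) u u).re ≤ e * (qf (Q * wey (wt w) π x) u u).re :=
    fun x hx y hy u => by
      rw [qf_eq_nsq, qf_eq_nsq, he]
      exact nsq_le_ball G0 G (by rw [mul_div_cancel₀ _ two_ne_zero]) hx hy _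
  have nn : ∀ x ∈ ball a0 (δ / 2), ∀ u : ι → ℂ, 0 ≤ (qf (Q * wey (wt w) π x) u u).re :=
    fun x hx u => by
      rw [qf_eq_nsq]
      exact nsq_nonneg PosDef.one (L.pos x (sb hx)) _
  have up : ∀ x ∈ ball a0 (δ / 2), ∀ u : ι → ℂ, e * (qf (Q * wey (wt w) π x) u u).re ≤
      e * (1 + 128 * c ^ 2 * K₀) * (qf (Q * wey (wt w) π x) u u).re := fun x hx u =>
    mul_le_mul_of_nonneg_right (le_mul_of_one_le_right e0.le (by linarith)) (nn x hx u)
  refine ⟨(har a0 a0m a ha u).trans (up a0 a0m u), (har a ha a0 a0m u).trans (up a ha u),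
    fun p => ?_⟩
  have seg : ∀ s ∈ Icc (0 : ℝ) 1, a0 + s • (a - a0) ∈ ball a0 (δ / 2) := fun s hs =>
    (convex_ball a0 (δ / 2)).add_smul_sub_mem a0m ha hs
  have dv : ∀ s ∈ Icc (0 : ℝ) 1, HasDerivAt (fun s : ℝ => qf Q u (π p (a0 + s • (a - a0)) *ᵥ v))
      (qf Q u ((derM (-I) (a - a0) (π p) (a0 + s • (a - a0)) +
        derM I (a - a0) (π p) (a0 + s • (a - a0))) *ᵥ v)) s := fun s hs => by
    simp only [qf, dotProduct, mulVec]
    exact HasDerivAt.fun_sum fun i _ => HasDerivAt.const_mul _ (HasDerivAt.fun_sum fun j _ =>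
      HasDerivAt.const_mul _ (HasDerivAt.fun_sum fun k _ =>
        (hasDerivAt_entry (L.sm p _ (sb (seg s hs))) j k).mul_const _))
  obtain ⟨B, hB⟩ : ∃ B : ℝ, B = (e * (1 + 128 * c ^ 2 * K₀) * ‖a - a0‖ / δ) ^ 2 *
    ((qf (Q * wey (wt w) π a0) u u).re * (qf (Q * wey (wt w) π a0) v v).re) := ⟨_, rfl⟩
  have B0 : 0 ≤ B := hB ▸ mul_nonneg (sq_nonneg _) (mul_nonneg (nn a0 a0m u) (nn a0 a0m v))
  have bd : ∀ z ∈ ball a0 (δ / 2),
      ‖qf Q u ((derM (-I) (a - a0) (π p) z + derM I (a - a0) (π p) z) *ᵥ v)‖ ≤ √B := fun z hz => by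
    have P := L.pos z (sb hz)
    have l := G.lam_le_ball (x := z) (half_pos hδ)
      (ball_subset_ball' (by linarith [mem_ball.1 hz])) (a - a0)
    have d := (L.nsq_dprj_le (sb hz) (a - a0) p).trans
      (mul_le_mul_of_nonneg_left l (by positivity))
    generalize derM (-I) (a - a0) (π p) z + derM I (a - a0) (π p) z = D at *
    have q : qf Q u (D *ᵥ v) = ip (1 : Matrix Unit Unit ℂ) (Q * wey (wt w) π z)
        (wey (wt w) π z * (D * replicateCol Unit v)) (replicateCol Unit u) := by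
      rw [qf_eq_ip, replicateCol_mulVec, ip, ip]
      simp only [Matrix.mul_assoc]
      rw [← Matrix.mul_assoc (wey _ π z), L.wey_sq (sb hz), Matrix.one_mul]
    have c1 := ip_cs PosDef.one P (wey (wt w) π z * (D * replicateCol Unit v)) (replicateCol Unit u)
    have c2 := nsq_mul PosDef.one P P (wey (wt w) π z) (D * replicateCol Unit v)
    have c3 := nsq_mul PosDef.one P P D (replicateCol Unit v)
    rw [L.nsq_wey (sb hz), ← hc] at c2
    rw [← qf_eq_nsq] at c1 c3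
    rw [← hc] at d
    have c0 : 0 ≤ c := hc ▸ Nat.cast_nonneg _
    have c4 := c3.trans (mul_le_mul d (har a0 a0m z hz v) (nn z hz v) (by positivity))
    have c5 := c1.trans (mul_le_mul (c2.trans (mul_le_mul_of_nonneg_left c4 c0))
      (har a0 a0m z hz u) (nn z hz u) (by have := nn a0 a0m v; positivity))
    rw [q]
    refine Real.le_sqrt_of_sq_le (c5.trans ?_)
    have i : 128 * c ^ 2 * K₀ ≤ (1 + 128 * c ^ 2 * K₀) ^ 2 := by nlinarith
    have j := mul_le_mul_of_nonneg_right i (show 0 ≤ (e * ‖a - a0‖ / δ) ^ 2 *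
      ((qf (Q * wey (wt w) π a0) u u).re * (qf (Q * wey (wt w) π a0) v v).re) from
        mul_nonneg (sq_nonneg _) (mul_nonneg (nn a0 a0m u) (nn a0 a0m v)))
    rw [hB]
    refine le_of_eq_of_le ?_ (j.trans_eq ?_)
    · field_simp
      ring
    · ring
  have := norm_image_sub_le_of_norm_deriv_le_segment_01' (fun s hs => (dv s hs).hasDerivWithinAt)
    fun s hs => bd _ (seg s (Ico_subset_Icc_self hs))
  simp only [one_smul, add_sub_cancel, zero_smul, add_zero] at this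
  have e2 : qf Q u ((π p a - π p a0) *ᵥ v) = qf Q u (π p a *ᵥ v) - qf Q u (π p a0 *ᵥ v) := by
    simp only [qf, sub_mulVec, mulVec_sub, dotProduct_sub]
  rw [e2, ← hB]
  exact (Real.le_sqrt (norm_nonneg _) B0).1 this

end

end Pool.Agent.Lib.MP_5c318e_ag.V
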