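import Pool.Agent.Lib.MP_5c318e_ag.V.Frame
import Pool.Agent.Lib.MP_5c318e_ag.V.LipA

/-! The projectors of a variation on a ball are Lipschitz for the Hodge metric. -/

set_option autoImplicit false

namespace Pool.Agent.Lib.MP_5c318e_ag.V

open Matrix Filter Topology MeasureTheory Complex Metric
open scoped ComplexOrder ContDiff ComplexConjugate

noncomputable section

theorem lip (ι : Type) [Fintype ι] [DecidableEq ι] (w : ℕ) : ∃ K : ℝ, 0 < K ∧
    ∀ (E : Type) [NormedAddCommGroup E] [NormedSpace ℂ E] (a0 : E) (δ : ℝ) (Q : Matrix ι ι ℂ)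
      (π : ℤ → E → Matrix ι ι ℂ), LV (ball a0 δ) Q (wt w) π → ∀ a ∈ ball a0 (δ / 2),
      ∀ u v : ι → ℂ,
        (qf (Q * wey (wt w) π a) u u).re ≤ K * (qf (Q * wey (wt w) π a0) u u).re ∧
        (qf (Q * wey (wt w) π a0) u u).re ≤ K * (qf (Q * wey (wt w) π a) u u).re ∧
        ∀ p, ‖qf Q u ((π p a - π p a0) *ᵥ v)‖ ^ 2 ≤ (K * ‖a - a0‖ / δ) ^ 2 *
          ((qf (Q * wey (wt w) π a0) u u).re * (qf (Q * wey (wt w) π a0) v v).re) :=
  lip_core ι w

end

end Pool.Agent.Lib.MP_5c318e_ag.V
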