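import Pool.Agent.Lib.MP_5c318e_ag.V.FamPA
import Pool.Agent.Lib.MP_5c318e_ag.V.Pull
import Pool.Agent.Lib.MP_5c318e_ag.V.Lip

/-! Forms in a holomorphic motion. -/

set_option autoImplicit false

namespace Pool.Agent.Lib.MP_5c318e_ag.V

open Matrix Filter Topology MeasureTheory Complex Metric
open scoped ComplexOrder ContDiff ComplexConjugate

noncomputable section

variable {ι : Type} [Fintype ι] [DecidableEq ι] {w : ℕ}
  {A : Type} [NormedAddCommGroup A] [NormedSpace ℂ A]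
  {E : Type} [NormedAddCommGroup E] [NormedSpace ℂ E] {Ω : Set (A × ℂ)}
  {V : VHS (A × ℂ) Ω ι w}

theorem fp_cpt {U U' : Set ℂ} {f g : ℂ → ℂ} (m : ℂ → GL ι ℤ) {α : Form ι} (hf : Set.MapsTo f U U')
    (hg : Set.MapsTo g U' U) (hc : Continuous g) (e : ∀ x, g (f x) = x) (h : Cpt U' α) :
    Cpt U (pullF f m α) := by
  obtain ⟨L, h1, h2, h3⟩ := h
  refine ⟨g '' L, fun _ ⟨y, hy, e'⟩ => e' ▸ hg (h1 hy), h2.image hc, fun x hx hn => ?_⟩
  rw [pullF, h3 _ (hf hx) fun c => hn ⟨_, c, e x⟩, mulVec_zero]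

namespace Fam

variable {φ : E → A} {a0 : E} {K : Set ℂ} (M : Fam V φ a0 K) {a : E} {α β : Form ι}

theorem fp_pb (a : E) (α : Form ι) (x : ℂ) : M.pb a α x = M.J a x *ᵥ α (M.z a x) := rfl

theorem fp_sm (ha : a ∈ ball a0 M.δ) (x : ℂ) : Sm (M.z a) x :=
  ContDiffAt.comp (f := fun x' : ℂ => (a, x')) x (M.smz a ha x)
    (contDiffAt_const.prodMk contDiffAt_id)

theorem fp_lt (ha : a ∈ ball a0 M.δ) (x : ℂ) :
    ‖der I 1 (M.z a) x‖ < ‖der (-I) 1 (M.z a) x‖ := by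
  have h1 := M.small a ha x
  have h2 := norm_sub_norm_le (1 : ℂ) (der (-I) 1 (M.z a) x)
  rw [norm_sub_rev, norm_one] at h2
  linarith

theorem fp_bij (ha : a ∈ ball a0 M.δ) : Function.Bijective (M.z a) :=
  Function.bijective_iff_has_inverse.2 ⟨M.zi a, M.li a ha, M.ri a ha⟩

theorem fp_pos (ha : a ∈ ball a0 M.δ) (x : ℂ) :
    0 < ‖der (-I) 1 (M.z a) x‖ ^ 2 - ‖der I 1 (M.z a) x‖ ^ 2 :=
  sub_pos.2 (pow_lt_pow_left₀ (M.fp_lt ha x) (norm_nonneg _) two_ne_zero)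

theorem fp_half (ha : a ∈ ball a0 (M.δ / 2)) : a ∈ ball a0 M.δ :=
  ball_subset_ball (half_le_self M.pos.le) ha

theorem pb_pF (ha : a ∈ ball a0 M.δ) (p : ℤ) (α : Form ι) (x : ℂ) :
    M.pb a ((V.fib (φ a)).pF p α) x = M.P x p a *ᵥ M.pb a α x := by
  rw [fp_pb, fp_pb, P, mulVec_mulVec, nonsing_inv_mul_cancel_right _ _ (M.J_unit ha x),
    ← mulVec_mulVec]
  rfl

theorem pb_cF (ha : a ∈ ball a0 M.δ) (α : Form ι) (x : ℂ) :
    M.pb a ((V.fib (φ a)).cF α) x = wey (wt (w + 1)) (M.P x) a *ᵥ M.pb a α x := by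
  have e : wey (wt (w + 1)) (M.P x) a =
      M.J a x * weyP (w + 1) (prj1 fun p => V.π p (φ a, M.z a x)) * (M.J a x)⁻¹ := by
    simp only [wey, weyP, P, Matrix.mul_sum, Matrix.sum_mul, Matrix.mul_smul, Matrix.smul_mul]
  rw [e, fp_pb, fp_pb, mulVec_mulVec, nonsing_inv_mul_cancel_right _ _ (M.J_unit ha x),
    ← mulVec_mulVec]
  rfl

theorem fp_end (ha : a ∈ ball a0 M.δ) {ε : A × ℂ → Matrix ι ι ℂ} (hε : V.End ε) {x : ℂ}
    (hx : x ∈ fb Ω (φ a0)) :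
    cx (M.m a x) * ε (φ a, M.z a x) = ε (φ a0, x) * cx (M.m a x) := by
  have h0 : a0 ∈ ball a0 M.δ := mem_ball_self M.pos
  have hm : Set.MapsTo (fun b : E => (φ b, M.z b x)) (ball a0 M.δ) Ω :=
    fun b hb => (M.mem b hb x).2 hx
  have hc : ContinuousOn (fun b : E => (φ b, M.z b x)) (ball a0 M.δ) := fun b hb =>
    (ContinuousAt.comp (f := fun a' : E => (a', x)) (x := b) (M.toMot.fx_cont hb x)
      (continuous_id.prodMk continuous_const).continuousAt).continuousWithinAt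
  have k : cx (M.m a x) * ε (φ a, M.z a x) * cx (M.m a x)⁻¹ =
      cx (M.m a0 x) * ε (φ a0, M.z a0 x) * cx (M.m a0 x)⁻¹ := by
    refine (convex_ball a0 M.δ).isPreconnected.induction₂
      (fun b b' => cx (M.m b x) * ε (φ b, M.z b x) * cx (M.m b x)⁻¹ =
        cx (M.m b' x) * ε (φ b', M.z b' x) * cx (M.m b' x)⁻¹) (fun y hy => ?_)
      (fun _ _ _ _ _ _ h1 h2 => h1.trans h2) (fun _ _ _ _ h => h.symm) ha h0
    filter_upwards [M.isFr hx y hy,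
      ((hc y hy).tendsto_nhdsWithin hm).eventually (hε.flat _ (hm hy))] with y' h1 h2
    rw [h1, _root_.mul_inv_rev, cx_mul, cx_mul, Matrix.mul_assoc (cx (M.m y x)) (cx _), h2]
    simp only [Matrix.mul_assoc]
    rw [← Matrix.mul_assoc (cx (V.κ _ _)), cx_mul_inv, Matrix.one_mul]
  rw [M.m0 x hx, M.z0, inv_one, cx_one, Matrix.one_mul, Matrix.mul_one] at k
  rw [← k, Matrix.mul_assoc, cx_inv_mul, Matrix.mul_one]

theorem pb_ed (ha : a ∈ ball a0 M.δ) {ε : A × ℂ → Matrix ι ι ℂ} (hε : V.End ε) (α : Form ι) :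
    ∀ x ∈ fb Ω (φ a0), M.pb a (mulF (fun x => two (ε (φ a, x))) α) x =
      two (ε (φ a0, x)) *ᵥ M.pb a α x := fun x hx => by
  rw [fp_pb, fp_pb, mulF, mulVec_mulVec, mulVec_mulVec, J, Pl.jm_mul_two, Pl.two_mul_jm,
    M.fp_end ha hε hx]

theorem pb_pf (ha : a ∈ ball a0 M.δ) (α : Form ι) (x : ℂ) : M.pb a (M.pf a α) x = α x := by
  rw [pb, pf, pullF_comp _ _ α (M.fp_sm ha x) (M.smi a ha _),
    pullF_id _ α (Eventually.of_forall (M.li a ha)), M.li a ha, mul_inv_cancel, cx_one, two_one,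
    one_mulVec]

theorem pf_pb (ha : a ∈ ball a0 M.δ) (α : Form ι) (x : ℂ) : M.pf a (M.pb a α) x = α x := by
  rw [pb, pf, pullF_comp _ _ α (M.smi a ha _) (M.fp_sm ha _),
    pullF_id _ α (Eventually.of_forall (M.ri a ha)), inv_mul_cancel, cx_one, two_one, one_mulVec]

theorem pb_fix (ha : a ∈ ball a0 M.δ) (α : Form ι) {x : ℂ} (hx : x ∈ K) :
    M.pb a α x = two (cx (M.m a x)) *ᵥ α x :=
  pullF_id _ α ((M.fix x hx).mono fun _ h => h a ha)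

theorem pb_zero (α : Form ι) : ∀ x ∈ fb Ω (φ a0), M.pb a0 α x = α x := fun x hx => by
  rw [pb, pullF_id _ α (Eventually.of_forall M.z0), M.m0 x hx, cx_one, two_one, one_mulVec]

theorem pb_cpt (ha : a ∈ ball a0 M.δ) (h : Cpt (fb Ω (φ a)) α) : Cpt (fb Ω (φ a0)) (M.pb a α) :=
  fp_cpt _ (M.mor ha).maps (M.mor_inv ha).maps
    (continuous_iff_continuousAt.2 fun x => (M.smi a ha x).continuousAt) (M.li a ha) h

theorem pf_cpt (ha : a ∈ ball a0 M.δ) (h : Cpt (fb Ω (φ a0)) α) : Cpt (fb Ω (φ a)) (M.pf a α) :=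
  fp_cpt _ (M.mor_inv ha).maps (M.mor ha).maps
    (continuous_iff_continuousAt.2 fun x => (M.fp_sm ha x).continuousAt) (M.ri a ha) h

theorem Q_pb (ha : a ∈ ball a0 M.δ) (α β : Form ι) :
    (V.fib (φ a0)).Q (M.pb a α) (M.pb a β) = (V.fib (φ a)).Q α β := by
  refine .trans ?_ (integral_pull (M.fp_sm ha) (M.fp_bij ha) (M.fp_lt ha) _).1
  exact integral_congr_ae (int_ae_eq (M.fin a0 (mem_ball_self M.pos)) fun x hx =>
    ((M.mor ha).pair α β x hx).trans real_smul.symm)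

/-- the norm of the fibre over `φ a` read on the central fibre -/
theorem nrm_pb (ha : a ∈ ball a0 M.δ) (α : Form ι) : ∀ x ∈ fb Ω (φ a0),
    (qf (psi1 (V.ψ (φ a0, x)) * wey (wt (w + 1)) (M.P x) a) (M.pb a α x) (M.pb a α x)).re =
      (‖der (-I) 1 (M.z a) x‖ ^ 2 - ‖der I 1 (M.z a) x‖ ^ 2) * (V.fib (φ a)).nrm α (M.z a x) :=
  fun x hx => by
  have e := (M.mor ha).pair α ((V.fib (φ a)).cF α) x hx
  rw [VHS.pair_cF α α _ ((M.mor ha).maps hx)] at e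
  rw [← qf_mulVec_right, ← M.pb_cF ha, VHS.nrm, ← re_ofReal_mul, ← e]
  rfl

theorem fp_nrm0 (α : Form ι) {x : ℂ} (hx : x ∈ fb Ω (φ a0)) :
    (qf (psi1 (V.ψ (φ a0, x)) * wey (wt (w + 1)) (M.P x) a0) (α x) (α x)).re =
      (V.fib (φ a0)).nrm α x := by
  have e : wey (wt (w + 1)) (M.P x) a0 = weyP (w + 1) (prj1 fun p => V.π p (φ a0, x)) := by
    simp only [wey, weyP, M.P_zero hx]
  rw [e, VHS.nrm, ← VHS.int_wey _ hx]
  rfl

theorem pb_l2 (ha : a ∈ ball a0 (M.δ / 2)) (s : (V.fib (φ a)).SmF α) (h : (V.fib (φ a)).L2 α) :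
    (V.fib (φ a0)).L2 (M.pb a α) := by
  obtain ⟨C, -, hC⟩ := lip (ι ⊕ ι) (w + 1)
  have hb := M.fp_half ha
  refine VHS.l2_of_le (M.fin a0 (mem_ball_self M.pos)) ((M.mor hb).smF s)
    (((integral_pull (M.fp_sm hb) (M.fp_bij hb) (M.fp_lt hb) _).2.2 h).const_mul C) fun x hx => ?_
  rw [smul_eq_mul, ← M.nrm_pb hb α x hx, ← M.fp_nrm0 _ hx]
  exact (hC E a0 M.δ _ _ (M.lv hx) a ha _ 0).2.1

theorem pf_l2 (ha : a ∈ ball a0 (M.δ / 2)) (s : (V.fib (φ a0)).SmF α) (h : (V.fib (φ a0)).L2 α) :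
    (V.fib (φ a)).L2 (M.pf a α) := by
  obtain ⟨C, -, hC⟩ := lip (ι ⊕ ι) (w + 1)
  have hb := M.fp_half ha
  have hg := (integral_pull (M.fp_sm hb) (M.fp_bij hb) (M.fp_lt hb) fun y =>
    C * (V.fib (φ a0)).nrm α (M.zi a y) /
      (‖der (-I) 1 (M.z a) (M.zi a y)‖ ^ 2 - ‖der I 1 (M.z a) (M.zi a y)‖ ^ 2)).2.1
    ((Integrable.const_mul h C).congr (Eventually.of_forall fun x => by
      simp only [M.li a hb, smul_eq_mul, mul_div_cancel₀ _ (M.fp_pos hb x).ne']))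
  refine VHS.l2_of_le (M.fin a hb) ((M.mor_inv hb).smF s) hg fun y hy => ?_
  have hx := (M.mor_inv hb).maps hy
  have e := M.nrm_pb hb (M.pf a α) _ hx
  rw [M.pb_pf hb, M.ri a hb] at e
  rw [le_div_iff₀' (M.fp_pos hb _), ← e, ← M.fp_nrm0 _ hx]
  exact (hC E a0 M.δ _ _ (M.lv hx) a ha _ 0).1

theorem pb_z (ha : a ∈ ball a0 (M.δ / 2)) (h : (V.fib (φ a)).Z α) : (V.fib (φ a0)).Z (M.pb a α) :=
  ⟨(M.mor (M.fp_half ha)).closed h.1, M.pb_l2 ha h.1.1 h.2⟩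

theorem pf_z (ha : a ∈ ball a0 (M.δ / 2)) (h : (V.fib (φ a0)).Z α) : (V.fib (φ a)).Z (M.pf a α) :=
  ⟨(M.mor_inv (M.fp_half ha)).closed h.1, M.pf_l2 ha h.1.1 h.2⟩

end Fam

end

end Pool.Agent.Lib.MP_5c318e_ag.V
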