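import Pool.Agent.Lib.MP_5c318e_ag.V.FamEx
import Pool.Agent.Lib.MP_5c318e_ag.V.Pull
import Pool.Agent.Lib.MP_5c318e_ag.V.Lip

/-! The projectors on forms in a holomorphic motion. -/

set_option autoImplicit false

namespace Pool.Agent.Lib.MP_5c318e_ag.V

open Matrix Filter Topology MeasureTheory Complex Metric
open scoped ComplexOrder ContDiff ComplexConjugate

noncomputable section

variable {ι : Type} [Fintype ι] [DecidableEq ι] {w : ℕ}
  {A : Type} [NormedAddCommGroup A] [NormedSpace ℂ A]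
  {E : Type} [NormedAddCommGroup E] [NormedSpace ℂ E] {Ω : Set (A × ℂ)}
  {V : VHS (A × ℂ) Ω ι w}

theorem pa_jm (u v : ℂ) (M : Matrix ι ι ℂ) : jm u v M = jm u v 1 * two M := by
  rw [← jm_one_zero, jm_mul]
  simp

theorem pa_comm (u v : ℂ) (M : Matrix ι ι ℂ) : two M * jm u v 1 = jm u v 1 * two M := by
  rw [← jm_one_zero, jm_mul, jm_mul]
  simp

theorem pa_two_inv (g : GL ι ℤ) : (two (cx g))⁻¹ = two (cx g⁻¹) :=
  inv_eq_left_inv (by rw [two_mul_two, cx_inv_mul, two_one])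

theorem pa_prj1 (M N : Matrix ι ι ℂ) (P : ℤ → Matrix ι ι ℂ) (p : ℤ) :
    two M * prj1 P p * two N = prj1 (fun p => M * P p * N) p := by
  simp [two, prj1, fromBlocks_multiply]

theorem pa_lt {u v : ℂ} (h : ‖u - 1‖ + ‖v‖ ≤ 1 / 2) : ‖v‖ < ‖u‖ := by
  have h1 : ‖(1 : ℂ)‖ - ‖u‖ ≤ ‖u - 1‖ := by
    rw [norm_sub_rev]
    exact norm_sub_norm_le _ _
  rw [norm_one] at h1
  by_cases h0 : ‖v‖ < 1 / 2
  · linarith [norm_nonneg v]
  · have : u - 1 = 0 := norm_eq_zero.1 (by linarith [norm_nonneg (u - 1)])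
    rw [sub_eq_zero.1 this, norm_one]
    linarith [norm_nonneg (u - 1)]

theorem pa_unit {u v : ℂ} (h : ‖v‖ < ‖u‖) : IsUnit (jm u v (1 : Matrix ι ι ℂ)).det := by
  simpa only [cx_one] using jm_unit h (1 : GL ι ℤ)

omit [Fintype ι] [DecidableEq ι] in
theorem pa_sm_blocks {B C D F : E → Matrix ι ι ℂ} {a : E} (hB : SmM B a) (hC : SmM C a)
    (hD : SmM D a) (hF : SmM F a) : SmM (fun y => fromBlocks (B y) (C y) (D y) (F y)) a := by
  rintro (i | i) (j | j)
  exacts [hB i j, hC i j, hD i j, hF i j]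

omit [Fintype ι] [DecidableEq ι] in
theorem pa_der_blocks (B C D F : E → Matrix ι ι ℂ) (c : ℂ) (ξ a : E) :
    derM c ξ (fun y => fromBlocks (B y) (C y) (D y) (F y)) a =
      fromBlocks (derM c ξ B a) (derM c ξ C a) (derM c ξ D a) (derM c ξ F a) := by
  ext (i | i) (j | j) <;> rfl

omit [Fintype ι] in
theorem pa_sm_jm {u v : E → ℂ} {a : E} (hu : Sm u a) (hv : Sm v a) :
    SmM (fun y => jm (u y) (v y) (1 : Matrix ι ι ℂ)) a :=
  pa_sm_blocks (SmM.smul hu (smM_const _)) (SmM.smul hv.conj (smM_const _))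
    (SmM.smul hv (smM_const _)) (SmM.smul hu.conj (smM_const _))

omit [Fintype ι] [DecidableEq ι] in
theorem pa_sm_prj1 {R : ℤ → E → Matrix ι ι ℂ} {a : E} (h : ∀ p, SmM (R p) a) (p : ℤ) :
    SmM (fun y => prj1 (fun p => R p y) p) a :=
  pa_sm_blocks (h _) (smM_const _) (smM_const _) (h _)

theorem pa_sm {u : E → ℂ} {a : E} (hu : AnalyticAt ℂ u a) : Sm u a :=
  hu.contDiffAt.restrict_scalars ℝ

/-- a variation tensored with a holomorphic family of conformal structures -/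
theorem pa_ax {O : Set E} {Q : Matrix ι ι ℂ} {R : ℤ → E → Matrix ι ι ℂ} (L : LV O Q (wt w) R)
    {u v : E → ℂ} (hu : AnalyticOnNhd ℂ u O) (hv : AnalyticOnNhd ℂ v O)
    (h : ∀ a ∈ O, ‖v a‖ < ‖u a‖) {a : E} (ha : a ∈ O) :
    Ax (w + 1) (fun p y => jm (u y) (v y) 1 * prj1 (fun p => R p y) p * (jm (u y) (v y) 1)⁻¹)
      a := by
  have sJ : SmM (fun y => jm (u y) (v y) (1 : Matrix ι ι ℂ)) a :=
    pa_sm_jm (pa_sm (hu a ha)) (pa_sm (hv a ha))
  have uJ : IsUnit (jm (u a) (v a) (1 : Matrix ι ι ℂ)).det := pa_unit (h a ha)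
  have sP := fun p => (sJ.mul (pa_sm_prj1 (fun p => L.sm p a ha) p)).mul (sJ.inv uJ.ne_zero)
  refine ⟨sP, fun ξ => ?_⟩
  have sG := L.sm_gr ha
  have sY : SmM (gr (wt (w + 1)) fun p y =>
      jm (u y) (v y) 1 * prj1 (fun p => R p y) p * (jm (u y) (v y) 1)⁻¹) a :=
    SmM.sum _ fun p _ => (sP p).csmul _
  have sB : SmM (fun y => fromBlocks (gr (wt w) R y + 1) 0 0 (gr (wt w) R y)) a :=
    pa_sm_blocks (sG.add (smM_const _)) (smM_const _) (smM_const _) sG
  have e0 : ∀ y ∈ O, (gr (wt (w + 1)) (fun p y =>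
      jm (u y) (v y) 1 * prj1 (fun p => R p y) p * (jm (u y) (v y) 1)⁻¹) y) * jm (u y) (v y) 1 =
      jm (u y) (v y) 1 * fromBlocks (gr (wt w) R y + 1) 0 0 (gr (wt w) R y) := fun y hy => by
    have := grP_prj1 (L.prj y hy)
    rw [show fromBlocks (gr (wt w) R y + 1) 0 0 (gr (wt w) R y) = _ from this.symm, gr, grP,
      Finset.sum_mul, Finset.mul_sum]
    refine Finset.sum_congr rfl fun p _ => ?_
    rw [Matrix.smul_mul, Matrix.mul_smul, Matrix.mul_assoc,
      Matrix.nonsing_inv_mul _ (pa_unit (h y hy)), Matrix.mul_one]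
  have e1 := derM_congr_on (c := -I) (ξ := ξ) L.op ha e0
  have dJ : derM (-I) ξ (fun y => jm (u y) (v y) (1 : Matrix ι ι ℂ)) a =
      fromBlocks (der (-I) ξ u a • 1) 0 (der (-I) ξ v a • 1) 0 := by
    have c1 : ∀ {f : E → ℂ}, Sm f a → derM (-I) ξ (fun y => f y • (1 : Matrix ι ι ℂ)) a =
        der (-I) ξ f a • 1 := fun hf => by
      rw [derM_smul hf (smM_const _), derM_const, smul_zero, add_zero]
    have c2 : ∀ {f : E → ℂ}, AnalyticAt ℂ f a → der (-I) ξ (fun y => conj (f y)) a = 0 :=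
      fun hf => by
        rw [der_conj (pa_sm hf).diff, map_neg, conj_I, neg_neg, dbar_holo hf.differentiableAt,
          map_zero]
    unfold jm
    rw [pa_der_blocks, c1 (pa_sm (hu a ha)), c1 (pa_sm (hv a ha)), c1 (pa_sm (hu a ha)).conj,
      c1 (pa_sm (hv a ha)).conj, c2 (hu a ha), c2 (hv a ha), zero_smul]
  rw [derM_mul sY sJ, derM_mul sJ sB, pa_der_blocks, derM_add sG (smM_const _), derM_const,
    derM_const, add_zero, dJ] at e1
  have e2 := e0 a ha
  have ax := L.ax a ha ξ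
  have c1 := pa_comm (u a) (v a) (gr (wt w) R a)
  have c2 := pa_comm (u a) (v a) (derM (-I) ξ (gr (wt w) R) a)
  generalize derM (-I) ξ (gr (wt (w + 1)) _) a = dY at e1 ⊢
  generalize gr (wt (w + 1)) _ a = Y at e1 e2 ⊢
  generalize derM (-I) ξ (gr (wt w) R) a = θ at e1 ax c2
  generalize gr (wt w) R a = G at e1 e2 ax c1
  have b1 : fromBlocks (G + 1) 0 0 G = two G + fromBlocks 1 0 0 0 := by
    simp [two, fromBlocks_add]
  have b2 : two θ * two G - two G * two θ = two θ := by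
    rw [two_mul_two, two_mul_two]
    conv_rhs => rw [← ax]
    simp [two, sub_eq_add_neg, fromBlocks_add, fromBlocks_neg]
  have b3 : two θ * fromBlocks 1 0 0 0 = fromBlocks 1 0 0 0 * two θ := by
    simp [two, fromBlocks_multiply]
  have b4 : two G * fromBlocks 1 0 0 0 = fromBlocks 1 0 0 0 * two G := by
    simp [two, fromBlocks_multiply]
  have b5 : (fromBlocks 1 0 0 0 : Matrix (ι ⊕ ι) (ι ⊕ ι) ℂ) * fromBlocks 1 0 0 0 =
      fromBlocks 1 0 0 0 := by simp [fromBlocks_multiply]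
  have b6 : (fromBlocks (der (-I) ξ u a • 1) 0 (der (-I) ξ v a • 1) 0 :
      Matrix (ι ⊕ ι) (ι ⊕ ι) ℂ) * fromBlocks 1 0 0 0 =
      fromBlocks (der (-I) ξ u a • 1) 0 (der (-I) ξ v a • 1) 0 := by simp [fromBlocks_multiply]
  have b7 : two G * fromBlocks (der (-I) ξ u a • 1) 0 (der (-I) ξ v a • 1) 0 =
      fromBlocks (der (-I) ξ u a • 1) 0 (der (-I) ξ v a • 1) 0 * two G := by
    simp [two, fromBlocks_multiply]
  rw [b1] at e1 e2
  change _ = _ + _ * two θ at e1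
  have i1 := Matrix.mul_nonsing_inv _ uJ
  have i2 := Matrix.nonsing_inv_mul _ uJ
  generalize (fromBlocks (der (-I) ξ u a • 1) 0 (der (-I) ξ v a • 1) 0 :
    Matrix (ι ⊕ ι) (ι ⊕ ι) ℂ) = D at *
  generalize (fromBlocks 1 0 0 0 : Matrix (ι ⊕ ι) (ι ⊕ ι) ℂ) = e at *
  generalize (jm (u a) (v a) (1 : Matrix ι ι ℂ))⁻¹ = J' at *
  generalize jm (u a) (v a) (1 : Matrix ι ι ℂ) = J at *
  generalize two θ = T at *
  generalize two G = H at *
  obtain rfl : Y = H + J * e * J' := by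
    linear_combination (norm := noncomm_ring) e2 * J' - Y * i1 - c1 * J' + H * i1
  have c3 : J' * H = H * J' := by
    linear_combination (norm := noncomm_ring) J' * c1 * J' - J' * H * i1 + i2 * H * J'
  have c4 : J' * T = T * J' := by
    linear_combination (norm := noncomm_ring) J' * c2 * J' - J' * T * i1 + i2 * T * J'
  obtain rfl : dY = T + (D - J * e * J' * D) * J' := by
    linear_combination (norm := noncomm_ring) e1 * J' - dY * i1 - b7 * J' + b6 * J' - c2 * J' +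
      T * i1
  have k1 : T * (J * e * J') = J * e * J' * T := by
    linear_combination (norm := noncomm_ring) c2 * e * J' + J * b3 * J' - J * e * c4
  have k2 : H * (J * e * J') = J * e * J' * H := by
    linear_combination (norm := noncomm_ring) c1 * e * J' + J * b4 * J' - J * e * c3
  have k3 : J * e * J' * (J * e * J') = J * e * J' := by
    linear_combination (norm := noncomm_ring) J * e * i2 * e * J' + J * b5 * J'
  have k4 : D * J' * (J * e * J') = D * J' := by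
    linear_combination (norm := noncomm_ring) D * i2 * e * J' + b6 * J'
  have k5 : D * J' * H = H * (D * J') := by
    linear_combination (norm := noncomm_ring) D * c3 - b7 * J'
  generalize J * e * J' = p at *
  linear_combination (norm := noncomm_ring) b2 + k1 + k5 - p * k5 + k2 * D * J' + k4 - p * k4 +
    k3 * D * J'

namespace Fam

variable {φ : E → A} {a0 : E} {K : Set ℂ} (M : Fam V φ a0 K) {a : E} {α β : Form ι}

theorem lt (ha : a ∈ ball a0 M.δ) (x : ℂ) : ‖der I 1 (M.z a) x‖ < ‖der (-I) 1 (M.z a) x‖ :=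
  pa_lt (M.small a ha x)

theorem J_unit (ha : a ∈ ball a0 M.δ) (x : ℂ) : IsUnit (M.J a x).det := jm_unit (M.lt ha x) _

theorem P_eq (x : ℂ) (p : ℤ) (a : E) :
    M.P x p a = jm (der (-I) 1 (M.z a) x) (der I 1 (M.z a) x) 1 *
      prj1 (fun p => cx (M.m a x) * V.π p (φ a, M.z a x) * cx (M.m a x)⁻¹) p *
        (jm (der (-I) 1 (M.z a) x) (der I 1 (M.z a) x) 1)⁻¹ := by
  rw [P, J, pa_jm, Matrix.mul_inv_rev, pa_two_inv, ← pa_prj1]
  simp only [Matrix.mul_assoc]

theorem P_zero {x : ℂ} (hx : x ∈ fb Ω (φ a0)) (p : ℤ) :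
    M.P x p a0 = prj1 (fun p => V.π p (φ a0, x)) p := by
  have e : M.z a0 = id := funext M.z0
  have e1 : der (-I) 1 (id : ℂ → ℂ) x = 1 := by
    rw [d_holo differentiableAt_id]
    simp
  rw [P, J, e, e1, dbar_holo differentiableAt_id, M.m0 x hx, cx_one, jm_one_zero, two_one, inv_one,
    Matrix.one_mul, Matrix.mul_one]
  rfl

/-- the variation along the trajectory of a point -/
theorem lv0 {x : ℂ} (hx : x ∈ fb Ω (φ a0)) : LV (ball a0 M.δ) (V.ψ (φ a0, x)) (wt w)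
    fun p a => cx (M.m a x) * V.π p (φ a, M.z a x) * cx (M.m a x)⁻¹ :=
  V.lv (φ := fun a => (φ a, M.z a x)) isOpen_ball (fun a ha => (M.an a ha).prod (M.hol x a ha))
    (fun a ha => (M.mem a ha x).2 hx) (M.isFr hx) fun a ha => by
      refine fx_conj _ ?_
      rw [inv_inv]
      exact (M.iso a ha x hx).symm

/-- for a fixed point the projectors form a variation in the parameter -/
theorem lv {x : ℂ} (hx : x ∈ fb Ω (φ a0)) :
    LV (ball a0 M.δ) (psi1 (V.ψ (φ a0, x))) (wt (w + 1)) (M.P x) := by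
  refine lv_of_ax isOpen_ball (fun a ha => ?_) fun a ha => ?_
  · exact (pa_ax (M.lv0 hx) (M.hol1 x) (M.hol2 x) (fun a ha => M.lt ha x) ha).congr
      (Eventually.of_forall fun a p => M.P_eq x p a)
  · have u := M.J_unit ha x
    have h0 : 0 < ‖der (-I) 1 (M.z a) x‖ ^ 2 - ‖der I 1 (M.z a) x‖ ^ 2 :=
      sub_pos.2 (pow_lt_pow_left₀ (M.lt ha x) (norm_nonneg _) two_ne_zero)
    have := ((V.phs _ ((M.mem a ha x).2 hx)).one.smul h0).gauge (Matrix.mul_nonsing_inv _ u)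
    rwa [M.iso a ha x hx, ← jm_psi1, ← J, ← Matrix.mul_assoc, ← Matrix.mul_assoc,
      ← conjTranspose_mul, Matrix.mul_assoc, Matrix.mul_nonsing_inv _ u, conjTranspose_one,
      Matrix.one_mul, Matrix.mul_one] at this

theorem sm_der (ha : a ∈ ball a0 M.δ) (x c : ℂ) :
    Sm (fun y : E × ℂ => der c 1 (M.z y.1) y.2) (a, x) := by
  refine ((M.smz a ha x).der c (0, 1)).congr_of_eventuallyEq ?_
  filter_upwards [(continuous_fst.continuousAt (x := (a, x))).eventually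
    (isOpen_ball.mem_nhds ha)] with y hy
  have h := (hasFDerivAt_prodMk_right (𝕜 := ℂ) y.1 y.2)
  have := der_comp_holo (c := c) (ξ := (1 : ℂ)) (f := fun p : E × ℂ => M.z p.1 p.2)
    (g := fun x' => (y.1, x')) (M.smz y.1 hy y.2).diff h.differentiableAt
  rw [h.fderiv] at this
  exact this

/-- the projectors are jointly smooth -/
theorem sm_P (ha : a ∈ ball a0 M.δ) {x : ℂ} (hx : x ∈ fb Ω (φ a0)) (p : ℤ) :
    SmM (fun y : E × ℂ => two (cx (V.κ (φ a0, x) (φ a0, y.2))) * M.P y.2 p y.1 *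
      two (cx (V.κ (φ a0, x) (φ a0, y.2))⁻¹)) (a, x) := by
  have hp : Plot Ω (fun y : E × ℂ => (φ y.1, y.2)) (a, M.z a x) :=
    ⟨(AnalyticAt.comp (f := Prod.fst) (x := (a, M.z a x)) (M.an a ha) analyticAt_fst).prod
      analyticAt_snd, eventually_of_mem (M.op.mem_nhds ⟨ha, (M.mem a ha x).2 hx⟩) fun _ h => h.2⟩
  have s1 : ∀ p, SmM (fun y : E × ℂ => cx (V.κ (φ a, M.z a x) (φ y.1, M.z y.1 y.2)) *
      V.π p (φ y.1, M.z y.1 y.2) * cx (V.κ (φ a, M.z a x) (φ y.1, M.z y.1 y.2))⁻¹) (a, x) :=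
    fun p i j => ContDiffAt.comp (f := fun y : E × ℂ => (y.1, M.z y.1 y.2)) (a, x)
      ((V.ax _ _ _ hp).1 p i j) (contDiffAt_fst.prodMk (M.smz a ha x))
  have sJ : SmM (fun y : E × ℂ =>
      jm (der (-I) 1 (M.z y.1) y.2) (der I 1 (M.z y.1) y.2) (1 : Matrix ι ι ℂ)) (a, x) :=
    pa_sm_jm (M.sm_der ha x _) (M.sm_der ha x _)
  refine ((sJ.mul (pa_sm_prj1 (fun p => ((smM_const (cx (M.m a x))).mul (s1 p)).mul
    (smM_const (cx (M.m a x)⁻¹))) p)).mul (sJ.inv (pa_unit (M.lt ha x)).ne_zero)).congr ?_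
  filter_upwards [M.tr a ha x hx, (continuous_fst.continuousAt (x := (a, x))).eventually
    (isOpen_ball.mem_nhds ha)] with y h hy
  have u : IsUnit (jm (der (-I) 1 (M.z y.1) y.2) (der I 1 (M.z y.1) y.2)
    (1 : Matrix ι ι ℂ)).det := pa_unit (M.lt hy y.2)
  have c := pa_comm (der (-I) 1 (M.z y.1) y.2) (der I 1 (M.z y.1) y.2)
    (cx (V.κ (φ a0, x) (φ a0, y.2))⁻¹)
  have c' : (jm (der (-I) 1 (M.z y.1) y.2) (der I 1 (M.z y.1) y.2) (1 : Matrix ι ι ℂ))⁻¹ *
      two (cx (V.κ (φ a0, x) (φ a0, y.2))⁻¹) = two (cx (V.κ (φ a0, x) (φ a0, y.2))⁻¹) *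
      (jm (der (-I) 1 (M.z y.1) y.2) (der I 1 (M.z y.1) y.2) (1 : Matrix ι ι ℂ))⁻¹ := by
    rw [← Matrix.mul_one (_ * two _), ← Matrix.mul_nonsing_inv _ u, ← Matrix.mul_assoc,
      Matrix.mul_assoc _ (two _), c, ← Matrix.mul_assoc, Matrix.nonsing_inv_mul _ u,
      Matrix.one_mul]
  rw [M.P_eq, Matrix.mul_assoc, Matrix.mul_assoc, c', ← Matrix.mul_assoc, ← Matrix.mul_assoc,
    ← Matrix.mul_assoc, pa_comm, Matrix.mul_assoc _ (two _) (prj1 _ _),
    Matrix.mul_assoc _ (two _ * _) (two _), pa_prj1]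
  congr 3
  funext q
  have h' := congrArg (·⁻¹) h
  simp only [_root_.mul_inv_rev] at h'
  rw [← Matrix.mul_assoc, ← Matrix.mul_assoc, ← cx_mul, h, Matrix.mul_assoc, Matrix.mul_assoc,
    ← cx_mul, h', cx_mul, cx_mul]
  simp only [Matrix.mul_assoc]

end Fam

end

end Pool.Agent.Lib.MP_5c318e_ag.V
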