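import Pool.Agent.Lib.MP_5c318e_ag.V.Int

/-! Helpers for the cohomology of a fibre. -/

set_option autoImplicit false

namespace Pool.Agent.Lib.MP_5c318e_ag.V

open Matrix Filter Topology MeasureTheory Complex Metric
open scoped ComplexOrder ContDiff ComplexConjugate

noncomputable section

variable {ι : Type} [Fintype ι] [DecidableEq ι] {w : ℕ} {Ω : Set ℂ} {V : VHS ℂ Ω ι w}

namespace FA

theorem op (hΩ : Ωᶜ.Finite) : IsOpen Ω := by
  simpa using hΩ.isClosed.isOpen_compl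

theorem ae (hΩ : Ωᶜ.Finite) : ∀ᵐ x : ℂ, x ∈ Ω := hΩ.measure_zero volume

theorem conn (hΩ : Ωᶜ.Finite) : IsPreconnected Ω := by
  have := (hΩ.countable.isPathConnected_compl_of_one_lt_rank (E := ℂ)
    (by rw [Complex.rank_real_complex]; exact Nat.one_lt_ofNat)).isConnected.isPreconnected
  simpa using this

theorem qf_ext {A B : Matrix ι ι ℂ} (h : ∀ u v, qf A u v = qf B u v) : A = B := by
  ext i j
  have := h (Pi.single i 1) (Pi.single j 1)
  simpa [qf, Pi.star_single] using this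

theorem qf_mul_le {H ε : Matrix ι ι ℂ} (hH : H.PosDef) (a : εᴴ * H = H * ε) (u : ι → ℂ) :
    (qf H (ε *ᵥ u) (ε *ᵥ u)).re ≤ (ε * ε).trace.re * (qf H u u).re := by
  have h := nsq_mul (PosDef.one (n := Unit) (R := ℂ)) hH hH ε (replicateCol Unit u)
  rw [← replicateCol_mulVec, nsq, nsq, nsq, ip_col, ip_col,
    ip_adj ((Matrix.isUnit_iff_isUnit_det _).1 hH.isUnit) a] at h
  exact h

theorem ed_H {ε : ℂ → Matrix ι ι ℂ} (hε : V.End ε) {x : ℂ} (hx : x ∈ Ω) :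
    (ε x)ᴴ * V.H x = V.H x * ε x := by
  have e : ε x * wey (wt w) V.π x = wey (wt w) V.π x * ε x := by
    simp only [wey, Finset.mul_sum, Finset.sum_mul, Matrix.mul_smul, Matrix.smul_mul,
      hε.comm x hx]
  rw [VHS.H, ← Matrix.mul_assoc, hε.adj x hx, Matrix.mul_assoc, e, Matrix.mul_assoc]

theorem ed_trace (hΩ : Ωᶜ.Finite) {ε : ℂ → Matrix ι ι ℂ} (hε : V.End ε) :
    ∃ C : ℝ, ∀ x ∈ Ω, (ε x * ε x).trace.re = C := by
  rcases Ω.eq_empty_or_nonempty with h0 | ⟨x0, h0⟩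
  · exact ⟨0, fun x hx => by simp [h0] at hx⟩
  have lc : ∀ y ∈ Ω, ∀ᶠ y' in 𝓝[Ω] y, (ε y' * ε y').trace.re = (ε y * ε y).trace.re := by
    intro y hy
    filter_upwards [hε.flat y hy] with y' h
    have e : ε y' = cx (V.κ y y')⁻¹ * (ε y * cx (V.κ y y')) := by
      rw [← h, ← Matrix.mul_assoc, cx_inv_mul, Matrix.one_mul]
    have e2 : ε y' * ε y' = cx (V.κ y y')⁻¹ * (ε y * ε y * cx (V.κ y y')) := by
      conv_lhs => rw [e]
      rw [Matrix.mul_assoc, Matrix.mul_assoc, ← Matrix.mul_assoc (cx (V.κ y y')), cx_mul_inv,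
        Matrix.one_mul, Matrix.mul_assoc]
    rw [e2, Matrix.trace_mul_comm, Matrix.mul_assoc, cx_mul_inv, Matrix.mul_one]
  refine ⟨(ε x0 * ε x0).trace.re, fun x hx => ?_⟩
  refine (conn hΩ).induction₂' (fun a b => (ε a * ε a).trace.re = (ε b * ε b).trace.re)
    (fun y hy => (lc y hy).mono fun y' h => ⟨h.symm, h⟩) ?_ hx h0
  intro a b c _ _ _ h1 h2
  exact h1.trans h2

theorem z_ed (hΩ : Ωᶜ.Finite) {ε : ℂ → Matrix ι ι ℂ} (hε : V.End ε) {ζ : Form ι} (hζ : V.Z ζ) :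
    V.Z (mulF (fun x => two (ε x)) ζ) := by
  obtain ⟨C, hC⟩ := ed_trace hΩ hε
  have c := hζ.1.ed (op hΩ) hε
  refine ⟨c, VHS.l2_of_le hΩ c.1 (hζ.2.const_mul C) fun x hx => ?_⟩
  have h1 := qf_mul_le (V.H_pos hx) (ed_H hε hx) fun i => ζ x (Sum.inl i)
  have h2 := qf_mul_le (V.H_pos hx) (ed_H hε hx) fun i => ζ x (Sum.inr i)
  rw [hC x hx] at h1 h2
  simp only [VHS.nrm, mulF, qf_two, two_mulVec, Sum.elim_inl, Sum.elim_inr, add_re, mul_add]
  exact add_le_add h1 h2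

theorem exact_ed (hΩ : Ωᶜ.Finite) {ε : ℂ → Matrix ι ι ℂ} (hε : V.End ε) {ζ : Form ι}
    (h : V.Exact ζ) : V.Exact (mulF (fun x => two (ε x)) ζ) := by
  obtain ⟨e, s, he⟩ := h
  refine ⟨_, s.ed (op hΩ) hε, fun x hx => ?_⟩
  rw [VHS.D_ed (op hΩ) s hε x hx, he x hx, mulF]

theorem two_prj1 {ε : Matrix ι ι ℂ} {P : ℤ → Matrix ι ι ℂ} (h : ∀ p, ε * P p = P p * ε) (p : ℤ) :
    two ε * prj1 P p = prj1 P p * two ε := by
  simp [two, prj1, fromBlocks_multiply, h]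

theorem two_psi1 {ε ψ : Matrix ι ι ℂ} (h : εᴴ * ψ = ψ * ε) :
    (two ε)ᴴ * psi1 ψ = psi1 ψ * two ε := by
  simp [two, psi1, fromBlocks_multiply, fromBlocks_conjTranspose, h]

end FA

end

end Pool.Agent.Lib.MP_5c318e_ag.V
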