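import Pool.Agent.Lib.MP_5c318e_ag.V.Exact
import Pool.Agent.Lib.MP_5c318e_ag.V.HarmP
import Pool.Agent.Lib.MP_5c318e_ag.V.FibAlgA

/-! The polarised grading of the cohomology of a fibre. -/

set_option autoImplicit false

namespace Pool.Agent.Lib.MP_5c318e_ag.V

open Matrix Filter Topology MeasureTheory Complex Metric
open scoped ComplexOrder ContDiff ComplexConjugate

noncomputable section

variable {ι : Type} [Fintype ι] [DecidableEq ι] {w : ℕ} {Ω : Set ℂ} {V : VHS ℂ Ω ι w}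

theorem VHS.Harm.eq_zero (hΩ : Ωᶜ.Finite) {η : Form ι} (h : V.Harm η) (he : V.Exact η) :
    ∀ x ∈ Ω, η x = 0 := by
  have e := he.orth hΩ h.1.2 (h.cF hΩ).1
  rw [VHS.Q_cF_self hΩ] at e
  exact VHS.eq_zero_of_int hΩ h.1.1.1 h.1.2 (by exact_mod_cast e)

namespace FA

theorem Q_left (hΩ : Ωᶜ.Finite) {α α' β : Form ι} (h : V.Z α) (h' : V.Z α') (hβ : V.Z β)
    (e : V.Exact (α - α')) : V.Q α β = V.Q α' β := by
  have := e.orth hΩ (h.sub hΩ h').2 hβ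
  rwa [VHS.Q_sub_left hΩ h.1.1 h.2 h'.1.1 h'.2 hβ.1.1 hβ.2, sub_eq_zero] at this

theorem Q_right (hΩ : Ωᶜ.Finite) {α β β' : Form ι} (h : V.Z α) (hβ : V.Z β) (hβ' : V.Z β')
    (e : V.Exact (β - β')) : V.Q α β = V.Q α β' := by
  rw [← VHS.Q_conj hΩ β α, ← VHS.Q_conj hΩ β' α, Q_left hΩ hβ hβ' h e]

end FA

namespace FD

variable {n : ℕ} (F : FD ι n)

omit [Fintype ι] [DecidableEq ι] in
theorem hf_apply (c : Fin n → ℂ) (x : ℂ) : F.hf c x = ∑ j, c j • F.h j x := by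
  simp [FD.hf, Finset.sum_apply]

omit [Fintype ι] [DecidableEq ι] in
theorem hf_sum {J : Type} (s : Finset J) (a : J → ℂ) (c : J → Fin n → ℂ) (x : ℂ) :
    F.hf (∑ j ∈ s, a j • c j) x = ∑ j ∈ s, a j • F.hf (c j) x := by
  simp only [hf_apply, Finset.sum_apply, Pi.smul_apply, smul_eq_mul, Finset.sum_smul,
    Finset.smul_sum, smul_smul]
  exact Finset.sum_comm

omit [Fintype ι] [DecidableEq ι] in
theorem hf_zero (x : ℂ) : F.hf 0 x = 0 := by simp [hf_apply]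

end FD

namespace Fib

variable {n : ℕ} {F : FD ι n} {ζ ζ' : Form ι}

theorem z_e (hΩ : Ωᶜ.Finite) (h : Fib V F) (j : Fin n) : V.Z (F.e j) :=
  ⟨h.closed j, VHS.l2_of_cpt hΩ (h.closed j).1 (h.cpt j)⟩

theorem z_sum (hΩ : Ωᶜ.Finite) (h : Fib V F) (c : Fin n → ℂ) : V.Z (∑ j, c j • F.e j) :=
  VHS.Z.sum hΩ _ (fun j _ => h.z_e hΩ j) c

theorem harm_hf (hΩ : Ωᶜ.Finite) (h : Fib V F) (c : Fin n → ℂ) : V.Harm (F.hf c) :=
  VHS.Harm.sum hΩ _ (fun j _ => h.harm j) c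

theorem exact_hf (h : Fib V F) (c : Fin n → ℂ) : V.Exact (F.hf c - ∑ j, c j • F.e j) := by
  have := VHS.Exact.sum Finset.univ (fun j _ => h.exact j) c
  simp only [smul_sub, Finset.sum_sub_distrib] at this
  exact this

theorem Q_e_sum (hΩ : Ωᶜ.Finite) (h : Fib V F) (c : Fin n → ℂ) (j : Fin n) :
    V.Q (F.e j) (∑ k, c k • F.e k) = (F.ψ V *ᵥ c) j := by
  rw [VHS.Q_sum_right hΩ (h.z_e hΩ j).1.1 (h.z_e hΩ j).2 _ fun k _ => h.z_e hΩ k]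
  simp [FD.ψ, mulVec, dotProduct, mul_comm]

theorem unit (hΩ : Ωᶜ.Finite) (h : Fib V F) : IsUnit (F.ψ V).det := by
  rw [isUnit_iff_ne_zero]
  intro h0
  obtain ⟨c, hc, e⟩ := Matrix.exists_mulVec_eq_zero_iff.2 h0
  have H := h.harm_hf hΩ c
  have h1 : ∀ j, V.Q (F.e j) (F.hf c) = 0 := fun j => by
    rw [FA.Q_right hΩ (h.z_e hΩ j) H.1 (h.z_sum hΩ c) (h.exact_hf c), h.Q_e_sum hΩ, e]
    rfl
  obtain ⟨c', e'⟩ := h.span _ (H.cF hΩ).1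
  have h2 : V.Q (V.cF (F.hf c)) (F.hf c) = 0 := by
    rw [FA.Q_left hΩ (H.cF hΩ).1 (h.z_sum hΩ c') H.1 e',
      VHS.Q_sum_left hΩ H.1.1.1 H.1.2 _ fun k _ => h.z_e hΩ k]
    simp [h1]
  rw [← VHS.Q_conj hΩ, VHS.Q_cF_self hΩ, conj_ofReal] at h2
  have h3 := VHS.eq_zero_of_int hΩ H.1.1.1 H.1.2 (by exact_mod_cast h2)
  refine hc (h.indep c (((h.exact_hf c).smul (-1)).congr fun x hx => ?_))
  simp [h3 x hx]

theorem cls_eq (hΩ : Ωᶜ.Finite) (h : Fib V F) (hζ : V.Z ζ) {c : Fin n → ℂ}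
    (e : V.Exact (ζ - ∑ j, c j • F.e j)) : F.cls V ζ = c := by
  have : (fun j => V.Q (F.e j) ζ) = F.ψ V *ᵥ c := funext fun j => by
    rw [FA.Q_right hΩ (h.z_e hΩ j) hζ (h.z_sum hΩ c) e, h.Q_e_sum hΩ]
  rw [FD.cls, this, mulVec_mulVec, Matrix.nonsing_inv_mul _ (h.unit hΩ), one_mulVec]

theorem cls_spec (hΩ : Ωᶜ.Finite) (h : Fib V F) (hζ : V.Z ζ) :
    V.Exact (ζ - ∑ j, F.cls V ζ j • F.e j) := by
  obtain ⟨c, e⟩ := h.span _ hζ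
  rwa [h.cls_eq hΩ hζ e]

theorem cls_congr (hΩ : Ωᶜ.Finite) (F : FD ι n) (e : ∀ x ∈ Ω, ζ' x = ζ x) :
    F.cls V ζ' = F.cls V ζ := by
  have : (fun j => V.Q (F.e j) ζ') = fun j => V.Q (F.e j) ζ :=
    funext fun j => VHS.Q_congr hΩ (fun _ _ => rfl) e
  rw [FD.cls, this, FD.cls]

theorem cls_of_exact (hΩ : Ωᶜ.Finite) (h : Fib V F) (hζ : V.Z ζ) (hζ' : V.Z ζ')
    (e : V.Exact (ζ - ζ')) : F.cls V ζ = F.cls V ζ' := by
  have : (fun j => V.Q (F.e j) ζ) = fun j => V.Q (F.e j) ζ' :=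
    funext fun j => FA.Q_right hΩ (h.z_e hΩ j) hζ hζ' e
  rw [FD.cls, this, FD.cls]

theorem cls_sum (hΩ : Ωᶜ.Finite) (h : Fib V F) {J : Type} (s : Finset J) {ζ : J → Form ι}
    (hζ : ∀ j ∈ s, V.Z (ζ j)) (c : J → ℂ) :
    F.cls V (∑ j ∈ s, c j • ζ j) = ∑ j ∈ s, c j • F.cls V (ζ j) := by
  have : (fun k => V.Q (F.e k) (∑ j ∈ s, c j • ζ j)) =
      ∑ j ∈ s, c j • fun k => V.Q (F.e k) (ζ j) := funext fun k => by
    rw [VHS.Q_sum_right hΩ (h.z_e hΩ k).1.1 (h.z_e hΩ k).2 _ hζ]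
    simp [Finset.sum_apply]
  rw [FD.cls, this, mulVec_sum]
  simp only [mulVec_smul, FD.cls]

theorem cls_e (hΩ : Ωᶜ.Finite) (h : Fib V F) (j : Fin n) : F.cls V (F.e j) = Pi.single j 1 := by
  refine h.cls_eq hΩ (h.z_e hΩ j) ?_
  have : ∑ k, (Pi.single j 1 : Fin n → ℂ) k • F.e k = F.e j := by
    simp [Pi.single_apply]
  rw [this, sub_self]
  exact VHS.exact_zero

theorem cls_int (hΩ : Ωᶜ.Finite) (h : Fib V F) (hζ : V.Z ζ) (hi : V.Intg ζ) :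
    ∃ c : Fin n → ℤ, F.cls V ζ = fun j => (c j : ℂ) := by
  obtain ⟨c, e⟩ := h.spanZ _ hζ hi
  exact ⟨c, h.cls_eq hΩ hζ e⟩

theorem cls_hf (hΩ : Ωᶜ.Finite) (h : Fib V F) (c : Fin n → ℂ) : F.cls V (F.hf c) = c :=
  h.cls_eq hΩ (h.harm_hf hΩ c).1 (h.exact_hf c)

theorem hf_cls (hΩ : Ωᶜ.Finite) (h : Fib V F) (hζ : V.Harm ζ) :
    ∀ x ∈ Ω, F.hf (F.cls V ζ) x = ζ x := fun x hx => by
  have e := (h.exact_hf (F.cls V ζ)).sub (h.cls_spec hΩ hζ.1)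
  rw [sub_sub_sub_cancel_right] at e
  exact sub_eq_zero.1 (((h.harm_hf hΩ _).sub hΩ hζ).eq_zero hΩ e x hx)

theorem Q_cls (hΩ : Ωᶜ.Finite) (h : Fib V F) (hζ : V.Z ζ) (hζ' : V.Z ζ') :
    V.Q ζ ζ' = qf (F.ψ V) (F.cls V ζ) (F.cls V ζ') := by
  have z := h.z_sum hΩ (F.cls V ζ')
  rw [FA.Q_left hΩ hζ (h.z_sum hΩ _) hζ' (h.cls_spec hΩ hζ),
    FA.Q_right hΩ (h.z_sum hΩ _) hζ' z (h.cls_spec hΩ hζ'),
    VHS.Q_sum_left hΩ z.1.1 z.2 _ fun k _ => h.z_e hΩ k]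
  simp only [h.Q_e_sum hΩ]
  rfl

theorem Q_hf (hΩ : Ωᶜ.Finite) (h : Fib V F) (c c' : Fin n → ℂ) :
    qf (F.ψ V) c c' = V.Q (F.hf c) (F.hf c') := by
  rw [h.Q_cls hΩ (h.harm_hf hΩ c).1 (h.harm_hf hΩ c').1, h.cls_hf hΩ, h.cls_hf hΩ]

theorem hf_inj (hΩ : Ωᶜ.Finite) (h : Fib V F) {c c' : Fin n → ℂ}
    (e : ∀ x ∈ Ω, F.hf c x = F.hf c' x) : c = c' := by
  rw [← h.cls_hf hΩ c, cls_congr hΩ F e, h.cls_hf hΩ]

theorem hf_ext (hΩ : Ωᶜ.Finite) (h : Fib V F) {A B : Matrix (Fin n) (Fin n) ℂ}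
    (e : ∀ c, ∀ x ∈ Ω, F.hf (A *ᵥ c) x = F.hf (B *ᵥ c) x) : A = B :=
  Matrix.ext_iff_mulVec.2 fun c => h.hf_inj hΩ (e c)

theorem hf_op (hΩ : Ωᶜ.Finite) (h : Fib V F) {M : ℂ → Matrix (ι ⊕ ι) (ι ⊕ ι) ℂ}
    (hM : ∀ j, V.Harm (mulF M (F.h j))) (c : Fin n → ℂ) :
    ∀ x ∈ Ω, F.hf (F.op V M *ᵥ c) x = M x *ᵥ F.hf c x := fun x hx => by
  have e : F.op V M *ᵥ c = ∑ k, c k • F.cls V (mulF M (F.h k)) := by
    ext j
    simp [FD.op, mulVec, dotProduct, Finset.sum_apply, mul_comm]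
  rw [e, F.hf_sum, F.hf_apply c, mulVec_sum]
  refine Finset.sum_congr rfl fun k _ => ?_
  rw [h.hf_cls hΩ (hM k) x hx, mulVec_smul, mulF]

theorem hf_prj (hΩ : Ωᶜ.Finite) (h : Fib V F) (p : ℤ) (c : Fin n → ℂ) :
    ∀ x ∈ Ω, F.hf (F.π V p *ᵥ c) x = V.pF p (F.hf c) x :=
  h.hf_op hΩ (fun j => (h.harm j).pF hΩ p) c

theorem hf_wey (hΩ : Ωᶜ.Finite) (h : Fib V F) (c : Fin n → ℂ) :
    ∀ x ∈ Ω, F.hf (weyP (w + 1) (F.π V) *ᵥ c) x = V.cF (F.hf c) x := fun x hx => by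
  simp only [VHS.cF, mulF, weyP, sum_mulVec, smul_mulVec]
  rw [F.hf_sum]
  refine Finset.sum_congr rfl fun p _ => ?_
  rw [h.hf_prj hΩ p c x hx]
  rfl

theorem op_adj (hΩ : Ωᶜ.Finite) (h : Fib V F) {M : ℂ → Matrix (ι ⊕ ι) (ι ⊕ ι) ℂ}
    {A : Matrix (Fin n) (Fin n) ℂ} (hA : ∀ c, ∀ x ∈ Ω, F.hf (A *ᵥ c) x = M x *ᵥ F.hf c x)
    (hM : ∀ x ∈ Ω, (M x)ᴴ * psi1 (V.ψ x) = psi1 (V.ψ x) * M x) : Aᴴ * F.ψ V = F.ψ V * A := by
  refine FA.qf_ext fun c c' => ?_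
  rw [← qf_mulVec_left, ← qf_mulVec_right, h.Q_hf hΩ, h.Q_hf hΩ,
    VHS.Q_congr hΩ (α := mulF M (F.hf c)) (hA c) fun _ _ => rfl, VHS.Q_mulF hΩ hM]
  exact (VHS.Q_congr hΩ (β := mulF M (F.hf c')) (fun _ _ => rfl) (hA c')).symm

theorem qf_wey (hΩ : Ωᶜ.Finite) (h : Fib V F) (c c' : Fin n → ℂ) :
    qf (F.ψ V * weyP (w + 1) (F.π V)) c c' = V.Q (F.hf c) (V.cF (F.hf c')) := by
  rw [← qf_mulVec_right, h.Q_hf hΩ]
  exact VHS.Q_congr hΩ (fun _ _ => rfl) (h.hf_wey hΩ c')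

theorem phs (hΩ : Ωᶜ.Finite) (h : Fib V F) : PHS (w + 1) (F.ψ V) (F.π V) := by
  have P := fun x (hx : x ∈ Ω) => (V.phs x hx).one
  have e : ∀ p c, ∀ x ∈ Ω, F.hf (F.π V p *ᵥ c) x = prj1 (fun p => V.π p x) p *ᵥ F.hf c x :=
    h.hf_prj hΩ
  have adj : ∀ p, (F.π V p)ᴴ * F.ψ V = F.ψ V * F.π V p := fun p =>
    h.op_adj hΩ (e p) fun x hx => (P x hx).adj p
  refine ⟨⟨?_, fun p => ?_, fun p q hpq => ?_, fun p hp => ?_⟩, adj, ?_⟩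
  · refine h.hf_ext hΩ fun c x hx => ?_
    have := F.hf_sum (wt (w + 1)) (fun _ => 1) (fun p => F.π V p *ᵥ c) x
    simp only [one_smul, e _ c x hx] at this
    rw [sum_mulVec, this, ← sum_mulVec, (P x hx).prj.sum, one_mulVec, one_mulVec]
  · refine h.hf_ext hΩ fun c x hx => ?_
    rw [← mulVec_mulVec, e _ _ x hx, e _ _ x hx, mulVec_mulVec, (P x hx).prj.idem]
  · refine h.hf_ext hΩ fun c x hx => ?_
    rw [← mulVec_mulVec, e _ _ x hx, e _ _ x hx, mulVec_mulVec, (P x hx).prj.orth p q hpq,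
      zero_mulVec, zero_mulVec, F.hf_zero]
  · refine h.hf_ext hΩ fun c x hx => ?_
    rw [e _ _ x hx, (P x hx).prj.zero p hp, zero_mulVec, zero_mulVec, F.hf_zero]
  · have hψ : (F.ψ V).IsHermitian := by
      ext j k
      exact VHS.Q_conj hΩ _ _
    refine PosDef.of_dotProduct_mulVec_pos ?_ fun c hc => ?_
    · have : (weyP (w + 1) (F.π V))ᴴ * F.ψ V = F.ψ V * weyP (w + 1) (F.π V) := by
        simp only [weyP, conjTranspose_sum, conjTranspose_smul, Finset.mul_sum, Finset.sum_mul,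
          Matrix.mul_smul, Matrix.smul_mul, adj, star_zpow₀, star_neg, star_one]
      rw [IsHermitian, conjTranspose_mul, hψ.eq, this]
    · have H := (h.harm_hf hΩ c).1
      change 0 < qf _ c c
      rw [h.qf_wey hΩ, VHS.Q_cF_self hΩ, zero_lt_real]
      refine (integral_nonneg_of_ae ((FA.ae hΩ).mono (VHS.nrm_nonneg _))).lt_of_ne fun h0 => ?_
      refine hc (h.hf_inj hΩ fun x hx => ?_)
      rw [VHS.eq_zero_of_int hΩ H.1.1 H.2 h0.symm x hx, F.hf_zero]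

theorem qf_H (hΩ : Ωᶜ.Finite) (h : Fib V F) (c c' : Fin n → ℂ) :
    qf (F.ψ V * weyP (w + 1) (F.π V)) c c' =
      ∫ x, qf (two (V.H x)) (F.hf c x) (F.hf c' x) := by
  rw [h.qf_wey hΩ]
  exact integral_congr_ae ((FA.ae hΩ).mono (VHS.pair_cF _ _))

theorem up_top (hΩ : Ωᶜ.Finite) (h : Fib V F) {v : Fin n → ℂ} (hv : F.π V (w + 1 : ℕ) *ᵥ v = v) :
    V.HolTop id (f1 (F.hf v)) Ω ∧ (∀ x ∈ Ω, F.hf v x = dxF (f1 (F.hf v)) x) ∧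
      (Integrable fun x => (qf (V.H x) (f1 (F.hf v) x) (f1 (F.hf v) x)).re) ∧
      F.cls V (dxF (f1 (F.hf v))) = v := by
  have H := (h.harm_hf hΩ v).1
  obtain ⟨h1, h2⟩ := VHS.holTop_of_closed hΩ H.1 fun x hx => by
    rw [← h.hf_prj hΩ _ v x hx, hv]
  refine ⟨h1, h2, Integrable.congr H.2 ((FA.ae hΩ).mono fun x hx => ?_), ?_⟩
  · have e : (fun i => F.hf v x (Sum.inr i)) = 0 := funext fun i => by rw [h2 x hx]; rfl
    simp only [VHS.nrm, qf_two, e, qf_zero_left, add_zero]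
    rfl
  · rw [cls_congr hΩ F fun x hx => (h2 x hx).symm, h.cls_hf hΩ]

theorem dn_top (hΩ : Ωᶜ.Finite) (h : Fib V F) {u : ℂ → ι → ℂ} (hu : V.HolTop id u Ω)
    (hi : Integrable fun x => (qf (V.H x) (u x) (u x)).re) :
    F.π V (w + 1 : ℕ) *ᵥ F.cls V (dxF u) = F.cls V (dxF u) ∧
      ∀ x ∈ Ω, f1 (F.hf (F.cls V (dxF u))) x = u x := by
  obtain ⟨h1, h2⟩ := VHS.harm_dxF hΩ hu hi
  have e := h.hf_cls hΩ h1
  refine ⟨h.hf_inj hΩ fun x hx => ?_, fun x hx => funext fun i => ?_⟩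
  · rw [h.hf_prj hΩ _ _ x hx, e x hx, ← h2 x hx]
    simp only [VHS.pF, mulF, e x hx]
  · rw [f1, e x hx]
    rfl

theorem ed_hf (hΩ : Ωᶜ.Finite) (h : Fib V F) {ε : ℂ → Matrix ι ι ℂ} (hε : V.End ε)
    (c : Fin n → ℂ) :
    ∀ x ∈ Ω, F.hf ((F.op V fun x => two (ε x)) *ᵥ c) x = two (ε x) *ᵥ F.hf c x :=
  h.hf_op hΩ (fun j => (h.harm j).ed hΩ hε) c

theorem ed_cls (hΩ : Ωᶜ.Finite) (h : Fib V F) {ε : ℂ → Matrix ι ι ℂ} (hε : V.End ε) (hζ : V.Z ζ) :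
    V.Z (mulF (fun x => two (ε x)) ζ) ∧
      F.cls V (mulF (fun x => two (ε x)) ζ) = (F.op V fun x => two (ε x)) *ᵥ F.cls V ζ := by
  have z := FA.z_ed hΩ hε hζ
  refine ⟨z, ?_⟩
  have e := (h.cls_spec hΩ hζ).sub (h.exact_hf (F.cls V ζ))
  rw [sub_sub_sub_cancel_right] at e
  rw [← h.cls_hf hΩ (_ *ᵥ _)]
  refine h.cls_of_exact hΩ z (h.harm_hf hΩ _).1 ((FA.exact_ed hΩ hε e).congr fun x hx => ?_)
  simp only [Pi.sub_apply, mulF, h.ed_hf hΩ hε _ x hx, mulVec_sub]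

theorem ed_comm (hΩ : Ωᶜ.Finite) (h : Fib V F) {ε : ℂ → Matrix ι ι ℂ} (hε : V.End ε) (p : ℤ) :
    (F.op V fun x => two (ε x)) * F.π V p = F.π V p * F.op V fun x => two (ε x) := by
  refine h.hf_ext hΩ fun c x hx => ?_
  rw [← mulVec_mulVec, ← mulVec_mulVec, h.ed_hf hΩ hε _ x hx, h.hf_prj hΩ _ _ x hx,
    h.hf_prj hΩ _ _ x hx]
  simp only [VHS.pF, mulF, h.ed_hf hΩ hε _ x hx, mulVec_mulVec, FA.two_prj1 (hε.comm x hx)]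

theorem ed_adj (hΩ : Ωᶜ.Finite) (h : Fib V F) {ε : ℂ → Matrix ι ι ℂ} (hε : V.End ε) :
    (F.op V fun x => two (ε x))ᴴ * F.ψ V = F.ψ V * F.op V fun x => two (ε x) :=
  h.op_adj hΩ (h.ed_hf hΩ hε) fun x hx => FA.two_psi1 (hε.adj x hx)

theorem ed_idem (hΩ : Ωᶜ.Finite) (h : Fib V F) {ε : ℂ → Matrix ι ι ℂ} (hε : V.End ε)
    (hi : ∀ x ∈ Ω, ε x * ε x = ε x) :
    (F.op V fun x => two (ε x)) * (F.op V fun x => two (ε x)) = F.op V fun x => two (ε x) := by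
  refine h.hf_ext hΩ fun c x hx => ?_
  rw [← mulVec_mulVec, h.ed_hf hΩ hε _ x hx, h.ed_hf hΩ hε _ x hx, mulVec_mulVec, two_mul_two,
    hi x hx]

end Fib

end

end Pool.Agent.Lib.MP_5c318e_ag.V
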