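import Pool.Agent.Lib.MP_5c318e_ag.V.FamP
import Pool.Agent.Lib.MP_5c318e_ag.V.FibAlg

/-! Harmonic representatives in a holomorphic motion. -/

set_option autoImplicit false

namespace Pool.Agent.Lib.MP_5c318e_ag.V

open Matrix Filter Topology MeasureTheory Complex Metric
open scoped ComplexOrder ContDiff ComplexConjugate

noncomputable section

variable {ι : Type} [Fintype ι] [DecidableEq ι] {w : ℕ}
  {A : Type} [NormedAddCommGroup A] [NormedSpace ℂ A]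
  {E : Type} [NormedAddCommGroup E] [NormedSpace ℂ E] {Ω : Set (A × ℂ)}
  {V : VHS (A × ℂ) Ω ι w}

theorem harv_amgm {z t a b s : ℝ} (h : z ^ 2 ≤ t ^ 2 * (a * b)) (ha : 0 ≤ a) (hb : 0 ≤ b)
    (hs : 0 < s) : z ≤ (a / s + t ^ 2 * b * s) / 2 := by
  refine le_of_sq_le_sq (h.trans ?_) (by positivity)
  have e : t ^ 2 * (a * b) = a / s * (t ^ 2 * b * s) := by field_simp
  rw [e]
  nlinarith [sq_nonneg (a / s - t ^ 2 * b * s)]

omit [DecidableEq ι] in
theorem harv_expand (ψ P : Matrix ι ι ℂ) (u v : ι → ℂ) :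
    qf ψ u (P *ᵥ v) = ∑ k, ∑ l, (∑ i, conj (u i) * ψ i k) * v l * P k l := by
  rw [qf, dotProduct_mulVec]
  simp only [dotProduct, mulVec, vecMul, Finset.mul_sum, Pi.star_apply, RCLike.star_def]
  exact Finset.sum_congr rfl fun k _ => Finset.sum_congr rfl fun l _ => by ring

omit [DecidableEq ι] in
theorem harv_sm (ψ : Matrix ι ι ℂ) {P : E → Matrix ι ι ℂ} {u v : E → ι → ℂ} {y : E}
    (hP : SmM P y) (hu : SmV u y) (hv : SmV v y) :
    Sm (fun y => qf ψ (u y) (P y *ᵥ v y)) y := by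
  simp only [harv_expand]
  exact ContDiffAt.sum fun k _ => ContDiffAt.sum fun l _ => ContDiffAt.mul (ContDiffAt.mul
    (ContDiffAt.sum fun i _ => ContDiffAt.mul (hu i).conj contDiffAt_const) (hv l)) (hP k l)

omit [DecidableEq ι] in
theorem harv_der (ψ : Matrix ι ι ℂ) {P : E → Matrix ι ι ℂ} (u v : ι → ℂ) {y : E} (hP : SmM P y)
    (c : ℂ) (ξ : E) :
    der c ξ (fun y => qf ψ u (P y *ᵥ v)) y = qf ψ u (derM c ξ P y *ᵥ v) := by
  simp only [harv_expand]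
  rw [der_sum _ fun k _ => DifferentiableAt.fun_sum fun l _ => (hP k l).diff.const_mul _]
  refine Finset.sum_congr rfl fun k _ => ?_
  rw [der_sum _ fun l _ => (hP k l).diff.const_mul _]
  exact Finset.sum_congr rfl fun l _ => der_const_mul _ (hP k l).diff

theorem harv_two {Ω : Set ℂ} {V : VHS ℂ Ω ι w} {α : Form ι} (s : V.SmF α) {x : ℂ} (hx : x ∈ Ω) :
    SmV (fun y => two (cx (V.κ x y)) *ᵥ α y) x := fun i => by
  simp only [two_mulVec]
  rcases i with i | i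
  · exact s.1 x hx i
  · exact s.2 x hx i

namespace Fam

variable {φ : E → A} {a0 : E} {K : Set ℂ} (M : Fam V φ a0 K)

theorem harv_wey {x : ℂ} (hx : x ∈ fb Ω (φ a0)) : wey (wt (w + 1)) (M.P x) a0 =
    weyP (w + 1) (prj1 fun p => V.π p (φ a0, x)) :=
  Finset.sum_congr rfl fun p _ => by rw [M.P_zero hx]

theorem harv_nrm {x : ℂ} (hx : x ∈ fb Ω (φ a0)) (α : Form ι) :
    (qf (psi1 (V.ψ (φ a0, x)) * wey (wt (w + 1)) (M.P x) a0) (α x) (α x)).re =
      (V.fib (φ a0)).nrm α x := by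
  rw [M.harv_wey hx, (V.phs _ hx).psi1_wey]
  rfl

/-- the pairing with the moving projectors is jointly smooth -/
theorem harv_joint (p : ℤ) {α β : Form ι} (s : (V.fib (φ a0)).SmF α) (s' : (V.fib (φ a0)).SmF β)
    {a : E} (ha : a ∈ ball a0 M.δ) {x : ℂ} (hx : x ∈ fb Ω (φ a0)) :
    Sm (fun y : E × ℂ => qf (psi1 (V.ψ (φ a0, y.2))) (α y.2) (M.P y.2 p y.1 *ᵥ β y.2)) (a, x) := by
  have hO : IsOpen (fb Ω (φ a0)) := by
    simpa using (M.fin a0 (mem_ball_self M.pos)).isClosed.isOpen_compl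
  have c2 : ∀ {γ : Form ι}, (V.fib (φ a0)).SmF γ →
      SmV (fun y : E × ℂ => two (cx (V.κ (φ a0, x) (φ a0, y.2))) *ᵥ γ y.2) (a, x) :=
    fun {γ} hγ i => ContDiffAt.comp (a, x) (f := Prod.snd)
      (g := fun y : ℂ => (two (cx (V.κ (φ a0, x) (φ a0, y))) *ᵥ γ y) i) (harv_two hγ hx i)
      contDiffAt_snd
  refine (harv_sm (psi1 (V.ψ (φ a0, x))) (M.sm_P ha hx p) (c2 s) (c2 s')).congr_of_eventuallyEq ?_
  have fl := (V.fib (φ a0)).flat x hx
  rw [hO.nhdsWithin_eq hx] at fl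
  filter_upwards [(continuous_snd.tendsto (a, x)).eventually fl] with y hy
  have e : psi1 (V.ψ (φ a0, y.2)) = (two (cx (V.κ (φ a0, x) (φ a0, y.2))))ᴴ *
      psi1 (V.ψ (φ a0, x)) * two (cx (V.κ (φ a0, x) (φ a0, y.2))) := by
    rw [← jm_one_zero, jm_psi1]
    simp only [norm_one, norm_zero]
    norm_num
    exact congrArg psi1 hy
  rw [e, qf_mulVec_left, mulVec_mulVec, Matrix.mul_assoc _ (two _) (two _), two_mul_two,
    cx_inv_mul, two_one, Matrix.mul_one, qf_mulVec_right, qf_mulVec_right]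
  simp only [Matrix.mul_assoc]

end Fam

/-- the harmonic representative moves in a Lipschitz way -/
theorem Fam.harm_lip {φ : E → A} {a0 : E} {K : Set ℂ} (M : Fam V φ a0 K) :
    ∃ C r : ℝ, 0 < r ∧ r ≤ M.δ / 2 ∧ ∀ a ∈ ball a0 r, ∀ η η0 : Form ι, (V.fib (φ a)).Harm η →
      (V.fib (φ a0)).Harm η0 → (V.fib (φ a0)).Exact (M.pb a η - η0) →
      ∫ x, (V.fib (φ a0)).nrm (M.pb a η - η0) x ≤
        (C * ‖a - a0‖) ^ 2 * ∫ x, (V.fib (φ a0)).nrm η0 x := by
  obtain ⟨L, hL, hl⟩ := lip (ι ⊕ ι) (w + 1)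
  have hδ := M.pos
  obtain ⟨c, hc⟩ : ∃ c : ℝ, c = (wt (w + 1)).card := ⟨_, rfl⟩
  have hc0 : 0 < c := by
    rw [hc]
    exact_mod_cast Finset.card_pos.2 ⟨0, by simp [wt]; positivity⟩
  refine ⟨L * c * (L / M.δ), M.δ / 2, by positivity, le_rfl, fun a ha η η0 hη hη0 he => ?_⟩
  have ha' : a ∈ ball a0 M.δ := ball_subset_ball (by linarith) ha
  have hΩ := M.fin a0 (mem_ball_self hδ)
  have zn := (M.pb_z ha hη.1).sub hΩ hη0.1
  have z1 := M.pb_z ha (hη.cF (M.fin a ha')).1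
  have z2 := (hη0.cF hΩ).1
  have i1 := VHS.pair_int hΩ zn.1.1 zn.2 z1.1.1 z1.2
  have i2 := VHS.pair_int hΩ zn.1.1 zn.2 z2.1.1 z2.2
  have o1 := he.orth hΩ zn.2 z1
  have o2 := he.orth hΩ zn.2 z2
  set n := M.pb a η - η0 with hn
  have key : ∀ x ∈ fb Ω (φ a0), (V.fib (φ a0)).nrm n x ≤
      2 * L * (qf (psi1 ((V.fib (φ a0)).ψ x)) (n x) (M.pb a ((V.fib (φ a)).cF η) x) -
        qf (psi1 ((V.fib (φ a0)).ψ x)) (n x) ((V.fib (φ a0)).cF η0 x)).re +
      (L * c * (L / M.δ) * ‖a - a0‖) ^ 2 * (V.fib (φ a0)).nrm η0 x := fun x hx => by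
    obtain ⟨-, h2, -⟩ := hl E a0 M.δ _ _ (M.lv hx) a ha (n x) (n x)
    obtain ⟨-, -, h3⟩ := hl E a0 M.δ _ _ (M.lv hx) a ha (n x) (η0 x)
    rw [M.harv_nrm hx] at h2
    simp only [M.harv_nrm hx] at h3
    have nA := VHS.nrm_nonneg (V := V.fib (φ a0)) n x hx
    have nB := VHS.nrm_nonneg (V := V.fib (φ a0)) η0 x hx
    have e1 : (V.fib (φ a0)).cF η0 x = wey (wt (w + 1)) (M.P x) a0 *ᵥ η0 x := by
      rw [M.harv_wey hx]; rfl
    have e2 : qf (psi1 (V.ψ (φ a0, x)) * wey (wt (w + 1)) (M.P x) a) (n x) (n x) =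
        qf (psi1 ((V.fib (φ a0)).ψ x)) (n x) (M.pb a ((V.fib (φ a)).cF η) x) -
          qf (psi1 ((V.fib (φ a0)).ψ x)) (n x) ((V.fib (φ a0)).cF η0 x) -
          ∑ p ∈ wt (w + 1), (-1 : ℂ) ^ p *
            qf (psi1 (V.ψ (φ a0, x))) (n x) ((M.P x p a - M.P x p a0) *ᵥ η0 x) := by
      have e3 : ∑ p ∈ wt (w + 1), (-1 : ℂ) ^ p *
          qf (psi1 (V.ψ (φ a0, x))) (n x) ((M.P x p a - M.P x p a0) *ᵥ η0 x) =
          qf (psi1 (V.ψ (φ a0, x))) (n x)
            ((wey (wt (w + 1)) (M.P x) a - wey (wt (w + 1)) (M.P x) a0) *ᵥ η0 x) := by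
        simp only [qf, wey, ← Finset.sum_sub_distrib, ← smul_sub, sum_mulVec, smul_mulVec,
          mulVec_sum, mulVec_smul, dotProduct_sum, dotProduct_smul, smul_eq_mul]
      rw [e3, M.pb_cF ha', e1, ← qf_mulVec_right, sub_mulVec, qf_sub_right]
      conv_lhs => rw [show n x = M.pb a η x - η0 x from rfl, mulVec_sub, qf_sub_right]
      change _ = qf (psi1 (V.ψ (φ a0, x))) _ _ - qf (psi1 (V.ψ (φ a0, x))) _ _ - _
      rw [show M.pb a η x - η0 x = n x from rfl]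
      ring
    have b1 : ‖∑ p ∈ wt (w + 1), (-1 : ℂ) ^ p *
        qf (psi1 (V.ψ (φ a0, x))) (n x) ((M.P x p a - M.P x p a0) *ᵥ η0 x)‖ ≤
        c * (((V.fib (φ a0)).nrm n x / (L * c) +
          (L * ‖a - a0‖ / M.δ) ^ 2 * (V.fib (φ a0)).nrm η0 x * (L * c)) / 2) := by
      rw [hc, ← nsmul_eq_mul, ← hc]
      refine (norm_sum_le _ _).trans (Finset.sum_le_card_nsmul _ _ _ fun p _ => ?_)
      rw [norm_mul, norm_zpow, norm_neg, norm_one, _root_.one_zpow, one_mul]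
      exact harv_amgm (h3 p) nA nB (by positivity)
    rw [e2, sub_re] at h2
    have b2 := (neg_le_abs _).trans ((abs_re_le_norm _).trans b1)
    have b3 := mul_le_mul_of_nonneg_left b2 hL.le
    have e4 : L * (c * (((V.fib (φ a0)).nrm n x / (L * c) +
        (L * ‖a - a0‖ / M.δ) ^ 2 * (V.fib (φ a0)).nrm η0 x * (L * c)) / 2)) =
        (V.fib (φ a0)).nrm n x / 2 +
          (L * c * (L / M.δ) * ‖a - a0‖) ^ 2 * (V.fib (φ a0)).nrm η0 x / 2 := by
      field_simp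
    rw [e4] at b3
    linarith
  have ae : ∀ᵐ x : ℂ, x ∈ fb Ω (φ a0) := hΩ.measure_zero _
  have i3 := ((i1.sub i2).re).const_mul (2 * L)
  refine (integral_mono_ae zn.2 (i3.add (hη0.1.2.const_mul _)) (ae.mono key)).trans (le_of_eq ?_)
  rw [integral_add' i3 (hη0.1.2.const_mul _), integral_const_mul, integral_const_mul,
    integral_re (i1.sub i2), integral_sub' i1 i2]
  have : (∫ x, qf (psi1 ((V.fib (φ a0)).ψ x)) (n x) (M.pb a ((V.fib (φ a)).cF η) x)) = 0 := o1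
  rw [this]
  have : (∫ x, qf (psi1 ((V.fib (φ a0)).ψ x)) (n x) ((V.fib (φ a0)).cF η0 x)) = 0 := o2
  rw [this]
  simp

/-- derivative at the centre of a pairing with the moving projectors -/
theorem Fam.hasFDerivAt_pair [FiniteDimensional ℂ E] {φ : E → A} {a0 : E} {K : Set ℂ}
    (M : Fam V φ a0 K) (p : ℤ) {α β : Form ι} (s : (V.fib (φ a0)).SmF α) (h : (V.fib (φ a0)).L2 α)
    (s' : (V.fib (φ a0)).SmF β) (h' : (V.fib (φ a0)).L2 β) :
    DifferentiableAt ℝ (fun a => (V.fib (φ a0)).Q α (mulF (fun x => M.P x p a) β)) a0 ∧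
      ∀ c ξ, (c = I ∨ c = -I) →
        (Integrable fun x => qf (psi1 (V.ψ (φ a0, x))) (α x) (derM c ξ (M.P x p) a0 *ᵥ β x)) ∧
        der c ξ (fun a => (V.fib (φ a0)).Q α (mulF (fun x => M.P x p a) β)) a0 =
          (V.fib (φ a0)).Q α (mulF (fun x => derM c ξ (M.P x p) a0) β) := by
  obtain ⟨L, hL, hl⟩ := lip (ι ⊕ ι) (w + 1)
  have hδ := M.pos
  have h0 : a0 ∈ ball a0 M.δ := mem_ball_self hδ
  have hΩ := M.fin a0 h0
  have hO : IsOpen (fb Ω (φ a0)) := by simpa using hΩ.isClosed.isOpen_compl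
  have ae : ∀ᵐ x : ℂ, x ∈ fb Ω (φ a0) := hΩ.measure_zero _
  have ms : ∀ {G : Type} [NormedAddCommGroup G] {f : ℂ → G}, ContinuousOn f (fb Ω (φ a0)) →
      AEStronglyMeasurable f volume := fun hf => by
    rw [← Measure.restrict_eq_self_of_ae_mem ae]
    exact hf.aestronglyMeasurable hO.measurableSet
  obtain ⟨G, hG⟩ : ∃ G : E × ℂ → ℂ, G = fun y =>
      qf (psi1 (V.ψ (φ a0, y.2))) (α y.2) (M.P y.2 p y.1 *ᵥ β y.2) := ⟨_, rfl⟩
  have sG : ∀ a ∈ ball a0 M.δ, ∀ x ∈ fb Ω (φ a0), Sm G (a, x) := fun a ha x hx =>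
    hG ▸ M.harv_joint p s s' ha hx
  have dG : ∀ x ∈ fb Ω (φ a0), HasFDerivAt (fun a => G (a, x))
      ((fderiv ℝ G (a0, x)).comp (ContinuousLinearMap.inl ℝ E ℂ)) a0 := fun x hx =>
    (sG a0 h0 x hx).diff.hasFDerivAt.comp a0 (hasFDerivAt_prodMk_left a0 x)
  obtain ⟨iF, hF⟩ := hasFDerivAt_integral_of_dominated_loc_of_lip' (𝕜 := ℝ) (μ := volume)
    (F := fun a x => G (a, x)) (x₀ := a0) (s := ball a0 (M.δ / 2))
    (F' := fun x => (fderiv ℝ G (a0, x)).comp (ContinuousLinearMap.inl ℝ E ℂ))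
    (bound := fun x => L / M.δ * (((V.fib (φ a0)).nrm α x + (V.fib (φ a0)).nrm β x) / 2))
    (ball_mem_nhds _ (by positivity))
    (fun a ha => ms fun x hx => ((sG a (ball_subset_ball (by linarith) ha) x hx).continuousAt.comp
      (Continuous.prodMk_right a).continuousAt).continuousWithinAt)
    (by
      refine (VHS.pair_int hΩ s h (s'.pF hO p) (h'.pF hΩ s' p)).congr (ae.mono fun x hx => ?_)
      simp only [hG, M.P_zero hx]
      rfl)
    (ms fun x hx => ((((sG a0 h0 x hx).fderiv_right (m := 0) (by simp)).continuousAt.comp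
      (Continuous.prodMk_right a0).continuousAt).clm_comp continuousAt_const).continuousWithinAt)
    (ae.mono fun x hx a ha => by
      obtain ⟨-, -, h3⟩ := hl E a0 M.δ _ _ (M.lv hx) a ha (α x) (β x)
      have h4 := h3 p
      simp only [M.harv_nrm hx] at h4
      have nA := VHS.nrm_nonneg (V := V.fib (φ a0)) α x hx
      have nB := VHS.nrm_nonneg (V := V.fib (φ a0)) β x hx
      simp only [hG]
      rw [← qf_sub_right, ← sub_mulVec]
      refine le_of_sq_le_sq (h4.trans ?_) (by positivity)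
      have e : (L / M.δ * (((V.fib (φ a0)).nrm α x + (V.fib (φ a0)).nrm β x) / 2) * ‖a - a0‖) ^ 2
          = (L * ‖a - a0‖ / M.δ) ^ 2 *
            (((V.fib (φ a0)).nrm α x + (V.fib (φ a0)).nrm β x) / 2) ^ 2 := by ring
      rw [e]
      refine mul_le_mul_of_nonneg_left ?_ (sq_nonneg _)
      nlinarith [sq_nonneg ((V.fib (φ a0)).nrm α x - (V.fib (φ a0)).nrm β x)])
    (((Integrable.add h h').div_const 2).const_mul _) (ae.mono dG)
  have eQ : (fun a => (V.fib (φ a0)).Q α (mulF (fun x => M.P x p a) β)) =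
      fun a => ∫ x, G (a, x) := by rw [hG]; rfl
  rw [eQ]
  refine ⟨hF.differentiableAt, fun c ξ _ => ?_⟩
  have i1 := iF.apply_continuousLinearMap ξ
  have i2 := (iF.apply_continuousLinearMap (I • ξ)).const_mul c
  have e : ∀ᵐ x : ℂ, ((fderiv ℝ G (a0, x)).comp (ContinuousLinearMap.inl ℝ E ℂ) ξ +
      c * (fderiv ℝ G (a0, x)).comp (ContinuousLinearMap.inl ℝ E ℂ) (I • ξ)) / 2 =
      qf (psi1 (V.ψ (φ a0, x))) (α x) (derM c ξ (M.P x p) a0 *ᵥ β x) := ae.mono fun x hx => by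
    rw [← harv_der _ _ _ ((M.lv hx).sm p a0 h0), ← (dG x hx).fderiv, hG]
    rfl
  refine ⟨((i1.add i2).div_const 2).congr e, ?_⟩
  rw [der, hF.fderiv, ContinuousLinearMap.integral_apply iF, ContinuousLinearMap.integral_apply iF,
    ← integral_const_mul, ← integral_add i1 i2, ← integral_div]
  exact integral_congr_ae e

end

end Pool.Agent.Lib.MP_5c318e_ag.V
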