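import Mathlib

namespace Pool.Agent.Lib.MP_5c318e_ag.K0

open MeasureTheory Set Filter Topology

/-- The integral of a line derivative of a compactly supported function vanishes. -/
theorem int_deriv_zero {Om S : Set ℂ} (hO : IsOpen Om) (hS : IsCompact S) (hSO : S ⊆ Om)
    {G g : ℂ → ℝ} {w : ℂ} (hG : ∀ z ∈ Om, HasLineDerivAt ℝ G (g z) z w)
    (h0 : ∀ z ∈ Om, z ∉ S → G z = 0) (hGc : ContinuousOn G S) (hgc : ContinuousOn g S) :
    ∫ z in S, g z = 0 := by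
  have hSm : MeasurableSet S := hS.isClosed.measurableSet
  have key := integral_bilinear_hasLineDerivAt_right_eq_neg_left_of_integrable
    (μ := (volume : Measure ℂ)) (f := fun _ : ℂ => (1 : ℝ)) (f' := fun _ : ℂ => (0 : ℝ))
    (g := S.indicator G) (g' := S.indicator g) (v := w) (B := ContinuousLinearMap.mul ℝ ℝ)
    (by simp)
    (by simpa using (integrable_indicator_iff hSm).2 (hgc.integrableOn_compact hS))
    (by simpa using (integrable_indicator_iff hSm).2 (hGc.integrableOn_compact hS))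
    (fun x _ => by simpa [HasLineDerivAt] using hasDerivAt_const (0 : ℝ) (1 : ℝ))
    (fun x _ => by
      by_cases hx : x ∈ S
      · rw [indicator_of_mem hx]
        refine (hG x (hSO hx)).congr_of_eventuallyEq ?_
        filter_upwards [hO.mem_nhds (hSO hx)] with y hy
        by_cases hyS : y ∈ S
        · rw [indicator_of_mem hyS]
        · rw [indicator_of_notMem hyS, h0 y hy hyS]
      · rw [indicator_of_notMem hx]
        have h1 : HasLineDerivAt ℝ (fun _ : ℂ => (0 : ℝ)) 0 x w := by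
          simpa [HasLineDerivAt] using hasDerivAt_const (0 : ℝ) (0 : ℝ)
        refine h1.congr_of_eventuallyEq ?_
        filter_upwards [hS.isClosed.isOpen_compl.mem_nhds hx] with y hy
        rw [indicator_of_notMem hy])
  simpa [integral_indicator hSm] using key

theorem dot_le {s1 s2 x1 x2 f r : ℝ} (hf : 0 ≤ f) (hr : 0 ≤ r)
    (h : x1 ^ 2 + x2 ^ 2 ≤ r ^ 2 * f) :
    s1 * x1 + s2 * x2 ≤ r * Real.sqrt ((s1 ^ 2 + s2 ^ 2) * f) := by
  have hW : 0 ≤ (s1 ^ 2 + s2 ^ 2) * f := by positivity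
  refine le_trans (le_abs_self _) (abs_le_of_sq_le_sq' ?_ (by positivity)).2 |>.trans le_rfl
  rw [sq_abs, mul_pow, Real.sq_sqrt hW]
  have h1 : (s1 * x1 + s2 * x2) ^ 2 ≤ (s1 ^ 2 + s2 ^ 2) * (x1 ^ 2 + x2 ^ 2) := by
    nlinarith [sq_nonneg (s1 * x2 - s2 * x1)]
  have h2 : (s1 ^ 2 + s2 ^ 2) * (x1 ^ 2 + x2 ^ 2) ≤ (s1 ^ 2 + s2 ^ 2) * (r ^ 2 * f) :=
    mul_le_mul_of_nonneg_left h (by positivity)
  nlinarith

theorem quad_le {l c g P Y e : ℝ} (hl : 0 ≤ l) (hg : 0 < g) (hgc : 2 * g = 1 - l * c ^ 2) :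
    g * Y ^ 2 - (l / 4 + l ^ 2 * (1 + c) ^ 2 / (4 * g)) * e ^ 2 ≤
      l * P ^ 2 - l * P * e - 2 * l * c * P * Y + Y ^ 2 - l * e * Y := by
  have h1 : 0 ≤ l * (P - c * Y - e / 2) ^ 2 := by positivity
  have h2 : 0 ≤ g * (Y - l * (1 + c) * e / (2 * g)) ^ 2 := by positivity
  have h3 : g * (Y - l * (1 + c) * e / (2 * g)) ^ 2 =
      g * Y ^ 2 - l * (1 + c) * e * Y + l ^ 2 * (1 + c) ^ 2 / (4 * g) * e ^ 2 := by
    field_simp; ring
  have h4 : Y ^ 2 = 2 * g * Y ^ 2 + l * c ^ 2 * Y ^ 2 := by rw [hgc]; ring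
  nlinarith

/-- Pointwise inequality for the divergence of the test field. -/
theorem point_le {l c g m u U V s1 s2 D f f1 f2 X1 X2 a p e : ℝ} (hl : 0 ≤ l) (hc : 0 ≤ c)
    (hg : 0 < g) (hgc : 2 * g = 1 - l * c ^ 2) (hu : 0 ≤ u) (hu1 : u ≤ 1)
    (hU : 0 ≤ U) (hU1 : U ≤ m) (hV : U ^ 2 ≤ l / 2 * (U ^ 2 + u * V))
    (hf : 0 ≤ f) (hp : 0 ≤ p) (he : 0 ≤ e)
    (h1 : 2 * p ^ 2 - 2 * p * e ≤ a) (h2 : X1 ^ 2 + X2 ^ 2 ≤ c ^ 2 * p ^ 2 * f)
    (h3 : (f1 - 2 * X1) ^ 2 + (f2 - 2 * X2) ^ 2 ≤ 4 * e ^ 2 * f) :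
    g * (U ^ 2 * ((s1 ^ 2 + s2 ^ 2) * f)) ≤
      (l / 2 * u ^ 2 * a - l * (u * U) * (s1 * X1 + s2 * X2)
        + l / 2 * (U ^ 2 + u * V) * ((s1 ^ 2 + s2 ^ 2) * f)
        - l / 2 * (u * U) * (s1 * f1 + s2 * f2) - l / 2 * (u * U) * (f * D))
      + (l / 4 + l ^ 2 * (1 + c) ^ 2 / (4 * g)) * e ^ 2 + l / 2 * m * (f * |D|) := by
  have hW : 0 ≤ (s1 ^ 2 + s2 ^ 2) * f := by positivity
  obtain ⟨q, hq⟩ : ∃ q, q = Real.sqrt ((s1 ^ 2 + s2 ^ 2) * f) := ⟨_, rfl⟩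
  have hq2 : (s1 ^ 2 + s2 ^ 2) * f = q ^ 2 := by rw [hq, Real.sq_sqrt hW]
  have d1 : s1 * X1 + s2 * X2 ≤ c * p * q := by
    rw [hq]; exact dot_le hf (by positivity) (by rw [mul_pow]; exact h2)
  have d2 : s1 * (f1 - 2 * X1) + s2 * (f2 - 2 * X2) ≤ 2 * e * q := by
    rw [hq]; exact dot_le hf (by positivity) (by nlinarith)
  have hA : 0 ≤ l / 4 + l ^ 2 * (1 + c) ^ 2 / (4 * g) := by positivity
  have hq1 := quad_le (P := u * p) (Y := U * q) (e := u * e) hl hg hgc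
  have e1 : (u * e) ^ 2 ≤ e ^ 2 := by
    apply pow_le_pow_left₀ (by positivity); nlinarith
  have e2 := mul_le_mul_of_nonneg_left e1 hA
  have t0 : U ^ 2 * q ^ 2 ≤ l / 2 * (U ^ 2 + u * V) * q ^ 2 :=
    mul_le_mul_of_nonneg_right hV (by positivity)
  have t1 : l / 2 * u ^ 2 * (2 * p ^ 2 - 2 * p * e) ≤ l / 2 * u ^ 2 * a :=
    mul_le_mul_of_nonneg_left h1 (by positivity)
  have t2 : l * (u * U) * (s1 * X1 + s2 * X2) ≤ l * (u * U) * (c * p * q) :=
    mul_le_mul_of_nonneg_left d1 (by positivity)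
  have t3 : l / 2 * (u * U) * (s1 * f1 + s2 * f2) ≤
      l / 2 * (u * U) * (2 * (c * p * q) + 2 * e * q) :=
    mul_le_mul_of_nonneg_left (by linarith) (by positivity)
  have t4 : l / 2 * (u * U) * (f * D) ≤ l / 2 * m * (f * |D|) := by
    have b1 : u * U ≤ m := (mul_le_of_le_one_left hU hu1).trans hU1
    have b2 : (u * U) * (f * D) ≤ (u * U) * (f * |D|) :=
      mul_le_mul_of_nonneg_left (mul_le_mul_of_nonneg_left (le_abs_self D) hf) (by positivity)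
    have b3 : (u * U) * (f * |D|) ≤ m * (f * |D|) :=
      mul_le_mul_of_nonneg_right b1 (by positivity)
    rw [mul_assoc (l / 2), mul_assoc (l / 2)]
    exact mul_le_mul_of_nonneg_left (b2.trans b3) (by positivity)
  rw [hq2]
  linarith

theorem HLD_mul {F G : ℂ → ℝ} {a b : ℝ} {z w : ℂ} (hF : HasLineDerivAt ℝ F a z w)
    (hG : HasLineDerivAt ℝ G b z w) :
    HasLineDerivAt ℝ (fun y => F y * G y) (a * G z + F z * b) z w := by
  have := HasDerivAt.fun_mul hF hG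
  simp only [zero_smul, add_zero] at this
  exact this

theorem HLD_comp {sg : ℂ → ℝ} {G : ℝ → ℝ} {a b L : ℝ} {z w : ℂ} (h : HasLineDerivAt ℝ sg a z w)
    (hG : HasDerivAt G b (sg z / L)) :
    HasLineDerivAt ℝ (fun y => G (sg y / L)) (b / L * a) z w := by
  have h1 : HasDerivAt (fun t : ℝ => sg (z + t • w) / L) (a / L) 0 := HasDerivAt.div_const h L
  have h0 : HasDerivAt G b (sg (z + (0 : ℝ) • w) / L) := by simpa using hG
  have h2 := h0.comp 0 h1
  have h3 : b / L * a = b * (a / L) := by ring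
  rw [h3]
  exact h2

theorem HLD_add {F G : ℂ → ℝ} {a b : ℝ} {z w : ℂ} (hF : HasLineDerivAt ℝ F a z w)
    (hG : HasLineDerivAt ℝ G b z w) : HasLineDerivAt ℝ (fun y => F y + G y) (a + b) z w :=
  HasDerivAt.fun_add hF hG

theorem HLD_cmul {F : ℂ → ℝ} {a : ℝ} {z w : ℂ} (c : ℝ) (hF : HasLineDerivAt ℝ F a z w) :
    HasLineDerivAt ℝ (fun y => c * F y) (c * a) z w :=
  HasDerivAt.const_mul c hF

/-- Scalar data of a section on an open set `Om` containing the compact set `S`. -/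
structure Dat (Om S : Set ℂ) (c : ℝ) (f f1 f2 X1 X2 a1 a2 p e : ℂ → ℝ) : Prop where
  df1 : ∀ z ∈ Om, HasLineDerivAt ℝ f (f1 z) z 1
  df2 : ∀ z ∈ Om, HasLineDerivAt ℝ f (f2 z) z Complex.I
  dX1 : ∀ z ∈ Om, HasLineDerivAt ℝ X1 (a1 z) z 1
  dX2 : ∀ z ∈ Om, HasLineDerivAt ℝ X2 (a2 z) z Complex.I
  cf : ContinuousOn f S
  cf1 : ContinuousOn f1 S
  cf2 : ContinuousOn f2 S
  cX1 : ContinuousOn X1 S
  cX2 : ContinuousOn X2 S
  ca1 : ContinuousOn a1 S
  ca2 : ContinuousOn a2 S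
  ce : ContinuousOn (fun z => e z ^ 2) S
  f0 : ∀ z ∈ S, 0 ≤ f z
  p0 : ∀ z ∈ S, 0 ≤ p z
  e0 : ∀ z ∈ S, 0 ≤ e z
  h1 : ∀ z ∈ S, 2 * p z ^ 2 - 2 * p z * e z ≤ a1 z + a2 z
  h2 : ∀ z ∈ S, X1 z ^ 2 + X2 z ^ 2 ≤ c ^ 2 * p z ^ 2 * f z
  h3 : ∀ z ∈ S, (f1 z - 2 * X1 z) ^ 2 + (f2 z - 2 * X2 z) ^ 2 ≤ 4 * e z ^ 2 * f z

/-- An exhaustion function up to level `L`. -/
structure Exh (Om S : Set ℂ) (L : ℝ) (sg s1 s2 s11 s22 : ℂ → ℝ) : Prop where
  d1 : ∀ z ∈ Om, HasLineDerivAt ℝ sg (s1 z) z 1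
  d2 : ∀ z ∈ Om, HasLineDerivAt ℝ sg (s2 z) z Complex.I
  d11 : ∀ z ∈ Om, HasLineDerivAt ℝ s1 (s11 z) z 1
  d22 : ∀ z ∈ Om, HasLineDerivAt ℝ s2 (s22 z) z Complex.I
  c0 : ContinuousOn sg S
  c1 : ContinuousOn s1 S
  c2 : ContinuousOn s2 S
  c11 : ContinuousOn s11 S
  c22 : ContinuousOn s22 S
  pos : ∀ z ∈ S, 0 ≤ sg z
  out : ∀ z ∈ Om, z ∉ S → L ≤ sg z

/-- A smooth cut-off profile with a Hardy constant `l`. -/
structure Prof (l M : ℝ) (g g1 g2 : ℝ → ℝ) : Prop where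
  sm : ContDiff ℝ (⊤ : ℕ∞) g
  d1 : ∀ t, HasDerivAt g (g1 t) t
  d2 : ∀ t, HasDerivAt g1 (g2 t) t
  c2 : Continuous g2
  one : g 0 = 1
  nn : ∀ t, 0 ≤ g t
  le1 : ∀ t, 0 ≤ t → g t ≤ 1
  np : ∀ t, g1 t ≤ 0
  bd : ∀ t, 0 ≤ t → -g1 t ≤ M
  z0 : ∀ t, 1 ≤ t → g t = 0
  z1 : ∀ t, 1 ≤ t → g1 t = 0
  hardy : ∀ t, 0 ≤ t → g1 t ^ 2 ≤ l / 2 * (g1 t ^ 2 + g t * g2 t)

theorem exists_prof {l : ℝ} (hl : 1 < l) : ∃ M g g1 g2, Prof l M g g1 g2 := by
  obtain ⟨k, hk0, hk⟩ : ∃ k : ℝ, 0 < k ∧ l * (1 - k⁻¹) = 1 := by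
    refine ⟨l / (l - 1), div_pos (by linarith) (by linarith), ?_⟩
    have : l - 1 ≠ 0 := by linarith
    have : l ≠ 0 := by linarith
    field_simp; ring
  have lin : ∀ t : ℝ, HasDerivAt (fun s : ℝ => (1 - s) / k) (-1 / k) t := fun t =>
    ((hasDerivAt_id t).const_sub 1).div_const k
  have E1 : ∀ x : ℝ, HasDerivAt expNegInvGlue (x⁻¹ ^ 2 * expNegInvGlue x) x := fun x => by
    simpa using expNegInvGlue.hasDerivAt_polynomial_eval_inv_mul 1 x
  have E2 : ∀ x : ℝ, HasDerivAt (fun y : ℝ => y⁻¹ ^ 2 * expNegInvGlue y)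
      ((x⁻¹ ^ 4 - 2 * x⁻¹ ^ 3) * expNegInvGlue x) x := fun x => by
    have h := expNegInvGlue.hasDerivAt_polynomial_eval_inv_mul (Polynomial.X ^ 2) x
    simp only [Polynomial.eval_pow, Polynomial.eval_X, Polynomial.eval_mul, Polynomial.eval_sub,
      Polynomial.derivative_X_pow, Polynomial.eval_C] at h
    refine h.congr_deriv ?_
    push_cast; ring
  have C2 : Continuous fun x : ℝ => (x⁻¹ ^ 4 - 2 * x⁻¹ ^ 3) * expNegInvGlue x := by
    have h := expNegInvGlue.continuous_polynomial_eval_inv_mul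
      (Polynomial.X ^ 4 - 2 * Polynomial.X ^ 3)
    simpa using h
  have D1 : ∀ t : ℝ, HasDerivAt (fun s : ℝ => Real.exp k * expNegInvGlue ((1 - s) / k))
      (Real.exp k * (((1 - t) / k)⁻¹ ^ 2 * expNegInvGlue ((1 - t) / k) * (-1 / k))) t := fun t =>
    ((E1 _).comp t (lin t)).const_mul _
  have D2 : ∀ t : ℝ, HasDerivAt
      (fun s : ℝ => Real.exp k * (((1 - s) / k)⁻¹ ^ 2 * expNegInvGlue ((1 - s) / k) * (-1 / k)))
      (Real.exp k * ((((1 - t) / k)⁻¹ ^ 4 - 2 * ((1 - t) / k)⁻¹ ^ 3) * expNegInvGlue ((1 - t) / k)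
        * (-1 / k) * (-1 / k))) t := fun t =>
    (((E2 _).comp t (lin t)).mul_const _).const_mul _
  have C1 : Continuous fun s : ℝ =>
      Real.exp k * (((1 - s) / k)⁻¹ ^ 2 * expNegInvGlue ((1 - s) / k) * (-1 / k)) :=
    continuous_iff_continuousAt.2 fun t => (D2 t).continuousAt
  obtain ⟨M, hM⟩ := (isCompact_Icc (a := (0 : ℝ)) (b := 1)).exists_bound_of_continuousOn
    C1.continuousOn
  have e0 : expNegInvGlue ((1 - 0) / k) = Real.exp (-k) := by
    have : ¬ ((1 - 0) / k ≤ 0) := not_le.2 (by positivity)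
    rw [expNegInvGlue, if_neg this]; simp
  have zz : ∀ t : ℝ, 1 ≤ t → expNegInvGlue ((1 - t) / k) = 0 := fun t ht =>
    expNegInvGlue.zero_of_nonpos (div_nonpos_of_nonpos_of_nonneg (by linarith) hk0.le)
  refine ⟨M, _, _, _, ⟨?_, D1, D2, ?_, ?_, ?_, ?_, ?_, ?_, ?_, ?_, ?_⟩⟩
  · exact contDiff_const.mul (expNegInvGlue.contDiff.comp (by fun_prop))
  · exact continuous_const.mul (((C2.comp (by fun_prop)).mul continuous_const).mul
      continuous_const)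
  · rw [e0, ← Real.exp_add]; simp
  · intro t; exact mul_nonneg (Real.exp_pos k).le (expNegInvGlue.nonneg _)
  · intro t ht
    have h1 : expNegInvGlue ((1 - t) / k) ≤ expNegInvGlue ((1 - 0) / k) :=
      expNegInvGlue.monotone (div_le_div_of_nonneg_right (by linarith) hk0.le)
    rw [e0] at h1
    have h2 := mul_le_mul_of_nonneg_left h1 (Real.exp_pos k).le
    rwa [← Real.exp_add, add_neg_cancel, Real.exp_zero] at h2
  · intro t
    have h1 := expNegInvGlue.nonneg ((1 - t) / k)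
    have h2 : -1 / k ≤ 0 := div_nonpos_of_nonpos_of_nonneg (by norm_num) hk0.le
    exact mul_nonpos_of_nonneg_of_nonpos (Real.exp_pos k).le
      (mul_nonpos_of_nonneg_of_nonpos (by positivity) h2)
  · intro t ht
    rcases le_total t 1 with h | h
    · exact (neg_le_abs _).trans (hM t ⟨ht, h⟩)
    · rw [zz t h]
      have := (norm_nonneg _).trans (hM 0 ⟨le_rfl, zero_le_one⟩)
      simpa using this
  · intro t ht; rw [zz t ht, mul_zero]
  · intro t ht; rw [zz t ht]; simp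
  · intro t ht
    rcases le_or_gt 1 t with h | h
    · rw [zz t h]; simp
    · have hx : 0 < (1 - t) / k := div_pos (by linarith) hk0
      have hx1 : (1 - t) / k ≤ k⁻¹ := by
        rw [div_eq_mul_inv]; exact mul_le_of_le_one_left (by positivity) (by linarith)
      generalize (1 - t) / k = x at hx hx1
      obtain ⟨A, hA⟩ : ∃ A, A = Real.exp k * (x⁻¹ ^ 2 * expNegInvGlue x * (-1 / k)) := ⟨_, rfl⟩
      have h3 : Real.exp k * expNegInvGlue x * (Real.exp k * ((x⁻¹ ^ 4 - 2 * x⁻¹ ^ 3) *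
          expNegInvGlue x * (-1 / k) * (-1 / k))) = A ^ 2 * (1 - 2 * x) := by
        rw [hA]; field_simp
      rw [h3, ← hA]
      have h4 : 1 ≤ l * (1 - x) := by
        rw [← hk]; exact mul_le_mul_of_nonneg_left (by linarith) (by linarith)
      nlinarith [sq_nonneg A]

theorem cutoff_aux {Om S : Set ℂ} (hO : IsOpen Om) (hS : IsCompact S) (hSO : S ⊆ Om)
    {L c l M q : ℝ} (hL : 0 < L) (hc : 0 ≤ c) (hl0 : 0 ≤ l) {g g1 g2 : ℝ → ℝ}
    (P : Prof l M g g1 g2) (hq : 0 < q) (hqc : 2 * q = 1 - l * c ^ 2)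
    {sg s1 s2 s11 s22 f f1 f2 X1 X2 a1 a2 p e : ℂ → ℝ}
    (E : Exh Om S L sg s1 s2 s11 s22) (D : Dat Om S c f f1 f2 X1 X2 a1 a2 p e) :
    q * ∫ z in S, (g1 (sg z / L) / L) ^ 2 * ((s1 z ^ 2 + s2 z ^ 2) * f z) ≤
      (l / 4 + l ^ 2 * (1 + c) ^ 2 / (4 * q)) * (∫ z in S, e z ^ 2) +
        l / 2 * (M / L) * ∫ z in S, f z * |s11 z + s22 z| := by
  have cs : ContinuousOn (fun z => sg z / L) S := E.c0.div_const L
  have cg : Continuous g := P.sm.continuous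
  have cg1 : Continuous g1 := continuous_iff_continuousAt.2 fun t => (P.d2 t).continuousAt
  have cu : ContinuousOn (fun z => g (sg z / L)) S := cg.comp_continuousOn cs
  have cU : ContinuousOn (fun z => g1 (sg z / L)) S := cg1.comp_continuousOn cs
  have cV : ContinuousOn (fun z => g2 (sg z / L)) S := P.c2.comp_continuousOn cs
  have u0 : ∀ z ∈ Om, z ∉ S → g (sg z / L) = 0 := by
    intro z hz hzS
    exact P.z0 _ ((one_le_div hL).2 (E.out z hz hzS))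
  have one : ∀ (w : ℂ) (s ss F X a : ℂ → ℝ), (∀ z ∈ Om, HasLineDerivAt ℝ sg (s z) z w) →
      (∀ z ∈ Om, HasLineDerivAt ℝ s (ss z) z w) → (∀ z ∈ Om, HasLineDerivAt ℝ f (F z) z w) →
      (∀ z ∈ Om, HasLineDerivAt ℝ X (a z) z w) → ContinuousOn s S → ContinuousOn ss S →
      ContinuousOn F S → ContinuousOn X S → ContinuousOn a S →
      ∃ G : ℂ → ℝ, ContinuousOn G S ∧ (∫ z in S, G z = 0) ∧ ∀ z, G z =
        l / 2 * g (sg z / L) ^ 2 * a z
        - l * (g (sg z / L) * -(g1 (sg z / L) / L)) * (s z * X z)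
        + l / 2 * ((-(g1 (sg z / L) / L)) ^ 2 + g (sg z / L) * (g2 (sg z / L) / L ^ 2))
          * (s z ^ 2 * f z)
        - l / 2 * (g (sg z / L) * -(g1 (sg z / L) / L)) * (s z * F z)
        - l / 2 * (g (sg z / L) * -(g1 (sg z / L) / L)) * (f z * ss z) := by
    intro w s ss F X a h1 h2 h3 h4 c1 c2 c3 c4 c5
    have cf := D.cf
    have cG : ContinuousOn (fun z => l / 2 * g (sg z / L) ^ 2 * a z
        - l * (g (sg z / L) * -(g1 (sg z / L) / L)) * (s z * X z)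
        + l / 2 * ((-(g1 (sg z / L) / L)) ^ 2 + g (sg z / L) * (g2 (sg z / L) / L ^ 2))
          * (s z ^ 2 * f z)
        - l / 2 * (g (sg z / L) * -(g1 (sg z / L) / L)) * (s z * F z)
        - l / 2 * (g (sg z / L) * -(g1 (sg z / L) / L)) * (f z * ss z)) S := by
      have k1 := (cU.div_const L).neg
      have k2 := cV.div_const (L ^ 2)
      exact (((((continuousOn_const.mul (cu.pow 2)).mul c5).sub
        ((continuousOn_const.mul (cu.mul k1)).mul (c1.mul c4))).add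
        ((continuousOn_const.mul ((k1.pow 2).add (cu.mul k2))).mul ((c1.pow 2).mul cf))).sub
        ((continuousOn_const.mul (cu.mul k1)).mul (c1.mul c3))).sub
        ((continuousOn_const.mul (cu.mul k1)).mul (cf.mul c2))
    refine ⟨_, cG, ?_, fun z => rfl⟩
    refine int_deriv_zero hO hS hSO (w := w)
      (G := fun z => l / 2 * ((g (sg z / L) * g (sg z / L)) * X z) +
        (l / 2 / L) * ((g (sg z / L) * g1 (sg z / L)) * (f z * s z))) ?_ ?_ ?_ ?_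
    · intro z hz
      have q1 := HLD_comp (L := L) (h1 z hz) (P.d1 _)
      have q2 := HLD_comp (L := L) (h1 z hz) (P.d2 _)
      have q3 := HLD_add (HLD_cmul (l / 2) (HLD_mul (HLD_mul q1 q1) (h4 z hz)))
        (HLD_cmul (l / 2 / L) (HLD_mul (HLD_mul q1 q2) (HLD_mul (h3 z hz) (h2 z hz))))
      refine HasDerivAt.congr_deriv q3 ?_
      ring
    · intro z hz hzS
      rw [u0 z hz hzS]; simp
    · exact (continuousOn_const.mul ((cu.mul cu).mul c4)).add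
        (continuousOn_const.mul ((cu.mul cU).mul (cf.mul c1)))
    · exact cG
  obtain ⟨G1, cG1, iG1, eG1⟩ := one 1 s1 s11 f1 X1 a1 E.d1 E.d11 D.df1 D.dX1 E.c1 E.c11 D.cf1
    D.cX1 D.ca1
  obtain ⟨G2, cG2, iG2, eG2⟩ := one Complex.I s2 s22 f2 X2 a2 E.d2 E.d22 D.df2 D.dX2 E.c2 E.c22
    D.cf2 D.cX2 D.ca2
  have hSm : MeasurableSet S := hS.isClosed.measurableSet
  have cf := D.cf
  have c1 := E.c1
  have c2 := E.c2
  have cD : ContinuousOn (fun z => f z * |s11 z + s22 z|) S := cf.mul (E.c11.add E.c22).abs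
  have cY : ContinuousOn
      (fun z => (g1 (sg z / L) / L) ^ 2 * ((s1 z ^ 2 + s2 z ^ 2) * f z)) S := by
    fun_prop
  have I1 := cG1.integrableOn_compact (μ := volume) hS
  have I2 := cG2.integrableOn_compact (μ := volume) hS
  have I3 := (D.ce.integrableOn_compact (μ := volume) hS).const_mul
    (l / 4 + l ^ 2 * (1 + c) ^ 2 / (4 * q))
  have I4 := (cD.integrableOn_compact (μ := volume) hS).const_mul (l / 2 * (M / L))
  have I5 := (cY.integrableOn_compact (μ := volume) hS).const_mul q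
  have main := setIntegral_mono_on I5 (((I1.add I2).add I3).add I4) hSm (fun z hz => by
    have t0 : 0 ≤ sg z / L := div_nonneg (E.pos z hz) hL.le
    have hU : 0 ≤ -(g1 (sg z / L) / L) := by
      rw [← neg_div]; exact div_nonneg (neg_nonneg.2 (P.np _)) hL.le
    have hU1 : -(g1 (sg z / L) / L) ≤ M / L := by
      rw [← neg_div]; exact div_le_div_of_nonneg_right (P.bd _ t0) hL.le
    have hV : (-(g1 (sg z / L) / L)) ^ 2 ≤ l / 2 * ((-(g1 (sg z / L) / L)) ^ 2 +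
        g (sg z / L) * (g2 (sg z / L) / L ^ 2)) := by
      have h := div_le_div_of_nonneg_right (P.hardy _ t0) (sq_nonneg L)
      refine le_trans (le_of_eq ?_) (h.trans (le_of_eq ?_)) <;> ring
    have := point_le (s1 := s1 z) (s2 := s2 z) (D := s11 z + s22 z) hl0 hc hq hqc (P.nn _)
      (P.le1 _ t0) hU hU1 hV (D.f0 z hz) (D.p0 z hz) (D.e0 z hz)
      (D.h1 z hz) (D.h2 z hz) (D.h3 z hz)
    simp only [Pi.add_apply]
    rw [eG1, eG2]
    linarith)
  rw [integral_add' ((I1.add I2).add I3) I4, integral_add' (I1.add I2) I3, integral_add' I1 I2,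
    iG1, iG2, integral_const_mul, integral_const_mul, integral_const_mul] at main
  linarith


theorem abs_mul_le_amgm {a b d : ℝ} (hd : 0 < d) : |a * b| ≤ d / 2 * a ^ 2 + 1 / (2 * d) * b ^ 2 := by
  have h : 0 ≤ (d * |a| - |b|) ^ 2 / (2 * d) := by positivity
  have h2 : (d * |a| - |b|) ^ 2 / (2 * d) =
      d / 2 * |a| ^ 2 + 1 / (2 * d) * |b| ^ 2 - |a| * |b| := by field_simp; ring
  rw [h2, sq_abs, sq_abs] at h
  rw [abs_mul]; linarith

/-- A proper exhaustion function, harmonic off a compact set. -/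
structure Exhaust (Om K : Set ℂ) (sg s1 s2 s11 s22 : ℂ → ℝ) : Prop where
  d1 : ∀ z ∈ Om, HasLineDerivAt ℝ sg (s1 z) z 1
  d2 : ∀ z ∈ Om, HasLineDerivAt ℝ sg (s2 z) z Complex.I
  d11 : ∀ z ∈ Om, HasLineDerivAt ℝ s1 (s11 z) z 1
  d22 : ∀ z ∈ Om, HasLineDerivAt ℝ s2 (s22 z) z Complex.I
  c0 : ContinuousOn sg Om
  c1 : ContinuousOn s1 Om
  c2 : ContinuousOn s2 Om
  c11 : ContinuousOn s11 Om
  c22 : ContinuousOn s22 Om
  pos : ∀ z ∈ Om, 0 ≤ sg z
  prop : ∀ L : ℝ, IsCompact {z | z ∈ Om ∧ sg z ≤ L}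
  cK : IsCompact K
  sK : K ⊆ Om
  harm : ∀ z ∈ Om, z ∉ K → s11 z + s22 z = 0

theorem Dat.mono {Om S T : Set ℂ} {c : ℝ} {f f1 f2 X1 X2 a1 a2 p e : ℂ → ℝ}
    (D : Dat Om S c f f1 f2 X1 X2 a1 a2 p e) (h : T ⊆ S) :
    Dat Om T c f f1 f2 X1 X2 a1 a2 p e :=
  ⟨D.df1, D.df2, D.dX1, D.dX2, D.cf.mono h, D.cf1.mono h, D.cf2.mono h, D.cX1.mono h,
    D.cX2.mono h, D.ca1.mono h, D.ca2.mono h, D.ce.mono h, fun z hz => D.f0 z (h hz),
    fun z hz => D.p0 z (h hz), fun z hz => D.e0 z (h hz), fun z hz => D.h1 z (h hz),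
    fun z hz => D.h2 z (h hz), fun z hz => D.h3 z (h hz)⟩

/-- Uniform bound for the cut-off energy. -/
theorem cutoff_bdd {Om K : Set ℂ} (hO : IsOpen Om) {c : ℝ} (hc : 0 ≤ c) (hc1 : c < 1)
    {sg s1 s2 s11 s22 f f1 f2 X1 X2 a1 a2 p e : ℂ → ℝ}
    (E : Exhaust Om K sg s1 s2 s11 s22) (D : Dat Om Om c f f1 f2 X1 X2 a1 a2 p e)
    (he : IntegrableOn (fun z => e z ^ 2) Om) :
    ∃ l M g g1 g2, Prof l M g g1 g2 ∧ ∃ B : ℝ, ∀ L : ℝ, 1 ≤ L →
      ∫ z in {z | z ∈ Om ∧ sg z ≤ L},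
        (g1 (sg z / L) / L) ^ 2 * ((s1 z ^ 2 + s2 z ^ 2) * f z) ≤ B := by
  have hc2 : c ^ 2 < 1 := by nlinarith
  obtain ⟨l, hl1, hl2⟩ : ∃ l : ℝ, 1 < l ∧ l * c ^ 2 < 1 := by
    refine ⟨2 / (1 + c ^ 2), ?_, ?_⟩
    · rw [one_lt_div (by positivity)]; linarith
    · rw [div_mul_eq_mul_div, div_lt_one (by positivity)]; linarith
  obtain ⟨M, g, g1, g2, P⟩ := exists_prof hl1
  obtain ⟨q, hq, hqc⟩ : ∃ q : ℝ, 0 < q ∧ 2 * q = 1 - l * c ^ 2 :=
    ⟨(1 - l * c ^ 2) / 2, by linarith, by ring⟩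
  have hM : 0 ≤ M := (neg_nonneg.2 (P.np 0)).trans (P.bd 0 le_rfl)
  have cD : ContinuousOn (fun z => f z * |s11 z + s22 z|) Om := D.cf.mul (E.c11.add E.c22).abs
  have iD : IntegrableOn (fun z => f z * |s11 z + s22 z|) Om := by
    have h1 := (cD.mono E.sK).integrableOn_compact (μ := volume) E.cK
    refine h1.of_forall_sdiff_eq_zero hO.measurableSet ?_
    intro z hz
    rw [E.harm z hz.1 hz.2]; simp
  refine ⟨l, M, g, g1, g2, P, ((l / 4 + l ^ 2 * (1 + c) ^ 2 / (4 * q)) * (∫ z in Om, e z ^ 2) +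
    l / 2 * M * ∫ z in Om, f z * |s11 z + s22 z|) / q, fun L hL => ?_⟩
  have hsub : {z | z ∈ Om ∧ sg z ≤ L} ⊆ Om := fun z hz => hz.1
  have E' : Exh Om {z | z ∈ Om ∧ sg z ≤ L} L sg s1 s2 s11 s22 :=
    ⟨E.d1, E.d2, E.d11, E.d22, E.c0.mono hsub, E.c1.mono hsub, E.c2.mono hsub, E.c11.mono hsub,
      E.c22.mono hsub, fun z hz => E.pos z hz.1,
      fun z hz h => le_of_lt (not_le.1 fun h' => h ⟨hz, h'⟩)⟩
  have h := cutoff_aux hO (E.prop L) hsub (by linarith) hc (by linarith) P hq hqc E' (D.mono hsub)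
  have m1 : ∫ z in {z | z ∈ Om ∧ sg z ≤ L}, e z ^ 2 ≤ ∫ z in Om, e z ^ 2 :=
    setIntegral_mono_set he (Eventually.of_forall fun z => sq_nonneg _) hsub.eventuallyLE
  have n2 : 0 ≤ᵐ[volume.restrict Om] fun z => f z * |s11 z + s22 z| :=
    (ae_restrict_iff' hO.measurableSet).2 (Eventually.of_forall fun z hz =>
      mul_nonneg (D.f0 z hz) (abs_nonneg _))
  have m2 : ∫ z in {z | z ∈ Om ∧ sg z ≤ L}, f z * |s11 z + s22 z| ≤
      ∫ z in Om, f z * |s11 z + s22 z| := setIntegral_mono_set iD n2 hsub.eventuallyLE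
  have m3 : M / L ≤ M := div_le_self hM hL
  have m4 : 0 ≤ ∫ z in Om, f z * |s11 z + s22 z| := integral_nonneg_of_ae n2
  have hl0 : 0 ≤ l := by linarith
  have hA : 0 ≤ l / 4 + l ^ 2 * (1 + c) ^ 2 / (4 * q) := by positivity
  have m5 := mul_le_mul_of_nonneg_left m1 hA
  have m6 := mul_le_mul_of_nonneg_left m2 (show 0 ≤ l / 2 * (M / L) by positivity)
  have m7 := mul_le_mul_of_nonneg_right
    (mul_le_mul_of_nonneg_left m3 (show 0 ≤ l / 2 by positivity)) m4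
  rw [le_div_iff₀ hq]
  linarith


/-- Main scalar lemma: the integral of the divergence of `b` vanishes when `|b|^2 ≤ f * zt^2`. -/
theorem div_zero {Om K : Set ℂ} (hO : IsOpen Om) {c : ℝ} (hc : 0 ≤ c) (hc1 : c < 1)
    {sg s1 s2 s11 s22 f f1 f2 X1 X2 a1 a2 p e : ℂ → ℝ}
    (E : Exhaust Om K sg s1 s2 s11 s22) (D : Dat Om Om c f f1 f2 X1 X2 a1 a2 p e)
    (he : IntegrableOn (fun z => e z ^ 2) Om) {b1 b2 r1 r2 zt : ℂ → ℝ}
    (db1 : ∀ z ∈ Om, HasLineDerivAt ℝ b1 (r1 z) z 1)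
    (db2 : ∀ z ∈ Om, HasLineDerivAt ℝ b2 (r2 z) z Complex.I)
    (cb1 : ContinuousOn b1 Om) (cb2 : ContinuousOn b2 Om) (cr1 : ContinuousOn r1 Om)
    (cr2 : ContinuousOn r2 Om) (hr : IntegrableOn (fun z => r1 z + r2 z) Om)
    (hz : IntegrableOn zt Om) (hb : ∀ z ∈ Om, b1 z ^ 2 + b2 z ^ 2 ≤ f z * zt z) :
    ∫ z in Om, (r1 z + r2 z) = 0 := by
  obtain ⟨l, M, g, g1, g2, P, B, hB⟩ := cutoff_bdd hO hc hc1 E D he
  have hOm := hO.measurableSet
  have cg : Continuous g := P.sm.continuous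
  have cg1 : Continuous g1 := continuous_iff_continuousAt.2 fun t => (P.d2 t).continuousAt
  have hM : 0 ≤ M := (neg_nonneg.2 (P.np 0)).trans (P.bd 0 le_rfl)
  obtain ⟨A, hA⟩ : ∃ A : ℝ → ℂ → ℝ,
      A = fun L z => g1 (sg z / L) / L * (s1 z * b1 z + s2 z * b2 z) := ⟨_, rfl⟩
  obtain ⟨Y, hY⟩ : ∃ Y : ℝ → ℂ → ℝ,
      Y = fun L z => (g1 (sg z / L) / L) ^ 2 * ((s1 z ^ 2 + s2 z ^ 2) * f z) := ⟨_, rfl⟩
  have cu : ∀ L : ℝ, ContinuousOn (fun z => g (sg z / L)) Om := fun L =>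
    cg.comp_continuousOn (E.c0.div_const L)
  have cU : ∀ L : ℝ, ContinuousOn (fun z => g1 (sg z / L) / L) Om := fun L =>
    (cg1.comp_continuousOn (E.c0.div_const L)).div_const L
  have cA : ∀ L, ContinuousOn (A L) Om := fun L => by
    rw [hA]; exact (cU L).mul ((E.c1.mul cb1).add (E.c2.mul cb2))
  have cY : ∀ L, ContinuousOn (Y L) Om := fun L => by
    rw [hY]; exact ((cU L).pow 2).mul (((E.c1.pow 2).add (E.c2.pow 2)).mul D.cf)
  have hsub : ∀ L : ℝ, {z | z ∈ Om ∧ sg z ≤ L} ⊆ Om := fun L z hz => hz.1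
  have big : ∀ L : ℝ, 1 ≤ L → ∀ z ∈ Om \ {z | z ∈ Om ∧ sg z ≤ L}, 1 ≤ sg z / L := by
    intro L hL z hz
    rw [one_le_div (by linarith)]
    exact le_of_lt (not_le.1 fun h' => hz.2 ⟨hz.1, h'⟩)
  have ext : ∀ L : ℝ, ∀ F : ℂ → ℝ, ContinuousOn F Om →
      (∀ z ∈ Om \ {z | z ∈ Om ∧ sg z ≤ L}, F z = 0) →
      IntegrableOn F Om ∧ ∫ z in Om, F z = ∫ z in {z | z ∈ Om ∧ sg z ≤ L}, F z := by
    intro L F cF h0
    exact ⟨((cF.mono (hsub L)).integrableOn_compact (E.prop L)).of_forall_sdiff_eq_zero hOm h0,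
      setIntegral_eq_of_subset_of_forall_sdiff_eq_zero hOm (hsub L) h0⟩
  have xA : ∀ L : ℝ, 1 ≤ L → IntegrableOn (A L) Om := fun L hL =>
    (ext L _ (cA L) fun z hz => by rw [hA]; simp [P.z1 _ (big L hL z hz)]).1
  have xY : ∀ L : ℝ, 1 ≤ L → IntegrableOn (Y L) Om ∧ ∫ z in Om, Y L z ≤ B := fun L hL => by
    have h := ext L _ (cY L) fun z hz => by rw [hY]; simp [P.z1 _ (big L hL z hz)]
    refine ⟨h.1, ?_⟩
    rw [h.2, hY]; exact hB L hL
  have stokes : ∀ L : ℝ, 1 ≤ L →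
      ∫ z in Om, g (sg z / L) * (r1 z + r2 z) = -∫ z in Om, A L z := by
    intro L hL
    have one : ∀ (w : ℂ) (s b r : ℂ → ℝ), (∀ z ∈ Om, HasLineDerivAt ℝ sg (s z) z w) →
        (∀ z ∈ Om, HasLineDerivAt ℝ b (r z) z w) → ContinuousOn s Om → ContinuousOn b Om →
        ContinuousOn r Om →
        IntegrableOn (fun z => g1 (sg z / L) / L * s z * b z + g (sg z / L) * r z) Om ∧
          ∫ z in Om, (g1 (sg z / L) / L * s z * b z + g (sg z / L) * r z) = 0 := by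
      intro w s b r h1 h2 c1 c2 c3
      have cF : ContinuousOn (fun z => g1 (sg z / L) / L * s z * b z + g (sg z / L) * r z) Om :=
        (((cU L).mul c1).mul c2).add ((cu L).mul c3)
      have h := ext L _ cF fun z hz => by
        simp [P.z1 _ (big L hL z hz), P.z0 _ (big L hL z hz)]
      refine ⟨h.1, h.2.trans ?_⟩
      exact int_deriv_zero hO (E.prop L) (hsub L) (G := fun z => g (sg z / L) * b z) (w := w)
        (fun z hz => HLD_mul (HLD_comp (h1 z hz) (P.d1 _)) (h2 z hz))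
        (fun z hz hzS => by simp [P.z0 _ (big L hL z ⟨hz, hzS⟩)])
        (((cu L).mul c2).mono (hsub L)) (cF.mono (hsub L))
    obtain ⟨i1, j1⟩ := one 1 s1 b1 r1 E.d1 db1 E.c1 cb1 cr1
    obtain ⟨i2, j2⟩ := one Complex.I s2 b2 r2 E.d2 db2 E.c2 cb2 cr2
    have i3 : IntegrableOn (fun z => g (sg z / L) * (r1 z + r2 z)) Om :=
      (ext L _ ((cu L).mul (cr1.add cr2)) fun z hz => by simp [P.z0 _ (big L hL z hz)]).1
    have h1 := integral_add i1 i2
    have h2 := integral_add i3 (xA L hL)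
    rw [j1, j2, add_zero] at h1
    have h3 : ∫ z in Om, (g (sg z / L) * (r1 z + r2 z) + A L z) = 0 := by
      rw [← h1, hA]; congr 1; ext z; ring
    linarith
  have hN : Tendsto (fun n : ℕ => (n : ℝ) + 1) atTop atTop :=
    tendsto_atTop_add_const_right _ _ tendsto_natCast_atTop_atTop
  have h1N : ∀ n : ℕ, (1 : ℝ) ≤ n + 1 := fun n => le_add_of_nonneg_left (Nat.cast_nonneg n)
  have lim1 : Tendsto (fun n : ℕ => ∫ z in Om, g (sg z / (n + 1)) * (r1 z + r2 z)) atTop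
      (𝓝 (∫ z in Om, (r1 z + r2 z))) := by
    refine tendsto_integral_of_dominated_convergence (fun z => ‖r1 z + r2 z‖)
      (fun n => ((cu _).mul (cr1.add cr2)).aestronglyMeasurable hOm) hr.norm (fun n => ?_) ?_
    · refine (ae_restrict_iff' hOm).2 (Eventually.of_forall fun z hz => ?_)
      rw [norm_mul, Real.norm_of_nonneg (P.nn _)]
      exact mul_le_of_le_one_left (norm_nonneg _)
        (P.le1 _ (div_nonneg (E.pos z hz) (by positivity)))
    · refine Eventually.of_forall fun z => ?_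
      have h1 : Tendsto (fun n : ℕ => sg z / (n + 1)) atTop (𝓝 0) := hN.const_div_atTop _
      have h2 := ((cg.tendsto 0).comp h1).mul_const (r1 z + r2 z)
      rwa [P.one, one_mul] at h2
  have key : ∀ d : ℝ, 0 < d → |∫ z in Om, (r1 z + r2 z)| ≤ d / 2 * B := by
    intro d hd
    have cR : ∀ L, ContinuousOn (fun z => max (|A L z| - d / 2 * Y L z) 0) Om := fun L =>
      (((cA L).abs.sub (continuousOn_const.mul (cY L))).sup continuousOn_const :)
    have bR : ∀ L, ∀ z ∈ Om, ‖max (|A L z| - d / 2 * Y L z) 0‖ ≤ 1 / (2 * d) * ‖zt z‖ := by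
      intro L z hz
      rw [Real.norm_of_nonneg (le_max_right _ _)]
      refine max_le ?_ (by positivity)
      have f0 := D.f0 z hz
      have hW : 0 ≤ (s1 z ^ 2 + s2 z ^ 2) * f z := by positivity
      have h0 : b1 z ^ 2 + b2 z ^ 2 ≤ Real.sqrt ‖zt z‖ ^ 2 * f z := by
        rw [Real.sq_sqrt (norm_nonneg _), mul_comm]
        exact (hb z hz).trans (mul_le_mul_of_nonneg_left (le_abs_self _) f0)
      have h1 := dot_le (s1 := s1 z) (s2 := s2 z) f0 (Real.sqrt_nonneg _) h0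
      have h2 := dot_le (s1 := -s1 z) (s2 := -s2 z) f0 (Real.sqrt_nonneg _) h0
      rw [neg_sq, neg_sq] at h2
      have h3 : |s1 z * b1 z + s2 z * b2 z| ≤
          Real.sqrt ‖zt z‖ * Real.sqrt ((s1 z ^ 2 + s2 z ^ 2) * f z) :=
        abs_le.2 ⟨by linarith, h1⟩
      have h4 := abs_mul_le_amgm
        (a := g1 (sg z / L) / L * Real.sqrt ((s1 z ^ 2 + s2 z ^ 2) * f z))
        (b := Real.sqrt ‖zt z‖) hd
      rw [mul_pow, Real.sq_sqrt hW, Real.sq_sqrt (norm_nonneg _), abs_mul, abs_mul,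
        abs_of_nonneg (Real.sqrt_nonneg _), abs_of_nonneg (Real.sqrt_nonneg _)] at h4
      have h5 := mul_le_mul_of_nonneg_left h3 (abs_nonneg (g1 (sg z / L) / L))
      rw [hA, hY]
      simp only [abs_mul]
      linarith
    have lim2 : Tendsto (fun n : ℕ => ∫ z in Om, max (|A (n + 1) z| - d / 2 * Y (n + 1) z) 0)
        atTop (𝓝 (∫ z in Om, (0 : ℝ))) := by
      refine tendsto_integral_of_dominated_convergence (fun z => 1 / (2 * d) * ‖zt z‖)
        (fun n => (cR _).aestronglyMeasurable hOm) (hz.norm.const_mul _)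
        (fun n => (ae_restrict_iff' hOm).2 (Eventually.of_forall (bR _))) ?_
      refine (ae_restrict_iff' hOm).2 (Eventually.of_forall fun z hz => ?_)
      have h1 : Tendsto (fun n : ℕ => M * |s1 z * b1 z + s2 z * b2 z| / (n + 1)) atTop (𝓝 0) :=
        hN.const_div_atTop _
      refine squeeze_zero (fun n => le_max_right _ _) (fun n => max_le ?_ (by positivity)) h1
      have f0 := D.f0 z hz
      have y0 : 0 ≤ d / 2 * Y (n + 1) z := by rw [hY]; positivity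
      have h2 : |g1 (sg z / (n + 1))| ≤ M := by
        rw [abs_of_nonpos (P.np _)]
        exact P.bd _ (div_nonneg (E.pos z hz) (by positivity))
      have h3 : |A (n + 1) z| ≤ M * |s1 z * b1 z + s2 z * b2 z| / (n + 1) := by
        rw [hA]
        simp only [abs_mul, abs_div]
        rw [abs_of_pos (show (0 : ℝ) < n + 1 by positivity), div_mul_eq_mul_div]
        gcongr
      linarith
    rw [integral_zero] at lim2
    have lim3 := lim2.const_add (d / 2 * B)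
    rw [add_zero] at lim3
    refine le_of_tendsto_of_tendsto' lim1.abs lim3 fun n => ?_
    rw [stokes _ (h1N n), abs_neg]
    have iR : IntegrableOn (fun z => max (|A (n + 1) z| - d / 2 * Y (n + 1) z) 0) Om :=
      Integrable.mono' (hz.norm.const_mul _) ((cR _).aestronglyMeasurable hOm)
        ((ae_restrict_iff' hOm).2 (Eventually.of_forall (bR _)))
    have iY := (xY _ (h1N n)).1.const_mul (d / 2)
    have h1 : |∫ z in Om, A (n + 1) z| ≤ ∫ z in Om, |A (n + 1) z| := abs_integral_le_integral_abs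
    have h2 := integral_mono (xA _ (h1N n)).abs (iY.add iR) fun z => by
      have := le_max_left (|A (n + 1) z| - d / 2 * Y (n + 1) z) 0
      simp only [Pi.add_apply]
      linarith
    rw [integral_add' iY iR, integral_const_mul] at h2
    have h3 := mul_le_mul_of_nonneg_left (xY _ (h1N n)).2 (show 0 ≤ d / 2 by positivity)
    linarith
  have h0 : Tendsto (fun d : ℝ => d / 2 * B) (𝓝[>] 0) (𝓝 0) := by
    have : Continuous fun d : ℝ => d / 2 * B := by fun_prop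
    simpa using (this.tendsto 0).mono_left nhdsWithin_le_nhds
  exact abs_nonpos_iff.1 (ge_of_tendsto h0 (eventually_mem_nhdsWithin.mono key))

end Pool.Agent.Lib.MP_5c318e_ag.K0
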