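import Pool.Agent.Lib.MP_5c318e_ag.V.K0Cut
import Pool.Agent.Lib.MP_5c318e_ag.V.Der

/-! An exhaustion of the complement of a finite set which is harmonic off a compact set. -/

namespace Pool.Agent.Lib.MP_5c318e_ag.K0

open MeasureTheory Set Filter Topology Complex
open scoped ContDiff

theorem hld_of_sm {F : ℂ → ℝ} {z : ℂ} (h : ContDiffAt ℝ ∞ F z) (w : ℂ) :
    HasLineDerivAt ℝ F (fderiv ℝ F z w) z w :=
  (h.differentiableAt (by simp)).hasFDerivAt.hasLineDerivAt w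

theorem sm_pdr {F : ℂ → ℝ} {z : ℂ} (h : ContDiffAt ℝ ∞ F z) (w : ℂ) :
    ContDiffAt ℝ ∞ (fun y => fderiv ℝ F y w) z :=
  (h.fderiv_right (m := ∞) (by norm_cast)).clm_apply contDiffAt_const

theorem con_of_sm {Om : Set ℂ} {F : ℂ → ℝ} (h : ∀ z ∈ Om, ContDiffAt ℝ ∞ F z) :
    ContinuousOn F Om := fun z hz => (h z hz).continuousAt.continuousWithinAt

theorem cpt_level (R : Finset ℂ) (M : ℝ) :
    IsCompact {x : ℂ | ‖x * ∏ r ∈ R, (x - r) + 1‖ ≤ M * ‖∏ r ∈ R, (x - r)‖} := by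
  have c : Continuous fun x : ℂ => ∏ r ∈ R, (x - r) := by fun_prop
  refine Metric.isCompact_of_isClosed_isBounded (isClosed_le (by fun_prop) (by fun_prop)) ?_
  refine (Metric.isBounded_closedBall (x := (0 : ℂ))
    (r := max (M + 1) (∑ r ∈ R, ‖r‖ + 1))).subset fun x hx => ?_
  rw [mem_closedBall_zero_iff]
  by_contra hc
  rw [not_le, max_lt_iff] at hc
  have h1 : 1 ≤ ‖∏ r ∈ R, (x - r)‖ := by
    rw [norm_prod]
    refine Finset.prod_induction _ (fun t : ℝ => 1 ≤ t) (fun a b => one_le_mul_of_one_le_of_one_le) le_rfl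
      fun r hr => ?_
    have a : ‖r‖ ≤ ∑ r ∈ R, ‖r‖ := Finset.single_le_sum (f := fun r : ℂ => ‖r‖)
      (fun _ _ => norm_nonneg _) hr
    have b := norm_sub_norm_le x r
    linarith [hc.2]
  have h2 := norm_sub_le (x * ∏ r ∈ R, (x - r) + 1) 1
  rw [add_sub_cancel_right, norm_mul, norm_one] at h2
  have h3 : ‖x * ∏ r ∈ R, (x - r) + 1‖ ≤ M * ‖∏ r ∈ R, (x - r)‖ := hx
  nlinarith [hc.1]

theorem exists_exhaust (R : Finset ℂ) :
    ∃ K sg s1 s2 s11 s22, Exhaust (R : Set ℂ)ᶜ K sg s1 s2 s11 s22 := by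
  set D : ℂ → ℂ := fun x => ∏ r ∈ R, (x - r) with hD
  set F : ℂ → ℂ := fun x => (x * D x + 1) / D x with hF
  have D0 : ∀ x, D x ≠ 0 ↔ x ∈ (R : Set ℂ)ᶜ := fun x => by
    simp only [hD, Finset.prod_ne_zero_iff, sub_ne_zero, mem_compl_iff, Finset.mem_coe]
    exact ⟨fun h hx => h x hx rfl, fun h r hr e => h (e ▸ hr)⟩
  have aD : ∀ x, AnalyticAt ℂ D x := fun x => by
    refine Finset.analyticAt_fun_prod _ fun r _ => ?_
    fun_prop
  have aF : ∀ x ∈ (R : Set ℂ)ᶜ, AnalyticAt ℂ F x := fun x hx =>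
    ((analyticAt_id.mul (aD x)).add analyticAt_const).div (aD x) ((D0 x).2 hx)
  have lev : ∀ M : ℝ, IsCompact {x | x ∈ (R : Set ℂ)ᶜ ∧ ‖F x‖ ≤ M} := fun M => by
    have e : {x | x ∈ (R : Set ℂ)ᶜ ∧ ‖F x‖ ≤ M} = {x | ‖x * D x + 1‖ ≤ M * ‖D x‖} := by
      ext x
      simp only [mem_ofPred_eq]
      constructor
      · rintro ⟨h1, h2⟩
        rwa [hF, norm_div, div_le_iff₀ (norm_pos_iff.2 ((D0 x).2 h1))] at h2
      · intro h
        have h0 : D x ≠ 0 := fun e => by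
          rw [e] at h
          norm_num at h
        exact ⟨(D0 x).1 h0, by rwa [hF, norm_div, div_le_iff₀ (norm_pos_iff.2 h0)]⟩
    rw [e]
    exact cpt_level R M
  set sg : ℂ → ℝ := fun x => Real.smoothTransition (‖F x‖ - 1) * Real.log ‖F x‖ with hsg
  have sm : ∀ x ∈ (R : Set ℂ)ᶜ, ContDiffAt ℝ ∞ sg x := fun x hx => by
    by_cases h0 : F x = 0
    · have : ∀ᶠ y in 𝓝 x, ‖F y‖ < 1 :=
        (aF x hx).continuousAt.norm.eventually_lt continuousAt_const (by simp [h0])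
      refine (contDiffAt_const (c := (0 : ℝ))).congr_of_eventuallyEq (this.mono fun y hy => ?_)
      simp only [hsg]
      rw [Real.smoothTransition.zero_of_nonpos (by linarith), zero_mul]
    · have n : ContDiffAt ℝ ∞ (fun y => ‖F y‖) x :=
        ((aF x hx).contDiffAt.restrict_scalars ℝ).norm ℝ h0
      exact (Real.smoothTransition.contDiffAt.comp x (n.sub contDiffAt_const)).mul
        (n.log (norm_ne_zero_iff.2 h0))
  refine ⟨{x | x ∈ (R : Set ℂ)ᶜ ∧ ‖F x‖ ≤ 2}, sg, fun y => fderiv ℝ sg y 1,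
    fun y => fderiv ℝ sg y I, fun z => fderiv ℝ (fun y => fderiv ℝ sg y 1) z 1,
    fun z => fderiv ℝ (fun y => fderiv ℝ sg y I) z I, fun z hz => hld_of_sm (sm z hz) _,
    fun z hz => hld_of_sm (sm z hz) _, fun z hz => hld_of_sm (sm_pdr (sm z hz) _) _,
    fun z hz => hld_of_sm (sm_pdr (sm z hz) _) _, con_of_sm sm,
    con_of_sm fun z hz => sm_pdr (sm z hz) _, con_of_sm fun z hz => sm_pdr (sm z hz) _,
    con_of_sm fun z hz => sm_pdr (sm_pdr (sm z hz) _) _,
    con_of_sm fun z hz => sm_pdr (sm_pdr (sm z hz) _) _, fun z _ => ?_, fun L => ?_, lev 2,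
    fun _ h => h.1, fun z hz hK => ?_⟩
  · by_cases h : ‖F z‖ ≤ 1
    · simp only [hsg]
      rw [Real.smoothTransition.zero_of_nonpos (by linarith), zero_mul]
    · exact mul_nonneg (Real.smoothTransition.nonneg _) (Real.log_nonneg (not_le.1 h).le)
  · have e : {z | z ∈ (R : Set ℂ)ᶜ ∧ sg z ≤ L} =
        {x | x ∈ (R : Set ℂ)ᶜ ∧ ‖F x‖ ≤ max 2 (Real.exp L)} ∩ sg ⁻¹' Iic L := by
      ext z
      refine ⟨fun h => ⟨⟨h.1, ?_⟩, h.2⟩, fun h => ⟨h.1.1, h.2⟩⟩
      by_cases h2 : ‖F z‖ ≤ 2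
      · exact h2.trans (le_max_left _ _)
      · have h3 := h.2
        simp only [hsg] at h3
        rw [Real.smoothTransition.one_of_one_le (by linarith), one_mul,
          Real.log_le_iff_le_exp (by linarith)] at h3
        exact h3.trans (le_max_right _ _)
    rw [e]
    exact (lev _).of_isClosed_subset (((con_of_sm sm).mono fun _ h => h.1).preimage_isClosed_of_isClosed
      (lev _).isClosed isClosed_Iic) inter_subset_left
  · have h2 : 2 < ‖F z‖ := not_le.1 fun h => hK ⟨hz, h⟩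
    have ev : sg =ᶠ[𝓝 z] fun y => Real.log ‖F y‖ := by
      filter_upwards [continuousAt_const.eventually_lt (aF z hz).continuousAt.norm h2] with y hy
      simp only [hsg]
      rw [Real.smoothTransition.one_of_one_le (by linarith), one_mul]
    have H := (aF z hz).harmonicAt_log_norm (norm_pos_iff.1 (by linarith))
    have H2 := H.2.self_of_nhds
    have s2 : ContDiffAt ℝ 2 sg z := (sm z hz).of_le (by norm_cast)
    rw [InnerProductSpace.laplacian_eq_iteratedFDeriv_complexPlane] at H2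
    simp only [iteratedFDeriv_two_apply] at H2
    rw [← ev.fderiv.fderiv_eq, V.d2_eq s2, V.d2_eq s2] at H2
    simpa using H2

end Pool.Agent.Lib.MP_5c318e_ag.K0
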