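import Pool.Agent.Lib.MP_5c318e_ag.V.FamP
import Pool.Agent.Lib.MP_5c318e_ag.V.FibAlg

/-! The matrix of the pull back on cohomology. -/

set_option autoImplicit false

namespace Pool.Agent.Lib.MP_5c318e_ag.V

open Matrix Filter Topology MeasureTheory Complex Metric
open scoped ComplexOrder ContDiff ComplexConjugate

noncomputable section

variable {ι : Type} [Fintype ι] [DecidableEq ι] {w : ℕ}

section One

variable {Ω Ω' : Set ℂ} {V : VHS ℂ Ω ι w} {V' : VHS ℂ Ω' ι w} {n n' : ℕ} {F : FD ι n}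
  {F' : FD ι n'} {f : ℂ → ℂ} {m : ℂ → GL ι ℤ}

/-- the matrix of a map of forms on cohomology -/
def pm (F : FD ι n) (V : VHS ℂ Ω ι w) (F' : FD ι n') (T : Form ι → Form ι) :
    Matrix (Fin n) (Fin n') ℂ := Matrix.of fun j k => F.cls V (T (F'.e k)) j

theorem Fib.exists_K (h : Fib V F) :
    ∃ K ⊆ Ω, IsCompact K ∧ ∀ j, ∀ x ∈ Ω, x ∉ K → F.e j x = 0 := by
  choose K h1 h2 h3 using h.cpt
  refine ⟨⋃ j, K j, Set.iUnion_subset h1, isCompact_iUnion h2, fun j x hx hK => h3 j x hx ?_⟩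
  exact fun hj => hK (Set.mem_iUnion.2 ⟨j, hj⟩)

theorem cls_pull (hΩ : Ωᶜ.Finite) (hΩ' : Ω'ᶜ.Finite) (h : Mor V V' f m) (hF : Fib V F)
    (hF' : Fib V' F') (hz : ∀ ζ, V'.Z ζ → V.Z (pullF f m ζ)) {ζ : Form ι} (hζ : V'.Z ζ) :
    F.cls V (pullF f m ζ) = pm F V F' (pullF f m) *ᵥ F'.cls V' ζ := by
  have e := h.exact (hF'.cls_spec hΩ' hζ)
  rw [pullF_sub, pullF_sum] at e
  have hk : ∀ k ∈ (Finset.univ : Finset (Fin n')), V.Z (pullF f m (F'.e k)) :=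
    fun k _ => hz _ (hF'.z_e hΩ' k)
  rw [hF.cls_of_exact hΩ (hz ζ hζ) (VHS.Z.sum hΩ _ hk _) e, hF.cls_sum hΩ _ hk]
  funext j
  simp only [pm, mulVec, dotProduct, Finset.sum_apply, Pi.smul_apply, smul_eq_mul, of_apply]
  exact Finset.sum_congr rfl fun k _ => mul_comm _ _

theorem pm_int (hΩ : Ωᶜ.Finite) (hΩ' : Ω'ᶜ.Finite) (h : Mor V V' f m) (hF : Fib V F)
    (hF' : Fib V' F') (hz : ∀ ζ, V'.Z ζ → V.Z (pullF f m ζ)) :
    ∃ N : Matrix (Fin n) (Fin n') ℤ, pm F V F' (pullF f m) = N.map (Int.cast : ℤ → ℂ) := by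
  choose c hc using fun k => hF.cls_int hΩ (hz _ (hF'.z_e hΩ' k)) (h.primMod (hF'.intg k))
  refine ⟨Matrix.of fun j k => c k j, ?_⟩
  ext j k
  simp only [pm, of_apply, map_apply, hc k]

theorem ext_cls (hΩ : Ωᶜ.Finite) (hF : Fib V F) {k : ℕ} {M N : Matrix (Fin k) (Fin n) ℂ}
    (h : ∀ ζ, V.Z ζ → M *ᵥ F.cls V ζ = N *ᵥ F.cls V ζ) : M = N := by
  ext i j
  have e := congrFun (h _ (hF.z_e hΩ j)) i
  rw [hF.cls_e hΩ] at e
  simpa using e

theorem cls_congr_K (hΩ : Ωᶜ.Finite) {ζ ζ' : Form ι}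
    (h : ∀ j, ∀ x ∈ Ω, F.e j x ≠ 0 → ζ x = ζ' x) : F.cls V ζ = F.cls V ζ' := by
  unfold FD.cls
  congr 1
  funext j
  refine integral_congr_ae ?_
  have ae : ∀ᵐ x : ℂ, x ∈ Ω := by
    rw [ae_iff]
    exact hΩ.measure_zero _
  filter_upwards [ae] with x hx
  by_cases h0 : F.e j x = 0
  · rw [h0, qf_zero_left, qf_zero_left]
  · rw [h j x hx h0]

end One

theorem IsFr.comp {B C Γ : Type} [TopologicalSpace B] [TopologicalSpace C] [Group Γ] {O : Set B}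
    {κ : B → B → Γ} {k : B → Γ} (h : IsFr O κ k) {O' : Set C} {f : C → B}
    (hc : ContinuousOn f O') (hm : Set.MapsTo f O' O) {κ' : C → C → Γ}
    (he : ∀ y ∈ O', ∀ y' ∈ O', κ' y y' = κ (f y) (f y')) : IsFr O' κ' fun y => k (f y) := by
  intro y hy
  filter_upwards [((hc y hy).tendsto_nhdsWithin hm).eventually (h _ (hm hy)),
    self_mem_nhdsWithin] with y' h1 h2
  rw [h1, he y hy y' h2]

section Fam

variable {A : Type} [NormedAddCommGroup A] [NormedSpace ℂ A] {Ω : Set (A × ℂ)}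
  {V : VHS (A × ℂ) Ω ι w} {E : Type} [NormedAddCommGroup E] [NormedSpace ℂ E]

theorem VHS.End.fib {ε : A × ℂ → Matrix ι ι ℂ} (h : V.End ε) (s : A) :
    (V.fib s).End fun x => ε (s, x) where
  flat := fun x hx => (((continuous_const.prodMk continuous_id).continuousWithinAt
    (s := fb Ω s) (x := x)).tendsto_nhdsWithin fun _ h => h).eventually (h.flat (s, x) hx)
  comm := fun x hx => h.comm (s, x) hx
  adj := fun x hx => h.adj (s, x) hx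

theorem Charted.ev {S : Set A} (h : Charted S) {s : A} (hs : s ∈ S) {P : A → A → Prop}
    (hP : ∀ (m : ℕ) (σ : (Fin m → ℂ) → A) (a0 : Fin m → ℂ), Plot S σ a0 → σ a0 = s →
      ∀ᶠ a in 𝓝 a0, ∀ᶠ a' in 𝓝 a, P (σ a) (σ a')) :
    ∀ᶠ s' in 𝓝[S] s, ∀ᶠ s'' in 𝓝[S] s', P s' s'' := by
  obtain ⟨m, σ, p, h1, h2, -, h4⟩ := h s hs
  have h5 := hP m σ (p s) h1 (h4.self_of_nhdsWithin hs)
  filter_upwards [(h2.continuousAt.continuousWithinAt (s := S)).tendsto.eventually h5, h4,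
    eventually_eventually_nhdsWithin.2 h4,
    nhdsWithin_le_nhds h2.eventually_continuousAt] with s' a b c d
  filter_upwards [(d.continuousWithinAt (s := S)).tendsto.eventually a, c] with s'' e f
  rwa [b, f] at e

theorem Charted.ev1 {S : Set A} (h : Charted S) {s : A} (hs : s ∈ S) {P : A → Prop}
    (hP : ∀ (m : ℕ) (σ : (Fin m → ℂ) → A) (a0 : Fin m → ℂ), Plot S σ a0 → σ a0 = s →
      ∀ᶠ a in 𝓝 a0, P (σ a)) : ∀ᶠ s' in 𝓝[S] s, P s' := by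
  obtain ⟨m, σ, p, h1, h2, -, h4⟩ := h s hs
  have h5 := hP m σ (p s) h1 (h4.self_of_nhdsWithin hs)
  filter_upwards [(h2.continuousAt.continuousWithinAt (s := S)).tendsto.eventually h5, h4]
    with s' a b
  rwa [b] at a

namespace Fam

variable {φ : E → A} {a0 : E} {K : Set ℂ} (M : Fam V φ a0 K) {a : E}

theorem half (ha : a ∈ ball a0 (M.δ / 2)) : a ∈ ball a0 M.δ :=
  ball_subset_ball (half_le_self M.pos.le) ha

theorem cen : a0 ∈ ball a0 M.δ := mem_ball_self M.pos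

theorem z_fix (ha : a ∈ ball a0 M.δ) {x : ℂ} (hx : x ∈ K) : M.z a x = x :=
  (M.fix x hx).self_of_nhds a ha

theorem mem_fb (ha : a ∈ ball a0 M.δ) {x : ℂ} (hx : x ∈ K) (hx' : x ∈ fb Ω (φ a0)) :
    x ∈ fb Ω (φ a) := by
  have := (M.mem a ha x).2 hx'
  rwa [M.z_fix ha hx] at this

theorem isFr_fix {x : ℂ} (hx : x ∈ K) (hx' : x ∈ fb Ω (φ a0)) :
    IsFr (ball a0 M.δ) (fun a a' => V.κ (φ a, x) (φ a', x)) fun a => M.m a x :=
  (M.isFr hx').comp continuousOn_id (Set.mapsTo_id _) fun y hy y' hy' => by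
    simp only [id, M.z_fix hy hx, M.z_fix hy' hx]

variable {n n' : ℕ} {F : FD ι n} {F' : FD ι n'}

theorem cls_pb (ha : a ∈ ball a0 (M.δ / 2)) (hF : Fib (V.fib (φ a0)) F) (hF' : Fib (V.fib (φ a)) F')
    {ζ : Form ι} (hζ : (V.fib (φ a)).Z ζ) :
    F.cls (V.fib (φ a0)) (M.pb a ζ) = pm F (V.fib (φ a0)) F' (M.pb a) *ᵥ F'.cls (V.fib (φ a)) ζ :=
  cls_pull (M.fin _ M.cen) (M.fin _ (M.half ha)) (M.mor (M.half ha)) hF hF'
    (fun _ h => M.pb_z ha h) hζ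

theorem cls_pf (ha : a ∈ ball a0 (M.δ / 2)) (hF : Fib (V.fib (φ a0)) F) (hF' : Fib (V.fib (φ a)) F')
    {ζ : Form ι} (hζ : (V.fib (φ a0)).Z ζ) :
    F'.cls (V.fib (φ a)) (M.pf a ζ) = pm F' (V.fib (φ a)) F (M.pf a) *ᵥ F.cls (V.fib (φ a0)) ζ :=
  cls_pull (M.fin _ (M.half ha)) (M.fin _ M.cen) (M.mor_inv (M.half ha)) hF' hF
    (fun _ h => M.pf_z ha h) hζ

theorem pm_mul (ha : a ∈ ball a0 (M.δ / 2)) (hF : Fib (V.fib (φ a0)) F)
    (hF' : Fib (V.fib (φ a)) F') :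
    pm F (V.fib (φ a0)) F' (M.pb a) * pm F' (V.fib (φ a)) F (M.pf a) = 1 := by
  refine ext_cls (M.fin _ M.cen) hF fun ζ hζ => ?_
  rw [← mulVec_mulVec, ← M.cls_pf ha hF hF' hζ, ← M.cls_pb ha hF hF' (M.pf_z ha hζ), one_mulVec]
  exact Fib.cls_congr (M.fin _ M.cen) F fun x _ => M.pb_pf (M.half ha) ζ x

theorem pm_mul' (ha : a ∈ ball a0 (M.δ / 2)) (hF : Fib (V.fib (φ a0)) F)
    (hF' : Fib (V.fib (φ a)) F') :
    pm F' (V.fib (φ a)) F (M.pf a) * pm F (V.fib (φ a0)) F' (M.pb a) = 1 := by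
  refine ext_cls (M.fin _ (M.half ha)) hF' fun ζ hζ => ?_
  rw [← mulVec_mulVec, ← M.cls_pb ha hF hF' hζ, ← M.cls_pf ha hF hF' (M.pb_z ha hζ), one_mulVec]
  exact Fib.cls_congr (M.fin _ (M.half ha)) F' fun x _ => M.pf_pb (M.half ha) ζ x

theorem rank_eq (ha : a ∈ ball a0 (M.δ / 2)) (hF : Fib (V.fib (φ a0)) F)
    (hF' : Fib (V.fib (φ a)) F') : n' = n := by
  have e := trace_mul_comm (pm F (V.fib (φ a0)) F' (M.pb a)) (pm F' (V.fib (φ a)) F (M.pf a))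
  rw [M.pm_mul ha hF hF', M.pm_mul' ha hF hF', trace_one, trace_one] at e
  simpa using e.symm

theorem exists_gl {F' : FD ι n} (ha : a ∈ ball a0 (M.δ / 2)) (hF : Fib (V.fib (φ a0)) F)
    (hF' : Fib (V.fib (φ a)) F') : ∃ g : GL (Fin n) ℤ, cx g = pm F (V.fib (φ a0)) F' (M.pb a) := by
  obtain ⟨N, hN⟩ := pm_int (M.fin _ M.cen) (M.fin _ (M.half ha)) (M.mor (M.half ha)) hF hF'
    fun _ h => M.pb_z ha h
  obtain ⟨N', hN'⟩ := pm_int (M.fin _ (M.half ha)) (M.fin _ M.cen) (M.mor_inv (M.half ha)) hF' hF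
    fun _ h => M.pf_z ha h
  have e := M.pm_mul ha hF hF'
  have e1 : pm F (V.fib (φ a0)) F' (M.pb a) = N.map (Int.cast : ℤ → ℂ) := hN
  have e2 : pm F' (V.fib (φ a)) F (M.pf a) = N'.map (Int.cast : ℤ → ℂ) := hN'
  rw [e1, e2] at e
  rw [e1]
  exact exists_cx e

end Fam

end Fam

end

end Pool.Agent.Lib.MP_5c318e_ag.V
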