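import Pool.Agent.Lib.MP_5c318e_ag.V.Harv
import Pool.Agent.Lib.MP_5c318e_ag.V.KW

/-! The projectors of the cohomology are differentiable. -/

set_option autoImplicit false

namespace Pool.Agent.Lib.MP_5c318e_ag.V

open Matrix Filter Topology MeasureTheory Complex Metric
open scoped ComplexOrder ContDiff ComplexConjugate

noncomputable section

variable {ι : Type} [Fintype ι] [DecidableEq ι] {w : ℕ}
  {A : Type} [NormedAddCommGroup A] [NormedSpace ℂ A]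
  {E : Type} [NormedAddCommGroup E] [NormedSpace ℂ E] {Ω : Set (A × ℂ)}
  {V : VHS (A × ℂ) Ω ι w}

theorem kd_single (M : Matrix ι ι ℂ) (j k : ι) :
    qf M (Pi.single j 1) (Pi.single k 1) = M j k := by
  simp [qf, dotProduct, Pi.single_apply, apply_ite]

theorem kd_entry {ψ : Matrix ι ι ℂ} (hψ : IsUnit ψ.det) (X : Matrix ι ι ℂ) (i k : ι) :
    X i k = ∑ j, ψ⁻¹ i j * qf ψ (Pi.single j 1) (X *ᵥ Pi.single k 1) := by
  simp only [qf_mulVec_right, kd_single]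
  rw [← Matrix.mul_apply, ← Matrix.mul_assoc, Matrix.nonsing_inv_mul _ hψ, Matrix.one_mul]

theorem kd_qf (ψ X : Matrix ι ι ℂ) (u v : ι → ℂ) :
    qf ψ u (X *ᵥ v) = ∑ i, ∑ k, ((star u ᵥ* ψ) i * v k) * X i k := by
  rw [qf, dotProduct_mulVec]
  simp only [dotProduct, mulVec, Finset.mul_sum]
  exact Finset.sum_congr rfl fun i _ => Finset.sum_congr rfl fun k _ => by ring

theorem kd_der {X : E → Matrix ι ι ℂ} {a : E} (h : ∀ i j, DifferentiableAt ℝ (fun a => X a i j) a)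
    (ψ : Matrix ι ι ℂ) (u v : ι → ℂ) (c : ℂ) (ξ : E) :
    der c ξ (fun a => qf ψ u (X a *ᵥ v)) a = qf ψ u (derM c ξ X a *ᵥ v) := by
  simp only [kd_qf]
  rw [der_sum _ fun i _ => DifferentiableAt.fun_sum fun k _ => (h i k).const_mul _]
  refine Finset.sum_congr rfl fun i _ => ?_
  rw [der_sum _ fun k _ => (h i k).const_mul _]
  exact Finset.sum_congr rfl fun k _ => der_const_mul _ (h i k)

theorem kd_small {R : E → ℂ} {a0 : E} {C : ℝ} (h : ∀ᶠ a in 𝓝 a0, ‖R a‖ ≤ C * ‖a - a0‖ ^ 2) :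
    HasFDerivAt R (0 : E →L[ℝ] ℂ) a0 := by
  have h0 : R a0 = 0 := by simpa using h.self_of_nhds
  refine HasFDerivAt.of_isLittleO ?_
  simp only [h0, sub_zero, _root_.zero_apply]
  refine (Asymptotics.IsBigO.of_bound C (h.mono fun a ha => ?_)).trans_isLittleO
    (Asymptotics.isLittleO_pow_sub_sub a0 one_lt_two)
  simpa using ha

theorem kd_ax {T : Finset ℤ} {P : ℤ → Matrix ι ι ℂ} (H : Prj T P) {Θ : Matrix ι ι ℂ}
    (h : ∀ p q, q ≠ p - 1 → P q * Θ * P p = 0) :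
    Θ * (∑ p ∈ T, (p : ℂ) • P p) - (∑ p ∈ T, (p : ℂ) • P p) * Θ = Θ := by
  have z : ∀ q p, P q * (Θ * (∑ p ∈ T, (p : ℂ) • P p) - (∑ p ∈ T, (p : ℂ) • P p) * Θ - Θ) * P p
      = 0 := fun q p => by
    have e : P q * (Θ * (∑ p ∈ T, (p : ℂ) • P p) - (∑ p ∈ T, (p : ℂ) • P p) * Θ - Θ) * P p =
        P q * Θ * ((∑ p ∈ T, (p : ℂ) • P p) * P p) - (P q * ∑ p ∈ T, (p : ℂ) • P p) * Θ * P p -
          P q * Θ * P p := by noncomm_ring
    rw [e, H.sum_mul, H.mul_sum, Matrix.mul_smul, Matrix.smul_mul, Matrix.smul_mul]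
    by_cases hq : q = p - 1
    · subst hq
      push_cast
      module
    · simp [h p q hq]
  rw [← sub_eq_zero]
  generalize Θ * (∑ p ∈ T, (p : ℂ) • P p) - (∑ p ∈ T, (p : ℂ) • P p) * Θ - Θ = X at z
  rw [← Matrix.one_mul X, ← Matrix.mul_one (1 * X), ← H.sum, Finset.sum_mul, Finset.sum_mul]
  refine Finset.sum_eq_zero fun q _ => ?_
  rw [Finset.mul_sum]
  exact Finset.sum_eq_zero fun p _ => z q p

theorem LV.kd_zero {U : Set E} {Q : Matrix ι ι ℂ} {T : Finset ℤ} {π : ℤ → E → Matrix ι ι ℂ} {x : E}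
    (L : LV U Q T π) (hx : x ∈ U) (ξ : E) (r : ℤ) {p q : ℤ} (h : q ≠ p - 1) :
    π q x * derM (-I) ξ (π r) x * π p x = 0 := by
  have H := L.prj x hx
  have c : ∀ s t, π s x * π t x = π t x * π s x := fun s t => by
    by_cases e : s = t
    · rw [e]
    · rw [H.orth s t e, H.orth t s (Ne.symm e)]
  have z : π q x * derM (-I) ξ (gr T π) x * π p x = 0 := by
    rw [Matrix.mul_assoc, L.dgr_shift hx, ← Matrix.mul_assoc, H.orth q _ h, Matrix.zero_mul]
  rw [L.d_prj' hx]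
  linear_combination (norm := noncomm_ring) z * π r x - π r x * z +
    π q x * derM (-I) ξ (gr T π) x * c r p - c q r * derM (-I) ξ (gr T π) x * π p x

namespace Fam

variable {φ : E → A} {a0 : E} {K : Set ℂ} (M : Fam V φ a0 K)

theorem kd_P {a : E} (ha : a ∈ ball a0 (M.δ / 2)) (p : ℤ) {α : Form ι}
    (h : (V.fib (φ a0)).Z α) : (V.fib (φ a0)).SmF (mulF (fun x => M.P x p a) α) ∧
      (V.fib (φ a0)).L2 (mulF (fun x => M.P x p a) α) := by
  have b := M.half ha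
  have e : mulF (fun x => M.P x p a) α = M.pb a ((V.fib (φ a)).pF p (M.pf a α)) := by
    funext x
    rw [M.pb_pF b, M.pb_pf b, mulF]
  have z := M.pf_z ha h
  have s := z.1.1.pF (M.toMot.fx_open b) p
  rw [e]
  exact ⟨(M.mor b).smF s, M.pb_l2 ha s (z.2.pF (M.fin a b) z.1.1 p)⟩

theorem kd_H {x : ℂ} (hx : x ∈ fb Ω (φ a0)) :
    psi1 (V.ψ (φ a0, x)) * wey (wt (w + 1)) (M.P x) a0 = two ((V.fib (φ a0)).H x) := by
  have e : wey (wt (w + 1)) (M.P x) a0 = weyP (w + 1) (prj1 fun p => V.π p (φ a0, x)) := by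
    simp only [wey, weyP, M.P_zero hx]
  rw [e, (V.phs _ hx).psi1_wey]
  rfl

/-- replacing the harmonic representative costs a term of second order -/
theorem kd_est (p : ℤ) {α β : Form ι} (hα : (V.fib (φ a0)).Harm α) (hβ : (V.fib (φ a0)).Harm β) :
    ∃ C : ℝ, ∀ᶠ a in 𝓝 a0, ∀ η, (V.fib (φ a)).Harm η → (V.fib (φ a0)).Exact (M.pb a η - β) →
      ‖(V.fib (φ a0)).Q α (M.pb a ((V.fib (φ a)).pF p η)) -
        (V.fib (φ a0)).Q α (mulF (fun x => M.P x p a) β)‖ ≤ C * ‖a - a0‖ ^ 2 := by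
  obtain ⟨C, r, r0, r1, hC⟩ := M.harm_lip
  obtain ⟨L, L0, hL⟩ := lip (ι ⊕ ι) (w + 1)
  have f0 := M.fin _ M.cen
  have o0 := M.toMot.fx_open M.cen
  refine ⟨L / M.δ * ((∫ x, (V.fib (φ a0)).nrm α x) + C ^ 2 * ∫ x, (V.fib (φ a0)).nrm β x) / 2, ?_⟩
  filter_upwards [ball_mem_nhds a0 r0] with a ha η hη he
  have a2 : a ∈ ball a0 (M.δ / 2) := ball_subset_ball r1 ha
  have b := M.half a2
  have z1 := M.pb_z a2 (hη.pF (M.fin a b) p).1
  have zn := (M.pb_z a2 hη.1).sub f0 hβ.1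
  obtain ⟨s2, l2⟩ := M.kd_P a2 p hβ.1
  have s3 := zn.1.1.pF o0 p
  have l3 := zn.2.pF f0 zn.1.1 p
  have e3 : (V.fib (φ a0)).Q α ((V.fib (φ a0)).pF p (M.pb a η - β)) = 0 := by
    rw [VHS.pF, ← VHS.Q_mulF f0 fun x hx => ((V.fib (φ a0)).phs x hx).one.adj p, ← VHS.Q_conj f0,
      ← VHS.pF, he.orth f0 zn.2 (hα.pF f0 p).1, map_zero]
  rw [← sub_zero (_ - _), ← e3, ← VHS.Q_sub_right f0 hα.1.1.1 hα.1.2 z1.1.1 z1.2 s2 l2,
    ← VHS.Q_sub_right f0 hα.1.1.1 hα.1.2 (z1.1.1.sub s2) (z1.2.sub f0 l2 z1.1.1 s2) s3 l3]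
  have i1 : Integrable fun x => L / M.δ * (‖a - a0‖ ^ 2 * (V.fib (φ a0)).nrm α x +
      (V.fib (φ a0)).nrm (M.pb a η - β) x) / 2 :=
    (((hα.1.2.const_mul _).add zn.2).const_mul _).div_const 2
  have k0 : 0 ≤ L / M.δ := div_nonneg L0.le M.pos.le
  refine (norm_integral_le_of_norm_le i1 ?_).trans ?_
  · filter_upwards [compl_mem_ae_iff.2 (f0.measure_zero volume)] with x hx
    rw [compl_compl] at hx
    have h1 := (hL E a0 M.δ _ _ (M.lv hx) a a2 (α x) ((M.pb a η - β) x)).2.2 p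
    rw [M.kd_H hx] at h1
    have e : (M.pb a ((V.fib (φ a)).pF p η) - mulF (fun x => M.P x p a) β -
        (V.fib (φ a0)).pF p (M.pb a η - β)) x = (M.P x p a - M.P x p a0) *ᵥ (M.pb a η - β) x := by
      rw [Pi.sub_apply, Pi.sub_apply, M.pb_pF b, sub_mulVec, M.P_zero hx, Pi.sub_apply,
        mulVec_sub]
      rfl
    rw [e]
    have u0 := VHS.nrm_nonneg (V := V.fib (φ a0)) α x hx
    have v0 := VHS.nrm_nonneg (V := V.fib (φ a0)) (M.pb a η - β) x hx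
    change _ ≤ _ * ((V.fib (φ a0)).nrm α x * (V.fib (φ a0)).nrm (M.pb a η - β) x) at h1
    refine le_of_sq_le_sq (h1.trans ?_) (by positivity)
    rw [mul_div_right_comm]
    generalize L / M.δ = k
    generalize (V.fib (φ a0)).nrm α x = u
    generalize (V.fib (φ a0)).nrm (M.pb a η - β) x = v
    generalize ‖a - a0‖ = t
    nlinarith [sq_nonneg (k * (t ^ 2 * u - v))]
  · rw [integral_div, integral_const_mul, integral_add (hα.1.2.const_mul _) zn.2,
      integral_const_mul]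
    have := mul_le_mul_of_nonneg_left (hC a ha η β hη hβ he) k0
    nlinarith

end Fam

theorem Ctx.diff [CompleteSpace A] [FiniteDimensional ℂ E] {S : Set A} {n : ℕ} {F : A → FD ι n}
    {κW : A → A → GL (Fin n) ℤ} (h : Ctx V S F κW) {φ : E → A} {a0 : E} (hφ : Plot S φ a0)
    (π : ℤ → E → Matrix (Fin n) (Fin n) ℂ)
    (hπ : ∀ p a, π p a = cx (κW (φ a0) (φ a)) * (F (φ a)).π (V.fib (φ a)) p *
      cx (κW (φ a0) (φ a))⁻¹) :
    (∀ p i j, DifferentiableAt ℝ (fun a => π p a i j) a0) ∧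
      ∀ ξ, derM (-I) ξ (gr (wt (w + 1)) π) a0 * gr (wt (w + 1)) π a0 -
        gr (wt (w + 1)) π a0 * derM (-I) ξ (gr (wt (w + 1)) π) a0 =
          derM (-I) ξ (gr (wt (w + 1)) π) a0 := by
  obtain ⟨K, M, -, -, -, -, k5, k6⟩ :=
    h.kw.fam h.roots h.fib hφ isCompact_empty (Set.empty_subset _)
  have hs := k5 a0 M.cen
  have f0 := M.fin _ M.cen
  have F0 := h.fib _ hs
  have key : ∀ p u v, DifferentiableAt ℝ
      (fun a => qf ((F (φ a0)).ψ (V.fib (φ a0))) u (π p a *ᵥ v)) a0 ∧ ∀ ξ,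
      der (-I) ξ (fun a => qf ((F (φ a0)).ψ (V.fib (φ a0))) u (π p a *ᵥ v)) a0 =
        (V.fib (φ a0)).Q ((F (φ a0)).hf u)
          (mulF (fun x => derM (-I) ξ (M.P x p) a0) ((F (φ a0)).hf v)) := fun p u v => by
    have hu := F0.harm_hf f0 u
    have hv := F0.harm_hf f0 v
    obtain ⟨C, hC⟩ := M.kd_est p hu hv
    obtain ⟨d1, d2⟩ := M.hasFDerivAt_pair p hu.1.1.1 hu.1.2 hv.1.1.1 hv.1.2
    have d3 : HasFDerivAt (fun a => qf ((F (φ a0)).ψ (V.fib (φ a0))) u (π p a *ᵥ v) -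
        (V.fib (φ a0)).Q ((F (φ a0)).hf u) (mulF (fun x => M.P x p a) ((F (φ a0)).hf v)))
        (0 : E →L[ℝ] ℂ) a0 := by
      refine kd_small (C := C) ?_
      filter_upwards [hC, k6] with a b0 ⟨b1, b2⟩
      have b3 := M.half b1
      have fa := M.fin a b3
      have Fa := h.fib _ (k5 a b3)
      have hη := Fa.harm_hf fa (cx (κW (φ a0) (φ a))⁻¹ *ᵥ v)
      have c1 := b2 _ hη.1
      rw [Fa.cls_hf fa, mulVec_mulVec, cx_mul_inv, one_mulVec] at c1
      have c2 := b2 _ (hη.pF fa p).1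
      rw [← Fib.cls_congr fa _ (Fa.hf_prj fa p _), Fa.cls_hf fa, mulVec_mulVec, mulVec_mulVec,
        ← hπ] at c2
      have c3 := F0.cls_spec f0 (M.pb_z b1 hη.1)
      rw [← c1] at c3
      have c4 := b0 _ hη (by simpa using c3.sub (F0.exact_hf v))
      rwa [F0.Q_cls f0 hu.1 (M.pb_z b1 (hη.pF fa p).1), F0.cls_hf f0, ← c2] at c4
    have d4 := d3.add d1.hasFDerivAt
    simp only [zero_add] at d4
    have d5 := d4.congr_of_eventuallyEq (f₁ := fun a => qf ((F (φ a0)).ψ (V.fib (φ a0))) u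
      (π p a *ᵥ v)) (Eventually.of_forall fun a => by simp)
    refine ⟨d5.differentiableAt, fun ξ => ?_⟩
    rw [← (d2 (-I) ξ (Or.inr rfl)).2, der, der, d5.fderiv]
  have hd : ∀ p i j, DifferentiableAt ℝ (fun a => π p a i j) a0 := fun p i j => by
    simp only [fun a => kd_entry (F0.unit f0) (π p a) i j]
    exact DifferentiableAt.fun_sum fun l _ => (key p _ _).1.const_mul _
  have e0 : ∀ p, π p a0 = (F (φ a0)).π (V.fib (φ a0)) p := fun p => by
    rw [hπ, h.germ.self _ hs, inv_one, cx_one, Matrix.one_mul, Matrix.mul_one]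
  have H := F0.phs f0
  refine ⟨hd, fun ξ => ?_⟩
  have z : ∀ r p q, q ≠ p - 1 → (F (φ a0)).π (V.fib (φ a0)) q * derM (-I) ξ (π r) a0 *
      (F (φ a0)).π (V.fib (φ a0)) p = 0 := fun r p q hq => by
    ext i k
    refine (kd_entry (F0.unit f0) _ i k).trans ?_
    rw [Matrix.zero_apply]
    refine Finset.sum_eq_zero fun j _ => mul_eq_zero_of_right _ ?_
    rw [← mulVec_mulVec, ← mulVec_mulVec, qf_mulVec_right, ← H.adj, ← qf_mulVec_left,
      ← kd_der (hd r), (key r _ _).2, VHS.Q]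
    refine integral_eq_zero_of_ae ?_
    filter_upwards [compl_mem_ae_iff.2 (f0.measure_zero volume)] with x hx
    rw [compl_compl] at hx
    have L := M.lv hx
    have y := L.kd_zero M.cen ξ r hq
    rw [M.P_zero hx, M.P_zero hx] at y
    rw [mulF, F0.hf_prj f0 _ _ x hx, F0.hf_prj f0 _ _ x hx, VHS.pF, VHS.pF, mulF, mulF,
      qf_mulVec_left, ((V.fib (φ a0)).phs x hx).one.adj, ← qf_mulVec_right, mulVec_mulVec,
      mulVec_mulVec]
    erw [y]
    rw [zero_mulVec, qf_zero_right, Pi.zero_apply]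
  have e1 : derM (-I) ξ (gr (wt (w + 1)) π) a0 =
      ∑ r ∈ wt (w + 1), (r : ℂ) • derM (-I) ξ (π r) a0 := by
    ext i j
    simp only [derM, gr, of_apply, Matrix.sum_apply, Matrix.smul_apply, smul_eq_mul]
    rw [der_sum _ fun r _ => (hd r i j).const_mul _]
    exact Finset.sum_congr rfl fun r _ => der_const_mul _ (hd r i j)
  have e2 : gr (wt (w + 1)) π a0 =
      ∑ p ∈ wt (w + 1), (p : ℂ) • (F (φ a0)).π (V.fib (φ a0)) p := by
    simp only [gr, e0]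
  rw [e2]
  refine kd_ax H.prj fun p q hq => ?_
  rw [e1, Finset.mul_sum, Finset.sum_mul]
  refine Finset.sum_eq_zero fun r _ => ?_
  rw [Matrix.mul_smul, Matrix.smul_mul, z r p q hq, smul_zero]

end

end Pool.Agent.Lib.MP_5c318e_ag.V
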