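import Pool.Agent.Lib.MP_5c318e_ag.V.Slit

/-! Period cocycles of closed forms. -/

set_option autoImplicit false

namespace Pool.Agent.Lib.MP_5c318e_ag.V

open Matrix Filter Topology MeasureTheory Complex Metric
open scoped ComplexOrder ContDiff ComplexConjugate

noncomputable section

variable {ι : Type} [Fintype ι] [DecidableEq ι] {w : ℕ} {Ω : Set ℂ} {V : VHS ℂ Ω ι w}

namespace PerA

variable {β β' : ℂ → ι → ℂ} {x : ℂ}

omit [Fintype ι] [DecidableEq ι] in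
theorem sm_const (v : ι → ℂ) (x : ℂ) : SmV (fun _ : ℂ => v) x := fun _ => contDiffAt_const

omit [Fintype ι] [DecidableEq ι] in
theorem d_const (v : ι → ℂ) (x : ℂ) : dV (fun _ : ℂ => v) x = 0 := by
  funext j
  rcases j with j | j <;> exact der_const _

omit [Fintype ι] [DecidableEq ι] in
theorem sm_add (h : SmV β x) (h' : SmV β' x) : SmV (fun y => β y + β' y) x :=
  fun i => (h i).add (h' i)

omit [Fintype ι] [DecidableEq ι] in
theorem d_add (h : SmV β x) (h' : SmV β' x) :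
    dV (fun y => β y + β' y) x = dV β x + dV β' x := by
  funext j
  rcases j with j | j <;> exact der_add (h j).diff (h' j).diff

omit [Fintype ι] [DecidableEq ι] in
theorem sm_sub (h : SmV β x) (h' : SmV β' x) : SmV (fun y => β y - β' y) x :=
  fun i => (h i).sub (h' i)

omit [Fintype ι] [DecidableEq ι] in
theorem d_sub (h : SmV β x) (h' : SmV β' x) :
    dV (fun y => β y - β' y) x = dV β x - dV β' x := by
  funext j
  rcases j with j | j <;> exact der_sub (h j).diff (h' j).diff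

omit [Fintype ι] [DecidableEq ι] in
theorem sm_smul (h : SmV β x) (a : ℂ) : SmV (fun y => a • β y) x :=
  fun i => contDiffAt_const.mul (h i)

omit [Fintype ι] [DecidableEq ι] in
theorem d_smul (h : SmV β x) (a : ℂ) : dV (fun y => a • β y) x = a • dV β x := by
  funext j
  rcases j with j | j <;> exact der_const_mul a (h j).diff

omit [DecidableEq ι] in
theorem sm_mul (h : SmV β x) (M : Matrix ι ι ℂ) : SmV (fun y => M *ᵥ β y) x := fun i => by
  show Sm (fun y => ∑ j, M i j * β y j) x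
  exact ContDiffAt.sum fun j _ => contDiffAt_const.mul (h j)

omit [DecidableEq ι] in
theorem derV_mul (h : SmV β x) (M : Matrix ι ι ℂ) (c : ℂ) :
    derV c 1 (fun y => M *ᵥ β y) x = M *ᵥ derV c 1 β x := by
  funext i
  show der c 1 (fun y => ∑ j, M i j * β y j) x = ∑ j, M i j * der c 1 (fun y => β y j) x
  rw [der_sum _ fun j _ => (Sm.diff (contDiffAt_const.mul (h j)))]
  exact Finset.sum_congr rfl fun j _ => der_const_mul _ (h j).diff

theorem d_mul (h : SmV β x) (M : Matrix ι ι ℂ) :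
    dV (fun y => M *ᵥ β y) x = two M *ᵥ dV β x := by
  rw [two_mulVec, dV, derV_mul h, derV_mul h]
  rfl

omit [DecidableEq ι] in
/-- a function with zero differential is constant on a connected open set -/
theorem const_on {O : Set ℂ} (hO : IsOpen O) (hc : IsPreconnected O)
    (h : ∀ x ∈ O, SmV β x ∧ dV β x = 0) {x y : ℂ} (hx : x ∈ O) (hy : y ∈ O) : β x = β y := by
  refine hc.induction₂' (fun x y => β x = β y) (fun x hx => ?_) (fun _ _ _ _ _ _ a b => a.trans b) hx hy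
  have h1 : ∀ᶠ x' in 𝓝 x, β x' = β x :=
    const_of_dV (Filter.mem_of_superset (hO.mem_nhds hx) h)
  exact (h1.filter_mono nhdsWithin_le_nhds).mono fun _ e => ⟨e.symm, e⟩

theorem two_two (g h : GL ι ℤ) (u : ι ⊕ ι → ℂ) :
    two (cx g) *ᵥ (two (cx h) *ᵥ u) = two (cx (g * h)) *ᵥ u := by
  rw [mulVec_mulVec, two_mul_two, cx_mul]

theorem cx_cx (g h : GL ι ℤ) (u : ι → ℂ) : cx g *ᵥ (cx h *ᵥ u) = cx (g * h) *ᵥ u := by
  rw [mulVec_mulVec, cx_mul]

/-- a primitive in a flat frame agrees with a primitive modulo `Λ` up to a constant -/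
theorem mod_const {α : Form ι} {Λ : AddSubgroup ℂ} {b : ℂ → ι → ℂ}
    (hb : ∀ x ∈ Ω, ∃ β : ℂ → ι → ℂ, ∀ᶠ x' in 𝓝 x, SmV β x' ∧
      dV β x' = two (cx (V.κ x x')) *ᵥ α x' ∧ ∀ i, β x' i - V.loc b x x' i ∈ Λ)
    {O : Set ℂ} (hO : IsOpen O) (hc : IsPreconnected O) (hs : O ⊆ Ω) {k : ℂ → GL ι ℤ}
    (hk : IsFr O V.κ k) {γ : ℂ → ι → ℂ}
    (hγ : ∀ x ∈ O, SmV γ x ∧ dV γ x = two (cx (k x)) *ᵥ α x) {x y : ℂ} (hx : x ∈ O) (hy : y ∈ O) :
    ∀ i, ((γ x - cx (k x) *ᵥ b x) - (γ y - cx (k y) *ᵥ b y)) i ∈ Λ := by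
  refine hc.induction₂'
    (fun x y => ∀ i, ((γ x - cx (k x) *ᵥ b x) - (γ y - cx (k y) *ᵥ b y)) i ∈ Λ)
    (fun x hx => ?_) (fun x y z _ _ _ h1 h2 i => ?_) hx hy
  · obtain ⟨β, hβ⟩ := hb x (hs hx)
    have hk' : ∀ᶠ x' in 𝓝 x, k x' = k x * V.κ x x' := by
      have := hk x hx
      rwa [hO.nhdsWithin_eq hx] at this
    have h0 : ∀ᶠ x' in 𝓝 x, SmV (fun y => γ y - cx (k x) *ᵥ β y) x' ∧
        dV (fun y => γ y - cx (k x) *ᵥ β y) x' = 0 := by
      filter_upwards [hβ, hk', hO.mem_nhds hx] with x' h1 h2 h3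
      refine ⟨sm_sub (hγ x' h3).1 (sm_mul h1.1 _), ?_⟩
      rw [d_sub (hγ x' h3).1 (sm_mul h1.1 _), d_mul h1.1, (hγ x' h3).2, h1.2.1, two_two, h2,
        sub_self]
    have h1 := const_of_dV h0
    have hx0 := hβ.self_of_nhds.2.2
    rw [V.loc_self b (hs hx)] at hx0
    refine Filter.Eventually.filter_mono nhdsWithin_le_nhds ?_
    filter_upwards [hβ, hk', h1] with x' h2 h3 h4
    have key : ∀ i, ((γ x - cx (k x) *ᵥ b x) - (γ x' - cx (k x') *ᵥ b x')) i ∈ Λ := by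
      intro i
      have e : (γ x - cx (k x) *ᵥ b x) - (γ x' - cx (k x') *ᵥ b x') =
          cx (k x) *ᵥ ((β x - b x) - (β x' - V.loc b x x')) := by
        have e1 : γ x' = γ x - cx (k x) *ᵥ β x + cx (k x) *ᵥ β x' := by
          rw [← h4]; abel
        rw [e1, h3, ← cx_cx, mulVec_sub, mulVec_sub, mulVec_sub, VHS.loc]
        abel
      rw [e]
      exact cx_mem Λ _ (fun j => Λ.sub_mem (hx0 j) (h2.2.2 j)) i
    refine ⟨key, fun i => ?_⟩
    have := Λ.neg_mem (key i)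
    simpa using this
  · have := Λ.add_mem (h1 i) (h2 i)
    simpa using this

end PerA

open PerA

namespace Slit

variable (L : Slit V) {α α' : Form ι} {c c' : Fin L.n → ι → ℂ}

include L in
theorem per_open : IsOpen Ω := by
  have : Ω = ⋂ i, {x | x ≠ L.r i} := by
    ext x
    simp [L.mem]
  rw [this]
  exact isOpen_iInter_of_finite fun i => isOpen_ne

theorem per_co_cont (i : Fin L.n) : Continuous fun x => (co L.b (L.r i) x).im := by
  unfold co
  fun_prop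

theorem per_minus_open (i : Fin L.n) :
    IsOpen (cone L.b (L.r i) L.ε ∩ {x | (co L.b (L.r i) x).im < 0}) :=
  (isOpen_cone _ _ _).inter (isOpen_lt (L.per_co_cont i) continuous_const)

theorem per_plus_open (i : Fin L.n) :
    IsOpen (cone L.b (L.r i) L.ε ∩ {x | 0 < (co L.b (L.r i) x).im}) :=
  (isOpen_cone _ _ _).inter (isOpen_lt continuous_const (L.per_co_cont i))

theorem per_re {i : Fin L.n} {x : ℂ} (hx : x ∈ cone L.b (L.r i) L.ε) :
    0 ≤ (co L.b (L.r i) x).re :=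
  ((mul_pos_iff_of_pos_left L.pos).mp ((abs_nonneg _).trans_lt hx)).le

theorem per_ex (h : V.Closed α) : ∃ c, L.Per α c := by
  have hs := star_cut (b := L.b) (r := L.r) L.ne
  obtain ⟨β0, h0⟩ := exists_prim (isOpen_cut L.b L.r) hs.1 hs.2
    (α := fun y => two (cx (L.k0 y)) *ᵥ α y)
    (fun x hx => (h.fr (isOpen_cut _ _) L.cut_sub L.fr0 hx).1)
    (fun x hx => (h.fr (isOpen_cut _ _) L.cut_sub L.fr0 hx).2.1)
    (fun x hx => (h.fr (isOpen_cut _ _) L.cut_sub L.fr0 hx).2.2)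
  have key : ∀ i, ∃ (β : ℂ → ι → ℂ) (c : ι → ℂ), ∀ x ∈ cone L.b (L.r i) L.ε,
      (SmV β x ∧ dV β x = two (cx (L.k i x)) *ᵥ α x) ∧
      ((co L.b (L.r i) x).im < 0 → β0 x = β x) ∧
      (0 < (co L.b (L.r i) x).im → β0 x = cx (L.T i) *ᵥ β x + c) := by
    intro i
    obtain ⟨p, hp⟩ := L.minus_ne i
    obtain ⟨q, hq⟩ := L.plus_ne i
    obtain ⟨γ, hγ⟩ := exists_prim (isOpen_cone L.b (L.r i) L.ε) hp.1
      ((convex_cone _ _ _).starConvex hp.1) (α := fun y => two (cx (L.k i y)) *ᵥ α y)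
      (fun x hx => (h.fr (isOpen_cone _ _ _) (L.cone_sub i) (L.fr i) hx).1)
      (fun x hx => (h.fr (isOpen_cone _ _ _) (L.cone_sub i) (L.fr i) hx).2.1)
      (fun x hx => (h.fr (isOpen_cone _ _ _) (L.cone_sub i) (L.fr i) hx).2.2)
    have hβ : ∀ x ∈ cone L.b (L.r i) L.ε, SmV (fun y => γ y + (β0 p - γ p)) x ∧
        dV (fun y => γ y + (β0 p - γ p)) x = two (cx (L.k i x)) *ᵥ α x := fun x hx =>
      ⟨sm_add (hγ x hx).1 (sm_const _ _), by
        rw [d_add (hγ x hx).1 (sm_const _ _), d_const, add_zero, (hγ x hx).2]⟩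
    refine ⟨fun y => γ y + (β0 p - γ p), β0 q - cx (L.T i) *ᵥ (γ q + (β0 p - γ p)),
      fun x hx => ⟨hβ x hx, fun hm => ?_, fun hm => ?_⟩⟩
    · have := const_on (β := fun y => β0 y - γ y) (L.per_minus_open i)
        (convex_cone_minus _ _ _).isPreconnected (fun y hy => by
          have hc := L.mem_cut i hy.1 (ne_of_lt hy.2)
          refine ⟨sm_sub (h0 y hc).1 (hγ y hy.1).1, ?_⟩
          rw [d_sub (h0 y hc).1 (hγ y hy.1).1, (h0 y hc).2, (hγ y hy.1).2,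
            L.minus i y ⟨hy.1, hc⟩ hy.2, sub_self]) ⟨hx, hm⟩ hp
      show β0 x = γ x + (β0 p - γ p)
      rw [← this]
      abel
    · have := const_on (β := fun y => β0 y - cx (L.T i) *ᵥ (γ y + (β0 p - γ p)))
        (L.per_plus_open i) (convex_cone_plus _ _ _).isPreconnected (fun y hy => by
          have hc := L.mem_cut i hy.1 (ne_of_gt hy.2)
          refine ⟨sm_sub (h0 y hc).1 (sm_mul (hβ y hy.1).1 _), ?_⟩
          rw [d_sub (h0 y hc).1 (sm_mul (hβ y hy.1).1 _), d_mul (hβ y hy.1).1, (h0 y hc).2,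
            (hβ y hy.1).2, two_two, L.plus i y ⟨hy.1, hc⟩ hy.2, sub_self]) ⟨hx, hm⟩ hq
      rw [← this]
      abel
  choose β c hβ using key
  exact ⟨c, β0, β, h0, hβ⟩

theorem per_zero (v : ι → ℂ) : L.Per 0 (L.cob v) := by
  refine ⟨fun _ => v, fun _ _ => v, fun x _ => ⟨sm_const _ _, ?_⟩,
    fun i x _ => ⟨⟨sm_const _ _, ?_⟩, fun _ => rfl, fun _ => ?_⟩⟩
  · rw [d_const, Pi.zero_apply, mulVec_zero]
  · rw [d_const, Pi.zero_apply, mulVec_zero]
  · simp [cob]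

theorem Per.congr (h : L.Per α c) (he : ∀ x ∈ Ω, α' x = α x) : L.Per α' c := by
  obtain ⟨β0, β, h0, h1⟩ := h
  refine ⟨β0, β, fun x hx => ?_, fun i x hx => ?_⟩
  · rw [he x (L.cut_sub hx)]
    exact h0 x hx
  · rw [he x (L.cone_sub i hx)]
    exact h1 i x hx

theorem Per.add (h : L.Per α c) (h' : L.Per α' c') : L.Per (α + α') (c + c') := by
  obtain ⟨β0, β, h0, h1⟩ := h
  obtain ⟨γ0, γ, g0, g1⟩ := h'
  refine ⟨fun y => β0 y + γ0 y, fun i y => β i y + γ i y,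
    fun x hx => ⟨sm_add (h0 x hx).1 (g0 x hx).1, ?_⟩,
    fun i x hx => ⟨⟨sm_add (h1 i x hx).1.1 (g1 i x hx).1.1, ?_⟩, fun hm => ?_, fun hm => ?_⟩⟩
  · rw [d_add (h0 x hx).1 (g0 x hx).1, (h0 x hx).2, (g0 x hx).2, Pi.add_apply, mulVec_add]
  · rw [d_add (h1 i x hx).1.1 (g1 i x hx).1.1, (h1 i x hx).1.2, (g1 i x hx).1.2, Pi.add_apply,
      mulVec_add]
  · show β0 x + γ0 x = β i x + γ i x
    rw [(h1 i x hx).2.1 hm, (g1 i x hx).2.1 hm]
  · show β0 x + γ0 x = cx (L.T i) *ᵥ (β i x + γ i x) + (c i + c' i)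
    rw [(h1 i x hx).2.2 hm, (g1 i x hx).2.2 hm, mulVec_add]
    abel

theorem Per.smul (h : L.Per α c) (a : ℂ) : L.Per (a • α) (a • c) := by
  obtain ⟨β0, β, h0, h1⟩ := h
  refine ⟨fun y => a • β0 y, fun i y => a • β i y, fun x hx => ⟨sm_smul (h0 x hx).1 a, ?_⟩,
    fun i x hx => ⟨⟨sm_smul (h1 i x hx).1.1 a, ?_⟩, fun hm => ?_, fun hm => ?_⟩⟩
  · rw [d_smul (h0 x hx).1, (h0 x hx).2, Pi.smul_apply, mulVec_smul]
  · rw [d_smul (h1 i x hx).1.1, (h1 i x hx).1.2, Pi.smul_apply, mulVec_smul]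
  · show a • β0 x = a • β i x
    rw [(h1 i x hx).2.1 hm]
  · show a • β0 x = cx (L.T i) *ᵥ (a • β i x) + a • c i
    rw [(h1 i x hx).2.2 hm, mulVec_smul, smul_add]

theorem Per.sub (h : L.Per α c) (h' : L.Per α' c') : L.Per (α - α') (c - c') := by
  have := Per.add L h (Per.smul L h' (-1))
  rwa [neg_one_smul, neg_one_smul, ← sub_eq_add_neg, ← sub_eq_add_neg] at this

theorem Per.sum {J : Type} (s : Finset J) {α : J → Form ι} {c : J → Fin L.n → ι → ℂ}
    (h : ∀ j ∈ s, L.Per (α j) (c j)) (a : J → ℂ) :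
    L.Per (∑ j ∈ s, a j • α j) (∑ j ∈ s, a j • c j) := by
  classical
  induction s using Finset.induction_on with
  | empty =>
    have e : L.cob 0 = 0 := by
      funext i
      simp [cob]
    have := L.per_zero 0
    rw [e] at this
    simpa using this
  | insert j s hj ih =>
    rw [Finset.sum_insert hj, Finset.sum_insert hj]
    exact Per.add L (Per.smul L (h j (Finset.mem_insert_self _ _)) _)
      (ih fun i hi => h i (Finset.mem_insert_of_mem hi))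

/-- a cocycle with values in `Λ` gives a primitive modulo `Λ` -/
theorem Per.prim_of_mem (h : L.Per α c) {Λ : AddSubgroup ℂ} (hΛ : ∀ i j, c i j ∈ Λ) :
    V.PrimMod Λ α := by
  classical
  obtain ⟨β0, β, h0, h1⟩ := h
  let b : ℂ → ι → ℂ := fun x =>
    if h : ∃ i, x ∈ cone L.b (L.r i) L.ε ∧ (co L.b (L.r i) x).im = 0 then
      cx (L.k h.choose x)⁻¹ *ᵥ β h.choose x
    else cx (L.k0 x)⁻¹ *ᵥ β0 x
  have b0 : ∀ x ∈ cut L.b L.r, b x = cx (L.k0 x)⁻¹ *ᵥ β0 x := fun x hx =>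
    dif_neg fun ⟨i, hi, e⟩ => hx i ⟨e, L.per_re hi⟩
  have b1 : ∀ i, ∀ x ∈ cone L.b (L.r i) L.ε, (co L.b (L.r i) x).im = 0 →
      b x = cx (L.k i x)⁻¹ *ᵥ β i x := fun i x hx e => by
    have h : ∃ i, x ∈ cone L.b (L.r i) L.ε ∧ (co L.b (L.r i) x).im = 0 := ⟨i, hx, e⟩
    have e1 : h.choose = i := L.uniq h.choose_spec.1 ⟨e, L.per_re hx⟩
    have e2 : b x = cx (L.k h.choose x)⁻¹ *ᵥ β h.choose x := dif_pos h
    rw [e2, e1]
  refine ⟨b, fun x hx => ?_⟩
  rcases L.cover hx with hx | ⟨i, hx, -⟩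
  · refine ⟨fun y => cx (L.k0 x)⁻¹ *ᵥ β0 y, ?_⟩
    have hk := L.fr0 x hx
    rw [(isOpen_cut _ _).nhdsWithin_eq hx] at hk
    filter_upwards [hk, (isOpen_cut _ _).mem_nhds hx] with y e hy
    refine ⟨sm_mul (h0 y hy).1 _, ?_, fun j => ?_⟩
    · rw [d_mul (h0 y hy).1, (h0 y hy).2, two_two, e, inv_mul_cancel_left]
    · rw [VHS.loc, b0 y hy, cx_cx, e, _root_.mul_inv_rev, mul_inv_cancel_left, sub_self]
      exact Λ.zero_mem
  · refine ⟨fun y => cx (L.k i x)⁻¹ *ᵥ β i y, ?_⟩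
    have hk := L.fr i x hx
    rw [(isOpen_cone _ _ _).nhdsWithin_eq hx] at hk
    filter_upwards [hk, (isOpen_cone _ _ _).mem_nhds hx] with y e hy
    refine ⟨sm_mul (h1 i y hy).1.1 _, ?_, fun j => ?_⟩
    · rw [d_mul (h1 i y hy).1.1, (h1 i y hy).1.2, two_two, e, inv_mul_cancel_left]
    · have e' : V.κ x y * (L.k i y)⁻¹ = (L.k i x)⁻¹ := by
        rw [e, _root_.mul_inv_rev, mul_inv_cancel_left]
      rcases lt_trichotomy (co L.b (L.r i) y).im 0 with hm | hm | hm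
      · have hc := L.mem_cut i hy hm.ne
        rw [VHS.loc, b0 y hc, cx_cx, L.minus i y ⟨hy, hc⟩ hm, e', (h1 i y hy).2.1 hm, sub_self]
        exact Λ.zero_mem
      · rw [VHS.loc, b1 i y hy hm, cx_cx, e', sub_self]
        exact Λ.zero_mem
      · have hc := L.mem_cut i hy hm.ne'
        have e2 : V.κ x y * (L.k0 y)⁻¹ * L.T i = (L.k i x)⁻¹ := by
          rw [L.plus i y ⟨hy, hc⟩ hm, _root_.mul_inv_rev, ← mul_assoc, inv_mul_cancel_right, e']
        rw [VHS.loc, b0 y hc, cx_cx, (h1 i y hy).2.2 hm, mulVec_add, cx_cx, e2, Pi.add_apply,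
          sub_add_cancel_left]
        exact Λ.neg_mem (cx_mem Λ _ (hΛ i) j)

theorem Per.prim (h : L.Per α c) (Λ : AddSubgroup ℂ) :
    V.PrimMod Λ α ↔ ∃ v, ∀ i j, (c - L.cob v) i j ∈ Λ := by
  constructor
  · rintro ⟨b, hb⟩
    obtain ⟨β0, β, h0, h1⟩ := h
    have hs := star_cut (b := L.b) (r := L.r) L.ne
    have hcut : IsPreconnected (cut L.b L.r) := (hs.2.isPathConnected hs.1).isConnected.isPreconnected
    refine ⟨β0 L.b - cx (L.k0 L.b) *ᵥ b L.b, fun i j => ?_⟩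
    obtain ⟨p, hp⟩ := L.minus_ne i
    obtain ⟨q, hq⟩ := L.plus_ne i
    have hpc := L.mem_cut i hp.1 (ne_of_lt hp.2)
    have hqc := L.mem_cut i hq.1 (ne_of_gt hq.2)
    have e1 := mod_const hb (isOpen_cut _ _) hcut L.cut_sub L.fr0 h0 hqc hs.1
    have e2 := mod_const hb (isOpen_cut _ _) hcut L.cut_sub L.fr0 h0 hpc hs.1
    have e3 := mod_const hb (isOpen_cone _ _ _) (convex_cone _ _ _).isPreconnected (L.cone_sub i)
      (L.fr i) (fun x hx => (h1 i x hx).1) hq.1 hp.1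
    rw [(h1 i q hq.1).2.2 hq.2, L.plus i q ⟨hq.1, hqc⟩ hq.2, ← cx_cx] at e1
    rw [(h1 i p hp.1).2.1 hp.2, L.minus i p ⟨hp.1, hpc⟩ hp.2] at e2
    have e4 := Λ.sub_mem (e1 j) (cx_mem Λ (L.T i) (fun l => Λ.add_mem (e3 l) (e2 l)) j)
    have e : (c - L.cob (β0 L.b - cx (L.k0 L.b) *ᵥ b L.b)) i =
        (cx (L.T i) *ᵥ β i q + c i - cx (L.T i) *ᵥ cx (L.k i q) *ᵥ b q -
          (β0 L.b - cx (L.k0 L.b) *ᵥ b L.b)) -
        cx (L.T i) *ᵥ ((β i q - cx (L.k i q) *ᵥ b q - (β i p - cx (L.k i p) *ᵥ b p)) +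
          (β i p - cx (L.k i p) *ᵥ b p - (β0 L.b - cx (L.k0 L.b) *ᵥ b L.b))) := by
      simp only [Pi.sub_apply, cob, mulVec_add, mulVec_sub]
      abel
    rw [e]
    exact e4
  · rintro ⟨v, hv⟩
    have := Per.sub L h (L.per_zero v)
    rw [sub_zero] at this
    exact Per.prim_of_mem L this hv

theorem Per.exact (h : L.Per α c) : V.Exact α ↔ ∃ v, c = L.cob v := by
  rw [VHS.exact_iff L.per_open, Per.prim L h]
  refine exists_congr fun v => ⟨fun h => ?_, fun h i j => ?_⟩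
  · funext i j
    exact sub_eq_zero.mp (AddSubgroup.mem_bot.mp (h i j))
  · rw [h, sub_self]
    exact AddSubgroup.zero_mem _

end Slit

end

end Pool.Agent.Lib.MP_5c318e_ag.V
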