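import Pool.Agent.Lib.MP_5c318e_ag.V.Defs

/-!
Slit planes and periods, pull back of forms, holomorphic motions, and the output of the
integration over one variable.
-/

set_option autoImplicit false

namespace Pool.Agent.Lib.MP_5c318e_ag.V

open Matrix Filter Topology MeasureTheory Complex Metric
open scoped ComplexOrder ContDiff ComplexConjugate

noncomputable section

variable {ι : Type} [Fintype ι] [DecidableEq ι] {w : ℕ}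

/-! ### Slits -/

section Slit

variable {Ω : Set ℂ}

/-- the coordinate in which the slit at `r` is the positive real axis -/
def co (b r x : ℂ) : ℂ := (x - r) / (r - b)

/-- a cone around the slit at `r` -/
def cone (b r : ℂ) (ε : ℝ) : Set ℂ := {x | |(co b r x).im| < ε * (co b r x).re}

/-- the plane without the slits -/
def cut {n : ℕ} (b : ℂ) (r : Fin n → ℂ) : Set ℂ :=
  {x | ∀ i, ¬((co b (r i) x).im = 0 ∧ 0 ≤ (co b (r i) x).re)}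

/-- radial slits and flat frames -/
structure Slit (V : VHS ℂ Ω ι w) where
  n : ℕ
  r : Fin n → ℂ
  b : ℂ
  ε : ℝ
  k0 : ℂ → GL ι ℤ
  k : Fin n → ℂ → GL ι ℤ
  T : Fin n → GL ι ℤ
  mem : ∀ x, x ∈ Ω ↔ ∀ i, x ≠ r i
  ne : ∀ i, r i ≠ b
  pos : 0 < ε
  sep : ∀ i j, i ≠ j → ε * ((r j - b) / (r i - b)).re ≤ |((r j - b) / (r i - b)).im|
  fr0 : IsFr (cut b r) V.κ k0
  fr : ∀ i, IsFr (cone b (r i) ε) V.κ (k i)
  minus : ∀ i, ∀ x ∈ cone b (r i) ε ∩ cut b r, (co b (r i) x).im < 0 → k0 x = k i x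
  plus : ∀ i, ∀ x ∈ cone b (r i) ε ∩ cut b r, 0 < (co b (r i) x).im → k0 x = T i * k i x

namespace Slit

variable {V : VHS ℂ Ω ι w} (L : Slit V)

/-- `c` is a period cocycle of `α` -/
def Per (α : Form ι) (c : Fin L.n → ι → ℂ) : Prop :=
  ∃ (β0 : ℂ → ι → ℂ) (β : Fin L.n → ℂ → ι → ℂ),
    (∀ x ∈ cut L.b L.r, SmV β0 x ∧ dV β0 x = two (cx (L.k0 x)) *ᵥ α x) ∧
    ∀ i, ∀ x ∈ cone L.b (L.r i) L.ε, (SmV (β i) x ∧ dV (β i) x = two (cx (L.k i x)) *ᵥ α x) ∧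
      ((co L.b (L.r i) x).im < 0 → β0 x = β i x) ∧
      (0 < (co L.b (L.r i) x).im → β0 x = cx (L.T i) *ᵥ β i x + c i)

/-- the coboundary of a vector -/
def cob (v : ι → ℂ) : Fin L.n → ι → ℂ := fun i => v - cx (L.T i) *ᵥ v

end Slit

end Slit

/-! ### Pull back -/

section Pull

variable {Ω Ω' : Set ℂ}

/-- pull back of a section -/
def pullS (f : ℂ → ℂ) (m : ℂ → GL ι ℤ) (e : ℂ → ι → ℂ) : ℂ → ι → ℂ :=
  fun x => cx (m x) *ᵥ e (f x)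

/-- pull back of a form -/
def pullF (f : ℂ → ℂ) (m : ℂ → GL ι ℤ) (α : Form ι) : Form ι :=
  fun x => jm (der (-I) 1 f x) (der I 1 f x) (cx (m x)) *ᵥ α (f x)

/-- a smooth map covered by an isometry of the local systems -/
structure Mor (V : VHS ℂ Ω ι w) (V' : VHS ℂ Ω' ι w) (f : ℂ → ℂ) (m : ℂ → GL ι ℤ) : Prop where
  op : IsOpen Ω
  op' : IsOpen Ω'
  maps : Set.MapsTo f Ω Ω'
  sm : ∀ x ∈ Ω, Sm f x
  tr : ∀ x ∈ Ω, ∀ᶠ x' in 𝓝 x, V.κ x x' * m x' = m x * V'.κ (f x) (f x')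
  iso : ∀ x ∈ Ω, V'.ψ (f x) = (cx (m x))ᴴ * V.ψ x * cx (m x)

end Pull

/-! ### Holomorphic motions -/

section Fam

variable {A : Type} [NormedAddCommGroup A] [NormedSpace ℂ A] {Ω : Set (A × ℂ)}
  {E : Type} [NormedAddCommGroup E] [NormedSpace ℂ E]

/-- a holomorphic motion of the plane that follows `Ω` along `φ` and fixes a neighbourhood
of `K` -/
structure Mot (Ω : Set (A × ℂ)) (φ : E → A) (a0 : E) (K : Set ℂ) where
  δ : ℝ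
  z : E → ℂ → ℂ
  zi : E → ℂ → ℂ
  pos : 0 < δ
  an : ∀ a ∈ ball a0 δ, AnalyticAt ℂ φ a
  fin : ∀ a ∈ ball a0 δ, (fb Ω (φ a))ᶜ.Finite
  op : IsOpen {p : E × ℂ | p.1 ∈ ball a0 δ ∧ (φ p.1, p.2) ∈ Ω}
  z0 : ∀ x, z a0 x = x
  li : ∀ a ∈ ball a0 δ, ∀ x, zi a (z a x) = x
  ri : ∀ a ∈ ball a0 δ, ∀ x, z a (zi a x) = x
  mem : ∀ a ∈ ball a0 δ, ∀ x, (φ a, z a x) ∈ Ω ↔ (φ a0, x) ∈ Ω
  smz : ∀ a ∈ ball a0 δ, ∀ x, Sm (fun p : E × ℂ => z p.1 p.2) (a, x)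
  smi : ∀ a ∈ ball a0 δ, ∀ x, Sm (zi a) x
  hol : ∀ x, AnalyticOnNhd ℂ (fun a => z a x) (ball a0 δ)
  hol1 : ∀ x, AnalyticOnNhd ℂ (fun a => der (-I) 1 (z a) x) (ball a0 δ)
  hol2 : ∀ x, AnalyticOnNhd ℂ (fun a => der I 1 (z a) x) (ball a0 δ)
  small : ∀ a ∈ ball a0 δ, ∀ x, ‖der (-I) 1 (z a) x - 1‖ + ‖der I 1 (z a) x‖ ≤ 1 / 2
  fix : ∀ x ∈ K, ∀ᶠ x' in 𝓝 x, ∀ a ∈ ball a0 δ, z a x' = x'

/-- a motion with the transport of the local system -/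
structure Fam (V : VHS (A × ℂ) Ω ι w) (φ : E → A) (a0 : E) (K : Set ℂ) extends
    Mot Ω φ a0 K where
  m : E → ℂ → GL ι ℤ
  m0 : ∀ x ∈ fb Ω (φ a0), m a0 x = 1
  tr : ∀ a ∈ ball a0 δ, ∀ x ∈ fb Ω (φ a0), ∀ᶠ p : E × ℂ in 𝓝 (a, x),
    V.κ (φ a0, x) (φ a0, p.2) * m p.1 p.2 = m a x * V.κ (φ a, z a x) (φ p.1, z p.1 p.2)
  iso : ∀ a ∈ ball a0 δ, ∀ x ∈ fb Ω (φ a0),
    V.ψ (φ a, z a x) = (cx (m a x))ᴴ * V.ψ (φ a0, x) * cx (m a x)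

namespace Fam

variable {V : VHS (A × ℂ) Ω ι w} {φ : E → A} {a0 : E} {K : Set ℂ} (M : Fam V φ a0 K)

/-- forms on the fibre over `φ a` pulled back to the central fibre -/
def pb (a : E) (α : Form ι) : Form ι := pullF (M.z a) (M.m a) α

/-- forms on the central fibre carried to the fibre over `φ a` -/
def pf (a : E) (α : Form ι) : Form ι := pullF (M.zi a) (fun x => (M.m a (M.zi a x))⁻¹) α

/-- the matrix of the pull back -/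
def J (a : E) (x : ℂ) : Matrix (ι ⊕ ι) (ι ⊕ ι) ℂ :=
  jm (der (-I) 1 (M.z a) x) (der I 1 (M.z a) x) (cx (M.m a x))

/-- the projectors of the fibre over `φ a` on forms of the central fibre -/
def P (x : ℂ) (p : ℤ) (a : E) : Matrix (ι ⊕ ι) (ι ⊕ ι) ℂ :=
  M.J a x * prj1 (fun p => V.π p (φ a, M.z a x)) p * (M.J a x)⁻¹

end Fam

/-- `κW` is the transport of cohomology classes -/
def KW (V : VHS (A × ℂ) Ω ι w) (S : Set A) {n : ℕ} (F : A → FD ι n) (κW : A → A → GL (Fin n) ℤ) :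
    Prop :=
  ∀ (E : Type) [NormedAddCommGroup E] [NormedSpace ℂ E] (φ : E → A) (a0 : E) (K : Set ℂ)
    (M : Fam V φ a0 K), Plot S φ a0 → IsCompact K →
    (∀ j, ∀ x ∈ fb Ω (φ a0), x ∉ K → (F (φ a0)).e j x = 0) →
    ∀ᶠ a in 𝓝 a0, ∀ ζ, (V.fib (φ a)).Z ζ →
      cx (κW (φ a0) (φ a)) *ᵥ (F (φ a)).cls (V.fib (φ a)) ζ =
        (F (φ a0)).cls (V.fib (φ a0)) (M.pb a ζ)

/-- the data over the base: lattice bases of all fibres and the transport -/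
structure Ctx (V : VHS (A × ℂ) Ω ι w) (S : Set A) {n : ℕ} (F : A → FD ι n)
    (κW : A → A → GL (Fin n) ℤ) : Prop where
  ch : Charted S
  roots : Roots S Ω
  fib : ∀ s ∈ S, Fib (V.fib s) (F s)
  germ : Germ S κW
  kw : KW V S F κW

end Fam

/-! ### The output -/

section Step

variable {A : Type} [NormedAddCommGroup A] [NormedSpace ℂ A] {Ω : Set (A × ℂ)}

/-- the squared Hodge norm of a vector -/
def VHS.nv {U : Set A} (V : VHS A U ι w) (y : A) (u : ι → ℂ) : ℝ := (qf (V.H y) u u).re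

/-- the variation of weight `w + 1` obtained by integration over the last variable -/
structure Step (V : VHS (A × ℂ) Ω ι w) (S : Set A) (n : ℕ) where
  W : VHS A S (Fin n) (w + 1)
  up : A → (Fin n → ℂ) →ₗ[ℂ] ℂ → ι → ℂ
  dn : A → (ℂ → ι → ℂ) → Fin n → ℂ
  ed : (A × ℂ → Matrix ι ι ℂ) → A → Matrix (Fin n) (Fin n) ℂ
  up_top : ∀ s ∈ S, ∀ v, W.π (w + 1 : ℕ) s *ᵥ v = v →
    V.HolTop (fun x => (s, x)) (up s v) (fb Ω s) ∧
      (Integrable fun x => V.nv (s, x) (up s v x)) ∧ dn s (up s v) = v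
  up_iso : ∀ s ∈ S, ∀ v v', W.π (w + 1 : ℕ) s *ᵥ v = v → W.π (w + 1 : ℕ) s *ᵥ v' = v' →
    qf (W.H s) v v' = ∫ x, qf (V.H (s, x)) (up s v x) (up s v' x)
  dn_top : ∀ s ∈ S, ∀ u, V.HolTop (fun x => (s, x)) u (fb Ω s) →
    (Integrable fun x => V.nv (s, x) (u x)) →
    W.π (w + 1 : ℕ) s *ᵥ dn s u = dn s u ∧ ∀ x ∈ fb Ω s, up s (dn s u) x = u x
  ed_end : ∀ ε, V.End ε → W.End (ed ε)
  ed_up : ∀ ε, V.End ε → ∀ s ∈ S, ∀ v, ∀ x ∈ fb Ω s, up s (ed ε s *ᵥ v) x = ε (s, x) *ᵥ up s v x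
  ed_idem : ∀ ε, V.End ε → (∀ y ∈ Ω, ε y * ε y = ε y) → ∀ s ∈ S, ed ε s * ed ε s = ed ε s
  fam_dn : ∀ (E : Type) [NormedAddCommGroup E] [NormedSpace ℂ E] [FiniteDimensional ℂ E]
    [MeasurableSpace E] [BorelSpace E] (μ : Measure E) [μ.IsAddHaarMeasure] (φ : E → A)
    (O : Set E) (u : E × ℂ → ι → ℂ), IsOpen O → (∀ a ∈ O, Plot S φ a) →
    V.HolTop (fun p : E × ℂ => (φ p.1, p.2)) u {p | p.1 ∈ O ∧ (φ p.1, p.2) ∈ Ω} →
    (∀ a ∈ O, ∃ N ∈ 𝓝 a,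
      ∫⁻ a' in N, (∫⁻ x, ENNReal.ofReal (V.nv (φ a', x) (u (a', x)))) ∂μ < ⊤) →
    W.HolTop φ (fun a => dn (φ a) fun x => u (a, x)) O ∧
      ∀ a ∈ O, Integrable fun x => V.nv (φ a, x) (u (a, x))
  fam_up : ∀ (E : Type) [NormedAddCommGroup E] [NormedSpace ℂ E] [FiniteDimensional ℂ E]
    (φ : E → A) (O : Set E) (v : E → Fin n → ℂ), IsOpen O → (∀ a ∈ O, Plot S φ a) →
    W.HolTop φ v O →
    V.HolTop (fun p : E × ℂ => (φ p.1, p.2)) (fun p => up (φ p.1) (v p.1) p.2)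
      {p | p.1 ∈ O ∧ (φ p.1, p.2) ∈ Ω}

end Step

end

end Pool.Agent.Lib.MP_5c318e_ag.V
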